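import Mathlib

/-!
Shifting vertical lines of integration.
-/

namespace Pool.Agent.H26

open MeasureTheory Set Filter Topology Complex

/-- Shift of a vertical half line. -/
lemma integral_Ioi_shift {f : ℂ → ℂ} {a b H : ℝ} (hab : a ≤ b)
    (hf : ∀ z : ℂ, a ≤ z.re → z.re ≤ b → H ≤ z.im → DifferentiableAt ℂ f z)
    {m : ℝ → ℝ} (hm : ∀ x y : ℝ, a ≤ x → x ≤ b → H ≤ y → ‖f (x + y * I)‖ ≤ m y)
    (hmi : IntegrableOn m (Ioi H)) (hm0 : Tendsto m atTop (𝓝 0)) :
    ∫ y in Ioi H, f (b + y * I) = (∫ y in Ioi H, f (a + y * I)) +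
      I * ∫ x in a..b, f (x + H * I) := by
  have hcont : ∀ c : ℝ, a ≤ c → c ≤ b → ContinuousOn (fun y : ℝ => f (c + y * I)) (Ici H) := by
    intro c hc1 hc2 y hy
    have h1 : ContinuousAt f (c + y * I) := (hf _ (by simpa using hc1) (by simpa using hc2)
      (by simpa using hy)).continuousAt
    have h2 : ContinuousAt (fun y : ℝ => (c + y * I : ℂ)) y := by fun_prop
    exact (ContinuousAt.comp (f := fun y : ℝ => (c + y * I : ℂ)) h1 h2).continuousWithinAt
  have hint : ∀ c : ℝ, a ≤ c → c ≤ b → IntegrableOn (fun y : ℝ => f (c + y * I)) (Ioi H) := by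
    intro c hc1 hc2
    refine Integrable.mono' hmi
      (((hcont c hc1 hc2).mono Ioi_subset_Ici_self).aestronglyMeasurable measurableSet_Ioi) ?_
    filter_upwards [ae_restrict_mem measurableSet_Ioi] with y hy
    exact hm c y hc1 hc2 (le_of_lt hy)
  have hrect : ∀ V : ℝ, H ≤ V →
      (∫ y in H..V, f (b + y * I)) - (∫ y in H..V, f (a + y * I)) -
        I * (∫ x in a..b, f (x + H * I)) = - I * ∫ x in a..b, f (x + V * I) := by
    intro V hV
    have h := Complex.integral_boundary_rect_eq_zero_of_differentiableOn f (a + H * I) (b + V * I)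
      (by
        intro z hz
        rw [Complex.mem_reProdIm] at hz
        simp only [add_re, ofReal_re, mul_re, ofReal_im, I_re, mul_zero, I_im, mul_one, sub_self,
          add_zero, add_im, mul_im, zero_add, uIcc_of_le hab, uIcc_of_le hV] at hz
        exact (hf z hz.1.1 hz.1.2 hz.2.1).differentiableWithinAt)
    simp only [add_re, ofReal_re, mul_re, ofReal_im, I_re, mul_zero, I_im, mul_one, sub_self,
          add_zero, add_im, mul_im, zero_add, smul_eq_mul] at h
    have hI : I * I = -1 := I_mul_I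
    linear_combination (-I) * h + ((∫ y in H..V, f (b + y * I)) - (∫ y in H..V, f (a + y * I))) * hI
  have hlim1 : ∀ c : ℝ, a ≤ c → c ≤ b → Tendsto (fun V : ℝ => ∫ y in H..V, f (c + y * I)) atTop
      (𝓝 (∫ y in Ioi H, f (c + y * I))) := fun c hc1 hc2 =>
    intervalIntegral_tendsto_integral_Ioi H (hint c hc1 hc2) tendsto_id
  have hlim2 : Tendsto (fun V : ℝ => - I * ∫ x in a..b, f (x + V * I)) atTop (𝓝 0) := by
    have h1 : Tendsto (fun V : ℝ => m V * |b - a|) atTop (𝓝 0) := by
      simpa using hm0.mul_const |b - a|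
    refine squeeze_zero_norm' ?_ h1
    filter_upwards [eventually_ge_atTop H] with V hV
    rw [norm_mul, norm_neg, norm_I, one_mul]
    refine intervalIntegral.norm_integral_le_of_norm_le_const fun x hx => ?_
    rw [uIoc_of_le hab] at hx
    exact hm x V hx.1.le hx.2 hV
  have hlim3 : Tendsto (fun V : ℝ => (∫ y in H..V, f (b + y * I)) - (∫ y in H..V, f (a + y * I)) -
        I * (∫ x in a..b, f (x + H * I))) atTop
      (𝓝 ((∫ y in Ioi H, f (b + y * I)) - (∫ y in Ioi H, f (a + y * I)) -
        I * (∫ x in a..b, f (x + H * I)))) :=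
    ((hlim1 b hab le_rfl).sub (hlim1 a le_rfl hab)).sub_const _
  have hlim4 := hlim2.congr' (f₂ := fun V : ℝ => (∫ y in H..V, f (b + y * I)) -
    (∫ y in H..V, f (a + y * I)) - I * (∫ x in a..b, f (x + H * I))) (by
      filter_upwards [eventually_ge_atTop H] with V hV
      exact (hrect V hV).symm)
  have := tendsto_nhds_unique hlim3 hlim4
  linear_combination this

/-- Shift of a lower vertical half line. -/
lemma integral_Iio_shift {f : ℂ → ℂ} {a b H : ℝ} (hab : a ≤ b)
    (hf : ∀ z : ℂ, a ≤ z.re → z.re ≤ b → z.im ≤ H → DifferentiableAt ℂ f z)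
    {m : ℝ → ℝ} (hm : ∀ x y : ℝ, a ≤ x → x ≤ b → y ≤ H → ‖f (x + y * I)‖ ≤ m y)
    (hmi : IntegrableOn m (Iio H)) (hm0 : Tendsto m atBot (𝓝 0)) :
    ∫ y in Iio H, f (b + y * I) = (∫ y in Iio H, f (a + y * I)) -
      I * ∫ x in a..b, f (x + H * I) := by
  have hneg : ∀ g : ℝ → ℂ, ∫ y in Iio H, g y = ∫ y in Ioi (-H), g (-y) := by
    intro g
    rw [← integral_Iic_eq_integral_Iio, integral_comp_neg_Ioi, neg_neg]
  have h := integral_Ioi_shift (f := fun z => f (-z)) (a := -b) (b := -a) (H := -H)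
    (m := fun y => m (-y)) (by linarith) ?_ ?_ ?_ ?_
  · have e1 : ∫ y in Ioi (-H), f (-(((-a : ℝ) : ℂ) + y * I)) = ∫ y in Iio H, f (a + y * I) := by
      rw [hneg]
      refine integral_congr_ae (Eventually.of_forall fun y => ?_)
      simp only
      congr 1
      push_cast
      ring
    have e2 : ∫ y in Ioi (-H), f (-(((-b : ℝ) : ℂ) + y * I)) = ∫ y in Iio H, f (b + y * I) := by
      rw [hneg]
      refine integral_congr_ae (Eventually.of_forall fun y => ?_)
      simp only
      congr 1
      push_cast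
      ring
    have e3 : ∫ x in (-b)..(-a), f (-((x : ℂ) + ((-H : ℝ) : ℂ) * I)) =
        ∫ x in a..b, f (x + H * I) := by
      have h5 := intervalIntegral.integral_comp_neg (a := -b) (b := -a)
        (fun x : ℝ => f (x + H * I))
      rw [neg_neg, neg_neg] at h5
      rw [← h5]
      refine intervalIntegral.integral_congr fun x _ => ?_
      congr 1
      push_cast
      ring
    rw [e1, e2, e3] at h
    rw [h]
    ring
  · intro z h1 h2 h3
    have : DifferentiableAt ℂ f (-z) := hf (-z) (by simp; linarith) (by simp; linarith)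
      (by simp; linarith)
    exact this.comp z (differentiable_neg z)
  · intro x y h1 h2 h3
    have := hm (-x) (-y) (by linarith) (by linarith) (by linarith)
    convert this using 2
    congr 1
    push_cast
    ring
  · exact (integrable_indicator_iff measurableSet_Ioi).1 (by
      have h1 := (integrable_indicator_iff measurableSet_Iio).2 hmi
      have h2 := h1.comp_neg
      refine h2.congr (Eventually.of_forall fun y => ?_)
      simp only [indicator, mem_Iio, mem_Ioi]
      congr 1
      simp only [eq_iff_iff]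
      constructor <;> intro h <;> linarith)
  · exact hm0.comp tendsto_neg_atTop_atBot

/-- Shift of a vertical line. -/
lemma integral_vertical_shift {f : ℂ → ℂ} {a b : ℝ} (hab : a ≤ b)
    (hf : ∀ z : ℂ, a ≤ z.re → z.re ≤ b → DifferentiableAt ℂ f z)
    {m : ℝ → ℝ} (hm : ∀ x y : ℝ, a ≤ x → x ≤ b → ‖f (x + y * I)‖ ≤ m y)
    (hmi : Integrable m) (hm0 : Tendsto m atTop (𝓝 0)) (hm0' : Tendsto m atBot (𝓝 0)) :
    ∫ y : ℝ, f (b + y * I) = ∫ y : ℝ, f (a + y * I) := by
  have hcont : ∀ c : ℝ, a ≤ c → c ≤ b → Continuous (fun y : ℝ => f (c + y * I)) := by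
    intro c hc1 hc2
    rw [continuous_iff_continuousAt]
    intro y
    have h1 : ContinuousAt f (c + y * I) := (hf _ (by simpa using hc1) (by simpa using hc2)
      ).continuousAt
    have h2 : ContinuousAt (fun y : ℝ => (c + y * I : ℂ)) y := by fun_prop
    exact (ContinuousAt.comp (f := fun y : ℝ => (c + y * I : ℂ)) h1 h2)
  have hint : ∀ c : ℝ, a ≤ c → c ≤ b → Integrable (fun y : ℝ => f (c + y * I)) := by
    intro c hc1 hc2
    refine Integrable.mono' hmi (hcont c hc1 hc2).aestronglyMeasurable ?_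
    filter_upwards with y
    exact hm c y hc1 hc2
  have hsplit : ∀ c : ℝ, a ≤ c → c ≤ b → ∫ y : ℝ, f (c + y * I) =
      (∫ y in Iio (0:ℝ), f (c + y * I)) + ∫ y in Ioi (0:ℝ), f (c + y * I) := by
    intro c hc1 hc2
    have := intervalIntegral.integral_Iic_add_Ioi (b := (0:ℝ)) (hint c hc1 hc2).integrableOn
      (hint c hc1 hc2).integrableOn
    rw [← this, integral_Iic_eq_integral_Iio]
  have h1 := integral_Ioi_shift (f := f) (H := 0) hab (fun z h1 h2 _ => hf z h1 h2)
    (fun x y h1 h2 _ => hm x y h1 h2) hmi.integrableOn hm0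
  have h2 := integral_Iio_shift (f := f) (H := 0) hab (fun z h1 h2 _ => hf z h1 h2)
    (fun x y h1 h2 _ => hm x y h1 h2) hmi.integrableOn hm0'
  rw [hsplit b hab le_rfl, hsplit a le_rfl hab, h1, h2]
  ring

/-- Shift of a horizontal line downwards. -/
lemma integral_horizontal_shift {f : ℂ → ℂ} {ε : ℝ} (hε : 0 ≤ ε)
    (hf : ∀ z : ℂ, -ε ≤ z.im → z.im ≤ 0 → DifferentiableAt ℂ f z)
    {m : ℝ → ℝ} (hm : ∀ x y : ℝ, -ε ≤ y → y ≤ 0 → ‖f (x + y * I)‖ ≤ m x)
    (hmi : Integrable m) (hm0 : Tendsto m atTop (𝓝 0)) (hm0' : Tendsto m atBot (𝓝 0)) :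
    ∫ x : ℝ, f x = ∫ x : ℝ, f (x - ε * I) := by
  have h := integral_vertical_shift (f := fun z => f (-I * z)) (a := 0) (b := ε) (m := m) hε
    ?_ ?_ hmi hm0 hm0'
  · have e1 : ∀ y : ℝ, -I * (((0:ℝ) : ℂ) + y * I) = y := by
      intro y
      have := I_mul_I
      push_cast
      linear_combination (-(y:ℂ)) * this
    have e2 : ∀ y : ℝ, -I * ((ε : ℂ) + y * I) = y - ε * I := by
      intro y
      have := I_mul_I
      linear_combination (-(y:ℂ)) * this
    simp only [e1, e2] at h
    exact h.symm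
  · intro z h1 h2
    have h3 : (-I * z).im = - z.re := by simp
    have : DifferentiableAt ℂ f (-I * z) := hf _ (by rw [h3]; linarith) (by rw [h3]; linarith)
    exact DifferentiableAt.comp (f := fun z => -I * z) z this (by fun_prop)
  · intro x y h1 h2
    have e : -I * ((x:ℂ) + y * I) = (y:ℂ) + ((-x : ℝ) : ℂ) * I := by
      have := I_mul_I
      push_cast
      linear_combination (-(y:ℂ)) * this
    rw [e]
    exact hm y (-x) (by linarith) (by linarith)

end Pool.Agent.H26
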