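import Pool.Agent.H26.Chi

/-!
Bounds for the Gamma function on vertical lines.
-/

namespace Pool.Agent.H26

open Complex MeasureTheory Set Filter

lemma norm_Gamma_half_sq (y : ℝ) :
    ‖Gamma (((1 / 2 : ℝ) : ℂ) + y * I)‖ ^ 2 = Real.pi / Real.cosh (Real.pi * y) := by
  have h := Complex.Gamma_mul_Gamma_one_sub (((1 / 2 : ℝ) : ℂ) + y * I)
  have e1 : 1 - (((1 / 2 : ℝ) : ℂ) + (y:ℂ) * I) = ((1 / 2 : ℝ) : ℂ) - y * I := by push_cast; ring
  have e3 : Complex.sin (Real.pi * (((1 / 2 : ℝ) : ℂ) + y * I)) =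
      ((Real.cosh (Real.pi * y) : ℝ) : ℂ) := by
    rw [show (Real.pi : ℂ) * (((1 / 2 : ℝ) : ℂ) + y * I) =
      Real.pi / 2 + ((Real.pi * y : ℝ) : ℂ) * I by
      push_cast; ring, Complex.sin_add, Complex.sin_pi_div_two, Complex.cos_pi_div_two,
      Complex.cos_mul_I, ← Complex.ofReal_cosh]
    ring
  have h2 := congrArg norm h
  rw [norm_mul, e1, norm_Gamma_symm, e3, norm_div, Complex.norm_real, Complex.norm_real,
    Real.norm_eq_abs, Real.norm_eq_abs, abs_of_pos Real.pi_pos, abs_of_pos (Real.cosh_pos _)] at h2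
  rw [sq]
  exact h2

lemma cosh_ge (x : ℝ) : Real.exp |x| / 2 ≤ Real.cosh x := by
  rw [← Real.cosh_abs, Real.cosh_eq]
  have := Real.exp_pos (-|x|)
  linarith

lemma le_of_sq_le_sq {a b : ℝ} (h : a ^ 2 ≤ b ^ 2) (hb : 0 ≤ b) : a ≤ b :=
  le_of_abs_le ((sq_le_sq.1 h).trans_eq (abs_of_nonneg hb))

lemma norm_Gamma_half_le (y : ℝ) :
    ‖Gamma (((1 / 2 : ℝ) : ℂ) + y * I)‖ ≤ 13 / 5 * Real.exp (-(Real.pi * |y| / 2)) := by
  have h := norm_Gamma_half_sq y
  have h1 := cosh_ge (Real.pi * y)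
  rw [abs_mul, abs_of_pos Real.pi_pos] at h1
  have h0 : 0 < Real.exp (Real.pi * |y|) := Real.exp_pos _
  have h2 : ‖Gamma (((1 / 2 : ℝ) : ℂ) + y * I)‖ ^ 2 ≤
      (13 / 5 * Real.exp (-(Real.pi * |y| / 2))) ^ 2 := by
    rw [h, mul_pow, ← Real.exp_nat_mul, div_le_iff₀ (Real.cosh_pos _)]
    have e : ((2:ℕ):ℝ) * -(Real.pi * |y| / 2) = -(Real.pi * |y|) := by push_cast; ring
    rw [e, Real.exp_neg]
    calc Real.pi ≤ (13 / 5) ^ 2 * (Real.exp (Real.pi * |y|))⁻¹ * (Real.exp (Real.pi * |y|) / 2) := by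
          field_simp
          linarith [Real.pi_lt_d2]
      _ ≤ _ := by gcongr
  exact le_of_sq_le_sq h2 (by positivity)

lemma norm_Gamma_mid {x y : ℝ} (h0 : 1 / 2 ≤ x) (h1 : x ≤ 3 / 2) (hy : 2 ≤ |y|) :
    ‖Gamma (x + y * I)‖ ≤ 32 * |y| ^ (x - 1 / 2) * Real.exp (-(Real.pi * |y| / 2)) := by
  have h := norm_Gamma_add_le_rpow_mul (z := ((1 / 2 : ℝ) : ℂ) + y * I) (c := x - 1 / 2)
    (by simp) (by linarith) (by linarith) (by simpa using hy)
  have e1 : ((1 / 2 : ℝ) : ℂ) + y * I + ((x - 1 / 2 : ℝ) : ℂ) = x + y * I := by push_cast; ring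
  have e2 : (((1 / 2 : ℝ) : ℂ) + y * I).re = 1 / 2 := by simp
  have e3 : (((1 / 2 : ℝ) : ℂ) + y * I).im = y := by simp
  rw [e1, e2, e3] at h
  have h2 := norm_Gamma_half_le y
  calc _ ≤ _ := h
    _ ≤ 8 * (1 + 1 / 2) * |y| ^ (x - 1 / 2) * (13 / 5 * Real.exp (-(Real.pi * |y| / 2))) := by
        gcongr
    _ = 156 / 5 * (|y| ^ (x - 1 / 2) * Real.exp (-(Real.pi * |y| / 2))) := by ring
    _ ≤ 32 * (|y| ^ (x - 1 / 2) * Real.exp (-(Real.pi * |y| / 2))) := by gcongr; norm_num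
    _ = _ := by ring

lemma rpow_sub_one_mul {a x : ℝ} (ha : 0 < a) : a ^ (x - 1) * a = a ^ x := by
  rw [Real.rpow_sub_one ha.ne', div_mul_cancel₀ _ ha.ne']

lemma norm_Gamma_low {x y : ℝ} (hy : 2 ≤ |y|) {C : ℝ}
    (h : ‖Gamma (((x + 1 : ℝ) : ℂ) + y * I)‖ ≤
      C * |y| ^ (x + 1 - 1 / 2) * Real.exp (-(Real.pi * |y| / 2))) :
    ‖Gamma (x + y * I)‖ ≤ C * |y| ^ (x - 1 / 2) * Real.exp (-(Real.pi * |y| / 2)) := by
  have hy0 : 0 < |y| := by linarith
  have hz : (x + y * I : ℂ) ≠ 0 := by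
    intro h0
    have := congrArg Complex.im h0
    simp at this
    rw [this] at hy0
    simp at hy0
  have e1 : ((x + 1 : ℝ) : ℂ) + y * I = (x + y * I) + 1 := by push_cast; ring
  rw [e1, Gamma_add_one _ hz, norm_mul] at h
  have h1 : |y| ≤ ‖(x + y * I : ℂ)‖ := by
    have := Complex.abs_im_le_norm (x + y * I : ℂ)
    simpa using this
  have h2 : |y| * ‖Gamma (x + y * I)‖ ≤
      (C * |y| ^ (x - 1 / 2) * Real.exp (-(Real.pi * |y| / 2))) * |y| := by
    calc _ ≤ ‖(x + y * I : ℂ)‖ * ‖Gamma (x + y * I)‖ := by gcongr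
      _ ≤ _ := h
      _ = _ := by
          rw [show x + 1 - 1 / 2 = (x - 1 / 2) + 1 by ring, Real.rpow_add_one hy0.ne']
          ring
  rw [mul_comm |y|] at h2
  exact le_of_mul_le_mul_right h2 hy0

/-- upper bound for the Gamma function in a strip -/
lemma norm_Gamma_strip {x y : ℝ} (h0 : -(3 / 2) ≤ x) (h1 : x ≤ 5 / 2) (hy : 2 ≤ |y|) :
    ‖Gamma (x + y * I)‖ ≤ 64 * |y| ^ (x - 1 / 2) * Real.exp (-(Real.pi * |y| / 2)) := by
  have hy0 : 0 < |y| := by linarith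
  have key : ∀ x : ℝ, -(3/2) ≤ x → x ≤ 3 / 2 →
      ‖Gamma (x + y * I)‖ ≤ 32 * |y| ^ (x - 1 / 2) * Real.exp (-(Real.pi * |y| / 2)) := by
    intro x h0 h1
    rcases le_total (1 / 2) x with h2 | h2
    · exact norm_Gamma_mid h2 h1 hy
    rcases le_total (-(1 / 2)) x with h3 | h3
    · exact norm_Gamma_low hy (norm_Gamma_mid (by linarith) (by linarith) hy)
    · exact norm_Gamma_low hy (norm_Gamma_low hy (norm_Gamma_mid (by linarith) (by linarith) hy))
  rcases le_total x (3 / 2) with h2 | h2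
  · refine (key x h0 h2).trans ?_
    gcongr
    norm_num
  · have h3 := key (x - 1) (by linarith) (by linarith)
    have hz : (((x - 1 : ℝ) : ℂ) + y * I : ℂ) ≠ 0 := by
      intro h0
      have := congrArg Complex.im h0
      simp at this
      rw [this] at hy0
      simp at hy0
    have e1 : (x : ℂ) + y * I = (((x - 1 : ℝ) : ℂ) + y * I) + 1 := by push_cast; ring
    rw [e1, Gamma_add_one _ hz, norm_mul]
    have h4 : ‖(((x - 1 : ℝ) : ℂ) + y * I : ℂ)‖ ≤ 2 * |y| := by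
      refine (Complex.norm_le_abs_re_add_abs_im _).trans ?_
      simp only [add_re, ofReal_re, mul_re, I_re, mul_zero, ofReal_im, I_im, mul_one, sub_self,
        add_zero, add_im, mul_im, zero_add]
      rw [abs_of_nonneg (by linarith : (0:ℝ) ≤ x - 1)]
      linarith
    calc _ ≤ 2 * |y| * (32 * |y| ^ (x - 1 - 1 / 2) * Real.exp (-(Real.pi * |y| / 2))) := by gcongr
      _ = 64 * (|y| ^ (x - 1 / 2 - 1) * |y|) * Real.exp (-(Real.pi * |y| / 2)) := by
          rw [show x - 1 - 1 / 2 = x - 1 / 2 - 1 by ring]; ring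
      _ = _ := by rw [rpow_sub_one_mul hy0]

/-- upper bound for the Gamma function on a whole vertical line -/
lemma exists_norm_Gamma_le {x : ℝ} (h0 : -(3 / 2) ≤ x) (h1 : x ≤ 5 / 2)
    (hx : ∀ n : ℕ, x ≠ -n) :
    ∃ C : ℝ, 0 < C ∧ ∀ y : ℝ,
      ‖Gamma (x + y * I)‖ ≤ C * (1 + |y|) ^ (x - 1 / 2) * Real.exp (-(Real.pi * |y| / 2)) := by
  have hcont : Continuous fun y : ℝ => ‖Gamma (x + y * I)‖ /
      ((1 + |y|) ^ (x - 1 / 2) * Real.exp (-(Real.pi * |y| / 2))) := by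
    refine Continuous.div ?_ ?_ ?_
    · refine Continuous.norm ?_
      rw [continuous_iff_continuousAt]
      intro y
      have h : DifferentiableAt ℂ Gamma (x + y * I) := by
        refine differentiableAt_Gamma _ fun m hm => ?_
        have := congrArg Complex.re hm
        simp at this
        exact hx m this
      exact ContinuousAt.comp (f := fun y : ℝ => (x + y * I : ℂ)) h.continuousAt (by fun_prop)
    · refine Continuous.mul ?_ (by fun_prop)
      refine Continuous.rpow_const (by fun_prop) fun y => Or.inl ?_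
      positivity
    · intro y
      positivity
  obtain ⟨C, hC⟩ := (isCompact_Icc (a := (-2:ℝ)) (b := 2)).exists_bound_of_continuousOn
    hcont.continuousOn
  refine ⟨max C (64 * 2 ^ |x - 1 / 2|), lt_of_lt_of_le (by positivity) (le_max_right _ _),
    fun y => ?_⟩
  rcases le_total |y| 2 with hy | hy
  · have h := hC y (abs_le.1 hy)
    rw [Real.norm_of_nonneg (by positivity), div_le_iff₀ (by positivity)] at h
    calc _ ≤ _ := h
      _ ≤ max C (64 * 2 ^ |x - 1 / 2|) *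
          ((1 + |y|) ^ (x - 1 / 2) * Real.exp (-(Real.pi * |y| / 2))) := by
          gcongr
          exact le_max_left _ _
      _ = _ := by ring
  · have hy0 : 0 < |y| := by linarith
    have h2 : |y| ^ (x - 1 / 2) ≤ 2 ^ |x - 1 / 2| * (1 + |y|) ^ (x - 1 / 2) := by
      rcases le_total 0 (x - 1 / 2) with hs | hs
      · have h3 : |y| ^ (x - 1 / 2) ≤ (1 + |y|) ^ (x - 1 / 2) :=
          Real.rpow_le_rpow hy0.le (by linarith) hs
        have h4 : (1:ℝ) ≤ 2 ^ |x - 1 / 2| := Real.one_le_rpow (by norm_num) (abs_nonneg _)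
        nlinarith [Real.rpow_nonneg (show (0:ℝ) ≤ 1 + |y| by linarith) (x - 1 / 2)]
      · rw [abs_of_nonpos hs, Real.rpow_neg (by norm_num), ← Real.inv_rpow (by norm_num),
          ← Real.mul_rpow (by norm_num) (by linarith)]
        refine Real.rpow_le_rpow_of_nonpos (by positivity) ?_ hs
        linarith
    calc _ ≤ _ := norm_Gamma_strip h0 h1 hy
      _ ≤ 64 * (2 ^ |x - 1 / 2| * (1 + |y|) ^ (x - 1 / 2)) * Real.exp (-(Real.pi * |y| / 2)) := by
          gcongr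
      _ = (64 * 2 ^ |x - 1 / 2|) * (1 + |y|) ^ (x - 1 / 2) * Real.exp (-(Real.pi * |y| / 2)) := by
          ring
      _ ≤ _ := by
          gcongr
          exact le_max_right _ _

end Pool.Agent.H26
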