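import Pool.Agent.H26.LA2

/-!
The shift of the contour for the main term.
-/

set_option autoImplicit false

namespace Pool.Agent.H26

open Complex Finset Filter Topology MeasureTheory

variable {k : ℕ}

/-- The base point of the line. -/
noncomputable def g0 (a b : Fin k → ℝ) : Ix k → ℝ := Sum.elim a b

/-- The diagonal Dirichlet series on the line. -/
noncomputable def Dz (a b : Fin k → ℝ) (z : ℂ) : ℂ :=
  LSeries (dcoef (S0 k) (g0 a b)) (1 + 2 * I * z)

lemma ga_tube {a b : Fin k → ℝ} {z : ℂ} (hz : |z.im| < 1 / 8) : ga a b z ∈ tube (Ix k) := by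
  intro i
  rw [abs_ga_im]
  exact hz

lemma zetaAB_ga (a b : Fin k → ℝ) {z : ℂ} (hz0 : z.im < 0) (hz1 : |z.im| < 1 / 8) :
    zetaAB (S0 k) (ga a b z) = Dz a b z := by
  refine zetaAB_eq_LSeries (S0 k) (g0 a b) (ga_tube hz1) ?_ ?_ hz0
  · intro i hi
    rcases i with i | i
    · simp [g0]
    · exact absurd hi (inr_notMem_S0 i)
  · intro i hi
    rcases i with i | i
    · exact absurd (inl_mem_S0 i) (Finset.mem_compl.1 hi)
    · simp [g0]

lemma injective_ga {a b : Fin k → ℝ} (ha : Function.Injective a) (hb : Function.Injective b)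
    {z : ℂ} (hz : ∀ j l, 2 * z ≠ b l - a j) : Function.Injective (ga a b z) := by
  intro i i' h
  rcases i with i | i <;> rcases i' with i' | i'
  · simp only [ga_inl, add_left_inj, Complex.ofReal_inj] at h
    rw [ha h]
  · exfalso
    simp only [ga_inl, ga_inr] at h
    exact hz i i' (by linear_combination h)
  · exfalso
    simp only [ga_inl, ga_inr] at h
    exact hz i' i (by linear_combination -h)
  · simp only [ga_inr, sub_left_inj, Complex.ofReal_inj] at h
    rw [hb h]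

lemma injective_ga_of_im {a b : Fin k → ℝ} (ha : Function.Injective a)
    (hb : Function.Injective b) {z : ℂ} (hz : z.im ≠ 0) : Function.Injective (ga a b z) := by
  refine injective_ga ha hb fun j l h => hz ?_
  have := congrArg Complex.im h
  simpa using this

/-- The points of the real line where two shifts collide. -/
def collX (a b : Fin k → ℝ) : Set ℝ := Set.range fun p : Fin k × Fin k => (b p.2 - a p.1) / 2

lemma finite_collX (a b : Fin k → ℝ) : (collX a b).Finite := Set.finite_range _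

lemma injective_ga_of_notMem {a b : Fin k → ℝ} (ha : Function.Injective a)
    (hb : Function.Injective b) {x : ℝ} (hx : x ∉ collX a b) :
    Function.Injective (ga a b (x : ℂ)) := by
  refine injective_ga ha hb fun j l h => hx ⟨(j, l), ?_⟩
  have h2 : 2 * x = b l - a j := by exact_mod_cast h
  simp only
  linarith

lemma re_line (x y : ℝ) : ((x : ℂ) + (y : ℂ) * I).re = x := by simp
lemma im_line (x y : ℝ) : ((x : ℂ) + (y : ℂ) * I).im = y := by simp

/-! ### Bounds on the line -/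

lemma exists_Q_ga_le (k : ℕ) {ρ : ℝ} (hρ : 0 < ρ) : ∃ C : ℝ, 0 ≤ C ∧ ∀ B : ℝ, 0 ≤ B →
    ∀ a b : Fin k → ℝ, (∀ j, |a j| ≤ B) → (∀ j, |b j| ≤ B) → ∀ z : ℂ, |z.im| + ρ ≤ 1 / 8 →
    Function.Injective (ga a b z) → ∀ t : ℝ,
    ‖Qsum (ga a b z) t‖ ≤ C * (1 + B) ^ NK k * (1 + |z.re|) ^ NK k * (1 + |t|) ^ (2 * k) := by
  obtain ⟨C, hC0, hC⟩ := exists_norm_Qsum_le k hρ
  refine ⟨C, hC0, fun B hB a b ha hb z hz hinj t => ?_⟩
  have hz0 := abs_nonneg z.re
  have h := hC (ga a b z) hinj (fun i => by rw [abs_ga_im]; exact hz) (B + |z.re|) (by positivity)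
    (fun i => abs_ga_re_le ha hb z i) t
  have key : (1 + (B + |z.re|)) ^ NK k ≤ (1 + B) ^ NK k * (1 + |z.re|) ^ NK k := by
    rw [← mul_pow]
    gcongr
    have := mul_nonneg hB hz0
    nlinarith
  calc _ ≤ C * (1 + (B + |z.re|)) ^ NK k * (1 + |t|) ^ (2 * k) := h
    _ ≤ C * ((1 + B) ^ NK k * (1 + |z.re|) ^ NK k) * (1 + |t|) ^ (2 * k) := by gcongr
    _ = _ := by ring

lemma exists_R_ga_le (k : ℕ) {ρ : ℝ} (hρ : 0 < ρ) : ∃ C : ℝ, 0 ≤ C ∧ ∀ B : ℝ, 0 ≤ B →
    ∀ a b : Fin k → ℝ, (∀ j, |a j| ≤ B) → (∀ j, |b j| ≤ B) → Function.Injective a →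
    Function.Injective b → ∀ v : ℝ, ρ < v → v + ρ ≤ 1 / 8 → ∀ x t : ℝ,
    ‖Qsum (ga a b ((x : ℂ) + ((-v : ℝ) : ℂ) * I)) t - Dz a b ((x : ℂ) + ((-v : ℝ) : ℂ) * I)‖ ≤
      C * (1 + B) ^ NK k * (1 + |x|) ^ NK k * (1 + |t|) ^ (-(2 * (v - ρ))) := by
  obtain ⟨C, hC0, hC⟩ := exists_norm_R_le k hρ
  refine ⟨C, hC0, fun B hB a b ha hb hai hbi v hv hv8 x t => ?_⟩
  have hv0 : 0 < v := by linarith
  have hz0 := abs_nonneg x
  have him : ((x : ℂ) + ((-v : ℝ) : ℂ) * I).im = -v := im_line x (-v)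
  have h := hC v hv hv8 (ga a b ((x : ℂ) + ((-v : ℝ) : ℂ) * I))
    (injective_ga_of_im hai hbi (by rw [him]; linarith))
    (fun j => by rw [ga_inl, add_im, ofReal_im, zero_add, him])
    (fun j => by rw [ga_inr, sub_im, ofReal_im, zero_sub, him, neg_neg])
    (B + |x|) (by positivity) (fun i => by
      have := abs_ga_re_le ha hb ((x : ℂ) + ((-v : ℝ) : ℂ) * I) i
      rw [re_line] at this
      exact this) t
  rw [zetaAB_ga a b (by rw [him]; linarith) (by rw [him, abs_neg, abs_of_pos hv0]; linarith)] at h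
  have key : (1 + (B + |x|)) ^ NK k ≤ (1 + B) ^ NK k * (1 + |x|) ^ NK k := by
    rw [← mul_pow]
    gcongr
    have := mul_nonneg hB hz0
    nlinarith
  calc _ ≤ C * (1 + (B + |x|)) ^ NK k * (1 + |t|) ^ (-(2 * (v - ρ))) := h
    _ ≤ C * ((1 + B) ^ NK k * (1 + |x|) ^ NK k) * (1 + |t|) ^ (-(2 * (v - ρ))) := by gcongr
    _ = _ := by ring

lemma exists_Dz_le (k : ℕ) {v : ℝ} (hv : 0 < v) : ∃ C : ℝ, 0 ≤ C ∧ ∀ (a b : Fin k → ℝ) (z : ℂ),
    z.im ≤ -v → ‖Dz a b z‖ ≤ C := by
  obtain ⟨C, hC1, hC⟩ := exists_norm_dcoef_le (k + k) hv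
  have hs : Summable fun n : ℕ => (n : ℝ) ^ (-(1 + v)) := Real.summable_nat_rpow.2 (by linarith)
  refine ⟨C * ∑' n : ℕ, (n : ℝ) ^ (-(1 + v)), ?_, fun a b z hz => ?_⟩
  · exact mul_nonneg (by linarith) (tsum_nonneg fun n => by positivity)
  · refine tsum_of_norm_bounded (hs.hasSum.mul_left C) fun n => ?_
    by_cases hn : n = 0
    · subst hn
      rw [LSeries.term_zero, norm_zero]
      positivity
    · have hn0 : (0:ℝ) < n := by exact_mod_cast Nat.pos_of_ne_zero hn
      have hn1 : (1:ℝ) ≤ n := by exact_mod_cast Nat.one_le_iff_ne_zero.2 hn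
      have hre : (1 + 2 * I * z).re = 1 - 2 * z.im := by simp; ring
      rw [LSeries.norm_term_eq, if_neg hn, hre]
      have h1 := hC (Ix k) (by rw [Fintype.card_sum, Fintype.card_fin]) (S0 k) (g0 a b) n hn
      calc ‖dcoef (S0 k) (g0 a b) n‖ / (n:ℝ) ^ (1 - 2 * z.im)
          ≤ (C * (n:ℝ) ^ v) / (n:ℝ) ^ (1 + 2 * v) := by
            gcongr
            linarith
        _ = C * ((n:ℝ) ^ v * (n:ℝ) ^ (-(1 + 2 * v))) := by
            rw [Real.rpow_neg hn0.le]
            ring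
        _ = _ := by
            rw [← Real.rpow_add hn0]
            ring_nf

lemma differentiableAt_Dz (a b : Fin k → ℝ) {z : ℂ} (hz : z.im < 0) :
    DifferentiableAt ℂ (Dz a b) z := by
  have hre : (1 + 2 * I * z).re = 1 - 2 * z.im := by simp; ring
  have hab : LSeries.abscissaOfAbsConv (dcoef (S0 k) (g0 a b)) ≤ ((1:ℝ) : EReal) := by
    refine LSeries.abscissaOfAbsConv_le_of_forall_lt_LSeriesSummable fun y hy => ?_
    exact LSeriesSummable_dcoef _ _ (by simpa using hy)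
  have h1 : DifferentiableAt ℂ (LSeries (dcoef (S0 k) (g0 a b))) (1 + 2 * I * z) := by
    refine (LSeries_hasDerivAt (lt_of_le_of_lt hab ?_)).differentiableAt
    rw [hre]
    exact_mod_cast (by linarith : (1:ℝ) < 1 - 2 * z.im)
  have h2 : DifferentiableAt ℂ (fun z : ℂ => 1 + 2 * I * z) z := by fun_prop
  exact DifferentiableAt.comp (f := fun z : ℂ => 1 + 2 * I * z) z h1 h2

/-! ### Shifting lines -/

lemma tendsto_inv_one_add_sq_atTop (K : ℝ) :
    Tendsto (fun x : ℝ => K * (1 + x ^ 2)⁻¹) atTop (𝓝 0) := by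
  have h : Tendsto (fun x : ℝ => 1 + x ^ 2) atTop atTop :=
    tendsto_atTop_add_const_left _ _ (tendsto_pow_atTop two_ne_zero)
  simpa using h.inv_tendsto_atTop.const_mul K

lemma tendsto_inv_one_add_sq_atBot (K : ℝ) :
    Tendsto (fun x : ℝ => K * (1 + x ^ 2)⁻¹) atBot (𝓝 0) := by
  have h := (tendsto_inv_one_add_sq_atTop K).comp tendsto_neg_atBot_atTop
  refine h.congr fun x => ?_
  simp

lemma line_shift {F : ℂ → ℂ} {y1 y2 : ℝ} (h : y2 ≤ y1)
    (hF : ∀ z : ℂ, y2 ≤ z.im → z.im ≤ y1 → DifferentiableAt ℂ F z) {K : ℝ}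
    (hb : ∀ x y : ℝ, y2 ≤ y → y ≤ y1 → ‖F ((x : ℂ) + (y : ℂ) * I)‖ ≤ K * (1 + x ^ 2)⁻¹) :
    ∫ x : ℝ, F ((x : ℂ) + (y1 : ℂ) * I) = ∫ x : ℝ, F ((x : ℂ) + (y2 : ℂ) * I) := by
  have h1 := integral_horizontal_shift (f := fun z => F (z + (y1 : ℂ) * I)) (ε := y1 - y2)
    (m := fun x => K * (1 + x ^ 2)⁻¹) (by linarith) ?_ ?_
    (integrable_inv_one_add_sq.const_mul K) (tendsto_inv_one_add_sq_atTop K)
    (tendsto_inv_one_add_sq_atBot K)
  · rw [h1]
    congr 1
    funext x
    congr 1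
    push_cast
    ring
  · intro z hz1 hz2
    have h3 : (z + (y1 : ℂ) * I).im = z.im + y1 := by simp
    have h4 := hF (z + (y1 : ℂ) * I) (by rw [h3]; linarith) (by rw [h3]; linarith)
    exact DifferentiableAt.comp (f := fun z : ℂ => z + (y1 : ℂ) * I) z h4 (by fun_prop)
  · intro x y hy1 hy2
    have e : (x : ℂ) + (y : ℂ) * I + (y1 : ℂ) * I = (x : ℂ) + ((y + y1 : ℝ) : ℂ) * I := by
      push_cast; ring
    rw [e]
    exact hb x (y + y1) (by linarith) (by linarith)

/-- Product of a weight with a function of polynomial growth. -/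
lemma weight_mul_le {n m : ℕ} {M K Y : ℝ} {w : ℂ → ℂ} (hw : Wt n M Y w) (hnm : m + 2 ≤ n)
    {z : ℂ} (hz : -Y ≤ z.im) (hz0 : z.im ≤ 0) {u : ℂ} (hu : ‖u‖ ≤ K * (1 + |z.re|) ^ m) :
    ‖w z * u‖ ≤ M * K * (1 + z.re ^ 2)⁻¹ := by
  have hM := hw.nonneg (by linarith)
  have hx := abs_nonneg z.re
  have hK : 0 ≤ K := by
    by_contra hc
    push Not at hc
    have h1 : 0 < (1 + |z.re|) ^ m := by positivity
    have h2 := (norm_nonneg u).trans hu
    nlinarith
  rw [norm_mul]
  calc ‖w z‖ * ‖u‖ ≤ (M / (1 + |z.re|) ^ n) * (K * (1 + |z.re|) ^ m) :=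
        mul_le_mul (hw.norm_le hz hz0) hu (norm_nonneg _) (by positivity)
    _ ≤ (M / (1 + |z.re|) ^ (m + 2)) * (K * (1 + |z.re|) ^ m) := by
        gcongr
        linarith
    _ = M * K * ((1 + |z.re|) ^ 2)⁻¹ := by
        rw [pow_add]
        field_simp
    _ ≤ _ := mul_le_mul_of_nonneg_left (inv_sq_le _) (by positivity)

lemma NK_le_AK (k : ℕ) : NK k + 2 ≤ AK k := by
  unfold NK AK
  nlinarith

lemma continuousAt_Qsum_ga {a b : Fin k → ℝ} {t : ℝ} {z : ℂ} (hz : |z.im| < 1 / 8)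
    (hinj : Function.Injective (ga a b z)) :
    ContinuousAt (fun p : ℂ × ℝ => Qsum (ga a b p.1) p.2) (z, t) := by
  have h1 := continuousAt_Qsum (q := ((t : ℂ), ga a b z)) ⟨im_ofReal_lt t, ga_tube hz⟩ hinj
  have h2 : Continuous fun p : ℂ × ℝ => (((p.2 : ℂ), ga a b p.1) : ℂ × (Ix k → ℂ)) := by
    refine (Complex.continuous_ofReal.comp continuous_snd).prodMk (continuous_pi fun i => ?_)
    rcases i with i | i
    · simp only [ga_inl]
      fun_prop
    · simp only [ga_inr]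
      fun_prop
  exact ContinuousAt.comp (f := fun p : ℂ × ℝ => (((p.2 : ℂ), ga a b p.1) : ℂ × (Ix k → ℂ)))
    (x := (z, t)) h1 h2.continuousAt

/-- The shift of the contour for the main term. -/
lemma Q_shift {a b : Fin k → ℝ} {B : ℝ} (hB : 0 ≤ B) (ha : ∀ j, |a j| ≤ B)
    (hb : ∀ j, |b j| ≤ B) (hai : Function.Injective a) (hbi : Function.Injective b)
    {w : ℂ → ℂ} {M : ℝ} (hw : Wt (AK k) M (1 / 8) w) {v : ℝ} (hv0 : 0 < v) (hv1 : v < 1 / 8)
    (t : ℝ) :
    ∫ x : ℝ, w ((x : ℂ) + ((0 : ℝ) : ℂ) * I) * Qsum (ga a b ((x : ℂ) + ((0 : ℝ) : ℂ) * I)) t =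
      ∫ x : ℝ, w ((x : ℂ) + ((-v : ℝ) : ℂ) * I) *
        Qsum (ga a b ((x : ℂ) + ((-v : ℝ) : ℂ) * I)) t := by
  have hM := hw.nonneg (by norm_num)
  obtain ⟨C₁, hC₁0, hC₁⟩ := exists_Q_ga_le k (ρ := 1 / 8 - v) (by linarith)
  set C : ℝ := C₁ * (1 + B) ^ NK k with hCdef
  have hC0 : 0 ≤ C := by positivity
  have hC := hC₁ B hB
  set F : ℂ → ℂ := fun z => w z * Qsum (ga a b z) t with hF
  have hbd : ∀ z : ℂ, -v ≤ z.im → z.im ≤ 0 → Function.Injective (ga a b z) →
      ‖F z‖ ≤ M * (C * (1 + |t|) ^ (2 * k)) * (1 + z.re ^ 2)⁻¹ := by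
    intro z hz hz0 hinj
    refine weight_mul_le hw (NK_le_AK k) (by linarith) hz0 ?_
    have := hC a b ha hb z (by rw [abs_of_nonpos hz0]; linarith) hinj t
    refine this.trans (le_of_eq (by ring))
  have hdiff : ∀ z : ℂ, z.im < 0 → |z.im| < 1 / 8 → DifferentiableAt ℂ F z := by
    intro z hz0 hz1
    refine (hw.differentiableAt (by linarith [(abs_lt.1 hz1).1]) (by linarith)).mul ?_
    have hU : IsOpen {z : ℂ | z.im < 0 ∧ |z.im| < 1 / 8} :=
      (isOpen_lt Complex.continuous_im continuous_const).inter (isOpen_strip _)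
    have h := differentiableOn_Qsum_comp hU (im_ofReal_lt t) (g := fun z => ga a b z) (fun i => by
      rcases i with i | i
      · simp only [ga_inl]
        fun_prop
      · simp only [ga_inr]
        fun_prop) (fun z hz => ga_tube hz.2) (fun z hz => injective_ga_of_im hai hbi hz.1.ne)
    exact (h z ⟨hz0, hz1⟩).differentiableAt (hU.mem_nhds ⟨hz0, hz1⟩)
  -- all the lines below the real axis give the same integral
  have hline : ∀ n : ℕ, ∫ x : ℝ, F ((x : ℂ) + ((-(v / (n + 1)) : ℝ) : ℂ) * I) =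
      ∫ x : ℝ, F ((x : ℂ) + ((-v : ℝ) : ℂ) * I) := by
    intro n
    have hn0 : (0:ℝ) < n + 1 := by positivity
    have hvn : 0 < v / (n + 1) := by positivity
    have hvn1 : v / (n + 1) ≤ v := div_le_self hv0.le (by linarith [Nat.cast_nonneg (α := ℝ) n])
    refine line_shift (by linarith) (K := M * (C * (1 + |t|) ^ (2 * k))) ?_ ?_
    · intro z hz1 hz2
      refine hdiff z (by linarith) ?_
      rw [abs_lt]
      constructor <;> linarith
    · intro x y hy1 hy2
      have h := hbd ((x : ℂ) + (y : ℂ) * I) (by rw [im_line]; linarith)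
        (by rw [im_line]; linarith) (injective_ga_of_im hai hbi (by rw [im_line]; linarith))
      rw [re_line] at h
      exact h
  have hlim : Tendsto (fun n : ℕ => ∫ x : ℝ, F ((x : ℂ) + ((-(v / (n + 1)) : ℝ) : ℂ) * I)) atTop
      (𝓝 (∫ x : ℝ, F ((x : ℂ) + ((0 : ℝ) : ℂ) * I))) := by
    refine tendsto_integral_of_dominated_convergence
      (fun x => M * (C * (1 + |t|) ^ (2 * k)) * (1 + x ^ 2)⁻¹) ?_
      (integrable_inv_one_add_sq.const_mul _) ?_ ?_
    · intro n
      have hvn : 0 < v / (n + 1) := by positivity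
      have hvn1 : v / (n + 1) ≤ v := div_le_self hv0.le (by linarith [Nat.cast_nonneg (α := ℝ) n])
      refine Continuous.aestronglyMeasurable ?_
      rw [continuous_iff_continuousAt]
      intro x
      have h1 : DifferentiableAt ℂ F ((x : ℂ) + ((-(v / (n + 1)) : ℝ) : ℂ) * I) := by
        refine hdiff _ (by rw [im_line]; linarith) ?_
        rw [im_line, abs_neg, abs_of_pos hvn]
        linarith
      exact ContinuousAt.comp (f := fun x : ℝ => (x : ℂ) + ((-(v / (n + 1)) : ℝ) : ℂ) * I)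
        h1.continuousAt (by fun_prop)
    · intro n
      have hvn : 0 < v / (n + 1) := by positivity
      have hvn1 : v / (n + 1) ≤ v := div_le_self hv0.le (by linarith [Nat.cast_nonneg (α := ℝ) n])
      refine Filter.Eventually.of_forall fun x => ?_
      have h := hbd ((x : ℂ) + ((-(v / (n + 1)) : ℝ) : ℂ) * I) (by rw [im_line]; linarith)
        (by rw [im_line]; linarith) (injective_ga_of_im hai hbi (by rw [im_line]; linarith))
      rw [re_line] at h
      exact h
    · have hae : ∀ᵐ x : ℝ, x ∉ collX a b := by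
        refine measure_mono_null (fun x hx => not_not.1 hx) ((finite_collX a b).measure_zero _)
      filter_upwards [hae] with x hx
      have hinj := injective_ga_of_notMem hai hbi hx
      have h0 : (x : ℂ) + ((0 : ℝ) : ℂ) * I = x := by simp
      have hc : ContinuousAt F ((x : ℂ) + ((0 : ℝ) : ℂ) * I) := by
        refine ContinuousAt.mul (hw.differentiableAt (by rw [im_line]; norm_num)
          (by rw [im_line]; norm_num)).continuousAt ?_
        have h1 := continuousAt_Qsum_ga (a := a) (b := b) (t := t)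
          (z := (x : ℂ) + ((0 : ℝ) : ℂ) * I) (by rw [im_line]; norm_num) (by rw [h0]; exact hinj)
        exact ContinuousAt.comp (f := fun z : ℂ => (z, t)) h1 (by fun_prop)
      have h2 : Tendsto (fun n : ℕ => (x : ℂ) + ((-(v / (n + 1)) : ℝ) : ℂ) * I) atTop
          (𝓝 ((x : ℂ) + ((0 : ℝ) : ℂ) * I)) := by
        have h3 : Tendsto (fun n : ℕ => -(v / ((n:ℝ) + 1))) atTop (𝓝 0) := by
          have := (tendsto_one_div_add_atTop_nhds_zero_nat (𝕜 := ℝ)).const_mul (-v)
          rw [mul_zero] at this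
          refine this.congr fun n => ?_
          ring
        have h4 := (Complex.continuous_ofReal.tendsto 0).comp h3
        exact (h4.mul_const I).const_add _
      exact hc.tendsto.comp h2
  refine tendsto_nhds_unique hlim ?_
  rw [tendsto_congr hline]
  exact tendsto_const_nhds

end Pool.Agent.H26
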