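import Mathlib

/-!
Growth of the Riemann zeta function in the half plane of positive real part.
-/

namespace Pool.Agent.H26

open Complex MeasureTheory Set Filter Asymptotics

/-- fractional part integrand -/
noncomputable def frJ (s : ℂ) : ℂ :=
  ∫ x in Ioi (1:ℝ), ((Int.fract x : ℝ) : ℂ) * (x:ℂ) ^ (-(s + 1))

lemma norm_fract_mul_cpow_le {s : ℂ} {x : ℝ} (hx : x ∈ Ioi (1:ℝ)) :
    ‖((Int.fract x : ℝ) : ℂ) * (x:ℂ) ^ (-(s + 1))‖ ≤ x ^ (-(s.re+1)) := by
  have hx0 : (0:ℝ) < x := lt_trans one_pos hx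
  rw [norm_mul, Complex.norm_cpow_eq_rpow_re_of_pos hx0]
  have : ‖((Int.fract x : ℝ) : ℂ)‖ ≤ 1 := by
    rw [Complex.norm_real, Real.norm_eq_abs, abs_of_nonneg (Int.fract_nonneg x)]
    exact (Int.fract_lt_one x).le
  calc _ ≤ 1 * x ^ (-(s+1)).re := by gcongr
    _ = _ := by simp

lemma norm_frJ_le {s : ℂ} (hs : 0 < s.re) : ‖frJ s‖ ≤ 1 / s.re := by
  unfold frJ
  have hint : IntegrableOn (fun x : ℝ => x ^ (-(s.re+1))) (Ioi 1) :=
    integrableOn_Ioi_rpow_of_lt (by linarith) one_pos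
  refine (norm_integral_le_of_norm_le hint ?_).trans ?_
  · exact (ae_restrict_iff' measurableSet_Ioi).2
      (Eventually.of_forall fun x hx => norm_fract_mul_cpow_le hx)
  · rw [integral_Ioi_rpow_of_lt (by linarith) one_pos]
    simp

lemma frJ_eq_mellin (s : ℂ) :
    frJ s = mellin ((Ioi (1:ℝ)).indicator (fun x : ℝ => ((Int.fract x : ℝ) : ℂ))) (-s) := by
  unfold frJ mellin
  rw [← integral_indicator measurableSet_Ioi, ← integral_indicator measurableSet_Ioi]
  congr 1
  ext x
  by_cases hx : x ∈ Ioi (1:ℝ)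
  · have hx0 : x ∈ Ioi (0:ℝ) := lt_trans one_pos (mem_Ioi.1 hx)
    rw [indicator_of_mem hx, indicator_of_mem hx0, indicator_of_mem hx, smul_eq_mul, mul_comm]
    congr 2
    ring
  · rw [indicator_of_notMem hx]
    by_cases hx0 : x ∈ Ioi (0:ℝ)
    · rw [indicator_of_mem hx0, indicator_of_notMem hx, smul_zero]
    · rw [indicator_of_notMem hx0]

lemma differentiableAt_frJ {s : ℂ} (hs : 0 < s.re) : DifferentiableAt ℂ frJ s := by
  have : frJ = fun s => mellin ((Ioi (1:ℝ)).indicator (fun x : ℝ => ((Int.fract x : ℝ) : ℂ))) (-s) :=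
    funext frJ_eq_mellin
  rw [this]
  have h1 : DifferentiableAt ℂ
      (mellin ((Ioi (1:ℝ)).indicator (fun x : ℝ => ((Int.fract x : ℝ) : ℂ)))) (-s) := by
    refine mellin_differentiableAt_of_isBigO_rpow (a := 0) (b := (-s).re - 1) ?_ ?_ ?_ ?_ ?_
    · refine (LocallyIntegrable.locallyIntegrableOn ?_ _)
      have hm : Measurable ((Ioi (1:ℝ)).indicator (fun x : ℝ => ((Int.fract x : ℝ) : ℂ))) :=
        (Complex.measurable_ofReal.comp measurable_fract).indicator measurableSet_Ioi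
      refine (locallyIntegrable_const (1:ℝ)).mono hm.aestronglyMeasurable
        (Eventually.of_forall fun x => ?_)
      by_cases hx : x ∈ Ioi (1:ℝ)
      · rw [indicator_of_mem hx, Complex.norm_real, Real.norm_eq_abs,
          abs_of_nonneg (Int.fract_nonneg x)]
        simpa using (Int.fract_lt_one x).le
      · rw [indicator_of_notMem hx]; simp
    · refine IsBigO.of_bound 1 (Eventually.of_forall fun x => ?_)
      by_cases hx : x ∈ Ioi (1:ℝ)
      · rw [indicator_of_mem hx, Complex.norm_real, Real.norm_eq_abs,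
          abs_of_nonneg (Int.fract_nonneg x)]
        simpa using (Int.fract_lt_one x).le
      · rw [indicator_of_notMem hx]; simp
    · simpa using hs
    · refine IsBigO.of_bound 1 ?_
      filter_upwards [Ioo_mem_nhdsGT (show (0:ℝ) < 1 from one_pos)] with x hx
      rw [indicator_of_notMem (by simpa using hx.2.le)]
      simp
    · linarith
  exact h1.comp s differentiable_neg.differentiableAt

lemma integral_floor_eq {s : ℂ} (hs : 1 < s.re) :
    ∫ t in Ioi (1:ℝ), ((⌊t⌋₊ : ℕ) : ℂ) * (t:ℂ) ^ (-(s + 1)) = 1 / (s - 1) - frJ s := by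
  have h1 : IntegrableOn (fun t : ℝ => (t:ℂ) ^ (-s)) (Ioi 1) :=
    integrableOn_Ioi_cpow_of_lt (by simpa using hs) one_pos
  have h2 : IntegrableOn (fun t : ℝ => ((Int.fract t : ℝ) : ℂ) * (t:ℂ) ^ (-(s + 1))) (Ioi 1) := by
    have hint : IntegrableOn (fun x : ℝ => x ^ (-(s.re+1))) (Ioi 1) :=
      integrableOn_Ioi_rpow_of_lt (by linarith) one_pos
    refine hint.mono' ?_ ((ae_restrict_iff' measurableSet_Ioi).2
      (Eventually.of_forall fun x hx => norm_fract_mul_cpow_le hx))
    refine AEStronglyMeasurable.mul ?_ ?_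
    · exact (Complex.measurable_ofReal.comp measurable_fract).aestronglyMeasurable
    · refine ContinuousOn.aestronglyMeasurable ?_ measurableSet_Ioi
      intro x hx
      have hx0 : (0:ℝ) < x := lt_trans one_pos hx
      exact (continuousAt_ofReal_cpow_const x _ (Or.inr hx0.ne')).continuousWithinAt
  have h3 : ∀ t ∈ Ioi (1:ℝ), ((⌊t⌋₊ : ℕ) : ℂ) * (t:ℂ) ^ (-(s + 1))
      = (t:ℂ) ^ (-s) - ((Int.fract t : ℝ) : ℂ) * (t:ℂ) ^ (-(s + 1)) := by
    intro t ht
    have ht0 : (0:ℝ) < t := lt_trans one_pos ht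
    have e1 : ((⌊t⌋₊ : ℕ) : ℂ) = (t:ℂ) - ((Int.fract t : ℝ) : ℂ) := by
      have : ((⌊t⌋₊ : ℕ) : ℝ) = t - Int.fract t := by
        rw [Int.self_sub_fract, natCast_floor_eq_intCast_floor ht0.le]
      rw [← Complex.ofReal_natCast, this]; push_cast; ring
    have e2 : (t:ℂ) ^ (-s) = (t:ℂ) * (t:ℂ) ^ (-(s+1)) := by
      have ht0' : (t:ℂ) ≠ 0 := by exact_mod_cast ht0.ne'
      nth_rewrite 2 [← Complex.cpow_one (t:ℂ)]
      rw [← Complex.cpow_add _ _ ht0']
      congr 1; ring
    rw [e1, e2]; ring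
  rw [setIntegral_congr_fun measurableSet_Ioi h3, integral_sub h1 h2,
    integral_Ioi_cpow_of_lt (by simpa using hs) one_pos]
  unfold frJ
  congr 1
  have : (s - 1) ≠ 0 := by
    intro h
    have : s.re = 1 := by
      have := congrArg Complex.re h; simp at this; linarith
    linarith
  have h' : (-s + 1) ≠ 0 := by
    intro h; apply this; linear_combination -h
  simp only [ofReal_one, one_cpow]
  field_simp
  ring


lemma riemannZeta₀_eq_of_one_lt {s : ℂ} (hs : 1 < s.re) :
    riemannZeta₀ s = 1 - s * frJ s := by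
  have hs1 : s ≠ 1 := by rintro rfl; simp at hs
  have h0 : s ≠ 0 := by rintro rfl; norm_num at hs
  have h : riemannZeta s = s * (1 / (s - 1) - frJ s) := by
    rw [← integral_floor_eq hs]
    have hL : LSeries 1 s = riemannZeta s := LSeries_one_eq_riemannZeta hs
    rw [← hL, LSeries_eq_mul_integral' 1 (r := 1) zero_le_one hs ?_]
    · congr 1
      refine setIntegral_congr_fun measurableSet_Ioi fun t ht => ?_
      simp
    · refine IsBigO.of_bound 1 (Eventually.of_forall fun n => ?_)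
      simp
  have h2 := riemannZeta_eq_inv_sub_add hs1
  have h3 : s - 1 ≠ 0 := sub_ne_zero.2 hs1
  have h4 : riemannZeta₀ s = riemannZeta s - (s-1)⁻¹ := by rw [h2]; ring
  rw [h4, h]
  field_simp
  ring

lemma riemannZeta₀_eq {s : ℂ} (hs : 0 < s.re) :
    riemannZeta₀ s = 1 - s * frJ s := by
  have hU : IsOpen {s : ℂ | 0 < s.re} := isOpen_lt continuous_const Complex.continuous_re
  have hc : IsPreconnected {s : ℂ | 0 < s.re} :=
    (convex_halfSpace_re_gt 0).isPreconnected
  have h1 : AnalyticOnNhd ℂ riemannZeta₀ {s : ℂ | 0 < s.re} :=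
    (differentiable_riemannZeta₀.differentiableOn).analyticOnNhd hU
  have h2 : AnalyticOnNhd ℂ (fun s => 1 - s * frJ s) {s : ℂ | 0 < s.re} := by
    refine DifferentiableOn.analyticOnNhd ?_ hU
    intro s hs
    exact ((differentiableAt_const _).sub (differentiableAt_id.mul
      (differentiableAt_frJ hs))).differentiableWithinAt
  refine h1.eqOn_of_preconnected_of_eventuallyEq h2 hc (z₀ := 2) (by simp) ?_ hs
  have : {s : ℂ | 1 < s.re} ∈ nhds (2:ℂ) :=
    (isOpen_lt continuous_const Complex.continuous_re).mem_nhds (by simp)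
  filter_upwards [this] with s hs
  exact riemannZeta₀_eq_of_one_lt hs

/-- polynomial bound for the regularized zeta function -/
lemma norm_riemannZeta₀_le {s : ℂ} (hs : 0 < s.re) :
    ‖riemannZeta₀ s‖ ≤ 1 + ‖s‖ / s.re := by
  rw [riemannZeta₀_eq hs]
  refine (norm_sub_le _ _).trans ?_
  rw [norm_one, norm_mul]
  have := norm_frJ_le hs
  calc 1 + ‖s‖ * ‖frJ s‖ ≤ 1 + ‖s‖ * (1 / s.re) := by gcongr
    _ = _ := by ring

lemma norm_riemannZeta_le {s : ℂ} (hs : 0 < s.re) (h1 : s ≠ 1) :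
    ‖riemannZeta s‖ ≤ ‖s - 1‖⁻¹ + 1 + ‖s‖ / s.re := by
  rw [riemannZeta_eq_inv_sub_add h1]
  refine (norm_add_le _ _).trans ?_
  rw [norm_inv, add_assoc]
  gcongr
  exact norm_riemannZeta₀_le hs

end Pool.Agent.H26
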