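import Pool.Agent.H26.Shifts

/-!
Invariance of the shifted moments problem under translations of all the shifts.
-/

namespace Pool.Agent.H26

open Complex MeasureTheory Set Filter Topology Asymptotics

section general
variable {ι : Type*} [Fintype ι] [DecidableEq ι]

lemma hsum_const_mul (S : Finset ι) (c : ℂ) (x : ι → ℂ) (m : ℕ) :
    hsum S (fun j => c * x j) m = c ^ m * hsum S x m := by
  unfold hsum
  rw [Finset.mul_sum]
  refine Finset.sum_congr rfl fun e he => ?_
  have hs : ∑ j ∈ S, e j = m := (Finset.mem_piAntidiag.1 he).1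
  simp only [mul_pow]
  rw [Finset.prod_mul_distrib, Finset.prod_pow_eq_pow_sum, hs]

lemma localF_add (S : Finset ι) (γ : ι → ℂ) (h : ℂ) {p : ℕ} (hp : p ≠ 0) :
    localF S (fun j => γ j + h) p = localF S γ p := by
  have hp' : (p : ℂ) ≠ 0 := by exact_mod_cast hp
  unfold localF
  have e1 : ∀ j : ι, (p : ℂ) ^ (-(I * (γ j + h))) = (p : ℂ) ^ (-(I * h)) * (p : ℂ) ^ (-(I * γ j)) := by
    intro j
    rw [← Complex.cpow_add _ _ hp']
    congr 1
    ring
  have e2 : ∀ j : ι, (p : ℂ) ^ (I * (γ j + h)) = (p : ℂ) ^ (I * h) * (p : ℂ) ^ (I * γ j) := by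
    intro j
    rw [← Complex.cpow_add _ _ hp']
    congr 1
    ring
  have e3 : ∀ j l : ι, γ j + h - (γ l + h) = γ j - γ l := fun j l => by ring
  simp only [e1, e2, e3, hsum_const_mul]
  congr 1
  refine tsum_congr fun m => ?_
  have e4 : ((p : ℂ) ^ (-(I * h))) ^ m * ((p : ℂ) ^ (I * h)) ^ m = 1 := by
    rw [← mul_pow, ← Complex.cpow_add _ _ hp', neg_add_cancel, Complex.cpow_zero, one_pow]
  calc _ = (((p : ℂ) ^ (-(I * h))) ^ m * ((p : ℂ) ^ (I * h)) ^ m) *
        (hsum S (fun j => (p : ℂ) ^ (-(I * γ j))) m *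
          hsum Sᶜ (fun l => (p : ℂ) ^ (I * γ l)) m * ((p : ℂ)⁻¹) ^ m) := by ring
    _ = _ := by rw [e4, one_mul]

lemma zetaAB_add (S : Finset ι) (γ : ι → ℂ) (h : ℂ) :
    zetaAB S (fun j => γ j + h) = zetaAB S γ := by
  unfold zetaAB eulerF
  have e3 : ∀ j l : ι, γ j + h - (γ l + h) = γ j - γ l := fun j l => by ring
  simp only [e3]
  congr 1
  refine tprod_congr fun p => ?_
  exact localF_add S γ h p.2.ne_zero

end general

variable {k : ℕ}

lemma G_add (S : Finset (Ix k)) (γ : Ix k → ℂ) (h t : ℂ) :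
    G S (fun j => γ j + h) t = G S γ (t + h) := by
  unfold G
  have e : ∀ i : Ix k, t + (γ i + h) = t + h + γ i := fun i => by ring
  simp only [e]

lemma Qsum_add (γ : Ix k → ℂ) (h t : ℂ) : Qsum (fun j => γ j + h) t = Qsum γ (t + h) := by
  unfold Qsum
  refine Finset.sum_congr rfl fun S _ => ?_
  rw [G_add, zetaAB_add]

lemma Zc_add (γ : Ix k → ℂ) (h t : ℂ) : Zc (fun j => γ j + h) t = Zc γ (t + h) := by
  unfold Zc
  refine Finset.prod_congr rfl fun j _ => ?_
  have e : ∀ i : Ix k, t + (γ i + h) = t + h + γ i := fun i => by ring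
  simp only [e]

lemma Er_eq_integral {γ : Ix k → ℝ} (hinj : Function.Injective γ) (T : ℝ) :
    Er γ T = ∫ t in (0:ℝ)..T, (Zc (fun i => (γ i : ℂ)) t - Qsum (fun i => (γ i : ℂ)) t) := by
  unfold Er E
  congr 1
  funext t
  rw [Z_eq_Zc, Q_eq_Qsum hinj]

lemma continuous_ZQ {γ : Ix k → ℝ} (hinj : Function.Injective γ) :
    Continuous fun t : ℝ => Zc (fun i => (γ i : ℂ)) t - Qsum (fun i => (γ i : ℂ)) t := by
  rw [continuous_iff_continuousAt]
  intro t
  have h2 : Continuous fun t : ℝ => (((t : ℂ), fun i => (γ i : ℂ)) : ℂ × (Ix k → ℂ)) := by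
    fun_prop
  have h1 := continuousAt_Zc (q := ((t : ℂ), fun i => (γ i : ℂ))) ⟨im_ofReal_lt t, ofReal_mem_tube _⟩
  have h3 := continuousAt_Qsum (q := ((t : ℂ), fun i => (γ i : ℂ)))
    ⟨im_ofReal_lt t, ofReal_mem_tube _⟩ (injective_ofReal_comp hinj)
  exact (ContinuousAt.comp (f := fun t : ℝ => (((t : ℂ), fun i => (γ i : ℂ)) :
    ℂ × (Ix k → ℂ))) (x := t) h1 h2.continuousAt).sub
    (ContinuousAt.comp (f := fun t : ℝ => (((t : ℂ), fun i => (γ i : ℂ)) :
    ℂ × (Ix k → ℂ))) (x := t) h3 h2.continuousAt)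

lemma Er_add {γ : Ix k → ℝ} (hinj : Function.Injective γ) (h T : ℝ) :
    Er (fun i => γ i + h) T = Er γ (T + h) - Er γ h := by
  have hinj' : Function.Injective fun i => γ i + h := fun i j hij => hinj (by simpa using hij)
  rw [Er_eq_integral hinj', Er_eq_integral hinj, Er_eq_integral hinj]
  have hc := continuous_ZQ hinj
  set D : ℝ → ℂ := fun t => Zc (fun i => (γ i : ℂ)) t - Qsum (fun i => (γ i : ℂ)) t with hD
  have e1 : ∀ t : ℝ, Zc (fun i => ((γ i + h : ℝ) : ℂ)) t - Qsum (fun i => ((γ i + h : ℝ) : ℂ)) t =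
      D (t + h) := by
    intro t
    simp only [hD]
    push_cast
    rw [Zc_add (fun i => (γ i : ℂ)) h t, Qsum_add (fun i => (γ i : ℂ)) h t]
  simp only [e1]
  rw [intervalIntegral.integral_comp_add_right, zero_add]
  exact (intervalIntegral.integral_interval_sub_left (hc.intervalIntegrable _ _)
    (hc.intervalIntegrable _ _)).symm

lemma isBigO_rpow_shift {a : ℝ} (ha : 0 ≤ a) (h : ℝ) :
    (fun T : ℝ => (T + h) ^ a) =O[atTop] (fun T : ℝ => T ^ a) := by
  refine IsBigO.of_bound (2 ^ a) ?_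
  filter_upwards [eventually_ge_atTop (|h|), eventually_ge_atTop 0] with T hT hT0
  have h1 := abs_le.1 hT
  have h2 : 0 ≤ T + h := by linarith [h1.1]
  rw [Real.norm_of_nonneg (by positivity), Real.norm_of_nonneg (by positivity),
    ← Real.mul_rpow (by norm_num) hT0]
  refine Real.rpow_le_rpow h2 ?_ ha
  have := le_abs_self h
  linarith

lemma isBigO_Er_add {γ : Ix k → ℝ} (hinj : Function.Injective γ) {a : ℝ} (ha : 0 ≤ a) (h : ℝ)
    (hO : (fun T => Er γ T) =O[atTop] (fun T : ℝ => T ^ a)) :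
    (fun T => Er (fun i => γ i + h) T) =O[atTop] (fun T : ℝ => T ^ a) := by
  simp only [Er_add hinj]
  refine IsBigO.sub ?_ ?_
  · exact (hO.comp_tendsto (tendsto_atTop_add_const_right atTop h tendsto_id)).trans
      (isBigO_rpow_shift ha h)
  · refine IsBigO.of_bound ‖Er γ h‖ ?_
    filter_upwards [eventually_ge_atTop 1] with T hT
    have h1 : 1 ≤ T ^ a := Real.one_le_rpow hT ha
    rw [Real.norm_of_nonneg (by positivity)]
    nlinarith [norm_nonneg (Er γ h)]

lemma ae_ball_add {γ₀ : Ix k → ℝ} {ρ a : ℝ} (ha : 0 ≤ a) (h : ℝ)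
    (hae : ∀ᵐ γ : Ix k → ℝ, γ ∈ Metric.ball γ₀ ρ →
      (fun T => Er γ T) =O[atTop] (fun T : ℝ => T ^ a)) :
    ∀ᵐ γ : Ix k → ℝ, γ ∈ Metric.ball (fun i => γ₀ i + h) ρ →
      (fun T => Er γ T) =O[atTop] (fun T : ℝ => T ^ a) := by
  have hmp : MeasurePreserving (fun γ : Ix k → ℝ => γ + fun _ => -h) volume volume :=
    measurePreserving_add_right volume _
  have h1 := hmp.quasiMeasurePreserving.ae hae
  have hinj : ∀ᵐ γ : Ix k → ℝ, Function.Injective γ := ae_injective
  filter_upwards [h1, hinj] with γ h2 h3 hmem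
  have hinj' : Function.Injective (γ + fun _ => -h) := fun i j hij => h3 (by simpa using hij)
  have h4 : (γ + fun _ => -h) ∈ Metric.ball γ₀ ρ := by
    rw [Metric.mem_ball] at hmem ⊢
    have e : dist (γ + fun _ => -h) γ₀ = dist γ (fun i => γ₀ i + h) := by
      rw [dist_eq_norm, dist_eq_norm]
      congr 1
      funext i
      simp
      ring
    rw [e]
    exact hmem
  have h5 := isBigO_Er_add hinj' ha h (h2 h4)
  have e : (fun i => (γ + fun _ : Ix k => -h) i + h) = γ := by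
    funext i
    simp
  rw [e] at h5
  exact h5

end Pool.Agent.H26
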