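import Pool.Agent.H26.Defs

/-!
Bounds for the factor of the functional equation.
-/

namespace Pool.Agent.H26

open Complex MeasureTheory Set Filter Asymptotics

lemma norm_betaIntegral_le {z : ℂ} {c : ℝ} (hz : 0 < z.re) (hc : 0 < c) :
    ‖betaIntegral z c‖ ≤ Real.Gamma z.re * Real.Gamma c / Real.Gamma (z.re + c) := by
  have h1 : ∀ x ∈ Ioo (0:ℝ) 1, ‖(x:ℂ) ^ (z - 1) * (1 - (x:ℂ)) ^ ((c:ℂ) - 1)‖
      = ‖(x:ℂ) ^ ((z.re:ℂ) - 1) * (1 - (x:ℂ)) ^ ((c:ℂ) - 1)‖ := by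
    intro x hx
    rw [norm_mul, norm_mul, Complex.norm_cpow_eq_rpow_re_of_pos hx.1,
      Complex.norm_cpow_eq_rpow_re_of_pos hx.1]
    simp
  have h2 : ∀ x ∈ Ioo (0:ℝ) 1, (‖(x:ℂ) ^ ((z.re:ℂ) - 1) * (1 - (x:ℂ)) ^ ((c:ℂ) - 1)‖ : ℂ)
      = (x:ℂ) ^ ((z.re:ℂ) - 1) * (1 - (x:ℂ)) ^ ((c:ℂ) - 1) := by
    intro x hx
    have hx1 : 0 ≤ 1 - x := by linarith [hx.2]
    have e1 : (x:ℂ) ^ ((z.re:ℂ) - 1) = ((x ^ (z.re - 1) : ℝ) : ℂ) := by
      rw [Complex.ofReal_cpow hx.1.le]; push_cast; rfl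
    have e2 : (1 - (x:ℂ)) ^ ((c:ℂ) - 1) = (((1 - x) ^ (c - 1) : ℝ) : ℂ) := by
      rw [Complex.ofReal_cpow hx1]; push_cast; rfl
    rw [e1, e2, ← Complex.ofReal_mul, Complex.norm_real, Real.norm_eq_abs, abs_of_nonneg]
    have := Real.rpow_nonneg hx.1.le (z.re - 1)
    have := Real.rpow_nonneg hx1 (c - 1)
    positivity
  have h3 : ‖betaIntegral z c‖ ≤
      ∫ x in (0:ℝ)..1, ‖(x:ℂ) ^ (z - 1) * (1 - (x:ℂ)) ^ ((c:ℂ) - 1)‖ :=
    intervalIntegral.norm_integral_le_integral_norm zero_le_one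
  have h4 : ∫ x in (0:ℝ)..1, ‖(x:ℂ) ^ (z - 1) * (1 - (x:ℂ)) ^ ((c:ℂ) - 1)‖
      = ∫ x in (0:ℝ)..1, ‖(x:ℂ) ^ ((z.re:ℂ) - 1) * (1 - (x:ℂ)) ^ ((c:ℂ) - 1)‖ := by
    rw [intervalIntegral.integral_of_le zero_le_one, intervalIntegral.integral_of_le zero_le_one,
      integral_Ioc_eq_integral_Ioo, integral_Ioc_eq_integral_Ioo]
    exact setIntegral_congr_fun measurableSet_Ioo h1
  have h5 : ((∫ x in (0:ℝ)..1, ‖(x:ℂ) ^ ((z.re:ℂ) - 1) * (1 - (x:ℂ)) ^ ((c:ℂ) - 1)‖ : ℝ) : ℂ)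
      = betaIntegral (z.re) c := by
    rw [betaIntegral, intervalIntegral.integral_of_le zero_le_one,
      intervalIntegral.integral_of_le zero_le_one,
      integral_Ioc_eq_integral_Ioo, integral_Ioc_eq_integral_Ioo]
    refine (integral_ofReal (𝕜 := ℂ)).symm.trans ?_
    exact setIntegral_congr_fun measurableSet_Ioo h2
  have h6 : betaIntegral (z.re) c
      = ((Real.Gamma z.re * Real.Gamma c / Real.Gamma (z.re + c) : ℝ) : ℂ) := by
    rw [betaIntegral_eq_Gamma_mul_div _ _ (by simpa using hz) (by simpa using hc)]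
    push_cast
    rw [← Complex.Gamma_ofReal, ← Complex.Gamma_ofReal, ← Complex.Gamma_ofReal]
    push_cast
    rfl
  rw [h6] at h5
  have h7 := Complex.ofReal_injective h5
  rw [h4, h7] at h3
  exact h3

/-- comparison of Gamma values on a horizontal line -/
lemma norm_Gamma_le {z : ℂ} {c : ℝ} (hz : 0 < z.re) (hc : 0 < c) :
    ‖Gamma z‖ ≤ Real.Gamma z.re / Real.Gamma (z.re + c) * ‖Gamma (z + c)‖ := by
  have h := Gamma_mul_Gamma_eq_betaIntegral hz (show 0 < (c:ℂ).re by simpa using hc)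
  have hG : 0 < Real.Gamma c := Real.Gamma_pos_of_pos hc
  have h1 : ‖Gamma z‖ * Real.Gamma c = ‖Gamma (z + c)‖ * ‖betaIntegral z c‖ := by
    rw [← norm_mul, ← h, norm_mul, Complex.Gamma_ofReal, Complex.norm_real, Real.norm_eq_abs,
      abs_of_pos hG]
  have h2 := norm_betaIntegral_le hz hc
  have h3 : ‖Gamma z‖ * Real.Gamma c ≤
      (Real.Gamma z.re / Real.Gamma (z.re + c) * ‖Gamma (z + c)‖) * Real.Gamma c := by
    rw [h1]
    calc _ ≤ ‖Gamma (z + c)‖ * (Real.Gamma z.re * Real.Gamma c / Real.Gamma (z.re + c)) := by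
          gcongr
      _ = _ := by ring
  exact le_of_mul_le_mul_right h3 hG


lemma hasDerivAt_one_sub_rpow {c x : ℝ} (h1 : 0 < 1 - x) :
    HasDerivAt (fun x : ℝ => (1 - x) ^ (c - 1)) (-(c - 1) * (1 - x) ^ (c - 2)) x := by
  have h3 : HasDerivAt (fun x : ℝ => 1 - x) (-1) x := by
    simpa using (hasDerivAt_id x).const_sub 1
  have h4 := h3.rpow_const (p := c - 1) (Or.inl h1.ne')
  refine h4.congr_deriv ?_
  rw [show c - 1 - 1 = c - 2 by ring]
  ring

lemma beta_part_one {z : ℂ} {c : ℝ} (hz : 0 < z.re) (hc : 0 < c) (hc1 : c < 1)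
    (hb : 2 ≤ |z.im|) :
    ‖∫ x in (0:ℝ)..(1 - |z.im|⁻¹), (x:ℂ) ^ (z - 1) * (1 - (x:ℂ)) ^ ((c:ℂ) - 1)‖
      ≤ 2 * |z.im| ^ (-c) := by
  set b := |z.im| with hbdef
  set d : ℝ := 1 - b⁻¹ with hd
  have hb0 : 0 < b := by linarith
  have hbinv : b⁻¹ ≤ 1/2 := by
    rw [inv_le_comm₀ hb0 (by norm_num)]; norm_num; linarith
  have hbinv0 : 0 < b⁻¹ := by positivity
  have hd0 : 0 < d := by rw [hd]; linarith
  have hd1 : d < 1 := by rw [hd]; linarith
  have hz0 : z ≠ 0 := by rintro rfl; simp at hz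
  have hbz : b ≤ ‖z‖ := Complex.abs_im_le_norm z
  have hpos : ∀ x ∈ Icc (0:ℝ) d, 0 < 1 - x := fun x hx => by linarith [hx.2]
  set u : ℝ → ℂ := fun x => (((1 - x) ^ (c - 1) : ℝ) : ℂ) with hu
  set u' : ℝ → ℂ := fun x => ((-(c - 1) * (1 - x) ^ (c - 2) : ℝ) : ℂ) with hu'
  set v : ℝ → ℂ := fun x => (x:ℂ) ^ z / z with hv
  set v' : ℝ → ℂ := fun x => (x:ℂ) ^ (z - 1) with hv'
  have hcongr : ∫ x in (0:ℝ)..d, (x:ℂ) ^ (z - 1) * (1 - (x:ℂ)) ^ ((c:ℂ) - 1)
      = ∫ x in (0:ℝ)..d, u x * v' x := by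
    refine intervalIntegral.integral_congr fun x hx => ?_
    rw [uIcc_of_le hd0.le] at hx
    have h1 := hpos x hx
    simp only [hu, hv']
    rw [Complex.ofReal_cpow h1.le]
    push_cast
    ring
  have hucont : ContinuousOn u (uIcc 0 d) := by
    rw [uIcc_of_le hd0.le]
    refine Complex.continuous_ofReal.comp_continuousOn ?_
    refine ContinuousOn.rpow_const (by fun_prop) fun x hx => Or.inl (hpos x hx).ne'
  have hvcont : ContinuousOn v (uIcc 0 d) := by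
    refine ContinuousOn.div_const ?_ _
    refine Continuous.continuousOn ?_
    exact continuous_ofReal_cpow_const hz
  have hudiff : ∀ x ∈ Ioo (min 0 d) (max 0 d), HasDerivAt u (u' x) x := by
    intro x hx
    rw [min_eq_left hd0.le, max_eq_right hd0.le] at hx
    have h1 := hpos x ⟨hx.1.le, hx.2.le⟩
    exact (hasDerivAt_one_sub_rpow h1).ofReal_comp
  have hvdiff : ∀ x ∈ Ioo (min 0 d) (max 0 d), HasDerivAt v (v' x) x := by
    intro x hx
    rw [min_eq_left hd0.le, max_eq_right hd0.le] at hx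
    have := (hasDerivAt_ofReal_cpow_const (x := x) hx.1.ne' hz0).div_const z
    refine this.congr_deriv ?_
    simp only [hv']
    field_simp
  have hu'int : IntervalIntegrable u' volume 0 d := by
    refine ContinuousOn.intervalIntegrable ?_
    rw [uIcc_of_le hd0.le]
    refine Complex.continuous_ofReal.comp_continuousOn ?_
    refine continuousOn_const.mul ?_
    refine ContinuousOn.rpow_const (by fun_prop) fun x hx => Or.inl (hpos x hx).ne'
  have hv'int : IntervalIntegrable v' volume 0 d :=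
    intervalIntegral.intervalIntegrable_cpow' (by simpa using hz)
  rw [hcongr, intervalIntegral.integral_mul_deriv_eq_deriv_mul_of_hasDerivAt hucont hvcont
    hudiff hvdiff hu'int hv'int]
  have hv0 : v 0 = 0 := by simp [hv, hz0]
  have hvle : ∀ x ∈ Icc (0:ℝ) d, ‖v x‖ ≤ b⁻¹ := by
    intro x hx
    simp only [hv]
    rcases eq_or_lt_of_le hx.1 with h | h
    · rw [← h]; simp [hz0, hbinv0.le]
    · rw [norm_div, Complex.norm_cpow_eq_rpow_re_of_pos h, div_eq_mul_inv]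
      have h1 : x ^ z.re ≤ 1 := Real.rpow_le_one hx.1 (hx.2.trans hd1.le) hz.le
      have h2 : ‖z‖⁻¹ ≤ b⁻¹ := inv_anti₀ hb0 hbz
      calc x ^ z.re * ‖z‖⁻¹ ≤ 1 * b⁻¹ := by gcongr
        _ = _ := one_mul _
  have hbpow : b⁻¹ ^ (c - 1) * b⁻¹ = b ^ (-c) := by
    rw [Real.inv_rpow hb0.le, ← Real.rpow_neg hb0.le]
    nth_rewrite 2 [← Real.rpow_one b]
    rw [← Real.rpow_neg hb0.le, ← Real.rpow_add hb0]
    congr 1; ring
  have h1d : 1 - d = b⁻¹ := by rw [hd]; ring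
  have e1 : ‖u d * v d‖ ≤ b ^ (-c) := by
    rw [norm_mul, ← hbpow]
    have : ‖u d‖ = b⁻¹ ^ (c-1) := by
      simp only [hu]
      rw [Complex.norm_real, h1d, Real.norm_eq_abs, abs_of_nonneg (by positivity)]
    rw [this]
    gcongr
    exact hvle d ⟨hd0.le, le_rfl⟩
  have e2 : ‖∫ x in (0:ℝ)..d, u' x * v x‖ ≤ b ^ (-c) := by
    have hle : ∀ x ∈ Ioc (0:ℝ) d, ‖u' x * v x‖ ≤ (-(c - 1) * (1 - x) ^ (c - 2)) * b⁻¹ := by
      intro x hx
      rw [norm_mul]
      have h1 := hpos x ⟨hx.1.le, hx.2⟩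
      have : ‖u' x‖ = -(c - 1) * (1 - x) ^ (c - 2) := by
        simp only [hu']
        rw [Complex.norm_real, Real.norm_eq_abs, abs_of_nonneg]
        have : 0 ≤ -(c-1) := by linarith
        positivity
      rw [this]
      gcongr
      · have : 0 ≤ -(c-1) := by linarith
        positivity
      · exact hvle x ⟨hx.1.le, hx.2⟩
    have hint : IntervalIntegrable (fun x : ℝ => (-(c - 1) * (1 - x) ^ (c - 2)) * b⁻¹)
        volume 0 d := by
      refine ContinuousOn.intervalIntegrable ?_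
      rw [uIcc_of_le hd0.le]
      refine ContinuousOn.mul (continuousOn_const.mul ?_) continuousOn_const
      refine ContinuousOn.rpow_const (by fun_prop) fun x hx => Or.inl (hpos x hx).ne'
    refine (intervalIntegral.norm_integral_le_of_norm_le hd0.le
      (Eventually.of_forall hle) hint).trans ?_
    rw [intervalIntegral.integral_mul_const]
    have hftc : ∫ x in (0:ℝ)..d, -(c - 1) * (1 - x) ^ (c - 2) = (1 - d) ^ (c-1) - 1 := by
      have := intervalIntegral.integral_eq_sub_of_hasDerivAt (a := 0) (b := d)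
        (f := fun x : ℝ => (1 - x) ^ (c - 1)) (f' := fun x => -(c - 1) * (1 - x) ^ (c - 2)) ?_ ?_
      · rw [this]; simp
      · intro x hx
        rw [uIcc_of_le hd0.le] at hx
        exact hasDerivAt_one_sub_rpow (hpos x hx)
      · refine ContinuousOn.intervalIntegrable ?_
        rw [uIcc_of_le hd0.le]
        refine (continuousOn_const.mul ?_)
        refine ContinuousOn.rpow_const (by fun_prop) fun x hx => Or.inl (hpos x hx).ne'
    rw [hftc, h1d, ← hbpow]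
    gcongr
    linarith
  calc ‖u d * v d - u 0 * v 0 - ∫ x in (0:ℝ)..d, u' x * v x‖
      ≤ ‖u d * v d‖ + ‖∫ x in (0:ℝ)..d, u' x * v x‖ := by
        rw [hv0, mul_zero, sub_zero]; exact norm_sub_le _ _
    _ ≤ b ^ (-c) + b ^ (-c) := add_le_add e1 e2
    _ = _ := by ring


lemma beta_part_two {z : ℂ} {c : ℝ} (hz : 0 < z.re) (hc : 0 < c) (hb : 2 ≤ |z.im|) :
    ‖∫ x in (1 - |z.im|⁻¹)..(1:ℝ), (x:ℂ) ^ (z - 1) * (1 - (x:ℂ)) ^ ((c:ℂ) - 1)‖
      ≤ 2 / c * |z.im| ^ (-c) := by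
  set b := |z.im| with hbdef
  set d : ℝ := 1 - b⁻¹ with hd
  have hb0 : 0 < b := by linarith
  have hbinv : b⁻¹ ≤ 1/2 := by
    rw [inv_le_comm₀ hb0 (by norm_num)]; norm_num; linarith
  have hbinv0 : 0 < b⁻¹ := by positivity
  have hd0 : 1/2 ≤ d := by rw [hd]; linarith
  have hd1 : d < 1 := by rw [hd]; linarith
  have hle : ∀ x ∈ Ioc d 1, ‖(x:ℂ) ^ (z - 1) * (1 - (x:ℂ)) ^ ((c:ℂ) - 1)‖
      ≤ 2 * (1 - x) ^ (c - 1) := by
    intro x hx
    have hx0 : 0 < x := by linarith [hx.1]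
    have hx1 : 0 ≤ 1 - x := by linarith [hx.2]
    have e1 : ‖(x:ℂ) ^ (z - 1)‖ ≤ 2 := by
      rw [Complex.norm_cpow_eq_rpow_re_of_pos hx0]
      calc x ^ (z-1).re ≤ x ^ (-1:ℝ) := by
            apply Real.rpow_le_rpow_of_exponent_ge hx0 hx.2
            simp; linarith
        _ ≤ 2 := by
            rw [Real.rpow_neg_one, inv_le_comm₀ hx0 (by norm_num)]
            linarith [hx.1]
    have e2 : ‖(1 - (x:ℂ)) ^ ((c:ℂ) - 1)‖ = (1 - x) ^ (c - 1) := by
      have : (1 - (x:ℂ)) ^ ((c:ℂ) - 1) = (((1 - x) ^ (c - 1) : ℝ) : ℂ) := by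
        rw [Complex.ofReal_cpow hx1]; push_cast; rfl
      rw [this, Complex.norm_real, Real.norm_eq_abs, abs_of_nonneg (by positivity)]
    rw [norm_mul, e2]
    gcongr
  have hint0 : IntervalIntegrable (fun x : ℝ => (1 - x) ^ (c - 1)) volume d 1 := by
    have h := (intervalIntegral.intervalIntegrable_rpow' (a := 1 - d) (b := 0)
      (r := c - 1) (by linarith)).comp_sub_left 1
    simpa using h
  have hint : IntervalIntegrable (fun x : ℝ => 2 * (1 - x) ^ (c - 1)) volume d 1 :=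
    hint0.const_mul 2
  refine (intervalIntegral.norm_integral_le_of_norm_le hd1.le
      (Eventually.of_forall hle) hint).trans ?_
  rw [intervalIntegral.integral_const_mul]
  have h1 : ∫ x in d..1, (1 - x) ^ (c - 1) = (1 - d) ^ c / c := by
    have := intervalIntegral.integral_comp_sub_left (a := d) (b := 1)
      (fun x : ℝ => x ^ (c - 1)) 1
    rw [this, integral_rpow (Or.inl (by linarith))]
    simp [hc.ne']
  have h1d : 1 - d = b⁻¹ := by rw [hd]; ring
  rw [h1, h1d, Real.inv_rpow hb0.le, ← Real.rpow_neg hb0.le]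
  apply le_of_eq
  ring

lemma norm_betaIntegral_le_rpow {z : ℂ} {c : ℝ} (hz : 0 < z.re) (hc : 0 < c) (hc1 : c < 1)
    (hb : 2 ≤ |z.im|) :
    ‖betaIntegral z c‖ ≤ (2 + 2 / c) * |z.im| ^ (-c) := by
  have hconv := betaIntegral_convergent hz (show 0 < (c:ℂ).re by simpa using hc)
  have hb0 : 0 < |z.im| := by linarith
  have hbinv : |z.im|⁻¹ ≤ 1 := inv_le_one_of_one_le₀ (by linarith)
  have hbinv0 : 0 < |z.im|⁻¹ := by positivity
  have hmem : 1 - |z.im|⁻¹ ∈ uIcc (0:ℝ) 1 := by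
    rw [uIcc_of_le zero_le_one]; constructor <;> linarith
  have h1 := hconv.mono_set (uIcc_subset_uIcc_left hmem)
  have h2 := hconv.mono_set (uIcc_subset_uIcc_right hmem)
  rw [betaIntegral, ← intervalIntegral.integral_add_adjacent_intervals h1 h2]
  refine (norm_add_le _ _).trans ?_
  have := beta_part_one hz hc hc1 hb
  have := beta_part_two hz hc hb
  linarith [add_mul 2 (2 / c) (|z.im| ^ (-c))]

lemma half_le_Gamma_add_one {c : ℝ} (hc : 0 < c) (hc1 : c < 1) : 1 / 2 ≤ Real.Gamma (c + 1) := by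
  have h := Real.Gamma_mul_add_mul_le_rpow_Gamma_mul_rpow_Gamma (s := c + 1) (t := c + 2)
    (a := c) (b := 1 - c) (by linarith) (by linarith) hc (by linarith) (by ring)
  have e1 : c * (c + 1) + (1 - c) * (c + 2) = 2 := by ring
  have hpos : 0 < Real.Gamma (c + 1) := Real.Gamma_pos_of_pos (by linarith)
  have e2 : Real.Gamma (c + 2) = (c + 1) * Real.Gamma (c + 1) := by
    rw [show c + 2 = (c + 1) + 1 by ring, Real.Gamma_add_one (by linarith)]
  rw [e1, Real.Gamma_two, e2, Real.mul_rpow (by linarith) hpos.le] at h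
  have e3 : Real.Gamma (c+1) ^ c * ((c + 1) ^ (1 - c) * Real.Gamma (c+1) ^ (1 - c))
      = (c + 1) ^ (1 - c) * Real.Gamma (c + 1) := by
    rw [mul_comm ((c+1) ^ (1-c)), ← mul_assoc, ← Real.rpow_add hpos]
    simp [mul_comm]
  rw [e3] at h
  have e4 : (c + 1) ^ (1 - c) ≤ 2 := by
    calc (c + 1) ^ (1 - c) ≤ (c + 1) ^ (1:ℝ) :=
          Real.rpow_le_rpow_of_exponent_le (by linarith) (by linarith)
      _ ≤ 2 := by rw [Real.rpow_one]; linarith
  nlinarith

/-- decay of quotients of Gamma values on a horizontal line -/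
lemma norm_Gamma_le_rpow_mul {z : ℂ} {c : ℝ} (hz : 0 < z.re) (hc : 0 ≤ c) (hc1 : c ≤ 1)
    (hb : 2 ≤ |z.im|) :
    ‖Gamma z‖ ≤ 8 * |z.im| ^ (-c) * ‖Gamma (z + c)‖ := by
  have hb0 : 0 < |z.im| := by linarith
  rcases eq_or_lt_of_le hc with h0 | h0
  · subst h0
    have := norm_nonneg (Gamma z)
    simp
    linarith
  rcases eq_or_lt_of_le hc1 with h1 | h1
  · subst h1
    have hz0 : z ≠ 0 := by rintro rfl; simp at hz
    have hzn : |z.im| ≤ ‖z‖ := Complex.abs_im_le_norm z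
    push_cast
    rw [Gamma_add_one z hz0, norm_mul, Real.rpow_neg_one]
    have : 1 ≤ 8 * |z.im|⁻¹ * ‖z‖ := by
      rw [mul_assoc, inv_mul_eq_div]
      have : 1 ≤ ‖z‖ / |z.im| := (one_le_div hb0).2 hzn
      linarith
    nlinarith [norm_nonneg (Gamma z)]
  have h := Gamma_mul_Gamma_eq_betaIntegral hz (show 0 < (c:ℂ).re by simpa using h0)
  have hG : 0 < Real.Gamma c := Real.Gamma_pos_of_pos h0
  have e1 : ‖Gamma z‖ * Real.Gamma c = ‖Gamma (z + c)‖ * ‖betaIntegral z c‖ := by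
    rw [← norm_mul, ← h, norm_mul, Complex.Gamma_ofReal, Complex.norm_real, Real.norm_eq_abs,
      abs_of_pos hG]
  have e2 := norm_betaIntegral_le_rpow hz h0 h1 hb
  have e3 : 2 + 2 / c ≤ 8 * Real.Gamma c := by
    have := half_le_Gamma_add_one h0 h1
    rw [Real.Gamma_add_one h0.ne'] at this
    have : 2 * c + 2 ≤ 8 * (c * Real.Gamma c) := by nlinarith
    have h3 : (2 + 2 / c) * c ≤ (8 * Real.Gamma c) * c := by
      field_simp
      linarith
    exact le_of_mul_le_mul_right h3 h0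
  have hp : 0 ≤ |z.im| ^ (-c) := by positivity
  have e4 : ‖Gamma z‖ * Real.Gamma c ≤
      (8 * |z.im| ^ (-c) * ‖Gamma (z + c)‖) * Real.Gamma c := by
    rw [e1]
    calc _ ≤ ‖Gamma (z + c)‖ * ((2 + 2 / c) * |z.im| ^ (-c)) := by gcongr
      _ ≤ ‖Gamma (z + c)‖ * ((8 * Real.Gamma c) * |z.im| ^ (-c)) := by gcongr
      _ = _ := by ring
  exact le_of_mul_le_mul_right e4 hG

lemma norm_Gamma_add_le_rpow_mul {z : ℂ} {c : ℝ} (hz : 0 < z.re) (hc : 0 ≤ c) (hc1 : c ≤ 1)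
    (hb : 2 ≤ |z.im|) :
    ‖Gamma (z + c)‖ ≤ 8 * (1 + z.re) * |z.im| ^ c * ‖Gamma z‖ := by
  have hb0 : 0 < |z.im| := by linarith
  have hz0 : z ≠ 0 := by rintro rfl; simp at hz
  have h := norm_Gamma_le_rpow_mul (z := z + c) (c := 1 - c) (by simp; linarith) (by linarith)
    (by linarith) (by simpa using hb)
  have e1 : z + c + ((1 - c : ℝ) : ℂ) = z + 1 := by push_cast; ring
  rw [e1, Gamma_add_one z hz0, norm_mul] at h
  have e2 : (z + c).im = z.im := by simp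
  rw [e2] at h
  have e3 : ‖z‖ ≤ (1 + z.re) * |z.im| := by
    have := Complex.norm_le_abs_re_add_abs_im z
    rw [abs_of_pos hz] at this
    nlinarith
  have e4 : |z.im| ^ (-(1 - c)) * |z.im| = |z.im| ^ c := by
    nth_rewrite 2 [← Real.rpow_one |z.im|]
    rw [← Real.rpow_add hb0]; congr 1; ring
  calc _ ≤ _ := h
    _ ≤ 8 * |z.im| ^ (-(1 - c)) * (((1 + z.re) * |z.im|) * ‖Gamma z‖) := by gcongr
    _ = 8 * (1 + z.re) * (|z.im| ^ (-(1 - c)) * |z.im|) * ‖Gamma z‖ := by ring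
    _ = _ := by rw [e4]

lemma norm_Gamma_symm (a b : ℝ) : ‖Gamma (a - b * I)‖ = ‖Gamma (a + b * I)‖ := by
  have h := Complex.Gamma_conj (a + b * I)
  have e : (starRingEnd ℂ) (a + b * I) = a - b * I := by
    simp [Complex.ext_iff]
  rw [e] at h
  rw [h]
  exact RCLike.norm_conj _

lemma norm_pi_cpow (w : ℂ) : ‖(Real.pi : ℂ) ^ w‖ = Real.pi ^ w.re :=
  Complex.norm_cpow_eq_rpow_re_of_pos Real.pi_pos w

/-- exact order of `χ` away from the real axis -/
lemma norm_chi_le_of_im {s : ℂ} (h0 : 0 < s.re) (h1 : s.re < 1) (hb : 4 ≤ |s.im|) :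
    ‖chi s‖ ≤ 40 * |s.im| ^ (1 / 2 - s.re) := by
  have hsim : 0 < |s.im| := by linarith
  have e1 : ‖Gamma ((1 - s) / 2)‖ = ‖Gamma (((1 - s.re) / 2 : ℝ) + ((s.im / 2 : ℝ) : ℂ) * I)‖ := by
    rw [← norm_Gamma_symm]
    congr 2
    apply Complex.ext
    · simp
    · simp
      ring
  have e2 : s / 2 = ((s.re / 2 : ℝ) : ℂ) + ((s.im / 2 : ℝ) : ℂ) * I := by
    apply Complex.ext <;> simp
  have hG2 : Gamma (s / 2) ≠ 0 := Gamma_ne_zero_of_re_pos (by simpa using h0)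
  have hG2' : 0 < ‖Gamma (s / 2)‖ := norm_pos_iff.2 hG2
  have him : |s.im / 2| = |s.im| / 2 := by rw [abs_div, abs_of_pos (by norm_num : (0:ℝ) < 2)]
  unfold chi
  rw [norm_div, norm_mul, norm_pi_cpow, div_le_iff₀ hG2']
  have hre : (s - 1 / 2).re = s.re - 1 / 2 := by simp
  rw [hre]
  rcases le_total (1 / 2) s.re with hσ | hσ
  · have h := norm_Gamma_le_rpow_mul
      (z := (((1 - s.re) / 2 : ℝ) : ℂ) + ((s.im / 2 : ℝ) : ℂ) * I) (c := s.re - 1 / 2)
      (by simp; linarith) (by linarith) (by linarith) (by simp [him]; linarith)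
    have e3 : (((1 - s.re) / 2 : ℝ) : ℂ) + ((s.im / 2 : ℝ) : ℂ) * I + ((s.re - 1 / 2 : ℝ) : ℂ) =
        s / 2 := by
      rw [e2]; push_cast; ring
    rw [e3, ← e1] at h
    have e4 : ((((1 - s.re) / 2 : ℝ) : ℂ) + ((s.im / 2 : ℝ) : ℂ) * I).im = s.im / 2 := by simp
    rw [e4, him] at h
    have h5 : Real.pi ^ (s.re - 1 / 2) ≤ 2 := by
      calc Real.pi ^ (s.re - 1 / 2) ≤ Real.pi ^ (1 / 2 : ℝ) :=
            Real.rpow_le_rpow_of_exponent_le (by linarith [Real.pi_gt_three]) (by linarith)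
        _ ≤ (4:ℝ) ^ (1 / 2 : ℝ) := by
            gcongr
            exact Real.pi_le_four
        _ = 2 := by
            rw [show (4:ℝ) = 2 ^ (2:ℝ) by norm_num, ← Real.rpow_mul (by norm_num)]
            norm_num
    have h6 : (|s.im| / 2) ^ (-(s.re - 1 / 2)) ≤ 2 * |s.im| ^ (1 / 2 - s.re) := by
      rw [Real.div_rpow hsim.le (by norm_num), show -(s.re - 1 / 2) = 1 / 2 - s.re by ring,
        div_le_iff₀ (by positivity), mul_comm, ← mul_assoc]
      have : 1 ≤ (2:ℝ) ^ (1 / 2 - s.re) * 2 := by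
        have e : (2:ℝ) ^ (1 / 2 - s.re) * 2 = (2:ℝ) ^ (1 / 2 - s.re + 1) := by
          rw [Real.rpow_add (by norm_num), Real.rpow_one]
        rw [e]
        exact Real.one_le_rpow (by norm_num) (by linarith)
      nlinarith [Real.rpow_nonneg hsim.le (1 / 2 - s.re)]
    calc _ ≤ 2 * (8 * (2 * |s.im| ^ (1 / 2 - s.re)) * ‖Gamma (s / 2)‖) := by
          gcongr
          refine h.trans ?_
          gcongr
      _ = 32 * (|s.im| ^ (1 / 2 - s.re) * ‖Gamma (s / 2)‖) := by ring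
      _ ≤ 40 * (|s.im| ^ (1 / 2 - s.re) * ‖Gamma (s / 2)‖) := by gcongr; norm_num
      _ = _ := by ring
  · have h := norm_Gamma_add_le_rpow_mul
      (z := ((s.re / 2 : ℝ) : ℂ) + ((s.im / 2 : ℝ) : ℂ) * I) (c := 1 / 2 - s.re)
      (by simp; linarith) (by linarith) (by linarith) (by simp [him]; linarith)
    have e3 : ((s.re / 2 : ℝ) : ℂ) + ((s.im / 2 : ℝ) : ℂ) * I + ((1 / 2 - s.re : ℝ) : ℂ) =
        (((1 - s.re) / 2 : ℝ) : ℂ) + ((s.im / 2 : ℝ) : ℂ) * I := by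
      push_cast; ring
    have e4 : (((s.re / 2 : ℝ) : ℂ) + ((s.im / 2 : ℝ) : ℂ) * I).im = s.im / 2 := by simp
    have e5 : (((s.re / 2 : ℝ) : ℂ) + ((s.im / 2 : ℝ) : ℂ) * I).re = s.re / 2 := by simp
    rw [e3, ← e1, e4, e5, him, ← e2] at h
    have h5 : Real.pi ^ (s.re - 1 / 2) ≤ 1 :=
      Real.rpow_le_one_of_one_le_of_nonpos (by linarith [Real.pi_gt_three]) (by linarith)
    have h6 : (|s.im| / 2) ^ (1 / 2 - s.re) ≤ |s.im| ^ (1 / 2 - s.re) := by
      apply Real.rpow_le_rpow (by positivity) (by linarith) (by linarith)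
    calc _ ≤ 1 * (8 * (1 + 1) * |s.im| ^ (1 / 2 - s.re) * ‖Gamma (s / 2)‖) := by
          gcongr
          refine h.trans ?_
          gcongr
          linarith
      _ = 16 * (|s.im| ^ (1 / 2 - s.re) * ‖Gamma (s / 2)‖) := by ring
      _ ≤ 40 * (|s.im| ^ (1 / 2 - s.re) * ‖Gamma (s / 2)‖) := by gcongr; norm_num
      _ = _ := by ring

lemma differentiableAt_chi {s : ℂ} (h1 : s.re < 1) : DifferentiableAt ℂ chi s := by
  have e : chi = fun s => (Real.pi : ℂ) ^ (s - 1 / 2) * Gamma ((1 - s) / 2) *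
      (Gamma (s / 2))⁻¹ := by
    funext s; rw [chi, div_eq_mul_inv]
  rw [e]
  have hpi : (Real.pi : ℂ) ≠ 0 := by exact_mod_cast Real.pi_ne_zero
  have hG : DifferentiableAt ℂ (fun s : ℂ => Gamma ((1 - s) / 2)) s := by
    have h : DifferentiableAt ℂ Gamma ((1 - s) / 2) := by
      refine differentiableAt_Gamma _ fun m => ?_
      intro hm
      have := congrArg Complex.re hm
      simp at this
      have hm0 : (0:ℝ) ≤ m := Nat.cast_nonneg m
      linarith
    exact h.comp s (by fun_prop)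
  have hG2 : DifferentiableAt ℂ (fun s : ℂ => (Gamma (s / 2))⁻¹) s :=
    (differentiable_one_div_Gamma.comp (by fun_prop : Differentiable ℂ fun s : ℂ => s / 2)) s
  have hp : DifferentiableAt ℂ (fun s : ℂ => (Real.pi : ℂ) ^ (s - 1 / 2)) s := by
    refine DifferentiableAt.const_cpow (by fun_prop) (Or.inl hpi)
  exact (hp.mul hG).mul hG2

lemma exists_norm_chi_le : ∃ C : ℝ, 0 < C ∧ ∀ s : ℂ, 1 / 4 ≤ s.re → s.re ≤ 3 / 4 →
    ‖chi s‖ ≤ C * (1 + |s.im|) := by
  set K : Set ℂ := Set.Icc (1 / 4 : ℝ) (3 / 4) ×ℂ Set.Icc (-4 : ℝ) 4 with hK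
  have hKc : IsCompact K := isCompact_Icc.reProdIm isCompact_Icc
  have hcont : ContinuousOn chi K := by
    intro s hs
    have : s.re ≤ 3 / 4 := (Complex.mem_reProdIm.1 hs).1.2
    exact (differentiableAt_chi (by linarith)).continuousAt.continuousWithinAt
  obtain ⟨C, hC⟩ := hKc.exists_bound_of_continuousOn hcont
  refine ⟨max C 40, lt_of_lt_of_le (by norm_num) (le_max_right _ _), fun s h0 h1 => ?_⟩
  have hA : 0 ≤ |s.im| := abs_nonneg _
  rcases le_total |s.im| 4 with h | h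
  · have hs : s ∈ K := Complex.mem_reProdIm.2 ⟨⟨h0, h1⟩, abs_le.1 h⟩
    calc _ ≤ C := hC s hs
      _ ≤ max C 40 * 1 := by rw [mul_one]; exact le_max_left _ _
      _ ≤ _ := by
          have : (0:ℝ) ≤ max C 40 := le_trans (by norm_num) (le_max_right _ _)
          gcongr
          linarith
  · refine (norm_chi_le_of_im (by linarith) (by linarith) h).trans ?_
    gcongr
    · exact le_max_right _ _
    · calc |s.im| ^ (1 / 2 - s.re) ≤ |s.im| ^ (1:ℝ) := by
            apply Real.rpow_le_rpow_of_exponent_le (by linarith) (by linarith)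
        _ = |s.im| := Real.rpow_one _
        _ ≤ _ := by linarith

end Pool.Agent.H26
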