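import Pool.Agent.H26.OmDefs
import Pool.Agent.H26.ZetaGrowth
import Pool.Agent.H95fa.Twist

/-!
Gaussian averaging over shifts.
-/

open Complex MeasureTheory Set Filter Topology Pool.Agent.H95fa
namespace Pool.Agent.H26

/-- real form of the Gaussian -/
lemma gau_real {L : ℝ} (x : ℝ) :
    gau L x = ((Real.sqrt (L / (2 * Real.pi)) * Real.exp (-(L / 2) * x ^ 2) : ℝ) : ℂ) := by
  unfold gau
  push_cast
  congr 2
  ring

lemma gau_real_nonneg {L : ℝ} (x : ℝ) :
    0 ≤ Real.sqrt (L / (2 * Real.pi)) * Real.exp (-(L / 2) * x ^ 2) := by positivity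

lemma norm_gau_real {L : ℝ} (x : ℝ) :
    ‖gau L x‖ = Real.sqrt (L / (2 * Real.pi)) * Real.exp (-(L / 2) * x ^ 2) := by
  rw [gau_real, Complex.norm_real, Real.norm_eq_abs, abs_of_nonneg (gau_real_nonneg x)]

lemma integrable_gauR {L : ℝ} (hL : 0 < L) :
    Integrable (fun x : ℝ => Real.sqrt (L / (2 * Real.pi)) * Real.exp (-(L / 2) * x ^ 2)) :=
  (integrable_exp_neg_mul_sq (by positivity)).const_mul _

lemma integral_gauR {L : ℝ} (hL : 0 < L) :
    ∫ x : ℝ, Real.sqrt (L / (2 * Real.pi)) * Real.exp (-(L / 2) * x ^ 2) = 1 := by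
  rw [integral_const_mul, integral_gaussian, ← Real.sqrt_mul (by positivity)]
  have : L / (2 * Real.pi) * (Real.pi / (L / 2)) = 1 := by
    have := Real.pi_pos.ne'
    field_simp
  rw [this, Real.sqrt_one]

lemma continuous_gau (L : ℝ) : Continuous (gau L) := by
  unfold gau; fun_prop

lemma differentiable_gau (L : ℝ) : Differentiable ℂ (gau L) := by
  unfold gau; fun_prop

lemma integral_norm_gau_le {L R : ℝ} (hL : 0 < L) (hR : 0 ≤ R) :
    ∫ x in (-R)..R, ‖gau L x‖ ≤ 1 := by
  simp only [norm_gau_real]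
  rw [intervalIntegral.integral_of_le (by linarith)]
  calc _ ≤ ∫ x : ℝ, Real.sqrt (L / (2 * Real.pi)) * Real.exp (-(L / 2) * x ^ 2) :=
        setIntegral_le_integral (integrable_gauR hL) (Eventually.of_forall fun x => gau_real_nonneg x)
    _ = 1 := integral_gauR hL

lemma norm_gau_side {L R Y y a : ℝ} (hL : 1 ≤ L) (hy0 : 0 ≤ y) (hy : y ≤ Y) (ha : a ^ 2 = R ^ 2) :
    ‖gau L (a + y * I - Y * I)‖ ≤ L * Real.exp (-(L * (R ^ 2 - Y ^ 2) / 2)) := by
  unfold gau
  rw [norm_mul, Complex.norm_exp, Complex.norm_real, Real.norm_eq_abs,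
    abs_of_nonneg (Real.sqrt_nonneg _)]
  have h1 : Real.sqrt (L / (2 * Real.pi)) ≤ L := by
    rw [Real.sqrt_le_left (by linarith)]
    have : L / (2 * Real.pi) ≤ L := div_le_self (by linarith) (by linarith [Real.pi_gt_three])
    nlinarith
  have h2 : (-(L * ((a : ℂ) + y * I - Y * I) ^ 2 / 2)).re = -(L / 2) * (a ^ 2 - (y - Y) ^ 2) := by
    have : (-(L * ((a : ℂ) + y * I - Y * I) ^ 2 / 2)) =
        ((-(L / 2) * (a ^ 2 - (y - Y) ^ 2) : ℝ) : ℂ) + ((-(L * a * (y - Y)) : ℝ) : ℂ) * I := by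
      push_cast
      linear_combination (-(L / 2) * (y - Y) ^ 2 : ℂ) * I_sq
    rw [this, add_re, ofReal_re, re_ofReal_mul, I_re, mul_zero, add_zero]
  rw [h2]
  have h3 : -(L / 2) * (a ^ 2 - (y - Y) ^ 2) ≤ -(L * (R ^ 2 - Y ^ 2) / 2) := by
    have : (y - Y) ^ 2 ≤ Y ^ 2 := by nlinarith
    rw [ha]
    nlinarith
  gcongr

lemma norm_zeta_side {Y u s : ℝ} (hs0 : 1 / 2 ≤ s) (hs : s ≤ 1 / 2 + Y) (hu : 1 ≤ |u|) :
    ‖riemannZeta (s + u * I)‖ ≤ 4 + 2 * Y + 2 * |u| := by
  have h1 : ((s + u * I : ℂ)).re = s := by simp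
  have h1' : ((s + u * I : ℂ)).im = u := by simp
  have hne : (s + u * I : ℂ) ≠ 1 := by
    intro h
    have := congrArg Complex.im h
    rw [h1'] at this
    simp only [one_im] at this
    rw [this] at hu
    norm_num at hu
  have hb := norm_riemannZeta_le (s := s + u * I) (by rw [h1]; linarith) hne
  rw [h1] at hb
  have h2 : ‖(s + u * I : ℂ) - 1‖⁻¹ ≤ 1 := by
    apply inv_le_one_of_one_le₀
    calc 1 ≤ |u| := hu
      _ = |((s + u * I : ℂ) - 1).im| := by simp
      _ ≤ _ := abs_im_le_norm _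
  have h3 : ‖(s + u * I : ℂ)‖ / s ≤ 1 + 2 * |u| := by
    have h4 : ‖(s + u * I : ℂ)‖ ≤ s + |u| := by
      calc _ ≤ ‖(s : ℂ)‖ + ‖(u : ℂ) * I‖ := norm_add_le _ _
        _ = _ := by
          rw [norm_mul, norm_I, mul_one, Complex.norm_real, Complex.norm_real, Real.norm_eq_abs,
            Real.norm_eq_abs, abs_of_nonneg (by linarith)]
    rw [div_le_iff₀ (by linarith)]
    nlinarith [abs_nonneg u]
  linarith

lemma norm_zprod_side (l : List ℝ) {R Y : ℝ} (hY : 1 ≤ Y) (hR : Y ≤ R) (hl : ∀ c ∈ l, R + 1 ≤ c) :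
    ∃ C : ℝ, 0 < C ∧ ∀ t a s : ℝ, 0 ≤ t → |a| ≤ R → 1 / 2 ≤ s → s ≤ 1 / 2 + Y →
      ‖zprod (l.map Neg.neg) (s - I * (t + a))‖ ≤ C * (1 + t) ^ l.length := by
  induction l with
  | nil => exact ⟨1, one_pos, fun t a s _ _ _ _ => by simp [zprod]⟩
  | cons c l ih =>
    obtain ⟨C, hC, h⟩ := ih fun c hc => hl c (List.mem_cons_of_mem _ hc)
    have hc : R + 1 ≤ c := hl c (List.mem_cons_self)
    have hK : 0 < 4 + 2 * Y + 2 * (1 + R + c) := by linarith
    refine ⟨(4 + 2 * Y + 2 * (1 + R + c)) * C, by positivity, fun t a s ht ha hs0 hs => ?_⟩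
    have h1 := h t a s ht ha hs0 hs
    have h0 : zprod ((c :: l).map Neg.neg) (s - I * (t + a)) =
        riemannZeta (s + ((-(t + a + c) : ℝ) : ℂ) * I) * zprod (l.map Neg.neg) (s - I * (t + a)) := by
      simp only [zprod, List.map_cons, List.prod_cons]
      congr 2
      push_cast
      ring
    rw [h0, norm_mul, List.length_cons, pow_succ]
    have ha' := abs_le.1 ha
    have h2 : |(-(t + a + c))| ≤ t + R + c := by
      rw [abs_neg, abs_le]
      constructor <;> linarith
    have h3 : 1 ≤ |(-(t + a + c))| := by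
      rw [abs_neg]
      exact le_trans (by linarith) (le_abs_self _)
    have h4 := norm_zeta_side hs0 hs h3
    have h5 : ‖riemannZeta (s + ((-(t + a + c) : ℝ) : ℂ) * I)‖ ≤
        (4 + 2 * Y + 2 * (1 + R + c)) * (1 + t) := by
      refine h4.trans ?_
      nlinarith
    have hK' : 0 ≤ (4 + 2 * Y + 2 * (1 + R + c)) * (1 + t) := by positivity
    calc _ ≤ ((4 + 2 * Y + 2 * (1 + R + c)) * (1 + t)) * (C * (1 + t) ^ l.length) := by gcongr
      _ = _ := by ring

lemma differentiableAt_zprod_avg (l : List ℝ) {w : ℂ} (hw : ∀ c ∈ l, w + I * c ≠ 1) :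
    DifferentiableAt ℂ (zprod l) w := by
  induction l with
  | nil =>
    have : zprod [] = fun _ => 1 := by ext; simp [zprod]
    rw [this]; fun_prop
  | cons c l ih =>
    have h0 : zprod (c :: l) = fun w => riemannZeta (w + I * c) * zprod l w := by
      ext w; simp [zprod]
    rw [h0]
    refine DifferentiableAt.mul ?_ (ih fun c hc => hw c (List.mem_cons_of_mem _ hc))
    have h1 := differentiableAt_riemannZeta (hw c List.mem_cons_self)
    exact DifferentiableAt.comp (f := fun w : ℂ => w + I * c) (g := riemannZeta) w h1 (by fun_prop)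

-- (exponent l.length of (1+t) is important)
theorem exists_average_shift (l : List ℝ) (R Y : ℝ) (hY : 1 ≤ Y) (hR : Y ≤ R)
    (hl : ∀ c ∈ l, R + 1 ≤ c) :
    ∃ C : ℝ, 0 < C ∧ ∀ L t : ℝ, 1 ≤ L → 0 ≤ t →
    ‖(∫ x in (-R)..R, gau L (x - Y * I) * zprod (l.map Neg.neg) (1 / 2 - I * (t + x))) -
      ∫ x in (-R)..R, gau L x * zprod (l.map Neg.neg) (1 / 2 + Y - I * (t + x))‖ ≤
      C * L * Real.exp (-(L * (R ^ 2 - Y ^ 2) / 2)) * (1 + t) ^ l.length := by
  obtain ⟨C, hC, h⟩ := norm_zprod_side l hY hR hl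
  refine ⟨2 * Y * C, by positivity, fun L t hL ht => ?_⟩
  set f : ℂ → ℂ := fun z => gau L (z - Y * I) * zprod (l.map Neg.neg) (1 / 2 - I * (t + z)) with hf
  have hR0 : -R ≤ R := by linarith
  have hrect := Complex.integral_boundary_rect_eq_zero_of_differentiableOn f (((-R : ℝ) : ℂ))
    (((R : ℝ) : ℂ) + Y * I) (by
      intro z hz
      rw [Complex.mem_reProdIm] at hz
      simp only [ofReal_re, add_re, mul_re, ofReal_im, I_re, mul_zero, I_im, mul_one, sub_self,
        add_zero, add_im, mul_im, zero_add, uIcc_of_le hR0, uIcc_of_le (by linarith : (0:ℝ) ≤ Y)] at hz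
      have hz1 : -R ≤ z.re := hz.1.1
      refine DifferentiableAt.differentiableWithinAt ?_
      refine DifferentiableAt.mul ?_ ?_
      · exact DifferentiableAt.comp (f := fun z : ℂ => z - Y * I) (g := gau L) z
          (differentiable_gau L _) (by fun_prop)
      · refine DifferentiableAt.comp (f := fun z : ℂ => 1 / 2 - I * (t + z))
          (g := zprod (l.map Neg.neg)) z (differentiableAt_zprod_avg _ ?_) (by fun_prop)
        intro c hc
        rw [List.mem_map] at hc
        obtain ⟨c', hc', rfl⟩ := hc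
        have hc'' := hl c' hc'
        intro he
        have := congrArg Complex.im he
        simp at this
        linarith)
  simp only [ofReal_re, add_re, mul_re, ofReal_im, I_re, mul_zero, I_im, mul_one, sub_self,
        add_zero, add_im, mul_im, zero_add, smul_eq_mul, ofReal_zero, zero_mul] at hrect
  have e1 : ∫ x in (-R)..R, gau L (x - Y * I) * zprod (l.map Neg.neg) (1 / 2 - I * (t + x)) =
      ∫ x in (-R)..R, f x := rfl
  have e2 : ∫ x in (-R)..R, gau L x * zprod (l.map Neg.neg) (1 / 2 + Y - I * (t + x)) =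
      ∫ x in (-R)..R, f (x + Y * I) := by
    congr 1
    ext x
    simp only [hf]
    congr 2
    · ring
    · linear_combination (Y : ℂ) * I_sq
  have e3 : (∫ x in (-R)..R, f x) - (∫ x in (-R)..R, f (x + Y * I)) =
      I * (∫ y in (0:ℝ)..Y, f (((-R : ℝ) : ℂ) + y * I)) - I * (∫ y in (0:ℝ)..Y, f ((R : ℂ) + y * I)) := by
    linear_combination hrect
  rw [e1, e2, e3]
  have hside : ∀ a : ℝ, |a| ≤ R → a ^ 2 = R ^ 2 → ‖∫ y in (0:ℝ)..Y, f ((a : ℂ) + y * I)‖ ≤
      (L * Real.exp (-(L * (R ^ 2 - Y ^ 2) / 2))) * (C * (1 + t) ^ l.length) * |Y - 0| := by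
    intro a ha ha2
    refine intervalIntegral.norm_integral_le_of_norm_le_const fun y hy => ?_
    rw [uIoc_of_le (by linarith)] at hy
    simp only [hf]
    rw [norm_mul]
    have h1 := norm_gau_side (L := L) (R := R) (Y := Y) (y := y) (a := a) hL hy.1.le hy.2 ha2
    have h2 := h t a (1 / 2 + y) ht ha (by linarith [hy.1]) (by linarith [hy.2])
    have h3 : (1 / 2 - I * (t + ((a : ℂ) + y * I)) : ℂ) = ((1 / 2 + y : ℝ) : ℂ) - I * (t + a) := by
      push_cast
      linear_combination (-(y : ℂ)) * I_sq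
    rw [h3]
    gcongr
  have h1 := hside (-R) (by rw [abs_neg, abs_of_nonneg (by linarith)]) (by ring)
  have h2 := hside R (by rw [abs_of_nonneg (by linarith)]) (by ring)
  rw [sub_zero, abs_of_nonneg (by linarith)] at h1 h2
  calc _ ≤ ‖I * (∫ y in (0:ℝ)..Y, f (((-R : ℝ) : ℂ) + y * I))‖ +
        ‖I * (∫ y in (0:ℝ)..Y, f ((R : ℂ) + y * I))‖ := norm_sub_le _ _
    _ ≤ (L * Real.exp (-(L * (R ^ 2 - Y ^ 2) / 2))) * (C * (1 + t) ^ l.length) * Y +
        (L * Real.exp (-(L * (R ^ 2 - Y ^ 2) / 2))) * (C * (1 + t) ^ l.length) * Y := by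
        rw [norm_mul, norm_mul, norm_I, one_mul, one_mul]
        gcongr
    _ = _ := by ring

/-- the coefficients of the averaged product -/
theorem average_series (l : List ℝ) {R Y L : ℝ} (hY : 1 ≤ Y) (hR : 0 ≤ R) (hL : 0 < L) (t : ℝ) :
    ∫ x in (-R)..R, gau L x * zprod (l.map Neg.neg) (1 / 2 + Y - I * (t + x)) =
      ∑' m : ℕ, cmu l R Y L m * (m : ℂ) ^ (I * t) := by
  set c := aco (l.map Neg.neg) with hc
  have hsum := summable_aco (l.map Neg.neg) (c := 1 / 2 + Y) (by linarith)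
  -- the terms
  set F : ℕ → ℝ → ℂ := fun m x => if m = 0 then 0 else
    gau L x * (c m * ((m : ℂ) ^ (-(1 / 2 + Y : ℂ)) * (m : ℂ) ^ (I * (t + x)))) with hF
  have hFc : ∀ m, Continuous (F m) := by
    intro m
    by_cases hm : m = 0
    · simp only [hF, hm, if_true]; exact continuous_const
    · simp only [hF, hm, if_false]
      have hm' : (m : ℂ) ≠ 0 := by exact_mod_cast hm
      have h1 : Continuous fun x : ℝ => gau L x := (continuous_gau L).comp Complex.continuous_ofReal
      have h2 : Continuous fun x : ℝ => (m : ℂ) ^ (I * (t + x)) :=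
        Continuous.const_cpow (by fun_prop) (Or.inl hm')
      fun_prop
  have hnorm : ∀ m (x : ℝ), ‖F m x‖ ≤ ‖gau L x‖ * (‖c m‖ * (m : ℝ) ^ (-(1 / 2 + Y))) := by
    intro m x
    by_cases hm : m = 0
    · simp only [hF, hm, if_true, norm_zero]; positivity
    · simp only [hF, hm, if_false]
      have hm' : (0 : ℝ) < m := by exact_mod_cast Nat.pos_of_ne_zero hm
      rw [norm_mul, norm_mul, norm_mul]
      have h1 : ‖(m : ℂ) ^ (-(1 / 2 + Y : ℂ))‖ = (m : ℝ) ^ (-(1 / 2 + Y)) := by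
        rw [← Complex.ofReal_natCast, Complex.norm_cpow_eq_rpow_re_of_pos hm']
        congr 1
        simp
      have h2 : ‖(m : ℂ) ^ (I * (t + x))‖ = 1 := by
        rw [← Complex.ofReal_natCast, Complex.norm_cpow_eq_rpow_re_of_pos hm']
        simp
      rw [h1, h2, mul_one]
  have hsumF : ∀ x : ℝ, HasSum (fun m => F m x)
      (gau L x * zprod (l.map Neg.neg) (1 / 2 + Y - I * (t + x))) := by
    intro x
    have hre : 1 < (1 / 2 + Y - I * (t + x) : ℂ).re := by
      simp
      linarith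
    rw [← LSeries_aco _ hre]
    have hs : LSeriesSummable c (1 / 2 + Y - I * (t + x)) := by
      refine Summable.of_norm_bounded (hsum) fun m => ?_
      by_cases hm : m = 0
      · simp [hm]
        positivity
      · rw [LSeries.norm_term_eq, if_neg hm]
        have : (1 / 2 + Y - I * (t + x) : ℂ).re = 1 / 2 + Y := by simp
        rw [this, Real.rpow_neg (by positivity), div_eq_mul_inv]
    have h1 := hs.hasSum.mul_left (gau L x)
    rw [LSeries]
    have h2 : (fun m => F m x) = fun i => gau L ↑x * LSeries.term c (1 / 2 + ↑Y - I * (↑t + ↑x)) i := by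
      ext m
      by_cases hm : m = 0
      · simp [hF, hm]
      · simp only [hF, if_neg hm]
        rw [LSeries.term_of_ne_zero hm]
        have hm' : (m : ℂ) ≠ 0 := by exact_mod_cast hm
        rw [← Complex.cpow_add _ _ hm', div_eq_mul_inv (c m), ← Complex.cpow_neg]
        congr 3
        ring
    rw [h2]
    exact h1
  -- interchange
  have hsI : Summable fun m => ∫ x in (-R)..R, ‖F m x‖ := by
    refine Summable.of_nonneg_of_le (fun m => ?_) (fun m => ?_) hsum
    · exact intervalIntegral.integral_nonneg (by linarith) fun x _ => norm_nonneg _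
    · calc ∫ x in (-R)..R, ‖F m x‖ ≤
          ∫ x in (-R)..R, ‖gau L x‖ * (‖c m‖ * (m : ℝ) ^ (-(1 / 2 + Y))) := by
            refine intervalIntegral.integral_mono_on (by linarith)
              ((hFc m).norm.intervalIntegrable _ _) ?_ fun x _ => hnorm m x
            exact ((((continuous_gau L).comp Complex.continuous_ofReal).norm).mul
              continuous_const).intervalIntegrable _ _
        _ = (∫ x in (-R)..R, ‖gau L x‖) * (‖c m‖ * (m : ℝ) ^ (-(1 / 2 + Y))) := by
            rw [intervalIntegral.integral_mul_const]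
        _ ≤ 1 * (‖c m‖ * (m : ℝ) ^ (-(1 / 2 + Y))) := by
            gcongr
            exact integral_norm_gau_le hL hR
        _ = _ := by rw [one_mul]
  have key : ∑' m, ∫ x in (-R)..R, F m x =
      ∫ x in (-R)..R, gau L x * zprod (l.map Neg.neg) (1 / 2 + Y - I * (t + x)) := by
    simp only [intervalIntegral.integral_of_le (by linarith : -R ≤ R)]
    rw [integral_tsum_of_summable_integral_norm]
    · refine integral_congr_ae (Eventually.of_forall fun x => ?_)
      exact (hsumF x).tsum_eq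
    · intro m
      exact ((hFc m).integrableOn_Icc).mono_set Ioc_subset_Icc_self
    · simpa only [intervalIntegral.integral_of_le (by linarith : -R ≤ R)] using hsI
  rw [← key]
  refine tsum_congr fun m => ?_
  by_cases hm : m = 0
  · have h0 : (-(1 / 2 + Y : ℂ)) ≠ 0 := by
      intro h
      have := congrArg Complex.re h
      simp at this
      linarith
    simp only [hF, hm, if_true, intervalIntegral.integral_zero]
    unfold cmu
    rw [Nat.cast_zero, Complex.zero_cpow h0]
    ring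
  · have hm' : (m : ℂ) ≠ 0 := by exact_mod_cast hm
    simp only [hF, if_neg hm]
    unfold cmu
    rw [← hc]
    have : ∀ x : ℝ, gau L x * (c m * ((m : ℂ) ^ (-(1 / 2 + Y : ℂ)) * (m : ℂ) ^ (I * (t + x)))) =
        (c m * (m : ℂ) ^ (-(1 / 2 + Y : ℂ)) * (m : ℂ) ^ (I * t)) * (gau L x * (m : ℂ) ^ (I * x)) := by
      intro x
      rw [mul_add, Complex.cpow_add _ _ hm']
      ring
    simp only [this]
    rw [intervalIntegral.integral_const_mul]
    ring

lemma norm_natCast_cpow (m : ℕ) (s : ℝ) : ‖(m : ℂ) ^ (s : ℂ)‖ = (m : ℝ) ^ s := by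
  rcases Nat.eq_zero_or_pos m with rfl | hm
  · by_cases hs : s = 0
    · simp [hs]
    · rw [Nat.cast_zero, Complex.zero_cpow (by exact_mod_cast hs), Nat.cast_zero,
        Real.zero_rpow hs, norm_zero]
  · rw [← Complex.ofReal_natCast, Complex.norm_cpow_eq_rpow_re_of_pos (by exact_mod_cast hm)]
    simp

theorem norm_cmu_le (l : List ℝ) {R Y L : ℝ} (hR : 0 ≤ R) (hL : 0 < L) (m : ℕ) :
    ‖cmu l R Y L m‖ ≤ ‖aco (l.map Neg.neg) m‖ * (m : ℝ) ^ (-(1 / 2 + Y)) := by
  unfold cmu
  rw [norm_mul, norm_mul]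
  have h1 : ‖(m : ℂ) ^ (-(1 / 2 + Y : ℂ))‖ = (m : ℝ) ^ (-(1 / 2 + Y)) := by
    have := norm_natCast_cpow m (-(1 / 2 + Y))
    push_cast at this
    exact this
  rw [h1]
  have h2 : ‖∫ x in (-R)..R, gau L x * (m : ℂ) ^ (I * x)‖ ≤ 1 := by
    refine (intervalIntegral.norm_integral_le_integral_norm (by linarith)).trans ?_
    refine le_trans ?_ (integral_norm_gau_le hL hR)
    have hle : ∀ x : ℝ, ‖gau L x * (m : ℂ) ^ (I * x)‖ ≤ ‖gau L x‖ := by
      intro x
      rw [norm_mul]
      have : ‖(m : ℂ) ^ (I * x)‖ ≤ 1 := by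
        rcases Nat.eq_zero_or_pos m with rfl | hm
        · by_cases hx : x = 0
          · simp [hx]
          · rw [Nat.cast_zero, Complex.zero_cpow (by simp [hx]), norm_zero]
            exact zero_le_one
        · rw [← Complex.ofReal_natCast, Complex.norm_cpow_eq_rpow_re_of_pos (by exact_mod_cast hm)]
          simp
      calc _ ≤ ‖gau L x‖ * 1 := by gcongr
        _ = _ := mul_one _
    rw [intervalIntegral.integral_of_le (by linarith), intervalIntegral.integral_of_le (by linarith)]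
    refine integral_mono_of_nonneg (Eventually.of_forall fun x => norm_nonneg _) ?_
      (Eventually.of_forall hle)
    exact (((continuous_gau L).comp Complex.continuous_ofReal).norm.integrableOn_Icc).mono_set
      Ioc_subset_Icc_self
  calc _ ≤ ‖aco (l.map Neg.neg) m‖ * (m : ℝ) ^ (-(1 / 2 + Y)) * 1 := by gcongr
    _ = _ := mul_one _

lemma tail_gauR {L R : ℝ} (hL : 0 < L) (hR : 0 < R) :
    ∫ x in Ioi R, Real.sqrt (L / (2 * Real.pi)) * Real.exp (-(L / 2) * x ^ 2) ≤
      Real.sqrt (L / (2 * Real.pi)) / (R * L) := by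
  have hb : 0 < L / 2 := by positivity
  have h0 : ∫ x in Ioi (0:ℝ), x * Real.exp (-(L / 2) * x ^ 2) = 1 / L := by
    have h := integral_mul_cexp_neg_mul_sq (b := ((L / 2 : ℝ) : ℂ)) (by simpa using hb)
    have h' : ∫ r : ℝ in Ioi 0, (r : ℂ) * cexp (-((L / 2 : ℝ) : ℂ) * (r : ℂ) ^ 2) =
        ((∫ x in Ioi (0:ℝ), x * Real.exp (-(L / 2) * x ^ 2) : ℝ) : ℂ) := by
      rw [← integral_complex_ofReal]
      congr 1
      ext x
      push_cast
      rfl
    rw [h'] at h
    have h2 : ((∫ x in Ioi (0:ℝ), x * Real.exp (-(L / 2) * x ^ 2) : ℝ) : ℂ) = ((1 / L : ℝ) : ℂ) := by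
      rw [h]
      push_cast
      rw [one_div]
      congr 1
      ring
    exact_mod_cast h2
  have hi : Integrable (fun x : ℝ => x * Real.exp (-(L / 2) * x ^ 2)) :=
    integrable_mul_exp_neg_mul_sq hb
  rw [integral_const_mul]
  have h1 : ∫ x in Ioi R, Real.exp (-(L / 2) * x ^ 2) ≤ R⁻¹ * (1 / L) := by
    calc _ ≤ ∫ x in Ioi R, R⁻¹ * (x * Real.exp (-(L / 2) * x ^ 2)) := by
          refine setIntegral_mono_on (integrable_exp_neg_mul_sq hb).integrableOn
            (hi.const_mul _).integrableOn measurableSet_Ioi fun x hx => ?_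
          have hx' : R < x := hx
          have : 1 ≤ R⁻¹ * x := by
            rw [inv_mul_eq_div, one_le_div hR]
            exact hx'.le
          calc Real.exp (-(L / 2) * x ^ 2) = 1 * Real.exp (-(L / 2) * x ^ 2) := by rw [one_mul]
            _ ≤ (R⁻¹ * x) * Real.exp (-(L / 2) * x ^ 2) := by gcongr
            _ = _ := by ring
      _ = R⁻¹ * ∫ x in Ioi R, x * Real.exp (-(L / 2) * x ^ 2) := by rw [integral_const_mul]
      _ ≤ R⁻¹ * ∫ x in Ioi (0:ℝ), x * Real.exp (-(L / 2) * x ^ 2) := by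
          have h5 : 0 ≤ᵐ[volume.restrict (Ioi (0:ℝ))] fun x => x * Real.exp (-(L / 2) * x ^ 2) := by
            filter_upwards [ae_restrict_mem measurableSet_Ioi] with x hx
            have : (0:ℝ) < x := hx
            show 0 ≤ _
            positivity
          have h6 := setIntegral_mono_set hi.integrableOn h5
            (Filter.Eventually.of_forall (Ioi_subset_Ioi hR.le))
          exact mul_le_mul_of_nonneg_left h6 (by positivity)
      _ = _ := by rw [h0]
  calc _ ≤ Real.sqrt (L / (2 * Real.pi)) * (R⁻¹ * (1 / L)) := by gcongr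
    _ = _ := by
      field_simp

theorem cmu_one (l : List ℝ) {R Y L : ℝ} (hL : 0 < L) (hR : 0 ≤ R) (h : 4 ≤ L * R ^ 2) :
    1 / 2 ≤ ‖cmu l R Y L 1‖ := by
  have hR' : 0 < R := by
    rcases hR.lt_or_eq with h' | h'
    · exact h'
    · rw [← h'] at h; norm_num at h
  set g : ℝ → ℝ := fun x => Real.sqrt (L / (2 * Real.pi)) * Real.exp (-(L / 2) * x ^ 2) with hg
  have hgi : Integrable g := integrable_gauR hL
  have h1 : cmu l R Y L 1 = ((∫ x in (-R)..R, g x : ℝ) : ℂ) := by
    unfold cmu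
    rw [aco_one, Nat.cast_one, Complex.one_cpow, one_mul, one_mul, ← intervalIntegral.integral_ofReal]
    congr 1
    ext x
    rw [Complex.one_cpow, mul_one, gau_real]
  rw [h1, Complex.norm_real, Real.norm_eq_abs]
  refine le_trans ?_ (le_abs_self _)
  have h2 : (∫ x in Iic (-R), g x) = ∫ x in Ioi R, g x := by
    rw [← integral_comp_neg_Ioi]
    congr 1
    ext x
    simp [hg]
  have h3 : (∫ x in (-R)..R, g x) + ∫ x in Ioi R, g x = ∫ x in Ioi (-R), g x :=
    intervalIntegral.integral_interval_add_Ioi hgi.integrableOn hgi.integrableOn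
  have h4 : (∫ x in Iic (-R), g x) + ∫ x in Ioi (-R), g x = ∫ x, g x :=
    intervalIntegral.integral_Iic_add_Ioi hgi.integrableOn hgi.integrableOn
  have h5 : ∫ x, g x = 1 := integral_gauR hL
  have h6 := tail_gauR hL hR'
  have h7 : Real.sqrt (L / (2 * Real.pi)) / (R * L) ≤ 1 / 4 := by
    rw [div_le_iff₀ (by positivity)]
    rw [Real.sqrt_le_left (by positivity)]
    rw [div_le_iff₀ (by positivity)]
    have := Real.pi_gt_three
    nlinarith [mul_pos hL hL, mul_pos (mul_pos hL hL) (mul_pos hR' hR')]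
  change ∫ x in Ioi R, g x ≤ _ at h6
  linarith

lemma aco_zero (l : List ℝ) : aco l 0 = 0 := by
  cases l with
  | nil => simp [aco, LSeries.delta]
  | cons a l => simp [aco, LSeries.convolution_map_zero]

/-- `∑_{m ≥ 2}` is small for large `Y` -/
theorem exists_tail_small (n : ℕ) (B : ℝ) {ε : ℝ} (hε : 0 < ε) :
    ∃ Y₀ : ℝ, 1 ≤ Y₀ ∧ ∀ Y : ℝ, Y₀ ≤ Y → ∀ l : List ℝ, l.length = n →
      Summable (fun m : ℕ => ‖aco (l.map Neg.neg) m‖ * (m : ℝ) ^ (B - Y)) ∧
      ∑' m : ℕ, (if 2 ≤ m then ‖aco (l.map Neg.neg) m‖ * (m : ℝ) ^ (B - Y) else 0) ≤ ε := by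
  have hS : Summable fun m : ℕ => (m : ℝ) ^ (-2 : ℝ) := Real.summable_nat_rpow.2 (by norm_num)
  set S := ∑' m : ℕ, (m : ℝ) ^ (-2 : ℝ) with hSdef
  have hS0 : 0 ≤ S := tsum_nonneg fun m => by positivity
  obtain ⟨K, hK⟩ := exists_pow_lt_of_lt_one (show 0 < ε / (S + 1) by positivity)
    (show (1 / 2 : ℝ) < 1 by norm_num)
  set Y₁ : ℝ := max 1 (n + B + 2) with hY₁
  have hY₁1 : 1 ≤ Y₁ := le_max_left _ _
  have hY₁2 : (n : ℝ) + B + 2 ≤ Y₁ := le_max_right _ _
  refine ⟨Y₁ + K, by linarith [Nat.cast_nonneg (α := ℝ) K], fun Y hY l hl => ?_⟩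
  have hK0 : (0 : ℝ) ≤ K := Nat.cast_nonneg K
  -- general term bound
  have hterm : ∀ m : ℕ, 1 ≤ m → ‖aco (l.map Neg.neg) m‖ * (m : ℝ) ^ (B - Y) ≤
      (m : ℝ) ^ (-(Y - Y₁)) * (m : ℝ) ^ (-2 : ℝ) := by
    intro m hm
    have hm' : (1 : ℝ) ≤ m := by exact_mod_cast hm
    have h1 := norm_aco_le (l.map Neg.neg) m
    rw [List.length_map, hl] at h1
    calc _ ≤ (m : ℝ) ^ n * (m : ℝ) ^ (B - Y) := by gcongr
      _ = (m : ℝ) ^ ((n : ℝ) + (B - Y)) := by
          rw [Real.rpow_add (by linarith), Real.rpow_natCast]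
      _ ≤ (m : ℝ) ^ (-(Y - Y₁) + (-2 : ℝ)) := by
          apply Real.rpow_le_rpow_of_exponent_le hm'
          linarith
      _ = _ := by rw [Real.rpow_add (by linarith)]
  have hsum : Summable (fun m : ℕ => ‖aco (l.map Neg.neg) m‖ * (m : ℝ) ^ (B - Y)) := by
    refine Summable.of_nonneg_of_le (fun m => by positivity) (fun m => ?_) hS
    rcases Nat.eq_zero_or_pos m with rfl | hm
    · rw [aco_zero, norm_zero, zero_mul]; positivity
    · refine (hterm m hm).trans ?_
      have hm' : (1 : ℝ) ≤ m := by exact_mod_cast hm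
      have : (m : ℝ) ^ (-(Y - Y₁)) ≤ 1 := Real.rpow_le_one_of_one_le_of_nonpos hm' (by linarith)
      calc _ ≤ 1 * (m : ℝ) ^ (-2 : ℝ) := by gcongr
        _ = _ := one_mul _
  refine ⟨hsum, ?_⟩
  have hsum2 : Summable fun m : ℕ =>
      (if 2 ≤ m then ‖aco (l.map Neg.neg) m‖ * (m : ℝ) ^ (B - Y) else 0) := by
    refine Summable.of_nonneg_of_le (fun m => ?_) (fun m => ?_) hsum
    · split_ifs <;> positivity
    · split_ifs
      · exact le_rfl
      · positivity
  calc _ ≤ ∑' m : ℕ, (1 / 2 : ℝ) ^ K * (m : ℝ) ^ (-2 : ℝ) := by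
        refine hsum2.tsum_le_tsum (fun m => ?_) (hS.mul_left _)
        split_ifs with hm
        · refine (hterm m (by omega)).trans ?_
          have hm' : (2 : ℝ) ≤ m := by exact_mod_cast hm
          have : (m : ℝ) ^ (-(Y - Y₁)) ≤ (1 / 2 : ℝ) ^ K := by
            calc (m : ℝ) ^ (-(Y - Y₁)) ≤ (m : ℝ) ^ (-(K : ℝ)) := by
                  apply Real.rpow_le_rpow_of_exponent_le (by linarith)
                  linarith
              _ = ((m : ℝ) ^ K)⁻¹ := by rw [Real.rpow_neg (by positivity), Real.rpow_natCast]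
              _ ≤ ((2 : ℝ) ^ K)⁻¹ := by gcongr
              _ = _ := by rw [one_div, inv_pow]
          gcongr
        · positivity
    _ = (1 / 2 : ℝ) ^ K * S := by rw [tsum_mul_left]
    _ ≤ ε / (S + 1) * S := by gcongr
    _ ≤ ε := by
        rw [div_mul_eq_mul_div, div_le_iff₀ (by positivity)]
        nlinarith

end Pool.Agent.H26
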