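import Pool.Agent.H26.Lam

/-!
Analytic functions of moderate growth in the strip and difference operators.
-/

namespace Pool.Agent.H26

open Complex Set

/-- analytic functions of moderate growth on the strip -/
def PT (D B : ℝ) (P : ℂ → ℂ) : Prop :=
  DifferentiableOn ℂ P St ∧ ∀ z ∈ St, ‖P z‖ ≤ D * Real.exp (B * |z.re|)

lemma PT.nonneg {D B : ℝ} {P : ℂ → ℂ} (h : PT D B P) : 0 ≤ D := by
  have h0 := h.2 0 (by simp [St])
  simp only [zero_re, abs_zero, mul_zero, Real.exp_zero, mul_one] at h0
  exact (norm_nonneg _).trans h0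

lemma PT.mono {D D' B B' : ℝ} {P : ℂ → ℂ} (h : PT D B P) (hD : D ≤ D') (hB : B ≤ B') :
    PT D' B' P := by
  refine ⟨h.1, fun z hz => (h.2 z hz).trans ?_⟩
  have := h.nonneg
  gcongr
  linarith

lemma PT.add {D₁ D₂ B : ℝ} {P₁ P₂ : ℂ → ℂ} (h₁ : PT D₁ B P₁) (h₂ : PT D₂ B P₂) :
    PT (D₁ + D₂) B (fun z => P₁ z + P₂ z) := by
  refine ⟨h₁.1.add h₂.1, fun z hz => (norm_add_le _ _).trans ?_⟩
  rw [add_mul]
  exact add_le_add (h₁.2 z hz) (h₂.2 z hz)

lemma PT.neg {D B : ℝ} {P : ℂ → ℂ} (h : PT D B P) : PT D B (fun z => - P z) :=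
  ⟨h.1.neg, fun z hz => by rw [norm_neg]; exact h.2 z hz⟩

lemma PT.sub {D₁ D₂ B : ℝ} {P₁ P₂ : ℂ → ℂ} (h₁ : PT D₁ B P₁) (h₂ : PT D₂ B P₂) :
    PT (D₁ + D₂) B (fun z => P₁ z - P₂ z) := by
  have := h₁.add h₂.neg
  simpa [sub_eq_add_neg] using this

lemma PT.const_mul {D B : ℝ} {P : ℂ → ℂ} (h : PT D B P) (c : ℂ) :
    PT (‖c‖ * D) B (fun z => c * P z) := by
  refine ⟨h.1.const_mul c, fun z hz => ?_⟩
  rw [norm_mul, mul_assoc]
  exact mul_le_mul_of_nonneg_left (h.2 z hz) (norm_nonneg _)

/-- the difference operator -/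
noncomputable def dd (η : ℝ) (F : ℂ → ℂ) : ℂ → ℂ := fun z => F (z + η) - F z

lemma dd_add (η : ℝ) (F G : ℂ → ℂ) : dd η (F + G) = dd η F + dd η G := by
  funext z
  simp only [dd, Pi.add_apply]
  ring

lemma dd_iter_add (η : ℝ) (m : ℕ) (F G : ℂ → ℂ) :
    (dd η)^[m] (F + G) = (dd η)^[m] F + (dd η)^[m] G := by
  induction m generalizing F G with
  | zero => rfl
  | succ m ih => rw [Function.iterate_succ_apply, Function.iterate_succ_apply,
      Function.iterate_succ_apply, dd_add, ih]

/-- the value of an iterated difference at `z` only depends on the values on `z + [0, mη]` -/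
lemma dd_iter_congr {η : ℝ} {m : ℕ} {F G : ℂ → ℂ} {z : ℂ}
    (h : ∀ j : ℕ, j ≤ m → F (z + j * η) = G (z + j * η)) : (dd η)^[m] F z = (dd η)^[m] G z := by
  induction m generalizing F G with
  | zero => simpa using h 0 le_rfl
  | succ m ih =>
    rw [Function.iterate_succ_apply, Function.iterate_succ_apply]
    refine ih fun j hj => ?_
    simp only [dd]
    have h1 := h j (by omega)
    have h2 := h (j + 1) (by omega)
    push_cast at h2
    rw [h1]
    have e : z + (j:ℂ) * η + η = z + ((j:ℂ) + 1) * η := by ring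
    rw [e, h2]

lemma norm_dd_iter_le {η : ℝ} {m : ℕ} {F : ℂ → ℂ} {z : ℂ} {M : ℝ}
    (h : ∀ j : ℕ, j ≤ m → ‖F (z + j * η)‖ ≤ M) : ‖(dd η)^[m] F z‖ ≤ 2 ^ m * M := by
  induction m generalizing F M with
  | zero => simpa using h 0 le_rfl
  | succ m ih =>
    rw [Function.iterate_succ_apply, pow_succ, mul_assoc]
    refine ih fun j hj => ?_
    simp only [dd]
    have h1 := h j (by omega)
    have h2 := h (j + 1) (by omega)
    push_cast at h2
    have e : z + (j:ℂ) * η + η = z + ((j:ℂ) + 1) * η := by ring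
    rw [e]
    refine (norm_sub_le _ _).trans ?_
    linarith

/-- iterated differences are sums of translates -/
lemma dd_iter_eq_sum (η : ℝ) (m : ℕ) (F : ℂ → ℂ) (z : ℂ) :
    (dd η)^[m] F z = ∑ j ∈ Finset.range (m + 1), (-1 : ℂ) ^ (m - j) * (m.choose j) *
      F (z + j * η) := by
  have h : dd η = fwdDiff (η : ℂ) := rfl
  rw [h, fwdDiff_iter_eq_sum_shift]
  refine Finset.sum_congr rfl fun j _ => ?_
  rw [zsmul_eq_mul, nsmul_eq_mul]
  push_cast
  rfl

lemma continuous_dd_iter {η : ℝ} {m : ℕ} {F : ℂ → ℂ} {p : ℝ → ℂ}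
    (h : ∀ j : ℕ, j ≤ m → Continuous fun x : ℝ => F (p x + j * η)) :
    Continuous fun x : ℝ => (dd η)^[m] F (p x) := by
  simp only [dd_iter_eq_sum]
  refine continuous_finsetSum _ fun j hj => ?_
  exact continuous_const.mul (h j (by rw [Finset.mem_range] at hj; omega))

/-- Differences of analytic functions of moderate growth are small. -/
theorem exists_dd_iter_le (m : ℕ) {B : ℝ} (hB : 0 ≤ B) :
    ∃ C : ℝ, 0 < C ∧ ∀ (D η : ℝ) (P : ℂ → ℂ), PT D B P → 0 < η → η ≤ 1 →
      ∀ z : ℂ, |z.im| ≤ 1 / 4 → ‖(dd η)^[m] P z‖ ≤ C * D * η ^ m * Real.exp (B * |z.re|) := by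
  set ρ : ℝ := 1 / (4 * (m + 1)) with hρ
  have hρ0 : 0 < ρ := by positivity
  have hρ1 : ρ ≤ 1 := by
    rw [hρ, div_le_one (by positivity)]
    have : (0:ℝ) ≤ m := Nat.cast_nonneg m
    linarith
  have hmρ : m * ρ < 1 / 4 := by
    rw [hρ, mul_one_div, div_lt_div_iff₀ (by positivity) (by norm_num)]
    linarith
  set K : ℝ := Real.exp (B * 2) / ρ with hK
  have hK0 : 0 < K := by positivity
  refine ⟨K ^ m, by positivity, ?_⟩
  intro D η P hP hη0 hη1
  have hD := hP.nonneg
  have key : ∀ j : ℕ, j ≤ m → DifferentiableOn ℂ ((dd η)^[j] P) St ∧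
      ∀ z : ℂ, |z.im| < 1 / 2 - j * ρ →
        ‖(dd η)^[j] P z‖ ≤ K ^ j * D * η ^ j * Real.exp (B * |z.re|) := by
    intro j
    induction j with
    | zero =>
      intro _
      refine ⟨hP.1, fun z hz => ?_⟩
      have := hP.2 z (by simpa [St] using hz)
      simpa using this
    | succ j ih =>
      intro hj
      obtain ⟨hd, hb⟩ := ih (by omega)
      set G := (dd η)^[j] P with hG
      have hstep : (dd η)^[j + 1] P = dd η G := by
        rw [Function.iterate_succ_apply']
      rw [hstep]
      have hj0 : (0:ℝ) ≤ j := Nat.cast_nonneg j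
      refine ⟨?_, ?_⟩
      · refine DifferentiableOn.sub ?_ hd
        refine hd.comp (by fun_prop) ?_
        intro z hz
        simp only [St, Set.mem_ofPred_eq, add_im, ofReal_im, add_zero] at hz ⊢
        exact hz
      · intro z hz
        push_cast at hz
        set s : Set ℂ := {w | |w.im| < 1 / 2 - (j + 1) * ρ ∧ |w.re| ≤ |z.re| + 1} with hs
        have hconv : Convex ℝ s := by
          have h1 : s = (Complex.im ⁻¹' Metric.ball 0 (1 / 2 - (j + 1) * ρ)) ∩
              (Complex.re ⁻¹' Metric.closedBall 0 (|z.re| + 1)) := by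
            ext w
            simp [hs]
          rw [h1]
          refine Convex.inter ?_ ?_
          · exact (convex_ball _ _).linear_preimage Complex.imLm
          · exact (convex_closedBall _ _).linear_preimage Complex.reLm
        have hzs : z ∈ s := ⟨hz, by linarith⟩
        have hzs' : z + η ∈ s := by
          refine ⟨by simpa using hz, ?_⟩
          simp only [add_re, ofReal_re]
          calc |z.re + η| ≤ |z.re| + |η| := abs_add_le _ _
            _ ≤ _ := by rw [abs_of_pos hη0]; linarith
        have hsub : ∀ w ∈ s, Metric.closedBall w ρ ⊆ {w : ℂ | |w.im| < 1 / 2 - j * ρ} := by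
          intro w hw u hu
          have h1 : |u.im - w.im| ≤ ρ := by
            have := Complex.abs_im_le_norm (u - w)
            rw [Complex.sub_im] at this
            exact this.trans (by rw [← dist_eq_norm]; exact hu)
          have h2 : |u.im| ≤ |w.im| + |u.im - w.im| := by
            calc |u.im| = |w.im + (u.im - w.im)| := by ring_nf
              _ ≤ _ := abs_add_le _ _
          simp only [Set.mem_ofPred_eq]
          have := hw.1
          nlinarith
        have hSt : {w : ℂ | |w.im| < 1 / 2 - j * ρ} ⊆ St := by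
          intro w hw
          simp only [Set.mem_ofPred_eq, St] at hw ⊢
          nlinarith
        have hder : ∀ w ∈ s, ‖deriv G w‖ ≤
            K ^ j * D * η ^ j * Real.exp (B * (|z.re| + 2)) / ρ := by
          intro w hw
          refine Complex.norm_deriv_le_of_forall_mem_sphere_norm_le hρ0 ?_ ?_
          · exact DifferentiableOn.diffContOnCl_ball hd ((hsub w hw).trans hSt)
          · intro u hu
            refine (hb u (hsub w hw (Metric.sphere_subset_closedBall hu))).trans ?_
            have h1 : |u.re - w.re| ≤ ρ := by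
              have := Complex.abs_re_le_norm (u - w)
              rw [Complex.sub_re] at this
              exact this.trans (by rw [← dist_eq_norm]; exact le_of_eq hu)
            have h2 : |u.re| ≤ |w.re| + |u.re - w.re| := by
              calc |u.re| = |w.re + (u.re - w.re)| := by ring_nf
                _ ≤ _ := abs_add_le _ _
            have h3 := hw.2
            gcongr
            linarith
        have hdiff : ∀ w ∈ s, DifferentiableAt ℂ G w := by
          intro w hw
          refine hd.differentiableAt (isOpen_St.mem_nhds (hSt (hsub w hw ?_)))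
          exact Metric.mem_closedBall_self hρ0.le
        have := hconv.norm_image_sub_le_of_norm_deriv_le hdiff hder hzs hzs'
        simp only [dd]
        refine this.trans (le_of_eq ?_)
        rw [add_sub_cancel_left, Complex.norm_real, Real.norm_eq_abs, abs_of_pos hη0, hK,
          mul_add, Real.exp_add]
        ring
  intro z hz
  refine (key m le_rfl).2 z ?_
  linarith

end Pool.Agent.H26
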