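import Mathlib

/-!
Holomorphy of parametric integrals with an integrable majorant.
-/

namespace Pool.Agent.H26

open MeasureTheory Set Filter Topology

/-- A parametric integral with a majorant which is uniform in the parameter is holomorphic. -/
lemma differentiableOn_integral_of_majorant {α : Type*} [MeasurableSpace α] {μ : Measure α}
    {Φ : ℂ → α → ℂ} {U : Set ℂ} (hU : IsOpen U)
    (hm : ∀ z ∈ U, AEStronglyMeasurable (Φ z) μ)
    (hd : ∀ᵐ t ∂μ, DifferentiableOn ℂ (fun z => Φ z t) U)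
    {bound : α → ℝ} (hb : ∀ᵐ t ∂μ, ∀ z ∈ U, ‖Φ z t‖ ≤ bound t) (hbi : Integrable bound μ) :
    DifferentiableOn ℂ (fun z => ∫ t, Φ z t ∂μ) U := by
  intro x₀ hx₀
  obtain ⟨ε', hε', hball'⟩ := Metric.isOpen_iff.1 hU x₀ hx₀
  set ε : ℝ := ε' / 4 with hε
  have hε0 : 0 < ε := by positivity
  have hball : Metric.closedBall x₀ (2 * ε) ⊆ U :=
    (Metric.closedBall_subset_ball (by rw [hε]; linarith)).trans hball'
  have hh : ∀ n : ℕ, (0:ℝ) < ε / (n + 1) := fun n => by positivity
  have hhmem : ∀ n : ℕ, x₀ + ((ε / (n + 1) : ℝ) : ℂ) ∈ U := by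
    intro n
    apply hball
    rw [Metric.mem_closedBall, dist_eq_norm, add_sub_cancel_left, Complex.norm_real,
      Real.norm_eq_abs, abs_of_pos (hh n)]
    have : ε / (n + 1) ≤ ε := div_le_self hε0.le (by linarith [Nat.cast_nonneg (α := ℝ) n])
    linarith
  have hlim : Tendsto (fun n : ℕ => ((ε / (n + 1) : ℝ) : ℂ)) atTop (𝓝[≠] 0) := by
    refine tendsto_nhdsWithin_of_tendsto_nhds_of_eventually_within _ ?_ ?_
    · have h1 : Tendsto (fun n : ℕ => ε / ((n : ℝ) + 1)) atTop (𝓝 0) :=
        tendsto_const_div_atTop_nhds_zero_nat ε |>.comp (tendsto_add_atTop_nat 1) |>.congr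
          fun n => by simp
      have := (Complex.continuous_ofReal.tendsto 0).comp h1
      rw [Complex.ofReal_zero] at this
      exact this
    · refine Eventually.of_forall fun n => ?_
      simp only [mem_compl_iff, mem_singleton_iff, Complex.ofReal_eq_zero]
      exact (hh n).ne'
  have hmeas : AEStronglyMeasurable (fun t => deriv (fun z => Φ z t) x₀) μ := by
    refine aestronglyMeasurable_of_tendsto_ae atTop
      (f := fun (n : ℕ) t => (((ε / (n + 1) : ℝ) : ℂ))⁻¹ •
        (Φ (x₀ + ((ε / (n + 1) : ℝ) : ℂ)) t - Φ x₀ t)) ?_ ?_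
    · intro n
      exact ((hm _ (hhmem n)).sub (hm _ hx₀)).const_smul ((((ε / (n + 1) : ℝ) : ℂ))⁻¹)
    · filter_upwards [hd] with t ht
      have h1 : HasDerivAt (fun z => Φ z t) (deriv (fun z => Φ z t) x₀) x₀ :=
        (ht.differentiableAt (hU.mem_nhds hx₀)).hasDerivAt
      exact (hasDerivAt_iff_tendsto_slope_zero.1 h1).comp hlim
  have key := hasDerivAt_integral_of_dominated_loc_of_deriv_le
    (μ := μ) (F := Φ) (F' := fun x t => deriv (fun z => Φ z t) x) (x₀ := x₀)
    (s := Metric.ball x₀ ε) (bound := fun t => bound t / ε)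
    (Metric.ball_mem_nhds _ hε0) ?_ ?_ hmeas ?_ ?_ ?_
  · exact key.2.differentiableAt.differentiableWithinAt
  · filter_upwards [hU.mem_nhds hx₀] with x hx
    exact hm x hx
  · refine Integrable.mono' hbi (hm x₀ hx₀) ?_
    filter_upwards [hb] with t ht
    exact ht x₀ hx₀
  · filter_upwards [hd, hb] with t ht htb x hx
    have hx' : dist x x₀ < ε := hx
    refine Complex.norm_deriv_le_of_forall_mem_sphere_norm_le hε0 ?_ ?_
    · refine DifferentiableOn.diffContOnCl_ball ht ?_
      refine (Metric.closedBall_subset_closedBall' ?_).trans hball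
      linarith
    · intro z hz
      refine htb z (hball ?_)
      have hz' : dist z x = ε := hz
      simp only [Metric.mem_closedBall]
      linarith [dist_triangle z x x₀]
  · exact hbi.div_const ε
  · filter_upwards [hd] with t ht x hx
    have hxU : x ∈ U := hball ((Metric.ball_subset_closedBall.trans
      (Metric.closedBall_subset_closedBall (by linarith))) hx)
    exact (ht.differentiableAt (hU.mem_nhds hxU)).hasDerivAt

/-- Local version: near every point there is a majorant. -/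
lemma differentiableOn_integral_of_locally_majorant {α : Type*} [MeasurableSpace α]
    {μ : Measure α} {Φ : ℂ → α → ℂ} {U : Set ℂ} (hU : IsOpen U)
    (hm : ∀ z ∈ U, AEStronglyMeasurable (Φ z) μ)
    (hd : ∀ᵐ t ∂μ, DifferentiableOn ℂ (fun z => Φ z t) U)
    (hb : ∀ z₀ ∈ U, ∃ V ∈ 𝓝 z₀, ∃ bound : α → ℝ, Integrable bound μ ∧
      ∀ᵐ t ∂μ, ∀ z ∈ V, ‖Φ z t‖ ≤ bound t) :
    DifferentiableOn ℂ (fun z => ∫ t, Φ z t ∂μ) U := by
  intro z₀ hz₀
  obtain ⟨V, hV, bound, hbi, hb⟩ := hb z₀ hz₀
  obtain ⟨W, hWV, hWo, hzW⟩ := mem_nhds_iff.1 (inter_mem hV (hU.mem_nhds hz₀))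
  have := differentiableOn_integral_of_majorant (μ := μ) (Φ := Φ) hWo
    (fun z hz => hm z (hWV hz).2) (hd.mono fun t ht => ht.mono fun z hz => (hWV hz).2)
    (bound := bound) (hb.mono fun t ht z hz => ht z (hWV hz).1) hbi
  exact (this.differentiableAt (hWo.mem_nhds hzW)).differentiableWithinAt

end Pool.Agent.H26
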