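import Mathlib

/-!
Polynomials against exponentials.
-/

namespace Pool.Agent.H26

open MeasureTheory Set Filter Topology Real

lemma exists_poly_le_exp (p : ℝ) {c : ℝ} (hc : 0 < c) :
    ∃ K : ℝ, 0 < K ∧ ∀ x : ℝ, 0 ≤ x → (1 + x) ^ p ≤ K * exp (c * x) := by
  set q : ℝ := max p 0 + 1 with hq
  have hq0 : 0 < q := by positivity
  have hpq : p ≤ q := by rw [hq]; linarith [le_max_left p 0]
  set δ : ℝ := min 1 (c / q) with hδ
  have hδ0 : 0 < δ := lt_min one_pos (by positivity)
  refine ⟨δ⁻¹ ^ q, by positivity, fun x hx => ?_⟩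
  have h1 : 1 + x ≤ δ⁻¹ * exp (δ * x) := by
    have h2 := Real.add_one_le_exp (δ * x)
    have h3 : δ * (1 + x) ≤ exp (δ * x) := by
      have : δ ≤ 1 := min_le_left _ _
      nlinarith
    calc 1 + x = δ⁻¹ * (δ * (1 + x)) := by field_simp
      _ ≤ _ := by gcongr
  calc (1 + x) ^ p ≤ (1 + x) ^ q := Real.rpow_le_rpow_of_exponent_le (by linarith) hpq
    _ ≤ (δ⁻¹ * exp (δ * x)) ^ q := by gcongr
    _ = δ⁻¹ ^ q * exp (q * δ * x) := by
        rw [Real.mul_rpow (by positivity) (exp_pos _).le, ← Real.exp_mul]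
        congr 2
        ring
    _ ≤ δ⁻¹ ^ q * exp (c * x) := by
        gcongr
        have : δ ≤ c / q := min_le_right _ _
        calc q * δ ≤ q * (c / q) := by gcongr
          _ = c := by field_simp

lemma integrable_exp_neg_mul_abs {c : ℝ} (hc : 0 < c) :
    Integrable (fun v : ℝ => exp (-(c * |v|))) := by
  rw [← integrableOn_univ, ← Iic_union_Ioi (a := (0:ℝ))]
  refine IntegrableOn.union ?_ ?_
  · refine (integrableOn_exp_mul_Iic hc 0).congr_fun ?_ measurableSet_Iic
    intro v hv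
    simp only
    rw [abs_of_nonpos hv]
    congr 1
    ring
  · refine (exp_neg_integrableOn_Ioi 0 hc).congr_fun ?_ measurableSet_Ioi
    intro v hv
    simp only
    rw [abs_of_pos hv]
    congr 1
    ring

lemma integral_exp_neg_mul_abs {c : ℝ} (hc : 0 < c) :
    ∫ v : ℝ, exp (-(c * |v|)) = 2 / c := by
  have h := integral_comp_abs (f := fun v => exp (-(c * v)))
  rw [h]
  have := integral_exp_mul_Ioi (a := -c) (by linarith) 0
  simp only [neg_mul] at this
  rw [this]
  simp
  ring

lemma continuous_poly_exp (p c : ℝ) :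
    Continuous fun v : ℝ => (1 + |v|) ^ p * exp (-(c * |v|)) := by
  refine Continuous.mul ?_ (by fun_prop)
  refine Continuous.rpow_const (by fun_prop) fun y => Or.inl ?_
  positivity

lemma integrable_poly_exp (p : ℝ) {c : ℝ} (hc : 0 < c) :
    Integrable (fun v : ℝ => (1 + |v|) ^ p * exp (-(c * |v|))) := by
  obtain ⟨K, hK0, hK⟩ := exists_poly_le_exp p (half_pos hc)
  refine Integrable.mono' ((integrable_exp_neg_mul_abs (half_pos hc)).const_mul K)
    (continuous_poly_exp p c).aestronglyMeasurable ?_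
  filter_upwards with v
  rw [Real.norm_of_nonneg (by positivity)]
  calc _ ≤ K * exp (c / 2 * |v|) * exp (-(c * |v|)) := by
        gcongr
        exact hK _ (abs_nonneg _)
    _ = _ := by
        rw [mul_assoc, ← Real.exp_add]
        congr 2
        ring

lemma tendsto_exp_neg_mul_abs {c : ℝ} (hc : 0 < c) {l : Filter ℝ}
    (hl : Tendsto (fun v : ℝ => |v|) l atTop) :
    Tendsto (fun v : ℝ => exp (-(c * |v|))) l (𝓝 0) :=
  Real.tendsto_exp_neg_atTop_nhds_zero.comp (hl.const_mul_atTop hc)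

lemma tendsto_poly_exp (p : ℝ) {c : ℝ} (hc : 0 < c) {l : Filter ℝ}
    (hl : Tendsto (fun v : ℝ => |v|) l atTop) :
    Tendsto (fun v : ℝ => (1 + |v|) ^ p * exp (-(c * |v|))) l (𝓝 0) := by
  obtain ⟨K, hK0, hK⟩ := exists_poly_le_exp p (half_pos hc)
  have h1 : Tendsto (fun v : ℝ => K * exp (-(c / 2 * |v|))) l (𝓝 0) := by
    simpa using (tendsto_exp_neg_mul_abs (half_pos hc) hl).const_mul K
  refine squeeze_zero (fun v => by positivity) (fun v => ?_) h1
  calc _ ≤ K * exp (c / 2 * |v|) * exp (-(c * |v|)) := by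
        gcongr
        exact hK _ (abs_nonneg _)
    _ = _ := by
        rw [mul_assoc, ← Real.exp_add]
        congr 2
        ring

end Pool.Agent.H26
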