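import Pool.Agent.H26.Lam
import Pool.Agent.H26.DiffOp
import Pool.Agent.H26.Shift
import Pool.Agent.H26.HoloInt
import Pool.Agent.H26.PolyExp
import Pool.Agent.H95fa.QSector

/-!
The transform of a function which is bounded in the sector `-π/4 ≤ arg t ≤ 0`.
-/

namespace Pool.Agent.H26

open Complex MeasureTheory Set Filter Topology Pool.Agent.H95fa

lemma exp_image_univ : Real.exp '' (univ : Set ℝ) = Ioi 0 := by
  rw [image_univ, Real.range_exp]

lemma integral_Ioi_eq_integral_exp (g : ℝ → ℂ) :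
    ∫ t in Ioi (0:ℝ), g t = ∫ x : ℝ, g (Real.exp x) * cexp x := by
  rw [← exp_image_univ, integral_image_eq_integral_abs_deriv_smul MeasurableSet.univ
    (fun x _ => (Real.hasDerivAt_exp x).hasDerivWithinAt) (Real.exp_injective.injOn)]
  rw [setIntegral_univ]
  refine integral_congr_ae (Eventually.of_forall fun x => ?_)
  simp only
  rw [abs_of_pos (Real.exp_pos x), Complex.real_smul, mul_comm, Complex.ofReal_exp]

lemma integral_exp_mul_exp_neg {c : ℝ} (hc : 0 < c) :
    Integrable (fun x : ℝ => Real.exp x * Real.exp (-(c * Real.exp x))) ∧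
    ∫ x : ℝ, Real.exp x * Real.exp (-(c * Real.exp x)) = 1 / c := by
  have h1 : IntegrableOn (fun r : ℝ => Real.exp (-(c * r))) (Ioi 0) := by
    have := integrableOn_exp_mul_Ioi (a := -c) (by linarith) 0
    refine this.congr_fun (fun r _ => ?_) measurableSet_Ioi
    simp only
    ring_nf
  have h2 : ∫ r in Ioi (0:ℝ), Real.exp (-(c * r)) = 1 / c := by
    have := integral_exp_mul_Ioi (a := -c) (by linarith) 0
    rw [mul_zero, Real.exp_zero] at this
    have e : ∀ r : ℝ, Real.exp (-(c * r)) = Real.exp (-c * r) := fun r => by ring_nf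
    simp only [e]
    rw [this]
    field_simp
  rw [← exp_image_univ] at h1 h2
  rw [integrableOn_image_iff_integrableOn_abs_deriv_smul MeasurableSet.univ
    (fun x _ => (Real.hasDerivAt_exp x).hasDerivWithinAt) (Real.exp_injective.injOn)] at h1
  rw [integral_image_eq_integral_abs_deriv_smul MeasurableSet.univ
    (fun x _ => (Real.hasDerivAt_exp x).hasDerivWithinAt) (Real.exp_injective.injOn)] at h2
  rw [integrableOn_univ] at h1
  rw [setIntegral_univ] at h2
  simp only [abs_of_pos (Real.exp_pos _), smul_eq_mul] at h1 h2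
  exact ⟨h1, h2⟩

lemma tendsto_exp_mul_exp_neg {c : ℝ} (hc : 0 < c) :
    Tendsto (fun x : ℝ => Real.exp x * Real.exp (-(c * Real.exp x))) atTop (𝓝 0) ∧
    Tendsto (fun x : ℝ => Real.exp x * Real.exp (-(c * Real.exp x))) atBot (𝓝 0) := by
  constructor
  · have h1 : Tendsto (fun y : ℝ => y * Real.exp (-(c * y))) atTop (𝓝 0) := by
      have h := Real.tendsto_pow_mul_exp_neg_atTop_nhds_zero 1
      have h2 : Tendsto (fun y : ℝ => c * y) atTop atTop := tendsto_id.const_mul_atTop hc
      have h3 := (h.comp h2).const_mul (1 / c)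
      rw [mul_zero] at h3
      refine h3.congr fun y => ?_
      simp only [Function.comp_apply, pow_one]
      field_simp
    exact h1.comp Real.tendsto_exp_atTop
  · have h1 : Tendsto Real.exp atBot (𝓝 0) := Real.tendsto_exp_atBot
    refine squeeze_zero (fun x => by positivity) (fun x => ?_) h1
    calc Real.exp x * Real.exp (-(c * Real.exp x)) ≤ Real.exp x * 1 := by
          gcongr
          rw [Real.exp_le_one_iff]
          have := Real.exp_pos x
          nlinarith
      _ = _ := mul_one _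

lemma Sec_subset_Reg {t : ℂ} (ht : t ∈ Sec) : t ∈ Reg :=
  ⟨by linarith [ht.1], by linarith [ht.2.2]⟩

lemma cos_sin_sector {y : ℝ} (h0 : -(Real.pi / 4) ≤ y) (h1 : y ≤ 0) :
    1 / 2 ≤ Real.cos y ∧ Real.sin y ≤ 0 ∧ -Real.cos y ≤ Real.sin y := by
  have hpi := Real.pi_pos
  have e : Real.cos (Real.pi / 4) = Real.sin (Real.pi / 4) := by
    rw [Real.cos_pi_div_four, Real.sin_pi_div_four]
  have hc : Real.cos (Real.pi / 4) ≤ Real.cos y := by
    rw [← Real.cos_neg y]
    exact Real.cos_le_cos_of_nonneg_of_le_pi (by linarith) (by linarith) (by linarith)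
  have h2 : 1 / 2 ≤ Real.cos (Real.pi / 4) := by
    rw [Real.cos_pi_div_four]
    have : (1:ℝ) ≤ Real.sqrt 2 := by
      rw [Real.one_le_sqrt]
      norm_num
    linarith
  have hs : Real.sin (-(Real.pi / 4)) ≤ Real.sin y :=
    Real.sin_le_sin_of_le_of_le_pi_div_two (by linarith) (by linarith) h0
  rw [Real.sin_neg] at hs
  have hs0 : Real.sin y ≤ 0 := Real.sin_nonpos_of_nonpos_of_neg_pi_le h1 (by linarith)
  exact ⟨by linarith, hs0, by linarith⟩

lemma exp_mem_Sec {x y : ℝ} (h0 : -(Real.pi / 4) ≤ y) (h1 : y ≤ 0) :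
    cexp (x + y * I) ∈ Sec := by
  obtain ⟨hc, hs0, hs⟩ := cos_sin_sector h0 h1
  have he := Real.exp_pos x
  have hre : (cexp (x + y * I)).re = Real.exp x * Real.cos y := by
    rw [Complex.exp_re]; simp
  have him : (cexp (x + y * I)).im = Real.exp x * Real.sin y := by
    rw [Complex.exp_im]; simp
  refine ⟨?_, ?_, ?_⟩
  · rw [hre]; nlinarith
  · rw [hre, him]; nlinarith
  · rw [him]; nlinarith

/-- the kernel -/
noncomputable def KQ (b : ℝ) (z t : ℂ) : ℂ := cexp (-((1 / 2 + I * (t + b)) * lam z))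

lemma norm_KQ (b : ℝ) (z t : ℂ) : ‖KQ b z t‖ =
    Real.exp (b * (lam z).im - (lam z).re / 2 - (t.re * (-(lam z).im) + (-t.im) * (lam z).re)) := by
  unfold KQ
  rw [Complex.norm_exp]
  congr 1
  simp
  ring

lemma norm_KQ_le {b : ℝ} (hb : 0 ≤ b) {z : ℂ} (hz : z ∈ St) (hz0 : z.im < 0) {x y : ℝ}
    (h0 : -(Real.pi / 4) ≤ y) (h1 : y ≤ 0) : ‖KQ b z (cexp (x + y * I))‖ ≤
      Real.exp (-(1 / 8 * |z.im| * Real.exp (-|z.re|) * Real.exp x)) := by
  obtain ⟨hc, hs0, hs⟩ := cos_sin_sector h0 h1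
  have hz' : |z.im| ≤ 1 / 2 := le_of_lt hz
  have h2 := lam_im_neg_lower hz' hz0.le
  have h3 := lam_re_pos hz'
  have he := Real.exp_pos x
  have hre : (cexp (x + y * I)).re = Real.exp x * Real.cos y := by
    rw [Complex.exp_re]; simp
  have him : (cexp (x + y * I)).im = Real.exp x * Real.sin y := by
    rw [Complex.exp_im]; simp
  rw [norm_KQ, hre, him]
  apply Real.exp_le_exp.2
  have h4 : 0 < 1 / 4 * |z.im| * Real.exp (-|z.re|) := by
    have : 0 < |z.im| := abs_pos.2 hz0.ne
    positivity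
  set u := -(lam z).im with hu
  have hlu : (lam z).im = -u := by rw [hu]; ring
  have h5 : 0 < u := by linarith
  rw [hlu]
  have h6 : 0 ≤ b * u := by positivity
  have h7 : Real.exp x * (1 / 2) * (1 / 4 * |z.im| * Real.exp (-|z.re|)) ≤
      Real.exp x * Real.cos y * u := by gcongr
  have h8 : 0 ≤ -(Real.exp x * Real.sin y) * (lam z).re := by
    have : 0 ≤ Real.exp x * (-Real.sin y) * (lam z).re := by
      have : 0 ≤ -Real.sin y := by linarith
      positivity
    linarith
  nlinarith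

lemma norm_KQ_ray {b : ℝ} (hb : 0 ≤ b) {z : ℂ} (hz : z ∈ St) {x : ℝ} :
    ‖KQ b z (cexp (x - (Real.pi / 4 : ℝ) * I))‖ ≤
      Real.exp b * Real.exp (-(1 / 15 * Real.exp (-|z.re|) * Real.exp x)) := by
  have hz' : |z.im| ≤ 1 / 2 := le_of_lt hz
  have h2 := abs_le.1 (abs_lam_im_le_re hz')
  have h2' := abs_le.1 ((abs_lam_im_le_abs hz').trans hz')
  have h3 := lam_re_pos hz'
  have h4 := lam_re_lower hz'
  have he := Real.exp_pos x
  have hre : (cexp (x - (Real.pi / 4 : ℝ) * I)).re = Real.exp x * (Real.sqrt 2 / 2) := by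
    rw [Complex.exp_re]; simp [Real.cos_pi_div_four]
  have him : (cexp (x - (Real.pi / 4 : ℝ) * I)).im = -(Real.exp x * (Real.sqrt 2 / 2)) := by
    rw [Complex.exp_im]; simp [Real.sin_pi_div_four]
  rw [norm_KQ, hre, him, ← Real.exp_add]
  apply Real.exp_le_exp.2
  have h5 : (1:ℝ) ≤ Real.sqrt 2 := by
    rw [Real.one_le_sqrt]
    norm_num
  have h6 : Real.exp x * (1 / 2) * (2 / 5 * (1 / 3 * Real.exp (-|z.re|))) ≤
      Real.exp x * (Real.sqrt 2 / 2) * ((lam z).re - (lam z).im) := by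
    have : 2 / 5 * (1 / 3 * Real.exp (-|z.re|)) ≤ (lam z).re - (lam z).im := by linarith
    gcongr
  have h7 : b * (lam z).im ≤ b * (1 / 2) := by
    gcongr
    exact h2'.2
  nlinarith

theorem exists_sector_transform {b : ℝ} (hb : 0 ≤ b) : ∃ C : ℝ, 0 < C ∧ ∀ (Qf : ℂ → ℂ) (M : ℝ),
    DifferentiableOn ℂ Qf Reg → (∀ t ∈ Sec, ‖Qf t‖ ≤ M) →
    ∃ q : ℂ → ℂ, PT (C * M) 1 q ∧ ∀ z ∈ St, z.im < 0 →
      ∫ t in Ioi (0:ℝ), Qf t * cexp (-((1 / 2 + I * (t + b)) * lam z)) = q z := by
  refine ⟨15 * Real.exp b, by positivity, fun Qf M hQ hM => ?_⟩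
  have hpi := Real.pi_pos
  have hM0 : 0 ≤ M := (norm_nonneg _).trans (hM 0 ⟨by simp, by simp, by simp⟩)
  set g : ℂ → ℂ → ℂ := fun z w => Qf (cexp w) * KQ b z (cexp w) * cexp w with hg
  have hgd : ∀ z w : ℂ, -(Real.pi / 4) ≤ w.im → w.im ≤ 0 → DifferentiableAt ℂ (g z) w := by
    intro z w h0 h1
    have h2 : cexp w ∈ Reg := by
      have := exp_mem_Sec (x := w.re) h0 h1
      rw [re_add_im] at this
      exact Sec_subset_Reg this
    have h3 : DifferentiableAt ℂ Qf (cexp w) := hQ.differentiableAt (isOpen_Reg.mem_nhds h2)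
    have h4 : DifferentiableAt ℂ (fun w => Qf (cexp w)) w :=
      DifferentiableAt.comp w h3 (by fun_prop)
    simp only [hg, KQ]
    exact (h4.mul (by fun_prop)).mul (by fun_prop)
  have hgb : ∀ z ∈ St, ∀ x y : ℝ, -(Real.pi / 4) ≤ y → y ≤ 0 → ∀ B : ℝ,
      ‖KQ b z (cexp (x + y * I))‖ ≤ B → ‖g z (x + y * I)‖ ≤ M * B * Real.exp x := by
    intro z hz x y h0 h1 B hB
    simp only [hg]
    rw [norm_mul, norm_mul]
    have e : ‖cexp (x + y * I)‖ = Real.exp x := by
      rw [Complex.norm_exp]; simp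
    rw [e]
    have := hM _ (exp_mem_Sec (x := x) h0 h1)
    gcongr
  have eray : ∀ x : ℝ, ((x : ℂ) - (Real.pi / 4 : ℝ) * I) = x + ((-(Real.pi / 4) : ℝ) : ℂ) * I := by
    intro x
    push_cast
    ring
  have hray : ∀ z ∈ St, ∀ x : ℝ, ‖g z (x - (Real.pi / 4 : ℝ) * I)‖ ≤
      (M * Real.exp b) * (Real.exp x * Real.exp (-(1 / 15 * Real.exp (-|z.re|) * Real.exp x))) := by
    intro z hz x
    have h := norm_KQ_ray hb hz (x := x)
    rw [eray] at h ⊢
    refine (hgb z hz x _ (by linarith) (by linarith) _ h).trans (le_of_eq ?_)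
    ring
  have hcont : ∀ z : ℂ, Continuous fun x : ℝ => g z (x - (Real.pi / 4 : ℝ) * I) := by
    intro z
    rw [continuous_iff_continuousAt]
    intro x
    have h1 : DifferentiableAt ℂ (g z) ((x : ℂ) - (Real.pi / 4 : ℝ) * I) :=
      hgd z _ (by simp) (by simp; linarith)
    exact ContinuousAt.comp (f := fun x : ℝ => ((x : ℂ) - (Real.pi / 4 : ℝ) * I)) h1.continuousAt
      (by fun_prop)
  refine ⟨fun z => ∫ x : ℝ, g z (x - (Real.pi / 4 : ℝ) * I), ⟨?_, ?_⟩, ?_⟩
  · refine differentiableOn_integral_of_locally_majorant (Φ := fun z (x : ℝ) =>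
      g z (x - (Real.pi / 4 : ℝ) * I)) isOpen_St
      (fun z _ => (hcont z).aestronglyMeasurable)
      (Eventually.of_forall fun x => ?_) ?_
    · simp only [hg, KQ]
      intro z hz
      have h1 : DifferentiableWithinAt ℂ lam St z := differentiableOn_lam z hz
      exact ((DifferentiableWithinAt.cexp ((h1.const_mul _).neg)).const_mul _).mul_const _
    · intro z₀ hz₀
      refine ⟨St ∩ {z | |z.re| < |z₀.re| + 1}, ?_, fun x => (M * Real.exp b) *
        (Real.exp x * Real.exp (-(1 / 15 * Real.exp (-(|z₀.re| + 1)) * Real.exp x))),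
        (integral_exp_mul_exp_neg (by positivity)).1.const_mul _,
        Eventually.of_forall fun x z hz => (hray z hz.1 x).trans ?_⟩
      · refine inter_mem (isOpen_St.mem_nhds hz₀) ?_
        exact (isOpen_lt (by fun_prop) continuous_const).mem_nhds (by simp)
      · have : |z.re| ≤ |z₀.re| + 1 := le_of_lt hz.2
        have h1 : Real.exp (-(|z₀.re| + 1)) ≤ Real.exp (-|z.re|) := Real.exp_le_exp.2 (by linarith)
        have h2 : Real.exp (-(1 / 15 * Real.exp (-|z.re|) * Real.exp x)) ≤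
            Real.exp (-(1 / 15 * Real.exp (-(|z₀.re| + 1)) * Real.exp x)) := by
          apply Real.exp_le_exp.2
          have := Real.exp_pos x
          have : 1 / 15 * Real.exp (-(|z₀.re| + 1)) * Real.exp x ≤
            1 / 15 * Real.exp (-|z.re|) * Real.exp x := by gcongr
          linarith
        exact mul_le_mul_of_nonneg_left (mul_le_mul_of_nonneg_left h2 (Real.exp_pos x).le)
          (mul_nonneg hM0 (Real.exp_pos b).le)
  · intro z hz
    have h1 := integral_exp_mul_exp_neg (c := 1 / 15 * Real.exp (-|z.re|)) (by positivity)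
    refine (norm_integral_le_of_norm_le (h1.1.const_mul (M * Real.exp b))
      (Eventually.of_forall (hray z hz))).trans (le_of_eq ?_)
    rw [integral_const_mul, h1.2, Real.exp_neg, one_mul]
    field_simp
  · intro z hz hz0
    have h4 : 0 < 1 / 8 * |z.im| * Real.exp (-|z.re|) := by
      have : 0 < |z.im| := abs_pos.2 hz0.ne
      positivity
    have h1 := integral_exp_mul_exp_neg h4
    have h2 := tendsto_exp_mul_exp_neg h4
    have h3 := integral_horizontal_shift (f := g z) (ε := Real.pi / 4) (by positivity)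
      (hgd z) (m := fun x => M * (Real.exp x *
        Real.exp (-(1 / 8 * |z.im| * Real.exp (-|z.re|) * Real.exp x))))
      (fun x y h0 h1 => (hgb z hz x y h0 h1 _ (norm_KQ_le hb hz hz0 h0 h1)).trans
        (le_of_eq (by ring))) (h1.1.const_mul _) (by simpa using h2.1.const_mul M)
      (by simpa using h2.2.const_mul M)
    show _ = ∫ x : ℝ, g z (x - (Real.pi / 4 : ℝ) * I)
    rw [← h3]
    rw [integral_Ioi_eq_integral_exp (fun t : ℝ => Qf t *
      cexp (-((1 / 2 + I * (t + b)) * lam z)))]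
    simp only [hg, KQ, Complex.ofReal_exp]

end Pool.Agent.H26
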