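import Pool.Agent.H26.Err
import Pool.Agent.H26.Average
import Pool.Agent.H26.QPart

/-!
The one parameter family of shifts and the averages over it.
-/

namespace Pool.Agent.H26

open Complex MeasureTheory Set Filter Topology Pool.Agent.H95fa

/-- truncation to `[-R, R]` -/
noncomputable def clp (R x : ℝ) : ℝ := max (-R) (min R x)

lemma continuous_clp (R : ℝ) : Continuous (clp R) := by unfold clp; fun_prop

lemma abs_clp_le {R : ℝ} (hR : 0 ≤ R) (x : ℝ) : |clp R x| ≤ R := by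
  unfold clp
  rw [abs_le]
  refine ⟨le_max_left _ _, max_le (by linarith) (min_le_left _ _)⟩

lemma clp_eq {R x : ℝ} (h : x ∈ uIcc (-R) R) (hR : 0 ≤ R) : clp R x = x := by
  rw [uIcc_of_le (by linarith)] at h
  unfold clp
  rw [min_eq_right h.2, max_eq_right h.1]

/-- the family of shifts -/
noncomputable def gam {n : ℕ} (p : Ix (n + 1) → ℝ) (x : ℝ) : Ix (n + 1) → ℝ
  | Sum.inl j => p (Sum.inl j)
  | Sum.inr j => Fin.cases (motive := fun _ => ℝ) (p (Sum.inr 0))
      (fun l => p (Sum.inr l.succ) + x) j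

variable {n : ℕ}

lemma gam_eq (p : Ix (n + 1) → ℝ) (x : ℝ) (i : Ix (n + 1)) :
    gam p x i = p i ∨ gam p x i = p i + x := by
  rcases i with j | j
  · exact Or.inl rfl
  · refine Fin.cases ?_ (fun l => ?_) j
    · exact Or.inl rfl
    · exact Or.inr rfl

lemma continuous_gam (p : Ix (n + 1) → ℝ) : Continuous fun x => gam p x := by
  refine continuous_pi fun i => ?_
  rcases i with j | j
  · exact continuous_const
  · refine Fin.cases ?_ (fun l => ?_) j
    · exact continuous_const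
    · exact continuous_const.add continuous_id

/-- well separated shifts -/
def Sepd (R : ℝ) (p : Ix (n + 1) → ℝ) : Prop :=
  (∀ i, R + 1 ≤ p i) ∧ ∀ i j, i ≠ j → R + 1 ≤ |p i - p j|

lemma gam_mem_KK {R : ℝ} {p : Ix (n + 1) → ℝ} (hp : Sepd R p) {x : ℝ} (hx : |x| ≤ R) :
    gam p x ∈ KK (n + 1) (R + ∑ i, |p i|) := by
  have hx' := abs_le.1 hx
  have hR : 0 ≤ R := (abs_nonneg x).trans hx
  refine ⟨fun i => ⟨?_, ?_⟩, fun i j hij => ?_⟩
  · have := hp.1 i
    rcases gam_eq p x i with h | h <;> rw [h] <;> linarith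
  · have h1 : p i ≤ ∑ i, |p i| := (le_abs_self _).trans
      (Finset.single_le_sum (f := fun i => |p i|) (fun i _ => abs_nonneg _) (Finset.mem_univ i))
    rcases gam_eq p x i with h | h <;> rw [h] <;> linarith
  · have h0 := hp.2 i j hij
    have key : ∀ u : ℝ, |u| ≤ R → 1 ≤ |p i - p j + u| := by
      intro u hu
      have h1 : |p i - p j| ≤ |p i - p j + u| + |u| := by
        calc |p i - p j| = |(p i - p j + u) - u| := by ring_nf
          _ ≤ _ := abs_sub _ _
      linarith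
    rcases gam_eq p x i with h | h <;> rcases gam_eq p x j with h' | h' <;> rw [h, h']
    · linarith
    · have := key (-x) (by rwa [abs_neg])
      have e : p i - (p j + x) = p i - p j + -x := by ring
      rwa [e]
    · have := key x hx
      have e : p i + x - p j = p i - p j + x := by ring
      rwa [e]
    · have e : p i + x - (p j + x) = p i - p j := by ring
      rw [e]
      linarith

lemma ofReal_mem_tube {k : ℕ} (γ : Ix k → ℝ) : (fun i => (γ i : ℂ)) ∈ tube (Ix k) := by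
  intro i
  simp

lemma injective_ofReal_comp {k : ℕ} {γ : Ix k → ℝ} (h : Function.Injective γ) :
    Function.Injective fun i => (γ i : ℂ) := fun _ _ hij => h (Complex.ofReal_injective hij)

/-- For distinct real shifts the main term is the explicit sum. -/
lemma Q_eq_Qsum {k : ℕ} {γ : Ix k → ℝ} (h : Function.Injective γ) (t : ℝ) :
    Q (fun j => γ (Sum.inl j)) (fun j => γ (Sum.inr j)) t = Qsum (fun i => (γ i : ℂ)) t := by
  obtain ⟨r, hr⟩ := exists_adm γ
  have hmem : (fun i => (γ i : ℂ)) ∈ polyD (fun i => (γ i : ℂ)) r := by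
    intro i
    exact Metric.mem_ball_self (hr.pos i)
  rw [Q_eq_Qext hr hmem, Qext_eq hr (im_ofReal_lt t) hmem (injective_ofReal_comp h)]

lemma continuousAt_G_Reg {k : ℕ} (S : Finset (Ix k)) {γ : Ix k → ℝ}
    (hγ : ∀ i, 1 ≤ γ i) {t : ℂ} (ht : t ∈ Reg) :
    ContinuousAt (fun q : ℂ × (Ix k → ℂ) => G S q.2 q.1) (t, fun i => (γ i : ℂ)) := by
  have hre : ∀ i, (t + (γ i : ℂ)).re ≠ 0 := by
    intro i
    have h1 := hγ i
    have h2 := ht.1
    simp
    linarith
  unfold G
  refine ContinuousAt.mul ?_ ?_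
  · refine tendsto_finsetProd _ fun j _ => ?_
    by_cases hj : Sum.inr j ∈ S
    · simp only [hj, if_true]
      have h : ContinuousAt chi (1 / 2 - I * (t + (γ (Sum.inr j) : ℂ))) := by
        refine (differentiableAt_chi_of_im ?_).continuousAt
        have h2 : (1 / 2 - I * (t + (γ (Sum.inr j) : ℂ))).im =
            -(t + (γ (Sum.inr j) : ℂ)).re := by simp
        rw [h2]
        exact neg_ne_zero.2 (hre _)
      have hf : Continuous fun q : ℂ × (Ix k → ℂ) => (1 / 2 - I * (q.1 + q.2 (Sum.inr j)) : ℂ) := by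
        fun_prop
      exact ContinuousAt.comp (f := fun q : ℂ × (Ix k → ℂ) =>
        (1 / 2 - I * (q.1 + q.2 (Sum.inr j)) : ℂ)) (x := (t, fun i => (γ i : ℂ))) h hf.continuousAt
    · simp only [hj, if_false]
      exact continuousAt_const
  · refine tendsto_finsetProd _ fun j _ => ?_
    by_cases hj : Sum.inl j ∈ S
    · simp only [hj, if_true]
      exact continuousAt_const
    · simp only [hj, if_false]
      have h : ContinuousAt chi (1 / 2 + I * (t + (γ (Sum.inl j) : ℂ))) := by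
        refine (differentiableAt_chi_of_im ?_).continuousAt
        have := hre (Sum.inl j)
        simpa using this
      have hf : Continuous fun q : ℂ × (Ix k → ℂ) => (1 / 2 + I * (q.1 + q.2 (Sum.inl j)) : ℂ) := by
        fun_prop
      exact ContinuousAt.comp (f := fun q : ℂ × (Ix k → ℂ) =>
        (1 / 2 + I * (q.1 + q.2 (Sum.inl j)) : ℂ)) (x := (t, fun i => (γ i : ℂ))) h hf.continuousAt

lemma continuousAt_Qsum_Reg {k : ℕ} {γ : Ix k → ℝ} (hγ : ∀ i, 1 ≤ γ i)
    (hinj : Function.Injective γ) {t : ℂ} (ht : t ∈ Reg) :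
    ContinuousAt (fun q : ℂ × (Ix k → ℂ) => Qsum q.2 q.1) (t, fun i => (γ i : ℂ)) := by
  unfold Qsum
  refine tendsto_finsetSum _ fun S _ => ?_
  refine (continuousAt_G_Reg S hγ ht).mul ?_
  exact ContinuousAt.comp (f := fun q : ℂ × (Ix k → ℂ) => q.2)
    (continuousAt_zetaAB S (ofReal_mem_tube γ) (injective_ofReal_comp hinj)) continuousAt_snd

/-- the shifts as complex numbers, with the parameter truncated -/
noncomputable def gamc (p : Ix (n + 1) → ℝ) (R x : ℝ) : Ix (n + 1) → ℂ :=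
  fun i => (gam p (clp R x) i : ℂ)

lemma continuous_gamc (p : Ix (n + 1) → ℝ) (R : ℝ) : Continuous (gamc p R) := by
  have h := (continuous_gam p).comp (continuous_clp R)
  refine continuous_pi fun i => ?_
  exact Complex.continuous_ofReal.comp ((continuous_apply i).comp h)

lemma continuousOn_Qsum_gamc {R : ℝ} (hR : 0 ≤ R) {p : Ix (n + 1) → ℝ} (hp : Sepd R p) :
    ContinuousOn (fun q : ℝ × ℂ => Qsum (gamc p R q.1) q.2) (univ ×ˢ Reg) := by
  rintro ⟨x, t⟩ ⟨-, ht⟩
  have hK := gam_mem_KK hp (abs_clp_le hR x)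
  have h1 := continuousAt_Qsum_Reg (γ := gam p (clp R x)) (fun i => (hK.1 i).1) (KK_injective hK) ht
  refine ContinuousAt.continuousWithinAt ?_
  have h2 : Continuous fun q : ℝ × ℂ => ((q.2, gamc p R q.1) : ℂ × (Ix (n + 1) → ℂ)) :=
    continuous_snd.prodMk ((continuous_gamc p R).comp continuous_fst)
  exact ContinuousAt.comp (f := fun q : ℝ × ℂ => ((q.2, gamc p R q.1) : ℂ × (Ix (n + 1) → ℂ)))
    (x := (x, t)) h1 h2.continuousAt

lemma continuous_Qsum_gamc {R : ℝ} (hR : 0 ≤ R) {p : Ix (n + 1) → ℝ} (hp : Sepd R p) :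
    Continuous fun q : ℝ × ℝ => Qsum (gamc p R q.1) (q.2 : ℂ) := by
  rw [continuous_iff_continuousAt]
  rintro ⟨x, t⟩
  have hK := gam_mem_KK hp (abs_clp_le hR x)
  have h1 := continuousAt_Qsum (q := ((t : ℂ), gamc p R x))
    ⟨im_ofReal_lt t, ofReal_mem_tube _⟩ (injective_ofReal_comp (KK_injective hK))
  have h2 : Continuous fun q : ℝ × ℝ => (((q.2 : ℂ), gamc p R q.1) : ℂ × (Ix (n + 1) → ℂ)) :=
    (Complex.continuous_ofReal.comp continuous_snd).prodMk ((continuous_gamc p R).comp continuous_fst)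
  exact ContinuousAt.comp (f := fun q : ℝ × ℝ => (((q.2 : ℂ), gamc p R q.1) :
    ℂ × (Ix (n + 1) → ℂ))) (x := (x, t)) h1 h2.continuousAt

lemma continuous_Zc_gamc (R : ℝ) (p : Ix (n + 1) → ℝ) :
    Continuous fun q : ℝ × ℝ => Zc (gamc p R q.1) (q.2 : ℂ) := by
  rw [continuous_iff_continuousAt]
  rintro ⟨x, t⟩
  have h1 := continuousAt_Zc (q := ((t : ℂ), gamc p R x)) ⟨im_ofReal_lt t, ofReal_mem_tube _⟩
  have h2 : Continuous fun q : ℝ × ℝ => (((q.2 : ℂ), gamc p R q.1) : ℂ × (Ix (n + 1) → ℂ)) :=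
    (Complex.continuous_ofReal.comp continuous_snd).prodMk ((continuous_gamc p R).comp continuous_fst)
  exact ContinuousAt.comp (f := fun q : ℝ × ℝ => (((q.2 : ℂ), gamc p R q.1) :
    ℂ × (Ix (n + 1) → ℂ))) (x := (x, t)) h1 h2.continuousAt

/-- the weight -/
noncomputable def wt (Y L : ℝ) (x : ℝ) : ℂ := gau L (x - Y * I)

lemma continuous_wt (Y L : ℝ) : Continuous (wt Y L) := by
  unfold wt gau; fun_prop

lemma norm_wt (Y L x : ℝ) : ‖wt Y L x‖ = Real.exp (L * Y ^ 2 / 2) * ‖gau L x‖ := by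
  unfold wt gau
  rw [norm_mul, norm_mul, Complex.norm_exp, Complex.norm_exp, ← mul_assoc,
    mul_comm (Real.exp (L * Y ^ 2 / 2)), mul_assoc, ← Real.exp_add]
  congr 2
  have e1 : (-((L : ℂ) * (x - Y * I) ^ 2 / 2)) =
      ((-(L / 2) * (x ^ 2 - Y ^ 2) : ℝ) : ℂ) + ((L * x * Y : ℝ) : ℂ) * I := by
    push_cast
    linear_combination (-(L / 2) * Y ^ 2 : ℂ) * I_sq
  have e2 : (-((L : ℂ) * (x : ℂ) ^ 2 / 2)) = ((-(L * x ^ 2 / 2) : ℝ) : ℂ) := by
    push_cast
    ring
  rw [e1, e2, add_re, ofReal_re, ofReal_re, re_ofReal_mul, I_re]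
  ring

lemma integral_norm_wt_le {Y L R : ℝ} (hL : 0 < L) (hR : 0 ≤ R) :
    ∫ x in (-R)..R, ‖wt Y L x‖ ≤ Real.exp (L * Y ^ 2 / 2) := by
  simp only [norm_wt]
  rw [intervalIntegral.integral_const_mul]
  calc _ ≤ Real.exp (L * Y ^ 2 / 2) * 1 := by
        gcongr
        exact integral_norm_gau_le hL hR
    _ = _ := mul_one _

lemma norm_integral_wt_le {Y L R : ℝ} (hL : 0 < L) (hR : 0 ≤ R) {F : ℝ → ℂ} {M : ℝ}
    (hM : ∀ x, |x| ≤ R → ‖F x‖ ≤ M) :
    ‖∫ x in (-R)..R, wt Y L x * F x‖ ≤ Real.exp (L * Y ^ 2 / 2) * M := by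
  have hM0 : 0 ≤ M := (norm_nonneg _).trans (hM 0 (by simpa using hR))
  have h1 : ∀ x ∈ Icc (-R) R, ‖wt Y L x * F x‖ ≤ ‖wt Y L x‖ * M := by
    intro x hx
    rw [norm_mul]
    have := hM x (abs_le.2 hx)
    gcongr
  have h2 : IntervalIntegrable (fun x => ‖wt Y L x‖ * M) volume (-R) R :=
    Continuous.intervalIntegrable ((continuous_wt Y L).norm.mul continuous_const) _ _
  calc ‖∫ x in (-R)..R, wt Y L x * F x‖ ≤ ∫ x in (-R)..R, ‖wt Y L x‖ * M :=
        intervalIntegral.norm_integral_le_of_norm_le (by linarith)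
          (Eventually.of_forall fun x hx => h1 x ⟨hx.1.le, hx.2⟩) h2
    _ = (∫ x in (-R)..R, ‖wt Y L x‖) * M := intervalIntegral.integral_mul_const _ _
    _ ≤ _ := by
        gcongr
        exact integral_norm_wt_le hL hR

/-- the averaged main term -/
noncomputable def Qav (p : Ix (n + 1) → ℝ) (R Y L : ℝ) (t : ℂ) : ℂ :=
  ∫ x in (-R)..R, wt Y L x * Qsum (gamc p R x) t

/-- the averaged product -/
noncomputable def Zav (p : Ix (n + 1) → ℝ) (R Y L : ℝ) (t : ℝ) : ℂ :=
  ∫ x in (-R)..R, wt Y L x * Zc (gamc p R x) t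

lemma differentiableOn_Qsum_gamc {R : ℝ} (hR : 0 ≤ R) {p : Ix (n + 1) → ℝ} (hp : Sepd R p)
    (x : ℝ) : DifferentiableOn ℂ (Qsum (gamc p R x)) Reg := by
  have hK := gam_mem_KK hp (abs_clp_le hR x)
  exact differentiableOn_Qsum (γ := gam p (clp R x)) fun i => (hK.1 i).1

lemma differentiableOn_Qav {R : ℝ} (hR : 0 ≤ R) {p : Ix (n + 1) → ℝ} (hp : Sepd R p) (Y L : ℝ) :
    DifferentiableOn ℂ (Qav p R Y L) Reg := by
  have e : Qav p R Y L = fun t => ∫ x in Ioc (-R) R, wt Y L x * Qsum (gamc p R x) t := by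
    funext t
    unfold Qav
    rw [intervalIntegral.integral_of_le (by linarith)]
  rw [e]
  have hc := continuousOn_Qsum_gamc hR hp
  refine differentiableOn_integral_of_locally_majorant
    (Φ := fun t x => wt Y L x * Qsum (gamc p R x) t) isOpen_Reg (fun t ht => ?_)
    (Eventually.of_forall fun x => ?_) (fun t₀ ht₀ => ?_)
  · have h2 : Continuous fun x : ℝ => ((x, t) : ℝ × ℂ) := Continuous.prodMk_left t
    have h3 : ∀ x : ℝ, ((x, t) : ℝ × ℂ) ∈ (univ : Set ℝ) ×ˢ Reg := fun x =>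
      mk_mem_prod (mem_univ x) ht
    have h1 := hc.comp_continuous h2 h3
    exact ((continuous_wt Y L).mul h1).aestronglyMeasurable
  · exact (differentiableOn_Qsum_gamc hR hp x).const_mul _
  · obtain ⟨ε, hε, hball⟩ := Metric.isOpen_iff.1 isOpen_Reg t₀ ht₀
    have hcomp : IsCompact (Icc (-R) R ×ˢ Metric.closedBall t₀ (ε / 2)) :=
      isCompact_Icc.prod (isCompact_closedBall _ _)
    have hsub : Icc (-R) R ×ˢ Metric.closedBall t₀ (ε / 2) ⊆ univ ×ˢ Reg := by
      rintro ⟨x, t⟩ ⟨-, ht⟩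
      exact ⟨trivial, hball (Metric.closedBall_subset_ball (by linarith) ht)⟩
    have hc2 : ContinuousOn (fun q : ℝ × ℂ => wt Y L q.1 * Qsum (gamc p R q.1) q.2)
        (Icc (-R) R ×ˢ Metric.closedBall t₀ (ε / 2)) :=
      (((continuous_wt Y L).comp continuous_fst).continuousOn).mul (hc.mono hsub)
    obtain ⟨C, hC⟩ := hcomp.exists_bound_of_continuousOn hc2
    refine ⟨Metric.closedBall t₀ (ε / 2), Metric.closedBall_mem_nhds _ (by positivity),
      fun _ => C, integrable_const _, ?_⟩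
    filter_upwards [ae_restrict_mem measurableSet_Ioc] with x hx t ht
    exact hC (x, t) ⟨⟨hx.1.le, hx.2⟩, ht⟩

lemma exists_norm_Qav_le {R : ℝ} (hR : 0 ≤ R) {p : Ix (n + 1) → ℝ} (hp : Sepd R p) :
    ∃ C : ℝ, 0 ≤ C ∧ ∀ Y L : ℝ, 0 < L → ∀ t ∈ Sec,
      ‖Qav p R Y L t‖ ≤ Real.exp (L * Y ^ 2 / 2) * C := by
  obtain ⟨C, hC0, hC⟩ := exists_Qsum_sector_bound (n + 1) (R + ∑ i, |p i|)
  refine ⟨C, hC0, fun Y L hL t ht => norm_integral_wt_le hL hR fun x _ => ?_⟩
  exact hC _ (gam_mem_KK hp (abs_clp_le hR x)) t ht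

/-- the averaged difference -/
noncomputable def Dav (p : Ix (n + 1) → ℝ) (R Y L : ℝ) (t : ℝ) : ℂ :=
  Zav p R Y L t - Qav p R Y L t

lemma continuous_Zav {R : ℝ} {p : Ix (n + 1) → ℝ} (Y L : ℝ) : Continuous (Zav p R Y L) := by
  have h1 : Continuous (Function.uncurry fun (t x : ℝ) => wt Y L x * Zc (gamc p R x) t) := by
    have h2 := (continuous_Zc_gamc R p).comp (continuous_swap (X := ℝ) (Y := ℝ))
    have h3 : Continuous fun q : ℝ × ℝ => wt Y L q.2 := (continuous_wt Y L).comp continuous_snd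
    exact h3.mul h2
  exact intervalIntegral.continuous_parametric_intervalIntegral_of_continuous' (μ := volume) h1 _ _

lemma continuous_Qav {R : ℝ} (hR : 0 ≤ R) {p : Ix (n + 1) → ℝ} (hp : Sepd R p) (Y L : ℝ) :
    Continuous fun t : ℝ => Qav p R Y L t := by
  have h1 : Continuous (Function.uncurry fun (t x : ℝ) => wt Y L x * Qsum (gamc p R x) t) := by
    have h2 := (continuous_Qsum_gamc hR hp).comp (continuous_swap (X := ℝ) (Y := ℝ))
    have h3 : Continuous fun q : ℝ × ℝ => wt Y L q.2 := (continuous_wt Y L).comp continuous_snd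
    exact h3.mul h2
  exact intervalIntegral.continuous_parametric_intervalIntegral_of_continuous' (μ := volume) h1 _ _

lemma continuous_Dav {R : ℝ} (hR : 0 ≤ R) {p : Ix (n + 1) → ℝ} (hp : Sepd R p) (Y L : ℝ) :
    Continuous (Dav p R Y L) :=
  (continuous_Zav Y L).sub (continuous_Qav hR hp Y L)

lemma Er_gam {R : ℝ} (hR : 0 ≤ R) {p : Ix (n + 1) → ℝ} (hp : Sepd R p) {x : ℝ}
    (T : ℝ) : Er (gam p (clp R x)) T = ∫ t in (0:ℝ)..T, (Zc (gamc p R x) t - Qsum (gamc p R x) t) := by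
  have hK := gam_mem_KK hp (abs_clp_le hR x)
  unfold Er E
  congr 1
  funext t
  rw [Z_eq_Zc, Q_eq_Qsum (KK_injective hK)]
  rfl

lemma integral_Dav {R : ℝ} (hR : 0 ≤ R) {p : Ix (n + 1) → ℝ} (hp : Sepd R p) (Y L T : ℝ) :
    ∫ t in (0:ℝ)..T, Dav p R Y L t =
      ∫ x in (-R)..R, wt Y L x * Er (gam p (clp R x)) T := by
  have hZ := continuous_Zc_gamc R p
  have hQ := continuous_Qsum_gamc hR hp
  have h0 : ∀ t : ℝ, Dav p R Y L t = ∫ x in (-R)..R,
      wt Y L x * (Zc (gamc p R x) t - Qsum (gamc p R x) t) := by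
    intro t
    unfold Dav Zav Qav
    have h2 : Continuous fun x : ℝ => ((x, t) : ℝ × ℝ) := by fun_prop
    rw [← intervalIntegral.integral_sub]
    · congr 1
      funext x
      ring
    · exact Continuous.intervalIntegrable ((continuous_wt Y L).mul (hZ.comp h2)) _ _
    · exact Continuous.intervalIntegrable ((continuous_wt Y L).mul (hQ.comp h2)) _ _
  simp only [h0]
  have hF : Continuous (Function.uncurry fun (t x : ℝ) => wt Y L x *
      (Zc (gamc p R x) t - Qsum (gamc p R x) t)) := by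
    have h2 := hZ.comp (continuous_swap (X := ℝ) (Y := ℝ))
    have h2' := hQ.comp (continuous_swap (X := ℝ) (Y := ℝ))
    have h3 : Continuous fun q : ℝ × ℝ => wt Y L q.2 := (continuous_wt Y L).comp continuous_snd
    exact h3.mul (h2.sub h2')
  rw [intervalIntegral_intervalIntegral_swap]
  · refine intervalIntegral.integral_congr fun x _ => ?_
    rw [intervalIntegral.integral_const_mul, Er_gam hR hp]
  · refine IntegrableOn.mono_set ?_ (prod_mono uIoc_subset_uIcc uIoc_subset_uIcc)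
    exact hF.continuousOn.integrableOn_compact (isCompact_uIcc.prod isCompact_uIcc)

end Pool.Agent.H26
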