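import Pool.Agent.H26.Sep
import Pool.Agent.H26.Shifts

/-!
Uniform bounds for the main term with complex shifts.
-/

set_option autoImplicit false

namespace Pool.Agent.H26

open Complex Finset Filter Topology MeasureTheory

variable {k : ℕ}

lemma norm_zeta_pair_le {η B : ℝ} (hη : 0 < η) (hB : 0 ≤ B) {a b : ℂ} (ha : |a.im| < 1 / 8)
    (hb : |b.im| < 1 / 8) (hab : η ≤ dist a b) (haB : |a.re| ≤ B) (hbB : |b.re| ≤ B) :
    ‖riemannZeta (1 + I * (a - b))‖ ≤ (η⁻¹ + 3) * (1 + B) := by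
  have hne : a ≠ b := by
    rintro rfl
    rw [dist_self] at hab
    linarith
  have hre : (1 + I * (a - b)).re = 1 - (a.im - b.im) := by simp; ring
  have him : (1 + I * (a - b)).im = a.re - b.re := by simp
  have h1 := abs_lt.1 ha
  have h2 := abs_lt.1 hb
  have h3 := norm_riemannZeta_le (s := 1 + I * (a - b)) (by rw [hre]; linarith)
    (one_add_ne_one hne)
  have h4 : ‖1 + I * (a - b) - 1‖ = dist a b := by
    rw [show 1 + I * (a - b) - 1 = I * (a - b) by ring, norm_mul, norm_I, one_mul, dist_eq_norm]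
  rw [h4] at h3
  have h5 : (dist a b)⁻¹ ≤ η⁻¹ := inv_anti₀ hη hab
  have h6 : ‖1 + I * (a - b)‖ ≤ 5 / 4 + 2 * B := by
    have h7 := Complex.norm_le_abs_re_add_abs_im (1 + I * (a - b))
    rw [hre, him] at h7
    have h8 : |1 - (a.im - b.im)| ≤ 5 / 4 := by
      rw [abs_le]; constructor <;> linarith
    have h9 : |a.re - b.re| ≤ B + B := (abs_sub _ _).trans (add_le_add haB hbB)
    linarith
  have h7 : ‖1 + I * (a - b)‖ / (1 + I * (a - b)).re ≤ (5 / 4 + 2 * B) / (3 / 4) := by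
    rw [hre]
    gcongr
    linarith
  have h8 : (5 / 4 + 2 * B) / (3 / 4) = 5 / 3 + 8 / 3 * B := by ring
  rw [h8] at h7
  have h9 : 0 < η⁻¹ := inv_pos.2 hη
  nlinarith

lemma norm_zetaAB_le (S : Finset (Ix k)) {η B : ℝ} (hη : 0 < η) (hB : 0 ≤ B) {γ : Ix k → ℂ}
    (hγ : γ ∈ tube (Ix k)) (hsep : ∀ i j, i ≠ j → η ≤ dist (γ i) (γ j))
    (hγB : ∀ i, |(γ i).re| ≤ B) :
    ‖zetaAB S γ‖ ≤ (BF (2 * k) + 1) * ((η⁻¹ + 3) * (1 + B)) ^ ((2 * k) * (2 * k)) := by
  have hcard : Fintype.card (Ix k) = 2 * k := by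
    rw [Fintype.card_sum, Fintype.card_fin]; ring
  have h1 := norm_eulerF_le (S := S) hγ
  rw [hcard] at h1
  have hD : 1 ≤ (η⁻¹ + 3) * (1 + B) := by
    have : 0 < η⁻¹ := inv_pos.2 hη
    nlinarith
  unfold zetaAB
  rw [norm_mul]
  refine mul_le_mul h1 ?_ (norm_nonneg _) ((norm_nonneg _).trans h1)
  rw [norm_prod]
  calc ∏ j ∈ S, ‖∏ l ∈ Sᶜ, riemannZeta (1 + I * (γ j - γ l))‖
      ≤ ∏ _j ∈ S, ((η⁻¹ + 3) * (1 + B)) ^ (2 * k) := by
        refine Finset.prod_le_prod (fun _ _ => norm_nonneg _) fun j hj => ?_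
        rw [norm_prod]
        calc ∏ l ∈ Sᶜ, ‖riemannZeta (1 + I * (γ j - γ l))‖
            ≤ ∏ _l ∈ Sᶜ, ((η⁻¹ + 3) * (1 + B)) := by
              refine Finset.prod_le_prod (fun _ _ => norm_nonneg _) fun l hl => ?_
              refine norm_zeta_pair_le hη hB (hγ j) (hγ l) (hsep j l ?_) (hγB j) (hγB l)
              rintro rfl
              exact (Finset.mem_compl.1 hl) hj
          _ = ((η⁻¹ + 3) * (1 + B)) ^ (Sᶜ.card) := by rw [Finset.prod_const]
          _ ≤ _ := by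
              refine pow_le_pow_right₀ hD ?_
              rw [← hcard]
              exact Finset.card_le_univ _
    _ = (((η⁻¹ + 3) * (1 + B)) ^ (2 * k)) ^ S.card := by rw [Finset.prod_const]
    _ ≤ (((η⁻¹ + 3) * (1 + B)) ^ (2 * k)) ^ (2 * k) := by
        refine pow_le_pow_right₀ (one_le_pow₀ hD) ?_
        rw [← hcard]
        exact Finset.card_le_univ _
    _ = _ := by rw [← pow_mul]

lemma torus_sep {c : Ix k → ℂ} {r : Ix k → ℝ} {η : ℝ}
    (hsep : ∀ i j, i ≠ j → ∀ z w, dist z (c i) = r i → dist w (c j) = r j → η ≤ dist z w)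
    {γ : Ix k → ℂ} (hγ : γ ∈ VL c r []) : ∀ i j, i ≠ j → η ≤ dist (γ i) (γ j) :=
  fun i j hij => hsep i j hij _ _ ((hγ i).2 (by simp)) ((hγ j).2 (by simp))

lemma torus_re {c : Ix k → ℂ} {r : Ix k → ℝ} {B : ℝ} (hr : ∀ i, r i ≤ 1)
    (hB : ∀ i, |(c i).re| ≤ B) {γ : Ix k → ℂ} (hγ : γ ∈ VL c r []) :
    ∀ i, |(γ i).re| ≤ 1 + B := by
  intro i
  have h1 : dist (γ i) (c i) = r i := (hγ i).2 (by simp)
  have h2 := Complex.abs_re_le_norm (γ i - c i)
  rw [← dist_eq_norm, h1] at h2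
  have h3 : |(γ i).re| ≤ |(γ i - c i).re| + |(c i).re| := by
    have : (γ i).re = (γ i - c i).re + (c i).re := by simp
    rw [this]
    exact abs_add_le _ _
  linarith [hr i, hB i]

/-- The exponent in the bounds for the main term. -/
def NK (k : ℕ) : ℕ := 2 * k + (2 * k) * (2 * k)

/-- Uniform bound for the main term. -/
theorem exists_norm_Qsum_le (k : ℕ) {ρ : ℝ} (hρ : 0 < ρ) : ∃ C : ℝ, 0 ≤ C ∧
    ∀ γ : Ix k → ℂ, Function.Injective γ → (∀ i, |(γ i).im| + ρ ≤ 1 / 8) → ∀ B : ℝ, 0 ≤ B →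
    (∀ i, |(γ i).re| ≤ B) → ∀ t : ℝ, ‖Qsum γ t‖ ≤ C * (1 + B) ^ NK k * (1 + |t|) ^ (2 * k) := by
  obtain ⟨η, hη, hadm⟩ := exists_uniform_adm k hρ
  choose CG hCG1 hCG using norm_G_le (k := k)
  have hη' : 0 < η⁻¹ := inv_pos.2 hη
  have hBF : 0 ≤ BF (2 * k) := (Real.exp_pos _).le
  refine ⟨∑ S ∈ (univ : Finset (Ix k)).powersetCard k, (CG S * 2) ^ (2 * k) *
    ((BF (2 * k) + 1) * ((η⁻¹ + 3) * 2) ^ ((2 * k) * (2 * k))), ?_, ?_⟩
  · refine Finset.sum_nonneg fun S _ => ?_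
    have := hCG1 S
    positivity
  intro γ hinj hγ B hB hγB t
  obtain ⟨r, hr, hr1, hsep⟩ := hadm γ hγ
  have hρ8 : ρ ≤ 1 / 8 ∨ k = 0 := by
    by_cases h : k = 0
    · exact Or.inr h
    · left
      have := hγ (Sum.inl ⟨0, Nat.pos_of_ne_zero h⟩)
      have h2 := abs_nonneg (γ (Sum.inl ⟨0, Nat.pos_of_ne_zero h⟩)).im
      linarith
  have hr1' : ∀ i, r i ≤ 1 := by
    intro i
    rcases hρ8 with h | h
    · linarith [hr1 i]
    · subst h
      rcases i with i | i <;> exact i.elim0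
  have key := norm_le_of_torus hr (f := fun γ => Qsum γ t)
    (M := (∑ S ∈ (univ : Finset (Ix k)).powersetCard k, (CG S * 2) ^ (2 * k) *
      ((BF (2 * k) + 1) * ((η⁻¹ + 3) * 2) ^ ((2 * k) * (2 * k)))) * (1 + B) ^ NK k *
      (1 + |t|) ^ (2 * k)) ?_ ?_ (univ : Finset (Ix k)).toList (Finset.nodup_toList _) γ ?_ hinj
  · exact key
  · intro i γ' hγ' hdist
    have hq : ((t : ℂ), γ') ∈ good k := ⟨im_ofReal_lt t, fun j => hr.strip j _ (hγ' j)⟩
    obtain ⟨g, hg, hgeq⟩ := exists_Qsum_extension i hq hdist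
    refine ⟨g, {z : ℂ | |z.im| < 1 / 8}, ?_, fun z hz => hr.strip i z hz, hg,
      fun z hz hzj => hgeq z hz hzj⟩
    exact isOpen_lt (by fun_prop) continuous_const
  · intro γ' hγ'
    have hB' : 0 ≤ 1 + B := by linarith
    have hre := torus_re hr1' hγB hγ'
    unfold Qsum
    rw [Finset.sum_mul, Finset.sum_mul]
    refine norm_sum_le_of_le _ fun S _ => ?_
    rw [norm_mul]
    have h1 := hCG S γ' (VL_tube hr hγ') t (1 + B) hB' hre
    have h2 := norm_zetaAB_le S hη hB' (VL_tube hr hγ') (torus_sep hsep hγ') hre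
    have h3 := hCG1 S
    have ht : 0 ≤ |t| := abs_nonneg _
    calc _ ≤ (CG S * (1 + (1 + B)) * (1 + |t|)) ^ (2 * k) *
          ((BF (2 * k) + 1) * ((η⁻¹ + 3) * (1 + (1 + B))) ^ ((2 * k) * (2 * k))) := by gcongr
      _ ≤ (CG S * (2 * (1 + B)) * (1 + |t|)) ^ (2 * k) *
          ((BF (2 * k) + 1) * ((η⁻¹ + 3) * (2 * (1 + B))) ^ ((2 * k) * (2 * k))) := by
          gcongr <;> linarith
      _ = _ := by
          rw [NK, pow_add, show CG S * (2 * (1 + B)) * (1 + |t|) =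
            (CG S * 2) * (1 + B) * (1 + |t|) by ring, mul_pow, mul_pow _ (1 + B),
            show (η⁻¹ + 3) * (2 * (1 + B)) = ((η⁻¹ + 3) * 2) * (1 + B) by ring,
            mul_pow _ (1 + B) ((2 * k) * (2 * k))]
          ring
  · rw [VL_univ]
    intro i
    exact Metric.mem_ball_self (hr.pos i)

/-- The coordinates of `α`. -/
def S0 (k : ℕ) : Finset (Ix k) := univ.filter fun i => i.isLeft

lemma inl_mem_S0 (j : Fin k) : (Sum.inl j : Ix k) ∈ S0 k := by simp [S0]

lemma inr_notMem_S0 (j : Fin k) : (Sum.inr j : Ix k) ∉ S0 k := by simp [S0]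

lemma card_S0 : (S0 k).card = k := by
  have : S0 k = (univ : Finset (Fin k)).map ⟨Sum.inl, Sum.inl_injective⟩ := by
    ext i
    rcases i with i | i <;> simp [S0]
  rw [this, Finset.card_map, Finset.card_univ, Fintype.card_fin]

lemma G_S0 (γ : Ix k → ℂ) (t : ℂ) : G (S0 k) γ t = 1 := by
  unfold G
  simp [inl_mem_S0, inr_notMem_S0]

lemma Qsum_sub_S0 (γ : Ix k → ℂ) (t : ℂ) : Qsum γ t - zetaAB (S0 k) γ =
    ∑ S ∈ ((univ : Finset (Ix k)).powersetCard k).erase (S0 k), G S γ t * zetaAB S γ := by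
  have hmem : S0 k ∈ (univ : Finset (Ix k)).powersetCard k := by
    rw [Finset.mem_powersetCard]
    exact ⟨Finset.subset_univ _, card_S0⟩
  unfold Qsum
  rw [← Finset.add_sum_erase _ _ hmem, G_S0]
  ring

/-- A set of `k` coordinates other than `α` contains a coordinate of `β` and misses one
of `α`. -/
lemma exists_swap {S : Finset (Ix k)} (hc : S.card = k) (hS : S ≠ S0 k) :
    (∃ j : Fin k, (Sum.inr j : Ix k) ∈ S) ∧ ∃ l : Fin k, (Sum.inl l : Ix k) ∉ S := by
  constructor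
  · by_contra h
    push Not at h
    apply hS
    refine Finset.eq_of_subset_of_card_le (fun i hi => ?_) (by rw [hc, card_S0])
    rcases i with i | i
    · exact inl_mem_S0 i
    · exact absurd hi (h i)
  · by_contra h
    push Not at h
    apply hS
    symm
    refine Finset.eq_of_subset_of_card_le (fun i hi => ?_) (by rw [hc, card_S0])
    rcases i with i | i
    · exact h i
    · exact absurd hi (inr_notMem_S0 i)

lemma exists_norm_chi_decay : ∃ C : ℝ, 1 ≤ C ∧ ∀ s : ℂ, 1 / 2 ≤ s.re → s.re ≤ 3 / 4 →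
    ∀ B t u : ℝ, 0 ≤ B → 0 ≤ u → u ≤ s.re - 1 / 2 → 1 + |t| ≤ (1 + B) * (1 + |s.im|) →
    ‖chi s‖ ≤ C * (1 + B) * (1 + |t|) ^ (-u) := by
  obtain ⟨C, hC0, hC⟩ := exists_norm_chi_le
  refine ⟨max (25 * C) 200, le_trans (by norm_num) (le_max_right _ _),
    fun s h0 h1 B t u hB hu hus ht => ?_⟩
  have ht0 : 0 ≤ |t| := abs_nonneg _
  have hp : 0 < (1 + |t|) ^ (-u) := by positivity
  have hu1 : u ≤ 1 := by linarith
  -- one inequality for both cases
  have key : ∀ A : ℝ, 1 ≤ A → 1 + |t| ≤ (1 + B) * A → A ^ (-u) ≤ (1 + B) * (1 + |t|) ^ (-u) := by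
    intro A hA hle
    have hA0 : 0 < A := by linarith
    have h2 : (1 + |t|) ^ u ≤ (1 + B) * A ^ u := by
      calc (1 + |t|) ^ u ≤ ((1 + B) * A) ^ u := by gcongr
        _ = (1 + B) ^ u * A ^ u := Real.mul_rpow (by linarith) hA0.le
        _ ≤ (1 + B) ^ (1:ℝ) * A ^ u := by
            gcongr
            linarith
        _ = _ := by rw [Real.rpow_one]
    rw [Real.rpow_neg hA0.le, Real.rpow_neg (by positivity), inv_eq_one_div, div_le_iff₀
      (by positivity), mul_assoc, mul_comm ((1 + |t|) ^ u)⁻¹, ← mul_assoc, ← div_eq_mul_inv,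
      le_div_iff₀ (by positivity), one_mul]
    exact h2
  rcases le_total |s.im| 4 with h | h
  · have h2 : ‖chi s‖ ≤ C * 5 := by
      refine (hC s (by linarith) h1).trans ?_
      gcongr
      linarith
    have h3 := key 5 (by norm_num) (ht.trans (by gcongr; linarith))
    have h4 : (1:ℝ) ≤ 5 * 5 ^ (-u) := by
      have : (5:ℝ) * 5 ^ (-u) = 5 ^ (1 - u) := by
        rw [sub_eq_add_neg, Real.rpow_add (by norm_num), Real.rpow_one]
      rw [this]
      exact Real.one_le_rpow (by norm_num) (by linarith)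
    calc ‖chi s‖ ≤ C * 5 * 1 := by rw [mul_one]; exact h2
      _ ≤ C * 5 * (5 * ((1 + B) * (1 + |t|) ^ (-u))) := by
          gcongr
          linarith
      _ = 25 * C * (1 + B) * (1 + |t|) ^ (-u) := by ring
      _ ≤ _ := by
          gcongr
          exact le_max_left _ _
  · have h2 := norm_chi_le_of_im (s := s) (by linarith) (by linarith) h
    have h3 : |s.im| ^ (1 / 2 - s.re) ≤ |s.im| ^ (-u) := by
      apply Real.rpow_le_rpow_of_exponent_le (by linarith)
      linarith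
    have h4 := key (2 * |s.im|) (by linarith) (ht.trans (by gcongr; linarith))
    have h5 : |s.im| ^ (-u) ≤ 2 * (2 * |s.im|) ^ (-u) := by
      rw [Real.mul_rpow (by norm_num) (by linarith)]
      have : (1:ℝ) ≤ 2 * 2 ^ (-u) := by
        have : (2:ℝ) * 2 ^ (-u) = 2 ^ (1 - u) := by
          rw [sub_eq_add_neg, Real.rpow_add (by norm_num), Real.rpow_one]
        rw [this]
        exact Real.one_le_rpow (by norm_num) (by linarith)
      nlinarith [Real.rpow_nonneg (show 0 ≤ |s.im| by linarith) (-u)]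
    calc ‖chi s‖ ≤ 40 * (2 * ((1 + B) * (1 + |t|) ^ (-u))) := by
          refine h2.trans ?_
          gcongr
          linarith
      _ = 80 * (1 + B) * (1 + |t|) ^ (-u) := by ring
      _ ≤ _ := by
          gcongr
          exact le_trans (by norm_num) (le_max_right _ _)

end Pool.Agent.H26
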