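import Pool.Agent.H26.Euler
import Pool.Agent.H26.Chi
import Pool.Agent.H26.ZetaGrowth

/-!
Symmetries of the main term.
-/

set_option linter.unusedSectionVars false

namespace Pool.Agent.H26

open Complex Finset

section general

variable {ι : Type*} [Fintype ι] [DecidableEq ι]

lemma compl_map_perm (σ : Equiv.Perm ι) (S : Finset ι) :
    (S.map σ.toEmbedding)ᶜ = Sᶜ.map σ.toEmbedding := by
  ext i
  simp only [mem_compl, mem_map_equiv]

lemma hsum_map (σ : Equiv.Perm ι) (S : Finset ι) (x : ι → ℂ) (m : ℕ) :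
    hsum (S.map σ.toEmbedding) x m = hsum S (fun i => x (σ i)) m := by
  unfold hsum
  refine Finset.sum_bij' (fun e _ => fun i => e (σ i)) (fun e _ => fun i => e (σ.symm i))
    ?_ ?_ ?_ ?_ ?_
  · intro e he
    rw [mem_piAntidiag] at he ⊢
    constructor
    · have := he.1
      rw [Finset.sum_map] at this
      exact this
    · intro i hi
      have := he.2 (σ i) hi
      simpa using this
  · intro e he
    rw [mem_piAntidiag] at he ⊢
    constructor
    · rw [Finset.sum_map]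
      simpa using he.1
    · intro i hi
      have := he.2 (σ.symm i) hi
      rw [mem_map_equiv]
      exact this
  · intro e _
    funext i
    simp
  · intro e _
    funext i
    simp
  · intro e _
    rw [Finset.prod_map]
    rfl

lemma prod_prod_map (σ : Equiv.Perm ι) (S : Finset ι) (f : ι → ι → ℂ) :
    ∏ j ∈ S.map σ.toEmbedding, ∏ l ∈ (S.map σ.toEmbedding)ᶜ, f j l =
      ∏ j ∈ S, ∏ l ∈ Sᶜ, f (σ j) (σ l) := by
  rw [compl_map_perm, Finset.prod_map]
  refine Finset.prod_congr rfl fun j _ => ?_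
  rw [Finset.prod_map]
  rfl

lemma localF_map (σ : Equiv.Perm ι) (S : Finset ι) (γ : ι → ℂ) (p : ℕ) :
    localF (S.map σ.toEmbedding) γ p = localF S (fun i => γ (σ i)) p := by
  unfold localF
  rw [prod_prod_map σ S (fun j l => (1 - (p : ℂ) ^ (-(1 + I * (γ j - γ l)))))]
  congr 1
  refine tsum_congr fun m => ?_
  rw [compl_map_perm, hsum_map, hsum_map]

lemma eulerF_map (σ : Equiv.Perm ι) (S : Finset ι) (γ : ι → ℂ) :
    eulerF (S.map σ.toEmbedding) γ = eulerF S (fun i => γ (σ i)) := by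
  unfold eulerF
  exact tprod_congr fun p => localF_map σ S γ p

end general

lemma chi_mul_chi {s : ℂ} (h0 : 0 < s.re) (h1 : s.re < 1) : chi s * chi (1 - s) = 1 := by
  unfold chi
  have hpi : (Real.pi : ℂ) ≠ 0 := by exact_mod_cast Real.pi_ne_zero
  have hG1 : Gamma (s / 2) ≠ 0 := Gamma_ne_zero_of_re_pos (by simpa using h0)
  have hG2 : Gamma ((1 - s) / 2) ≠ 0 := Gamma_ne_zero_of_re_pos (by simp; linarith)
  have e1 : (1 - (1 - s)) / 2 = s / 2 := by ring
  have e2 : (Real.pi : ℂ) ^ (s - 1 / 2) * (Real.pi : ℂ) ^ (1 - s - 1 / 2) = 1 := by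
    rw [← Complex.cpow_add _ _ hpi]
    have : s - 1 / 2 + (1 - s - 1 / 2) = 0 := by ring
    rw [this, Complex.cpow_zero]
  rw [e1]
  calc _ = ((Real.pi : ℂ) ^ (s - 1 / 2) * (Real.pi : ℂ) ^ (1 - s - 1 / 2)) *
        (Gamma ((1 - s) / 2) * (Gamma ((1 - s) / 2))⁻¹) * (Gamma (s / 2) * (Gamma (s / 2))⁻¹) := by
        ring
    _ = 1 := by rw [e2, mul_inv_cancel₀ hG2, mul_inv_cancel₀ hG1]; ring

variable {k : ℕ}

/-- The value of `χ` attached to a shift `g`. -/
noncomputable def X (t g : ℂ) : ℂ := chi (1 / 2 + I * (t + g))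

lemma X_re {t g : ℂ} (h : |(t + g).im| < 1 / 2) :
    0 < (1 / 2 + I * (t + g)).re ∧ (1 / 2 + I * (t + g)).re < 1 := by
  have := abs_lt.1 h
  simp at this ⊢
  constructor <;> linarith [this.1, this.2]

lemma X_mul {t g : ℂ} (h : |(t + g).im| < 1 / 2) : chi (1 / 2 - I * (t + g)) * X t g = 1 := by
  obtain ⟨h0, h1⟩ := X_re h
  have := chi_mul_chi h0 h1
  have e : 1 - (1 / 2 + I * (t + g)) = 1 / 2 - I * (t + g) := by ring
  rw [e] at this
  rw [X, mul_comm]
  exact this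

lemma X_ne_zero {t g : ℂ} (h : |(t + g).im| < 1 / 2) : X t g ≠ 0 := by
  intro h0
  have := X_mul h
  rw [h0, mul_zero] at this
  exact zero_ne_one this

lemma G_mul (S : Finset (Fin k ⊕ Fin k)) {γ : Fin k ⊕ Fin k → ℂ} {t : ℂ}
    (h : ∀ i, |(t + γ i).im| < 1 / 2) :
    G S γ t * ∏ j, X t (γ (Sum.inr j)) = ∏ i ∈ Sᶜ, X t (γ i) := by
  have e1 : ∏ i ∈ Sᶜ, X t (γ i) = ∏ i, if i ∈ S then 1 else X t (γ i) := by
    rw [← Finset.prod_filter_mul_prod_filter_not univ (fun i => i ∈ S)]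
    have a1 : ∏ x ∈ univ.filter (fun i => i ∈ S), (if x ∈ S then 1 else X t (γ x)) = 1 :=
      Finset.prod_eq_one fun x hx => by rw [if_pos (Finset.mem_filter.1 hx).2]
    have a2 : ∏ x ∈ univ.filter (fun i => ¬ i ∈ S), (if x ∈ S then 1 else X t (γ x)) =
        ∏ i ∈ Sᶜ, X t (γ i) := by
      have : univ.filter (fun i => ¬ i ∈ S) = Sᶜ := by ext; simp
      rw [this]
      exact Finset.prod_congr rfl fun x hx => by rw [if_neg (Finset.mem_compl.1 hx)]
    rw [a1, a2, one_mul]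
  rw [e1, Fintype.prod_sum_type, G, mul_right_comm, mul_comm, ← Finset.prod_mul_distrib]
  congr 1
  refine Finset.prod_congr rfl fun j _ => ?_
  split_ifs with hj
  · exact X_mul (h _)
  · rw [one_mul]

lemma G_map_of_eq (σ : Equiv.Perm (Fin k ⊕ Fin k)) (S : Finset (Fin k ⊕ Fin k))
    {γ : Fin k ⊕ Fin k → ℂ} {t : ℂ} (h : ∀ i, |(t + γ i).im| < 1 / 2)
    (hγ : ∀ i, γ (σ i) = γ i) :
    G (S.map σ.toEmbedding) γ t = G S γ t := by
  have h1 := G_mul (S.map σ.toEmbedding) h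
  have h2 := G_mul S h
  rw [compl_map_perm, Finset.prod_map] at h1
  have h3 : ∏ i ∈ Sᶜ, X t (γ (σ.toEmbedding i)) = ∏ i ∈ Sᶜ, X t (γ i) :=
    Finset.prod_congr rfl fun i _ => by
      rw [Equiv.coe_toEmbedding, hγ i]
  rw [h3, ← h2] at h1
  refine mul_right_cancel₀ ?_ h1
  exact Finset.prod_ne_zero_iff.2 fun j _ => X_ne_zero (h _)

end Pool.Agent.H26
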