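import Pool.Agent.H26.LA5

/-!
Averages over the antidiagonal line: all shifts.
-/

set_option autoImplicit false

namespace Pool.Agent.H26

open Complex Finset Filter Topology MeasureTheory

variable {k : ℕ}

/-- The error is continuous in the shifts. -/
lemma continuous_Er (T : ℝ) : Continuous fun γ : Ix k → ℝ => Er γ T := by
  rw [continuous_iff_continuousAt]
  intro γ₀
  obtain ⟨r, hr⟩ := exists_adm γ₀
  set g : (Ix k → ℝ) → Ix k → ℂ := fun y i =>
    ((max (γ₀ i - r i / 2) (min (y i) (γ₀ i + r i / 2)) : ℝ) : ℂ) with hg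
  have hgc : Continuous g := by
    refine continuous_pi fun i => Complex.continuous_ofReal.comp ?_
    exact continuous_const.max ((continuous_apply i).min continuous_const)
  have hgm : ∀ y, g y ∈ polyD (fun i => (γ₀ i : ℂ)) r := by
    intro y i
    have hri := hr.pos i
    rw [Metric.mem_ball, hg]
    simp only
    rw [Complex.dist_eq, ← Complex.ofReal_sub, Complex.norm_real, Real.norm_eq_abs, abs_lt]
    have h1 : γ₀ i - r i / 2 ≤ max (γ₀ i - r i / 2) (min (y i) (γ₀ i + r i / 2)) :=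
      le_max_left _ _
    have h2 : max (γ₀ i - r i / 2) (min (y i) (γ₀ i + r i / 2)) ≤ γ₀ i + r i / 2 :=
      max_le (by linarith) (min_le_right _ _)
    constructor <;> linarith
  have hF := continuous_Fext_comp hr hgc hgm T
  have hev : ∀ᶠ y in 𝓝 γ₀, Er y T = Fext (fun i => (γ₀ i : ℂ)) r T (g y) := by
    have h1 : ∀ᶠ y : Ix k → ℝ in 𝓝 γ₀, ∀ i, |y i - γ₀ i| < r i / 2 := by
      rw [Filter.eventually_all]
      intro i
      have hc : Continuous fun y : Ix k → ℝ => |y i - γ₀ i| := by fun_prop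
      have := hr.pos i
      exact (hc.tendsto γ₀).eventually (gt_mem_nhds (by simp; linarith))
    filter_upwards [h1] with y hy
    have e : g y = fun i => ((y i : ℝ) : ℂ) := by
      funext i
      have h2 := abs_lt.1 (hy i)
      rw [hg]
      simp only
      rw [min_eq_left (by linarith), max_eq_right (by linarith)]
    rw [e]
    exact Er_eq_Fext hr (by rw [← e]; exact hgm y) T
  exact (continuousAt_congr hev).2 hF.continuousAt

lemma exists_Er_le_inj (k : ℕ) (T : ℝ) : ∃ C : ℝ, 0 ≤ C ∧ ∀ γ : Ix k → ℝ,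
    Function.Injective γ → ∀ B : ℝ, 0 ≤ B → (∀ i, |γ i| ≤ B) → ‖Er γ T‖ ≤ C * (1 + B) ^ NK k := by
  obtain ⟨CQ, hCQ0, hCQ⟩ := exists_norm_Qsum_le k (ρ := 1 / 8) (by norm_num)
  refine ⟨((6 * (1 + |T|)) ^ (2 * k) + CQ * (1 + |T|) ^ (2 * k)) * |T|, by positivity,
    fun γ hinj B hB hγ => ?_⟩
  rw [Er_eq_integral hinj]
  have h := intervalIntegral.norm_integral_le_of_norm_le_const (a := (0:ℝ)) (b := T)
    (C := ((6 * (1 + |T|)) ^ (2 * k) + CQ * (1 + |T|) ^ (2 * k)) * (1 + B) ^ NK k)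
    (f := fun t : ℝ => Zc (fun i => (γ i : ℂ)) t - Qsum (fun i => (γ i : ℂ)) t) ?_
  · refine h.trans (le_of_eq ?_)
    rw [sub_zero]
    ring
  · intro t ht
    have htT : |t| ≤ |T| := by
      rcases le_total 0 T with h0 | h0
      · rw [Set.uIoc_of_le h0] at ht
        rw [abs_of_pos ht.1, abs_of_nonneg h0]
        exact ht.2
      · rw [Set.uIoc_of_ge h0] at ht
        rw [abs_of_nonpos ht.2, abs_of_nonpos h0]
        linarith [ht.1]
    have h1 := norm_Zc_le (γ := fun i => (γ i : ℂ)) (ofReal_mem_tube γ) (t := t) hB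
      (fun i => by simpa using hγ i)
    have h2 := hCQ (fun i => (γ i : ℂ)) (injective_ofReal_comp hinj) (fun i => by simp) B hB
      (fun i => by simpa using hγ i) t
    refine (norm_sub_le _ _).trans ((add_le_add h1 h2).trans ?_)
    have h3 : ((6 + 3 * B) * (1 + |t|)) ^ (2 * k) ≤
        (6 * (1 + |T|)) ^ (2 * k) * (1 + B) ^ NK k := by
      calc ((6 + 3 * B) * (1 + |t|)) ^ (2 * k)
          ≤ ((6 * (1 + B)) * (1 + |T|)) ^ (2 * k) := by
            gcongr
            linarith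
        _ = (6 * (1 + |T|)) ^ (2 * k) * (1 + B) ^ (2 * k) := by
            rw [← mul_pow]; ring
        _ ≤ (6 * (1 + |T|)) ^ (2 * k) * (1 + B) ^ NK k := by
            have h4 : (1 + B) ^ (2 * k) ≤ (1 + B) ^ NK k :=
              pow_le_pow_right₀ (by linarith) (by unfold NK; omega)
            gcongr
    have h4 : CQ * (1 + B) ^ NK k * (1 + |t|) ^ (2 * k) ≤
        CQ * (1 + |T|) ^ (2 * k) * (1 + B) ^ NK k := by
      calc CQ * (1 + B) ^ NK k * (1 + |t|) ^ (2 * k)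
          ≤ CQ * (1 + B) ^ NK k * (1 + |T|) ^ (2 * k) := by gcongr
        _ = _ := by ring
    calc _ ≤ _ := add_le_add h3 h4
      _ = _ := by ring

lemma exists_seq_injective (γ : Ix k → ℝ) : ∃ u : ℕ → Ix k → ℝ,
    (∀ n, Function.Injective (u n)) ∧ Tendsto u atTop (𝓝 γ) :=
  mem_closure_iff_seq_limit.1 (dense_injective γ)

lemma eventually_abs_le {γ : Ix k → ℝ} {u : ℕ → Ix k → ℝ} (hu : Tendsto u atTop (𝓝 γ)) {B : ℝ}
    (hB : ∀ i, |γ i| ≤ B) : ∀ᶠ n in atTop, ∀ i, |u n i| ≤ B + 1 := by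
  rw [Filter.eventually_all]
  intro i
  have h1 := ((tendsto_pi_nhds.1 hu) i).abs
  exact (h1.eventually (gt_mem_nhds (show |γ i| < B + 1 by linarith [hB i]))).mono
    fun n hn => hn.le

lemma exists_Er_le (k : ℕ) (T : ℝ) : ∃ C : ℝ, 0 ≤ C ∧ ∀ γ : Ix k → ℝ,
    ∀ B : ℝ, 0 ≤ B → (∀ i, |γ i| ≤ B) → ‖Er γ T‖ ≤ C * (1 + B) ^ NK k := by
  obtain ⟨C, hC0, hC⟩ := exists_Er_le_inj k T
  refine ⟨C * 2 ^ NK k, by positivity, fun γ B hB hγ => ?_⟩
  obtain ⟨u, hu1, hu2⟩ := exists_seq_injective γ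
  have h1 : Tendsto (fun n => ‖Er (u n) T‖) atTop (𝓝 ‖Er γ T‖) :=
    (((continuous_Er T).tendsto γ).comp hu2).norm
  refine le_of_tendsto h1 ?_
  filter_upwards [eventually_abs_le hu2 hγ] with n hn
  refine (hC (u n) (hu1 n) (B + 1) (by linarith) hn).trans ?_
  rw [mul_assoc, ← mul_pow]
  gcongr
  linarith

lemma abs_gr_le {a b : Fin k → ℝ} {B : ℝ} (ha : ∀ j, |a j| ≤ B) (hb : ∀ j, |b j| ≤ B) (x : ℝ)
    (i : Ix k) : |gr a b x i| ≤ B + |x| := by
  rcases i with i | i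
  · show |a i + x| ≤ B + |x|
    exact (abs_add_le _ _).trans (by linarith [ha i])
  · show |b i - x| ≤ B + |x|
    exact (abs_sub _ _).trans (by linarith [hb i])

lemma continuous_gr (a b : Fin k → ℝ) : Continuous (gr a b) := by
  refine continuous_pi fun i => ?_
  rcases i with i | i
  · show Continuous fun x => a i + x
    fun_prop
  · show Continuous fun x => b i - x
    fun_prop

lemma weight_mul_Er_le {a b : Fin k → ℝ} {B T C : ℝ} (hB : 0 ≤ B)
    (hC0 : 0 ≤ C) (hC : ∀ γ : Ix k → ℝ, ∀ B : ℝ, 0 ≤ B → (∀ i, |γ i| ≤ B) →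
      ‖Er γ T‖ ≤ C * (1 + B) ^ NK k)
    (ha : ∀ j, |a j| ≤ B) (hb : ∀ j, |b j| ≤ B) {w : ℂ → ℂ} {M : ℝ}
    (hw : Wt (AK k) M (1 / 8) w) (x : ℝ) :
    ‖w x * Er (gr a b x) T‖ ≤ M * (C * (1 + B) ^ NK k) * (1 + x ^ 2)⁻¹ := by
  have hx := abs_nonneg x
  have h1 := hC (gr a b x) (B + |x|) (by positivity) (abs_gr_le ha hb x)
  have h2 : C * (1 + (B + |x|)) ^ NK k ≤ C * (1 + B) ^ NK k * (1 + |x|) ^ NK k := by
    rw [mul_assoc, ← mul_pow]
    gcongr
    have := mul_nonneg hB hx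
    nlinarith
  have h3 := weight_mul_le hw (m := NK k) (K := C * (1 + B) ^ NK k) (NK_le_AK k)
    (z := (x : ℂ)) (by simp) (by simp) (u := Er (gr a b x) T) (by
      rw [Complex.ofReal_re]
      exact h1.trans h2)
  rw [Complex.ofReal_re] at h3
  exact h3

/-- The average over the antidiagonal line. -/
theorem exists_avg (k : ℕ) {ρ : ℝ} (hρ : 0 < ρ)
    (hρ1 : ρ ≤ 1 / 64) {η : ℝ} (hη : 0 < η) (hη1 : η ≤ 2 / 5) :
    ∃ C : ℝ, 0 ≤ C ∧ ∀ B : ℝ, 0 ≤ B →
    ∀ a b : Fin k → ℝ, (∀ j, |a j| ≤ B) → (∀ j, |b j| ≤ B) →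
    ∀ (w : ℂ → ℂ) (M M₁ : ℝ), Wt (AK k) M (1 / 8) w → Wt (AK k) M₁ (1 / 2 + η) w →
    ∀ T : ℝ, 1 ≤ T → Integrable (fun x : ℝ => w x * Er (gr a b x) T) ∧
    ‖∫ x : ℝ, w x * Er (gr a b x) T‖ ≤
      C * (1 + B) ^ NB k * (M₁ + M * T ^ (3 / 4 + 4 * ρ)) := by
  obtain ⟨C₁, hC₁0, hC₁⟩ := exists_avg_generic k hρ hρ1 hη hη1
  refine ⟨C₁ * 2 ^ NB k, by positivity, fun B hB a b ha hb w M M₁ hw hw1 T hT => ?_⟩
  have hM := hw.nonneg (by norm_num)
  have hM1 := hw1.nonneg (by linarith)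
  obtain ⟨CE, hCE0, hCE⟩ := exists_Er_le k T
  have hwc : Continuous fun x : ℝ => w x := by
    have := hw.continuous_line (y := 0) (by norm_num) (by norm_num)
    simpa using this
  have hcont : ∀ a b : Fin k → ℝ, Continuous fun x : ℝ => w x * Er (gr a b x) T :=
    fun a b => hwc.mul ((continuous_Er T).comp (continuous_gr a b))
  refine ⟨Integrable.mono' (integrable_inv_one_add_sq.const_mul (M * (CE * (1 + B) ^ NK k)))
    (hcont a b).aestronglyMeasurable (Filter.Eventually.of_forall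
      (weight_mul_Er_le hB hCE0 hCE ha hb hw)), ?_⟩
  obtain ⟨u, hu1, hu2⟩ := exists_seq_injective (g0 a b)
  have hev := eventually_abs_le hu2 (B := B) (fun i => by
    rcases i with i | i
    · exact ha i
    · exact hb i)
  set a' : ℕ → Fin k → ℝ := fun n j => u n (Sum.inl j) with ha'
  set b' : ℕ → Fin k → ℝ := fun n j => u n (Sum.inr j) with hb'
  have hlim : Tendsto (fun n => ∫ x : ℝ, w x * Er (gr (a' n) (b' n) x) T) atTop
      (𝓝 (∫ x : ℝ, w x * Er (gr a b x) T)) := by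
    refine tendsto_integral_filter_of_dominated_convergence
      (fun x => M * (CE * (1 + (B + 1)) ^ NK k) * (1 + x ^ 2)⁻¹) ?_ ?_
      (integrable_inv_one_add_sq.const_mul _) ?_
    · exact Filter.Eventually.of_forall fun n => (hcont _ _).aestronglyMeasurable
    · filter_upwards [hev] with n hn
      exact Filter.Eventually.of_forall (weight_mul_Er_le (by linarith) hCE0 hCE
        (fun j => hn (Sum.inl j)) (fun j => hn (Sum.inr j)) hw)
    · refine Filter.Eventually.of_forall fun x => Tendsto.const_mul _ ?_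
      refine ((continuous_Er T).tendsto (gr a b x)).comp ?_
      rw [tendsto_pi_nhds]
      intro i
      have h1 := (tendsto_pi_nhds.1 hu2) i
      rcases i with i | i
      · exact h1.add_const x
      · exact h1.sub_const x
  have hCle : C₁ * (1 + (B + 1)) ^ NB k ≤ C₁ * 2 ^ NB k * (1 + B) ^ NB k := by
    rw [mul_assoc, ← mul_pow]
    gcongr
    linarith
  refine le_trans ?_ (mul_le_mul_of_nonneg_right hCle
    (a := M₁ + M * T ^ (3 / 4 + 4 * ρ)) (by positivity))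
  refine le_of_tendsto hlim.norm ?_
  filter_upwards [hev] with n hn
  refine hC₁ (B + 1) (by linarith) (a' n) (b' n) (fun j => hn (Sum.inl j))
    (fun j => hn (Sum.inr j)) ?_ ?_ w M M₁ hw hw1 T hT
  · intro i j hij
    exact Sum.inl_injective (hu1 n hij)
  · intro i j hij
    exact Sum.inr_injective (hu1 n hij)

end Pool.Agent.H26
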