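import Mathlib

/-!
Holomorphy of parametric integrals over a compact interval.
-/

namespace Pool.Agent.H26

open MeasureTheory Set Filter Topology

lemma differentiableOn_intervalIntegral {Φ : ℝ → ℂ → ℂ} {a b : ℝ} {U : Set ℂ} (hU : IsOpen U)
    (hc : ContinuousOn (fun q : ℝ × ℂ => Φ q.1 q.2) (univ ×ˢ U))
    (hd : ∀ t, DifferentiableOn ℂ (Φ t) U) :
    DifferentiableOn ℂ (fun x => ∫ t in a..b, Φ t x) U := by
  intro x₀ hx₀
  obtain ⟨ε', hε', hball'⟩ := Metric.isOpen_iff.1 hU x₀ hx₀
  set ε : ℝ := ε' / 4 with hε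
  have hε0 : 0 < ε := by positivity
  have hball : Metric.closedBall x₀ (2 * ε) ⊆ U :=
    (Metric.closedBall_subset_ball (by rw [hε]; linarith)).trans hball'
  have hK : IsCompact ((uIcc a b) ×ˢ Metric.closedBall x₀ (2 * ε)) :=
    isCompact_uIcc.prod (isCompact_closedBall _ _)
  obtain ⟨M, hM⟩ := hK.exists_bound_of_continuousOn
    (hc.mono (Set.prod_mono (subset_univ _) hball))
  have hsec : ∀ x ∈ U, Continuous fun t => Φ t x := by
    intro x hx
    have h1 : Continuous fun t : ℝ => ((t, x) : ℝ × ℂ) := by fun_prop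
    exact hc.comp_continuous h1 fun t => ⟨mem_univ _, hx⟩
  have hh : ∀ n : ℕ, (0:ℝ) < ε / (n + 1) := fun n => by positivity
  have hhmem : ∀ n : ℕ, x₀ + ((ε / (n + 1) : ℝ) : ℂ) ∈ U := by
    intro n
    apply hball
    rw [Metric.mem_closedBall, dist_eq_norm, add_sub_cancel_left, Complex.norm_real,
      Real.norm_eq_abs, abs_of_pos (hh n)]
    have : ε / (n + 1) ≤ ε := div_le_self hε0.le (by linarith [Nat.cast_nonneg (α := ℝ) n])
    linarith
  have hlim : Tendsto (fun n : ℕ => ((ε / (n + 1) : ℝ) : ℂ)) atTop (𝓝[≠] 0) := by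
    refine tendsto_nhdsWithin_of_tendsto_nhds_of_eventually_within _ ?_ ?_
    · have h1 : Tendsto (fun n : ℕ => ε / ((n : ℝ) + 1)) atTop (𝓝 0) :=
        tendsto_const_div_atTop_nhds_zero_nat ε |>.comp (tendsto_add_atTop_nat 1) |>.congr
          fun n => by simp
      have := (Complex.continuous_ofReal.tendsto 0).comp h1
      rw [Complex.ofReal_zero] at this
      exact this
    · refine Eventually.of_forall fun n => ?_
      simp only [mem_compl_iff, mem_singleton_iff, Complex.ofReal_eq_zero]
      exact (hh n).ne'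
  have hmeas : AEStronglyMeasurable (fun t => deriv (Φ t) x₀) (volume.restrict (uIoc a b)) := by
    refine aestronglyMeasurable_of_tendsto_ae atTop
      (f := fun (n : ℕ) t => (((ε / (n + 1) : ℝ) : ℂ))⁻¹ •
        (Φ t (x₀ + ((ε / (n + 1) : ℝ) : ℂ)) - Φ t x₀)) ?_ ?_
    · intro n
      refine Continuous.aestronglyMeasurable ?_
      simp only [smul_eq_mul]
      exact continuous_const.mul ((hsec _ (hhmem n)).sub (hsec _ hx₀))
    · refine Eventually.of_forall fun t => ?_
      have h1 : HasDerivAt (Φ t) (deriv (Φ t) x₀) x₀ :=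
        ((hd t).differentiableAt (hU.mem_nhds hx₀)).hasDerivAt
      exact (hasDerivAt_iff_tendsto_slope_zero.1 h1).comp hlim
  have key := intervalIntegral.hasDerivAt_integral_of_dominated_loc_of_deriv_le
    (μ := volume) (F := fun x t => Φ t x) (F' := fun x t => deriv (Φ t) x) (x₀ := x₀)
    (s := Metric.ball x₀ ε) (a := a) (b := b) (bound := fun _ => M / ε)
    (Metric.ball_mem_nhds _ hε0) ?_ ?_ hmeas ?_ ?_ ?_
  · exact key.2.differentiableAt.differentiableWithinAt
  · filter_upwards [hU.mem_nhds hx₀] with x hx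
    exact (hsec x hx).aestronglyMeasurable
  · exact (hsec x₀ hx₀).intervalIntegrable _ _
  · refine Eventually.of_forall fun t ht x hx => ?_
    have hx' : dist x x₀ < ε := hx
    refine Complex.norm_deriv_le_of_forall_mem_sphere_norm_le hε0 ?_ ?_
    · refine DifferentiableOn.diffContOnCl_ball (hd t) ?_
      refine (Metric.closedBall_subset_closedBall' ?_).trans hball
      linarith
    · intro z hz
      refine hM (t, z) ⟨uIoc_subset_uIcc ht, ?_⟩
      have hz' : dist z x = ε := hz
      simp only [Metric.mem_closedBall]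
      linarith [dist_triangle z x x₀]
  · exact intervalIntegrable_const
  · refine Eventually.of_forall fun t _ x hx => ?_
    have hxU : x ∈ U := hball ((Metric.ball_subset_closedBall.trans
      (Metric.closedBall_subset_closedBall (by linarith))) hx)
    exact ((hd t).differentiableAt (hU.mem_nhds hxU)).hasDerivAt

end Pool.Agent.H26
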