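import Pool.Agent.H26.Interp

/-!
From almost everywhere bounds to locally uniform bounds for families of analytic functions.
-/

namespace Pool.Agent.H26

open MeasureTheory Set

variable {ι : Type*} [Fintype ι]

/-- Almost all real vectors have distinct coordinates. -/
lemma ae_injective : ∀ᵐ v : ι → ℝ, Function.Injective v := by
  classical
  have h : ∀ p : ι × ι, p.1 ≠ p.2 → ∀ᵐ v : ι → ℝ, v p.1 ≠ v p.2 := by
    intro p hp
    have hker : (LinearMap.ker (LinearMap.proj (R := ℝ) (φ := fun _ : ι => ℝ) p.1 -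
        LinearMap.proj p.2)) ≠ ⊤ := by
      intro h
      have h1 : Pi.single p.1 (1:ℝ) ∈ LinearMap.ker (LinearMap.proj (R := ℝ)
          (φ := fun _ : ι => ℝ) p.1 - LinearMap.proj p.2) := by rw [h]; trivial
      rw [LinearMap.mem_ker] at h1
      simp [Pi.single_eq_of_ne hp.symm] at h1
    have h2 := Measure.addHaar_submodule (volume : Measure (ι → ℝ)) _ hker
    refine measure_mono_null ?_ h2
    intro v hv
    simp only [mem_compl_iff, Set.mem_ofPred_eq, not_not] at hv
    show v ∈ LinearMap.ker _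
    rw [LinearMap.mem_ker]
    simp [hv]
  have h2 : ∀ᵐ v : ι → ℝ, ∀ p : ι × ι, p.1 ≠ p.2 → v p.1 ≠ v p.2 := by
    rw [ae_all_iff]
    intro p
    by_cases hp : p.1 = p.2
    · exact Filter.Eventually.of_forall fun v h => absurd hp h
    · filter_upwards [h p hp] with v hv _ using hv
  filter_upwards [h2] with v hv i j hij
  by_contra hne
  exact hv (i, j) hne hij

/-- A direction along which a small set is seen only for a short time. -/
lemma exists_direction {B : Set (ι → ℝ)} (hB : MeasurableSet B) (γ : ι → ℝ) {ρ s : ℝ}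
    (hρ : 0 < ρ) (hs : 0 < s)
    (hBs : volume B ≤ ENNReal.ofReal ((s / 2) ^ (Fintype.card ι + 1) / ρ)) :
    ∃ v ∈ Icc (0 : ι → ℝ) 1, Function.Injective v ∧
      volume {x : ℝ | x ∈ Ioc 0 ρ ∧ γ + x • v ∈ B} ≤ ENNReal.ofReal s := by
  set n := Fintype.card ι with hn
  have hI : volume (Icc (0 : ι → ℝ) 1) = 1 := by
    rw [Real.volume_Icc_pi]; simp
  set S : Set ((ι → ℝ) × ℝ) := {q | q.2 ∈ Ioc 0 ρ ∧ γ + q.2 • q.1 ∈ B} with hS
  have hSm : MeasurableSet S := by
    refine MeasurableSet.inter (measurable_snd measurableSet_Ioc) ?_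
    have : Continuous fun q : (ι → ℝ) × ℝ => γ + q.2 • q.1 := by fun_prop
    exact this.measurable hB
  have hg : Measurable fun v : ι → ℝ => volume (Prod.mk v ⁻¹' S) :=
    measurable_measure_prodMk_left hSm
  have hN : (volume.restrict (Icc (0 : ι → ℝ) 1))
      ({v : ι → ℝ | ¬ Function.Injective v} ∪ (Icc (0 : ι → ℝ) 1)ᶜ) = 0 := by
    refine measure_union_null ?_ ?_
    · exact Measure.restrict_le_self.absolutelyContinuous ae_injective
    · rw [Measure.restrict_apply measurableSet_Icc.compl, compl_inter_self, measure_empty]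
  have : IsFiniteMeasure (volume.restrict (Icc (0 : ι → ℝ) 1)) :=
    ⟨by rw [Measure.restrict_apply_univ, hI]; exact ENNReal.one_lt_top⟩
  obtain ⟨v, hvN, hvle⟩ := exists_notMem_null_le_laverage
    (μ := volume.restrict (Icc (0 : ι → ℝ) 1)) (f := fun v => volume (Prod.mk v ⁻¹' S))
    (by
      intro h
      have h1 := congrArg (fun μ : Measure (ι → ℝ) => μ univ) h
      simp only [Measure.restrict_apply_univ, hI] at h1
      simp at h1)
    hg.aemeasurable hN
  have hv : v ∈ Icc (0 : ι → ℝ) 1 := by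
    by_contra h
    exact hvN (Or.inr h)
  have hvinj : Function.Injective v := by
    by_contra h
    exact hvN (Or.inl h)
  refine ⟨v, hv, hvinj, ?_⟩
  have e1 : {x : ℝ | x ∈ Ioc 0 ρ ∧ γ + x • v ∈ B} = Prod.mk v ⁻¹' S := rfl
  rw [e1]
  refine hvle.trans ?_
  rw [setLAverage_eq, hI, div_one]
  have e2 : ∫⁻ v in Icc (0 : ι → ℝ) 1, volume (Prod.mk v ⁻¹' S) =
      ∫⁻ x, (volume.restrict (Icc (0 : ι → ℝ) 1)) ((fun v => (v, x)) ⁻¹' S) := by
    rw [← Measure.prod_apply hSm, Measure.prod_apply_symm hSm]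
  rw [e2]
  have hb : ∀ x : ℝ, (volume.restrict (Icc (0 : ι → ℝ) 1)) ((fun v => (v, x)) ⁻¹' S) ≤
      (Ioc 0 (s / 2)).indicator 1 x +
        (Ioc 0 ρ).indicator (fun _ => ENNReal.ofReal ((s / 2) ^ n)⁻¹ * volume B) x := by
    intro x
    by_cases hx : x ∈ Ioc 0 ρ
    · rw [indicator_of_mem hx]
      by_cases hx2 : x ≤ s / 2
      · rw [indicator_of_mem (show x ∈ Ioc 0 (s / 2) from ⟨hx.1, hx2⟩)]
        refine le_add_right ?_
        calc _ ≤ (volume.restrict (Icc (0 : ι → ℝ) 1)) univ := measure_mono (subset_univ _)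
          _ = 1 := by rw [Measure.restrict_apply_univ, hI]
          _ = _ := rfl
      · refine le_add_left ?_
        push Not at hx2
        have hx0 : 0 < x := hx.1
        calc _ ≤ volume ((fun v : ι → ℝ => (v, x)) ⁻¹' S) := Measure.restrict_apply_le _ _
          _ ≤ volume ((fun v : ι → ℝ => x • v) ⁻¹' ((fun w => γ + w) ⁻¹' B)) := by
              refine measure_mono ?_
              intro v hv
              exact hv.2
          _ = ENNReal.ofReal |(x ^ Module.finrank ℝ (ι → ℝ))⁻¹| *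
                volume ((fun w => γ + w) ⁻¹' B) := Measure.addHaar_preimage_smul _ hx0.ne' _
          _ = ENNReal.ofReal |(x ^ n)⁻¹| * volume B := by
              rw [measure_preimage_add, Module.finrank_fintype_fun_eq_card]
          _ ≤ _ := by
              gcongr
              rw [abs_of_pos (by positivity)]
              gcongr
    · have : (fun v : ι → ℝ => (v, x)) ⁻¹' S = ∅ := by
        ext v
        simp only [mem_preimage, mem_empty_iff_false, iff_false]
        intro h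
        exact hx h.1
      rw [this]
      simp
  calc _ ≤ ∫⁻ x, ((Ioc 0 (s / 2)).indicator 1 x +
        (Ioc 0 ρ).indicator (fun _ => ENNReal.ofReal ((s / 2) ^ n)⁻¹ * volume B) x) :=
        lintegral_mono hb
    _ = volume (Ioc 0 (s / 2)) + ENNReal.ofReal ((s / 2) ^ n)⁻¹ * volume B *
          volume (Ioc 0 ρ) := by
        rw [lintegral_add_left (measurable_one.indicator measurableSet_Ioc),
          lintegral_indicator_one measurableSet_Ioc, lintegral_indicator measurableSet_Ioc,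
          setLIntegral_const]
    _ ≤ ENNReal.ofReal (s / 2) + ENNReal.ofReal (s / 2) := by
        rw [Real.volume_Ioc, Real.volume_Ioc, sub_zero, sub_zero]
        gcongr
        calc _ ≤ ENNReal.ofReal ((s / 2) ^ n)⁻¹ *
              ENNReal.ofReal ((s / 2) ^ (n + 1) / ρ) * ENNReal.ofReal ρ := by gcongr
          _ = ENNReal.ofReal (((s / 2) ^ n)⁻¹ * ((s / 2) ^ (n + 1) / ρ) * ρ) := by
              rw [← ENNReal.ofReal_mul (by positivity), ← ENNReal.ofReal_mul (by positivity)]
          _ = _ := by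
              congr 1
              field_simp
              rw [pow_succ]
              ring
    _ = ENNReal.ofReal s := by
        rw [← ENNReal.ofReal_add (by positivity) (by positivity)]
        congr 1
        ring

/-- A family of analytic functions with polynomial bounds which is `O(T^a)` at most real points
of a ball, in the sense of measure, is `O(T^(a+ε))` uniformly on a smaller ball. -/
theorem uniform_of_small_bad {F : ℝ → (ι → ℂ) → ℂ} {γ₀ : ι → ℝ} {r C A a ε : ℝ} (hr : 0 < r)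
    (hbd : ∀ T : ℝ, 1 ≤ T → ∀ z : ι → ℂ, dist z (fun i => (γ₀ i : ℂ)) < r → ‖F T z‖ ≤ C * T ^ A)
    (hhol : ∀ T : ℝ, 1 ≤ T → ∀ γ : ι → ℝ, dist γ γ₀ < r / 2 → ∀ v ∈ Icc (0 : ι → ℝ) 1,
      Function.Injective v → DifferentiableOn ℂ (fun x : ℂ => F T (fun i => (γ i : ℂ) + x * v i))
        (Metric.ball 0 (r / 2)))
    (hcont : ∀ T : ℝ, 1 ≤ T → ContinuousOn (fun γ : ι → ℝ => F T (fun i => (γ i : ℂ)))
      (Metric.ball γ₀ r))
    (hsmall : volume {γ : ι → ℝ | γ ∈ Metric.ball γ₀ r ∧
      ∀ C' : ℝ, ∃ T : ℝ, 1 ≤ T ∧ C' * T ^ a < ‖F T (fun i => (γ i : ℂ))‖} <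
        ENNReal.ofReal (r ^ Fintype.card ι /
          ((16 * (3 : ℝ) ^ (max (A - a) 0 / ε)) ^ Fintype.card ι *
            2000 ^ (Fintype.card ι + 1))))
    (hε : 0 < ε) :
    ∃ C' : ℝ, ∀ γ ∈ Metric.ball γ₀ (r / 4), ∀ T : ℝ, 1 ≤ T →
      ‖F T (fun i => (γ i : ℂ))‖ ≤ C' * T ^ (a + ε) := by
  have hC : 0 ≤ C := by
    have := (norm_nonneg _).trans (hbd 1 le_rfl (fun i => (γ₀ i : ℂ)) (by simpa using hr))
    simpa using this
  -- parameters
  set q : ℝ := max (A - a) 0 with hq
  have hq0 : 0 ≤ q := le_max_right _ _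
  set B : ℝ := (3 : ℝ) ^ (q / ε) with hB
  have hB1 : 1 ≤ B := Real.one_le_rpow (by norm_num) (by positivity)
  have hB0 : 0 < B := by linarith
  set ρ : ℝ := r / (16 * B) with hρ
  have hρ0 : 0 < ρ := by positivity
  have hρr : ρ ≤ r / 16 := by
    rw [hρ]
    apply div_le_div_of_nonneg_left hr.le (by norm_num)
    linarith
  set s : ℝ := ρ / 1000 with hs
  have hs0 : 0 < s := by positivity
  set δ : ENNReal := ENNReal.ofReal ((s / 2) ^ (Fintype.card ι + 1) / ρ) with hδ
  have hδeq : δ = ENNReal.ofReal (r ^ Fintype.card ι /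
      ((16 * (3 : ℝ) ^ (max (A - a) 0 / ε)) ^ Fintype.card ι *
        2000 ^ (Fintype.card ι + 1))) := by
    rw [hδ, ← hq, ← hB, hs]
    congr 1
    have e1 : (ρ / 1000 / 2) ^ (Fintype.card ι + 1) / ρ =
        ρ ^ Fintype.card ι / 2000 ^ (Fintype.card ι + 1) := by
      rw [show ρ / 1000 / 2 = ρ / 2000 by ring, div_pow, pow_succ ρ]
      field_simp
    rw [e1, hρ, div_pow]
    rw [div_div]
  -- exceptional sets
  set O : ℕ → Set (ι → ℝ) := fun N => {γ | γ ∈ Metric.ball γ₀ r ∧
    ∃ T : ℝ, 1 ≤ T ∧ (N : ℝ) * T ^ a < ‖F T (fun i => (γ i : ℂ))‖} with hO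
  have hOopen : ∀ N, IsOpen (O N) := by
    intro N
    have : O N = ⋃ T : ℝ, ⋃ _ : 1 ≤ T, (Metric.ball γ₀ r ∩
        (fun γ : ι → ℝ => ‖F T (fun i => (γ i : ℂ))‖) ⁻¹' (Ioi ((N : ℝ) * T ^ a))) := by
      ext γ
      simp only [hO, Set.mem_ofPred_eq, mem_iUnion, mem_inter_iff, mem_preimage, mem_Ioi]
      constructor
      · rintro ⟨h1, T, h2, h3⟩
        exact ⟨T, h2, h1, h3⟩
      · rintro ⟨T, h2, h1, h3⟩
        exact ⟨h1, T, h2, h3⟩
    rw [this]
    refine isOpen_iUnion fun T => isOpen_iUnion fun hT => ?_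
    exact (hcont T hT).norm.isOpen_inter_preimage Metric.isOpen_ball isOpen_Ioi
  have hOanti : Antitone O := by
    intro N M hNM γ hγ
    obtain ⟨h1, T, h2, h3⟩ := hγ
    refine ⟨h1, T, h2, lt_of_le_of_lt ?_ h3⟩
    have : (N : ℝ) ≤ M := by exact_mod_cast hNM
    gcongr
  have hOlim : Filter.Tendsto (fun N => volume (O N)) Filter.atTop (nhds (volume (⋂ N, O N))) := by
    refine tendsto_measure_iInter_atTop (fun N => (hOopen N).measurableSet.nullMeasurableSet)
      hOanti ⟨0, ?_⟩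
    refine ((measure_mono (show O 0 ⊆ Metric.ball γ₀ r from fun γ hγ => hγ.1)).trans_lt ?_).ne
    exact measure_ball_lt_top
  have hO0 : volume (⋂ N, O N) < δ := by
    rw [hδeq]
    refine lt_of_le_of_lt (measure_mono ?_) hsmall
    intro γ hγ
    rw [mem_iInter] at hγ
    refine ⟨(hγ 0).1, fun C' => ?_⟩
    obtain ⟨N, hN⟩ := exists_nat_ge C'
    obtain ⟨_, T, hT, hlt⟩ := hγ N
    refine ⟨T, hT, lt_of_le_of_lt ?_ hlt⟩
    gcongr
  obtain ⟨N, hN⟩ := ((hOlim.eventually (gt_mem_nhds hO0)).exists)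
  refine ⟨9 * N + 2 * C, fun γ hγ T hT => ?_⟩
  have hT0 : 0 < T := by linarith
  obtain ⟨v, hv, hvinj, hvle⟩ := exists_direction (hOopen N).measurableSet γ hρ0 hs0 hN.le
  have hγ' : dist γ γ₀ < r / 4 := hγ
  have hvn : ∀ i, |v i| ≤ 1 := fun i => by
    rw [abs_of_nonneg (hv.1 i)]; exact hv.2 i
  have hball : ∀ x : ℝ, 0 < x → x ≤ ρ → γ + x • v ∈ Metric.ball γ₀ r := by
    intro x hx0 hx
    rw [Metric.mem_ball]
    calc dist (γ + x • v) γ₀ ≤ dist (γ + x • v) γ + dist γ γ₀ := dist_triangle _ _ _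
      _ ≤ x + dist γ γ₀ := by
          gcongr
          rw [dist_eq_norm, add_sub_cancel_left, norm_smul, Real.norm_eq_abs, abs_of_pos hx0]
          have : ‖v‖ ≤ 1 := (pi_norm_le_iff_of_nonneg zero_le_one).2 hvn
          nlinarith
      _ < _ := by linarith
  set Acl : Set ℝ := {x | γ + x • v ∉ O N} with hAcl
  have hAclosed : IsClosed Acl := by
    have hc : Continuous fun x : ℝ => γ + x • v := by fun_prop
    exact (hOopen N).isClosed_compl.preimage hc
  have hphi : ρ - ρ / 1000 ≤ phiA Acl ρ := by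
    have h1 : (volume (Ioc 0 ρ)).toReal = ρ := by
      rw [Real.volume_Ioc, sub_zero, ENNReal.toReal_ofReal hρ0.le]
    have h2 : volume (Ioc 0 ρ) ≤ volume (Acl ∩ Ioc 0 ρ) + ENNReal.ofReal s := by
      calc volume (Ioc 0 ρ) ≤ volume ((Acl ∩ Ioc 0 ρ) ∪ {x : ℝ | x ∈ Ioc 0 ρ ∧ γ + x • v ∈ O N}) := by
            refine measure_mono fun x hx => ?_
            by_cases h : γ + x • v ∈ O N
            · exact Or.inr ⟨hx, h⟩
            · exact Or.inl ⟨h, hx⟩
        _ ≤ _ := measure_union_le _ _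
        _ ≤ _ := by gcongr
    have h3 := ENNReal.toReal_mono (by
      exact ENNReal.add_ne_top.2 ⟨volume_inter_Ioc_ne_top _ _ _, ENNReal.ofReal_ne_top⟩) h2
    rw [h1, ENNReal.toReal_add (volume_inter_Ioc_ne_top _ _ _) ENNReal.ofReal_ne_top,
      ENNReal.toReal_ofReal hs0.le] at h3
    unfold phiA
    linarith
  set f : ℂ → ℂ := fun x : ℂ => F T (fun i => (γ i : ℂ) + x * v i) with hf
  have hfd : DifferentiableOn ℂ f (Metric.ball 0 (r / 2)) := hhol T hT γ (by linarith) v hv hvinj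
  have hfb : ∀ z ∈ Metric.ball (0:ℂ) (r / 2), ‖f z‖ ≤ C * T ^ A := by
    intro z hz
    refine hbd T hT _ ?_
    rw [mem_ball_zero_iff] at hz
    rw [dist_pi_lt_iff hr]
    intro i
    have h1 : |γ i - γ₀ i| ≤ dist γ γ₀ := by
      rw [← Real.dist_eq]; exact dist_le_pi_dist _ _ i
    calc dist ((γ i : ℂ) + z * v i) (γ₀ i : ℂ) = ‖((γ i - γ₀ i : ℝ) : ℂ) + z * v i‖ := by
          rw [dist_eq_norm]; push_cast; ring_nf
      _ ≤ |γ i - γ₀ i| + ‖z‖ * |v i| := by
          refine (norm_add_le _ _).trans ?_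
          rw [norm_mul, Complex.norm_real, Complex.norm_real, Real.norm_eq_abs, Real.norm_eq_abs]
      _ ≤ |γ i - γ₀ i| + ‖z‖ * 1 := by gcongr; exact hvn i
      _ < r := by linarith
  have hfA : ∀ x ∈ Acl, 0 < x → x ≤ ρ → ‖f x‖ ≤ N * T ^ a := by
    intro x hx hx0 hxρ
    by_contra hcon
    push Not at hcon
    refine hx ⟨hball x hx0 hxρ, T, hT, ?_⟩
    have e : f x = F T (fun i => (((γ + x • v) i : ℝ) : ℂ)) := by
      simp only [hf]
      congr 1
      funext i
      simp
    rw [← e]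
    exact hcon
  set n : ℕ := ⌈ε * Real.log T / Real.log 3⌉₊ + 1 with hn
  have hlog3 : 0 < Real.log 3 := Real.log_pos (by norm_num)
  have hlogT : 0 ≤ Real.log T := Real.log_nonneg hT
  have hmain := norm_zero_le_of_large_set (f := f) (R := r / 2) (M := C * T ^ A)
    (m := N * T ^ a) (ρ := ρ) hAclosed (by positivity) hρ0 (by linarith) hfd hfb
    (by positivity) hfA hphi (n := n) (by omega)
  have hf0 : f 0 = F T (fun i => (γ i : ℂ)) := by simp [hf]
  rw [hf0] at hmain
  have hn1 : ε * Real.log T / Real.log 3 ≤ n := by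
    rw [hn]; push_cast
    have := Nat.le_ceil (ε * Real.log T / Real.log 3)
    linarith
  have hn2 : (n : ℝ) ≤ ε * Real.log T / Real.log 3 + 2 := by
    rw [hn]; push_cast
    have := Nat.ceil_lt_add_one (show 0 ≤ ε * Real.log T / Real.log 3 by positivity)
    linarith
  have h3n : (3:ℝ) ^ n ≤ 9 * T ^ ε := by
    calc (3:ℝ) ^ n = (3:ℝ) ^ (n:ℝ) := (Real.rpow_natCast _ _).symm
      _ ≤ (3:ℝ) ^ (ε * Real.log T / Real.log 3 + 2) := by
          apply Real.rpow_le_rpow_of_exponent_le (by norm_num) hn2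
      _ = (3:ℝ) ^ (ε * Real.log T / Real.log 3) * 9 := by
          rw [Real.rpow_add (by norm_num)]; norm_num
      _ = 9 * T ^ ε := by
          rw [mul_comm, Real.rpow_def_of_pos (by norm_num : (0:ℝ) < 3), Real.rpow_def_of_pos hT0]
          congr 2
          field_simp
  have hBn : (3:ℝ) ^ n * (2 * ρ / (r / 2)) ^ n ≤ T ^ (a - A) := by
    calc (3:ℝ) ^ n * (2 * ρ / (r / 2)) ^ n = (3 / (4 * B)) ^ n := by
          rw [← mul_pow]
          congr 1
          rw [hρ]; field_simp; ring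
      _ ≤ (1 / B) ^ n := by
          apply pow_le_pow_left₀ (by positivity)
          rw [div_le_div_iff₀ (by positivity) hB0]
          nlinarith
      _ = B ^ (-(n:ℝ)) := by
          rw [Real.rpow_neg hB0.le, Real.rpow_natCast, one_div, inv_pow]
      _ ≤ B ^ (-(ε * Real.log T / Real.log 3)) := by
          apply Real.rpow_le_rpow_of_exponent_le hB1
          linarith
      _ = T ^ (-q) := by
          rw [hB, ← Real.rpow_mul (by norm_num), Real.rpow_def_of_pos (by norm_num : (0:ℝ) < 3),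
            Real.rpow_def_of_pos hT0]
          congr 1
          field_simp
      _ ≤ T ^ (a - A) := by
          apply Real.rpow_le_rpow_of_exponent_le hT
          have := le_max_left (A - a) 0
          rw [← hq] at this
          linarith
  calc _ ≤ _ := hmain
    _ = 3 ^ n * (N * T ^ a) + 2 * C * T ^ A * (3 ^ n * (2 * ρ / (r / 2)) ^ n) := by ring
    _ ≤ 9 * T ^ ε * (N * T ^ a) + 2 * C * T ^ A * T ^ (a - A) := by gcongr
    _ = 9 * N * T ^ (a + ε) + 2 * C * T ^ a := by
        have h1 : T ^ (a + ε) = T ^ a * T ^ ε := Real.rpow_add hT0 _ _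
        have h2 : T ^ a = T ^ A * T ^ (a - A) := by
          rw [← Real.rpow_add hT0]; congr 1; ring
        rw [h1]
        nth_rewrite 3 [h2]
        ring
    _ ≤ 9 * N * T ^ (a + ε) + 2 * C * T ^ (a + ε) := by
        gcongr
        linarith
    _ = _ := by ring

end Pool.Agent.H26
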