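import Pool.Agent.H26.Extend
import Pool.Agent.H26.Param
import Pool.Agent.H26.Uniform

/-!
The error term as a function of complex shifts.
-/

set_option linter.unusedSectionVars false

namespace Pool.Agent.H26

open Complex Finset Filter Topology MeasureTheory

/-- The index set of the `2k` shifts. -/
abbrev Ix (k : ℕ) := Fin k ⊕ Fin k

variable {k : ℕ}

/-- The product of zeta values for complex shifts. -/
noncomputable def Zc (γ : Ix k → ℂ) (t : ℂ) : ℂ :=
  ∏ j, (riemannZeta (1 / 2 + I * (t + γ (Sum.inl j))) *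
    riemannZeta (1 / 2 - I * (t + γ (Sum.inr j))))

lemma Z_eq_Zc (γ : Ix k → ℝ) (t : ℝ) :
    Z (fun j => γ (Sum.inl j)) (fun j => γ (Sum.inr j)) t = Zc (fun i => (γ i : ℂ)) t := by
  simp [Z, Zc]

lemma exists_pos_le {κ : Type*} [Finite κ] {φ : κ → ℝ} (h : ∀ i, 0 < φ i) :
    ∃ δ > 0, ∀ i, δ ≤ φ i := by
  rcases isEmpty_or_nonempty κ with h' | h'
  · exact ⟨1, one_pos, fun i => (h'.false i).elim⟩
  · obtain ⟨i, hi⟩ := Finite.exists_min φ
    exact ⟨φ i, h i, hi⟩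

lemma half_ne_one {g : ℂ} (h : |g.im| < 1 / 2) : 1 / 2 + I * g ≠ 1 := by
  intro h1
  have h2 := congrArg Complex.re h1
  have h3 := abs_lt.1 h
  simp at h2
  linarith [h3.1]

lemma half_ne_one' {g : ℂ} (h : |g.im| < 1 / 2) : 1 / 2 - I * g ≠ 1 := by
  intro h1
  have h2 := congrArg Complex.re h1
  have h3 := abs_lt.1 h
  simp at h2
  linarith [h3.2]

lemma continuousAt_Zc {q : ℂ × (Ix k → ℂ)} (hq : q ∈ good k) :
    ContinuousAt (fun q : ℂ × (Ix k → ℂ) => Zc q.2 q.1) q := by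
  unfold Zc
  refine tendsto_finsetProd _ fun j _ => ContinuousAt.mul ?_ ?_
  · have h := (differentiableAt_riemannZeta (half_ne_one (good_im hq (Sum.inl j)))).continuousAt
    exact ContinuousAt.comp (f := fun q : ℂ × (Ix k → ℂ) =>
      (1 / 2 + I * (q.1 + q.2 (Sum.inl j)) : ℂ)) h (by fun_prop)
  · have h := (differentiableAt_riemannZeta (half_ne_one' (good_im hq (Sum.inr j)))).continuousAt
    exact ContinuousAt.comp (f := fun q : ℂ × (Ix k → ℂ) =>
      (1 / 2 - I * (q.1 + q.2 (Sum.inr j)) : ℂ)) h (by fun_prop)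

lemma differentiableOn_Zc_comp {U : Set ℂ} {t : ℂ} (ht : |t.im| < 1 / 4)
    {g : ℂ → Ix k → ℂ} (hg : ∀ i, DifferentiableOn ℂ (fun z => g z i) U)
    (hgU : ∀ z ∈ U, g z ∈ tube (Ix k)) :
    DifferentiableOn ℂ (fun z => Zc (g z) t) U := by
  have hgood : ∀ z ∈ U, (t, g z) ∈ good k := fun z hz => ⟨ht, hgU z hz⟩
  unfold Zc
  refine DifferentiableOn.fun_finsetProd fun j _ => DifferentiableOn.mul ?_ ?_
  · intro z hz
    have h := differentiableAt_riemannZeta (half_ne_one (good_im (hgood z hz) (Sum.inl j)))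
    exact h.comp_differentiableWithinAt (f := fun z => (1 / 2 + I * (t + g z (Sum.inl j)) : ℂ))
      z (((differentiableWithinAt_const _).add (hg _ z hz)).const_mul _ |>.const_add _)
  · intro z hz
    have h := differentiableAt_riemannZeta (half_ne_one' (good_im (hgood z hz) (Sum.inr j)))
    exact h.comp_differentiableWithinAt (f := fun z => (1 / 2 - I * (t + g z (Sum.inr j)) : ℂ))
      z (((differentiableWithinAt_const _).add (hg _ z hz)).const_mul _ |>.const_sub _)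

/-- A bound for zeta near the critical line. -/
lemma norm_zeta_half_le {s : ℂ} (h0 : 3 / 8 ≤ s.re) (h1 : s.re ≤ 5 / 8) {x : ℝ}
    (hx : |s.im| ≤ x) : ‖riemannZeta s‖ ≤ 6 + 3 * x := by
  have hs1 : s ≠ 1 := by
    rintro rfl
    norm_num at h1
  have h := norm_riemannZeta_le (s := s) (by linarith) hs1
  have h2 : ‖s - 1‖⁻¹ ≤ 8 / 3 := by
    have : 3 / 8 ≤ ‖s - 1‖ := by
      have h3 := Complex.abs_re_le_norm (s - 1)
      have h4 : (s - 1).re = s.re - 1 := by simp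
      rw [h4, abs_of_nonpos (by linarith)] at h3
      linarith
    rw [show (8 / 3 : ℝ) = (3 / 8)⁻¹ by norm_num]
    exact inv_anti₀ (by norm_num) this
  have h3 : ‖s‖ ≤ 5 / 8 + x := by
    have := Complex.norm_le_abs_re_add_abs_im s
    rw [abs_of_nonneg (by linarith)] at this
    linarith
  have hx0 : 0 ≤ x := (abs_nonneg _).trans hx
  have h4 : ‖s‖ / s.re ≤ (5 / 8 + x) / (3 / 8) := by
    gcongr
  have h5 : (5 / 8 + x) / (3 / 8) = 5 / 3 + 8 / 3 * x := by ring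
  rw [h5] at h4
  linarith

lemma norm_Zc_le {γ : Ix k → ℂ} (hγ : γ ∈ tube (Ix k)) {t B : ℝ} (hB : 0 ≤ B)
    (hγB : ∀ i, |(γ i).re| ≤ B) : ‖Zc γ t‖ ≤ ((6 + 3 * B) * (1 + |t|)) ^ (2 * k) := by
  have ht0 : 0 ≤ |t| := abs_nonneg _
  have hfac : ∀ x : ℝ, x = |t| + B → 6 + 3 * x ≤ (6 + 3 * B) * (1 + |t|) := by
    rintro x rfl
    nlinarith
  have h1 : ∀ i, ‖riemannZeta (1 / 2 + I * (t + γ i))‖ ≤ (6 + 3 * B) * (1 + |t|) := by
    intro i
    refine (norm_zeta_half_le (x := |t| + B) ?_ ?_ ?_).trans (hfac _ rfl)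
    · have := abs_lt.1 (hγ i)
      simp
      linarith [this.2]
    · have := abs_lt.1 (hγ i)
      simp
      linarith [this.1]
    · have : (1 / 2 + I * (t + γ i)).im = t + (γ i).re := by simp
      rw [this]
      exact (abs_add_le _ _).trans (by linarith [hγB i])
  have h2 : ∀ i, ‖riemannZeta (1 / 2 - I * (t + γ i))‖ ≤ (6 + 3 * B) * (1 + |t|) := by
    intro i
    refine (norm_zeta_half_le (x := |t| + B) ?_ ?_ ?_).trans (hfac _ rfl)
    · have := abs_lt.1 (hγ i)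
      simp
      linarith [this.1]
    · have := abs_lt.1 (hγ i)
      simp
      linarith [this.2]
    · have : (1 / 2 - I * (t + γ i)).im = -(t + (γ i).re) := by simp
      rw [this, abs_neg]
      exact (abs_add_le _ _).trans (by linarith [hγB i])
  unfold Zc
  rw [norm_prod]
  calc _ ≤ ∏ _j : Fin k, (((6 + 3 * B) * (1 + |t|)) * ((6 + 3 * B) * (1 + |t|))) := by
        refine Finset.prod_le_prod (fun _ _ => norm_nonneg _) fun j _ => ?_
        rw [norm_mul]
        exact mul_le_mul (h1 _) (h2 _) (norm_nonneg _) (by positivity)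
    _ = _ := by
        rw [Finset.prod_const, Finset.card_univ, Fintype.card_fin, ← sq, ← pow_mul]

/-- Admissible radii around a real point. -/
lemma exists_adm (γ₀ : Ix k → ℝ) :
    ∃ r : Ix k → ℝ, Adm (fun i => (γ₀ i : ℂ)) r := by
  classical
  obtain ⟨δ, hδ0, hδ⟩ := exists_pos_le (κ := Ix k × Ix k)
    (φ := fun p => if γ₀ p.1 = γ₀ p.2 then (1:ℝ) else |γ₀ p.1 - γ₀ p.2|) (by
      intro p
      split_ifs with h
      · exact one_pos
      · exact abs_pos.2 (sub_ne_zero.2 h))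
  set ρ : ℝ := min (1 / 16) (δ / 3) with hρ
  have hρ0 : 0 < ρ := by positivity
  have hρ1 : ρ ≤ 1 / 16 := min_le_left _ _
  have hρ2 : ρ ≤ δ / 3 := min_le_right _ _
  obtain ⟨e⟩ : Nonempty (Ix k ≃ Fin (Fintype.card (Ix k))) := ⟨Fintype.equivFin _⟩
  set N : ℝ := (Fintype.card (Ix k) : ℝ) + 1 with hN
  have hN0 : 0 < N := by positivity
  set r : Ix k → ℝ := fun i => ρ * (((e i : ℕ) : ℝ) + 1) / N with hr
  have hr0 : ∀ i, 0 < r i := fun i => by
    simp only [hr]; positivity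
  have hr1 : ∀ i, r i < ρ := by
    intro i
    simp only [hr]
    rw [div_lt_iff₀ hN0]
    have : ((e i : ℕ) : ℝ) + 1 < N := by
      rw [hN]
      have := (e i).2
      have : ((e i : ℕ) : ℝ) < Fintype.card (Ix k) := by exact_mod_cast this
      linarith
    exact mul_lt_mul_of_pos_left this hρ0
  have hrinj : ∀ i j, r i = r j → i = j := by
    intro i j hij
    simp only [hr] at hij
    have h1 : ρ * (((e i : ℕ) : ℝ) + 1) = ρ * (((e j : ℕ) : ℝ) + 1) :=
      (div_left_inj' hN0.ne').1 hij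
    have h2 := mul_left_cancel₀ hρ0.ne' h1
    have h3 : ((e i : ℕ) : ℝ) = ((e j : ℕ) : ℝ) := by linarith
    have h4 : (e i : ℕ) = (e j : ℕ) := by exact_mod_cast h3
    exact e.injective (Fin.ext h4)
  refine ⟨r, hr0, ?_, ?_⟩
  · intro i z hz
    have h1 := Complex.abs_im_le_norm (z - (γ₀ i : ℂ))
    rw [← dist_eq_norm] at h1
    have h2 : (z - (γ₀ i : ℂ)).im = z.im := by simp
    rw [h2] at h1
    linarith [hr1 i]
  · intro i j hij z w hz hw hzw
    subst hzw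
    have h1 : dist (γ₀ i : ℂ) (γ₀ j : ℂ) ≤ r i + r j := by
      calc _ ≤ dist (γ₀ i : ℂ) z + dist z (γ₀ j : ℂ) := dist_triangle _ _ _
        _ = _ := by rw [dist_comm (γ₀ i : ℂ), hz, hw]
    have h2 : dist (γ₀ i : ℂ) (γ₀ j : ℂ) = |γ₀ i - γ₀ j| := by
      rw [dist_eq_norm, ← Complex.ofReal_sub, Complex.norm_real, Real.norm_eq_abs]
    rw [h2] at h1
    by_cases h : γ₀ i = γ₀ j
    · have h3 : r i = r j := by rw [← hz, ← hw, h]
      exact hij (hrinj i j h3)
    · have h3 := hδ (i, j)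
      simp only [h, if_false] at h3
      linarith [hr1 i, hr1 j]

section bound

variable {c : Ix k → ℂ} {r : Ix k → ℝ}

lemma isCompact_torus : IsCompact (VL c r []) := by
  have : VL c r [] = Set.pi Set.univ (fun i => Metric.sphere (c i) (r i)) := by
    ext γ
    simp [VL]
  rw [this]
  exact isCompact_univ_pi fun i => isCompact_sphere _ _

lemma exists_zetaAB_bound (h : Adm c r) (S : Finset (Ix k)) :
    ∃ C : ℝ, 0 ≤ C ∧ ∀ γ ∈ VL c r [], ‖zetaAB S γ‖ ≤ C := by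
  have hc : ContinuousOn (zetaAB S) (VL c r []) := fun γ hγ =>
    (continuousAt_zetaAB S (VL_tube h hγ) (VL_nil_injective h hγ)).continuousWithinAt
  obtain ⟨C, hC⟩ := isCompact_torus.exists_bound_of_continuousOn hc
  exact ⟨max C 0, le_max_right _ _, fun γ hγ => (hC γ hγ).trans (le_max_left _ _)⟩

lemma norm_G_le (S : Finset (Ix k)) : ∃ C : ℝ, 1 ≤ C ∧ ∀ γ ∈ tube (Ix k), ∀ t B : ℝ, 0 ≤ B →
    (∀ i, |(γ i).re| ≤ B) → ‖G S γ t‖ ≤ (C * (1 + B) * (1 + |t|)) ^ (2 * k) := by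
  obtain ⟨C, hC0, hC⟩ := exists_norm_chi_le
  refine ⟨max C 1, le_max_right _ _, fun γ hγ t B hB hγB => ?_⟩
  have ht0 : 0 ≤ |t| := abs_nonneg _
  set D : ℝ := max C 1 * (1 + B) * (1 + |t|) with hD
  have hm : 1 ≤ max C 1 := le_max_right _ _
  have hD1 : 1 ≤ D := by
    rw [hD]
    nlinarith [mul_nonneg hB ht0]
  have hfac : ∀ x : ℝ, x ≤ |t| + B → C * (1 + x) ≤ D := by
    intro x hx
    calc C * (1 + x) ≤ C * (1 + (|t| + B)) := by gcongr
      _ ≤ max C 1 * (1 + (|t| + B)) := by gcongr; exact le_max_left _ _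
      _ ≤ max C 1 * ((1 + B) * (1 + |t|)) := by
          gcongr
          nlinarith
      _ = _ := by rw [hD]; ring
  have h1 : ∀ i, ‖chi (1 / 2 + I * (t + γ i))‖ ≤ D := by
    intro i
    have hab := abs_lt.1 (hγ i)
    have h4 : (1 / 2 + I * (t + γ i)).im = t + (γ i).re := by simp
    refine (hC _ ?_ ?_).trans (hfac _ ?_)
    · simp; linarith [hab.2]
    · simp; linarith [hab.1]
    · rw [h4]
      exact (abs_add_le _ _).trans (by linarith [hγB i])
  have h2 : ∀ i, ‖chi (1 / 2 - I * (t + γ i))‖ ≤ D := by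
    intro i
    have hab := abs_lt.1 (hγ i)
    have h4 : (1 / 2 - I * (t + γ i)).im = -(t + (γ i).re) := by simp
    refine (hC _ ?_ ?_).trans (hfac _ ?_)
    · simp; linarith [hab.1]
    · simp; linarith [hab.2]
    · rw [h4, abs_neg]
      exact (abs_add_le _ _).trans (by linarith [hγB i])
  unfold G
  rw [norm_mul, norm_prod, norm_prod, two_mul, pow_add]
  refine mul_le_mul ?_ ?_ (Finset.prod_nonneg fun _ _ => norm_nonneg _) (by positivity)
  · calc _ ≤ ∏ _j : Fin k, D := by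
          refine Finset.prod_le_prod (fun _ _ => norm_nonneg _) fun j _ => ?_
          split_ifs
          · exact h2 _
          · rw [norm_one]; exact hD1
      _ = _ := by rw [Finset.prod_const, Finset.card_univ, Fintype.card_fin]
  · calc _ ≤ ∏ _j : Fin k, D := by
          refine Finset.prod_le_prod (fun _ _ => norm_nonneg _) fun j _ => ?_
          split_ifs
          · rw [norm_one]; exact hD1
          · exact h1 _
      _ = _ := by rw [Finset.prod_const, Finset.card_univ, Fintype.card_fin]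

lemma exists_re_bound (c : Ix k → ℂ) (r : Ix k → ℝ) :
    ∃ B : ℝ, 0 ≤ B ∧ ∀ γ : Ix k → ℂ, (∀ i, dist (γ i) (c i) ≤ r i) → ∀ i, |(γ i).re| ≤ B := by
  refine ⟨∑ i, (‖c i‖ + |r i|), Finset.sum_nonneg fun i _ => by positivity, fun γ hγ i => ?_⟩
  calc |(γ i).re| ≤ ‖γ i‖ := Complex.abs_re_le_norm _
    _ = ‖(γ i - c i) + c i‖ := by ring_nf
    _ ≤ ‖γ i - c i‖ + ‖c i‖ := norm_add_le _ _
    _ ≤ |r i| + ‖c i‖ := by
        gcongr
        rw [← dist_eq_norm]
        exact (hγ i).trans (le_abs_self _)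
    _ ≤ _ := by
        rw [add_comm]
        exact Finset.single_le_sum (f := fun i => ‖c i‖ + |r i|) (fun i _ => by positivity)
          (Finset.mem_univ i)

lemma exists_Qsum_bound (h : Adm c r) : ∃ C : ℝ, 0 ≤ C ∧ ∀ t : ℝ, ∀ γ ∈ VL c r [],
    ‖Qsum γ t‖ ≤ C * (1 + |t|) ^ (2 * k) := by
  obtain ⟨B, hB0, hB⟩ := exists_re_bound c r
  choose CZ hCZ0 hCZ using exists_zetaAB_bound h
  choose CG hCG1 hCG using norm_G_le (k := k)
  refine ⟨∑ S ∈ (univ : Finset (Ix k)).powersetCard k, (CG S * (1 + B)) ^ (2 * k) * CZ S, ?_, ?_⟩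
  · refine Finset.sum_nonneg fun S _ => ?_
    have := hCG1 S
    have := hCZ0 S
    positivity
  · intro t γ hγ
    have hγB : ∀ i, |(γ i).re| ≤ B := hB γ fun i => le_of_eq ((hγ i).2 (by simp))
    unfold Qsum
    rw [Finset.sum_mul]
    refine norm_sum_le_of_le _ fun S _ => ?_
    rw [norm_mul]
    have h1 := hCG S γ (VL_tube h hγ) t B hB0 hγB
    have h2 := hCZ S γ hγ
    have h3 := hCG1 S
    calc _ ≤ (CG S * (1 + B) * (1 + |t|)) ^ (2 * k) * CZ S := by gcongr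
      _ = _ := by rw [mul_pow]; ring

/-- The error for complex shifts in a polydisc. -/
noncomputable def Fext (c : Ix k → ℂ) (r : Ix k → ℝ) (T : ℝ) (γ : Ix k → ℂ) : ℂ :=
  ∫ t in (0:ℝ)..T, (Zc γ t - Qext c r t γ)

lemma continuousOn_integrand (h : Adm c r) :
    ContinuousOn (fun q : ℂ × (Ix k → ℂ) => Zc q.2 q.1 - Qext c r q.1 q.2)
      ({t : ℂ | |t.im| < 1 / 4} ×ˢ polyD c r) := by
  refine ContinuousOn.sub ?_ (continuousOn_Qext h)
  rintro ⟨t, γ⟩ ⟨ht, hγ⟩
  exact (continuousAt_Zc (q := (t, γ)) ⟨ht, polyD_tube h hγ⟩).continuousWithinAt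

lemma im_ofReal_lt (t : ℝ) : |(t : ℂ).im| < 1 / 4 := by simp

lemma mem_strip (t : ℝ) : (t : ℂ) ∈ {t : ℂ | |t.im| < 1 / 4} := im_ofReal_lt t

/-- Continuity of the error in real or complex shifts, jointly with a parameter. -/
lemma continuous_Fext_comp (h : Adm c r) {Y : Type*} [TopologicalSpace Y]
    [FirstCountableTopology Y] [LocallyCompactSpace Y] {g : Y → Ix k → ℂ}
    (hg : Continuous g) (hgm : ∀ y, g y ∈ polyD c r) (T : ℝ) :
    Continuous fun y => Fext c r T (g y) := by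
  have h1 : Continuous fun p : Y × ℝ => ((((p.2 : ℝ) : ℂ), g p.1) : ℂ × (Ix k → ℂ)) := by
    fun_prop
  have h3 : ∀ p : Y × ℝ, ((((p.2 : ℝ) : ℂ), g p.1) : ℂ × (Ix k → ℂ)) ∈
      ({t : ℂ | |t.im| < 1 / 4} ×ˢ polyD c r) :=
    fun p => Set.mk_mem_prod (mem_strip p.2) (hgm p.1)
  have h2 := (continuousOn_integrand h).comp_continuous h1 h3
  have h4 : Continuous fun p : Y × ℝ => Zc (g p.1) (p.2 : ℂ) - Qext c r (p.2 : ℂ) (g p.1) := h2
  exact intervalIntegral.continuous_parametric_intervalIntegral_of_continuous' (μ := volume)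
    (f := fun y (t : ℝ) => Zc (g y) (t : ℂ) - Qext c r (t : ℂ) (g y)) h4 0 T

lemma differentiableOn_Fext_line (h : Adm c r) {γ v : Ix k → ℂ} (hv : Function.Injective v)
    {U : Set ℂ} (hU : IsOpen U) (hmem : ∀ x ∈ U, (fun i => γ i + x * v i) ∈ polyD c r) (T : ℝ) :
    DifferentiableOn ℂ (fun x => Fext c r T (fun i => γ i + x * v i)) U := by
  have hA : ContinuousOn (fun q : ℝ × ℂ => Zc (fun i => γ i + q.2 * v i) (q.1 : ℂ) -
      Qext c r (q.1 : ℂ) (fun i => γ i + q.2 * v i)) (Set.univ ×ˢ U) := by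
    have h1 : Continuous fun p : ℝ × ℂ => ((((p.1 : ℝ) : ℂ), fun i => γ i + p.2 * v i) :
        ℂ × (Ix k → ℂ)) := by fun_prop
    have h2 : Set.MapsTo (fun p : ℝ × ℂ => ((((p.1 : ℝ) : ℂ), fun i => γ i + p.2 * v i) :
        ℂ × (Ix k → ℂ))) (Set.univ ×ˢ U) ({t : ℂ | |t.im| < 1 / 4} ×ˢ polyD c r) := by
      intro p hp
      exact Set.mk_mem_prod (mem_strip p.1) (hmem p.2 hp.2)
    have h3 := ContinuousOn.comp (continuousOn_integrand h) h1.continuousOn h2
    exact h3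
  have hB : ∀ t : ℝ, DifferentiableOn ℂ (fun x => Zc (fun i => γ i + x * v i) (t : ℂ) -
      Qext c r (t : ℂ) (fun i => γ i + x * v i)) U := by
    intro t
    have h3 : DifferentiableOn ℂ (fun x => Zc (fun i => γ i + x * v i) (t : ℂ)) U := by
      refine differentiableOn_Zc_comp (im_ofReal_lt t) ?_
        (fun x hx => polyD_tube h (hmem x hx))
      intro i
      fun_prop
    exact h3.sub (differentiableOn_Qext_line h (im_ofReal_lt t) hv hU hmem)
  have h5 := differentiableOn_intervalIntegral (a := 0) (b := T)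
    (Φ := fun t x => Zc (fun i => γ i + x * v i) (t : ℂ) -
      Qext c r (t : ℂ) (fun i => γ i + x * v i)) hU hA hB
  exact h5

lemma exists_Fext_bound (h : Adm c r) : ∃ C : ℝ, 0 ≤ C ∧ ∀ T : ℝ, 1 ≤ T → ∀ γ : Ix k → ℂ,
    (∀ i, dist (γ i) (c i) ≤ r i / 2) → ‖Fext c r T γ‖ ≤ C * T ^ ((2 * k + 1 : ℕ) : ℝ) := by
  obtain ⟨CQ, hCQ0, hCQ⟩ := exists_Qsum_bound h
  obtain ⟨B, hB0, hB⟩ := exists_re_bound c r
  refine ⟨((6 + 3 * B) ^ (2 * k) + 2 ^ (2 * k) * CQ) * 2 ^ (2 * k), by positivity, ?_⟩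
  intro T hT γ hγ
  have hγ' : ∀ i, dist (γ i) (c i) ≤ r i := fun i => by
    have h1 := hγ i
    have h2 := h.pos i
    linarith
  have htube : γ ∈ tube (Ix k) := fun i => h.strip i _ (hγ' i)
  have hint : ∀ t ∈ Set.uIoc (0:ℝ) T, ‖Zc γ t - Qext c r t γ‖ ≤
      ((6 + 3 * B) ^ (2 * k) + 2 ^ (2 * k) * CQ) * (2 ^ (2 * k) * T ^ (2 * k)) := by
    intro t ht
    rw [Set.uIoc_of_le (by linarith)] at ht
    have ht0 : |t| = t := abs_of_pos ht.1
    have h1 := norm_Zc_le htube (t := t) hB0 (hB γ hγ')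
    have h2 := norm_Qext_le h (hCQ t) hγ
    rw [ht0] at h1 h2
    have h3 : (1 + t) ^ (2 * k) ≤ 2 ^ (2 * k) * T ^ (2 * k) := by
      rw [← mul_pow]
      have := ht.1
      have := ht.2
      gcongr
      linarith
    calc _ ≤ ‖Zc γ t‖ + ‖Qext c r t γ‖ := norm_sub_le _ _
      _ ≤ ((6 + 3 * B) * (1 + t)) ^ (2 * k) + 2 ^ (2 * k) * (CQ * (1 + t) ^ (2 * k)) :=
          add_le_add h1 h2
      _ = ((6 + 3 * B) ^ (2 * k) + 2 ^ (2 * k) * CQ) * (1 + t) ^ (2 * k) := by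
          rw [mul_pow]; ring
      _ ≤ _ := by gcongr
  have h4 := intervalIntegral.norm_integral_le_of_norm_le_const hint
  unfold Fext
  refine h4.trans (le_of_eq ?_)
  rw [sub_zero, abs_of_pos (by linarith), Real.rpow_natCast, pow_succ]
  ring

end bound

section real

/-- The error for real shifts, indexed by the disjoint union. -/
noncomputable def Er (γ : Ix k → ℝ) (T : ℝ) : ℂ :=
  E (fun j => γ (Sum.inl j)) (fun j => γ (Sum.inr j)) T

lemma dense_injective {ι : Type*} [Fintype ι] : Dense {γ : ι → ℝ | Function.Injective γ} := by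
  have h : ∀ᵐ γ : ι → ℝ, γ ∈ {γ : ι → ℝ | Function.Injective γ} := ae_injective
  exact Measure.dense_of_ae (μ := (volume : Measure (ι → ℝ))) h

/-- Inside the polydisc the main term is the value of the extension. -/
lemma Q_eq_Qext {γ₀ : Ix k → ℝ} {r : Ix k → ℝ} (h : Adm (fun i => (γ₀ i : ℂ)) r)
    {γ : Ix k → ℝ} (hγ : (fun i => (γ i : ℂ)) ∈ polyD (fun i => (γ₀ i : ℂ)) r) (t : ℝ) :
    Q (fun j => γ (Sum.inl j)) (fun j => γ (Sum.inr j)) t =
      Qext (fun i => (γ₀ i : ℂ)) r t (fun i => (γ i : ℂ)) := by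
  have he : Sum.elim (fun j => γ (Sum.inl j)) (fun j => γ (Sum.inr j)) = γ :=
    Sum.elim_comp_inl_inr γ
  unfold Q
  rw [he]
  have hdense : Dense {γ : Ix k → ℝ | Function.Injective γ} := dense_injective
  refine extendFrom_eq (hdense γ) ?_
  have hemb : Continuous fun γ : Ix k → ℝ => (fun i => (γ i : ℂ)) := by fun_prop
  have hopen : IsOpen {γ : Ix k → ℝ | (fun i => (γ i : ℂ)) ∈ polyD (fun i => (γ₀ i : ℂ)) r} :=
    isOpen_polyD.preimage hemb
  have hcont : ContinuousAt (fun γ : Ix k → ℝ => Qext (fun i => (γ₀ i : ℂ)) r t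
      (fun i => (γ i : ℂ))) γ := by
    have h1 : Continuous fun γ : Ix k → ℝ => (((t : ℂ), fun i => (γ i : ℂ)) :
        ℂ × (Ix k → ℂ)) := by fun_prop
    have h2 : ContinuousOn (fun γ : Ix k → ℝ => Qext (fun i => (γ₀ i : ℂ)) r t
        (fun i => (γ i : ℂ)))
        {γ : Ix k → ℝ | (fun i => (γ i : ℂ)) ∈ polyD (fun i => (γ₀ i : ℂ)) r} :=
      (continuousOn_Qext h).comp h1.continuousOn fun γ hγ => ⟨im_ofReal_lt _, hγ⟩
    exact h2.continuousAt (hopen.mem_nhds hγ)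
  refine (hcont.tendsto.mono_left nhdsWithin_le_nhds).congr' ?_
  have hev : ∀ᶠ γ' in 𝓝[{γ : Ix k → ℝ | Function.Injective γ}] γ,
      γ' ∈ {γ : Ix k → ℝ | (fun i => (γ i : ℂ)) ∈ polyD (fun i => (γ₀ i : ℂ)) r} :=
    mem_nhdsWithin_of_mem_nhds (hopen.mem_nhds hγ)
  filter_upwards [hev, self_mem_nhdsWithin] with γ' h1 h2
  refine Qext_eq h (im_ofReal_lt t) h1 ?_
  intro i j hij
  have hij' : ((γ' i : ℝ) : ℂ) = ((γ' j : ℝ) : ℂ) := hij
  exact h2 (Complex.ofReal_injective hij')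

lemma Er_eq_Fext {γ₀ : Ix k → ℝ} {r : Ix k → ℝ} (h : Adm (fun i => (γ₀ i : ℂ)) r)
    {γ : Ix k → ℝ} (hγ : (fun i => (γ i : ℂ)) ∈ polyD (fun i => (γ₀ i : ℂ)) r) (T : ℝ) :
    Er γ T = Fext (fun i => (γ₀ i : ℂ)) r T (fun i => (γ i : ℂ)) := by
  unfold Er E Fext
  congr 1
  funext t
  rw [Z_eq_Zc γ t, Q_eq_Qext h hγ t]

/-- Being `O(T^a)` at infinity is the same as being bounded by a multiple of `T^a` on `[1, ∞)`. -/
lemma Er_isBigO_iff (γ : Ix k → ℝ) (a : ℝ) :
    (fun T => Er γ T) =O[atTop] (fun T : ℝ => T ^ a) ↔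
      ∃ C : ℝ, ∀ T : ℝ, 1 ≤ T → ‖Er γ T‖ ≤ C * T ^ a := by
  constructor
  · intro h
    obtain ⟨r, hr⟩ := exists_adm γ
    obtain ⟨C, hC0, hC⟩ := exists_Fext_bound hr
    have hmem : (fun i => (γ i : ℂ)) ∈ polyD (fun i => (γ i : ℂ)) r := fun i =>
      Metric.mem_ball_self (hr.pos i)
    obtain ⟨c, hc⟩ := h.bound
    obtain ⟨T₀, hT₀⟩ := Filter.eventually_atTop.1 hc
    set T₁ : ℝ := max T₀ 1 with hT₁
    have hT₁1 : 1 ≤ T₁ := le_max_right _ _
    set A : ℝ := ((2 * k + 1 : ℕ) : ℝ) with hA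
    have hA0 : 0 ≤ A := Nat.cast_nonneg _
    set D : ℝ := C * T₁ ^ A * T₁ ^ |a| with hD
    have hD0 : 0 ≤ D := by positivity
    refine ⟨max c D, fun T hT => ?_⟩
    have hT0 : 0 < T := by linarith
    have hTa : 0 < T ^ a := Real.rpow_pos_of_pos hT0 _
    rcases le_total T₀ T with h1 | h1
    · have h2 := hT₀ T h1
      rw [Real.norm_of_nonneg hTa.le] at h2
      exact h2.trans (by gcongr; exact le_max_left _ _)
    · have hTT₁ : T ≤ T₁ := h1.trans (le_max_left _ _)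
      have h2 : ‖Er γ T‖ ≤ C * T ^ A := by
        rw [Er_eq_Fext hr hmem T]
        refine hC T hT _ fun i => ?_
        rw [dist_self]
        have := hr.pos i
        positivity
      have h3 : 1 ≤ T₁ ^ |a| * T ^ a := by
        have h4 : T ^ (-|a|) ≤ T ^ a :=
          Real.rpow_le_rpow_of_exponent_le hT (neg_abs_le a)
        have h5 : T ^ |a| ≤ T₁ ^ |a| := Real.rpow_le_rpow hT0.le hTT₁ (abs_nonneg _)
        have h6 : T ^ |a| * T ^ (-|a|) = 1 := by
          rw [← Real.rpow_add hT0, add_neg_cancel, Real.rpow_zero]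
        calc (1:ℝ) = T ^ |a| * T ^ (-|a|) := h6.symm
          _ ≤ T₁ ^ |a| * T ^ a := by gcongr
      calc ‖Er γ T‖ ≤ C * T ^ A := h2
        _ ≤ C * T₁ ^ A := by gcongr
        _ = C * T₁ ^ A * 1 := by ring
        _ ≤ C * T₁ ^ A * (T₁ ^ |a| * T ^ a) := by gcongr
        _ = D * T ^ a := by rw [hD]; ring
        _ ≤ _ := by gcongr; exact le_max_right _ _
  · rintro ⟨C, hC⟩
    refine Asymptotics.IsBigO.of_bound C ?_
    filter_upwards [eventually_ge_atTop 1] with T hT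
    rw [Real.norm_of_nonneg (by positivity : 0 ≤ T ^ a)]
    exact hC T hT

/-- The proportion of a small ball in the space of shifts which forces the bound. -/
noncomputable def cdens (k : ℕ) (a ε : ℝ) : ℝ :=
  1 / ((16 * (3 : ℝ) ^ (max (((2 * k + 1 : ℕ) : ℝ) - a) 0 / ε)) ^ (2 * k) *
    2000 ^ (2 * k + 1))

lemma cdens_pos (k : ℕ) (a ε : ℝ) : 0 < cdens k a ε := by
  unfold cdens; positivity

/-- If the error is `O(T^a)` outside a sufficiently small proportion of a small ball then it is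
`O(T^(a+ε))` uniformly on a smaller ball. -/
theorem Er_dichotomy (γ₀ : Ix k → ℝ) {a ε : ℝ} (hε : 0 < ε) :
    ∃ R > 0, ∀ r : ℝ, 0 < r → r < R →
      volume {γ : Ix k → ℝ | γ ∈ Metric.ball γ₀ r ∧
        ¬ (fun T => Er γ T) =O[atTop] (fun T : ℝ => T ^ a)} <
          ENNReal.ofReal (cdens k a ε * r ^ (2 * k)) →
      ∃ C : ℝ, ∀ γ ∈ Metric.ball γ₀ (r / 4), ∀ T : ℝ, 1 ≤ T →
        ‖Er γ T‖ ≤ C * T ^ (a + ε) := by
  obtain ⟨r, hr⟩ := exists_adm γ₀
  obtain ⟨r₀, hr₀, hr₀le⟩ := exists_pos_le (κ := Ix k) (φ := fun i => r i / 2)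
    (fun i => by have := hr.pos i; positivity)
  obtain ⟨C, hC0, hC⟩ := exists_Fext_bound hr
  refine ⟨r₀, hr₀, fun R hR0 hRr hsmall => ?_⟩
  set c : Ix k → ℂ := fun i => (γ₀ i : ℂ) with hc
  have hclose : ∀ z : Ix k → ℂ, dist z c < R → ∀ i, dist (z i) (c i) ≤ r i / 2 := by
    intro z hz i
    exact ((dist_le_pi_dist z c i).trans hz.le).trans (hRr.le.trans (hr₀le i))
  have hpoly : ∀ z : Ix k → ℂ, dist z c < R → z ∈ polyD c r := by
    intro z hz i
    have h1 := hclose z hz i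
    have h2 := hr.pos i
    rw [Metric.mem_ball]
    linarith
  have hreal : ∀ γ : Ix k → ℝ, dist γ γ₀ < R → dist (fun i => (γ i : ℂ)) c < R := by
    intro γ hγ
    rw [dist_pi_lt_iff hR0]
    intro i
    have h1 : dist ((γ i : ℂ)) (γ₀ i : ℂ) = dist (γ i) (γ₀ i) := by
      rw [dist_eq_norm, ← Complex.ofReal_sub, Complex.norm_real, ← dist_eq_norm]
    rw [hc]
    simp only
    rw [h1]
    exact (dist_le_pi_dist γ γ₀ i).trans_lt hγ
  have hcard : Fintype.card (Ix k) = 2 * k := by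
    rw [Fintype.card_sum, Fintype.card_fin]; ring
  have key := uniform_of_small_bad (F := Fext c r) (γ₀ := γ₀) (r := R) (C := C)
    (A := ((2 * k + 1 : ℕ) : ℝ)) (a := a) (ε := ε) hR0 ?_ ?_ ?_ ?_ hε
  · obtain ⟨C', hC'⟩ := key
    refine ⟨C', fun γ hγ T hT => ?_⟩
    have hγR : dist γ γ₀ < R := lt_trans hγ (by linarith)
    rw [Er_eq_Fext hr (hpoly _ (hreal γ hγR)) T]
    exact hC' γ hγ T hT
  · intro T hT z hz
    exact hC T hT z (hclose z hz)
  · intro T _ γ hγ v hv hvinj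
    have hv' : Function.Injective (fun i => (v i : ℂ)) := fun i j hij =>
      hvinj (Complex.ofReal_injective hij)
    refine differentiableOn_Fext_line hr hv' Metric.isOpen_ball (fun x hx => hpoly _ ?_) T
    rw [mem_ball_zero_iff] at hx
    rw [dist_pi_lt_iff hR0]
    intro i
    have h1 : |γ i - γ₀ i| ≤ dist γ γ₀ := by
      rw [← Real.dist_eq]; exact dist_le_pi_dist _ _ i
    have h2 : |v i| ≤ 1 := by
      rw [abs_of_nonneg (hv.1 i)]; exact hv.2 i
    calc dist ((γ i : ℂ) + x * v i) (γ₀ i : ℂ) = ‖((γ i - γ₀ i : ℝ) : ℂ) + x * v i‖ := by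
          rw [dist_eq_norm]; push_cast; ring_nf
      _ ≤ |γ i - γ₀ i| + ‖x‖ * |v i| := by
          refine (norm_add_le _ _).trans ?_
          rw [norm_mul, Complex.norm_real, Complex.norm_real, Real.norm_eq_abs, Real.norm_eq_abs]
      _ ≤ |γ i - γ₀ i| + ‖x‖ * 1 := by gcongr
      _ < R := by linarith
  · intro T _
    rw [continuousOn_iff_continuous_domRestrict]
    have : LocallyCompactSpace ↥(Metric.ball γ₀ R) := Metric.isOpen_ball.locallyCompactSpace
    have hemb : Continuous fun γ : Ix k → ℝ => (fun i => (γ i : ℂ)) := by fun_prop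
    exact continuous_Fext_comp (Y := ↥(Metric.ball γ₀ R)) (g := fun y i => ((y.1 i : ℝ) : ℂ))
      hr (hemb.comp continuous_subtype_val) (fun y => hpoly _ (hreal _ y.2)) T
  · rw [hcard]
    refine lt_of_le_of_lt (measure_mono ?_) (lt_of_lt_of_eq hsmall ?_)
    · rintro γ ⟨hγm, hγ⟩
      refine ⟨hγm, fun hO => ?_⟩
      obtain ⟨C', hC'⟩ := (Er_isBigO_iff γ a).1 hO
      obtain ⟨T, hT, hlt⟩ := hγ C'
      rw [← Er_eq_Fext hr (hpoly _ (hreal γ hγm)) T] at hlt
      exact absurd (hC' T hT) (not_le.2 hlt)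
    · congr 1
      unfold cdens
      rw [one_div_mul_eq_div]

/-- From almost everywhere to everywhere, on compact sets. -/
theorem Er_uniform_of_ae {U : Set (Ix k → ℝ)} (hU : IsOpen U) {a ε : ℝ} (hε : 0 < ε)
    (hae : ∀ᵐ γ : Ix k → ℝ, γ ∈ U → (fun T => Er γ T) =O[atTop] (fun T : ℝ => T ^ a))
    {K : Set (Ix k → ℝ)} (hK : IsCompact K) (hKU : K ⊆ U) :
    ∃ C : ℝ, ∀ γ ∈ K, ∀ T : ℝ, 1 ≤ T → ‖Er γ T‖ ≤ C * T ^ (a + ε) := by
  refine hK.induction_on (p := fun K => ∃ C : ℝ, ∀ γ ∈ K, ∀ T : ℝ, 1 ≤ T →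
    ‖Er γ T‖ ≤ C * T ^ (a + ε)) ⟨0, by simp⟩ ?_ ?_ ?_
  · rintro s t hst ⟨C, hC⟩
    exact ⟨C, fun γ hγ => hC γ (hst hγ)⟩
  · rintro s t ⟨C, hC⟩ ⟨D, hD⟩
    refine ⟨max C D, fun γ hγ T hT => ?_⟩
    have hT0 : 0 < T := by linarith
    rcases hγ with hγ | hγ
    · exact (hC γ hγ T hT).trans (by gcongr; exact le_max_left _ _)
    · exact (hD γ hγ T hT).trans (by gcongr; exact le_max_right _ _)
  · intro γ₀ hγ₀
    obtain ⟨R, hR0, hR⟩ := Er_dichotomy γ₀ (a := a) hε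
    obtain ⟨δ, hδ0, hδ⟩ := Metric.isOpen_iff.1 hU γ₀ (hKU hγ₀)
    set r : ℝ := min (R / 2) δ with hr
    have hr0 : 0 < r := by positivity
    have hrR : r < R := (min_le_left _ _).trans_lt (by linarith)
    have hzero : volume {γ : Ix k → ℝ | γ ∈ Metric.ball γ₀ r ∧
        ¬ (fun T => Er γ T) =O[atTop] (fun T : ℝ => T ^ a)} = 0 := by
      refine measure_mono_null ?_ hae
      rintro γ ⟨h1, h2⟩ h3
      exact h2 (h3 (hδ (Metric.ball_subset_ball (min_le_right _ _) h1)))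
    obtain ⟨C, hC⟩ := hR r hr0 hrR (by
      rw [hzero, ENNReal.ofReal_pos]
      have := cdens_pos k a ε
      positivity)
    exact ⟨Metric.ball γ₀ (r / 4), mem_nhdsWithin_of_mem_nhds
      (Metric.ball_mem_nhds _ (by positivity)), C, hC⟩

end real

end Pool.Agent.H26
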