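import Pool.Agent.H26.LA3

/-!
The shifted integrals for fixed `t`, and the mean value on the far line.
-/

set_option autoImplicit false

namespace Pool.Agent.H26

open Complex Finset Filter Topology MeasureTheory

variable {k : ℕ}

lemma prod_S0 (f : Ix k → ℂ) : ∏ i ∈ S0 k, f i = ∏ j : Fin k, f (Sum.inl j) := by
  have : S0 k = (univ : Finset (Fin k)).map ⟨Sum.inl, Sum.inl_injective⟩ := by
    ext i
    rcases i with i | i <;> simp [S0]
  rw [this, Finset.prod_map]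
  rfl

lemma prod_S0_compl (f : Ix k → ℂ) : ∏ i ∈ (S0 k)ᶜ, f i = ∏ j : Fin k, f (Sum.inr j) := by
  have : (S0 k)ᶜ = (univ : Finset (Fin k)).map ⟨Sum.inr, Sum.inr_injective⟩ := by
    ext i
    rcases i with i | i <;> simp [S0]
  rw [this, Finset.prod_map]
  rfl

/-- The coefficients attached to the shifts `a`. -/
noncomputable def cA (a b : Fin k → ℝ) (n : ℕ) : ℂ := AF (S0 k) (fun j => ((g0 a b j : ℝ) : ℂ)) n

/-- The coefficients attached to the shifts `b`. -/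
noncomputable def cB (a b : Fin k → ℝ) (n : ℕ) : ℂ :=
  AF (S0 k)ᶜ (fun j => ((-(g0 a b j) : ℝ) : ℂ)) n

lemma Zc_ga_eq (a b : Fin k → ℝ) {η : ℝ} (hη : 0 < η) {z : ℂ} (hz : z.im = -(1 / 2 + η))
    (t : ℝ) :
    Zc (ga a b z) t = LSeries (cA a b) (1 / 2 + I * z + I * t) *
      LSeries (cB a b) (1 / 2 + I * z - I * t) := by
  have hre1 : (1 / 2 + I * z + I * t : ℂ).re = 1 + η := by simp [hz]; ring
  have hre2 : (1 / 2 + I * z - I * t : ℂ).re = 1 + η := by simp [hz]; ring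
  have h1 : 1 < (1 / 2 + I * z + I * t : ℂ).re := by rw [hre1]; linarith
  have h2 : 1 < (1 / 2 + I * z - I * t : ℂ).re := by rw [hre2]; linarith
  have e1 := LSeries_AF (S0 k) (g0 a b) h1
  have e2 := LSeries_AF (S0 k)ᶜ (fun j => -(g0 a b j)) h2
  unfold cA cB
  rw [e1, e2, prod_S0, prod_S0_compl]
  unfold Zc
  rw [Finset.prod_mul_distrib]
  congr 1
  · refine Finset.prod_congr rfl fun j _ => ?_
    congr 1
    simp [g0]
    ring
  · refine Finset.prod_congr rfl fun j _ => ?_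
    congr 1
    simp [g0]
    ring

lemma exists_norm_coef_le (k : ℕ) {η : ℝ} (hη : 0 < η) : ∃ K : ℝ, 0 ≤ K ∧
    ∀ a b : Fin k → ℝ, ∀ n : ℕ, n ≠ 0 →
    ‖cA a b n‖ ≤ K * (n : ℝ) ^ (η / 2) ∧ ‖cB a b n‖ ≤ K * (n : ℝ) ^ (η / 2) := by
  obtain ⟨K, hK1, hK⟩ := card_divisors_pow_le k (ε := η / 2) (by linarith)
  refine ⟨K, by linarith, fun a b n hn => ⟨?_, ?_⟩⟩
  · have h := norm_AF_le (S0 k) (g0 a b) n
    rw [card_S0] at h
    exact h.trans (hK n hn)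
  · have h := norm_AF_le (S0 k)ᶜ (fun j => -(g0 a b j)) n
    have hc : (S0 k)ᶜ.card = k := by
      rw [Finset.card_compl, card_S0, Fintype.card_sum, Fintype.card_fin]
      omega
    rw [hc] at h
    exact h.trans (hK n hn)

/-- The mean value on the far line. -/
lemma exists_far_mean (k : ℕ) {η : ℝ} (hη : 0 < η) : ∃ C : ℝ, 0 ≤ C ∧
    ∀ (a b : Fin k → ℝ) (z : ℂ), z.im = -(1 / 2 + η) →
    (∀ t : ℝ, ‖Zc (ga a b z) t‖ ≤ C) ∧ ‖Dz a b z‖ ≤ C ∧ ∀ T : ℝ,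
      ‖∫ t in (0:ℝ)..T, (Zc (ga a b z) t - Dz a b z)‖ ≤ C := by
  obtain ⟨K, hK0, hK⟩ := exists_norm_coef_le k hη
  obtain ⟨CD, hCD0, hCD⟩ := exists_Dz_le k (v := 1 / 2 + η) (by linarith)
  have hS := majS_nonneg η
  refine ⟨4 * (K * majS η) ^ 2 + CD, by positivity, fun a b z hz => ⟨fun t => ?_, ?_, fun T => ?_⟩⟩
  · rw [Zc_ga_eq a b hη hz, norm_mul]
    have h1 := norm_LSeries_le_majS hη hK0 (fun n hn => (hK a b n hn).1)
      (s := 1 / 2 + I * z + I * t) (by simp [hz]; ring)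
    have h2 := norm_LSeries_le_majS hη hK0 (fun n hn => (hK a b n hn).2)
      (s := 1 / 2 + I * z - I * t) (by simp [hz]; ring)
    calc _ ≤ (K * majS η) * (K * majS η) := mul_le_mul h1 h2 (norm_nonneg _) (by positivity)
      _ ≤ _ := by nlinarith [sq_nonneg (K * majS η)]
  · have := hCD a b z hz.le
    have h2 : 0 ≤ 4 * (K * majS η) ^ 2 := by positivity
    linarith
  · have hσ : (1 / 2 + I * z : ℂ).re = 1 + η := by simp [hz]; ring
    have h := mean_value hη hK0 (fun n hn => (hK a b n hn).1) (fun n hn => (hK a b n hn).2) hσ T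
    have hcont : Continuous fun t : ℝ => Zc (ga a b z) t := by
      have h1 := (continuous_Zc_line a b (y := z.im) (by rw [hz]; intro h'; linarith)).comp
        (Continuous.prodMk_right z.re)
      have h2 : (fun p : ℝ × ℝ => Zc (ga a b ((p.1 : ℂ) + (z.im : ℂ) * I)) p.2) ∘
          (fun t : ℝ => (z.re, t)) = fun t : ℝ => Zc (ga a b z) t := by
        funext t
        simp only [Function.comp, Complex.re_add_im]
      rw [h2] at h1
      exact h1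
    have hint : IntervalIntegrable (fun t : ℝ => Zc (ga a b z) t) volume 0 T :=
      hcont.intervalIntegrable 0 T
    rw [intervalIntegral.integral_sub hint intervalIntegrable_const,
      intervalIntegral.integral_const, sub_zero, Complex.real_smul]
    have e1 : (∫ t in (0:ℝ)..T, Zc (ga a b z) t) = ∫ t in (0:ℝ)..T,
        LSeries (cA a b) (1 / 2 + I * z + I * t) * LSeries (cB a b) (1 / 2 + I * z - I * t) := by
      congr 1
      funext t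
      exact Zc_ga_eq a b hη hz t
    have e2 : Dz a b z = LSeries (fun n => cA a b n * cB a b n) (2 * (1 / 2 + I * z)) := by
      unfold Dz
      congr 1
      ring
    rw [e1, e2]
    linarith

/-- The shifted integrals for fixed `t`. -/
theorem exists_J_le (k : ℕ) {ρ : ℝ} (hρ : 0 < ρ) (hρ1 : ρ ≤ 1 / 64)
    {η : ℝ} (hη : 0 < η) (hη1 : η ≤ 2 / 5) :
    ∃ C : ℝ, 0 ≤ C ∧ ∀ B : ℝ, 0 ≤ B →
    ∀ a b : Fin k → ℝ, (∀ j, |a j| ≤ B) → (∀ j, |b j| ≤ B) →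
    Function.Injective a → Function.Injective b → ∀ (w : ℂ → ℂ) (M M₁ : ℝ),
    Wt (AK k) M (1 / 8) w → Wt (AK k) M₁ (1 / 2 + η) w →
    ∀ t : ℝ, 0 ≤ t →
    ‖(∫ x : ℝ, w ((x:ℂ) + ((0:ℝ):ℂ) * I) * (Zc (ga a b ((x:ℂ) + ((0:ℝ):ℂ) * I)) t -
        Qsum (ga a b ((x:ℂ) + ((0:ℝ):ℂ) * I)) t)) -
      ∫ x : ℝ, w ((x:ℂ) + ((-(1/2+η):ℝ):ℂ) * I) * (Zc (ga a b ((x:ℂ) + ((-(1/2+η):ℝ):ℂ) * I)) t -
        Dz a b ((x:ℂ) + ((-(1/2+η):ℝ):ℂ) * I))‖ ≤
      C * (1 + B) ^ NB k * (M₁ * ((1 + t) ^ 2)⁻¹ + M * (1 + t) ^ (-(1 / 4 - 4 * ρ))) := by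
  obtain ⟨CZ₁, hCZ₁0, hCZ₁⟩ := exists_Zshift k hη hη1
  obtain ⟨CR₁, hCR₁0, hCR₁⟩ := exists_R_ga_le k hρ
  obtain ⟨CQ₁, hCQ₁0, hCQ₁⟩ := exists_Q_ga_le k hρ
  set v : ℝ := 1 / 8 - ρ with hv
  have hv0 : 0 < v := by rw [hv]; linarith
  obtain ⟨CD, hCD0, hCD⟩ := exists_Dz_le k hv0
  refine ⟨CZ₁ + CR₁ * 4, by positivity, ?_⟩
  intro B hB a b ha hb hai hbi w M M₁ hw hw1 t ht
  have hM := hw.nonneg (by norm_num)
  have hM1 := hw1.nonneg (by linarith)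
  have hB1 : 1 ≤ 1 + B := by linarith
  obtain ⟨CZ, hCZe⟩ : ∃ CZ : ℝ, CZ = CZ₁ * (1 + B) ^ NB k := ⟨_, rfl⟩
  obtain ⟨CR, hCRe⟩ : ∃ CR : ℝ, CR = CR₁ * (1 + B) ^ NK k := ⟨_, rfl⟩
  obtain ⟨CQ, hCQe⟩ : ∃ CQ : ℝ, CQ = CQ₁ * (1 + B) ^ NK k := ⟨_, rfl⟩
  have hCZ0 : 0 ≤ CZ := by rw [hCZe]; positivity
  have hCR0 : 0 ≤ CR := by rw [hCRe]; positivity
  have hCQ0 : 0 ≤ CQ := by rw [hCQe]; positivity
  have hCZ := hCZ₁ B hB
  have hCR := hCR₁ B hB
  have hCQ := hCQ₁ B hB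
  rw [← hCZe] at hCZ
  rw [← hCRe] at hCR
  rw [← hCQe] at hCQ
  have hCle : CZ + CR * 4 ≤ (CZ₁ + CR₁ * 4) * (1 + B) ^ NB k := by
    have h1 : (1 + B) ^ NK k ≤ (1 + B) ^ NB k :=
      pow_le_pow_right₀ hB1 (by unfold NB; omega)
    have h2 := mul_le_mul_of_nonneg_left h1 hCR₁0
    rw [hCZe, hCRe]
    linarith
  refine le_trans ?_ (mul_le_mul_of_nonneg_right hCle (b := CZ + CR * 4)
    (a := M₁ * ((1 + t) ^ 2)⁻¹ + M * (1 + t) ^ (-(1 / 4 - 4 * ρ))) (by positivity))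
  have hnorm : ∀ x y : ℝ, (((x:ℂ) + (y:ℂ) * I).re = x) ∧ ((x:ℂ) + (y:ℂ) * I).im = y :=
    fun x y => ⟨re_line x y, im_line x y⟩
  -- integrability on the lines
  have iZ : ∀ y : ℝ, (y = 0 ∨ y = -(1/2+η)) → Integrable fun x : ℝ =>
      w ((x:ℂ) + (y:ℂ) * I) * Zc (ga a b ((x:ℂ) + (y:ℂ) * I)) t := by
    intro y hy
    have hcw := hw.continuous_line (y := y) (by rcases hy with h | h <;> rw [h] <;> linarith)
      (by rcases hy with h | h <;> rw [h] <;> linarith)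
    have hcz := (continuous_Zc_line a b (y := y) (by
      rcases hy with h | h <;> rw [h]
      · norm_num
      · intro h'; linarith)).comp (Continuous.prodMk_left t)
    have hc : Continuous fun x : ℝ => w ((x:ℂ) + (y:ℂ) * I) * Zc (ga a b ((x:ℂ) + (y:ℂ) * I)) t :=
      hcw.mul hcz
    refine Integrable.mono' (g := fun x => M₁ * (((η⁻¹ + 4) * (1 + B) * (1 + |t|)) ^ (2 * k)) *
      (1 + x ^ 2)⁻¹) (integrable_inv_one_add_sq.const_mul _) hc.aestronglyMeasurable ?_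
    refine Filter.Eventually.of_forall fun x => ?_
    have h2 := norm_Zc_line_le hB ha hb hη hη1 (z := (x:ℂ) + (y:ℂ) * I)
      (by rw [im_line]; exact hy) t
    have h3 := weight_mul_le hw1 (m := 2 * k)
      (K := ((η⁻¹ + 4) * (1 + B) * (1 + |t|)) ^ (2 * k))
      (by unfold AK; nlinarith) (z := (x:ℂ) + (y:ℂ) * I) (by
        rw [im_line]; rcases hy with h | h <;> rw [h] <;> linarith) (by
        rw [im_line]; rcases hy with h | h <;> rw [h] <;> linarith) (h2.trans (le_of_eq (by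
        rw [← mul_pow]; ring)))
    rw [re_line] at h3
    exact h3
  have iQ0 : Integrable fun x : ℝ => w ((x:ℂ) + ((0:ℝ):ℂ) * I) *
      Qsum (ga a b ((x:ℂ) + ((0:ℝ):ℂ) * I)) t := by
    have hae : ∀ᵐ x : ℝ, x ∈ (collX a b)ᶜ :=
      measure_mono_null (fun x hx => not_not.1 hx) ((finite_collX a b).measure_zero _)
    refine Integrable.mono' (g := fun x => M * (CQ * (1 + |t|) ^ (2 * k)) *
      (1 + x ^ 2)⁻¹) (integrable_inv_one_add_sq.const_mul _) ?_ ?_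
    · rw [← Measure.restrict_eq_self_of_ae_mem hae]
      refine ContinuousOn.aestronglyMeasurable ?_ (finite_collX a b).isClosed.isOpen_compl.measurableSet
      intro x hx
      have h0 : (x : ℂ) + ((0 : ℝ) : ℂ) * I = x := by simp
      have hinj := injective_ga_of_notMem hai hbi hx
      have h1 := continuousAt_Qsum_ga (a := a) (b := b) (t := t)
          (z := (x : ℂ) + ((0 : ℝ) : ℂ) * I) (by rw [im_line]; norm_num) (by rw [h0]; exact hinj)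
      have h2 : ContinuousAt (fun x : ℝ => Qsum (ga a b ((x:ℂ) + ((0:ℝ):ℂ) * I)) t) x :=
        ContinuousAt.comp (f := fun x : ℝ => (((x:ℂ) + ((0:ℝ):ℂ) * I, t) : ℂ × ℝ)) h1
          (by fun_prop)
      exact ((hw.continuous_line (y := 0) (by norm_num) (by norm_num)).continuousAt.mul
        h2).continuousWithinAt
    · filter_upwards [hae] with x hx
      have h0 : (x : ℂ) + ((0 : ℝ) : ℂ) * I = x := by simp
      have hinj := injective_ga_of_notMem hai hbi hx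
      have h2 := hCQ a b ha hb ((x:ℂ) + ((0:ℝ):ℂ) * I) (by
        rw [im_line, abs_zero]; linarith) (by rw [h0]; exact hinj) t
      have h3 := weight_mul_le hw (m := NK k) (K := CQ * (1 + |t|) ^ (2 * k)) (NK_le_AK k)
        (z := (x:ℂ) + ((0:ℝ):ℂ) * I) (by rw [im_line]; norm_num) (by rw [im_line])
        (h2.trans (le_of_eq (by ring)))
      rw [re_line] at h3
      exact h3
  have hcD : ∀ y : ℝ, y < 0 → Continuous fun x : ℝ => Dz a b ((x:ℂ) + (y:ℂ) * I) := by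
    intro y hy
    rw [continuous_iff_continuousAt]
    intro x
    have h1 := (differentiableAt_Dz a b (z := (x:ℂ) + (y:ℂ) * I) (by
      rw [im_line]; exact hy)).continuousAt
    exact ContinuousAt.comp (f := fun x : ℝ => (x:ℂ) + (y:ℂ) * I) h1 (by fun_prop)
  have iD : ∀ y : ℝ, y ≤ -v → -(1/2+η) ≤ y → Integrable fun x : ℝ =>
      w ((x:ℂ) + (y:ℂ) * I) * Dz a b ((x:ℂ) + (y:ℂ) * I) := by
    intro y hy1 hy2
    refine Integrable.mono' (g := fun x => M₁ * CD * (1 + x ^ 2)⁻¹)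
      (integrable_inv_one_add_sq.const_mul _)
      ((hw.continuous_line (by linarith) (by linarith)).mul
        (hcD y (by linarith))).aestronglyMeasurable ?_
    refine Filter.Eventually.of_forall fun x => ?_
    have h2 := hCD a b ((x:ℂ) + (y:ℂ) * I) (by rw [im_line]; exact hy1)
    have h3 := weight_mul_le hw1 (m := 0) (K := CD) (by unfold AK; nlinarith)
      (z := (x:ℂ) + (y:ℂ) * I) (by rw [im_line]; exact hy2) (by rw [im_line]; linarith)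
      (by rw [pow_zero, mul_one]; exact h2)
    rw [re_line] at h3
    exact h3
  -- the shift of the diagonal term
  have hDshift : ∫ x : ℝ, w ((x:ℂ) + ((-v:ℝ):ℂ) * I) * Dz a b ((x:ℂ) + ((-v:ℝ):ℂ) * I) =
      ∫ x : ℝ, w ((x:ℂ) + ((-(1/2+η):ℝ):ℂ) * I) * Dz a b ((x:ℂ) + ((-(1/2+η):ℝ):ℂ) * I) := by
    refine line_shift (F := fun z => w z * Dz a b z) (K := M₁ * CD)
      (by rw [hv]; linarith) ?_ ?_
    · intro z hz1 hz2
      exact (hw.differentiableAt (by linarith) (by linarith)).mul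
        (differentiableAt_Dz a b (by linarith))
    · intro x y hy1 hy2
      have h2 := hCD a b ((x:ℂ) + (y:ℂ) * I) (by rw [im_line]; exact hy2)
      have h3 := weight_mul_le hw1 (m := 0) (K := CD) (by unfold AK; nlinarith)
        (z := (x:ℂ) + (y:ℂ) * I) (by rw [im_line]; exact hy1) (by rw [im_line]; linarith)
        (by rw [pow_zero, mul_one]; exact h2)
      rw [re_line] at h3
      exact h3
  -- the remainder
  have hRb : ∀ x : ℝ, ‖w ((x:ℂ) + ((-v:ℝ):ℂ) * I) *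
      (Qsum (ga a b ((x:ℂ) + ((-v:ℝ):ℂ) * I)) t - Dz a b ((x:ℂ) + ((-v:ℝ):ℂ) * I))‖ ≤
      M * (CR * (1 + |t|) ^ (-(1 / 4 - 4 * ρ))) * (1 + x ^ 2)⁻¹ := by
    intro x
    have h2 := hCR a b ha hb hai hbi v (by rw [hv]; linarith) (by rw [hv]; linarith) x t
    have e : -(2 * (v - ρ)) = -(1 / 4 - 4 * ρ) := by rw [hv]; ring
    rw [e] at h2
    have h3 := weight_mul_le hw (m := NK k) (K := CR * (1 + |t|) ^ (-(1 / 4 - 4 * ρ)))
      (NK_le_AK k) (z := (x:ℂ) + ((-v:ℝ):ℂ) * I)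
      (by rw [im_line]; linarith) (by rw [im_line]; linarith)
      (u := Qsum (ga a b ((x:ℂ) + ((-v:ℝ):ℂ) * I)) t - Dz a b ((x:ℂ) + ((-v:ℝ):ℂ) * I))
      (by rw [re_line]; exact h2.trans (le_of_eq (by ring)))
    rw [re_line] at h3
    exact h3
  have hcQv : Continuous fun x : ℝ => Qsum (ga a b ((x:ℂ) + ((-v:ℝ):ℂ) * I)) t := by
    rw [continuous_iff_continuousAt]
    intro x
    have h1 := continuousAt_Qsum_ga (a := a) (b := b) (t := t)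
      (z := (x : ℂ) + ((-v : ℝ) : ℂ) * I) (by
        rw [im_line, abs_neg, abs_of_pos hv0]; linarith)
      (injective_ga_of_im hai hbi (by rw [im_line]; linarith))
    exact ContinuousAt.comp (f := fun x : ℝ => (((x:ℂ) + ((-v:ℝ):ℂ) * I, t) : ℂ × ℝ)) h1
      (by fun_prop)
  have hcR : Continuous fun x : ℝ => w ((x:ℂ) + ((-v:ℝ):ℂ) * I) *
      (Qsum (ga a b ((x:ℂ) + ((-v:ℝ):ℂ) * I)) t - Dz a b ((x:ℂ) + ((-v:ℝ):ℂ) * I)) :=
    (hw.continuous_line (by linarith) (by linarith)).mul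
      (hcQv.sub (hcD (-v) (by linarith)))
  have iR : Integrable fun x : ℝ => w ((x:ℂ) + ((-v:ℝ):ℂ) * I) *
      (Qsum (ga a b ((x:ℂ) + ((-v:ℝ):ℂ) * I)) t - Dz a b ((x:ℂ) + ((-v:ℝ):ℂ) * I)) :=
    Integrable.mono' (integrable_inv_one_add_sq.const_mul _) hcR.aestronglyMeasurable
      (Filter.Eventually.of_forall hRb)
  have iDv := iD (-v) le_rfl (by rw [hv]; linarith)
  have iD9 := iD (-(1/2+η)) (by rw [hv]; linarith) le_rfl
  have hQsplit : ∫ x : ℝ, w ((x:ℂ) + ((-v:ℝ):ℂ) * I) *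
      Qsum (ga a b ((x:ℂ) + ((-v:ℝ):ℂ) * I)) t =
      (∫ x : ℝ, w ((x:ℂ) + ((-v:ℝ):ℂ) * I) *
      (Qsum (ga a b ((x:ℂ) + ((-v:ℝ):ℂ) * I)) t - Dz a b ((x:ℂ) + ((-v:ℝ):ℂ) * I))) +
      ∫ x : ℝ, w ((x:ℂ) + ((-v:ℝ):ℂ) * I) * Dz a b ((x:ℂ) + ((-v:ℝ):ℂ) * I) := by
    rw [← integral_add iR iDv]
    congr 1
    funext x
    ring
  have hRn : ‖∫ x : ℝ, w ((x:ℂ) + ((-v:ℝ):ℂ) * I) *
      (Qsum (ga a b ((x:ℂ) + ((-v:ℝ):ℂ) * I)) t - Dz a b ((x:ℂ) + ((-v:ℝ):ℂ) * I))‖ ≤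
      CR * 4 * M * (1 + t) ^ (-(1 / 4 - 4 * ρ)) := by
    have h1 := norm_integral_le_of_norm_le (integrable_inv_one_add_sq.const_mul
      (M * (CR * (1 + |t|) ^ (-(1 / 4 - 4 * ρ))))) (Filter.Eventually.of_forall hRb)
    rw [integral_const_mul, integral_univ_inv_one_add_sq, abs_of_nonneg ht] at h1
    refine h1.trans ?_
    have hp : 0 ≤ M * (CR * (1 + t) ^ (-(1 / 4 - 4 * ρ))) := by positivity
    have := mul_le_mul_of_nonneg_left Real.pi_le_four hp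
    linarith
  have hZ := hCZ a b ha hb w M₁ hw1 t ht
  have h9 := Q_shift hB ha hb hai hbi hw hv0 (by rw [hv]; linarith) t
  have e1 : (∫ x : ℝ, w ((x:ℂ) + ((0:ℝ):ℂ) * I) * (Zc (ga a b ((x:ℂ) + ((0:ℝ):ℂ) * I)) t -
        Qsum (ga a b ((x:ℂ) + ((0:ℝ):ℂ) * I)) t)) =
      (∫ x : ℝ, w ((x:ℂ) + ((0:ℝ):ℂ) * I) * Zc (ga a b ((x:ℂ) + ((0:ℝ):ℂ) * I)) t) -
      ∫ x : ℝ, w ((x:ℂ) + ((0:ℝ):ℂ) * I) * Qsum (ga a b ((x:ℂ) + ((0:ℝ):ℂ) * I)) t := by
    rw [← integral_sub (iZ 0 (Or.inl rfl)) iQ0]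
    congr 1
    funext x
    ring
  have e2 : (∫ x : ℝ, w ((x:ℂ) + ((-(1/2+η):ℝ):ℂ) * I) *
        (Zc (ga a b ((x:ℂ) + ((-(1/2+η):ℝ):ℂ) * I)) t - Dz a b ((x:ℂ) + ((-(1/2+η):ℝ):ℂ) * I))) =
      (∫ x : ℝ, w ((x:ℂ) + ((-(1/2+η):ℝ):ℂ) * I) * Zc (ga a b ((x:ℂ) + ((-(1/2+η):ℝ):ℂ) * I)) t) -
      ∫ x : ℝ, w ((x:ℂ) + ((-(1/2+η):ℝ):ℂ) * I) * Dz a b ((x:ℂ) + ((-(1/2+η):ℝ):ℂ) * I) := by
    rw [← integral_sub (iZ (-(1/2+η)) (Or.inr rfl)) iD9]
    congr 1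
    funext x
    ring
  rw [e1, e2, h9, hQsplit, hDshift]
  have hsplit : ∀ p q r s : ℂ, ‖p - (r + s) - (q - s)‖ ≤ ‖p - q‖ + ‖r‖ := by
    intro p q r s
    calc ‖p - (r + s) - (q - s)‖ = ‖(p - q) - r‖ := by ring_nf
      _ ≤ _ := norm_sub_le _ _
  refine (hsplit _ _ _ _).trans ((add_le_add hZ hRn).trans ?_)
  have h1 : 0 ≤ CZ * (M * (1 + t) ^ (-(1 / 4 - 4 * ρ))) := by positivity
  have h2 : 0 ≤ CR * 4 * (M₁ * ((1 + t) ^ 2)⁻¹) := by positivity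
  have e : (CZ + CR * 4) * (M₁ * ((1 + t) ^ 2)⁻¹ + M * (1 + t) ^ (-(1 / 4 - 4 * ρ))) =
      CZ * M₁ * ((1 + t) ^ 2)⁻¹ + CR * 4 * M * (1 + t) ^ (-(1 / 4 - 4 * ρ)) +
      (CZ * (M * (1 + t) ^ (-(1 / 4 - 4 * ρ))) + CR * 4 * (M₁ * ((1 + t) ^ 2)⁻¹)) := by ring
  rw [e]
  linarith

end Pool.Agent.H26
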