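import Pool.Agent.H26.RBound
import Pool.Agent.H26.Transl

/-!
Dirichlet series of products of shifted zeta functions and the Euler product for `ζ_(a,b)`.
-/

set_option autoImplicit false

namespace Pool.Agent.H26

open Complex Finset Filter Topology ArithmeticFunction

/-! ### The divisor bound (after the files of helper47 and helper6) -/

lemma pow_le_const_mul_two_pow (r : ℕ) : ∃ C : ℕ, 1 ≤ C ∧ ∀ v : ℕ, (v + 1) ^ r ≤ C * 2 ^ v := by
  have h := tendsto_pow_const_mul_const_pow_of_abs_lt_one r (r := (1/2 : ℝ))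
    (by norm_num [abs_of_pos])
  obtain ⟨B, hB⟩ := h.bddAbove_range
  refine ⟨⌈2 * B⌉₊ + 1, by omega, fun v => ?_⟩
  have h1 := hB (Set.mem_range_self (v + 1))
  have h2 : ((v + 1 : ℕ) : ℝ) ^ r ≤ 2 * B * 2 ^ v := by
    have h3 : (1 / 2 : ℝ) ^ (v + 1) * 2 ^ (v + 1) = 1 := by
      rw [← mul_pow]; norm_num
    have h4 : ((v + 1 : ℕ) : ℝ) ^ r =
        (((v + 1 : ℕ) : ℝ) ^ r * (1 / 2 : ℝ) ^ (v + 1)) * 2 ^ (v + 1) := by
      rw [mul_assoc, h3, mul_one]
    rw [h4]
    calc (((v + 1 : ℕ) : ℝ) ^ r * (1 / 2 : ℝ) ^ (v + 1)) * 2 ^ (v + 1) ≤ B * 2 ^ (v + 1) := by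
          gcongr
      _ = 2 * B * 2 ^ v := by ring
  have h5 : (2 * B : ℝ) ≤ ((⌈2 * B⌉₊ + 1 : ℕ) : ℝ) := by
    push_cast
    have := Nat.le_ceil (2 * B)
    linarith
  have h6 : (((v + 1) ^ r : ℕ) : ℝ) ≤ (((⌈2 * B⌉₊ + 1) * 2 ^ v : ℕ) : ℝ) := by
    push_cast at h2 h5 ⊢
    calc ((v : ℝ) + 1) ^ r ≤ 2 * B * 2 ^ v := h2
      _ ≤ _ := by gcongr
  exact_mod_cast h6

theorem divisor_bound (r : ℕ) : ∃ C : ℕ, 1 ≤ C ∧ ∀ n : ℕ, n ≠ 0 → n.divisors.card ^ r ≤ C * n := by
  obtain ⟨C, hC1, hC⟩ := pow_le_const_mul_two_pow r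
  refine ⟨C ^ (2 ^ r), Nat.one_le_pow _ _ hC1, fun n hn => ?_⟩
  rw [Nat.card_divisors hn, ← Finset.prod_pow]
  have hn' : n = ∏ p ∈ n.primeFactors, p ^ n.factorization p := by
    conv_lhs => rw [← Nat.prod_factorization_pow_eq_self hn]
    rfl
  have key : ∀ p ∈ n.primeFactors,
      (n.factorization p + 1) ^ r ≤ (if p < 2 ^ r then C else 1) * p ^ n.factorization p := by
    intro p hp
    have hp2 : 2 ≤ p := (Nat.prime_of_mem_primeFactors hp).two_le
    split_ifs with h
    · calc (n.factorization p + 1) ^ r ≤ C * 2 ^ n.factorization p := hC _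
        _ ≤ _ := by gcongr
    · push Not at h
      rw [one_mul]
      calc (n.factorization p + 1) ^ r ≤ (2 ^ n.factorization p) ^ r := by
            gcongr
            exact Nat.lt_two_pow_self
        _ = (2 ^ r) ^ n.factorization p := by rw [← pow_mul, ← pow_mul, mul_comm]
        _ ≤ _ := by gcongr
  calc ∏ p ∈ n.primeFactors, (n.factorization p + 1) ^ r
      ≤ ∏ p ∈ n.primeFactors, ((if p < 2 ^ r then C else 1) * p ^ n.factorization p) :=
        Finset.prod_le_prod' key
    _ = (∏ p ∈ n.primeFactors, (if p < 2 ^ r then C else 1)) * n := by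
        rw [Finset.prod_mul_distrib, ← hn']
    _ ≤ C ^ (2 ^ r) * n := by
        gcongr
        rw [Finset.prod_ite, Finset.prod_const, Finset.prod_const_one, mul_one]
        apply Nat.pow_le_pow_right hC1
        calc (n.primeFactors.filter (fun p => p < 2 ^ r)).card ≤ (Finset.range (2 ^ r)).card := by
              apply Finset.card_le_card
              intro p hp
              simp only [Finset.mem_filter] at hp
              exact Finset.mem_range.2 hp.2
          _ = 2 ^ r := Finset.card_range _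

theorem card_divisors_pow_le (K : ℕ) {ε : ℝ} (hε : 0 < ε) : ∃ C : ℝ, 1 ≤ C ∧ ∀ n : ℕ, n ≠ 0 →
    (n.divisors.card : ℝ) ^ K ≤ C * (n : ℝ) ^ ε := by
  obtain ⟨r, hr⟩ := exists_nat_gt (K / ε)
  have hr0 : 0 < r := by
    rcases Nat.eq_zero_or_pos r with h | h
    · rw [h] at hr
      have : 0 ≤ K / ε := by positivity
      simp at hr
      linarith
    · exact h
  have hrR : (0:ℝ) < r := by exact_mod_cast hr0
  obtain ⟨C, hC1, hC⟩ := divisor_bound r
  have hC1' : (1:ℝ) ≤ C := by exact_mod_cast hC1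
  refine ⟨(C : ℝ) ^ ((K : ℝ) / (r : ℝ)), Real.one_le_rpow hC1' (by positivity), fun n hn => ?_⟩
  have h1 : ((n.divisors.card : ℝ)) ^ r ≤ (C : ℝ) * n := by
    exact_mod_cast hC n hn
  have hn1 : (1:ℝ) ≤ n := by exact_mod_cast Nat.one_le_iff_ne_zero.mpr hn
  have h2 : (n.divisors.card : ℝ) ^ K ≤ ((C : ℝ) * n) ^ ((K : ℝ) / (r : ℝ)) := by
    have h3 := Real.rpow_le_rpow (by positivity) h1 (by positivity : 0 ≤ (K : ℝ) / (r : ℝ))
    rw [← Real.rpow_natCast _ r, ← Real.rpow_mul (by positivity), mul_div_cancel₀ _ hrR.ne',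
      Real.rpow_natCast] at h3
    exact h3
  refine h2.trans ?_
  rw [Real.mul_rpow (by positivity) (by positivity)]
  gcongr
  rw [div_le_iff₀ hrR]
  rw [div_lt_iff₀ hε] at hr
  linarith

/-! ### Coefficients -/

/-- The arithmetic function `n ↦ n^(-ix)`. -/
noncomputable def pw (x : ℂ) : ArithmeticFunction ℂ :=
  ⟨fun n => if n = 0 then 0 else (n : ℂ) ^ (-(I * x)), by simp⟩

lemma pw_apply (x : ℂ) {n : ℕ} (hn : n ≠ 0) : pw x n = (n : ℂ) ^ (-(I * x)) := by
  show (if n = 0 then 0 else (n : ℂ) ^ (-(I * x))) = _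
  rw [if_neg hn]

lemma isMultiplicative_pw (x : ℂ) : (pw x).IsMultiplicative := by
  rw [ArithmeticFunction.IsMultiplicative.iff_ne_zero]
  refine ⟨by rw [pw_apply _ one_ne_zero]; simp, fun {m n} hm hn _ => ?_⟩
  rw [pw_apply _ hm, pw_apply _ hn, pw_apply _ (mul_ne_zero hm hn), Nat.cast_mul,
    natCast_mul_natCast_cpow]

variable {ι : Type*} [DecidableEq ι]

/-- The convolution of the `n ↦ n^(-i c j)`, `j ∈ S`. -/
noncomputable def AF (S : Finset ι) (c : ι → ℂ) : ArithmeticFunction ℂ := ∏ j ∈ S, pw (c j)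

lemma AF_empty (c : ι → ℂ) : AF (∅ : Finset ι) c = 1 := by simp [AF]

lemma AF_insert {S : Finset ι} {i : ι} (hi : i ∉ S) (c : ι → ℂ) :
    AF (insert i S) c = pw (c i) * AF S c := by
  simp [AF, Finset.prod_insert hi]

lemma isMultiplicative_AF (S : Finset ι) (c : ι → ℂ) : (AF S c).IsMultiplicative := by
  induction S using Finset.induction_on with
  | empty => rw [AF_empty]; exact ArithmeticFunction.isMultiplicative_one
  | insert i S hi ih => rw [AF_insert hi]; exact (isMultiplicative_pw _).mul ih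

lemma hsum_empty (x : ι → ℂ) (m : ℕ) : hsum (∅ : Finset ι) x m = if m = 0 then 1 else 0 := by
  unfold hsum
  rw [Finset.piAntidiag_empty]
  split_ifs <;> simp

lemma hsum_insert {S : Finset ι} {i : ι} (hi : i ∉ S) (x : ι → ℂ) (m : ℕ) :
    hsum (insert i S) x m = ∑ p ∈ antidiagonal m, x i ^ p.1 * hsum S x p.2 := by
  unfold hsum
  rw [← Finset.cons_eq_insert i S hi, Finset.piAntidiag_cons hi, Finset.sum_disjiUnion]
  refine Finset.sum_congr rfl fun p _ => ?_
  rw [Finset.sum_map, Finset.mul_sum]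
  refine Finset.sum_congr rfl fun e he => ?_
  have he0 : e i = 0 := by
    by_contra h
    exact hi ((Finset.mem_piAntidiag.1 he).2 i h)
  rw [Finset.prod_cons]
  congr 1
  · simp [he0]
  · refine Finset.prod_congr rfl fun j hj => ?_
    have : j ≠ i := by
      rintro rfl
      exact hi hj
    simp [this]

lemma mul_apply_prime_pow (f g : ArithmeticFunction ℂ) {p : ℕ} (hp : p.Prime) (m : ℕ) :
    (f * g) (p ^ m) = ∑ q ∈ antidiagonal m, f (p ^ q.1) * g (p ^ q.2) := by
  rw [ArithmeticFunction.mul_apply, Nat.sum_divisorsAntidiagonal (fun a b => f a * g b),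
    Nat.sum_divisors_prime_pow hp, Finset.Nat.sum_antidiagonal_eq_sum_range_succ
      (fun a b => f (p ^ a) * g (p ^ b))]
  refine Finset.sum_congr rfl fun j hj => ?_
  rw [Finset.mem_range] at hj
  rw [Nat.pow_div (by omega) hp.pos]

lemma pw_prime_pow (x : ℂ) {p : ℕ} (hp : p.Prime) (m : ℕ) :
    pw x (p ^ m) = ((p : ℂ) ^ (-(I * x))) ^ m := by
  rw [pw_apply _ (pow_ne_zero _ hp.ne_zero), Nat.cast_pow, ← Complex.cpow_nat_mul,
    ← Complex.natCast_cpow_natCast_mul]

lemma AF_prime_pow (S : Finset ι) (c : ι → ℂ) {p : ℕ} (hp : p.Prime) (m : ℕ) :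
    AF S c (p ^ m) = hsum S (fun j => (p : ℂ) ^ (-(I * c j))) m := by
  induction S using Finset.induction_on generalizing m with
  | empty =>
    rw [AF_empty, hsum_empty, ArithmeticFunction.one_apply]
    by_cases hm : m = 0
    · simp [hm]
    · have : p ^ m ≠ 1 := by
        intro h
        have := (Nat.one_lt_pow hm hp.one_lt)
        omega
      rw [if_neg this, if_neg hm]
  | insert i S hi ih =>
    rw [AF_insert hi, mul_apply_prime_pow _ _ hp, hsum_insert hi]
    refine Finset.sum_congr rfl fun q _ => ?_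
    rw [pw_prime_pow _ hp, ih]

lemma norm_pw_le (x : ℝ) (n : ℕ) : ‖pw (x : ℂ) n‖ ≤ 1 := by
  by_cases hn : n = 0
  · subst hn; simp
  · rw [pw_apply _ hn, Complex.norm_natCast_cpow_of_pos (Nat.pos_of_ne_zero hn)]
    simp

lemma norm_AF_le (S : Finset ι) (c : ι → ℝ) (n : ℕ) :
    ‖AF S (fun j => (c j : ℂ)) n‖ ≤ (n.divisors.card : ℝ) ^ S.card := by
  induction S using Finset.induction_on generalizing n with
  | empty =>
    rw [AF_empty, Finset.card_empty, pow_zero, ArithmeticFunction.one_apply]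
    split_ifs <;> simp
  | insert i S hi ih =>
    by_cases hn : n = 0
    · subst hn; simp
    rw [AF_insert hi, ArithmeticFunction.mul_apply, Finset.card_insert_of_notMem hi,
      Nat.sum_divisorsAntidiagonal (fun a b => pw (c i : ℂ) a * AF S (fun j => (c j : ℂ)) b)]
    refine (norm_sum_le _ _).trans ?_
    calc ∑ d ∈ n.divisors, ‖pw (c i : ℂ) d * AF S (fun j => (c j : ℂ)) (n / d)‖
        ≤ ∑ _d ∈ n.divisors, 1 * (n.divisors.card : ℝ) ^ S.card := by
          refine Finset.sum_le_sum fun d hd => ?_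
          rw [norm_mul]
          refine mul_le_mul (norm_pw_le _ _) ((ih _).trans ?_) (norm_nonneg _) zero_le_one
          have h1 : (n / d) ∣ n := Nat.div_dvd_of_dvd (Nat.dvd_of_mem_divisors hd)
          have h2 : (n / d).divisors.card ≤ n.divisors.card :=
            Finset.card_le_card (Nat.divisors_subset_of_dvd hn h1)
          have h3 : ((n / d).divisors.card : ℝ) ≤ n.divisors.card := by exact_mod_cast h2
          gcongr
      _ = _ := by
          rw [Finset.sum_const, nsmul_eq_mul, pow_succ]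
          ring

end Pool.Agent.H26
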