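import Pool.Agent.H26.MeanSq

/-!
Lower bound for the mean square of the differences of the Mellin–Barnes integral on a block.
-/

namespace Pool.Agent.H26

open Complex MeasureTheory Set Filter Topology Pool.Agent.H95fa

lemma phiM_props {q σ : ℝ} (hσ1 : |σ| ≤ 1) {c : ℕ → ℂ} {l : List ℝ} {b η D : ℝ} (hD : 0 ≤ D)
    (hη0 : 0 < η) (hη1 : η ≤ 1)
    (hi : Integrable fun v : ℝ => fM c l b (-(η * I)) (σ + v * I))
    (hb : ∀ v : ℝ, ‖fM c l b (-(η * I)) (σ + v * I)‖ ≤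
      D * (1 + |v|) ^ q * Real.exp (-(η * |v|))) (m : ℕ) :
    Integrable (phiM c l b σ η m) ∧
    (∀ v : ℝ, ‖phiM c l b σ η m v‖ ^ 2 ≤
      (D * 4 ^ m) ^ 2 * ((1 + |v|) ^ (2 * q) * Real.exp (-(2 * η * |v|)))) ∧
    MemLp (phiM c l b σ η m) 2 := by
  have h4 : ∀ v : ℝ, ‖(cexp (-(((σ : ℂ) + v * I) * η)) - 1) ^ m‖ ≤ 4 ^ m := by
    intro v
    rw [norm_pow]
    exact pow_le_pow_left₀ (norm_nonneg _) (norm_exp_sub_one_le hσ1 hη0 hη1) m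
  have hI : Integrable (phiM c l b σ η m) := by
    have h := Integrable.bdd_mul (c := (4:ℝ) ^ m)
      (f := fun v : ℝ => (cexp (-(((σ : ℂ) + v * I) * η)) - 1) ^ m) hi
      (by fun_prop) (Eventually.of_forall h4)
    refine h.congr (Eventually.of_forall fun v => ?_)
    simp only [phiM]
    ring
  have hB : ∀ v : ℝ, ‖phiM c l b σ η m v‖ ^ 2 ≤
      (D * 4 ^ m) ^ 2 * ((1 + |v|) ^ (2 * q) * Real.exp (-(2 * η * |v|))) := by
    intro v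
    have h1 : ‖phiM c l b σ η m v‖ ≤
        (D * (1 + |v|) ^ q * Real.exp (-(η * |v|))) * 4 ^ m := by
      unfold phiM
      rw [norm_mul]
      exact mul_le_mul (hb v) (h4 v) (norm_nonneg _) (by positivity)
    refine (pow_le_pow_left₀ (norm_nonneg _) h1 2).trans (le_of_eq ?_)
    have h2 : (1 + |v|) ^ (2 * q) = ((1 + |v|) ^ q) ^ 2 := by
      rw [← Real.rpow_natCast, ← Real.rpow_mul (by positivity)]
      congr 1
      push_cast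
      ring
    have h3 : Real.exp (-(2 * η * |v|)) = (Real.exp (-(η * |v|))) ^ 2 := by
      rw [← Real.exp_nat_mul]
      congr 1
      push_cast
      ring
    rw [h2, h3]
    ring
  refine ⟨hI, hB, ?_⟩
  rw [memLp_two_iff_integrable_sq_norm hI.aestronglyMeasurable]
  refine Integrable.mono' ((integrable_poly_exp (2 * q) (show 0 < 2 * η by positivity)).const_mul
    ((D * 4 ^ m) ^ 2)) (hI.aestronglyMeasurable.norm.pow 2) (Eventually.of_forall fun v => ?_)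
  rw [Real.norm_of_nonneg (by positivity)]
  exact hB v

lemma upper_phiM {q σ : ℝ} (hq : 0 ≤ q) : ∃ Cq : ℝ, 0 < Cq ∧ ∀ (c : ℕ → ℂ) (l : List ℝ)
    (b η D : ℝ) (m : ℕ), 0 < η → η ≤ 1 → Integrable (phiM c l b σ η m) →
    (∀ v : ℝ, ‖phiM c l b σ η m v‖ ^ 2 ≤
      (D * 4 ^ m) ^ 2 * ((1 + |v|) ^ (2 * q) * Real.exp (-(2 * η * |v|)))) →
    ∫ v : ℝ, ‖phiM c l b σ η m v‖ ^ 2 ≤ (D * 4 ^ m) ^ 2 * Cq * η ^ (-(2 * q + 1)) := by
  obtain ⟨Cq, hCq0, hCq⟩ := integral_poly_exp_le (q := 2 * q) (by positivity)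
  refine ⟨Cq, hCq0, fun c l b η D m hη0 hη1 hI hB => ?_⟩
  calc ∫ v : ℝ, ‖phiM c l b σ η m v‖ ^ 2 ≤
      ∫ v : ℝ, (D * 4 ^ m) ^ 2 * ((1 + |v|) ^ (2 * q) * Real.exp (-(2 * η * |v|))) :=
        integral_mono_of_nonneg (Eventually.of_forall fun v => by positivity)
          ((integrable_poly_exp (2 * q) (show 0 < 2 * η by positivity)).const_mul _)
          (Eventually.of_forall hB)
    _ = (D * 4 ^ m) ^ 2 * ∫ v : ℝ, (1 + |v|) ^ (2 * q) * Real.exp (-(2 * η * |v|)) :=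
        integral_const_mul _ _
    _ ≤ (D * 4 ^ m) ^ 2 * (Cq * η ^ (-(2 * q + 1))) := by
        gcongr
        exact hCq η hη0 hη1
    _ = _ := by ring

lemma lower_phiM {k : ℕ} {κ : ℝ} (hκ : 0 < κ) {c : ℕ → ℂ} {l : List ℝ} {b η : ℝ} {m : ℕ}
    (hη0 : 0 < η)
    (hb : ∀ v : ℝ, 0 ≤ v → κ * (1 + v) ^ k * Real.exp (-(η * v)) ≤
      ‖fM c l b (-(η * I)) (((-(1 / 2) : ℝ) : ℂ) + v * I)‖)
    (hI : Integrable fun v => ‖phiM c l b (-(1 / 2)) η m v‖ ^ 2) :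
    (κ * Real.exp (-2) * (1 / 2) ^ m) ^ 2 * η ^ (-(2 * k + 1) : ℝ) ≤
      ∫ v : ℝ, ‖phiM c l b (-(1 / 2)) η m v‖ ^ 2 := by
  have h1 : ∀ v ∈ Ioc (1 / η) (2 / η), (κ * Real.exp (-2) * (1 / 2) ^ m) ^ 2 * (1 / η) ^ (2 * k) ≤
      ‖phiM c l b (-(1 / 2)) η m v‖ ^ 2 := by
    intro v hv
    have hv1 : 1 ≤ η * v := by
      have := hv.1.le
      rw [div_le_iff₀ hη0] at this
      linarith
    have hv2 : η * v ≤ 2 := by
      have := hv.2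
      rw [le_div_iff₀ hη0] at this
      linarith
    have hv0 : 0 ≤ v := le_trans (by positivity) hv.1.le
    have h2 := hb v hv0
    have h3 := norm_exp_sub_one_ge hη0 hv1 hv2
    have h4 : κ * Real.exp (-2) * (1 / 2) ^ m * (1 / η) ^ k ≤
        ‖phiM c l b (-(1 / 2)) η m v‖ := by
      unfold phiM
      rw [norm_mul, norm_pow]
      calc κ * Real.exp (-2) * (1 / 2) ^ m * (1 / η) ^ k =
          (κ * (1 / η) ^ k * Real.exp (-2)) * (1 / 2) ^ m := by ring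
        _ ≤ (κ * (1 + v) ^ k * Real.exp (-(η * v))) * (1 / 2) ^ m := by
            gcongr
            linarith [hv.1]
        _ ≤ _ := by gcongr
    calc (κ * Real.exp (-2) * (1 / 2) ^ m) ^ 2 * (1 / η) ^ (2 * k) =
        (κ * Real.exp (-2) * (1 / 2) ^ m * (1 / η) ^ k) ^ 2 := by ring
      _ ≤ _ := pow_le_pow_left₀ (by positivity) h4 2
  calc (κ * Real.exp (-2) * (1 / 2) ^ m) ^ 2 * η ^ (-(2 * k + 1) : ℝ) =
      ∫ v in Ioc (1 / η) (2 / η), (κ * Real.exp (-2) * (1 / 2) ^ m) ^ 2 * (1 / η) ^ (2 * k) := by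
        rw [setIntegral_const, Real.volume_real_Ioc_of_le (by gcongr; norm_num), smul_eq_mul]
        have e1 : 2 / η - 1 / η = η⁻¹ := by ring
        have e2 : η ^ (-(2 * k + 1) : ℝ) = η⁻¹ * (1 / η) ^ (2 * k) := by
          rw [neg_add, Real.rpow_add hη0, Real.rpow_neg_one, Real.rpow_neg hη0.le]
          have : η ^ (2 * k : ℝ) = η ^ (2 * k) := by
            rw [← Real.rpow_natCast]
            push_cast
            rfl
          rw [this, one_div, inv_pow]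
          ring
        rw [e1, e2]
        ring
    _ ≤ ∫ v in Ioc (1 / η) (2 / η), ‖phiM c l b (-(1 / 2)) η m v‖ ^ 2 := by
        refine setIntegral_mono_on ?_ hI.integrableOn measurableSet_Ioc h1
        exact integrableOn_const (by simp)
    _ ≤ _ := setIntegral_le_integral hI (Eventually.of_forall fun v => by positivity)

lemma summable_mono_exp {c : ℕ → ℂ} {B B' : ℕ} (h : B' ≤ B)
    (hc : Summable fun m => ‖c m‖ * ((m + 1 : ℕ) : ℝ) ^ (B : ℝ)) :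
    (Summable fun m => ‖c m‖ * ((m + 1 : ℕ) : ℝ) ^ (B' : ℝ)) ∧
    ∑' m, ‖c m‖ * ((m + 1 : ℕ) : ℝ) ^ (B' : ℝ) ≤ ∑' m, ‖c m‖ * ((m + 1 : ℕ) : ℝ) ^ (B : ℝ) := by
  have hle : ∀ m : ℕ, ‖c m‖ * ((m + 1 : ℕ) : ℝ) ^ (B' : ℝ) ≤ ‖c m‖ * ((m + 1 : ℕ) : ℝ) ^ (B : ℝ) := by
    intro m
    refine mul_le_mul_of_nonneg_left ?_ (norm_nonneg _)
    refine Real.rpow_le_rpow_of_exponent_le ?_ (by exact_mod_cast h)
    push_cast
    linarith [Nat.cast_nonneg (α := ℝ) m]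
  have hs : Summable fun m => ‖c m‖ * ((m + 1 : ℕ) : ℝ) ^ (B' : ℝ) :=
    Summable.of_nonneg_of_le (fun m => by positivity) hle hc
  exact ⟨hs, hs.tsum_le_tsum hle hc⟩

theorem exists_block (k : ℕ) : ∃ (δ : ℝ) (B : ℕ), 0 < δ ∧ ∀ l : List ℝ, l.length = k + 1 →
    ∀ (b : ℝ) (m : ℕ) (S : ℝ), ∃ c' A : ℝ, 0 < c' ∧ 0 ≤ A ∧ ∀ c : ℕ → ℂ,
    (Summable fun m => ‖c m‖ * ((m + 1 : ℕ) : ℝ) ^ (B : ℝ)) →
    ∑' m, ‖c m‖ * ((m + 1 : ℕ) : ℝ) ^ (B : ℝ) ≤ S →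
    1 / 2 ≤ ‖c 0‖ → ∑' m, ‖c (m + 1)‖ * ((m + 2 : ℕ) : ℝ) ^ (B : ℝ) ≤ δ →
    ∀ η : ℝ, 0 < η → η ≤ 1 / 4 →
      c' * η ^ (-(k + 1) : ℝ) ≤ ∫ x in (k * Real.log η - A)..(k * Real.log η + A),
        ‖(dd η)^[m] (VM c l b (-(1 / 2))) (x - η * I)‖ ^ 2 := by
  obtain ⟨B₁, h₁⟩ := exists_MB (k + 1)
  obtain ⟨δ, B₂, hδ, h₂⟩ := exists_norm_fM_ge k
  obtain ⟨B₃, h₃⟩ := exists_norm_fM_le k (σ := -(1 / 2)) (by norm_num) (by norm_num)
  obtain ⟨B₄, h₄⟩ := exists_norm_fM_le k (σ := -(2 / 3)) (by norm_num) (by norm_num)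
  obtain ⟨B₅, h₅⟩ := exists_norm_fM_le k (σ := -(1 / 3)) (by norm_num) (by norm_num)
  refine ⟨δ, B₁ + 2 + B₂ + B₃ + B₄ + B₅, hδ, fun l hl b m S => ?_⟩
  set B : ℕ := B₁ + 2 + B₂ + B₃ + B₄ + B₅ with hB
  obtain ⟨C₁, hC₁0, hC₁⟩ := h₁ l hl b
  obtain ⟨κ, hκ, hκ'⟩ := h₂ l hl
  obtain ⟨C₃, hC₃0, hC₃⟩ := h₃ l hl
  obtain ⟨C₄, hC₄0, hC₄⟩ := h₄ l hl
  obtain ⟨C₅, hC₅0, hC₅⟩ := h₅ l hl
  obtain ⟨D₄, hD₄0, hD₄⟩ := upper_phiM (q := k * (1 / 2 - -(2 / 3))) (σ := -(2 / 3))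
    (by positivity)
  obtain ⟨D₅, hD₅0, hD₅⟩ := upper_phiM (q := k * (1 / 2 - -(1 / 3))) (σ := -(1 / 3))
    (by positivity)
  have hpi := Real.pi_pos
  set c₁ : ℝ := 2 * Real.pi * (κ * Real.exp (-2) * (1 / 2) ^ m) ^ 2 with hc₁
  have hc₁0 : 0 < c₁ := by positivity
  set K₂ : ℝ := 2 * Real.pi * ((C₄ * S * 4 ^ m) ^ 2 * D₄) with hK₂
  set K₃ : ℝ := 2 * Real.pi * ((C₅ * S * 4 ^ m) ^ 2 * D₅) with hK₃
  have hK₂0 : 0 ≤ K₂ := by positivity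
  have hK₃0 : 0 ≤ K₃ := by positivity
  -- choice of `A`
  obtain ⟨A, hA0, hA⟩ : ∃ A : ℝ, 0 ≤ A ∧ (K₂ + K₃) * Real.exp (-(A / 3)) ≤ c₁ / 2 := by
    refine ⟨3 * ((K₂ + K₃) / (c₁ / 2)), by positivity, ?_⟩
    set y : ℝ := (K₂ + K₃) / (c₁ / 2) with hy
    have hy0 : 0 ≤ y := by positivity
    have e1 : K₂ + K₃ = y * (c₁ / 2) := by rw [hy]; field_simp
    have e2 : 3 * y / 3 = y := by ring
    rw [e1, e2, Real.exp_neg]
    have h1 : y ≤ Real.exp y := by linarith [Real.add_one_le_exp y]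
    have h2 : y * (Real.exp y)⁻¹ ≤ 1 := by
      rw [← div_eq_mul_inv, div_le_one (Real.exp_pos _)]
      exact h1
    calc y * (c₁ / 2) * (Real.exp y)⁻¹ = (y * (Real.exp y)⁻¹) * (c₁ / 2) := by ring
      _ ≤ 1 * (c₁ / 2) := by gcongr
      _ = _ := one_mul _
  refine ⟨c₁ / 2 * Real.exp (-A), A, by positivity, hA0, ?_⟩
  intro c hc hS h0 ht η hη0 hη4
  have hη1 : η ≤ 1 := by linarith
  have hc₁' := (summable_mono_exp (B' := B₁ + 2) (by omega) hc)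
  have hc₂' := (summable_mono_exp (B' := B₂) (by omega) hc)
  have hc₃' := (summable_mono_exp (B' := B₃) (by omega) hc)
  have hc₄' := (summable_mono_exp (B' := B₄) (by omega) hc)
  have hc₅' := (summable_mono_exp (B' := B₅) (by omega) hc)
  obtain ⟨-, hV, hVi, -, -⟩ := hC₁ c hc₁'.1
  have hmem : ∀ (x : ℝ) (j : ℕ), ((x : ℂ) - η * I) + j * η ∈ St ∧
      (((x : ℂ) - η * I) + j * η).im < 0 := by
    intro x j
    have e : (((x : ℂ) - η * I) + j * η).im = -η := by simp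
    refine ⟨?_, by rw [e]; linarith⟩
    show |Complex.im _| < (1 / 2 : ℝ)
    rw [e, abs_neg, abs_of_pos hη0]
    linarith
  have hmem0 : (-(η * I) : ℂ) ∈ St ∧ (-(η * I) : ℂ).im < 0 := by
    have e : (-(η * I) : ℂ).im = -η := by simp
    refine ⟨?_, by rw [e]; linarith⟩
    show |Complex.im _| < (1 / 2 : ℝ)
    rw [e, abs_neg, abs_of_pos hη0]
    linarith
  -- the differences do not depend on the line
  have hddV : ∀ σ : ℝ, -(2 / 3) ≤ σ → σ ≤ -(1 / 3) → ∀ x : ℝ,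
      (dd η)^[m] (VM c l b σ) (x - η * I) = (dd η)^[m] (VM c l b (-(1 / 2))) (x - η * I) := by
    intro σ hσ0 hσ1 x
    rw [dd_iter_eq_sum, dd_iter_eq_sum]
    refine Finset.sum_congr rfl fun j _ => ?_
    rw [hV _ (hmem x j).1 (hmem x j).2 σ hσ0 hσ1]
  -- the tail
  have ht2 : ∑' m, ‖c (m + 1)‖ * ((m + 2 : ℕ) : ℝ) ^ (B₂ : ℝ) ≤ δ := by
    refine le_trans ?_ ht
    have hsB : Summable fun m => ‖c (m + 1)‖ * ((m + 2 : ℕ) : ℝ) ^ (B : ℝ) := by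
      have := (summable_nat_add_iff 1).2 hc
      exact this
    have hsB2 : Summable fun m => ‖c (m + 1)‖ * ((m + 2 : ℕ) : ℝ) ^ (B₂ : ℝ) := by
      have := (summable_nat_add_iff 1).2 hc₂'.1
      exact this
    refine hsB2.tsum_le_tsum (fun i => ?_) hsB
    refine mul_le_mul_of_nonneg_left ?_ (norm_nonneg _)
    refine Real.rpow_le_rpow_of_exponent_le ?_ (by exact_mod_cast (by omega : B₂ ≤ B))
    push_cast
    linarith [Nat.cast_nonneg (α := ℝ) i]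
  have hlow := hκ' b c hc₂'.1 h0 ht2 η
  have hS0 : ∀ B' : ℕ, 0 ≤ ∑' m, ‖c m‖ * ((m + 1 : ℕ) : ℝ) ^ (B' : ℝ) :=
    fun B' => tsum_nonneg fun m => by positivity
  have hSpos : 0 ≤ S := (hS0 B).trans hS
  -- the three lines
  have p3 := phiM_props (q := k * (1 / 2 - -(1 / 2))) (σ := -(1 / 2)) (by norm_num [abs_le])
    (mul_nonneg hC₃0.le (hS0 B₃)) hη0 hη1
    (hVi _ hmem0.1 hmem0.2 _ (by norm_num) (by norm_num)) (fun v => hC₃ b c hc₃'.1 η v hη0 hη1) m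
  have p4 := phiM_props (q := k * (1 / 2 - -(2 / 3))) (σ := -(2 / 3)) (by norm_num [abs_le])
    (mul_nonneg hC₄0.le (hS0 B₄)) hη0 hη1
    (hVi _ hmem0.1 hmem0.2 _ (by norm_num) (by norm_num)) (fun v => hC₄ b c hc₄'.1 η v hη0 hη1) m
  have p5 := phiM_props (q := k * (1 / 2 - -(1 / 3))) (σ := -(1 / 3)) (by norm_num [abs_le])
    (mul_nonneg hC₅0.le (hS0 B₅)) hη0 hη1
    (hVi _ hmem0.1 hmem0.2 _ (by norm_num) (by norm_num)) (fun v => hC₅ b c hc₅'.1 η v hη0 hη1) m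
  have q3 := plancherel_dd (c := c) (l := l) (b := b) (σ := -(1 / 2)) (η := η) (m := m)
    (fun x j _ => hVi _ (hmem x j).1 (hmem x j).2 _ (by norm_num) (by norm_num)) p3.1 p3.2.2
  have q4 := plancherel_dd (c := c) (l := l) (b := b) (σ := -(2 / 3)) (η := η) (m := m)
    (fun x j _ => hVi _ (hmem x j).1 (hmem x j).2 _ (by norm_num) (by norm_num)) p4.1 p4.2.2
  have q5 := plancherel_dd (c := c) (l := l) (b := b) (σ := -(1 / 3)) (η := η) (m := m)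
    (fun x j _ => hVi _ (hmem x j).1 (hmem x j).2 _ (by norm_num) (by norm_num)) p5.1 p5.2.2
  have l3 := lower_phiM (k := k) hκ (c := c) (l := l) (b := b) (m := m) hη0 hlow
    ((memLp_two_iff_integrable_sq_norm p3.1.aestronglyMeasurable).1 p3.2.2)
  have u4 := hD₄ c l b η _ m hη0 hη1 p4.1 p4.2.1
  have u5 := hD₅ c l b η _ m hη0 hη1 p5.1 p5.2.1
  have e3 : ∀ x : ℝ, 2 * -(1 / 2) * x = -x := fun x => by ring
  have e4 : ∀ x : ℝ, 2 * -(2 / 3) * x = -(4 / 3) * x := fun x => by ring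
  have e5 : ∀ x : ℝ, 2 * -(1 / 3) * x = -(2 / 3) * x := fun x => by ring
  simp only [hddV (-(2 / 3)) (by norm_num) (by norm_num), e4] at q4
  simp only [hddV (-(1 / 3)) (by norm_num) (by norm_num), e5] at q5
  simp only [e3] at q3
  refine block (F := fun x : ℝ => ‖(dd η)^[m] (VM c l b (-(1 / 2))) (x - η * I)‖ ^ 2)
    (fun x => by positivity) (k := k) (c₁ := c₁) (C₂ := K₂) (C₃ := K₃) hη0 hA0 q3.1 ?_ q4.1 ?_ q5.1 ?_
    hA
  · rw [q3.2, hc₁]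
    calc _ = 2 * Real.pi * ((κ * Real.exp (-2) * (1 / 2) ^ m) ^ 2 * η ^ (-(2 * k + 1) : ℝ)) := by
          ring
      _ ≤ _ := by gcongr
  · rw [q4.2, hK₂]
    calc _ ≤ 2 * Real.pi * (((C₄ * ∑' m, ‖c m‖ * ((m + 1 : ℕ) : ℝ) ^ (B₄ : ℝ)) * 4 ^ m) ^ 2 * D₄ *
          η ^ (-(2 * ((k:ℝ) * (1 / 2 - -(2 / 3))) + 1))) := by gcongr
      _ ≤ 2 * Real.pi * ((C₄ * S * 4 ^ m) ^ 2 * D₄ *
          η ^ (-(2 * ((k:ℝ) * (1 / 2 - -(2 / 3))) + 1))) := by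
          have := hS0 B₄
          gcongr
          exact hc₄'.2.trans hS
      _ = _ := by
          have : (-(2 * (k * (1 / 2 - -(2 / 3))) + 1) : ℝ) = -(7 / 3 * k + 1) := by ring
          rw [this]
          ring
  · rw [q5.2, hK₃]
    calc _ ≤ 2 * Real.pi * (((C₅ * ∑' m, ‖c m‖ * ((m + 1 : ℕ) : ℝ) ^ (B₅ : ℝ)) * 4 ^ m) ^ 2 * D₅ *
          η ^ (-(2 * ((k:ℝ) * (1 / 2 - -(1 / 3))) + 1))) := by gcongr
      _ ≤ 2 * Real.pi * ((C₅ * S * 4 ^ m) ^ 2 * D₅ *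
          η ^ (-(2 * ((k:ℝ) * (1 / 2 - -(1 / 3))) + 1))) := by
          have := hS0 B₅
          gcongr
          exact hc₅'.2.trans hS
      _ = _ := by
          have : (-(2 * (k * (1 / 2 - -(1 / 3))) + 1) : ℝ) = -(5 / 3 * k + 1) := by ring
          rw [this]
          ring

end Pool.Agent.H26
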