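import Pool.Agent.H26.GammaBound
import Pool.Agent.H26.PolyExp
import Pool.Agent.H26.HoloInt

/-!
The Cahen–Mellin integral.
-/

namespace Pool.Agent.H26

open Complex MeasureTheory Set Filter Topology

lemma norm_cpow_neg_line {u : ℂ} (hu : u ≠ 0) (v : ℝ) :
    ‖u ^ (-(2 + v * I))‖ = ‖u‖ ^ (-2 : ℝ) * Real.exp (u.arg * v) := by
  rw [Complex.norm_cpow_of_ne_zero hu, div_eq_mul_inv, ← Real.exp_neg]
  congr 2
  · simp
  · simp

lemma continuous_Gamma_line {x : ℝ} (hx : ∀ n : ℕ, x ≠ -n) :
    Continuous fun y : ℝ => Gamma (x + y * I) := by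
  rw [continuous_iff_continuousAt]
  intro y
  have h : DifferentiableAt ℂ Gamma (x + y * I) := by
    refine differentiableAt_Gamma _ fun m hm => ?_
    have := congrArg Complex.re hm
    simp at this
    exact hx m this
  exact ContinuousAt.comp (f := fun y : ℝ => (x + y * I : ℂ)) h.continuousAt (by fun_prop)

lemma two_ne (n : ℕ) : (2:ℝ) ≠ -n := by
  have : (0:ℝ) ≤ n := Nat.cast_nonneg n
  linarith

lemma continuous_Gamma_two : Continuous fun y : ℝ => Gamma (2 + y * I) := by
  have := continuous_Gamma_line (x := 2) two_ne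
  simpa using this

lemma exists_norm_Gamma_two_le : ∃ C : ℝ, 0 < C ∧ ∀ y : ℝ,
    ‖Gamma (2 + y * I)‖ ≤ C * (1 + |y|) ^ (3 / 2 : ℝ) * Real.exp (-(Real.pi * |y| / 2)) := by
  obtain ⟨C, hC0, hC⟩ := exists_norm_Gamma_le (x := 2) (by norm_num) (by norm_num) two_ne
  refine ⟨C, hC0, fun y => ?_⟩
  have := hC y
  norm_num at this
  norm_num
  exact this

/-- the Cahen–Mellin integral on the positive half line -/
lemma cahen_mellin_real {x : ℝ} (hx : 0 < x) :
    ∫ v : ℝ, Gamma (2 + v * I) * (x : ℂ) ^ (-(2 + v * I)) = 2 * Real.pi * exp (-x) := by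
  have hmel : mellin (fun x : ℝ => ((Real.exp (-x) : ℝ) : ℂ)) = GammaIntegral :=
    (GammaIntegral_eq_mellin).symm
  have hG : ∀ s : ℂ, 0 < s.re → mellin (fun x : ℝ => ((Real.exp (-x) : ℝ) : ℂ)) s = Gamma s := by
    intro s hs
    rw [hmel, Gamma_eq_integral hs]
  have h := mellinInv_mellin_eq (σ := 2) (f := fun x : ℝ => ((Real.exp (-x) : ℝ) : ℂ)) hx
    ?_ ?_ ?_
  · unfold mellinInv at h
    have e1 : ∀ y : ℝ, (x : ℂ) ^ (-(((2:ℝ):ℂ) + y * I)) •
        mellin (fun x : ℝ => ((Real.exp (-x) : ℝ) : ℂ)) (((2:ℝ):ℂ) + y * I) =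
        Gamma (2 + y * I) * (x : ℂ) ^ (-(2 + y * I)) := by
      intro y
      rw [hG _ (by simp), smul_eq_mul, mul_comm]
      norm_num
    simp only [e1] at h
    have hpi : (2 * Real.pi : ℂ) ≠ 0 := by
      have := Real.pi_pos
      exact_mod_cast (by positivity : (2 * Real.pi : ℝ) ≠ 0)
    have h2 : ∫ v : ℝ, Gamma (2 + v * I) * (x : ℂ) ^ (-(2 + v * I)) =
        (2 * Real.pi : ℂ) * ((1 / (2 * Real.pi) : ℝ) •
          ∫ v : ℝ, Gamma (2 + v * I) * (x : ℂ) ^ (-(2 + v * I))) := by
      generalize (∫ v : ℝ, Gamma (2 + v * I) * (x : ℂ) ^ (-(2 + v * I))) = J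
      rw [Complex.real_smul]
      push_cast
      field_simp
    rw [h2, h]
    push_cast
    rfl
  · have := Complex.GammaIntegral_convergent (s := ((2:ℝ):ℂ)) (by simp)
    unfold MellinConvergent
    refine this.congr_fun ?_ measurableSet_Ioi
    intro t _
    simp only [smul_eq_mul]
    rw [mul_comm]
  · unfold VerticalIntegrable
    have e1 : (fun y : ℝ => mellin (fun x : ℝ => ((Real.exp (-x) : ℝ) : ℂ)) (((2:ℝ):ℂ) + y * I)) =
        fun y : ℝ => Gamma (2 + y * I) := by
      funext y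
      rw [hG _ (by simp)]
      norm_num
    rw [e1]
    obtain ⟨C, hC0, hC⟩ := exists_norm_Gamma_two_le
    have hi := (integrable_poly_exp (3 / 2) (half_pos Real.pi_pos)).const_mul C
    refine Integrable.mono' hi continuous_Gamma_two.aestronglyMeasurable ?_
    filter_upwards with y
    refine (hC y).trans (le_of_eq ?_)
    rw [mul_assoc]
    congr 3
    ring
  · fun_prop

/-- The Cahen–Mellin integral: `e^{-u} = (2πi)⁻¹ ∫ Γ(w) u^{-w} dw` over `Re w = 2`. -/
theorem cahen_mellin {u : ℂ} (hu : 0 < u.re) :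
    ∫ v : ℝ, Gamma (2 + v * I) * u ^ (-(2 + v * I)) = 2 * Real.pi * exp (-u) := by
  set U : Set ℂ := {u | 0 < u.re} with hUdef
  have hUo : IsOpen U := isOpen_lt continuous_const continuous_re
  have hUc : IsPreconnected U := (convex_halfSpace_re_gt 0).isPreconnected
  obtain ⟨C, hC0, hC⟩ := exists_norm_Gamma_two_le
  have hL : DifferentiableOn ℂ (fun u => ∫ v : ℝ, Gamma (2 + v * I) * u ^ (-(2 + v * I))) U := by
    refine differentiableOn_integral_of_locally_majorant hUo ?_ ?_ ?_
    · intro z hz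
      have hz0 : z ≠ 0 := by rintro rfl; simp [hUdef] at hz
      refine Continuous.aestronglyMeasurable ?_
      refine continuous_Gamma_two.mul ?_
      exact Continuous.const_cpow (by fun_prop) (Or.inl hz0)
    · filter_upwards with v
      refine DifferentiableOn.const_mul ?_ _
      intro z hz
      refine DifferentiableAt.differentiableWithinAt ?_
      refine DifferentiableAt.cpow_const differentiableAt_id ?_
      exact Or.inl hz
    · intro z₀ hz₀
      have hz₀0 : z₀ ≠ 0 := by rintro rfl; simp [hUdef] at hz₀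
      have harg : |z₀.arg| < Real.pi / 2 := Complex.abs_arg_lt_pi_div_two_iff.2 (Or.inl hz₀)
      obtain ⟨θ, hθ1, hθ2⟩ := exists_between harg
      have hθ0 : 0 ≤ θ := (abs_nonneg _).trans hθ1.le
      have hslit : z₀ ∈ slitPlane := Or.inl hz₀
      have hV1 : {z : ℂ | |z.arg| < θ} ∈ 𝓝 z₀ := by
        have hc : ContinuousAt (fun z : ℂ => |z.arg|) z₀ := (continuousAt_arg hslit).abs
        exact hc.eventually (gt_mem_nhds hθ1)
      have hV2 : {z : ℂ | ‖z₀‖ / 2 < ‖z‖} ∈ 𝓝 z₀ := by
        have hc : ContinuousAt (fun z : ℂ => ‖z‖) z₀ := continuous_norm.continuousAt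
        exact hc.eventually (lt_mem_nhds (by linarith [norm_pos_iff.2 hz₀0]))
      refine ⟨_, inter_mem hV1 hV2, fun v => (‖z₀‖ / 2) ^ (-2 : ℝ) * C *
        ((1 + |v|) ^ (3 / 2 : ℝ) * Real.exp (-((Real.pi / 2 - θ) * |v|))), ?_, ?_⟩
      · exact (integrable_poly_exp _ (by linarith)).const_mul _
      · filter_upwards with v z hz
        have hz0 : z ≠ 0 := by
          rintro rfl
          have h1 := hz.2
          simp only [Set.mem_ofPred_eq, norm_zero] at h1
          linarith [norm_nonneg z₀]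
        have hn : 0 < ‖z₀‖ / 2 := by linarith [norm_pos_iff.2 hz₀0]
        rw [norm_mul, norm_cpow_neg_line hz0]
        have h1 : ‖z‖ ^ (-2 : ℝ) ≤ (‖z₀‖ / 2) ^ (-2 : ℝ) :=
          Real.rpow_le_rpow_of_nonpos hn (le_of_lt hz.2) (by norm_num)
        have h2 : Real.exp (z.arg * v) ≤ Real.exp (θ * |v|) := by
          apply Real.exp_le_exp.2
          calc z.arg * v ≤ |z.arg * v| := le_abs_self _
            _ = |z.arg| * |v| := abs_mul _ _
            _ ≤ θ * |v| := by
                gcongr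
                exact le_of_lt hz.1
        calc _ ≤ (C * (1 + |v|) ^ (3 / 2 : ℝ) * Real.exp (-(Real.pi * |v| / 2))) *
              ((‖z₀‖ / 2) ^ (-2 : ℝ) * Real.exp (θ * |v|)) := by
              gcongr
              exact hC v
          _ = (‖z₀‖ / 2) ^ (-2 : ℝ) * C * ((1 + |v|) ^ (3 / 2 : ℝ) *
              (Real.exp (-(Real.pi * |v| / 2)) * Real.exp (θ * |v|))) := by ring
          _ = _ := by
              rw [← Real.exp_add]
              congr 4
              ring
  have hR : DifferentiableOn ℂ (fun u : ℂ => 2 * Real.pi * exp (-u)) U := by fun_prop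
  have hev : ∃ᶠ z in 𝓝[≠] (1:ℂ), (fun u => ∫ v : ℝ, Gamma (2 + v * I) * u ^ (-(2 + v * I))) z =
      (fun u : ℂ => 2 * Real.pi * exp (-u)) z := by
    have hlim : Tendsto (fun n : ℕ => ((1 + 1 / ((n:ℝ) + 1) : ℝ) : ℂ)) atTop (𝓝[≠] 1) := by
      refine tendsto_nhdsWithin_of_tendsto_nhds_of_eventually_within _ ?_ ?_
      · have h1 : Tendsto (fun n : ℕ => 1 + 1 / ((n : ℝ) + 1)) atTop (𝓝 1) := by
          simpa using (tendsto_one_div_add_atTop_nhds_zero_nat (𝕜 := ℝ)).const_add 1
        have := (Complex.continuous_ofReal.tendsto 1).comp h1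
        rw [Complex.ofReal_one] at this
        exact this
      · refine Eventually.of_forall fun n => ?_
        simp only [mem_compl_iff, mem_singleton_iff]
        intro h
        have h2 : (1 + 1 / ((n:ℝ) + 1) : ℝ) = 1 := by exact_mod_cast h
        have : 0 < 1 / ((n:ℝ) + 1) := by positivity
        linarith
    refine hlim.frequently (Frequently.of_forall fun n => ?_)
    exact cahen_mellin_real (by positivity)
  have h1U : (1:ℂ) ∈ U := by simp [hUdef]
  have := AnalyticOnNhd.eqOn_of_preconnected_of_frequently_eq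
    (hL.analyticOnNhd hUo) (hR.analyticOnNhd hUo) hUc h1U hev
  exact this hu

end Pool.Agent.H26
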