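import Pool.Agent.H26.Gp
import Pool.Agent.H26.CahenMellin

/-!
The Cahen–Mellin integral against a Dirichlet series.
-/

namespace Pool.Agent.H26

open Complex MeasureTheory Set Filter Topology

lemma norm_exp_neg_mul (s Λ : ℂ) : ‖cexp (-(s * Λ))‖ = Real.exp (-(s.re * Λ.re) + s.im * Λ.im) := by
  rw [Complex.norm_exp]
  congr 1
  simp
  ring

lemma continuous_Gp_two : Continuous fun v : ℝ => Gp (2 + v * I) := by
  unfold Gp
  exact Continuous.mul (by fun_prop) continuous_Gamma_two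

/-- majorant on the line `Re s = 2` -/
lemma exists_norm_Gp_exp_two : ∃ C : ℝ, 0 < C ∧ ∀ (Λ : ℂ) (v : ℝ), Λ.im ≤ 0 → -Real.pi ≤ Λ.im →
    ‖Gp (2 + v * I) * cexp (-((2 + v * I) * Λ))‖ ≤
      C * Real.exp (-(2 * Λ.re)) * ((1 + |v|) ^ (2 : ℝ) *
        Real.exp (-(min (-Λ.im) (Real.pi + Λ.im) * |v|))) := by
  obtain ⟨C, hC0, hC⟩ := exists_norm_Gp_right
  refine ⟨C, hC0, fun Λ v h0 h1 => ?_⟩
  have h2 := (hC (2 + v * I) (by simp; norm_num) (by simp)).1
  have e1 : (2 + (v:ℂ) * I).im = v := by simp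
  have e2 : (2 + (v:ℂ) * I).re = 2 := by simp
  rw [e1] at h2
  rw [norm_mul, norm_exp_neg_mul, e1, e2]
  have h3 : Real.exp (-(Real.pi / 2 * |v|) + Real.pi / 2 * v) * Real.exp (-(2 * Λ.re) + v * Λ.im)
      ≤ Real.exp (-(2 * Λ.re)) * Real.exp (-(min (-Λ.im) (Real.pi + Λ.im) * |v|)) := by
    rw [← Real.exp_add, ← Real.exp_add]
    apply Real.exp_le_exp.2
    rcases le_total 0 v with hv | hv
    · rw [abs_of_nonneg hv]
      have := min_le_left (-Λ.im) (Real.pi + Λ.im)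
      nlinarith
    · rw [abs_of_nonpos hv]
      have := min_le_right (-Λ.im) (Real.pi + Λ.im)
      nlinarith
  have h4 : (1 + |v|) ^ (2 : ℝ) = (1 + |v|) ^ 2 := by norm_cast
  rw [h4]
  calc _ ≤ (C * (1 + |v|) ^ 2 * Real.exp (-(Real.pi / 2 * |v|) + Real.pi / 2 * v)) *
        Real.exp (-(2 * Λ.re) + v * Λ.im) := by gcongr
    _ = C * (1 + |v|) ^ 2 * (Real.exp (-(Real.pi / 2 * |v|) + Real.pi / 2 * v) *
        Real.exp (-(2 * Λ.re) + v * Λ.im)) := by ring
    _ ≤ C * (1 + |v|) ^ 2 * (Real.exp (-(2 * Λ.re)) *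
        Real.exp (-(min (-Λ.im) (Real.pi + Λ.im) * |v|))) := by gcongr
    _ = _ := by ring

lemma integrable_Gp_exp_two {Λ : ℂ} (h0 : Λ.im < 0) (h1 : -Real.pi < Λ.im) :
    Integrable fun v : ℝ => Gp (2 + v * I) * cexp (-((2 + v * I) * Λ)) := by
  obtain ⟨C, hC0, hC⟩ := exists_norm_Gp_exp_two
  have hc : 0 < min (-Λ.im) (Real.pi + Λ.im) := lt_min (by linarith) (by linarith)
  refine Integrable.mono' ((integrable_poly_exp 2 hc).const_mul (C * Real.exp (-(2 * Λ.re)))) ?_ ?_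
  · exact (continuous_Gp_two.mul (by fun_prop)).aestronglyMeasurable
  · filter_upwards with v
    exact hC Λ v h0.le h1.le

/-- the Cahen–Mellin integral for one term -/
lemma cahen_mellin_term {Λ : ℂ} (h0 : Λ.im < 0) (h1 : -Real.pi < Λ.im) {x : ℝ} (hx : 0 < x) :
    ∫ v : ℝ, Gp (2 + v * I) * cexp (-((2 + v * I) * Λ)) * (x : ℂ) ^ (-(2 + v * I)) =
      2 * Real.pi * cexp (-(2 * Real.pi * I * x * cexp Λ)) := by
  set W : ℂ := (Real.log x : ℂ) + ell + Λ with hW
  have hWim : W.im = Real.pi / 2 + Λ.im := by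
    simp [hW, ell]
  have hu : cexp W = 2 * Real.pi * I * x * cexp Λ := by
    rw [hW, ell, Complex.exp_add, Complex.exp_add, Complex.exp_add, ← Complex.ofReal_exp,
      Real.exp_log hx, ← Complex.ofReal_exp, Real.exp_log (by positivity)]
    have : cexp (I * ((Real.pi / 2 : ℝ) : ℂ)) = I := by
      rw [mul_comm]
      push_cast
      exact Complex.exp_pi_div_two_mul_I
    rw [this]
    push_cast
    ring
  have hre : 0 < (cexp W).re := by
    rw [Complex.exp_re]
    refine mul_pos (Real.exp_pos _) (Real.cos_pos_of_mem_Ioo ⟨?_, ?_⟩)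
    · rw [hWim]; linarith
    · rw [hWim]; linarith
  have h := cahen_mellin hre
  rw [hu] at h
  rw [← h]
  refine integral_congr_ae (Eventually.of_forall fun v => ?_)
  simp only
  rw [← hu, Complex.cpow_def_of_ne_zero (Complex.exp_ne_zero _),
    Complex.log_exp (by rw [hWim]; linarith [Real.pi_pos]) (by rw [hWim]; linarith [Real.pi_pos]),
    Complex.cpow_def_of_ne_zero (by exact_mod_cast hx.ne'), ← Complex.ofReal_log hx.le, Gp]
  have e : cexp (W * -(2 + v * I)) = cexp (-((2 + v * I) * ell)) * cexp (-((2 + v * I) * Λ)) *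
      cexp (Real.log x * -(2 + v * I)) := by
    rw [← Complex.exp_add, ← Complex.exp_add]
    congr 1
    rw [hW]
    ring
  rw [e]
  ring

/-- the Cahen–Mellin integral for a generalised Dirichlet series -/
theorem cahen_mellin_sum {ι : Type*} [Countable ι] {κ : ι → ℂ} {x : ι → ℝ} (hx : ∀ p, 0 < x p)
    (hs : Summable fun p => ‖κ p‖ * (x p) ^ (-2 : ℝ)) {Λ : ℂ} (h0 : Λ.im < 0)
    (h1 : -Real.pi < Λ.im) :
    ∫ v : ℝ, Gp (2 + v * I) * cexp (-((2 + v * I) * Λ)) *
        ∑' p, κ p * (x p : ℂ) ^ (-(2 + v * I)) =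
      ∑' p, κ p * (2 * Real.pi * cexp (-(2 * Real.pi * I * x p * cexp Λ))) := by
  set F : ι → ℝ → ℂ := fun p v => κ p * (Gp (2 + v * I) * cexp (-((2 + v * I) * Λ)) *
    (x p : ℂ) ^ (-(2 + v * I))) with hF
  have hi := integrable_Gp_exp_two h0 h1
  have hnx : ∀ p, ∀ v : ℝ, ‖(x p : ℂ) ^ (-(2 + v * I))‖ = (x p) ^ (-2 : ℝ) := by
    intro p v
    rw [Complex.norm_cpow_eq_rpow_re_of_pos (hx p)]
    congr 1
    simp
  have hnF : ∀ p v, ‖F p v‖ = (‖κ p‖ * (x p) ^ (-2 : ℝ)) *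
      ‖Gp (2 + v * I) * cexp (-((2 + v * I) * Λ))‖ := by
    intro p v
    simp only [hF]
    rw [norm_mul, norm_mul (Gp (2 + v * I) * cexp (-((2 + v * I) * Λ))), hnx]
    ring
  have hFi : ∀ p, Integrable (F p) := by
    intro p
    refine Integrable.const_mul ?_ _
    refine Integrable.mono' (hi.norm.const_mul ((x p) ^ (-2 : ℝ))) ?_ ?_
    · refine hi.1.mul ?_
      refine Continuous.aestronglyMeasurable ?_
      exact Continuous.const_cpow (by fun_prop) (Or.inl (by exact_mod_cast (hx p).ne'))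
    · filter_upwards with v
      rw [norm_mul, hnx, mul_comm]
  have hFs : Summable fun p => ∫ v, ‖F p v‖ := by
    simp only [hnF, integral_const_mul]
    exact hs.mul_right _
  have h := integral_tsum_of_summable_integral_norm hFi hFs
  have e1 : ∀ v : ℝ, Gp (2 + v * I) * cexp (-((2 + v * I) * Λ)) *
      ∑' p, κ p * (x p : ℂ) ^ (-(2 + v * I)) = ∑' p, F p v := by
    intro v
    rw [← tsum_mul_left]
    refine tsum_congr fun p => ?_
    simp only [hF]
    ring
  simp only [e1]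
  rw [← h]
  refine tsum_congr fun p => ?_
  simp only [hF]
  rw [integral_const_mul, cahen_mellin_term h0 h1 (hx p)]

end Pool.Agent.H26
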