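import Pool.Agent.H26.GG

/-!
Mean square of the transform of the error term on a block.
-/

namespace Pool.Agent.H26

open Complex MeasureTheory Set Filter Topology

lemma hasDerivAt_lam {z : ℂ} (hz : |z.im| ≤ 1 / 2) :
    HasDerivAt lam (cexp z / (1 + cexp z)) z := by
  have h1 : HasDerivAt (fun z => 1 + cexp z) (cexp z) z := by
    simpa using (Complex.hasDerivAt_exp z).const_add 1
  exact h1.clog (one_add_exp_slit hz)

lemma lam_deriv_re_ge {z : ℂ} (hz : |z.im| ≤ 1 / 2) (hz0 : z.re ≤ 0) :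
    7 / 32 * Real.exp z.re ≤ (cexp z / (1 + cexp z)).re := by
  have hc := cos_ge_of_abs_le hz
  have he := Real.exp_pos z.re
  have he1 : Real.exp z.re ≤ 1 := Real.exp_le_one_iff.2 hz0
  set E := Real.exp z.re with hE
  set c := Real.cos z.im with hcdef
  set s := Real.sin z.im with hsdef
  have hcs : s ^ 2 + c ^ 2 = 1 := Real.sin_sq_add_cos_sq _
  have h1 : (cexp z).re = E * c := by rw [Complex.exp_re]
  have h2 : (cexp z).im = E * s := by rw [Complex.exp_im]
  have hD : Complex.normSq (1 + cexp z) = (1 + E * c) ^ 2 + (E * s) ^ 2 := by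
    rw [Complex.normSq_apply, re_one_add_exp, im_one_add_exp]
    ring
  have hc1 : c ≤ 1 := Real.cos_le_one _
  have hDle : Complex.normSq (1 + cexp z) ≤ 4 := by
    rw [hD]
    have : (1 + E * c) ^ 2 + (E * s) ^ 2 = 1 + 2 * (E * c) + E ^ 2 * (s ^ 2 + c ^ 2) := by ring
    rw [this, hcs]
    have h3 : E * c ≤ 1 := by nlinarith
    have h4 : E ^ 2 ≤ 1 := by nlinarith
    linarith
  have hDpos : 0 < Complex.normSq (1 + cexp z) := Complex.normSq_pos.2 (one_add_exp_ne hz)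
  rw [Complex.div_re, h1, h2, re_one_add_exp, im_one_add_exp, ← hE, ← hcdef, ← hsdef,
    ← add_div, le_div_iff₀ hDpos]
  have h5 : 7 / 32 * E * Complex.normSq (1 + cexp z) ≤ 7 / 32 * E * 4 := by gcongr
  have h6 : 0 ≤ (E * c) ^ 2 + (E * s) ^ 2 := by positivity
  nlinarith

lemma norm_hE_le {b : ℝ} (hb : 0 ≤ b) (f : ℝ → ℂ) {z : ℂ} (hz : |z.im| ≤ 1 / 2) (hz0 : z.im ≤ 0) :
    ‖hE b f z‖ ≤ 2 * Real.exp z.re * ‖GG f ((lam z).re - (-(lam z).im : ℝ) * I)‖ := by
  have e0 : (((lam z).re : ℝ) : ℂ) - ((-(lam z).im : ℝ) : ℂ) * I = lam z := by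
    apply Complex.ext <;> simp
  rw [e0]
  have h1 : ∫ t in Ioi (0:ℝ), f t * cexp (-((1 / 2 + I * (t + b)) * lam z)) =
      cexp (-((1 / 2 + I * b) * lam z)) * GG f (lam z) := by
    unfold GG
    rw [← integral_const_mul]
    refine integral_congr_ae (Eventually.of_forall fun t => ?_)
    simp only
    have : cexp (-((1 / 2 + I * (t + b)) * lam z)) =
        cexp (-((1 / 2 + I * b) * lam z)) * cexp (-(I * lam z * t)) := by
      rw [← Complex.exp_add]
      congr 1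
      ring
    rw [this]
    ring
  have h2 : ‖cexp (-((1 / 2 + I * b) * lam z))‖ ≤ 1 := by
    rw [Complex.norm_exp, Real.exp_le_one_iff]
    have h3 := lam_re_pos hz
    have h4 := lam_im_neg_lower hz hz0
    have h5 : 0 ≤ 1 / 4 * |z.im| * Real.exp (-|z.re|) := by positivity
    have e : (-((1 / 2 + I * b) * lam z)).re = -(1 / 2 * (lam z).re) + b * (lam z).im := by
      simp
      ring
    rw [e]
    nlinarith
  unfold hE
  rw [h1, norm_mul, norm_mul, norm_mul, norm_I, one_mul]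
  have h3 := norm_lam_le_exp hz
  calc ‖lam z‖ * (‖cexp (-((1 / 2 + I * b) * lam z))‖ * ‖GG f (lam z)‖) ≤
      (2 * Real.exp z.re) * (1 * ‖GG f (lam z)‖) := by gcongr
    _ = _ := by ring

theorem exists_hE_mean_square (k : ℕ) (hk : 1 ≤ k) {b a A : ℝ} (hb : 0 ≤ b) (ha : 0 ≤ a) (hA : 0 ≤ A) :
    ∃ C η₀ : ℝ, 0 < C ∧ 0 < η₀ ∧ η₀ < 1 / 2 ∧ ∀ η : ℝ, 0 < η → η < η₀ → ∀ (f : ℝ → ℂ) (M : ℝ),
      Continuous f → (∀ t : ℝ, 0 ≤ t → ‖f t‖ ≤ M * (1 + t) ^ a) →
      ∫ x in (k * Real.log η - A)..(k * Real.log η + A), ‖hE b f (x - η * I)‖ ^ 2 ≤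
        C * M ^ 2 * η ^ (-(1 + 2 * (k + 1) * a)) := by
  obtain ⟨C₀, hC₀0, hC₀⟩ := exists_HH_le ha
  refine ⟨4 / (7 / 32) * Real.exp A * (C₀ * (1 + (4 * Real.exp (2 * A)) ^ 2)) *
    (1 / 4 * Real.exp (-A)) ^ (-(2 * a + 1)), min (1 / 4) (Real.exp (-A)), by positivity,
    lt_min (by norm_num) (Real.exp_pos _), lt_of_le_of_lt (min_le_left _ _) (by norm_num), ?_⟩
  intro η h0 hη f M hf hfb
  have hη4 : η < 1 / 4 := hη.trans_le (min_le_left _ _)
  have hηA : η < Real.exp (-A) := hη.trans_le (min_le_right _ _)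
  have hM0 : 0 ≤ M := by
    have := (norm_nonneg _).trans (hfb 0 le_rfl)
    simpa using this
  have hk1 : (1:ℝ) ≤ k := by exact_mod_cast hk
  have hlog0 : Real.log η ≤ 0 := Real.log_nonpos h0.le (by linarith)
  set xc : ℝ := k * Real.log η with hxc
  have hexc : Real.exp xc = η ^ (k : ℝ) := by
    rw [Real.rpow_def_of_pos h0, hxc, mul_comm]
  have hηk : η ^ (k : ℝ) * Real.exp A ≤ 1 := by
    have h1 : η ^ (k : ℝ) ≤ η ^ (1 : ℝ) :=
      Real.rpow_le_rpow_of_exponent_ge h0 (by linarith) hk1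
    rw [Real.rpow_one] at h1
    calc η ^ (k : ℝ) * Real.exp A ≤ Real.exp (-A) * Real.exp A := by
          gcongr
          linarith
      _ = 1 := by rw [← Real.exp_add]; simp
  set v₀ : ℝ := 1 / 4 * Real.exp (-A) * η ^ ((k : ℝ) + 1) with hv₀
  set v₁ : ℝ := Real.exp A * η ^ ((k : ℝ) + 1) with hv₁
  have hηk1 : η ^ ((k : ℝ) + 1) = η ^ (k : ℝ) * η := by rw [Real.rpow_add h0, Real.rpow_one]
  have hηp : 0 < η ^ (k : ℝ) := Real.rpow_pos_of_pos h0 _
  have hηp1 : 0 < η ^ ((k : ℝ) + 1) := Real.rpow_pos_of_pos h0 _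
  have hv₀0 : 0 < v₀ := by positivity
  have hexpA : 1 ≤ Real.exp A := Real.one_le_exp hA
  have hexpA' : Real.exp (-A) ≤ 1 := Real.exp_le_one_iff.2 (by linarith)
  have hv01 : v₀ ≤ v₁ := by
    rw [hv₀, hv₁]
    gcongr
    linarith
  have hv₁1 : v₁ ≤ 1 := by
    rw [hv₁, hηk1]
    calc Real.exp A * (η ^ (k : ℝ) * η) = (η ^ (k : ℝ) * Real.exp A) * η := by ring
      _ ≤ 1 * 1 := by
          gcongr
          linarith
      _ = 1 := one_mul _
  have hK : v₁ - v₀ ≤ 4 * Real.exp (2 * A) * v₀ := by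
    have e : 4 * Real.exp (2 * A) * v₀ = v₁ := by
      rw [hv₀, hv₁]
      have : Real.exp (2 * A) * Real.exp (-A) = Real.exp A := by
        rw [← Real.exp_add]
        congr 1
        ring
      calc 4 * Real.exp (2 * A) * (1 / 4 * Real.exp (-A) * η ^ ((k : ℝ) + 1)) =
          (Real.exp (2 * A) * Real.exp (-A)) * η ^ ((k : ℝ) + 1) := by ring
        _ = _ := by rw [this]
    rw [e]
    linarith
  set x₀ : ℝ := xc - A with hx₀
  set x₁ : ℝ := xc + A with hx₁
  have hx01 : x₀ ≤ x₁ := by linarith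
  have hzim : ∀ x : ℝ, ((x : ℂ) - η * I).im = -η := fun x => by simp
  have hzre : ∀ x : ℝ, ((x : ℂ) - η * I).re = x := fun x => by simp
  have hzim' : ∀ x : ℝ, |((x : ℂ) - η * I).im| ≤ 1 / 2 := by
    intro x
    rw [hzim, abs_neg, abs_of_pos h0]
    linarith
  -- the curve
  set u : ℝ → ℝ := fun x => (lam (x - η * I)).re with hu
  set u' : ℝ → ℝ := fun x => (cexp (x - η * I) / (1 + cexp (x - η * I))).re with hu'
  have hder : ∀ x : ℝ, HasDerivAt u (u' x) x := by
    intro x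
    have h1 : HasDerivAt (fun z : ℂ => lam (z - η * I))
        (cexp (x - η * I) / (1 + cexp (x - η * I))) (x : ℂ) := by
      have h2 := hasDerivAt_lam (hzim' x)
      have h3 : HasDerivAt (fun z : ℂ => z - η * I) 1 (x : ℂ) :=
        (hasDerivAt_id _).sub_const _
      have h4 := HasDerivAt.comp (x : ℂ) h2 h3
      rw [mul_one] at h4
      exact h4
    exact h1.real_of_complex
  have hu'c : Continuous u' := by
    have h1 : Continuous fun x : ℝ => cexp (x - η * I) := by fun_prop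
    exact Complex.continuous_re.comp
      (h1.div (continuous_const.add h1) fun x => one_add_exp_ne (hzim' x))
  have huc : Continuous u := continuous_iff_continuousAt.2 fun x => (hder x).continuousAt
  have hexple : ∀ x ∈ Icc x₀ x₁, Real.exp x ≤ η ^ (k : ℝ) * Real.exp A := by
    intro x hx
    rw [← hexc, ← Real.exp_add]
    exact Real.exp_le_exp.2 hx.2
  have hexpge : ∀ x ∈ Icc x₀ x₁, η ^ (k : ℝ) * Real.exp (-A) ≤ Real.exp x := by
    intro x hx
    rw [← hexc, ← Real.exp_add]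
    exact Real.exp_le_exp.2 (by linarith [hx.1])
  have hx0 : ∀ x ∈ Icc x₀ x₁, x ≤ 0 := by
    intro x hx
    have := (hexple x hx).trans hηk
    exact Real.exp_le_one_iff.1 this
  have hu'ge : ∀ x ∈ Icc x₀ x₁, 7 / 32 * Real.exp x ≤ u' x := by
    intro x hx
    have := lam_deriv_re_ge (hzim' x) (by rw [hzre]; exact hx0 x hx)
    rw [hzre] at this
    exact this
  have hvge : ∀ x ∈ Icc x₀ x₁, v₀ ≤ -(lam (x - η * I)).im := by
    intro x hx
    refine le_trans ?_ (lam_im_neg_lower (hzim' x) (by rw [hzim]; linarith))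
    rw [hzim, hzre, abs_neg, abs_of_pos h0, abs_of_nonpos (hx0 x hx), neg_neg, hv₀, hηk1]
    calc 1 / 4 * Real.exp (-A) * (η ^ (k : ℝ) * η) =
        1 / 4 * η * (η ^ (k : ℝ) * Real.exp (-A)) := by ring
      _ ≤ _ := by
        have := hexpge x hx
        gcongr
  have hvle : ∀ x ∈ Icc x₀ x₁, -(lam (x - η * I)).im ≤ v₁ := by
    intro x hx
    have h1 := abs_lam_im_le (hzim' x)
    rw [hzim, hzre, Real.sin_neg, Real.cos_neg] at h1
    have hcos := cos_ge_of_abs_le (x := η) (by rw [abs_of_pos h0]; linarith)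
    have h2 : |Real.exp x * -Real.sin η| ≤ Real.exp x * η := by
      rw [abs_mul, abs_neg, abs_of_pos (Real.exp_pos x)]
      have h3 := Real.abs_sin_le_one η
      have h4 : |Real.sin η| ≤ |η| := Real.abs_sin_le_abs
      rw [abs_of_pos h0] at h4
      gcongr
    have h3 : |Real.exp x * -Real.sin η| / (1 + Real.exp x * Real.cos η) ≤ Real.exp x * η := by
      refine (div_le_self (abs_nonneg _) ?_).trans h2
      have := Real.exp_pos x
      nlinarith
    calc -(lam (x - η * I)).im ≤ |(lam (x - η * I)).im| := neg_le_abs _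
      _ ≤ Real.exp x * η := h1.trans h3
      _ ≤ (η ^ (k : ℝ) * Real.exp A) * η := by
          have := hexple x hx
          gcongr
      _ = v₁ := by rw [hv₁, hηk1]; ring
  have hfm : AEStronglyMeasurable f (volume.restrict (Ioi 0)) := hf.aestronglyMeasurable
  have hfb' : ∀ t : ℝ, 0 < t → ‖f t‖ ≤ M * (1 + t) ^ a := fun t ht => hfb t ht.le
  set H : ℝ → ℝ := HH f v₀ v₁ with hH
  have hHc : Continuous H := continuous_HH hfm hfb' hv₀0
  have hH0 : ∀ x ∈ Icc x₀ x₁, ‖GG f (u x - (-(lam (x - η * I)).im : ℝ) * I)‖ ^ 2 ≤ H (u x) :=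
    fun x hx => norm_GG_sq_le_HH hfm hfb' hv₀0 hv01 (u x) (hvge x hx) (hvle x hx)
  have hpt : ∀ x ∈ Icc x₀ x₁, ‖hE b f (x - η * I)‖ ^ 2 ≤
      (4 / (7 / 32) * (η ^ (k : ℝ) * Real.exp A)) * (H (u x) * u' x) := by
    intro x hx
    have h1 := norm_hE_le hb f (hzim' x) (by rw [hzim]; linarith)
    rw [hzre] at h1
    have h2 : ‖hE b f (x - η * I)‖ ^ 2 ≤ (2 * Real.exp x *
        ‖GG f (u x - (-(lam (x - η * I)).im : ℝ) * I)‖) ^ 2 :=
      pow_le_pow_left₀ (norm_nonneg _) h1 2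
    have h3 := hH0 x hx
    have hHn : 0 ≤ H (u x) := (by positivity : (0:ℝ) ≤ _ ^ 2).trans h3
    have h4 := hu'ge x hx
    have h5 := hexple x hx
    have hex := Real.exp_pos x
    calc ‖hE b f (x - η * I)‖ ^ 2 ≤ 4 * Real.exp x * Real.exp x *
          ‖GG f (u x - (-(lam (x - η * I)).im : ℝ) * I)‖ ^ 2 := by
          refine h2.trans (le_of_eq ?_)
          ring
      _ ≤ 4 * Real.exp x * Real.exp x * H (u x) := by gcongr
      _ = 4 / (7 / 32) * Real.exp x * (H (u x) * (7 / 32 * Real.exp x)) := by ring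
      _ ≤ 4 / (7 / 32) * (η ^ (k : ℝ) * Real.exp A) * (H (u x) * u' x) := by gcongr
  have hint : ∫ x in x₀..x₁, H (u x) * u' x = ∫ y in (u x₀)..(u x₁), H y :=
    intervalIntegral.integral_comp_mul_deriv (f := u) (f' := u') (g := H) (fun x _ => hder x)
      hu'c.continuousOn hHc
  have huu : u x₀ ≤ u x₁ := by
    have h1 : ∫ x in x₀..x₁, u' x = u x₁ - u x₀ :=
      intervalIntegral.integral_eq_sub_of_hasDerivAt (fun x _ => hder x)
        (hu'c.intervalIntegrable _ _)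
    have h2 : 0 ≤ ∫ x in x₀..x₁, u' x :=
      intervalIntegral.integral_nonneg hx01 fun x hx =>
        (by positivity : 0 ≤ 7 / 32 * Real.exp x).trans (hu'ge x hx)
    linarith
  have hHH := hC₀ hfm hM0 hfb' v₀ v₁ (4 * Real.exp (2 * A)) hv₀0 hv01 hv₁1 (by positivity) hK
    (u x₀) (u x₁) huu
  have hmain : ∫ x in x₀..x₁, ‖hE b f (x - η * I)‖ ^ 2 ≤
      (4 / (7 / 32) * (η ^ (k : ℝ) * Real.exp A)) * ∫ x in x₀..x₁, H (u x) * u' x := by
    rw [intervalIntegral.integral_of_le hx01, intervalIntegral.integral_of_le hx01,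
      ← integral_const_mul]
    refine integral_mono_of_nonneg (Eventually.of_forall fun x => by positivity) ?_ ?_
    · exact ((continuous_const.mul ((hHc.comp huc).mul hu'c)).integrableOn_Icc).mono_set
        Ioc_subset_Icc_self
    · filter_upwards [ae_restrict_mem measurableSet_Ioc] with x hx
      exact hpt x ⟨hx.1.le, hx.2⟩
  refine hmain.trans ?_
  rw [hint]
  calc (4 / (7 / 32) * (η ^ (k : ℝ) * Real.exp A)) * ∫ y in (u x₀)..(u x₁), H y ≤
      (4 / (7 / 32) * (η ^ (k : ℝ) * Real.exp A)) *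
        (C₀ * (1 + (4 * Real.exp (2 * A)) ^ 2) * M ^ 2 * v₀ ^ (-(2 * a + 1))) := by gcongr
    _ = 4 / (7 / 32) * Real.exp A * (C₀ * (1 + (4 * Real.exp (2 * A)) ^ 2)) *
        (1 / 4 * Real.exp (-A)) ^ (-(2 * a + 1)) * M ^ 2 *
        (η ^ (k : ℝ) * η ^ (((k : ℝ) + 1) * -(2 * a + 1))) := by
        rw [hv₀, Real.mul_rpow (by positivity) (by positivity), ← Real.rpow_mul h0.le]
        ring
    _ = _ := by
        rw [← Real.rpow_add h0]
        congr 2
        ring

end Pool.Agent.H26
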