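import Pool.Agent.H26.Identity
import Pool.Agent.H26.EPart

/-!
The contradiction: the error cannot be `O(T^a)` uniformly on the family of shifts.
-/

namespace Pool.Agent.H26

open Complex MeasureTheory Set Filter Topology Pool.Agent.H95fa

variable {n : ℕ}

lemma log_inv_le {η : ℝ} (h0 : 0 < η) : -Real.log η ≤ η⁻¹ := by
  rw [← Real.log_inv]
  have := Real.add_one_le_exp (Real.log η⁻¹)
  rw [Real.exp_log (inv_pos.2 h0)] at this
  linarith

lemma norm_f_le {R Y L : ℝ} (hR : 0 ≤ R) (hL : 0 < L) {p : Ix (n + 1) → ℝ} (hp : Sepd R p)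
    {C a : ℝ} (hC : ∀ x : ℝ, |x| ≤ R → ∀ T : ℝ, 0 ≤ T → ‖Er (gam p x) T‖ ≤ C * (1 + T) ^ a)
    {t : ℝ} (ht : 0 ≤ t) : ‖∫ u in (0:ℝ)..t, Dav p R Y L u‖ ≤
      (Real.exp (L * Y ^ 2 / 2) * C) * (1 + t) ^ a := by
  rw [integral_Dav hR hp]
  refine (norm_integral_wt_le hL hR (M := C * (1 + t) ^ a) fun x _ => ?_).trans (le_of_eq ?_)
  · exact hC _ (abs_clp_le hR x) t ht
  · ring

lemma sq_norm_add_le {g e : ℂ} {K : ℝ} (h : ‖e‖ ≤ K) : ‖g + e‖ ^ 2 ≤ 2 * ‖g‖ ^ 2 + 2 * K ^ 2 := by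
  have h4 := norm_add_le g e
  have h5 : ‖g + e‖ ^ 2 ≤ (‖g‖ + ‖e‖) ^ 2 := pow_le_pow_left₀ (norm_nonneg _) h4 2
  have h6 : ‖e‖ ^ 2 ≤ K ^ 2 := pow_le_pow_left₀ (norm_nonneg _) h 2
  nlinarith [sq_nonneg (‖g‖ - ‖e‖)]

/-- the contradiction for fixed data -/
lemma false_of_ineq {c' K₁ K₂ η₁ d s : ℝ} (hc : 0 < c') (hη₁ : 0 < η₁) (hd : 0 < d) (hs : 0 < s)
    (h : ∀ η : ℝ, 0 < η → η < η₁ → c' * η ^ (-s) ≤ K₁ * η ^ (-s + d) + K₂) : False := by
  have h1 : ∀ η : ℝ, 0 < η → η < η₁ → c' ≤ K₁ * η ^ d + K₂ * η ^ s := by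
    intro η h0 h1
    have h2 := h η h0 h1
    have h3 := mul_le_mul_of_nonneg_right h2 (Real.rpow_pos_of_pos h0 s).le
    have e1 : c' * η ^ (-s) * η ^ s = c' := by
      rw [mul_assoc, ← Real.rpow_add h0, neg_add_cancel, Real.rpow_zero, mul_one]
    have e2 : (K₁ * η ^ (-s + d) + K₂) * η ^ s = K₁ * η ^ d + K₂ * η ^ s := by
      rw [add_mul, mul_assoc, ← Real.rpow_add h0]
      congr 3
      ring
    rw [e1, e2] at h3
    exact h3
  have h2 : Tendsto (fun η : ℝ => K₁ * η ^ d + K₂ * η ^ s) (𝓝[>] 0) (𝓝 0) := by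
    have t1 : Tendsto (fun η : ℝ => η ^ d) (𝓝[>] 0) (𝓝 0) := by
      have := (Real.continuousAt_rpow_const 0 d (Or.inr hd.le)).tendsto
      rw [Real.zero_rpow hd.ne'] at this
      exact this.mono_left nhdsWithin_le_nhds
    have t2 : Tendsto (fun η : ℝ => η ^ s) (𝓝[>] 0) (𝓝 0) := by
      have := (Real.continuousAt_rpow_const 0 s (Or.inr hs.le)).tendsto
      rw [Real.zero_rpow hs.ne'] at this
      exact this.mono_left nhdsWithin_le_nhds
    simpa using (t1.const_mul K₁).add (t2.const_mul K₂)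
  have h3 : c' ≤ 0 := by
    refine ge_of_tendsto h2 ?_
    filter_upwards [Ioo_mem_nhdsGT hη₁] with η hη
    exact h1 η hη.1 hη.2
  linarith

theorem omega_core (n : ℕ) {a : ℝ} (ha0 : 0 ≤ a) (ha : 2 * (n + 2) * a < n + 1) :
    ∃ R : ℝ, 0 ≤ R ∧ ∀ p : Ix (n + 1) → ℝ, Sepd R p → ¬ ∃ C : ℝ, ∀ x : ℝ, |x| ≤ R →
      ∀ T : ℝ, 0 ≤ T → ‖Er (gam p x) T‖ ≤ C * (1 + T) ^ a := by
  obtain ⟨δ, B₀, hδ, hblock⟩ := exists_block (n + 1)
  obtain ⟨B₁, hid⟩ := exists_main_identity n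
  obtain ⟨Y, hY1, hcc⟩ := exists_cc_props n (B₀ + B₁) hδ
  set d : ℝ := (n + 1) - 2 * (n + 2) * a with hd
  have hd0 : 0 < d := by linarith
  have hdn : d ≤ n + 1 := by
    have : 0 ≤ 2 * ((n : ℝ) + 2) * a := by positivity
    linarith
  set κ : ℝ := d / (2 * Y ^ 2) with hκ
  have hY0 : 0 < Y := by linarith
  have hκ0 : 0 < κ := by positivity
  set ρ : ℝ := (n + 2) * (2 * n + 3) + 1 with hρ
  have hρ0 : 0 < ρ := by positivity
  set R : ℝ := Y + 2 * ρ / κ with hR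
  have hYR : Y ≤ R := by
    have : 0 ≤ 2 * ρ / κ := by positivity
    linarith
  have hR0 : 0 ≤ R := by linarith
  have hR1 : 1 ≤ R := by linarith
  have hRY : ρ ≤ κ * (R ^ 2 - Y ^ 2) / 2 := by
    have h1 : R - Y = 2 * ρ / κ := by rw [hR]; ring
    have h2 : κ * (R - Y) = 2 * ρ := by rw [h1]; field_simp
    have h3 : κ * (R ^ 2 - Y ^ 2) = (κ * (R - Y)) * (R + Y) := by ring
    rw [h3, h2]
    nlinarith
  refine ⟨R, hR0, fun p hp ⟨CE, hCE⟩ => ?_⟩
  have hCE0 : 0 ≤ CE := by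
    have := (norm_nonneg _).trans (hCE 0 (by simpa using hR0) 0 le_rfl)
    simpa using this
  set b : ℝ := p (Sum.inr 0) with hb
  have hb0 : 0 ≤ b := by
    have := hp.1 (Sum.inr 0)
    linarith
  set m : ℕ := 3 * (n + 1) with hm
  obtain ⟨c', A, hc', hA0, hblk⟩ := hblock (0 :: las p) (by simp [length_las]) b m (1 + δ)
  obtain ⟨D, CW, hD, hCW, hid'⟩ := hid hY1 hYR hp (1 + δ) (by linarith)
  obtain ⟨Ch, η₀, hCh0, hη₀, hη₀', hMS⟩ := exists_hE_mean_square (n + 1) (by omega) hb0 ha0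
    (A := A + m) (by positivity)
  obtain ⟨Cd, hCd0, hdd⟩ := exists_dd_iter_le m (B := 2) (by norm_num)
  set KW : ℝ := CW * κ * (4 * Real.exp (A + m)) ^ ((2 * n + 2 : ℕ) + 1 : ℝ) with hKW
  set KP : ℝ := Cd * D * Real.exp (2 * A) with hKP
  have hKW0 : 0 ≤ KW := by positivity
  have hKP0 : 0 ≤ KP := by positivity
  set η₁ : ℝ := min η₀ (min (1 / 4) (Real.exp (-(4 / κ)))) with hη₁
  have hη₁0 : 0 < η₁ := by
    rw [hη₁]
    exact lt_min hη₀ (lt_min (by norm_num) (Real.exp_pos _))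
  refine false_of_ineq (c' := c') (K₁ := 2 * (4 ^ m * (Ch * CE ^ 2)))
    (K₂ := 2 * (KP + 2 ^ m * KW) ^ 2 * (2 * A)) (η₁ := η₁) (d := d / 2) (s := n + 2)
    hc' hη₁0 (by linarith) (by positivity) fun η h0 hη => ?_
  have hη2 : η < η₀ := hη.trans_le (min_le_left _ _)
  have hη4 : η ≤ 1 / 4 := (hη.trans_le ((min_le_right _ _).trans (min_le_left _ _))).le
  have hηe : η ≤ Real.exp (-(4 / κ)) :=
    (hη.trans_le ((min_le_right _ _).trans (min_le_right _ _))).le
  have hη1 : η ≤ 1 := by linarith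
  set L : ℝ := κ * (-Real.log η) with hL
  have hL4 : 4 ≤ L := by
    have h1 := Real.log_le_log h0 hηe
    rw [Real.log_exp] at h1
    have h2 : 4 / κ ≤ -Real.log η := by linarith
    rw [div_le_iff₀ hκ0] at h2
    rw [hL]
    linarith
  have hL0 : 0 < L := by linarith
  have hlog0 : Real.log η ≤ 0 := Real.log_nonpos h0.le hη1
  have hLR : 4 ≤ L * R ^ 2 := by
    have : 1 ≤ R ^ 2 := one_le_pow₀ hR1
    calc (4:ℝ) ≤ L * 1 := by linarith
      _ ≤ L * R ^ 2 := by gcongr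
  obtain ⟨hs, hsum, hc0, htail⟩ := hcc Y le_rfl p R L hR0 hL0 hLR
  set c : ℕ → ℂ := cc p R Y L with hc
  have hs₀ := summable_mono_exp (B' := B₀) (by omega) hs
  have hs₁ := summable_mono_exp (B' := B₁) (by omega) hs
  have htail₀ : ∑' m, ‖c (m + 1)‖ * ((m + 2 : ℕ) : ℝ) ^ (B₀ : ℝ) ≤ δ := by
    refine le_trans ?_ htail
    have hsB : Summable fun m => ‖c (m + 1)‖ * ((m + 2 : ℕ) : ℝ) ^ ((B₀ + B₁ : ℕ) : ℝ) :=
      (summable_nat_add_iff 1).2 hs
    have hsB2 : Summable fun m => ‖c (m + 1)‖ * ((m + 2 : ℕ) : ℝ) ^ (B₀ : ℝ) :=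
      (summable_nat_add_iff 1).2 hs₀.1
    refine hsB2.tsum_le_tsum (fun i => ?_) hsB
    refine mul_le_mul_of_nonneg_left ?_ (norm_nonneg _)
    refine Real.rpow_le_rpow_of_exponent_le ?_ (by exact_mod_cast (by omega : B₀ ≤ B₀ + B₁))
    push_cast
    linarith [Nat.cast_nonneg (α := ℝ) i]
  have hlow := hblk c hs₀.1 (hs₀.2.trans hsum) hc0 htail₀ η h0 hη4
  obtain ⟨P, W, hP, hW, hidz⟩ := hid' L (by linarith) hs₁.1 (hs₁.2.trans hsum)
  set f : ℝ → ℂ := fun t => ∫ u in (0:ℝ)..t, Dav p R Y L u with hf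
  have hDc := continuous_Dav hR0 hp Y L
  have hfc : Continuous f := by
    refine continuous_iff_continuousAt.2 fun t => ?_
    exact (intervalIntegral.integral_hasDerivAt_right (hDc.intervalIntegrable _ _)
      (hDc.stronglyMeasurableAtFilter _ _) hDc.continuousAt).continuousAt
  have hfb : ∀ t : ℝ, 0 ≤ t → ‖f t‖ ≤ (Real.exp (L * Y ^ 2 / 2) * CE) * (1 + t) ^ a :=
    fun t ht => norm_f_le hR0 hL0 hp hCE ht
  have hE1 : Real.exp (L * Y ^ 2 / 2) = η ^ (-(d / 4)) := by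
    rw [Real.rpow_def_of_pos h0]
    congr 1
    rw [hL, hκ]
    field_simp
    ring
  rw [hE1] at hfb hP
  have hms := hMS η h0 hη2 f (η ^ (-(d / 4)) * CE) hfc hfb
  -- geometry of the block
  set x₀ : ℝ := ((n + 1 : ℕ) : ℝ) * Real.log η with hx₀
  have hx₀0 : x₀ ≤ 0 := mul_nonpos_of_nonneg_of_nonpos (Nat.cast_nonneg _) hlog0
  have hexpx₀ : Real.exp (-x₀) = η ^ (-((n + 1 : ℕ) : ℝ)) := by
    rw [Real.rpow_def_of_pos h0, hx₀]
    congr 1
    ring
  have hexpx₀' : Real.exp x₀ = η ^ (((n + 1 : ℕ) : ℝ)) := by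
    rw [Real.rpow_def_of_pos h0, hx₀]
    congr 1
    ring
  have hmem : ∀ (x : ℝ) (j : ℕ), ((x : ℂ) - η * I) + j * η ∈ Stm := by
    intro x j
    have e : (((x : ℂ) - η * I) + j * η).im = -η := by simp
    refine ⟨?_, by rw [e]; linarith⟩
    show |Complex.im _| < (1 / 2 : ℝ)
    rw [e, abs_neg, abs_of_pos h0]
    linarith
  have habs : ∀ x ∈ Icc (x₀ - A) (x₀ + A), |x| ≤ -x₀ + A := by
    intro x hx
    rw [abs_le]
    constructor <;> linarith [hx.1, hx.2]
  have hWb : ∀ x ∈ Icc (x₀ - A) (x₀ + A), ‖(dd η)^[m] W (x - η * I)‖ ≤ 2 ^ m * KW := by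
    intro x hx
    refine norm_dd_iter_le fun j hj => ?_
    have him : (((x : ℂ) - η * I) + j * η).im = -η := by simp
    have hre : (((x : ℂ) - η * I) + j * η).re = x + j * η := by simp
    have hj' : (j : ℝ) * η ≤ m := by
      have h1 : (j : ℝ) ≤ m := by exact_mod_cast hj
      calc (j : ℝ) * η ≤ m * 1 := by gcongr
        _ = _ := mul_one _
    have hj0 : 0 ≤ (j : ℝ) * η := by positivity
    have habs' : |x + j * η| ≤ -x₀ + (A + m) := by
      have := habs x hx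
      calc |x + j * η| ≤ |x| + |(j : ℝ) * η| := abs_add_le _ _
        _ ≤ _ := by
          rw [abs_of_nonneg hj0]
          linarith
    set u : ℝ := 1 / 4 * η * Real.exp (-(-x₀ + (A + m))) with hu
    have hu0 : 0 < u := by positivity
    refine (hW _ (hmem x j) u hu0 ?_).trans ?_
    · rw [him, hre, abs_neg, abs_of_pos h0, hu]
      exact mul_le_mul_of_nonneg_left (Real.exp_le_exp.2 (by linarith)) (by positivity)
    · have e1 : u = (4 * Real.exp (A + m))⁻¹ * η ^ ((n : ℝ) + 2) := by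
        rw [hu, neg_add, neg_neg, Real.exp_add, hexpx₀', Real.exp_neg, mul_inv]
        have : η ^ ((n : ℝ) + 2) = η * η ^ ((n + 1 : ℕ) : ℝ) := by
          have h3 : (n : ℝ) + 2 = 1 + ((n + 1 : ℕ) : ℝ) := by push_cast; ring
          rw [h3, Real.rpow_add h0, Real.rpow_one]
        rw [this]
        ring
      have e2 : u ^ (-(((2 * n + 2 : ℕ) : ℝ) + 1)) =
          (4 * Real.exp (A + m)) ^ (((2 * n + 2 : ℕ) : ℝ) + 1) * η ^ (-(ρ - 1)) := by
        rw [e1, Real.mul_rpow (by positivity) (by positivity), Real.inv_rpow (by positivity),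
          Real.rpow_neg (by positivity : (0:ℝ) ≤ 4 * Real.exp (A + m)), inv_inv,
          ← Real.rpow_mul h0.le]
        congr 2
        rw [hρ]
        push_cast
        ring
      have e3 : L * Real.exp (-(L * (R ^ 2 - Y ^ 2) / 2)) ≤ κ * η ^ (ρ - 1) := by
        have h1 : Real.exp (-(L * (R ^ 2 - Y ^ 2) / 2)) ≤ η ^ ρ := by
          rw [Real.rpow_def_of_pos h0]
          apply Real.exp_le_exp.2
          have : -(L * (R ^ 2 - Y ^ 2) / 2) = Real.log η * (κ * (R ^ 2 - Y ^ 2) / 2) := by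
            rw [hL]; ring
          rw [this]
          exact mul_le_mul_of_nonpos_left hRY hlog0
        have h2 : L ≤ κ * η⁻¹ := by
          rw [hL]
          exact mul_le_mul_of_nonneg_left (log_inv_le h0) hκ0.le
        calc L * Real.exp (-(L * (R ^ 2 - Y ^ 2) / 2)) ≤ (κ * η⁻¹) * η ^ ρ := by gcongr
          _ = κ * η ^ (ρ - 1) := by
              rw [Real.rpow_sub h0, Real.rpow_one]
              ring
      calc CW * (L * Real.exp (-(L * (R ^ 2 - Y ^ 2) / 2))) *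
            u ^ (-(((2 * n + 2 : ℕ) : ℝ) + 1)) ≤
          CW * (κ * η ^ (ρ - 1)) * u ^ (-(((2 * n + 2 : ℕ) : ℝ) + 1)) := by gcongr
        _ = KW * (η ^ (ρ - 1) * η ^ (-(ρ - 1))) := by
            rw [e2, hKW]
            ring
        _ = KW := by
            rw [← Real.rpow_add h0, add_neg_cancel, Real.rpow_zero, mul_one]
  have hPb : ∀ x ∈ Icc (x₀ - A) (x₀ + A), ‖(dd η)^[m] P (x - η * I)‖ ≤ KP := by
    intro x hx
    have him : ((x : ℂ) - η * I).im = -η := by simp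
    have hre : ((x : ℂ) - η * I).re = x := by simp
    refine (hdd _ η P hP h0 hη1 _ ?_).trans ?_
    · rw [him, abs_neg, abs_of_pos h0]
      exact hη4
    · rw [hre]
      have h1 : Real.exp (2 * |x|) ≤ η ^ (-(2 * ((n + 1 : ℕ) : ℝ))) * Real.exp (2 * A) := by
        have h2 : 2 * |x| ≤ 2 * -x₀ + 2 * A := by linarith [habs x hx]
        refine (Real.exp_le_exp.2 h2).trans (le_of_eq ?_)
        rw [Real.exp_add]
        congr 1
        rw [Real.rpow_def_of_pos h0, hx₀]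
        congr 1
        ring
      have h3 : η ^ m = η ^ (3 * ((n + 1 : ℕ) : ℝ)) := by
        rw [← Real.rpow_natCast, hm]
        push_cast
        rfl
      calc Cd * (D * η ^ (-(d / 4))) * η ^ m * Real.exp (2 * |x|) ≤
          Cd * (D * η ^ (-(d / 4))) * η ^ m *
            (η ^ (-(2 * ((n + 1 : ℕ) : ℝ))) * Real.exp (2 * A)) := by gcongr
        _ = KP * (η ^ (-(d / 4)) * η ^ (3 * ((n + 1 : ℕ) : ℝ)) *
            η ^ (-(2 * ((n + 1 : ℕ) : ℝ)))) := by
            rw [h3, hKP]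
            ring
        _ = KP * η ^ (((n + 1 : ℕ) : ℝ) - d / 4) := by
            rw [← Real.rpow_add h0, ← Real.rpow_add h0]
            congr 2
            ring
        _ ≤ KP * 1 := by
            gcongr
            refine Real.rpow_le_one h0.le hη1 ?_
            push_cast
            linarith
        _ = KP := mul_one _
  -- the pointwise identity
  have hVid : ∀ x : ℝ, (dd η)^[m] (VM c (0 :: las p) b (-(1 / 2))) (x - η * I) =
      (dd η)^[m] (hE b f) (x - η * I) + ((dd η)^[m] P (x - η * I) + (dd η)^[m] W (x - η * I)) := by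
    intro x
    have h1 : (dd η)^[m] (VM c (0 :: las p) b (-(1 / 2))) (x - η * I) =
        (dd η)^[m] (hE b f + (P + W)) (x - η * I) := by
      refine dd_iter_congr fun j _ => ?_
      exact hidz _ (hmem x j)
    rw [h1, dd_iter_add, dd_iter_add]
    rfl
  have eline : ∀ x : ℝ, (x : ℂ) - η * I = x + ((-η : ℝ) : ℂ) * I := by
    intro x
    push_cast
    ring
  have hEc : Continuous fun x : ℝ => hE b f (x + ((-η : ℝ) : ℂ) * I) := by
    have h1 := (differentiableOn_hE hb0 hfc hfb).continuousOn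
    have h2 : Continuous fun x : ℝ => ((x : ℂ) + ((-η : ℝ) : ℂ) * I) := by fun_prop
    refine h1.comp_continuous h2 fun x => ?_
    have := hmem x 0
    rw [← eline]
    simpa using this
  have hx₁ : x₀ - A ≤ x₀ + A := by linarith
  have hddc : Continuous fun x : ℝ => (dd η)^[m] (hE b f) (x - η * I) := by
    refine continuous_dd_iter fun j _ => ?_
    have h1 : Continuous fun x : ℝ => hE b f (((x + j * η : ℝ) : ℂ) + ((-η : ℝ) : ℂ) * I) :=
      hEc.comp (continuous_id.add continuous_const)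
    refine h1.congr fun x => ?_
    congr 1
    push_cast
    ring
  have hddE : ∫ x in (x₀ - A)..(x₀ + A), ‖(dd η)^[m] (hE b f) (x - η * I)‖ ^ 2 ≤
      4 ^ m * (Ch * CE ^ 2) * η ^ (-((n : ℝ) + 2) + d / 2) := by
    have h1 := integral_dd_sq_le h0.le m hEc hx₁
    have h2 : ∫ x in (x₀ - A)..(x₀ + A + m * η), ‖hE b f (x + ((-η : ℝ) : ℂ) * I)‖ ^ 2 ≤
        ∫ x in (x₀ - (A + m))..(x₀ + (A + m)), ‖hE b f (x + ((-η : ℝ) : ℂ) * I)‖ ^ 2 := by
      have hmη : (m : ℝ) * η ≤ m := by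
        calc (m : ℝ) * η ≤ m * 1 := by gcongr
          _ = _ := mul_one _
      have hmη0 : 0 ≤ (m : ℝ) * η := by positivity
      refine intervalIntegral.integral_mono_interval ?_ ?_ ?_
        (Eventually.of_forall fun x => by positivity) ((hEc.norm.pow 2).intervalIntegrable _ _)
      · have : (0:ℝ) ≤ m := Nat.cast_nonneg m
        linarith
      · linarith
      · linarith
    simp only [← eline] at h1 h2
    refine h1.trans ?_
    rw [mul_assoc]
    refine mul_le_mul_of_nonneg_left (h2.trans (hms.trans (le_of_eq ?_))) (by positivity)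
    rw [mul_pow, ← Real.rpow_natCast (η ^ (-(d / 4))) 2, ← Real.rpow_mul h0.le]
    have e : η ^ (-((n : ℝ) + 2) + d / 2) = η ^ (-(d / 4) * (2 : ℕ)) *
        η ^ (-(1 + 2 * (((n + 1 : ℕ) : ℝ) + 1) * a)) := by
      rw [← Real.rpow_add h0]
      congr 1
      rw [hd]
      push_cast
      ring
    rw [e]
    ring
  have hfin : ∫ x in (x₀ - A)..(x₀ + A),
      ‖(dd η)^[m] (VM c (0 :: las p) b (-(1 / 2))) (x - η * I)‖ ^ 2 ≤
      2 * (∫ x in (x₀ - A)..(x₀ + A), ‖(dd η)^[m] (hE b f) (x - η * I)‖ ^ 2) +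
        2 * (KP + 2 ^ m * KW) ^ 2 * (2 * A) := by
    have hpt : ∀ x ∈ Ioc (x₀ - A) (x₀ + A),
        ‖(dd η)^[m] (VM c (0 :: las p) b (-(1 / 2))) (x - η * I)‖ ^ 2 ≤
        2 * ‖(dd η)^[m] (hE b f) (x - η * I)‖ ^ 2 + 2 * (KP + 2 ^ m * KW) ^ 2 := by
      intro x hx
      have hx' : x ∈ Icc (x₀ - A) (x₀ + A) := ⟨hx.1.le, hx.2⟩
      rw [hVid x]
      have h1 := hPb x hx'
      have h2 := hWb x hx'
      exact sq_norm_add_le ((norm_add_le _ _).trans (add_le_add h1 h2))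
    have hgi : IntegrableOn (fun x : ℝ => 2 * ‖(dd η)^[m] (hE b f) (x - η * I)‖ ^ 2 +
        2 * (KP + 2 ^ m * KW) ^ 2) (Ioc (x₀ - A) (x₀ + A)) :=
      (((continuous_const.mul (hddc.norm.pow 2)).add continuous_const).integrableOn_Icc).mono_set
        Ioc_subset_Icc_self
    have hgi1 : IntegrableOn (fun x : ℝ => 2 * ‖(dd η)^[m] (hE b f) (x - η * I)‖ ^ 2)
        (Ioc (x₀ - A) (x₀ + A)) :=
      ((continuous_const.mul (hddc.norm.pow 2)).integrableOn_Icc).mono_set Ioc_subset_Icc_self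
    rw [intervalIntegral.integral_of_le hx₁, intervalIntegral.integral_of_le hx₁]
    calc ∫ x in Ioc (x₀ - A) (x₀ + A),
        ‖(dd η)^[m] (VM c (0 :: las p) b (-(1 / 2))) (x - η * I)‖ ^ 2 ≤
        ∫ x in Ioc (x₀ - A) (x₀ + A), (2 * ‖(dd η)^[m] (hE b f) (x - η * I)‖ ^ 2 +
          2 * (KP + 2 ^ m * KW) ^ 2) := by
          refine integral_mono_of_nonneg (Eventually.of_forall fun x => by positivity) hgi ?_
          filter_upwards [ae_restrict_mem measurableSet_Ioc] with x hx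
          exact hpt x hx
      _ = _ := by
          rw [integral_add hgi1 (integrableOn_const (by simp)), integral_const_mul,
            setIntegral_const, Real.volume_real_Ioc_of_le hx₁, smul_eq_mul]
          ring
  have e0 : (-(((n + 1 : ℕ) : ℝ) + 1)) = -((n : ℝ) + 2) := by push_cast; ring
  rw [e0] at hlow
  calc c' * η ^ (-((n : ℝ) + 2)) ≤ _ := hlow
    _ ≤ _ := hfin
    _ ≤ 2 * (4 ^ m * (Ch * CE ^ 2) * η ^ (-((n : ℝ) + 2) + d / 2)) +
        2 * (KP + 2 ^ m * KW) ^ 2 * (2 * A) := by gcongr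
    _ = _ := by ring

end Pool.Agent.H26
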