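import Mathlib

/-!
Definitions for the shifted moments problem of Conrey, Farmer, Keating, Rubinstein and Snaith.
-/

namespace Pool.Agent.H26

open Complex Finset

/-- The factor of the functional equation, `ζ(s) = χ(s) ζ(1-s)`. -/
noncomputable def chi (s : ℂ) : ℂ :=
  (Real.pi : ℂ) ^ (s - 1 / 2) * Gamma ((1 - s) / 2) / Gamma (s / 2)

/-- The product of `2k` shifted zeta values on the critical line. -/
noncomputable def Z {k : ℕ} (α β : Fin k → ℝ) (t : ℝ) : ℂ :=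
  ∏ j, (riemannZeta (1 / 2 + I * (t + α j)) * riemannZeta (1 / 2 - I * (t + β j)))

/-- The complete homogeneous symmetric polynomial of degree `m` in the variables `x j`, `j ∈ S`. -/
noncomputable def hsum {ι : Type*} [DecidableEq ι] (S : Finset ι) (x : ι → ℂ) (m : ℕ) : ℂ :=
  ∑ e ∈ S.piAntidiag m, ∏ j ∈ S, x j ^ e j

/-- The Euler factor at `p` of `F(1/2; a, b)`, where `a` is the family `γ j`, `j ∈ S`, and `b` is
the family `γ l`, `l ∉ S`. -/
noncomputable def localF {ι : Type*} [Fintype ι] [DecidableEq ι] (S : Finset ι) (γ : ι → ℂ)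
    (p : ℕ) : ℂ :=
  (∑' m : ℕ, hsum S (fun j => (p : ℂ) ^ (-(I * γ j))) m *
      hsum Sᶜ (fun l => (p : ℂ) ^ (I * γ l)) m * ((p : ℂ)⁻¹) ^ m) *
    ∏ j ∈ S, ∏ l ∈ Sᶜ, (1 - (p : ℂ) ^ (-(1 + I * (γ j - γ l))))

/-- `F(1/2; a, b)`. -/
noncomputable def eulerF {ι : Type*} [Fintype ι] [DecidableEq ι] (S : Finset ι) (γ : ι → ℂ) : ℂ :=
  ∏' p : Nat.Primes, localF S γ p

/-- `ζ_(a,b)(1/2)`, where `a` is the family `γ j`, `j ∈ S`, and `b` is the family `γ l`,
`l ∉ S`. -/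
noncomputable def zetaAB {ι : Type*} [Fintype ι] [DecidableEq ι] (S : Finset ι) (γ : ι → ℂ) : ℂ :=
  eulerF S γ * ∏ j ∈ S, ∏ l ∈ Sᶜ, riemannZeta (1 + I * (γ j - γ l))

/-- The factor `G` attached to the set `S` of those coordinates of `γ = (α, β)` which form
`α̃`. -/
noncomputable def G {k : ℕ} (S : Finset (Fin k ⊕ Fin k)) (γ : Fin k ⊕ Fin k → ℂ) (t : ℂ) : ℂ :=
  (∏ j, if Sum.inr j ∈ S then chi (1 / 2 - I * (t + γ (Sum.inr j))) else 1) *
    ∏ l, if Sum.inl l ∈ S then 1 else chi (1 / 2 + I * (t + γ (Sum.inl l)))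

/-- The sum over all choices of `k` of the `2k` coordinates of `γ`. -/
noncomputable def Qsum {k : ℕ} (γ : Fin k ⊕ Fin k → ℂ) (t : ℂ) : ℂ :=
  ∑ S ∈ (univ : Finset (Fin k ⊕ Fin k)).powersetCard k, G S γ t * zetaAB S γ

/-- The main term `Q_k(t; α, β)`: the sum over all choices, extended by continuity from the
shifts with `2k` distinct coordinates to all shifts. -/
noncomputable def Q {k : ℕ} (α β : Fin k → ℝ) (t : ℝ) : ℂ :=
  extendFrom {γ : Fin k ⊕ Fin k → ℝ | Function.Injective γ}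
    (fun γ => Qsum (fun j => (γ j : ℂ)) t) (Sum.elim α β)

/-- The error in the asymptotic formula for the shifted moment. -/
noncomputable def E {k : ℕ} (α β : Fin k → ℝ) (T : ℝ) : ℂ :=
  ∫ t in (0 : ℝ)..T, (Z α β t - Q α β t)

end Pool.Agent.H26
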