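import Pool.Agent.H26.Defs

/-!
Bounds and analyticity for the Euler product `F`.
-/

set_option linter.unusedSectionVars false

namespace Pool.Agent.H26

open Complex Finset

variable {ι : Type*} [Fintype ι] [DecidableEq ι]

/-- The set of complex shifts with small imaginary parts. -/
def tube (ι : Type*) : Set (ι → ℂ) := {γ | ∀ i, |(γ i).im| < 1 / 8}

lemma isOpen_tube : IsOpen (tube ι) := by
  have : tube ι = ⋂ i, {γ : ι → ℂ | |(γ i).im| < 1 / 8} := by
    ext γ; simp [tube]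
  rw [this]
  refine isOpen_iInter_of_finite fun i => ?_
  refine isOpen_lt ?_ continuous_const
  fun_prop

lemma hsum_zero (S : Finset ι) (x : ι → ℂ) : hsum S x 0 = 1 := by
  simp [hsum]

lemma piAntidiag_one (S : Finset ι) :
    S.piAntidiag 1 = S.image (fun j => (Pi.single j 1 : ι → ℕ)) := by
  ext e
  simp only [mem_piAntidiag, mem_image]
  constructor
  · rintro ⟨hs, h0⟩
    have hne : ∑ i ∈ S, e i ≠ 0 := by rw [hs]; exact one_ne_zero
    obtain ⟨j, hj, hej⟩ := Finset.exists_ne_zero_of_sum_ne_zero hne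
    refine ⟨j, hj, ?_⟩
    have h1 : e j + ∑ i ∈ S.erase j, e i = 1 := by rw [Finset.add_sum_erase _ _ hj]; exact hs
    have h2 : ∑ i ∈ S.erase j, e i = 0 := by omega
    have h3 : e j = 1 := by omega
    funext i
    by_cases hij : i = j
    · subst hij; simp [h3]
    · rw [Pi.single_eq_of_ne hij]
      by_contra hc
      have hi : i ∈ S := h0 i (fun h => hc h.symm)
      exact hc (((Finset.sum_eq_zero_iff.1 h2) i (Finset.mem_erase.2 ⟨hij, hi⟩)).symm)
  · rintro ⟨j, hj, rfl⟩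
    constructor
    · rw [Finset.sum_eq_single_of_mem j hj]
      · simp
      · intro b _ hb; exact Pi.single_eq_of_ne hb _
    · intro i hi
      by_cases hij : i = j
      · rw [hij]; exact hj
      · rw [Pi.single_eq_of_ne hij] at hi; exact absurd rfl hi

lemma hsum_one (S : Finset ι) (x : ι → ℂ) : hsum S x 1 = ∑ j ∈ S, x j := by
  rw [hsum, piAntidiag_one, Finset.sum_image]
  · refine Finset.sum_congr rfl fun j hj => ?_
    rw [Finset.prod_eq_single_of_mem j hj]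
    · simp
    · intro b _ hb
      simp [Pi.single_eq_of_ne hb]
  · intro i _ j _ h
    by_contra hij
    have h1 : (Pi.single i 1 : ι → ℕ) i = (Pi.single j 1 : ι → ℕ) i := congrFun h i
    rw [Pi.single_eq_same, Pi.single_eq_of_ne hij] at h1
    exact one_ne_zero h1

lemma card_piAntidiag_le (S : Finset ι) (m : ℕ) :
    (S.piAntidiag m).card ≤ (m + 1) ^ Fintype.card ι := by
  have hsub : S.piAntidiag m ⊆ Fintype.piFinset (fun _ : ι => Finset.range (m + 1)) := by
    intro e he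
    rw [mem_piAntidiag] at he
    rw [Fintype.mem_piFinset]
    intro i
    rw [Finset.mem_range]
    by_cases hi : e i = 0
    · omega
    · have := Finset.single_le_sum (f := e) (fun j _ => Nat.zero_le _) (he.2 i hi)
      rw [he.1] at this
      omega
  refine (Finset.card_le_card hsub).trans ?_
  rw [Fintype.card_piFinset]
  simp

lemma norm_hsum_le {S : Finset ι} {x : ι → ℂ} {A : ℝ} (hA : 0 ≤ A) (hx : ∀ j ∈ S, ‖x j‖ ≤ A)
    (m : ℕ) : ‖hsum S x m‖ ≤ (m + 1) ^ Fintype.card ι * A ^ m := by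
  rw [hsum]
  calc _ ≤ ∑ e ∈ S.piAntidiag m, A ^ m := by
        refine norm_sum_le_of_le _ fun e he => ?_
        rw [norm_prod]
        calc _ ≤ ∏ j ∈ S, A ^ e j := by
              refine Finset.prod_le_prod (fun _ _ => norm_nonneg _) fun j hj => ?_
              rw [norm_pow]
              exact pow_le_pow_left₀ (norm_nonneg _) (hx j hj) _
          _ = A ^ m := by
              rw [Finset.prod_pow_eq_pow_sum, (mem_piAntidiag.1 he).1]
    _ = ((S.piAntidiag m).card : ℝ) * A ^ m := by rw [Finset.sum_const, nsmul_eq_mul]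
    _ ≤ _ := by
        have := card_piAntidiag_le S m
        gcongr
        exact_mod_cast this

lemma norm_prod_one_sub_le {κ : Type*} [DecidableEq κ] (s : Finset κ) (z : κ → ℂ) {u : ℝ}
    (hu0 : 0 ≤ u) (hu1 : u ≤ 1) (hz : ∀ i ∈ s, ‖z i‖ ≤ u) :
    ‖∏ i ∈ s, (1 - z i) - (1 - ∑ i ∈ s, z i)‖ ≤ 4 ^ s.card * u ^ 2 := by
  induction s using Finset.induction_on with
  | empty => simp; positivity
  | insert a s ha ih =>
    have ih' := ih (fun i hi => hz i (Finset.mem_insert_of_mem hi))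
    have hza : ‖z a‖ ≤ u := hz a (Finset.mem_insert_self _ _)
    have hsum : ‖∑ i ∈ s, z i‖ ≤ s.card * u := by
      calc _ ≤ ∑ _i ∈ s, u := norm_sum_le_of_le _ fun i hi => hz i (Finset.mem_insert_of_mem hi)
        _ = _ := by rw [Finset.sum_const, nsmul_eq_mul]
    rw [Finset.prod_insert ha, Finset.sum_insert ha, Finset.card_insert_of_notMem ha]
    have e : (1 - z a) * ∏ i ∈ s, (1 - z i) - (1 - (z a + ∑ i ∈ s, z i)) =
        (∏ i ∈ s, (1 - z i) - (1 - ∑ i ∈ s, z i)) * (1 - z a) + (∑ i ∈ s, z i) * z a := by ring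
    rw [e]
    have h1 : ‖1 - z a‖ ≤ 2 := by
      calc _ ≤ ‖(1:ℂ)‖ + ‖z a‖ := norm_sub_le _ _
        _ ≤ 2 := by rw [norm_one]; linarith
    have hcard : (s.card : ℝ) ≤ 4 ^ s.card := by
      have : s.card < 4 ^ s.card := Nat.lt_pow_self (by norm_num)
      exact_mod_cast this.le
    calc _ ≤ ‖(∏ i ∈ s, (1 - z i) - (1 - ∑ i ∈ s, z i))‖ * ‖1 - z a‖ +
          ‖∑ i ∈ s, z i‖ * ‖z a‖ := by
          refine (norm_add_le _ _).trans ?_
          rw [norm_mul, norm_mul]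
      _ ≤ (4 ^ s.card * u ^ 2) * 2 + (s.card * u) * u := by gcongr
      _ ≤ (4 ^ s.card * u ^ 2) * 2 + (4 ^ s.card * u) * u := by gcongr
      _ = 3 * (4 ^ s.card * u ^ 2) := by ring
      _ ≤ 4 * (4 ^ s.card * u ^ 2) := by gcongr; norm_num
      _ = _ := by ring

lemma summable_poly_geometric (K c : ℕ) {r : ℝ} (h0 : 0 ≤ r) (h1 : r < 1) :
    Summable fun m : ℕ => ((m:ℝ) + c + 1) ^ K * r ^ m := by
  have h : Summable fun m : ℕ => ((m:ℝ)) ^ K * r ^ m :=
    summable_pow_mul_geometric_of_norm_lt_one K (by rwa [Real.norm_eq_abs, abs_of_nonneg h0])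
  rcases eq_or_lt_of_le h0 with h00 | h00
  · subst h00
    refine summable_of_ne_finset_zero (s := {0}) fun m hm => ?_
    have : m ≠ 0 := by simpa using hm
    simp [this]
  have h2 := (summable_nat_add_iff (c + 1)).2 h
  refine (h2.mul_left (r ^ (c + 1))⁻¹).congr fun m => ?_
  push_cast
  rw [pow_add]
  field_simp
  ring

/-- The `m`-th term of the local series. -/
noncomputable def tm (S : Finset ι) (γ : ι → ℂ) (p m : ℕ) : ℂ :=
  hsum S (fun j => (p : ℂ) ^ (-(I * γ j))) m *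
      hsum Sᶜ (fun l => (p : ℂ) ^ (I * γ l)) m * ((p : ℂ)⁻¹) ^ m

lemma localF_eq (S : Finset ι) (γ : ι → ℂ) (p : ℕ) :
    localF S γ p = (∑' m : ℕ, tm S γ p m) *
      ∏ j ∈ S, ∏ l ∈ Sᶜ, (1 - (p : ℂ) ^ (-(1 + I * (γ j - γ l)))) := rfl

lemma cpow_split {p : ℕ} (hp : 2 ≤ p) (a b : ℂ) :
    (p : ℂ) ^ (-(1 + I * (a - b))) = (p : ℂ)⁻¹ * ((p : ℂ) ^ (-(I * a)) * (p : ℂ) ^ (I * b)) := by
  have hp0 : (p : ℂ) ≠ 0 := by
    have : p ≠ 0 := by omega
    exact_mod_cast this
  rw [← Complex.cpow_neg_one, ← Complex.cpow_add _ _ hp0, ← Complex.cpow_add _ _ hp0]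
  congr 1
  ring

lemma norm_cpow_x {p : ℕ} (hp : 2 ≤ p) {a : ℂ} (ha : |a.im| < 1 / 8) :
    ‖(p : ℂ) ^ (-(I * a))‖ ≤ (p : ℝ) ^ (1 / 8 : ℝ) := by
  rw [Complex.norm_natCast_cpow_of_pos (by omega)]
  apply Real.rpow_le_rpow_of_exponent_le
  · exact_mod_cast (by omega : 1 ≤ p)
  · have := (abs_lt.1 ha).2
    simp
    linarith

lemma norm_cpow_y {p : ℕ} (hp : 2 ≤ p) {a : ℂ} (ha : |a.im| < 1 / 8) :
    ‖(p : ℂ) ^ (I * a)‖ ≤ (p : ℝ) ^ (1 / 8 : ℝ) := by
  rw [Complex.norm_natCast_cpow_of_pos (by omega)]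
  apply Real.rpow_le_rpow_of_exponent_le
  · exact_mod_cast (by omega : 1 ≤ p)
  · have := (abs_lt.1 ha).1
    simp
    linarith

lemma u_le {p : ℕ} (hp : 2 ≤ p) : (p : ℝ) ^ (-(3 / 4) : ℝ) ≤ 3 / 5 := by
  have hp' : (2:ℝ) ≤ p := by exact_mod_cast hp
  calc (p : ℝ) ^ (-(3 / 4) : ℝ) ≤ (2:ℝ) ^ (-(3 / 4) : ℝ) :=
        Real.rpow_le_rpow_of_nonpos (by norm_num) hp' (by norm_num)
    _ ≤ 3 / 5 := by
        refine le_of_pow_le_pow_left₀ (n := 4) (by norm_num) (by norm_num) ?_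
        rw [← Real.rpow_natCast, ← Real.rpow_mul (by norm_num)]
        norm_num

lemma A_sq {p : ℕ} (hp : 2 ≤ p) :
    ((p : ℝ) ^ (1 / 8 : ℝ)) * ((p : ℝ) ^ (1 / 8 : ℝ)) * (p : ℝ)⁻¹ =
      (p : ℝ) ^ (-(3 / 4) : ℝ) := by
  have hp0 : (0:ℝ) < p := by exact_mod_cast (by omega : 0 < p)
  rw [← Real.rpow_neg_one, ← Real.rpow_add hp0, ← Real.rpow_add hp0]
  norm_num

lemma norm_tm_le {S : Finset ι} {γ : ι → ℂ} (hγ : γ ∈ tube ι) {p : ℕ} (hp : 2 ≤ p) (m : ℕ) :
    ‖tm S γ p m‖ ≤ ((m:ℝ) + 1) ^ (2 * Fintype.card ι) * ((p : ℝ) ^ (-(3 / 4) : ℝ)) ^ m := by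
  have hA : (0:ℝ) ≤ (p : ℝ) ^ (1 / 8 : ℝ) := by positivity
  have h1 := norm_hsum_le (S := S) (x := fun j => (p : ℂ) ^ (-(I * γ j))) hA
    (fun j _ => norm_cpow_x hp (hγ j)) m
  have h2 := norm_hsum_le (S := Sᶜ) (x := fun j => (p : ℂ) ^ (I * γ j)) hA
    (fun j _ => norm_cpow_y hp (hγ j)) m
  rw [tm, norm_mul, norm_mul, norm_pow, norm_inv, Complex.norm_natCast]
  calc _ ≤ (((m:ℝ) + 1) ^ Fintype.card ι * ((p : ℝ) ^ (1 / 8 : ℝ)) ^ m) *
        (((m:ℝ) + 1) ^ Fintype.card ι * ((p : ℝ) ^ (1 / 8 : ℝ)) ^ m) * ((p:ℝ)⁻¹) ^ m := by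
        gcongr
    _ = _ := by
        rw [← A_sq hp, mul_pow, mul_pow, two_mul, pow_add]
        ring

/-- The constant in the bound for the tail of the local series. -/
noncomputable def Ctail (K : ℕ) : ℝ := ∑' m : ℕ, ((m:ℝ) + (2:ℕ) + 1) ^ (2 * K) * (3 / 5 : ℝ) ^ m

lemma Ctail_nonneg (K : ℕ) : 0 ≤ Ctail K := tsum_nonneg fun m => by positivity

lemma summable_tm {S : Finset ι} {γ : ι → ℂ} (hγ : γ ∈ tube ι) {p : ℕ} (hp : 2 ≤ p) :
    Summable (tm S γ p) := by
  have h := summable_poly_geometric (2 * Fintype.card ι) 0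
    (r := (p : ℝ) ^ (-(3 / 4) : ℝ)) (by positivity) (by linarith [u_le hp])
  refine Summable.of_norm_bounded h fun m => ?_
  simpa using norm_tm_le hγ hp m

lemma norm_tail_le {S : Finset ι} {γ : ι → ℂ} (hγ : γ ∈ tube ι) {p : ℕ} (hp : 2 ≤ p) :
    ‖∑' m : ℕ, tm S γ p (m + 2)‖ ≤
      Ctail (Fintype.card ι) * ((p : ℝ) ^ (-(3 / 4) : ℝ)) ^ 2 := by
  set u := (p : ℝ) ^ (-(3 / 4) : ℝ) with hu
  have hu0 : 0 ≤ u := by positivity
  have hu1 : u ≤ 3 / 5 := u_le hp
  have hs := (summable_poly_geometric (2 * Fintype.card ι) 2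
    (r := (3 / 5 : ℝ)) (by positivity) (by norm_num)).mul_right (u ^ 2)
  have := tsum_of_norm_bounded hs.hasSum (f := fun m => tm S γ p (m + 2)) fun m => by
    calc _ ≤ _ := norm_tm_le hγ hp (m + 2)
      _ = ((m:ℝ) + (2:ℕ) + 1) ^ (2 * Fintype.card ι) * (u ^ m * u ^ 2) := by
          push_cast; rw [← hu, pow_add]
      _ ≤ ((m:ℝ) + (2:ℕ) + 1) ^ (2 * Fintype.card ι) * ((3 / 5) ^ m * u ^ 2) := by gcongr
      _ = _ := by ring
  rw [tsum_mul_right] at this
  exact this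

/-- The constant in the bound for the local factors. -/
noncomputable def CF (K : ℕ) : ℝ :=
  ((K:ℝ) ^ 2) ^ 2 + Ctail K * (1 + (K:ℝ) ^ 2 + 4 ^ (K ^ 2)) + 4 ^ (K ^ 2) * (1 + (K:ℝ) ^ 2)

lemma CF_nonneg (K : ℕ) : 0 ≤ CF K := by
  have := Ctail_nonneg K
  unfold CF; positivity

lemma norm_localF_sub_one_le {S : Finset ι} {γ : ι → ℂ} (hγ : γ ∈ tube ι) {p : ℕ} (hp : 2 ≤ p) :
    ‖localF S γ p - 1‖ ≤ CF (Fintype.card ι) * ((p : ℝ) ^ (-(3 / 4) : ℝ)) ^ 2 := by
  set K := Fintype.card ι with hK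
  set u := (p : ℝ) ^ (-(3 / 4) : ℝ) with hu
  have hu0 : 0 ≤ u := by positivity
  have hu1 : u ≤ 1 := (u_le hp).trans (by norm_num)
  have hA : (0:ℝ) ≤ (p : ℝ) ^ (1 / 8 : ℝ) := by positivity
  set z : ι × ι → ℂ := fun q => (p : ℂ) ^ (-(1 + I * (γ q.1 - γ q.2))) with hz
  have hzu : ∀ q ∈ S ×ˢ Sᶜ, ‖z q‖ ≤ u := by
    intro q _
    simp only [hz]
    rw [cpow_split hp, norm_mul, norm_mul, norm_inv, Complex.norm_natCast, hu, ← A_sq hp]
    calc _ ≤ (p:ℝ)⁻¹ * ((p : ℝ) ^ (1 / 8 : ℝ) * (p : ℝ) ^ (1 / 8 : ℝ)) := by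
          gcongr
          · exact norm_cpow_x hp (hγ _)
          · exact norm_cpow_y hp (hγ _)
      _ = _ := by ring
  have hprod : ∏ j ∈ S, ∏ l ∈ Sᶜ, (1 - (p : ℂ) ^ (-(1 + I * (γ j - γ l)))) =
      ∏ q ∈ S ×ˢ Sᶜ, (1 - z q) := by
    rw [Finset.prod_product]
  have hcard : (S ×ˢ Sᶜ).card ≤ K ^ 2 := by
    rw [Finset.card_product, sq]
    exact Nat.mul_le_mul (Finset.card_le_univ _) (Finset.card_le_univ _)
  have hcard' : ((S ×ˢ Sᶜ).card : ℝ) ≤ (K:ℝ) ^ 2 := by exact_mod_cast hcard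
  have hP := norm_prod_one_sub_le (S ×ˢ Sᶜ) z hu0 hu1 hzu
  set a : ℂ := ∑ q ∈ S ×ˢ Sᶜ, z q with ha
  have hau : ‖a‖ ≤ (K:ℝ) ^ 2 * u := by
    calc _ ≤ ∑ _q ∈ S ×ˢ Sᶜ, u := norm_sum_le_of_le _ hzu
      _ = ((S ×ˢ Sᶜ).card : ℝ) * u := by rw [Finset.sum_const, nsmul_eq_mul]
      _ ≤ _ := by gcongr
  have ht0 : tm S γ p 0 = 1 := by simp [tm, hsum_zero]
  have ht1 : tm S γ p 1 = a := by
    rw [tm, hsum_one, hsum_one, pow_one, ha, Finset.sum_mul_sum, Finset.sum_product,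
      Finset.sum_mul]
    refine Finset.sum_congr rfl fun j _ => ?_
    rw [Finset.sum_mul]
    refine Finset.sum_congr rfl fun l _ => ?_
    simp only [hz]
    rw [cpow_split hp]
    ring
  have hser : ∑' m : ℕ, tm S γ p m = 1 + a + ∑' m : ℕ, tm S γ p (m + 2) := by
    rw [← (summable_tm hγ hp).sum_add_tsum_nat_add 2, Finset.sum_range_succ,
      Finset.sum_range_one, ht0, ht1]
  set R := ∑' m : ℕ, tm S γ p (m + 2) with hR
  have hRb : ‖R‖ ≤ Ctail K * u ^ 2 := norm_tail_le hγ hp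
  set P := ∏ q ∈ S ×ˢ Sᶜ, (1 - z q) with hPdef
  set R' := P - (1 - a) with hR'
  have hR'b : ‖R'‖ ≤ 4 ^ (K ^ 2) * u ^ 2 := by
    refine hP.trans ?_
    gcongr
    norm_num
  rw [localF_eq, hprod, hser]
  have e : (1 + a + R) * P - 1 = -a ^ 2 + R * (1 - a + R') + R' * (1 + a) := by
    rw [hR']; ring
  rw [e]
  have hCt := Ctail_nonneg K
  have hu2 : u ^ 2 ≤ 1 := pow_le_one₀ hu0 hu1
  have h1 : ‖1 - a + R'‖ ≤ 1 + (K:ℝ) ^ 2 + 4 ^ (K ^ 2) := by
    calc _ ≤ ‖(1:ℂ)‖ + ‖a‖ + ‖R'‖ := by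
          refine (norm_add_le _ _).trans ?_
          gcongr
          exact norm_sub_le _ _
      _ ≤ 1 + (K:ℝ) ^ 2 * 1 + 4 ^ (K ^ 2) * 1 := by
          rw [norm_one]
          gcongr
          · exact hau.trans (by gcongr)
          · exact hR'b.trans (by gcongr)
      _ = _ := by ring
  have h2 : ‖1 + a‖ ≤ 1 + (K:ℝ) ^ 2 := by
    calc _ ≤ ‖(1:ℂ)‖ + ‖a‖ := norm_add_le _ _
      _ ≤ 1 + (K:ℝ) ^ 2 * 1 := by
          rw [norm_one]
          gcongr
          exact hau.trans (by gcongr)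
      _ = _ := by ring
  calc _ ≤ ‖a‖ ^ 2 + ‖R‖ * ‖1 - a + R'‖ + ‖R'‖ * ‖1 + a‖ := by
        refine (norm_add_le _ _).trans ?_
        rw [norm_mul R']
        gcongr
        refine (norm_add_le _ _).trans ?_
        rw [norm_mul R, norm_neg, norm_pow]
    _ ≤ ((K:ℝ) ^ 2 * u) ^ 2 + (Ctail K * u ^ 2) * (1 + (K:ℝ) ^ 2 + 4 ^ (K ^ 2)) +
          (4 ^ (K ^ 2) * u ^ 2) * (1 + (K:ℝ) ^ 2) := by gcongr
    _ = _ := by unfold CF; ring

/-- The summable majorant. -/
noncomputable def uF (K : ℕ) (p : Nat.Primes) : ℝ :=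
  CF K * (((p : ℕ) : ℝ) ^ (-(3 / 4) : ℝ)) ^ 2

lemma summable_uF (K : ℕ) : Summable (uF K) := by
  unfold uF
  refine Summable.mul_left _ ?_
  have h := Nat.Primes.summable_rpow.2 (by norm_num : (-(3 / 2) : ℝ) < -1)
  refine h.congr fun p => ?_
  rw [← Real.rpow_natCast, ← Real.rpow_mul (by positivity)]
  norm_num

lemma uF_nonneg (K : ℕ) (p : Nat.Primes) : 0 ≤ uF K p := by
  have := CF_nonneg K
  unfold uF; positivity

lemma norm_localF_sub_one_le_uF {S : Finset ι} {γ : ι → ℂ} (hγ : γ ∈ tube ι) (p : Nat.Primes) :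
    ‖localF S γ p - 1‖ ≤ uF (Fintype.card ι) p :=
  norm_localF_sub_one_le hγ p.2.two_le

/-- The bound for `F` on the tube. -/
noncomputable def BF (K : ℕ) : ℝ := Real.exp (∑' p, uF K p)

lemma norm_eulerF_le {S : Finset ι} {γ : ι → ℂ} (hγ : γ ∈ tube ι) :
    ‖eulerF S γ‖ ≤ BF (Fintype.card ι) + 1 := by
  have hsum : Summable fun p : Nat.Primes => ‖localF S γ p - 1‖ :=
    (summable_uF _).of_nonneg_of_le (fun _ => norm_nonneg _)
      fun p => norm_localF_sub_one_le_uF hγ p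
  have hm := multipliable_one_add_of_summable hsum
  have e : (fun p : Nat.Primes => 1 + (localF S γ p - 1)) = fun p : Nat.Primes => localF S γ p := by
    funext p; ring
  rw [e] at hm
  have hlim := hm.hasProd
  refine le_of_tendsto hlim.norm (Filter.Eventually.of_forall fun t => ?_)
  rw [← norm_prod]
  have h1 := Finset.norm_prod_one_add_sub_one_le t (fun p : Nat.Primes => localF S γ p - 1)
  have e2 : ∏ p ∈ t, (1 + (localF S γ p - 1)) = ∏ p ∈ t, localF S γ p := by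
    refine Finset.prod_congr rfl fun p _ => by ring
  rw [e2] at h1
  have h2 : ∑ p ∈ t, ‖localF S γ p - 1‖ ≤ ∑' p, uF (Fintype.card ι) p := by
    calc _ ≤ ∑ p ∈ t, uF (Fintype.card ι) p :=
          Finset.sum_le_sum fun p _ => norm_localF_sub_one_le_uF hγ p
      _ ≤ _ := (summable_uF _).sum_le_tsum _ fun p _ => uF_nonneg _ p
  have h3 : Real.exp (∑ p ∈ t, ‖localF S γ p - 1‖) ≤ BF (Fintype.card ι) :=
    Real.exp_le_exp.2 h2
  calc ‖∏ p ∈ t, localF S γ p‖ = ‖(∏ p ∈ t, localF S γ p - 1) + 1‖ := by ring_nf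
    _ ≤ ‖∏ p ∈ t, localF S γ p - 1‖ + ‖(1:ℂ)‖ := norm_add_le _ _
    _ ≤ _ := by rw [norm_one]; linarith

lemma continuous_cpow_x {p : ℕ} (hp : 2 ≤ p) (c : ℂ) (j : ι) :
    Continuous fun γ : ι → ℂ => (p : ℂ) ^ (c * γ j) := by
  have hp0 : (p : ℂ) ≠ 0 := by
    have : p ≠ 0 := by omega
    exact_mod_cast this
  exact Continuous.const_cpow (by fun_prop) (Or.inl hp0)

lemma continuous_tm (S : Finset ι) {p : ℕ} (hp : 2 ≤ p) (m : ℕ) :
    Continuous fun γ : ι → ℂ => tm S γ p m := by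
  unfold tm hsum
  refine Continuous.mul (Continuous.mul ?_ ?_) continuous_const
  · refine continuous_finsetSum _ fun e _ => continuous_finsetProd _ fun j _ => ?_
    refine Continuous.pow ?_ _
    simpa [neg_mul] using continuous_cpow_x hp (-I) j
  · refine continuous_finsetSum _ fun e _ => continuous_finsetProd _ fun j _ => ?_
    exact (continuous_cpow_x hp I j).pow _

lemma continuousOn_localF (S : Finset ι) {p : ℕ} (hp : 2 ≤ p) :
    ContinuousOn (fun γ : ι → ℂ => localF S γ p) (tube ι) := by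
  have hp0 : (p : ℂ) ≠ 0 := by
    have : p ≠ 0 := by omega
    exact_mod_cast this
  simp only [localF_eq]
  refine ContinuousOn.mul ?_ ?_
  · have h := summable_poly_geometric (2 * Fintype.card ι) 0
      (r := (p : ℝ) ^ (-(3 / 4) : ℝ)) (by positivity) (by linarith [u_le hp])
    refine continuousOn_tsum (fun m => (continuous_tm S hp m).continuousOn) h ?_
    intro m γ hγ
    simpa using norm_tm_le hγ hp m
  · refine Continuous.continuousOn ?_
    refine continuous_finsetProd _ fun j _ => continuous_finsetProd _ fun l _ => ?_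
    refine continuous_const.sub (Continuous.const_cpow (by fun_prop) (Or.inl hp0))

lemma continuousOn_eulerF (S : Finset ι) : ContinuousOn (eulerF S) (tube ι) := by
  have h := Summable.hasProdLocallyUniformlyOn_one_add (ι := Nat.Primes)
    (f := fun (p : Nat.Primes) (γ : ι → ℂ) => localF S γ p - 1) (K := tube ι) isOpen_tube
    (summable_uF (Fintype.card ι))
    (Filter.Eventually.of_forall fun p γ hγ => norm_localF_sub_one_le_uF hγ p)
    (fun p => (continuousOn_localF S p.2.two_le).sub continuousOn_const)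
  rw [hasProdLocallyUniformlyOn_iff_tendstoLocallyUniformlyOn] at h
  have h2 := h.continuousOn (Filter.Eventually.frequently (Filter.Eventually.of_forall fun t => by
    refine continuousOn_finsetProd _ fun p _ => ?_
    exact continuousOn_const.add ((continuousOn_localF S p.2.two_le).sub continuousOn_const)))
  refine h2.congr fun γ _ => ?_
  simp only [eulerF]
  refine tprod_congr fun p => ?_
  ring

lemma differentiableOn_localF_comp (S : Finset ι) {p : ℕ} (hp : 2 ≤ p) {U : Set ℂ}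
    (hU : IsOpen U) {g : ℂ → ι → ℂ} (hg : ∀ i, DifferentiableOn ℂ (fun z => g z i) U)
    (hgU : ∀ z ∈ U, g z ∈ tube ι) : DifferentiableOn ℂ (fun z => localF S (g z) p) U := by
  have hp0 : (p : ℂ) ≠ 0 := by
    have : p ≠ 0 := by omega
    exact_mod_cast this
  simp only [localF_eq]
  refine DifferentiableOn.mul ?_ ?_
  · have h := summable_poly_geometric (2 * Fintype.card ι) 0
      (r := (p : ℝ) ^ (-(3 / 4) : ℝ)) (by positivity) (by linarith [u_le hp])
    refine differentiableOn_tsum_of_summable_norm h ?_ hU ?_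
    · intro m
      unfold tm hsum
      refine DifferentiableOn.mul (DifferentiableOn.mul ?_ ?_) (differentiableOn_const _)
      · refine DifferentiableOn.fun_sum fun e _ => DifferentiableOn.fun_finsetProd fun j _ => ?_
        refine DifferentiableOn.pow ?_ _
        exact DifferentiableOn.const_cpow ((hg j).const_mul I).neg (Or.inl hp0)
      · refine DifferentiableOn.fun_sum fun e _ => DifferentiableOn.fun_finsetProd fun j _ => ?_
        refine DifferentiableOn.pow ?_ _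
        exact DifferentiableOn.const_cpow ((hg j).const_mul I) (Or.inl hp0)
    · intro m z hz
      simpa using norm_tm_le (hgU z hz) hp m
  · refine DifferentiableOn.fun_finsetProd fun j _ => DifferentiableOn.fun_finsetProd
      fun l _ => ?_
    refine (differentiableOn_const _).sub (DifferentiableOn.const_cpow ?_ (Or.inl hp0))
    exact ((differentiableOn_const _).add (((hg j).sub (hg l)).const_mul I)).neg

lemma differentiableOn_eulerF_comp (S : Finset ι) {U : Set ℂ}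
    (hU : IsOpen U) {g : ℂ → ι → ℂ} (hg : ∀ i, DifferentiableOn ℂ (fun z => g z i) U)
    (hgU : ∀ z ∈ U, g z ∈ tube ι) : DifferentiableOn ℂ (fun z => eulerF S (g z)) U := by
  have hd : ∀ p : Nat.Primes, DifferentiableOn ℂ (fun z => localF S (g z) p - 1) U := fun p =>
    (differentiableOn_localF_comp S p.2.two_le hU hg hgU).sub (differentiableOn_const _)
  have h := Summable.hasProdLocallyUniformlyOn_one_add (ι := Nat.Primes)
    (f := fun (p : Nat.Primes) (z : ℂ) => localF S (g z) p - 1) (K := U) hU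
    (summable_uF (Fintype.card ι))
    (Filter.Eventually.of_forall fun p z hz => norm_localF_sub_one_le_uF (hgU z hz) p)
    (fun p => (hd p).continuousOn)
  rw [hasProdLocallyUniformlyOn_iff_tendstoLocallyUniformlyOn] at h
  have h2 := h.differentiableOn (Filter.Eventually.of_forall fun t => by
    refine DifferentiableOn.fun_finsetProd fun p _ => ?_
    exact (differentiableOn_const _).add (hd p)) hU
  refine h2.congr fun z _ => ?_
  simp only [eulerF]
  refine tprod_congr fun p => ?_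
  ring

end Pool.Agent.H26
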