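import Pool.Agent.H26.ZProd
import Pool.Agent.H26.CMSum
import Pool.Agent.H26.DiffOp
import Pool.Agent.H26.Shift

/-!
Evaluation of the transform of the `(k,1)` product.
-/

namespace Pool.Agent.H26

open Complex MeasureTheory Set Filter Topology

lemma integral_Ioi_comp_add (g : ℝ → ℂ) (b : ℝ) :
    ∫ t in Ioi (0:ℝ), g (t + b) = ∫ y in Ioi b, g y := by
  have h := (measurePreserving_add_right (volume : Measure ℝ) b).setIntegral_preimage_emb
    (MeasurableEquiv.addRight b).measurableEmbedding g (Ioi b)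
  have e : (fun x => x + b) ⁻¹' Ioi b = Ioi 0 := by
    ext x
    simp
  rw [e] at h
  exact h

/-- the part of the integrand without the gamma factors -/
noncomputable def Fint (c : ℕ → ℂ) (l : List ℝ) (b : ℝ) (z s : ℂ) : ℂ :=
  cexp (-(s * lam z)) * (Hs c (s - 1 / 2 - I * b) * zprod l s)

section

variable {c : ℕ → ℂ} {l : List ℝ} {b : ℝ}

lemma differentiableAt_Fint_s (hc : Summable fun m => ‖c m‖ * ((m + 1 : ℕ) : ℝ) ^ (2:ℝ))
    {z s : ℂ} (hs : s.re ≤ 2) (h : ∀ a ∈ l, s + I * a ≠ 1) :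
    DifferentiableAt ℂ (Fint c l b z) s := by
  unfold Fint
  refine DifferentiableAt.mul (by fun_prop) (DifferentiableAt.mul ?_ (differentiableAt_zprod h))
  have h1 : DifferentiableAt ℂ (Hs c) (s - 1 / 2 - I * b) :=
    differentiableAt_Hs hc (by simp; linarith)
  exact DifferentiableAt.comp (f := fun s : ℂ => s - 1 / 2 - I * b) s h1 (by fun_prop)

lemma differentiableOn_Fint_z (s : ℂ) : DifferentiableOn ℂ (fun z => Fint c l b z s) St := by
  unfold Fint
  refine DifferentiableOn.mul_const ?_ _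
  have := differentiableOn_lam
  fun_prop

lemma exists_norm_Fint_le (l : List ℝ) (b : ℝ) : ∃ C : ℝ, 0 < C ∧ ∀ (c : ℕ → ℂ),
    (Summable fun m => ‖c m‖ * ((m + 1 : ℕ) : ℝ) ^ (2:ℝ)) → ∀ z s : ℂ, |z.im| ≤ 1 / 2 →
    1 / 2 ≤ s.re → s.re ≤ 2 → (∀ a ∈ l, 1 ≤ ‖s + I * a - 1‖) →
    ‖Fint c l b z s‖ ≤ C * (∑' m, ‖c m‖ * ((m + 1 : ℕ) : ℝ) ^ (2:ℝ)) *
      (1 + |s.im|) ^ l.length * Real.exp (s.im * (lam z).im) := by
  obtain ⟨C, hC0, hC⟩ := exists_norm_zprod_le l
  refine ⟨C, hC0, fun c hc z s hz h0 h2 h => ?_⟩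
  have h1 := norm_Hs_le hc (w := s - 1 / 2 - I * b) (by simp; linarith)
  have h3 := hC s h0 h2 h
  have h4 : ‖cexp (-(s * lam z))‖ ≤ Real.exp (s.im * (lam z).im) := by
    rw [norm_exp_neg_mul]
    apply Real.exp_le_exp.2
    have := lam_re_pos hz
    nlinarith
  have h5 : 0 ≤ ∑' m, ‖c m‖ * ((m + 1 : ℕ) : ℝ) ^ (2:ℝ) := (norm_nonneg _).trans h1
  unfold Fint
  rw [norm_mul, norm_mul]
  calc _ ≤ Real.exp (s.im * (lam z).im) * ((∑' m, ‖c m‖ * ((m + 1 : ℕ) : ℝ) ^ (2:ℝ)) *
        (C * (1 + |s.im|) ^ l.length)) := by gcongr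
    _ = _ := by ring

end

/-- distances to the poles -/
lemma one_le_norm_of_im {s : ℂ} {a : ℝ} (h : 1 ≤ s.im + a) : 1 ≤ ‖s + I * a - 1‖ := by
  have := Complex.abs_im_le_norm (s + I * a - 1)
  have e : (s + I * a - 1).im = s.im + a := by simp
  rw [e, abs_of_nonneg (by linarith)] at this
  linarith

lemma one_le_norm_of_re {s : ℂ} {a : ℝ} (h : s.re = 2) : 1 ≤ ‖s + I * a - 1‖ := by
  have := Complex.abs_re_le_norm (s + I * a - 1)
  have e : (s + I * a - 1).re = 1 := by simp [h]; norm_num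
  rw [e] at this
  simpa using this

lemma ne_one_of_one_le_norm {s : ℂ} {a : ℝ} (h : 1 ≤ ‖s + I * a - 1‖) : s + I * a ≠ 1 := by
  intro h1
  rw [h1, sub_self, norm_zero] at h
  norm_num at h

theorem exists_eval (l' : List ℝ) {b : ℝ} (hb : 1 ≤ b) (hl : ∀ a ∈ l', 1 ≤ b + a) :
    ∃ C : ℝ, 0 < C ∧ ∀ (c : ℕ → ℂ), (Summable fun m => ‖c m‖ * ((m + 1 : ℕ) : ℝ) ^ (2:ℝ)) →
    ∃ R : ℂ → ℂ, PT (C * ∑' m, ‖c m‖ * ((m + 1 : ℕ) : ℝ) ^ (2:ℝ)) 0 R ∧
    ∀ z ∈ St, z.im < 0 →
      ∫ t in Ioi (0:ℝ), (riemannZeta (1 / 2 - I * (t + b)) * zprod l' (1 / 2 + I * (t + b)) *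
        Hs c (I * t)) * cexp (-((1 / 2 + I * (t + b)) * lam z)) =
      (∫ v : ℝ, Gp (2 + v * I) * Fint c (0 :: l') b z (2 + v * I)) + R z := by
  set l : List ℝ := 0 :: l' with hldef
  have hl0 : ∀ a ∈ l, 1 ≤ b + a := by
    intro a ha
    rcases List.mem_cons.1 ha with h | h
    · rw [h]; linarith
    · exact hl a h
  obtain ⟨C₁, hC₁0, hC₁⟩ := exists_norm_Fint_le l b
  obtain ⟨C₂, hC₂0, hC₂⟩ := exists_norm_Gp_right
  set n : ℕ := l.length with hn
  -- the basic majorant
  set J : ℝ := ∫ v : ℝ, (1 + |v|) ^ ((n + 2 : ℕ) : ℝ) * Real.exp (-(1 * |v|)) with hJ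
  have hJi : Integrable fun v : ℝ => (1 + |v|) ^ ((n + 2 : ℕ) : ℝ) * Real.exp (-(1 * |v|)) :=
    integrable_poly_exp _ one_pos
  have hJ0 : 0 ≤ J := integral_nonneg fun v => by positivity
  set K₀ : ℝ := C₂ * C₁ * Real.exp (2 * b) * (1 + b) ^ (n + 2) with hK₀
  set K₁ : ℝ := C₂ * C₁ * Real.exp (2 * b) with hK₁
  refine ⟨K₀ * 2 + K₁ * J + K₁ * J + 1, by positivity, fun c hc => ?_⟩
  set Hn : ℝ := ∑' m, ‖c m‖ * ((m + 1 : ℕ) : ℝ) ^ (2:ℝ) with hHn
  have hHn0 : 0 ≤ Hn := tsum_nonneg fun m => by positivity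
  -- distances
  have hd1 : ∀ s : ℂ, b ≤ s.im → ∀ a ∈ l, 1 ≤ ‖s + I * a - 1‖ := fun s hs a ha =>
    one_le_norm_of_im (by have := hl0 a ha; linarith)
  have hd2 : ∀ s : ℂ, s.re = 2 → ∀ a ∈ l, 1 ≤ ‖s + I * a - 1‖ := fun s hs a _ =>
    one_le_norm_of_re hs
  -- pointwise bounds
  have hBp : ∀ z s : ℂ, |z.im| ≤ 1 / 2 → 1 / 2 ≤ s.re → s.re ≤ 2 →
      (∀ a ∈ l, 1 ≤ ‖s + I * a - 1‖) →
      ‖Gp s * Fint c l b z s‖ ≤ C₂ * C₁ * Hn * (1 + |s.im|) ^ (n + 2) *
        Real.exp (-(Real.pi / 2 * |s.im|) + Real.pi / 2 * s.im + s.im * (lam z).im) := by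
    intro z s hz h0 h2 h
    have h3 := hC₁ c hc z s hz h0 h2 h
    have h4 := (hC₂ s h0 h2).1
    rw [norm_mul, Real.exp_add _ (s.im * (lam z).im), pow_add]
    calc _ ≤ (C₂ * (1 + |s.im|) ^ 2 * Real.exp (-(Real.pi / 2 * |s.im|) + Real.pi / 2 * s.im)) *
          (C₁ * Hn * (1 + |s.im|) ^ n * Real.exp (s.im * (lam z).im)) := by gcongr
      _ = _ := by ring
  have hBm : ∀ z s : ℂ, |z.im| ≤ 1 / 2 → 1 / 2 ≤ s.re → s.re ≤ 2 →
      (∀ a ∈ l, 1 ≤ ‖s + I * a - 1‖) →
      ‖Gm s * Fint c l b z s‖ ≤ C₂ * C₁ * Hn * (1 + |s.im|) ^ (n + 2) *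
        Real.exp (-(Real.pi / 2 * |s.im|) - Real.pi / 2 * s.im + s.im * (lam z).im) := by
    intro z s hz h0 h2 h
    have h3 := hC₁ c hc z s hz h0 h2 h
    have h4 := (hC₂ s h0 h2).2
    rw [norm_mul, Real.exp_add _ (s.im * (lam z).im), pow_add]
    calc _ ≤ (C₂ * (1 + |s.im|) ^ 2 * Real.exp (-(Real.pi / 2 * |s.im|) - Real.pi / 2 * s.im)) *
          (C₁ * Hn * (1 + |s.im|) ^ n * Real.exp (s.im * (lam z).im)) := by gcongr
      _ = _ := by ring
  -- differentiability in s
  have hdiff : ∀ z s : ℂ, 1 / 2 ≤ s.re → s.re ≤ 2 → (∀ a ∈ l, 1 ≤ ‖s + I * a - 1‖) →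
      DifferentiableAt ℂ (fun s => Gp s * Fint c l b z s) s := by
    intro z s h0 h2 h
    refine DifferentiableAt.mul (differentiableAt_Gp (ne_neg_nat_of_re_pos (by linarith))) ?_
    exact differentiableAt_Fint_s hc h2 fun a ha => ne_one_of_one_le_norm (h a ha)
  have hdiffm : ∀ z s : ℂ, 1 / 2 ≤ s.re → s.re ≤ 2 → (∀ a ∈ l, 1 ≤ ‖s + I * a - 1‖) →
      DifferentiableAt ℂ (fun s => Gm s * Fint c l b z s) s := by
    intro z s h0 h2 h
    refine DifferentiableAt.mul (differentiableAt_Gm (ne_neg_nat_of_re_pos (by linarith))) ?_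
    exact differentiableAt_Fint_s hc h2 fun a ha => ne_one_of_one_le_norm (h a ha)
  -- continuity along the relevant lines
  have hcontH : ∀ z : ℂ, ContinuousOn (fun x : ℝ => Gp (x + b * I) * Fint c l b z (x + b * I))
      (Icc (1 / 2) 2) := by
    intro z x hx
    have h1 := (hdiff z (x + b * I) (by simpa using hx.1) (by simpa using hx.2)
      (hd1 _ (by simp))).continuousAt
    exact (ContinuousAt.comp (f := fun x : ℝ => (x + b * I : ℂ)) h1
      (by fun_prop)).continuousWithinAt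
  have hcontR : ∀ z : ℂ, Continuous (fun v : ℝ => Gp (2 + v * I) * Fint c l b z (2 + v * I)) := by
    intro z
    rw [continuous_iff_continuousAt]
    intro v
    have h1 := (hdiff z (2 + v * I) (by simp; norm_num) (by simp) (hd2 _ (by simp))).continuousAt
    exact ContinuousAt.comp (f := fun v : ℝ => (2 + v * I : ℂ)) h1 (by fun_prop)
  have hcontL : ∀ z : ℂ, ContinuousOn
      (fun v : ℝ => Gm (1 / 2 + v * I) * Fint c l b z (1 / 2 + v * I)) (Ici b) := by
    intro z v hv
    have h1 := (hdiffm z (1 / 2 + v * I) (by simp) (by simp; norm_num)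
      (hd1 _ (by simpa using hv))).continuousAt
    exact (ContinuousAt.comp (f := fun v : ℝ => (1 / 2 + v * I : ℂ)) h1
      (by fun_prop)).continuousWithinAt
  have hcontLp : ∀ z : ℂ, ContinuousOn
      (fun v : ℝ => Gp (1 / 2 + v * I) * Fint c l b z (1 / 2 + v * I)) (Ici b) := by
    intro z v hv
    have h1 := (hdiff z (1 / 2 + v * I) (by simp) (by simp; norm_num)
      (hd1 _ (by simpa using hv))).continuousAt
    exact (ContinuousAt.comp (f := fun v : ℝ => (1 / 2 + v * I : ℂ)) h1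
      (by fun_prop)).continuousWithinAt
  -- majorants
  have hrp : ∀ v : ℝ, (1 + |v|) ^ ((n + 2 : ℕ) : ℝ) = (1 + |v|) ^ (n + 2) := fun v =>
    Real.rpow_natCast _ _
  have hM1 : ∀ z ∈ St, ∀ x ∈ Icc (1 / 2 : ℝ) 2,
      ‖Gp (x + b * I) * Fint c l b z (x + b * I)‖ ≤ K₀ * Hn := by
    intro z hz x hx
    have h1 := hBp z (x + b * I) (le_of_lt hz) (by simpa using hx.1) (by simpa using hx.2)
      (hd1 _ (by simp))
    have e1 : ((x : ℂ) + b * I).im = b := by simp
    rw [e1, abs_of_nonneg (by linarith)] at h1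
    have h2 : (lam z).im ≤ 1 / 2 := (le_abs_self _).trans
      ((abs_lam_im_le_abs (le_of_lt hz)).trans (le_of_lt hz))
    refine h1.trans ?_
    have h3 : Real.exp (-(Real.pi / 2 * b) + Real.pi / 2 * b + b * (lam z).im) ≤
        Real.exp (2 * b) := by
      apply Real.exp_le_exp.2
      nlinarith
    rw [hK₀]
    calc _ ≤ C₂ * C₁ * Hn * (1 + b) ^ (n + 2) * Real.exp (2 * b) := by gcongr
      _ = _ := by ring
  have hM2 : ∀ z ∈ St, ∀ v ∈ Iic b,
      ‖Gp (2 + v * I) * Fint c l b z (2 + v * I)‖ ≤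
        K₁ * Hn * ((1 + |v|) ^ ((n + 2 : ℕ) : ℝ) * Real.exp (-(1 * |v|))) := by
    intro z hz v hv
    have h1 := hBp z (2 + v * I) (le_of_lt hz) (by simp; norm_num) (by simp) (hd2 _ (by simp))
    have e1 : ((2 : ℂ) + v * I).im = v := by simp
    rw [e1] at h1
    have h2 := abs_le.1 ((abs_lam_im_le_abs (le_of_lt hz)).trans (le_of_lt hz))
    refine h1.trans ?_
    have h3 : Real.exp (-(Real.pi / 2 * |v|) + Real.pi / 2 * v + v * (lam z).im) ≤
        Real.exp (2 * b) * Real.exp (-(1 * |v|)) := by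
      rw [← Real.exp_add]
      apply Real.exp_le_exp.2
      have hv' : v ≤ b := hv
      rcases le_total 0 v with h0 | h0
      · rw [abs_of_nonneg h0]
        nlinarith
      · rw [abs_of_nonpos h0]
        nlinarith [Real.pi_gt_three]
    rw [hK₁, hrp]
    calc _ ≤ C₂ * C₁ * Hn * (1 + |v|) ^ (n + 2) * (Real.exp (2 * b) * Real.exp (-(1 * |v|))) := by
          gcongr
      _ = _ := by ring
  have hM3 : ∀ z ∈ St, ∀ v ∈ Ici b,
      ‖Gm (1 / 2 + v * I) * Fint c l b z (1 / 2 + v * I)‖ ≤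
        K₁ * Hn * ((1 + |v|) ^ ((n + 2 : ℕ) : ℝ) * Real.exp (-(1 * |v|))) := by
    intro z hz v hv
    have hv' : b ≤ v := hv
    have h1 := hBm z (1 / 2 + v * I) (le_of_lt hz) (by simp) (by simp; norm_num)
      (hd1 _ (by simpa using hv))
    have e1 : ((1 / 2 : ℂ) + v * I).im = v := by simp
    rw [e1] at h1
    have h2 := abs_le.1 ((abs_lam_im_le_abs (le_of_lt hz)).trans (le_of_lt hz))
    refine h1.trans ?_
    have h3 : Real.exp (-(Real.pi / 2 * |v|) - Real.pi / 2 * v + v * (lam z).im) ≤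
        Real.exp (2 * b) * Real.exp (-(1 * |v|)) := by
      rw [← Real.exp_add]
      apply Real.exp_le_exp.2
      rw [abs_of_nonneg (by linarith)]
      nlinarith [Real.pi_gt_three]
    rw [hK₁, hrp]
    calc _ ≤ C₂ * C₁ * Hn * (1 + |v|) ^ (n + 2) * (Real.exp (2 * b) * Real.exp (-(1 * |v|))) := by
          gcongr
      _ = _ := by ring
  refine ⟨fun z => -(I * ∫ x in Ioc (1 / 2 : ℝ) 2, Gp (x + b * I) * Fint c l b z (x + b * I)) -
      (∫ v in Iic b, Gp (2 + v * I) * Fint c l b z (2 + v * I)) +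
      ∫ v in Ioi b, Gm (1 / 2 + v * I) * Fint c l b z (1 / 2 + v * I), ⟨?_, ?_⟩, ?_⟩
  · refine DifferentiableOn.add (DifferentiableOn.sub (DifferentiableOn.neg
      (DifferentiableOn.const_mul ?_ _)) ?_) ?_
    · refine differentiableOn_integral_of_majorant isOpen_St ?_ ?_ (bound := fun _ => K₀ * Hn) ?_ ?_
      · intro z hz
        exact ((hcontH z).mono Ioc_subset_Icc_self).aestronglyMeasurable measurableSet_Ioc
      · filter_upwards with x
        exact (differentiableOn_Fint_z _).const_mul _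
      · filter_upwards [ae_restrict_mem measurableSet_Ioc] with x hx z hz
        exact hM1 z hz x ⟨hx.1.le, hx.2⟩
      · exact integrableOn_const (by simp)
    · refine differentiableOn_integral_of_majorant isOpen_St ?_ ?_ (bound := fun v =>
        K₁ * Hn * ((1 + |v|) ^ ((n + 2 : ℕ) : ℝ) * Real.exp (-(1 * |v|)))) ?_ ?_
      · intro z hz
        exact (hcontR z).aestronglyMeasurable
      · filter_upwards with x
        exact (differentiableOn_Fint_z _).const_mul _
      · filter_upwards [ae_restrict_mem measurableSet_Iic] with v hv z hz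
        exact hM2 z hz v hv
      · exact (hJi.const_mul _).integrableOn
    · refine differentiableOn_integral_of_majorant isOpen_St ?_ ?_ (bound := fun v =>
        K₁ * Hn * ((1 + |v|) ^ ((n + 2 : ℕ) : ℝ) * Real.exp (-(1 * |v|)))) ?_ ?_
      · intro z hz
        exact ((hcontL z).mono Ioi_subset_Ici_self).aestronglyMeasurable measurableSet_Ioi
      · filter_upwards with x
        exact (differentiableOn_Fint_z _).const_mul _
      · filter_upwards [ae_restrict_mem measurableSet_Ioi] with v hv z hz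
        exact hM3 z hz v (Ioi_subset_Ici_self hv)
      · exact (hJi.const_mul _).integrableOn
  · intro z hz
    rw [zero_mul, Real.exp_zero, mul_one]
    have hJr : ∀ s : Set ℝ, ∫ v in s, K₁ * Hn * ((1 + |v|) ^ ((n + 2 : ℕ) : ℝ) *
        Real.exp (-(1 * |v|))) ≤ K₁ * Hn * J := by
      intro s
      rw [integral_const_mul]
      refine mul_le_mul_of_nonneg_left ?_ (by positivity)
      exact setIntegral_le_integral hJi (Eventually.of_forall fun v => by positivity)
    have h1 : ‖∫ x in Ioc (1 / 2 : ℝ) 2, Gp (x + b * I) * Fint c l b z (x + b * I)‖ ≤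
        K₀ * 2 * Hn := by
      refine (norm_setIntegral_le_of_norm_le_const (C := K₀ * Hn) (by simp) ?_).trans ?_
      · intro x hx
        exact hM1 z hz x ⟨hx.1.le, hx.2⟩
      · rw [Real.volume_real_Ioc]
        have : 0 ≤ K₀ * Hn := by positivity
        norm_num
        nlinarith
    have h2 : ‖∫ v in Iic b, Gp (2 + v * I) * Fint c l b z (2 + v * I)‖ ≤ K₁ * Hn * J := by
      refine (norm_integral_le_of_norm_le (hJi.const_mul (K₁ * Hn)).integrableOn ?_).trans (hJr _)
      filter_upwards [ae_restrict_mem measurableSet_Iic] with v hv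
      exact hM2 z hz v hv
    have h3 : ‖∫ v in Ioi b, Gm (1 / 2 + v * I) * Fint c l b z (1 / 2 + v * I)‖ ≤
        K₁ * Hn * J := by
      refine (norm_integral_le_of_norm_le (hJi.const_mul (K₁ * Hn)).integrableOn ?_).trans (hJr _)
      filter_upwards [ae_restrict_mem measurableSet_Ioi] with v hv
      exact hM3 z hz v (Ioi_subset_Ici_self hv)
    refine (norm_add_le _ _).trans ?_
    refine (add_le_add (norm_sub_le _ _) le_rfl).trans ?_
    rw [norm_neg, norm_mul, norm_I, one_mul]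
    nlinarith
  · intro z hz hz0
    have hz' : |z.im| ≤ 1 / 2 := le_of_lt hz
    set δ : ℝ := -(lam z).im with hδ
    have hδ0 : 0 < δ := by
      refine lt_of_lt_of_le ?_ (lam_im_neg_lower hz' hz0.le)
      have : 0 < |z.im| := abs_pos.2 hz0.ne
      positivity
    -- majorant in the upper half strip
    have hM4 : ∀ x y : ℝ, 1 / 2 ≤ x → x ≤ 2 → b ≤ y →
        ‖Gp (x + y * I) * Fint c l b z (x + y * I)‖ ≤
          C₂ * C₁ * Hn * ((1 + |y|) ^ ((n + 2 : ℕ) : ℝ) * Real.exp (-(δ * |y|))) := by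
      intro x y h1 h2 h3
      have h4 := hBp z (x + y * I) hz' (by simpa using h1) (by simpa using h2)
        (hd1 _ (by simpa using h3))
      have e1 : ((x : ℂ) + y * I).im = y := by simp
      rw [e1] at h4
      refine h4.trans (le_of_eq ?_)
      rw [hrp, abs_of_nonneg (by linarith), hδ]
      have : -(Real.pi / 2 * y) + Real.pi / 2 * y + y * (lam z).im = -(-(lam z).im * y) := by ring
      rw [this]
      ring
    have hmi : Integrable fun y : ℝ => C₂ * C₁ * Hn * ((1 + |y|) ^ ((n + 2 : ℕ) : ℝ) *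
        Real.exp (-(δ * |y|))) := (integrable_poly_exp _ hδ0).const_mul _
    have hm0 : Tendsto (fun y : ℝ => C₂ * C₁ * Hn * ((1 + |y|) ^ ((n + 2 : ℕ) : ℝ) *
        Real.exp (-(δ * |y|)))) atTop (𝓝 0) := by
      simpa using (tendsto_poly_exp ((n + 2 : ℕ) : ℝ) hδ0 tendsto_abs_atTop_atTop).const_mul
        (C₂ * C₁ * Hn)
    have hshift := integral_Ioi_shift (f := fun s => Gp s * Fint c l b z s) (a := 1 / 2) (b := 2)
      (H := b) (by norm_num) (fun s h1 h2 h3 => hdiff z s h1 h2 (hd1 s h3)) hM4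
      hmi.integrableOn hm0
    -- integrability on the line Re s = 2
    have hint2 : Integrable fun v : ℝ => Gp (2 + v * I) * Fint c l b z (2 + v * I) := by
      rw [← integrableOn_univ, ← Iic_union_Ioi (a := b)]
      refine IntegrableOn.union ?_ ?_
      · refine Integrable.mono' ((hJi.const_mul (K₁ * Hn)).integrableOn)
          (hcontR z).aestronglyMeasurable ?_
        filter_upwards [ae_restrict_mem measurableSet_Iic] with v hv
        exact hM2 z hz v hv
      · refine Integrable.mono' hmi.integrableOn (hcontR z).aestronglyMeasurable ?_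
        filter_upwards [ae_restrict_mem measurableSet_Ioi] with v hv
        have := hM4 2 v (by norm_num) le_rfl (le_of_lt hv)
        simpa using this
    have hsplit := intervalIntegral.integral_Iic_add_Ioi (b := b) hint2.integrableOn
      hint2.integrableOn
    have hintp : IntegrableOn (fun v : ℝ => Gp (1 / 2 + v * I) * Fint c l b z (1 / 2 + v * I))
        (Ioi b) := by
      refine Integrable.mono' hmi.integrableOn
        (((hcontLp z).mono Ioi_subset_Ici_self).aestronglyMeasurable measurableSet_Ioi) ?_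
      filter_upwards [ae_restrict_mem measurableSet_Ioi] with v hv
      have := hM4 (1 / 2) v le_rfl (by norm_num) (le_of_lt hv)
      simpa using this
    have hintm : IntegrableOn (fun v : ℝ => Gm (1 / 2 + v * I) * Fint c l b z (1 / 2 + v * I))
        (Ioi b) := by
      refine Integrable.mono' ((hJi.const_mul (K₁ * Hn)).integrableOn)
        (((hcontL z).mono Ioi_subset_Ici_self).aestronglyMeasurable measurableSet_Ioi) ?_
      filter_upwards [ae_restrict_mem measurableSet_Ioi] with v hv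
      exact hM3 z hz v (Ioi_subset_Ici_self hv)
    -- the left-hand side
    have hLHS : ∫ t in Ioi (0:ℝ), (riemannZeta (1 / 2 - I * (t + b)) *
        zprod l' (1 / 2 + I * (t + b)) * Hs c (I * t)) * cexp (-((1 / 2 + I * (t + b)) * lam z)) =
        ∫ v in Ioi b, (Gp (1 / 2 + v * I) * Fint c l b z (1 / 2 + v * I) +
          Gm (1 / 2 + v * I) * Fint c l b z (1 / 2 + v * I)) := by
      rw [← integral_Ioi_comp_add (fun v : ℝ => Gp (1 / 2 + v * I) *
        Fint c l b z (1 / 2 + v * I) + Gm (1 / 2 + v * I) * Fint c l b z (1 / 2 + v * I)) b]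
      refine setIntegral_congr_fun measurableSet_Ioi fun t ht => ?_
      have ht0 : (0:ℝ) < t := ht
      set s : ℂ := 1 / 2 + ((t + b : ℝ) : ℂ) * I with hs
      have e1 : (1 / 2 + I * ((t:ℂ) + b)) = s := by rw [hs]; push_cast; ring
      have e2 : (1 / 2 - I * ((t:ℂ) + b)) = 1 - s := by rw [hs]; push_cast; ring
      have e3 : s - 1 / 2 - I * b = I * t := by rw [hs]; push_cast; ring
      have hs1 : s ≠ 1 := by
        intro h
        have := congrArg Complex.re h
        simp [hs] at this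
      have h1 := zeta_one_sub_eq (s := s) (by simp [hs]) hs1
      have e4 : zprod l s = riemannZeta s * zprod l' s := by
        rw [hldef, zprod_cons]
        simp
      rw [e1, e2, h1, Fint, e3, e4]
      ring
    rw [hLHS, integral_add hintp hintm]
    have hs2 : ∫ v in Ioi b, Gp (1 / 2 + v * I) * Fint c l b z (1 / 2 + v * I) =
        (∫ v in Ioi b, Gp (2 + v * I) * Fint c l b z (2 + v * I)) -
          I * ∫ x in (1 / 2 : ℝ)..2, Gp (x + b * I) * Fint c l b z (x + b * I) := by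
      have := hshift
      push_cast at this
      linear_combination -this
    rw [hs2, ← hsplit, intervalIntegral.integral_of_le (by norm_num)]
    ring

end Pool.Agent.H26
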