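import Pool.Agent.H26.Residue

/-!
The continuous extension of the main term across coincidences, by iterated Cauchy integrals.
-/

set_option linter.unusedSectionVars false

namespace Pool.Agent.H26

open Complex Finset Filter Topology

/-- Removing finitely many removable singularities. -/
lemma exists_holo_extension {U A : Set ℂ} (hU : IsOpen U) (hA : A.Finite) {f : ℂ → ℂ}
    (hf : DifferentiableOn ℂ f (U \ A))
    (hlim : ∀ a ∈ A, a ∈ U → Tendsto (fun z => (z - a) * f z) (𝓝[≠] a) (𝓝 0)) :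
    ∃ g, DifferentiableOn ℂ g U ∧ ∀ z ∈ U \ A, g z = f z := by
  have hUA : IsOpen (U \ A) := hU.sdiff hA.isClosed
  have heq : ∀ z ∈ U \ A, limUnder (𝓝[≠] z) f = f z := by
    intro z hz
    have hc : ContinuousAt f z := (hf.differentiableAt (hUA.mem_nhds hz)).continuousAt
    exact (hc.tendsto.mono_left nhdsWithin_le_nhds).limUnder_eq
  refine ⟨fun z => limUnder (𝓝[≠] z) f, ?_, heq⟩
  intro z hz
  have hAz : IsOpen (U \ (A \ {z})) := hU.sdiff (hA.subset Set.sdiff_subset).isClosed
  have hzmem : z ∈ U \ (A \ {z}) := ⟨hz, fun h => h.2 rfl⟩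
  have hnhds : U \ (A \ {z}) ∈ 𝓝 z := hAz.mem_nhds hzmem
  have hsub : (U \ (A \ {z})) \ {z} ⊆ U \ A := by
    rintro w ⟨⟨h1, h2⟩, h3⟩
    exact ⟨h1, fun h => h2 ⟨h, h3⟩⟩
  have hd : DifferentiableOn ℂ (Function.update f z (limUnder (𝓝[≠] z) f)) (U \ (A \ {z})) := by
    refine Complex.differentiableOn_update_limUnder_of_isLittleO hnhds (hf.mono hsub) ?_
    have hne : ∀ᶠ w in 𝓝[≠] z, (w - z)⁻¹ = 0 → f w - f z = 0 := by
      filter_upwards [self_mem_nhdsWithin] with w hw h
      exact absurd h (inv_ne_zero (sub_ne_zero.2 hw))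
    rw [Asymptotics.isLittleO_iff_tendsto' hne]
    have h1 : Tendsto (fun w => (w - z) * f w) (𝓝[≠] z) (𝓝 0) := by
      by_cases hzA : z ∈ A
      · exact hlim z hzA hz
      · have hc : ContinuousAt f z := (hf.differentiableAt (hUA.mem_nhds ⟨hz, hzA⟩)).continuousAt
        have h2 : ContinuousAt (fun w => (w - z) * f w) z := by fun_prop
        have h3 := h2.tendsto
        simp only [sub_self, zero_mul] at h3
        exact h3.mono_left nhdsWithin_le_nhds
    have h2 : Tendsto (fun w : ℂ => (w - z) * f z) (𝓝[≠] z) (𝓝 0) := by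
      have h2 : Continuous (fun w => (w - z) * f z) := by fun_prop
      have h3 := h2.tendsto z
      simp only [sub_self, zero_mul] at h3
      exact h3.mono_left nhdsWithin_le_nhds
    have h3 := h1.sub h2
    rw [sub_zero] at h3
    refine h3.congr fun w => ?_
    rw [div_inv_eq_mul]
    ring
  have hda := (hd.differentiableAt hnhds)
  refine (hda.congr_of_eventuallyEq ?_).differentiableWithinAt
  filter_upwards [hnhds] with w hw
  by_cases hwz : w = z
  · subst hwz; rw [Function.update_self]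
  · rw [Function.update_of_ne hwz]
    exact heq w (hsub ⟨hw, hwz⟩)

variable {k : ℕ}

/-- The main term extends holomorphically in one coordinate if the others are distinct. -/
lemma exists_Qsum_extension (i : Fin k ⊕ Fin k) {γ : Fin k ⊕ Fin k → ℂ} {t : ℂ}
    (hq : (t, γ) ∈ good k) (hdist : ∀ a b, a ≠ i → b ≠ i → a ≠ b → γ a ≠ γ b) :
    ∃ g, DifferentiableOn ℂ g {z : ℂ | |z.im| < 1 / 8} ∧
      ∀ z : ℂ, |z.im| < 1 / 8 → (∀ j, j ≠ i → z ≠ γ j) →
        g z = Qsum (Function.update γ i z) t := by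
  have hU : IsOpen {z : ℂ | |z.im| < 1 / 8} := by
    refine isOpen_lt ?_ continuous_const
    fun_prop
  set A : Set ℂ := γ '' {j | j ≠ i} with hA
  have hAf : A.Finite := (Set.toFinite _).image _
  have hup : ∀ z : ℂ, |z.im| < 1 / 8 → Function.update γ i z ∈ tube (Fin k ⊕ Fin k) := by
    intro z hz l
    by_cases h : l = i
    · subst h; rw [Function.update_self]; exact hz
    · rw [Function.update_of_ne h]; exact hq.2 l
  have h1 : DifferentiableOn ℂ (fun z => Qsum (Function.update γ i z) t)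
      ({z : ℂ | |z.im| < 1 / 8} \ A) := by
    refine differentiableOn_Qsum_comp (hU.sdiff hAf.isClosed) hq.1 ?_
      (fun z hz => hup z hz.1) ?_
    · intro l
      by_cases h : l = i
      · subst h
        simp only [Function.update_self]
        exact differentiableOn_id
      · simp only [Function.update_of_ne h]
        exact differentiableOn_const _
    · intro z hz a b hab
      by_contra hne
      by_cases ha : a = i
      · subst ha
        have hb : b ≠ a := fun h => hne h.symm
        rw [Function.update_self, Function.update_of_ne hb] at hab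
        exact hz.2 ⟨b, hb, hab.symm⟩
      · by_cases hb : b = i
        · subst hb
          rw [Function.update_self, Function.update_of_ne ha] at hab
          exact hz.2 ⟨a, ha, hab⟩
        · rw [Function.update_of_ne ha, Function.update_of_ne hb] at hab
          exact hdist a b ha hb hne hab
  have h2 : ∀ a ∈ A, a ∈ {z : ℂ | |z.im| < 1 / 8} →
      Tendsto (fun z => (z - a) * Qsum (Function.update γ i z) t) (𝓝[≠] a) (𝓝 0) := by
    rintro a ⟨j, hj, rfl⟩ _
    exact tendsto_Qsum_zero (Ne.symm hj) hq hdist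
  obtain ⟨g, hg, hgeq⟩ := exists_holo_extension hU hAf h1 h2
  refine ⟨g, hg, fun z hz hzj => hgeq z ⟨hz, ?_⟩⟩
  rintro ⟨j, hj, hjz⟩
  exact hzj j hj hjz.symm

section operators

variable (c : Fin k ⊕ Fin k → ℂ) (r : Fin k ⊕ Fin k → ℝ)

/-- Iterated Cauchy integrals of the main term. -/
noncomputable def KL : List (Fin k ⊕ Fin k) → ℂ → (Fin k ⊕ Fin k → ℂ) → ℂ
  | [], t, γ => Qsum γ t
  | i :: L, t, γ => (2 * Real.pi * I)⁻¹ •
      ∮ w in C(c i, r i), (w - γ i)⁻¹ • KL L t (Function.update γ i w)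

/-- The domain of `KL`: discs for the coordinates in the list, circles for the others. -/
def VL (L : List (Fin k ⊕ Fin k)) : Set (Fin k ⊕ Fin k → ℂ) :=
  {γ | ∀ i, (i ∈ L → γ i ∈ Metric.ball (c i) (r i)) ∧ (i ∉ L → γ i ∈ Metric.sphere (c i) (r i))}

/-- Admissible centers and radii. -/
structure Adm : Prop where
  pos : ∀ i, 0 < r i
  strip : ∀ i z, dist z (c i) ≤ r i → |z.im| < 1 / 8
  sep : ∀ i j, i ≠ j → ∀ z w, dist z (c i) = r i → dist w (c j) = r j → z ≠ w

variable {c r}

lemma VL_tube (h : Adm c r) {L : List (Fin k ⊕ Fin k)} {γ : Fin k ⊕ Fin k → ℂ}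
    (hγ : γ ∈ VL c r L) : γ ∈ tube (Fin k ⊕ Fin k) := by
  intro i
  by_cases hi : i ∈ L
  · exact h.strip i _ (le_of_lt ((hγ i).1 hi))
  · exact h.strip i _ (le_of_eq ((hγ i).2 hi))

lemma VL_update {i : Fin k ⊕ Fin k} {L : List (Fin k ⊕ Fin k)} (hiL : i ∉ L)
    {γ : Fin k ⊕ Fin k → ℂ} (hγ : γ ∈ VL c r (i :: L)) {w : ℂ}
    (hw : w ∈ Metric.sphere (c i) (r i)) : Function.update γ i w ∈ VL c r L := by
  intro l
  by_cases hl : l = i
  · subst hl
    rw [Function.update_self]
    exact ⟨fun h => absurd h hiL, fun _ => hw⟩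
  · rw [Function.update_of_ne hl]
    refine ⟨fun h => (hγ l).1 (List.mem_cons_of_mem _ h), fun h => (hγ l).2 ?_⟩
    intro h'
    rcases List.mem_cons.1 h' with h'' | h''
    · exact hl h''
    · exact h h''

lemma VL_nil_injective (h : Adm c r) {γ : Fin k ⊕ Fin k → ℂ} (hγ : γ ∈ VL c r []) :
    Function.Injective γ := by
  intro i j hij
  by_contra hne
  exact h.sep i j hne (γ i) (γ j) ((hγ i).2 (by simp)) ((hγ j).2 (by simp)) hij

lemma KL_eq (h : Adm c r) {t : ℂ} (ht : |t.im| < 1 / 4) :
    ∀ (L : List (Fin k ⊕ Fin k)), L.Nodup → ∀ γ ∈ VL c r L, Function.Injective γ →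
      KL c r L t γ = Qsum γ t := by
  intro L
  induction L with
  | nil => intro _ γ _ _; rfl
  | cons i L ih =>
    intro hL γ hγ hinj
    have hiL : i ∉ L := (List.nodup_cons.1 hL).1
    have hLn : L.Nodup := (List.nodup_cons.1 hL).2
    have hgood : (t, γ) ∈ good k := ⟨ht, VL_tube h hγ⟩
    obtain ⟨g, hg, hgeq⟩ := exists_Qsum_extension i hgood (fun a b _ _ hab h' => hab (hinj h'))
    have hri := h.pos i
    have hball : γ i ∈ Metric.ball (c i) (r i) := (hγ i).1 (List.mem_cons_self)
    have hdc : DiffContOnCl ℂ g (Metric.ball (c i) (r i)) := by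
      refine DifferentiableOn.diffContOnCl_ball (U := {z : ℂ | |z.im| < 1 / 8}) hg ?_
      intro z hz
      exact h.strip i z hz
    have hCauchy := hdc.two_pi_i_inv_smul_circleIntegral_sub_inv_smul hball
    have hgi : g (γ i) = Qsum γ t := by
      rw [hgeq (γ i) (VL_tube h hγ i) (fun j hj hij => hj (hinj hij).symm),
        Function.update_eq_self]
    rw [KL, ← hgi, ← hCauchy]
    congr 1
    simp only [circleIntegral]
    refine intervalIntegral.integral_congr_ae ?_
    have hcount : {θ : ℝ | circleMap (c i) (r i) θ ∈ Set.range γ}.Countable :=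
      (Set.countable_range γ).preimage_circleMap (c i) hri.ne'
    have hae : ∀ᵐ θ : ℝ, circleMap (c i) (r i) θ ∉ Set.range γ :=
      MeasureTheory.measure_mono_null (fun θ hθ => not_not.1 hθ) (hcount.measure_zero _)
    filter_upwards [hae] with θ hθ _
    have hsph : circleMap (c i) (r i) θ ∈ Metric.sphere (c i) (r i) :=
      circleMap_mem_sphere _ hri.le _
    have hne : ∀ j, circleMap (c i) (r i) θ ≠ γ j := fun j hj => hθ ⟨j, hj.symm⟩
    have hinj' : Function.Injective (Function.update γ i (circleMap (c i) (r i) θ)) := by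
      intro a b hab
      by_contra hab'
      by_cases ha : a = i
      · subst ha
        rw [Function.update_self, Function.update_of_ne (Ne.symm hab')] at hab
        exact hne b hab
      · by_cases hb : b = i
        · subst hb
          rw [Function.update_self, Function.update_of_ne ha] at hab
          exact hne a hab.symm
        · rw [Function.update_of_ne ha, Function.update_of_ne hb] at hab
          exact hab' (hinj hab)
    rw [ih hLn _ (VL_update hiL hγ hsph) hinj',
      hgeq _ (h.strip i _ (le_of_eq hsph)) (fun j _ => hne j)]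

lemma continuousOn_KL (h : Adm c r) :
    ∀ (L : List (Fin k ⊕ Fin k)), L.Nodup →
      ContinuousOn (fun q : ℂ × (Fin k ⊕ Fin k → ℂ) => KL c r L q.1 q.2)
        ({t : ℂ | |t.im| < 1 / 4} ×ˢ VL c r L) := by
  intro L
  induction L with
  | nil =>
    rintro _ ⟨t, γ⟩ ⟨ht, hγ⟩
    exact (continuousAt_Qsum (q := (t, γ)) ⟨ht, VL_tube h hγ⟩
      (VL_nil_injective h hγ)).continuousWithinAt
  | cons i L ih =>
    intro hL
    have hiL : i ∉ L := (List.nodup_cons.1 hL).1
    have hLn : L.Nodup := (List.nodup_cons.1 hL).2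
    have ih' := ih hLn
    rw [continuousOn_iff_continuous_domRestrict]
    unfold Set.domRestrict
    simp only [KL, circleIntegral, smul_eq_mul]
    refine continuous_const.mul ?_
    apply intervalIntegral.continuous_parametric_intervalIntegral_of_continuous'
    have hsph : ∀ θ : ℝ, circleMap (c i) (r i) θ ∈ Metric.sphere (c i) (r i) :=
      fun θ => circleMap_mem_sphere _ (h.pos i).le _
    have hc1 : Continuous fun p : ↥({t : ℂ | |t.im| < 1 / 4} ×ˢ VL c r (i :: L)) × ℝ =>
        circleMap (c i) (r i) p.2 := (continuous_circleMap _ _).comp continuous_snd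
    have hc2 : Continuous fun p : ↥({t : ℂ | |t.im| < 1 / 4} ×ˢ VL c r (i :: L)) × ℝ =>
        (p.1 : ℂ × (Fin k ⊕ Fin k → ℂ)) := continuous_subtype_val.comp continuous_fst
    have hc3 : Continuous fun p : ↥({t : ℂ | |t.im| < 1 / 4} ×ˢ VL c r (i :: L)) × ℝ =>
        (((p.1 : ℂ × (Fin k ⊕ Fin k → ℂ)).1, Function.update
          (p.1 : ℂ × (Fin k ⊕ Fin k → ℂ)).2 i (circleMap (c i) (r i) p.2)) :
            ℂ × (Fin k ⊕ Fin k → ℂ)) :=
      (continuous_fst.comp hc2).prodMk ((continuous_snd.comp hc2).update i hc1)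
    have hc4 := ih'.comp_continuous hc3 (fun p => ⟨p.1.2.1, VL_update hiL p.1.2.2 (hsph _)⟩)
    have hne : ∀ p : ↥({t : ℂ | |t.im| < 1 / 4} ×ˢ VL c r (i :: L)) × ℝ,
        circleMap (c i) (r i) p.2 - (p.1 : ℂ × (Fin k ⊕ Fin k → ℂ)).2 i ≠ 0 := by
      intro p hp
      have h1 : (p.1 : ℂ × (Fin k ⊕ Fin k → ℂ)).2 i ∈ Metric.ball (c i) (r i) :=
        (p.1.2.2 i).1 List.mem_cons_self
      rw [← sub_eq_zero.1 hp] at h1
      have h2 := hsph p.2
      rw [Metric.mem_ball] at h1
      rw [Metric.mem_sphere] at h2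
      linarith
    have hc5 : Continuous fun p : ↥({t : ℂ | |t.im| < 1 / 4} ×ˢ VL c r (i :: L)) × ℝ =>
        deriv (circleMap (c i) (r i)) p.2 := by
      simp only [deriv_circleMap]
      exact ((continuous_circleMap _ _).comp continuous_snd).mul continuous_const
    refine hc5.mul (Continuous.mul ?_ hc4)
    exact (hc1.sub ((continuous_apply i).comp (continuous_snd.comp hc2))).inv₀ hne

lemma norm_KL_le (h : Adm c r) {t : ℂ} {M : ℝ} (hM : ∀ γ ∈ VL c r [], ‖Qsum γ t‖ ≤ M) :
    ∀ (L : List (Fin k ⊕ Fin k)), L.Nodup → ∀ γ ∈ VL c r L,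
      (∀ i ∈ L, dist (γ i) (c i) ≤ r i / 2) → ‖KL c r L t γ‖ ≤ 2 ^ L.length * M := by
  intro L
  induction L with
  | nil => intro _ γ hγ _; simpa [KL] using hM γ hγ
  | cons i L ih =>
    intro hL γ hγ hγr
    have hiL : i ∉ L := (List.nodup_cons.1 hL).1
    have hLn : L.Nodup := (List.nodup_cons.1 hL).2
    have hri := h.pos i
    rw [KL]
    have hb : ∀ z ∈ Metric.sphere (c i) (r i),
        ‖(z - γ i)⁻¹ • KL c r L t (Function.update γ i z)‖ ≤ (2 / r i) * (2 ^ L.length * M) := by
      intro z hz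
      have h1 : ‖KL c r L t (Function.update γ i z)‖ ≤ 2 ^ L.length * M := by
        refine ih hLn _ (VL_update hiL hγ hz) fun l hl => ?_
        have hli : l ≠ i := fun h' => hiL (h' ▸ hl)
        rw [Function.update_of_ne hli]
        exact hγr l (List.mem_cons_of_mem _ hl)
      have h2 : r i / 2 ≤ ‖z - γ i‖ := by
        have h3 := hγr i List.mem_cons_self
        have h4 : dist z (c i) = r i := hz
        have h5 := dist_triangle z (γ i) (c i)
        rw [dist_eq_norm z (γ i)] at h5
        linarith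
      rw [norm_smul, norm_inv]
      have h6 : ‖z - γ i‖⁻¹ ≤ 2 / r i := by
        rw [show 2 / r i = (r i / 2)⁻¹ by rw [inv_div]]
        exact inv_anti₀ (by positivity) h2
      exact mul_le_mul h6 h1 (norm_nonneg _) (by positivity)
    have := circleIntegral.norm_two_pi_i_inv_smul_integral_le_of_norm_le_const hri.le hb
    refine this.trans (le_of_eq ?_)
    rw [List.length_cons, pow_succ]
    field_simp

end operators

/-- The domain of the extension: a polydisc. -/
def polyD (c : Fin k ⊕ Fin k → ℂ) (r : Fin k ⊕ Fin k → ℝ) : Set (Fin k ⊕ Fin k → ℂ) :=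
  {γ | ∀ i, γ i ∈ Metric.ball (c i) (r i)}

/-- The extension of the main term to a polydisc. -/
noncomputable def Qext (c : Fin k ⊕ Fin k → ℂ) (r : Fin k ⊕ Fin k → ℝ) (t : ℂ)
    (γ : Fin k ⊕ Fin k → ℂ) : ℂ :=
  KL c r (univ : Finset (Fin k ⊕ Fin k)).toList t γ

section ext

variable {c : Fin k ⊕ Fin k → ℂ} {r : Fin k ⊕ Fin k → ℝ}

lemma VL_univ : VL c r (univ : Finset (Fin k ⊕ Fin k)).toList = polyD c r := by
  ext γ
  constructor
  · intro hγ i
    exact (hγ i).1 (Finset.mem_toList.2 (Finset.mem_univ i))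
  · intro hγ i
    exact ⟨fun _ => hγ i, fun h => absurd (Finset.mem_toList.2 (Finset.mem_univ i)) h⟩

lemma isOpen_polyD : IsOpen (polyD c r) := by
  have : polyD c r = ⋂ i, (fun γ : Fin k ⊕ Fin k → ℂ => γ i) ⁻¹' Metric.ball (c i) (r i) := by
    ext γ
    simp only [polyD, Set.mem_iInter, Set.mem_preimage]
    rfl
  rw [this]
  exact isOpen_iInter_of_finite fun i => Metric.isOpen_ball.preimage (continuous_apply i)

lemma polyD_tube (h : Adm c r) {γ : Fin k ⊕ Fin k → ℂ} (hγ : γ ∈ polyD c r) :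
    γ ∈ tube (Fin k ⊕ Fin k) := fun i => h.strip i _ (le_of_lt (hγ i))

lemma Qext_eq (h : Adm c r) {t : ℂ} (ht : |t.im| < 1 / 4) {γ : Fin k ⊕ Fin k → ℂ}
    (hγ : γ ∈ polyD c r) (hinj : Function.Injective γ) : Qext c r t γ = Qsum γ t :=
  KL_eq h ht _ (Finset.nodup_toList _) γ (by rw [VL_univ]; exact hγ) hinj

lemma continuousOn_Qext (h : Adm c r) :
    ContinuousOn (fun q : ℂ × (Fin k ⊕ Fin k → ℂ) => Qext c r q.1 q.2)
      ({t : ℂ | |t.im| < 1 / 4} ×ˢ polyD c r) := by
  have := continuousOn_KL h (univ : Finset (Fin k ⊕ Fin k)).toList (Finset.nodup_toList _)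
  rw [VL_univ] at this
  exact this

lemma norm_Qext_le (h : Adm c r) {t : ℂ} {M : ℝ} (hM : ∀ γ ∈ VL c r [], ‖Qsum γ t‖ ≤ M)
    {γ : Fin k ⊕ Fin k → ℂ} (hγ : ∀ i, dist (γ i) (c i) ≤ r i / 2) :
    ‖Qext c r t γ‖ ≤ 2 ^ (2 * k) * M := by
  have hmem : γ ∈ polyD c r := fun i => by
    have h1 := hγ i
    have h2 := h.pos i
    rw [Metric.mem_ball]
    linarith
  have := norm_KL_le h hM (univ : Finset (Fin k ⊕ Fin k)).toList (Finset.nodup_toList _) γ
    (by rw [VL_univ]; exact hmem) (fun i _ => hγ i)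
  have hcard : (univ : Finset (Fin k ⊕ Fin k)).toList.length = 2 * k := by
    rw [Finset.length_toList, Finset.card_univ, Fintype.card_sum, Fintype.card_fin]
    ring
  rw [hcard] at this
  exact this

/-- Along a complex line in a direction with distinct coordinates the extension is holomorphic. -/
lemma differentiableOn_Qext_line (h : Adm c r) {t : ℂ} (ht : |t.im| < 1 / 4)
    {γ v : Fin k ⊕ Fin k → ℂ} (hv : Function.Injective v) {U : Set ℂ} (hU : IsOpen U)
    (hmem : ∀ x ∈ U, (fun i => γ i + x * v i) ∈ polyD c r) :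
    DifferentiableOn ℂ (fun x => Qext c r t (fun i => γ i + x * v i)) U := by
  set bad : Set ℂ := ⋃ p : (Fin k ⊕ Fin k) × (Fin k ⊕ Fin k), {(γ p.2 - γ p.1) / (v p.1 - v p.2)}
    with hbad
  have hbadf : bad.Finite := Set.finite_iUnion fun _ => Set.finite_singleton _
  have hinj : ∀ x ∉ bad, Function.Injective (fun i => γ i + x * v i) := by
    intro x hx a b hab
    by_contra hne
    apply hx
    rw [hbad, Set.mem_iUnion]
    refine ⟨(a, b), ?_⟩
    have hvab : v a - v b ≠ 0 := sub_ne_zero.2 fun h' => hne (hv h')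
    rw [Set.mem_singleton_iff, eq_div_iff hvab]
    simp only at hab ⊢
    linear_combination hab
  have hcont : ContinuousOn (fun x => Qext c r t (fun i => γ i + x * v i)) U := by
    have h1 : Continuous fun x : ℂ => ((t, fun i => γ i + x * v i) :
        ℂ × (Fin k ⊕ Fin k → ℂ)) := by fun_prop
    exact (continuousOn_Qext h).comp h1.continuousOn fun x hx => ⟨ht, hmem x hx⟩
  have hoff : DifferentiableOn ℂ (fun x => Qext c r t (fun i => γ i + x * v i)) (U \ bad) := by
    have h1 : DifferentiableOn ℂ (fun x => Qsum (fun i => γ i + x * v i) t) (U \ bad) := by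
      refine differentiableOn_Qsum_comp (hU.sdiff hbadf.isClosed) ht ?_
        (fun x hx => polyD_tube h (hmem x hx.1)) (fun x hx => hinj x hx.2)
      intro i
      fun_prop
    refine h1.congr fun x hx => ?_
    exact Qext_eq h ht (hmem x hx.1) (hinj x hx.2)
  intro z hz
  have hAz : IsOpen (U \ (bad \ {z})) := hU.sdiff (hbadf.subset Set.sdiff_subset).isClosed
  have hnhds : U \ (bad \ {z}) ∈ 𝓝 z := hAz.mem_nhds ⟨hz, fun h => h.2 rfl⟩
  have hsub : (U \ (bad \ {z})) \ {z} ⊆ U \ bad := by
    rintro w ⟨⟨h1, h2⟩, h3⟩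
    exact ⟨h1, fun h => h2 ⟨h, h3⟩⟩
  have := (Complex.differentiableOn_compl_singleton_and_continuousAt_iff hnhds).1
    ⟨hoff.mono hsub, hcont.continuousAt (hU.mem_nhds hz)⟩
  exact (this.differentiableAt hnhds).differentiableWithinAt

end ext

attribute [irreducible] Qext

end Pool.Agent.H26
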