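import Mathlib

/-!
Plancherel's formula for functions in `L¹ ∩ L²`.
-/

namespace Pool.Agent.H26

open MeasureTheory SchwartzMap FourierTransform Complex
open scoped ENNReal ContDiff

lemma coeFn_fourier_toLp_eq {f : ℝ → ℂ} (h1 : Integrable f) (h2 : MemLp f 2) :
    ((𝓕 (h2.toLp f) : Lp ℂ 2 (volume : Measure ℝ)) : ℝ → ℂ) =ᵐ[volume] 𝓕 f := by
  set F : Lp ℂ 2 (volume : Measure ℝ) := h2.toLp f with hF
  set G : Lp ℂ 2 (volume : Measure ℝ) := 𝓕 F with hG
  have hcont : Continuous (𝓕 f) :=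
    VectorFourier.fourierIntegral_continuous Real.continuous_fourierChar
      (by exact continuous_inner) h1
  have hloc : LocallyIntegrable (fun x => (G : ℝ → ℂ) x - 𝓕 f x) volume := by
    refine LocallyIntegrable.sub ?_ hcont.locallyIntegrable
    exact (Lp.memLp G).locallyIntegrable (by norm_num)
  have h0 : ∀ᵐ x, (G : ℝ → ℂ) x - 𝓕 f x = 0 := by
    apply ae_eq_zero_of_integral_contDiff_smul_eq_zero hloc
    intro g g_smooth g_cpt
    have hg₁ : HasCompactSupport (Complex.ofRealCLM ∘ g) := g_cpt.comp_left rfl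
    have hg₂ : ContDiff ℝ ∞ (Complex.ofRealCLM ∘ g) := by fun_prop
    set gS : 𝓢(ℝ, ℂ) := hg₁.toSchwartzMap hg₂ with hgS
    have e1 : ∫ x, gS x • (G : ℝ → ℂ) x = ∫ x, (𝓕 gS) x • (F : ℝ → ℂ) x := by
      have := Lp.fourier_toTemperedDistribution_eq (E := ℝ) (F := ℂ) F
      have h := congrArg (fun D : 𝓢'(ℝ, ℂ) => D gS) this
      simp only [TemperedDistribution.fourier_apply] at h
      rw [Lp.toTemperedDistribution_apply, Lp.toTemperedDistribution_apply] at h
      exact h.symm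
    have e2 : ∫ x, (𝓕 gS) x • (F : ℝ → ℂ) x = ∫ x, (𝓕 gS) x • f x := by
      refine integral_congr_ae ?_
      filter_upwards [h2.coeFn_toLp] with x hx
      rw [hx]
    have e3 : ∫ x, (𝓕 gS) x • f x = ∫ x, gS x • 𝓕 f x := by
      have := VectorFourier.integral_fourierIntegral_smul_eq_flip (L := innerₗ ℝ)
        Real.continuous_fourierChar continuous_inner (gS.integrable (μ := volume)) h1
      simpa [SchwartzMap.fourier_coe] using! this
    have e4 : ∀ x, gS x = (g x : ℂ) := fun x => rfl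
    have hi1 : Integrable (fun x => g x • (G : ℝ → ℂ) x) := by
      refine ((Lp.memLp G).locallyIntegrable (by norm_num)).integrable_smul_left_of_hasCompactSupport
        g_smooth.continuous g_cpt
    have hi2 : Integrable (fun x => g x • 𝓕 f x) :=
      (hcont.locallyIntegrable).integrable_smul_left_of_hasCompactSupport
        g_smooth.continuous g_cpt
    have e5 : ∫ x, g x • ((G : ℝ → ℂ) x - 𝓕 f x) =
        (∫ x, g x • (G : ℝ → ℂ) x) - ∫ x, g x • 𝓕 f x := by
      rw [← integral_sub hi1 hi2]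
      congr 1
      funext x
      rw [smul_sub]
    rw [e5, sub_eq_zero]
    have e6 := e1.trans (e2.trans e3)
    simpa [e4] using e6
  filter_upwards [h0] with x hx
  exact sub_eq_zero.1 hx

lemma memLp_fourier {f : ℝ → ℂ} (h1 : Integrable f) (h2 : MemLp f 2) : MemLp (𝓕 f) 2 :=
  (memLp_congr_ae (coeFn_fourier_toLp_eq h1 h2)).1 (Lp.memLp _)

/-- Plancherel's formula for integrable, square integrable functions. -/
theorem lintegral_norm_sq_fourier {f : ℝ → ℂ} (h1 : Integrable f) (h2 : MemLp f 2) :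
    ∫⁻ x, ‖𝓕 f x‖ₑ ^ 2 = ∫⁻ x, ‖f x‖ₑ ^ 2 := by
  have h := Lp.norm_fourier_eq (h2.toLp f)
  have e1 : ‖h2.toLp f‖ = ‖(𝓕 (h2.toLp f) : Lp ℂ 2 (volume : Measure ℝ))‖ := h.symm
  rw [Lp.norm_def, Lp.norm_def] at e1
  have e2 : eLpNorm (h2.toLp f) 2 volume =
      eLpNorm (𝓕 (h2.toLp f) : Lp ℂ 2 (volume : Measure ℝ)) 2 volume := by
    rwa [ENNReal.toReal_eq_toReal_iff' (Lp.eLpNorm_ne_top _) (Lp.eLpNorm_ne_top _)] at e1
  rw [eLpNorm_congr_ae (coeFn_fourier_toLp_eq h1 h2), eLpNorm_congr_ae h2.coeFn_toLp] at e2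
  rw [eLpNorm_eq_lintegral_rpow_enorm_toReal (by norm_num) (by norm_num),
    eLpNorm_eq_lintegral_rpow_enorm_toReal (by norm_num) (by norm_num)] at e2
  have e3 := congrArg (fun x : ℝ≥0∞ => x ^ (2:ℝ)) e2
  simp only [ENNReal.toReal_ofNat, one_div, ENNReal.rpow_inv_rpow (two_ne_zero : (2:ℝ) ≠ 0)] at e3
  simpa using e3.symm

theorem integrable_norm_sq_fourier {f : ℝ → ℂ} (h1 : Integrable f) (h2 : MemLp f 2) :
    Integrable (fun x => ‖𝓕 f x‖ ^ 2) :=
  (memLp_two_iff_integrable_sq_norm (memLp_fourier h1 h2).1).1 (memLp_fourier h1 h2)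

theorem integral_norm_sq_fourier {f : ℝ → ℂ} (h1 : Integrable f) (h2 : MemLp f 2) :
    ∫ x, ‖𝓕 f x‖ ^ 2 = ∫ x, ‖f x‖ ^ 2 := by
  have hm1 : AEStronglyMeasurable (𝓕 f) volume := (memLp_fourier h1 h2).1
  have hm2 : AEStronglyMeasurable (fun x => ‖f x‖ ^ 2) volume := h2.1.norm.pow 2
  rw [integral_eq_lintegral_of_nonneg_ae (Filter.Eventually.of_forall fun x => by positivity)
    (by fun_prop), integral_eq_lintegral_of_nonneg_ae (Filter.Eventually.of_forall fun x => by positivity)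
    hm2]
  congr 1
  have e : ∀ z : ℂ, ENNReal.ofReal (‖z‖ ^ 2) = ‖z‖ₑ ^ 2 := fun z => by
    rw [ENNReal.ofReal_pow (norm_nonneg _), ofReal_norm]
  simp only [e]
  exact lintegral_norm_sq_fourier h1 h2

end Pool.Agent.H26
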