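import Pool.Agent.H26.HEreg
import Pool.Agent.H26.Plancherel

/-!
Mean squares of a Laplace transform along a curve.
-/

namespace Pool.Agent.H26

open Complex MeasureTheory Set Filter Topology FourierTransform

/-- the transform, for `Im w < 0` -/
noncomputable def GG (f : ℝ → ℂ) (w : ℂ) : ℂ := ∫ t in Ioi (0:ℝ), f t * cexp (-(I * w * t))

lemma norm_GG_kernel (u v t : ℝ) : ‖cexp (-(I * ((u : ℂ) - v * I) * t))‖ = Real.exp (-(v * t)) := by
  rw [Complex.norm_exp]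
  congr 1
  simp

lemma continuous_GG_kernel (w : ℂ) : Continuous fun t : ℝ => cexp (-(I * w * t)) := by fun_prop

lemma integrableOn_GG {f : ℝ → ℂ} (hf : AEStronglyMeasurable f (volume.restrict (Ioi 0))) {M q : ℝ}
    (hM : ∀ t : ℝ, 0 < t → ‖f t‖ ≤ M * (1 + t) ^ q) (u : ℝ) {v : ℝ} (hv : 0 < v) :
    IntegrableOn (fun t : ℝ => f t * cexp (-(I * ((u : ℂ) - v * I) * t))) (Ioi 0) := by
  refine Integrable.mono' ((integrableOn_poly_exp (q := q) hv).const_mul M)
    (hf.mul (continuous_GG_kernel _).aestronglyMeasurable) ?_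
  filter_upwards [ae_restrict_mem measurableSet_Ioi] with t ht
  have ht' : (0:ℝ) < t := ht
  rw [norm_mul, ← mul_assoc, norm_GG_kernel]
  exact mul_le_mul_of_nonneg_right (hM t ht') (Real.exp_pos _).le

/-- the function whose Fourier transform is `GG` -/
noncomputable def gg (f : ℝ → ℂ) (v : ℝ) : ℝ → ℂ :=
  (Ioi (0:ℝ)).indicator fun t => f t * cexp (-(v * t))

lemma norm_cexp_neg_mul (v t : ℝ) : ‖cexp (-((v : ℂ) * t))‖ = Real.exp (-(v * t)) := by
  rw [Complex.norm_exp]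
  congr 1
  simp

/-- Plancherel -/
theorem exists_GG_sq_le {q : ℝ} (hq : 0 ≤ q) : ∃ C : ℝ, 0 < C ∧ ∀ {f : ℝ → ℂ},
    AEStronglyMeasurable f (volume.restrict (Ioi 0)) → ∀ {M : ℝ}, 0 ≤ M →
    (∀ t : ℝ, 0 < t → ‖f t‖ ≤ M * (1 + t) ^ q) → ∀ v : ℝ, 0 < v → v ≤ 1 →
    Integrable (fun u : ℝ => ‖GG f (u - v * I)‖ ^ 2) ∧
    ∫ u : ℝ, ‖GG f (u - v * I)‖ ^ 2 ≤ C * M ^ 2 * v ^ (-(2 * q + 1)) := by
  obtain ⟨C, hC0, hC⟩ := integral_poly_exp_le (q := 2 * q) (by positivity)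
  refine ⟨2 * Real.pi * C, by positivity, ?_⟩
  intro f hf M hM0 hM v hv hv1
  have hpi := Real.pi_pos
  have h1 : Integrable (gg f v) := by
    unfold gg
    rw [integrable_indicator_iff measurableSet_Ioi]
    have h := integrableOn_GG hf hM 0 hv
    refine h.congr_fun (fun t _ => ?_) measurableSet_Ioi
    simp only
    congr 2
    push_cast
    linear_combination ((v:ℂ) * t) * I_mul_I
  have hb : ∀ t : ℝ, ‖gg f v t‖ ^ 2 ≤ M ^ 2 * ((1 + |t|) ^ (2 * q) * Real.exp (-(2 * v * |t|))) := by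
    intro t
    by_cases ht : t ∈ Ioi (0:ℝ)
    · have ht' : (0:ℝ) < t := ht
      simp only [gg, indicator_of_mem ht]
      rw [norm_mul, norm_cexp_neg_mul, abs_of_pos ht', mul_pow]
      have e1 : (1 + t) ^ (2 * q) = ((1 + t) ^ q) ^ 2 := by
        rw [← Real.rpow_natCast, ← Real.rpow_mul (by positivity)]
        congr 1
        push_cast
        ring
      have e2 : Real.exp (-(2 * v * t)) = Real.exp (-(v * t)) ^ 2 := by
        rw [← Real.exp_nat_mul]
        congr 1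
        push_cast
        ring
      rw [e1, e2, ← mul_assoc, ← mul_pow M]
      have := hM t ht'
      gcongr
    · simp only [gg, indicator_of_notMem ht, norm_zero]
      rw [zero_pow two_ne_zero]
      positivity
  have hbi := (integrable_poly_exp (2 * q) (show 0 < 2 * v by positivity)).const_mul (M ^ 2)
  have h2 : MemLp (gg f v) 2 := by
    rw [memLp_two_iff_integrable_sq_norm h1.aestronglyMeasurable]
    refine Integrable.mono' hbi (h1.aestronglyMeasurable.norm.pow 2) (Eventually.of_forall fun t => ?_)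
    rw [Real.norm_of_nonneg (by positivity)]
    exact hb t
  have key : ∀ u : ℝ, ‖GG f (u - v * I)‖ ^ 2 = ‖𝓕 (gg f v) ((2 * Real.pi)⁻¹ * u)‖ ^ 2 := by
    intro u
    congr 2
    rw [Real.fourier_real_eq_integral_exp_smul]
    unfold GG gg
    rw [← integral_indicator measurableSet_Ioi]
    refine integral_congr_ae (Eventually.of_forall fun t => ?_)
    simp only [smul_eq_mul]
    by_cases ht : t ∈ Ioi (0:ℝ)
    · simp only [indicator_of_mem ht]
      have e3 : ((-2 * Real.pi * t * ((2 * Real.pi)⁻¹ * u) : ℝ) : ℂ) = -(t * u) := by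
        have : (-2 * Real.pi * t * ((2 * Real.pi)⁻¹ * u) : ℝ) = -(t * u) := by
          field_simp
        rw [this]
        push_cast
        ring
      have e4 : cexp (-(I * ((u : ℂ) - v * I) * t)) = cexp (-(t * u) * I) * cexp (-(v * t)) := by
        rw [← Complex.exp_add]
        congr 1
        linear_combination ((v:ℂ) * t) * I_mul_I
      rw [e3, e4]
      ring
    · simp only [indicator_of_notMem ht, mul_zero]
  simp only [key]
  have hP := integrable_norm_sq_fourier h1 h2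
  refine ⟨hP.comp_mul_left' (by positivity), ?_⟩
  have h3 := Measure.integral_comp_mul_left (fun ξ : ℝ => ‖𝓕 (gg f v) ξ‖ ^ 2)
    (2 * Real.pi)⁻¹
  rw [h3, integral_norm_sq_fourier h1 h2, inv_inv, abs_of_pos (by positivity), smul_eq_mul]
  have h4 : ∫ t : ℝ, ‖gg f v t‖ ^ 2 ≤ M ^ 2 * (C * v ^ (-(2 * q + 1))) := by
    calc ∫ t : ℝ, ‖gg f v t‖ ^ 2 ≤
        ∫ t : ℝ, M ^ 2 * ((1 + |t|) ^ (2 * q) * Real.exp (-(2 * v * |t|))) :=
          integral_mono_of_nonneg (Eventually.of_forall fun t => by positivity) hbi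
            (Eventually.of_forall hb)
      _ = M ^ 2 * ∫ t : ℝ, (1 + |t|) ^ (2 * q) * Real.exp (-(2 * v * |t|)) :=
          integral_const_mul _ _
      _ ≤ _ := by
          gcongr
          exact hC v hv hv1
  calc _ ≤ 2 * Real.pi * (M ^ 2 * (C * v ^ (-(2 * q + 1)))) := by gcongr
    _ = _ := by ring

lemma norm_mul_t_le {f : ℝ → ℂ} {M q : ℝ} (hM : ∀ t : ℝ, 0 < t → ‖f t‖ ≤ M * (1 + t) ^ q) :
    ∀ t : ℝ, 0 < t → ‖(t : ℂ) * f t‖ ≤ M * (1 + t) ^ (q + 1) := by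
  intro t ht
  rw [norm_mul, Complex.norm_real, Real.norm_eq_abs, abs_of_pos ht, Real.rpow_add (by linarith),
    Real.rpow_one, ← mul_assoc, mul_comm]
  have h1 := hM t ht
  have h0 : 0 ≤ M * (1 + t) ^ q := (norm_nonneg _).trans h1
  exact mul_le_mul h1 (by linarith) ht.le h0

/-- the derivative in the vertical direction -/
lemma hasDerivAt_GG {f : ℝ → ℂ} (hf : AEStronglyMeasurable f (volume.restrict (Ioi 0))) {M q : ℝ}
    (hM : ∀ t : ℝ, 0 < t → ‖f t‖ ≤ M * (1 + t) ^ q) (u : ℝ) {v : ℝ} (hv : 0 < v) :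
    HasDerivAt (fun v : ℝ => GG f (u - v * I)) (-GG (fun t => t * f t) (u - v * I)) v := by
  have hs : Ioi (v / 2) ∈ 𝓝 v := Ioi_mem_nhds (by linarith)
  have hM1 := norm_mul_t_le hM
  have h := hasDerivAt_integral_of_dominated_loc_of_deriv_le (𝕜 := ℝ)
    (μ := volume.restrict (Ioi (0:ℝ))) (x₀ := v) (s := Ioi (v / 2))
    (F := fun (v : ℝ) (t : ℝ) => f t * cexp (-(I * ((u : ℂ) - v * I) * t)))
    (F' := fun (v : ℝ) (t : ℝ) => -((t * f t) * cexp (-(I * ((u : ℂ) - v * I) * t))))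
    (bound := fun t : ℝ => M * ((1 + t) ^ (q + 1) * Real.exp (-((v / 2) * t)))) hs
    (Eventually.of_forall fun v => hf.mul (continuous_GG_kernel _).aestronglyMeasurable)
    (integrableOn_GG hf hM u hv) ?_ ?_ ?_ ?_
  · have h2 := h.2
    have e : ∫ t in Ioi (0:ℝ), -((t * f t) * cexp (-(I * ((u : ℂ) - v * I) * t))) =
        -GG (fun t => t * f t) (u - v * I) := by
      unfold GG
      rw [integral_neg]
    rw [e] at h2
    exact h2
  · exact ((Complex.continuous_ofReal.aestronglyMeasurable.mul hf).mul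
      (continuous_GG_kernel _).aestronglyMeasurable).neg
  · filter_upwards [ae_restrict_mem measurableSet_Ioi] with t ht v' hv'
    have ht' : (0:ℝ) < t := ht
    have hv'' : v / 2 < v' := hv'
    rw [norm_neg, norm_mul, norm_GG_kernel, ← mul_assoc]
    refine mul_le_mul (hM1 t ht') (Real.exp_le_exp.2 ?_) (Real.exp_pos _).le
      ((norm_nonneg _).trans (hM1 t ht'))
    nlinarith
  · exact (integrableOn_poly_exp (q := q + 1) (show 0 < v / 2 by linarith)).const_mul M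
  · refine Eventually.of_forall fun t v' _ => ?_
    have h1 : HasDerivAt (fun v : ℝ => (v : ℂ)) 1 v' := Complex.ofRealCLM.hasDerivAt
    have h2 : HasDerivAt (fun v : ℝ => -(I * ((u : ℂ) - v * I) * t)) (-t : ℂ) v' := by
      have h3 := ((((h1.mul_const I).const_sub (u : ℂ)).const_mul I).mul_const (t : ℂ)).neg
      have e : -(I * -(1 * I) * (t : ℂ)) = -t := by linear_combination (t : ℂ) * I_mul_I
      rw [e] at h3
      exact h3
    have h4 := h2.cexp.const_mul (f t)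
    have e2 : f t * (cexp (-(I * ((u : ℂ) - v' * I) * t)) * -t) =
        -((t * f t) * cexp (-(I * ((u : ℂ) - v' * I) * t))) := by ring
    rw [e2] at h4
    exact h4

lemma differentiableOn_GG {f : ℝ → ℂ} (hf : AEStronglyMeasurable f (volume.restrict (Ioi 0)))
    {M q : ℝ} (hM : ∀ t : ℝ, 0 < t → ‖f t‖ ≤ M * (1 + t) ^ q) :
    DifferentiableOn ℂ (GG f) {w | w.im < 0} := by
  unfold GG
  refine differentiableOn_integral_of_locally_majorant
    (Φ := fun w (t : ℝ) => f t * cexp (-(I * w * t))) (isOpen_lt continuous_im continuous_const)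
    (fun w _ => hf.mul (continuous_GG_kernel w).aestronglyMeasurable)
    (Eventually.of_forall fun t => by fun_prop) (fun w₀ hw₀ => ?_)
  have h0 : w₀.im < 0 := hw₀
  refine ⟨{w | w.im < w₀.im / 2}, (isOpen_lt continuous_im continuous_const).mem_nhds
    (show w₀.im < w₀.im / 2 by linarith),
    fun t => M * ((1 + t) ^ q * Real.exp (-((-w₀.im / 2) * t))),
    (integrableOn_poly_exp (q := q) (show 0 < -w₀.im / 2 by linarith)).const_mul M, ?_⟩
  filter_upwards [ae_restrict_mem measurableSet_Ioi] with t ht w hw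
  have ht' : (0:ℝ) < t := ht
  have hw' : w.im < w₀.im / 2 := hw
  have e : ‖cexp (-(I * w * t))‖ = Real.exp (w.im * t) := by
    rw [Complex.norm_exp]
    congr 1
    simp
  rw [norm_mul, e, ← mul_assoc]
  refine mul_le_mul (hM t ht') (Real.exp_le_exp.2 ?_) (Real.exp_pos _).le
    ((norm_nonneg _).trans (hM t ht'))
  nlinarith

attribute [irreducible] GG

lemma sq_integral_le {a b : ℝ} (hab : a < b) {g : ℝ → ℝ} (hg : Continuous g) :
    (∫ x in a..b, g x) ^ 2 ≤ (b - a) * ∫ x in a..b, g x ^ 2 := by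
  set c : ℝ := (∫ x in a..b, g x) / (b - a) with hc
  have hba : 0 < b - a := by linarith
  have h1 : 0 ≤ ∫ x in a..b, (g x - c) ^ 2 :=
    intervalIntegral.integral_nonneg hab.le fun x _ => by positivity
  have i1 : IntervalIntegrable (fun x => g x ^ 2) volume a b := (hg.pow 2).intervalIntegrable _ _
  have i2 : IntervalIntegrable (fun x => 2 * c * g x) volume a b :=
    (continuous_const.mul hg).intervalIntegrable _ _
  have i3 : IntervalIntegrable (fun _ : ℝ => c ^ 2) volume a b :=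
    continuous_const.intervalIntegrable _ _
  have h2 : ∫ x in a..b, (g x - c) ^ 2 =
      (∫ x in a..b, g x ^ 2) - 2 * c * (∫ x in a..b, g x) + (b - a) * c ^ 2 := by
    have e : ∀ x, (g x - c) ^ 2 = (g x ^ 2 - 2 * c * g x) + c ^ 2 := fun x => by ring
    simp only [e]
    rw [intervalIntegral.integral_add (i1.sub i2) i3, intervalIntegral.integral_sub i1 i2,
      intervalIntegral.integral_const_mul, intervalIntegral.integral_const, smul_eq_mul]
  have h3 : (∫ x in a..b, g x) = (b - a) * c := by rw [hc]; field_simp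
  rw [h2, h3] at h1
  rw [h3]
  nlinarith

/-- a majorant for the transform in a horizontal strip -/
noncomputable def HH (f : ℝ → ℂ) (v₀ v₁ u : ℝ) : ℝ :=
  2 * ‖GG f (u - v₀ * I)‖ ^ 2 + 2 * (v₁ - v₀) *
    ∫ v in v₀..v₁, ‖GG (fun t => t * f t) (u - (max v₀ v : ℝ) * I)‖ ^ 2

section

variable {f : ℝ → ℂ} {M q v₀ v₁ : ℝ}

lemma continuous_GG_line (hf : AEStronglyMeasurable f (volume.restrict (Ioi 0)))
    (hM : ∀ t : ℝ, 0 < t → ‖f t‖ ≤ M * (1 + t) ^ q) (hv₀ : 0 < v₀) :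
    Continuous fun p : ℝ × ℝ => GG f (p.1 - (max v₀ p.2 : ℝ) * I) := by
  have h1 := (differentiableOn_GG hf hM).continuousOn
  have h2 : Continuous fun p : ℝ × ℝ => ((p.1 : ℂ) - (max v₀ p.2 : ℝ) * I) := by fun_prop
  refine h1.comp_continuous h2 fun p => ?_
  show Complex.im _ < 0
  have : ((p.1 : ℂ) - (max v₀ p.2 : ℝ) * I).im = -(max v₀ p.2) := by simp
  rw [this]
  have := le_max_left v₀ p.2
  linarith

lemma continuous_HH (hf : AEStronglyMeasurable f (volume.restrict (Ioi 0)))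
    (hM : ∀ t : ℝ, 0 < t → ‖f t‖ ≤ M * (1 + t) ^ q) (hv₀ : 0 < v₀) :
    Continuous (HH f v₀ v₁) := by
  have hf' : AEStronglyMeasurable (fun t : ℝ => (t : ℂ) * f t) (volume.restrict (Ioi 0)) :=
    Complex.continuous_ofReal.aestronglyMeasurable.mul hf
  have h1 := continuous_GG_line hf hM hv₀
  have h2 := continuous_GG_line hf' (norm_mul_t_le hM) hv₀
  unfold HH
  refine (continuous_const.mul ?_).add (continuous_const.mul ?_)
  · have h3 : Continuous fun u : ℝ => ((u, v₀) : ℝ × ℝ) := by fun_prop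
    have h4 := h1.comp h3
    simp only [Function.comp_def, max_self] at h4
    exact h4.norm.pow 2
  · refine intervalIntegral.continuous_parametric_intervalIntegral_of_continuous' (μ := volume) ?_ _ _
    exact h2.norm.pow 2

lemma norm_GG_sq_le_HH (hf : AEStronglyMeasurable f (volume.restrict (Ioi 0)))
    (hM : ∀ t : ℝ, 0 < t → ‖f t‖ ≤ M * (1 + t) ^ q) (hv₀ : 0 < v₀) (hv₁ : v₀ ≤ v₁) (u : ℝ) {v : ℝ}
    (h0 : v₀ ≤ v) (h1 : v ≤ v₁) : ‖GG f (u - v * I)‖ ^ 2 ≤ HH f v₀ v₁ u := by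
  have hf' : AEStronglyMeasurable (fun t : ℝ => (t : ℂ) * f t) (volume.restrict (Ioi 0)) :=
    Complex.continuous_ofReal.aestronglyMeasurable.mul hf
  set g : ℝ → ℂ := fun v => GG (fun t => t * f t) (u - (max v₀ v : ℝ) * I) with hg
  have hgc : Continuous g := by
    have h2 := continuous_GG_line hf' (norm_mul_t_le hM) hv₀
    exact h2.comp (Continuous.prodMk_right u)
  have hint0 : 0 ≤ ∫ v in v₀..v₁, ‖g v‖ ^ 2 :=
    intervalIntegral.integral_nonneg hv₁ fun x _ => by positivity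
  rcases eq_or_lt_of_le h0 with h | h
  · subst h
    unfold HH
    have : 0 ≤ 2 * (v₁ - v₀) * ∫ v in v₀..v₁, ‖g v‖ ^ 2 :=
      mul_nonneg (by linarith) hint0
    have h3 : 0 ≤ ‖GG f (u - v₀ * I)‖ ^ 2 := by positivity
    simp only [hg] at this
    linarith
  have hftc : GG f (u - v * I) - GG f (u - v₀ * I) = ∫ x in v₀..v, -g x := by
    refine (intervalIntegral.integral_eq_sub_of_hasDerivAt (f := fun v : ℝ => GG f (u - v * I))
      (f' := fun x => -g x) (fun x hx => ?_) (hgc.neg.intervalIntegrable _ _)).symm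
    rw [uIcc_of_le h.le] at hx
    have h3 := hasDerivAt_GG hf hM u (v := x) (by linarith [hx.1])
    simp only [hg]
    rw [max_eq_right hx.1]
    exact h3
  have h4 : ‖∫ x in v₀..v, -g x‖ ≤ ∫ x in v₀..v, ‖g x‖ := by
    refine (intervalIntegral.norm_integral_le_integral_norm h.le).trans (le_of_eq ?_)
    refine intervalIntegral.integral_congr fun x _ => ?_
    exact norm_neg _
  have h5 := sq_integral_le h hgc.norm
  have h6 : ∫ x in v₀..v, ‖g x‖ ^ 2 ≤ ∫ x in v₀..v₁, ‖g x‖ ^ 2 :=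
    intervalIntegral.integral_mono_interval le_rfl h.le h1
      (Eventually.of_forall fun x => by positivity) ((hgc.norm.pow 2).intervalIntegrable _ _)
  have h7 : ‖∫ x in v₀..v, -g x‖ ^ 2 ≤ (v₁ - v₀) * ∫ x in v₀..v₁, ‖g x‖ ^ 2 := by
    calc ‖∫ x in v₀..v, -g x‖ ^ 2 ≤ (∫ x in v₀..v, ‖g x‖) ^ 2 :=
          pow_le_pow_left₀ (norm_nonneg _) h4 2
      _ ≤ (v - v₀) * ∫ x in v₀..v, ‖g x‖ ^ 2 := h5
      _ ≤ _ := by
          have : 0 ≤ ∫ x in v₀..v, ‖g x‖ ^ 2 :=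
            intervalIntegral.integral_nonneg h.le fun x _ => by positivity
          gcongr
  have e : GG f (u - v * I) = GG f (u - v₀ * I) + ∫ x in v₀..v, -g x := by
    rw [← hftc]; ring
  unfold HH
  rw [e]
  have h8 := norm_add_le (GG f (u - v₀ * I)) (∫ x in v₀..v, -g x)
  have h9 : ‖GG f (u - v₀ * I) + ∫ x in v₀..v, -g x‖ ^ 2 ≤
      (‖GG f (u - v₀ * I)‖ + ‖∫ x in v₀..v, -g x‖) ^ 2 := pow_le_pow_left₀ (norm_nonneg _) h8 2
  simp only [hg] at h7 h9 ⊢
  nlinarith [sq_nonneg (‖GG f (u - v₀ * I)‖ - ‖∫ x in v₀..v, -g x‖)]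

end

theorem exists_HH_le {q : ℝ} (hq : 0 ≤ q) : ∃ C : ℝ, 0 < C ∧ ∀ {f : ℝ → ℂ},
    AEStronglyMeasurable f (volume.restrict (Ioi 0)) → ∀ {M : ℝ}, 0 ≤ M →
    (∀ t : ℝ, 0 < t → ‖f t‖ ≤ M * (1 + t) ^ q) → ∀ v₀ v₁ K : ℝ, 0 < v₀ → v₀ ≤ v₁ → v₁ ≤ 1 →
    0 ≤ K → v₁ - v₀ ≤ K * v₀ → ∀ u₀ u₁ : ℝ, u₀ ≤ u₁ →
    ∫ u in u₀..u₁, HH f v₀ v₁ u ≤ C * (1 + K ^ 2) * M ^ 2 * v₀ ^ (-(2 * q + 1)) := by
  obtain ⟨C₁, hC₁0, hC₁⟩ := exists_GG_sq_le hq
  obtain ⟨C₂, hC₂0, hC₂⟩ := exists_GG_sq_le (q := q + 1) (by linarith)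
  refine ⟨2 * C₁ + 2 * C₂, by positivity, ?_⟩
  intro f hf M hM0 hM v₀ v₁ K hv₀ hv₁ hv1 hK0 hK u₀ u₁ hu
  have hf' : AEStronglyMeasurable (fun t : ℝ => (t : ℂ) * f t) (volume.restrict (Ioi 0)) :=
    Complex.continuous_ofReal.aestronglyMeasurable.mul hf
  have hM1 := norm_mul_t_le hM
  have h1 := hC₁ hf hM0 hM v₀ hv₀ (by linarith)
  have hc1 := continuous_GG_line hf hM hv₀
  have hc2 := continuous_GG_line hf' hM1 hv₀
  have i1 : Continuous fun u : ℝ => ‖GG f (u - v₀ * I)‖ ^ 2 := by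
    have h3 : Continuous fun u : ℝ => ((u, v₀) : ℝ × ℝ) := by fun_prop
    have h4 := hc1.comp h3
    simp only [Function.comp_def, max_self] at h4
    exact h4.norm.pow 2
  have i2 : Continuous fun u : ℝ => ∫ v in v₀..v₁,
      ‖GG (fun t => t * f t) (u - (max v₀ v : ℝ) * I)‖ ^ 2 := by
    refine intervalIntegral.continuous_parametric_intervalIntegral_of_continuous' (μ := volume) ?_ _ _
    exact hc2.norm.pow 2
  have e1 : ∫ u in u₀..u₁, HH f v₀ v₁ u = 2 * (∫ u in u₀..u₁, ‖GG f (u - v₀ * I)‖ ^ 2) +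
      2 * (v₁ - v₀) * ∫ u in u₀..u₁, ∫ v in v₀..v₁,
        ‖GG (fun t => t * f t) (u - (max v₀ v : ℝ) * I)‖ ^ 2 := by
    unfold HH
    have j1 : IntervalIntegrable (fun u : ℝ => 2 * ‖GG f (u - v₀ * I)‖ ^ 2) volume u₀ u₁ :=
      (continuous_const.mul i1).intervalIntegrable _ _
    have j2 : IntervalIntegrable (fun u : ℝ => 2 * (v₁ - v₀) * ∫ v in v₀..v₁,
        ‖GG (fun t => t * f t) (u - (max v₀ v : ℝ) * I)‖ ^ 2) volume u₀ u₁ :=
      (continuous_const.mul i2).intervalIntegrable _ _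
    rw [intervalIntegral.integral_add j1 j2, intervalIntegral.integral_const_mul,
      intervalIntegral.integral_const_mul]
  have e2 : ∫ u in u₀..u₁, ∫ v in v₀..v₁,
        ‖GG (fun t => t * f t) (u - (max v₀ v : ℝ) * I)‖ ^ 2 =
      ∫ v in v₀..v₁, ∫ u in u₀..u₁,
        ‖GG (fun t => t * f t) (u - (max v₀ v : ℝ) * I)‖ ^ 2 := by
    rw [intervalIntegral_intervalIntegral_swap]
    refine IntegrableOn.mono_set ?_ (prod_mono uIoc_subset_uIcc uIoc_subset_uIcc)
    exact (hc2.norm.pow 2).continuousOn.integrableOn_compact (isCompact_uIcc.prod isCompact_uIcc)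
  have h2 : ∫ u in u₀..u₁, ‖GG f (u - v₀ * I)‖ ^ 2 ≤ C₁ * M ^ 2 * v₀ ^ (-(2 * q + 1)) := by
    rw [intervalIntegral.integral_of_le hu]
    exact (setIntegral_le_integral h1.1 (Eventually.of_forall fun x => by positivity)).trans h1.2
  have h3 : ∀ v ∈ Icc v₀ v₁, ∫ u in u₀..u₁,
      ‖GG (fun t => t * f t) (u - (max v₀ v : ℝ) * I)‖ ^ 2 ≤
      C₂ * M ^ 2 * v₀ ^ (-(2 * (q + 1) + 1)) := by
    intro v hv
    rw [max_eq_right hv.1, intervalIntegral.integral_of_le hu]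
    have h4 := hC₂ hf' hM0 hM1 v (by linarith [hv.1]) (by linarith [hv.2])
    refine (setIntegral_le_integral h4.1 (Eventually.of_forall fun x => by positivity)).trans
      (h4.2.trans ?_)
    refine mul_le_mul_of_nonneg_left ?_ (by positivity)
    exact Real.rpow_le_rpow_of_nonpos hv₀ hv.1 (by linarith)
  have h4 : ∫ v in v₀..v₁, ∫ u in u₀..u₁,
      ‖GG (fun t => t * f t) (u - (max v₀ v : ℝ) * I)‖ ^ 2 ≤
      (v₁ - v₀) * (C₂ * M ^ 2 * v₀ ^ (-(2 * (q + 1) + 1))) := by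
    have i3 : Continuous fun v : ℝ => ∫ u in u₀..u₁,
        ‖GG (fun t => t * f t) (u - (max v₀ v : ℝ) * I)‖ ^ 2 := by
      refine intervalIntegral.continuous_parametric_intervalIntegral_of_continuous' (μ := volume)
        ?_ _ _
      exact (hc2.comp continuous_swap).norm.pow 2
    calc _ ≤ ∫ v in v₀..v₁, C₂ * M ^ 2 * v₀ ^ (-(2 * (q + 1) + 1)) :=
          intervalIntegral.integral_mono_on hv₁ (i3.intervalIntegrable _ _)
            (continuous_const.intervalIntegrable _ _) h3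
      _ = _ := by rw [intervalIntegral.integral_const, smul_eq_mul]
  have hvv : 0 ≤ v₁ - v₀ := by linarith
  have h5 : (v₁ - v₀) ^ 2 * v₀ ^ (-(2 * (q + 1) + 1)) ≤ K ^ 2 * v₀ ^ (-(2 * q + 1)) := by
    calc (v₁ - v₀) ^ 2 * v₀ ^ (-(2 * (q + 1) + 1)) ≤ (K * v₀) ^ 2 * v₀ ^ (-(2 * (q + 1) + 1)) := by
          gcongr
      _ = K ^ 2 * (v₀ ^ (2:ℝ) * v₀ ^ (-(2 * (q + 1) + 1))) := by
          rw [mul_pow, ← Real.rpow_natCast v₀ 2]
          push_cast
          ring
      _ = _ := by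
          rw [← Real.rpow_add hv₀]
          congr 2
          ring
  rw [e1, e2]
  have hv0p : 0 < v₀ ^ (-(2 * q + 1)) := Real.rpow_pos_of_pos hv₀ _
  calc 2 * (∫ u in u₀..u₁, ‖GG f (u - v₀ * I)‖ ^ 2) + 2 * (v₁ - v₀) *
        ∫ v in v₀..v₁, ∫ u in u₀..u₁, ‖GG (fun t => t * f t) (u - (max v₀ v : ℝ) * I)‖ ^ 2 ≤
      2 * (C₁ * M ^ 2 * v₀ ^ (-(2 * q + 1))) +
        2 * (v₁ - v₀) * ((v₁ - v₀) * (C₂ * M ^ 2 * v₀ ^ (-(2 * (q + 1) + 1)))) := by gcongr
    _ = 2 * C₁ * M ^ 2 * v₀ ^ (-(2 * q + 1)) +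
        2 * C₂ * M ^ 2 * ((v₁ - v₀) ^ 2 * v₀ ^ (-(2 * (q + 1) + 1))) := by ring
    _ ≤ 2 * C₁ * M ^ 2 * v₀ ^ (-(2 * q + 1)) +
        2 * C₂ * M ^ 2 * (K ^ 2 * v₀ ^ (-(2 * q + 1))) := by gcongr
    _ ≤ _ := by
        have h6 : 0 ≤ C₁ * K ^ 2 * M ^ 2 * v₀ ^ (-(2 * q + 1)) := by positivity
        have h7 : 0 ≤ C₂ * M ^ 2 * v₀ ^ (-(2 * q + 1)) := by positivity
        nlinarith

end Pool.Agent.H26
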