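import Pool.Agent.H26.GammaBound

/-!
The two halves of the factor of the functional equation.
-/

namespace Pool.Agent.H26

open Complex Set

/-- `log (2π) + iπ/2` -/
noncomputable def ell : ℂ := (Real.log (2 * Real.pi) : ℂ) + I * (Real.pi / 2 : ℝ)

/-- `log (2π) - iπ/2` -/
noncomputable def ell' : ℂ := (Real.log (2 * Real.pi) : ℂ) - I * (Real.pi / 2 : ℝ)

/-- `(2πi)^{-s} Γ(s)` -/
noncomputable def Gp (s : ℂ) : ℂ := cexp (-(s * ell)) * Gamma s

/-- `(-2πi)^{-s} Γ(s)` -/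
noncomputable def Gm (s : ℂ) : ℂ := cexp (-(s * ell')) * Gamma s

lemma zeta_one_sub_eq {s : ℂ} (h0 : 0 < s.re) (h1 : s ≠ 1) :
    riemannZeta (1 - s) = (Gp s + Gm s) * riemannZeta s := by
  rw [riemannZeta_one_sub (fun n hn => ?_) h1]
  · have e1 : (2 * (Real.pi : ℂ)) ^ (-s) = cexp (-(s * Real.log (2 * Real.pi))) := by
      have h2 : (2 * (Real.pi : ℂ)) = ((2 * Real.pi : ℝ) : ℂ) := by push_cast; ring
      rw [h2, Complex.cpow_def_of_ne_zero (by exact_mod_cast (by positivity : (2 * Real.pi : ℝ) ≠ 0)),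
        ← Complex.ofReal_log (by positivity)]
      congr 1
      ring
    have e2 : Complex.cos (Real.pi * s / 2) =
        (cexp (-(s * (I * (Real.pi / 2 : ℝ)))) + cexp (s * (I * (Real.pi / 2 : ℝ)))) / 2 := by
      rw [Complex.cos]
      push_cast
      rw [add_comm]
      congr 3 <;> ring
    have e3 : Gp s + Gm s = cexp (-(s * Real.log (2 * Real.pi))) *
        (cexp (-(s * (I * (Real.pi / 2 : ℝ)))) + cexp (s * (I * (Real.pi / 2 : ℝ)))) * Gamma s := by
      rw [Gp, Gm, ell, ell', mul_add (cexp _), ← Complex.exp_add, ← Complex.exp_add]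
      ring_nf
    rw [e1, e2, e3]
    ring
  · rw [hn] at h0
    simp at h0
    have : (0:ℝ) ≤ n := Nat.cast_nonneg n
    linarith

lemma norm_exp_ell (s : ℂ) : ‖cexp (-(s * ell))‖ =
    (2 * Real.pi) ^ (-s.re) * Real.exp (Real.pi / 2 * s.im) := by
  rw [Complex.norm_exp, Real.rpow_def_of_pos (by positivity), ← Real.exp_add]
  congr 1
  simp [ell]
  ring

lemma norm_exp_ell' (s : ℂ) : ‖cexp (-(s * ell'))‖ =
    (2 * Real.pi) ^ (-s.re) * Real.exp (-(Real.pi / 2 * s.im)) := by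
  rw [Complex.norm_exp, Real.rpow_def_of_pos (by positivity), ← Real.exp_add]
  congr 1
  simp [ell']
  ring

lemma two_pi_rpow_le {x : ℝ} (hx : -1 ≤ x) : (2 * Real.pi) ^ (-x) ≤ 7 := by
  have h1 : (1:ℝ) ≤ 2 * Real.pi := by linarith [Real.pi_gt_three]
  calc (2 * Real.pi) ^ (-x) ≤ (2 * Real.pi) ^ (1:ℝ) :=
        Real.rpow_le_rpow_of_exponent_le h1 (by linarith)
    _ ≤ 7 := by rw [Real.rpow_one]; linarith [Real.pi_lt_d2]

lemma exists_norm_Gamma_right : ∃ C : ℝ, 0 < C ∧ ∀ s : ℂ, 1 / 2 ≤ s.re → s.re ≤ 2 →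
    ‖Gamma s‖ ≤ C * (1 + |s.im|) ^ 2 * Real.exp (-(Real.pi / 2 * |s.im|)) := by
  set K : Set ℂ := Set.Icc (1 / 2 : ℝ) 2 ×ℂ Set.Icc (-2 : ℝ) 2 with hK
  have hKc : IsCompact K := isCompact_Icc.reProdIm isCompact_Icc
  have hcont : ContinuousOn Gamma K := by
    intro s hs
    have h1 : 1 / 2 ≤ s.re := (Complex.mem_reProdIm.1 hs).1.1
    refine (differentiableAt_Gamma s fun m hm => ?_).continuousAt.continuousWithinAt
    rw [hm] at h1
    simp at h1
    have : (0:ℝ) ≤ m := Nat.cast_nonneg m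
    linarith
  obtain ⟨C, hC⟩ := hKc.exists_bound_of_continuousOn hcont
  refine ⟨max (C * Real.exp Real.pi) 64, lt_of_lt_of_le (by norm_num) (le_max_right _ _),
    fun s h0 h1 => ?_⟩
  have hA : 0 ≤ |s.im| := abs_nonneg _
  rcases le_total |s.im| 2 with h | h
  · have hs : s ∈ K := Complex.mem_reProdIm.2 ⟨⟨h0, h1⟩, abs_le.1 h⟩
    have hC0 : 0 ≤ C := (norm_nonneg _).trans (hC s hs)
    have h2 : Real.exp (-Real.pi) ≤ Real.exp (-(Real.pi / 2 * |s.im|)) := by
      apply Real.exp_le_exp.2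
      nlinarith [Real.pi_pos]
    calc _ ≤ C := hC s hs
      _ = (C * Real.exp Real.pi) * 1 * Real.exp (-Real.pi) := by
          rw [Real.exp_neg]
          field_simp
      _ ≤ max (C * Real.exp Real.pi) 64 * (1 + |s.im|) ^ 2 *
          Real.exp (-(Real.pi / 2 * |s.im|)) := by
          gcongr
          · exact le_max_left _ _
          · exact one_le_pow₀ (by linarith)
  · have h2 := norm_Gamma_strip (x := s.re) (y := s.im) (by linarith) (by linarith) h
    rw [Complex.re_add_im] at h2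
    refine h2.trans ?_
    have h3 : |s.im| ^ (s.re - 1 / 2) ≤ (1 + |s.im|) ^ 2 := by
      calc |s.im| ^ (s.re - 1 / 2) ≤ |s.im| ^ (2:ℝ) :=
            Real.rpow_le_rpow_of_exponent_le (by linarith) (by linarith)
        _ = |s.im| ^ 2 := by norm_cast
        _ ≤ _ := by gcongr; linarith
    have e : -(Real.pi * |s.im| / 2) = -(Real.pi / 2 * |s.im|) := by ring
    rw [e]
    gcongr
    exact le_max_right _ _

lemma exists_norm_Gp_right : ∃ C : ℝ, 0 < C ∧ ∀ s : ℂ, 1 / 2 ≤ s.re → s.re ≤ 2 →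
    ‖Gp s‖ ≤ C * (1 + |s.im|) ^ 2 * Real.exp (-(Real.pi / 2 * |s.im|) + Real.pi / 2 * s.im) ∧
    ‖Gm s‖ ≤ C * (1 + |s.im|) ^ 2 * Real.exp (-(Real.pi / 2 * |s.im|) - Real.pi / 2 * s.im) := by
  obtain ⟨C, hC0, hC⟩ := exists_norm_Gamma_right
  refine ⟨7 * C, by positivity, fun s h0 h1 => ⟨?_, ?_⟩⟩
  · rw [Gp, norm_mul, norm_exp_ell, Real.exp_add]
    calc _ ≤ 7 * Real.exp (Real.pi / 2 * s.im) *
          (C * (1 + |s.im|) ^ 2 * Real.exp (-(Real.pi / 2 * |s.im|))) := by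
          gcongr
          · exact two_pi_rpow_le (by linarith)
          · exact hC s h0 h1
      _ = _ := by ring
  · rw [Gm, norm_mul, norm_exp_ell', sub_eq_add_neg, Real.exp_add]
    calc _ ≤ 7 * Real.exp (-(Real.pi / 2 * s.im)) *
          (C * (1 + |s.im|) ^ 2 * Real.exp (-(Real.pi / 2 * |s.im|))) := by
          gcongr
          · exact two_pi_rpow_le (by linarith)
          · exact hC s h0 h1
      _ = _ := by ring

lemma norm_Gp_strip {s : ℂ} (h0 : -1 ≤ s.re) (h1 : s.re ≤ 2) (h : 2 ≤ |s.im|) :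
    ‖Gp s‖ ≤ 448 * (1 + |s.im|) ^ 2 *
      Real.exp (-(Real.pi / 2 * |s.im|) + Real.pi / 2 * s.im) := by
  have h2 := norm_Gamma_strip (x := s.re) (y := s.im) (by linarith) (by linarith) h
  rw [Complex.re_add_im] at h2
  have h3 : |s.im| ^ (s.re - 1 / 2) ≤ (1 + |s.im|) ^ 2 := by
    calc |s.im| ^ (s.re - 1 / 2) ≤ |s.im| ^ (2:ℝ) :=
          Real.rpow_le_rpow_of_exponent_le (by linarith) (by linarith)
      _ = |s.im| ^ 2 := by norm_cast
      _ ≤ _ := by gcongr; linarith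
  have e : -(Real.pi * |s.im| / 2) = -(Real.pi / 2 * |s.im|) := by ring
  rw [e] at h2
  rw [Gp, norm_mul, norm_exp_ell, Real.exp_add]
  calc _ ≤ 7 * Real.exp (Real.pi / 2 * s.im) *
        (64 * (1 + |s.im|) ^ 2 * Real.exp (-(Real.pi / 2 * |s.im|))) := by
        gcongr
        · exact two_pi_rpow_le (by linarith)
        · refine h2.trans ?_
          gcongr
    _ = _ := by ring

lemma exists_norm_Gp_line {σ : ℝ} (h0 : -1 < σ) (h1 : σ < 0) : ∃ C : ℝ, 0 < C ∧ ∀ v : ℝ,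
    ‖Gp (σ + v * I)‖ ≤ C * (1 + |v|) ^ (σ - 1 / 2) *
      Real.exp (-(Real.pi / 2 * |v|) + Real.pi / 2 * v) := by
  obtain ⟨C, hC0, hC⟩ := exists_norm_Gamma_le (x := σ) (by linarith) (by linarith) (by
    intro n hn
    rcases Nat.eq_zero_or_pos n with h | h
    · subst h; simp at hn; linarith
    · have : (1:ℝ) ≤ n := by exact_mod_cast h
      linarith)
  refine ⟨7 * C, by positivity, fun v => ?_⟩
  rw [Gp, norm_mul, norm_exp_ell, Real.exp_add]
  have e1 : ((σ:ℂ) + v * I).re = σ := by simp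
  have e2 : ((σ:ℂ) + v * I).im = v := by simp
  have e : -(Real.pi * |v| / 2) = -(Real.pi / 2 * |v|) := by ring
  have h2 := hC v
  rw [e] at h2
  rw [e1, e2]
  calc _ ≤ 7 * Real.exp (Real.pi / 2 * v) *
        (C * (1 + |v|) ^ (σ - 1 / 2) * Real.exp (-(Real.pi / 2 * |v|))) := by
        gcongr
        exact two_pi_rpow_le (by linarith)
    _ = _ := by ring

/-- lower bound on the line `Re s = -1/2` -/
lemma norm_Gp_neg_half_ge {v : ℝ} (hv : 0 ≤ v) :
    (1 + v)⁻¹ ≤ ‖Gp (((-1 / 2 : ℝ) : ℂ) + v * I)‖ := by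
  set z : ℂ := ((-1 / 2 : ℝ) : ℂ) + v * I with hz
  have hz0 : z ≠ 0 := by
    intro h
    have := congrArg Complex.re h
    simp [hz] at this
  have hz1 : z + 1 = ((1 / 2 : ℝ) : ℂ) + v * I := by rw [hz]; push_cast; ring
  have hG := Gamma_add_one z hz0
  rw [hz1] at hG
  have h1 := norm_Gamma_half_sq v
  have h2 : Real.cosh (Real.pi * v) ≤ Real.exp (Real.pi * v) := by
    rw [Real.cosh_eq]
    have : Real.exp (-(Real.pi * v)) ≤ Real.exp (Real.pi * v) := by
      apply Real.exp_le_exp.2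
      have := mul_nonneg Real.pi_pos.le hv
      linarith
    linarith
  have hze : ‖z‖ ≤ 1 + v := by
    refine (Complex.norm_le_abs_re_add_abs_im z).trans ?_
    simp only [hz, add_re, ofReal_re, mul_re, I_re, mul_zero, ofReal_im, I_im, mul_one, sub_self,
      add_zero, add_im, mul_im, zero_add]
    rw [abs_of_nonneg hv]
    norm_num
  have h3 : Real.exp (-(Real.pi / 2 * v)) ≤ ‖Gamma (((1 / 2 : ℝ) : ℂ) + v * I)‖ := by
    have h4 : Real.exp (-(Real.pi / 2 * v)) ^ 2 ≤ ‖Gamma (((1 / 2 : ℝ) : ℂ) + v * I)‖ ^ 2 := by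
      rw [h1, ← Real.exp_nat_mul, le_div_iff₀ (Real.cosh_pos _)]
      have e : ((2:ℕ):ℝ) * -(Real.pi / 2 * v) = -(Real.pi * v) := by push_cast; ring
      rw [e]
      calc Real.exp (-(Real.pi * v)) * Real.cosh (Real.pi * v)
          ≤ Real.exp (-(Real.pi * v)) * Real.exp (Real.pi * v) := by gcongr
        _ = 1 := by rw [← Real.exp_add]; simp
        _ ≤ Real.pi := by linarith [Real.pi_gt_three]
    exact le_of_sq_le_sq h4 (norm_nonneg _)
  have e1 : z.re = -1 / 2 := by simp [hz]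
  have e2 : z.im = v := by simp [hz]
  have h5 : (1:ℝ) ≤ (2 * Real.pi) ^ (-z.re) := by
    rw [e1]
    exact Real.one_le_rpow (by linarith [Real.pi_gt_three]) (by norm_num)
  have hv1 : 0 < 1 + v := by linarith
  rw [Gp, norm_mul, norm_exp_ell, e2]
  rw [hG, norm_mul] at h3
  have h6 : Real.exp (-(Real.pi / 2 * v)) ≤ (1 + v) * ‖Gamma z‖ :=
    h3.trans (mul_le_mul_of_nonneg_right hze (norm_nonneg _))
  rw [inv_le_iff_one_le_mul₀ hv1]
  calc (1:ℝ) = Real.exp (Real.pi / 2 * v) * Real.exp (-(Real.pi / 2 * v)) := by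
        rw [← Real.exp_add]; simp
    _ ≤ Real.exp (Real.pi / 2 * v) * ((1 + v) * ‖Gamma z‖) := by gcongr
    _ ≤ (2 * Real.pi) ^ (-z.re) * Real.exp (Real.pi / 2 * v) * ‖Gamma z‖ * (1 + v) := by
        have : 0 ≤ Real.exp (Real.pi / 2 * v) * ((1 + v) * ‖Gamma z‖) := by positivity
        nlinarith

lemma differentiableAt_Gp {s : ℂ} (hs : ∀ m : ℕ, s ≠ -m) : DifferentiableAt ℂ Gp s := by
  unfold Gp
  exact DifferentiableAt.mul (by fun_prop) (differentiableAt_Gamma s hs)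

lemma differentiableAt_Gm {s : ℂ} (hs : ∀ m : ℕ, s ≠ -m) : DifferentiableAt ℂ Gm s := by
  unfold Gm
  exact DifferentiableAt.mul (by fun_prop) (differentiableAt_Gamma s hs)

lemma ne_neg_nat_of_re_pos {s : ℂ} (hs : 0 < s.re) (m : ℕ) : s ≠ -m := by
  intro h
  rw [h] at hs
  simp at hs
  have : (0:ℝ) ≤ m := Nat.cast_nonneg m
  linarith

lemma ne_neg_nat_of_im {s : ℂ} (hs : s.im ≠ 0) (m : ℕ) : s ≠ -m := by
  intro h
  rw [h] at hs
  simp at hs

lemma ne_neg_nat_of_re_mem {s : ℂ} (h0 : -1 < s.re) (h1 : s.re < 0) (m : ℕ) : s ≠ -m := by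
  intro h
  rw [h] at h0 h1
  simp at h0 h1
  rcases Nat.eq_zero_or_pos m with h' | h'
  · omega
  · have : (1:ℝ) ≤ m := by exact_mod_cast h'
    linarith

end Pool.Agent.H26
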