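import Pool.Agent.H26.MLine
import Pool.Agent.H26.Plancherel

/-!
Mean squares of differences of the Mellin–Barnes integral.
-/

namespace Pool.Agent.H26

open Complex MeasureTheory Set Filter Topology Pool.Agent.H95fa FourierTransform

lemma integral_poly_exp_le {q : ℝ} (hq : 0 ≤ q) : ∃ C : ℝ, 0 < C ∧ ∀ η : ℝ, 0 < η → η ≤ 1 →
    ∫ v : ℝ, (1 + |v|) ^ q * Real.exp (-(2 * η * |v|)) ≤ C * η ^ (-(q + 1)) := by
  set J : ℝ := ∫ v : ℝ, (1 + |v|) ^ q * Real.exp (-(2 * |v|)) with hJ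
  have hJi : Integrable fun v : ℝ => (1 + |v|) ^ q * Real.exp (-(2 * |v|)) :=
    integrable_poly_exp q (by norm_num)
  have hJ0 : 0 ≤ J := integral_nonneg fun v => by positivity
  refine ⟨J + 1, by positivity, fun η h0 h1 => ?_⟩
  have h2 : ∫ v : ℝ, (1 + |v|) ^ q * Real.exp (-(2 * η * |v|)) =
      η⁻¹ * ∫ y : ℝ, (1 + |y / η|) ^ q * Real.exp (-(2 * |y|)) := by
    have h3 := Measure.integral_comp_mul_left
      (fun y : ℝ => (1 + |y / η|) ^ q * Real.exp (-(2 * |y|))) η
    have e : ∀ v : ℝ, (1 + |η * v / η|) ^ q * Real.exp (-(2 * |η * v|)) =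
        (1 + |v|) ^ q * Real.exp (-(2 * η * |v|)) := by
      intro v
      rw [mul_div_cancel_left₀ _ h0.ne', abs_mul, abs_of_pos h0]
      ring_nf
    simp only [e] at h3
    rw [h3, abs_of_pos (inv_pos.2 h0), smul_eq_mul]
  have h4 : ∫ y : ℝ, (1 + |y / η|) ^ q * Real.exp (-(2 * |y|)) ≤ η ^ (-q) * J := by
    rw [hJ, ← integral_const_mul]
    refine integral_mono_of_nonneg (Eventually.of_forall fun y => by positivity)
      (hJi.const_mul _) (Eventually.of_forall fun y => ?_)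
    simp only
    rw [← mul_assoc]
    gcongr
    rw [Real.rpow_neg h0.le, ← Real.inv_rpow h0.le, ← Real.mul_rpow (by positivity) (by positivity)]
    refine Real.rpow_le_rpow (by positivity) ?_ hq
    rw [abs_div, abs_of_pos h0, inv_mul_eq_div, add_div]
    have : 1 ≤ 1 / η := by rw [le_div_iff₀ h0]; linarith
    linarith
  rw [h2]
  calc η⁻¹ * ∫ y : ℝ, (1 + |y / η|) ^ q * Real.exp (-(2 * |y|)) ≤ η⁻¹ * (η ^ (-q) * J) := by
        gcongr
    _ = J * η ^ (-(q + 1)) := by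
        rw [neg_add, Real.rpow_add h0, Real.rpow_neg_one]
        ring
    _ ≤ _ := by
        gcongr
        linarith

/-- the function whose Fourier transform is the weighted difference of the Mellin–Barnes integral -/
noncomputable def phiM (c : ℕ → ℂ) (l : List ℝ) (b σ η : ℝ) (m : ℕ) (v : ℝ) : ℂ :=
  fM c l b (-(η * I)) (σ + v * I) * (cexp (-((σ + v * I) * η)) - 1) ^ m

lemma dd_VM {c : ℕ → ℂ} {l : List ℝ} {b σ η : ℝ} (m : ℕ) {z : ℂ}
    (hi : ∀ j : ℕ, j ≤ m → Integrable fun v : ℝ => fM c l b (z + j * η) (σ + v * I)) :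
    (dd η)^[m] (VM c l b σ) z =
      ∫ v : ℝ, fM c l b z (σ + v * I) * (cexp (-((σ + v * I) * η)) - 1) ^ m := by
  rw [dd_iter_eq_sum]
  unfold VM
  have h1 : ∀ j ∈ Finset.range (m + 1), (-1 : ℂ) ^ (m - j) * (m.choose j) *
      ∫ v : ℝ, fM c l b (z + j * η) (σ + v * I) =
      ∫ v : ℝ, (-1 : ℂ) ^ (m - j) * (m.choose j) * fM c l b (z + j * η) (σ + v * I) :=
    fun j _ => (integral_const_mul _ _).symm
  rw [Finset.sum_congr rfl h1, ← integral_finsetSum]
  · refine integral_congr_ae (Eventually.of_forall fun v => ?_)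
    simp only
    set w : ℂ := (σ : ℂ) + v * I with hw
    have h2 : (cexp (-(w * η)) - 1) ^ m = ∑ j ∈ Finset.range (m + 1),
        (-1 : ℂ) ^ (m - j) * (m.choose j) * cexp (-(w * (j * η))) := by
      rw [sub_eq_add_neg, add_pow]
      refine Finset.sum_congr rfl fun j _ => ?_
      have : cexp (-(w * η)) ^ j = cexp (-(w * (j * η))) := by
        rw [← Complex.exp_nat_mul]
        congr 1
        ring
      rw [this]
      ring
    rw [h2, Finset.mul_sum]
    refine Finset.sum_congr rfl fun j _ => ?_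
    rw [fM_exp]
    ring
  · intro j hj
    exact (hi j (by rw [Finset.mem_range] at hj; omega)).const_mul _

lemma norm_exp_sub_one_le {σ η v : ℝ} (hσ : |σ| ≤ 1) (hη0 : 0 < η) (hη1 : η ≤ 1) :
    ‖cexp (-((σ + v * I) * η)) - 1‖ ≤ 4 := by
  refine (norm_sub_le _ _).trans ?_
  rw [norm_one, Complex.norm_exp]
  have e : (-(((σ : ℂ) + v * I) * η)).re = -(σ * η) := by simp
  rw [e]
  have h1 : -(σ * η) ≤ 1 := by
    have : |σ * η| ≤ 1 := by
      rw [abs_mul, abs_of_pos hη0]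
      nlinarith [abs_nonneg σ]
    linarith [(abs_le.1 this).1]
  have h2 : Real.exp (-(σ * η)) ≤ Real.exp 1 := Real.exp_le_exp.2 h1
  have h3 := Real.exp_one_lt_d9
  linarith

lemma norm_exp_sub_one_ge {η v : ℝ} (hη0 : 0 < η) (h1 : 1 ≤ η * v) (h2 : η * v ≤ 2) :
    1 / 2 ≤ ‖cexp (-((((-(1 / 2) : ℝ) : ℂ) + v * I) * η)) - 1‖ := by
  have h3 := Complex.abs_im_le_norm (cexp (-((((-(1 / 2) : ℝ) : ℂ) + v * I) * η)) - 1)
  refine le_trans ?_ h3
  rw [Complex.sub_im, Complex.one_im, sub_zero, Complex.exp_im]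
  have e1 : (-((((-(1 / 2) : ℝ) : ℂ) + v * I) * η)).re = η / 2 := by simp; ring
  have e2 : (-((((-(1 / 2) : ℝ) : ℂ) + v * I) * η)).im = -(η * v) := by simp; ring
  rw [e1, e2, Real.sin_neg, mul_neg, abs_neg]
  have h4 : 1 ≤ Real.exp (η / 2) := Real.one_le_exp (by linarith)
  have h5 : 1 / 2 ≤ Real.sin (η * v) := by
    have hpi := Real.pi_gt_three
    rcases le_total (η * v) (Real.pi / 2) with h | h
    · have := Real.sin_le_sin_of_le_of_le_pi_div_two (x := 1) (y := η * v) (by linarith) h h1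
      have h6 := Real.sin_gt_sub_cube (x := 1) (by norm_num)
      norm_num at h6
      linarith
    · have h7 : Real.sin (η * v) = Real.sin (Real.pi - η * v) := (Real.sin_pi_sub _).symm
      rw [h7]
      have := Real.sin_le_sin_of_le_of_le_pi_div_two (x := 1) (y := Real.pi - η * v) (by linarith)
        (by linarith) (by linarith)
      have h6 := Real.sin_gt_sub_cube (x := 1) (by norm_num)
      norm_num at h6
      linarith
  calc (1:ℝ) / 2 ≤ 1 * Real.sin (η * v) := by linarith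
    _ ≤ Real.exp (η / 2) * Real.sin (η * v) := by
        have : 0 ≤ Real.sin (η * v) := by linarith
        gcongr
    _ ≤ _ := le_abs_self _

/-- Plancherel for the differences -/
theorem plancherel_dd {c : ℕ → ℂ} {l : List ℝ} {b σ η : ℝ} {m : ℕ}
    (hi : ∀ x : ℝ, ∀ j : ℕ, j ≤ m →
      Integrable fun v : ℝ => fM c l b ((x - η * I) + j * η) (σ + v * I))
    (h1 : Integrable (phiM c l b σ η m)) (h2 : MemLp (phiM c l b σ η m) 2) :
    Integrable (fun x : ℝ => Real.exp (2 * σ * x) *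
      ‖(dd η)^[m] (VM c l b σ) (x - η * I)‖ ^ 2) ∧
    ∫ x : ℝ, Real.exp (2 * σ * x) * ‖(dd η)^[m] (VM c l b σ) (x - η * I)‖ ^ 2 =
      2 * Real.pi * ∫ v : ℝ, ‖phiM c l b σ η m v‖ ^ 2 := by
  have hpi := Real.pi_pos
  have key : ∀ x : ℝ, Real.exp (2 * σ * x) * ‖(dd η)^[m] (VM c l b σ) (x - η * I)‖ ^ 2 =
      ‖𝓕 (phiM c l b σ η m) ((2 * Real.pi)⁻¹ * x)‖ ^ 2 := by
    intro x
    rw [dd_VM m (hi x), Real.fourier_real_eq_integral_exp_smul]
    have e1 : ∀ v : ℝ, fM c l b (x - η * I) (σ + v * I) *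
        (cexp (-((σ + v * I) * η)) - 1) ^ m =
        cexp (-(σ * x)) * (cexp (((-2 * Real.pi * v * ((2 * Real.pi)⁻¹ * x) : ℝ) : ℂ) * I) •
          phiM c l b σ η m v) := by
      intro v
      have e2 : (x : ℂ) - η * I = -(η * I) + x := by ring
      rw [e2, fM_exp, phiM, smul_eq_mul]
      have e3 : ((-2 * Real.pi * v * ((2 * Real.pi)⁻¹ * x) : ℝ) : ℂ) = -(v * x) := by
        have : (-2 * Real.pi * v * ((2 * Real.pi)⁻¹ * x) : ℝ) = -(v * x) := by
          field_simp
        rw [this]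
        push_cast
        ring
      have e4 : cexp (-(((σ : ℂ) + v * I) * x)) = cexp (-(σ * x)) * cexp (-(v * x) * I) := by
        rw [← Complex.exp_add]
        congr 1
        ring
      rw [e3, e4]
      ring
    simp only [e1]
    rw [integral_const_mul, norm_mul, mul_pow]
    have e5 : ‖cexp (-((σ : ℂ) * x))‖ = Real.exp (-(σ * x)) := by
      rw [Complex.norm_exp]
      congr 1
      simp
    rw [e5, ← mul_assoc, ← Real.exp_nat_mul, ← Real.exp_add]
    have e6 : 2 * σ * x + ((2:ℕ):ℝ) * -(σ * x) = 0 := by push_cast; ring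
    rw [e6, Real.exp_zero, one_mul]
  simp only [key]
  have hP := integrable_norm_sq_fourier h1 h2
  refine ⟨hP.comp_mul_left' (by positivity), ?_⟩
  have h3 := Measure.integral_comp_mul_left (fun ξ : ℝ => ‖𝓕 (phiM c l b σ η m) ξ‖ ^ 2)
    (2 * Real.pi)⁻¹
  rw [h3, integral_norm_sq_fourier h1 h2, inv_inv, abs_of_pos (by positivity), smul_eq_mul]

/-- the localisation argument -/
lemma block {F : ℝ → ℝ} (hF : ∀ x, 0 ≤ F x) {k : ℕ} {c₁ C₂ C₃ η A : ℝ}
    (hη0 : 0 < η) (hA0 : 0 ≤ A)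
    (i1 : Integrable fun x => Real.exp (-x) * F x)
    (h1 : c₁ * η ^ (-(2 * k + 1) : ℝ) ≤ ∫ x, Real.exp (-x) * F x)
    (i2 : Integrable fun x => Real.exp (-(4 / 3) * x) * F x)
    (h2 : ∫ x, Real.exp (-(4 / 3) * x) * F x ≤ C₂ * η ^ (-(7 / 3 * k + 1) : ℝ))
    (i3 : Integrable fun x => Real.exp (-(2 / 3) * x) * F x)
    (h3 : ∫ x, Real.exp (-(2 / 3) * x) * F x ≤ C₃ * η ^ (-(5 / 3 * k + 1) : ℝ))
    (hA : (C₂ + C₃) * Real.exp (-(A / 3)) ≤ c₁ / 2) :
    c₁ / 2 * Real.exp (-A) * η ^ (-(k + 1) : ℝ) ≤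
      ∫ x in (k * Real.log η - A)..(k * Real.log η + A), F x := by
  set x₀ : ℝ := k * Real.log η - A with hx₀
  set x₁ : ℝ := k * Real.log η + A with hx₁
  have hx01 : x₀ ≤ x₁ := by rw [hx₀, hx₁]; linarith
  have hexp : ∀ (p q : ℝ), Real.exp (p * (k * Real.log η) + q) = η ^ (p * k) * Real.exp q := by
    intro p q
    rw [Real.exp_add, Real.rpow_def_of_pos hη0]
    congr 2
    ring
  -- left tail
  have hl : ∫ x in Iic x₀, Real.exp (-x) * F x ≤ C₂ * Real.exp (-(A / 3)) * η ^ (-(2 * k + 1) : ℝ) := by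
    calc ∫ x in Iic x₀, Real.exp (-x) * F x
        ≤ ∫ x in Iic x₀, Real.exp (x₀ / 3) * (Real.exp (-(4 / 3) * x) * F x) := by
          refine setIntegral_mono_on i1.integrableOn (i2.const_mul _).integrableOn
            measurableSet_Iic fun x hx => ?_
          rw [← mul_assoc, ← Real.exp_add]
          refine mul_le_mul_of_nonneg_right (Real.exp_le_exp.2 ?_) (hF x)
          have : x ≤ x₀ := hx
          linarith
      _ ≤ Real.exp (x₀ / 3) * ∫ x, Real.exp (-(4 / 3) * x) * F x := by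
          rw [integral_const_mul]
          refine mul_le_mul_of_nonneg_left ?_ (Real.exp_pos _).le
          exact setIntegral_le_integral i2 (Eventually.of_forall fun x =>
            mul_nonneg (Real.exp_pos _).le (hF x))
      _ ≤ Real.exp (x₀ / 3) * (C₂ * η ^ (-(7 / 3 * k + 1) : ℝ)) := by gcongr
      _ = _ := by
          have e : x₀ / 3 = (1 / 3) * (k * Real.log η) + -(A / 3) := by rw [hx₀]; ring
          rw [e, hexp]
          have e2 : η ^ (1 / 3 * k : ℝ) * η ^ (-(7 / 3 * k + 1) : ℝ) = η ^ (-(2 * k + 1) : ℝ) := by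
            rw [← Real.rpow_add hη0]
            congr 1
            ring
          rw [← e2]
          ring
  have hr : ∫ x in Ioi x₁, Real.exp (-x) * F x ≤ C₃ * Real.exp (-(A / 3)) * η ^ (-(2 * k + 1) : ℝ) := by
    calc ∫ x in Ioi x₁, Real.exp (-x) * F x
        ≤ ∫ x in Ioi x₁, Real.exp (-(x₁ / 3)) * (Real.exp (-(2 / 3) * x) * F x) := by
          refine setIntegral_mono_on i1.integrableOn (i3.const_mul _).integrableOn
            measurableSet_Ioi fun x hx => ?_
          rw [← mul_assoc, ← Real.exp_add]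
          refine mul_le_mul_of_nonneg_right (Real.exp_le_exp.2 ?_) (hF x)
          have : x₁ < x := hx
          linarith
      _ ≤ Real.exp (-(x₁ / 3)) * ∫ x, Real.exp (-(2 / 3) * x) * F x := by
          rw [integral_const_mul]
          refine mul_le_mul_of_nonneg_left ?_ (Real.exp_pos _).le
          exact setIntegral_le_integral i3 (Eventually.of_forall fun x =>
            mul_nonneg (Real.exp_pos _).le (hF x))
      _ ≤ Real.exp (-(x₁ / 3)) * (C₃ * η ^ (-(5 / 3 * k + 1) : ℝ)) := by gcongr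
      _ = _ := by
          have e : -(x₁ / 3) = (-(1 / 3)) * (k * Real.log η) + -(A / 3) := by rw [hx₁]; ring
          rw [e, hexp]
          have e2 : η ^ (-(1 / 3) * k : ℝ) * η ^ (-(5 / 3 * k + 1) : ℝ) = η ^ (-(2 * k + 1) : ℝ) := by
            rw [← Real.rpow_add hη0]
            congr 1
            ring
          rw [← e2]
          ring
  -- the middle part
  have hsplit : ∫ x, Real.exp (-x) * F x = (∫ x in Iic x₀, Real.exp (-x) * F x) +
      (∫ x in Ioc x₀ x₁, Real.exp (-x) * F x) + ∫ x in Ioi x₁, Real.exp (-x) * F x := by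
    rw [← intervalIntegral.integral_Iic_add_Ioi (b := x₀) i1.integrableOn i1.integrableOn,
      ← Ioc_union_Ioi_eq_Ioi hx01, setIntegral_union Ioc_disjoint_Ioi_same measurableSet_Ioi
      i1.integrableOn i1.integrableOn]
    ring
  have hη1 : 0 < η ^ (-(2 * k + 1) : ℝ) := Real.rpow_pos_of_pos hη0 _
  have hmid : c₁ / 2 * η ^ (-(2 * k + 1) : ℝ) ≤ ∫ x in Ioc x₀ x₁, Real.exp (-x) * F x := by
    have : (C₂ * Real.exp (-(A / 3)) + C₃ * Real.exp (-(A / 3))) * η ^ (-(2 * k + 1) : ℝ) ≤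
        c₁ / 2 * η ^ (-(2 * k + 1) : ℝ) := by
      gcongr
      linarith
    linarith
  have iF : IntegrableOn F (Ioc x₀ x₁) := by
    have : F = fun x => Real.exp x * (Real.exp (-x) * F x) := by
      funext x
      rw [← mul_assoc, ← Real.exp_add]
      simp
    rw [this]
    have h := i1.integrableOn (s := Ioc x₀ x₁)
    refine Integrable.bdd_mul (c := Real.exp x₁) h (by fun_prop) ?_
    filter_upwards [ae_restrict_mem measurableSet_Ioc] with x hx
    rw [Real.norm_of_nonneg (Real.exp_pos _).le]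
    exact Real.exp_le_exp.2 hx.2
  have hup : ∫ x in Ioc x₀ x₁, Real.exp (-x) * F x ≤
      Real.exp (-x₀) * ∫ x in Ioc x₀ x₁, F x := by
    rw [← integral_const_mul]
    refine setIntegral_mono_on i1.integrableOn (iF.const_mul _) measurableSet_Ioc fun x hx => ?_
    refine mul_le_mul_of_nonneg_right (Real.exp_le_exp.2 ?_) (hF x)
    linarith [hx.1]
  have e0 : Real.exp (-x₀) = η ^ (-k : ℝ) * Real.exp A := by
    have e : -x₀ = (-1) * (k * Real.log η) + A := by rw [hx₀]; ring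
    rw [e, hexp]
    congr 2
    ring
  rw [intervalIntegral.integral_of_le hx01]
  have h5 : c₁ / 2 * η ^ (-(2 * k + 1) : ℝ) ≤ η ^ (-k : ℝ) * Real.exp A *
      ∫ x in Ioc x₀ x₁, F x := by
    rw [← e0]
    exact hmid.trans hup
  have h6 : η ^ (-(2 * k + 1) : ℝ) = η ^ (-k : ℝ) * η ^ (-(k + 1) : ℝ) := by
    rw [← Real.rpow_add hη0]
    congr 1
    ring
  have hk0 : 0 < η ^ (-k : ℝ) := Real.rpow_pos_of_pos hη0 _
  rw [h6] at h5
  have h7 : c₁ / 2 * η ^ (-(k + 1) : ℝ) ≤ Real.exp A * ∫ x in Ioc x₀ x₁, F x := by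
    have : η ^ (-k : ℝ) * (c₁ / 2 * η ^ (-(k + 1) : ℝ)) ≤
        η ^ (-k : ℝ) * (Real.exp A * ∫ x in Ioc x₀ x₁, F x) := by
      calc _ = c₁ / 2 * (η ^ (-k : ℝ) * η ^ (-(k + 1) : ℝ)) := by ring
        _ ≤ _ := h5
        _ = _ := by ring
    exact le_of_mul_le_mul_left this hk0
  calc c₁ / 2 * Real.exp (-A) * η ^ (-(k + 1) : ℝ) =
      Real.exp (-A) * (c₁ / 2 * η ^ (-(k + 1) : ℝ)) := by ring
    _ ≤ Real.exp (-A) * (Real.exp A * ∫ x in Ioc x₀ x₁, F x) := by gcongr
    _ = _ := by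
        rw [← mul_assoc, ← Real.exp_add]
        simp

end Pool.Agent.H26
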