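import Mathlib

/-!
Auxiliary definitions for the omega theorem.
-/

namespace Pool.Agent.H26

open Complex MeasureTheory Set

/-- coefficients of `∏ ζ(w + i a)` -/
noncomputable def aco : List ℝ → ℕ → ℂ
  | [] => LSeries.delta
  | a :: l => LSeries.convolution (fun n => (n : ℂ) ^ (-(I * a))) (aco l)

/-- the continuation of `∑ aco l n Φ(n) n^{-w}` -/
noncomputable def AA {N : ℕ} [NeZero N] : List ℝ → (ZMod N → ℂ) → ℂ → ℂ
  | [], Φ, _ => Φ 1
  | a :: l, Φ, w => ∑ r : ZMod N, ZMod.LFunction (Pi.single r (1 : ℂ)) (w + I * a) *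
      AA l (fun x => Φ (x * r)) w

/-- `∏ ζ(w + i a)` -/
noncomputable def zprod (l : List ℝ) (w : ℂ) : ℂ := (l.map fun a : ℝ => riemannZeta (w + I * a)).prod

/-- the Gaussian density of variance `1/L`, as a function of a complex variable -/
noncomputable def gau (L : ℝ) (z : ℂ) : ℂ :=
  (Real.sqrt (L / (2 * Real.pi)) : ℂ) * cexp (-(L * z ^ 2 / 2))

/-- the coefficients of the averaged product -/
noncomputable def cmu (l : List ℝ) (R Y L : ℝ) (m : ℕ) : ℂ :=
  aco (l.map Neg.neg) m * (m : ℂ) ^ (-(1 / 2 + Y : ℂ)) *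
    ∫ x in (-R)..R, gau L x * (m : ℂ) ^ (I * x)

/-- `log (1 + e^z)` -/
noncomputable def lam (z : ℂ) : ℂ := Complex.log (1 + cexp z)

/-- the transform of the error term -/
noncomputable def hE (b : ℝ) (f : ℝ → ℂ) (z : ℂ) : ℂ :=
  I * lam z * ∫ t in Ioi (0:ℝ), f t * cexp (-((1 / 2 + I * (t + b)) * lam z))

end Pool.Agent.H26
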