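import Pool.Agent.H26.QPart
import Pool.Agent.H26.MeanSq
import Pool.Agent.H26.OmDefs

/-!
Regularity of transforms of polynomially bounded functions, and mean squares of differences.
-/

namespace Pool.Agent.H26

open Complex MeasureTheory Set Filter Topology Pool.Agent.H95fa

/-- the lower half strip -/
def Stm : Set ℂ := {z | z ∈ St ∧ z.im < 0}

lemma isOpen_Stm : IsOpen Stm := isOpen_St.inter (isOpen_lt continuous_im continuous_const)

lemma norm_KQ_real_le {b : ℝ} (hb : 0 ≤ b) {z : ℂ} (hz : z ∈ Stm) {t u : ℝ} (ht : 0 ≤ t)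
    (hu : u ≤ 1 / 4 * |z.im| * Real.exp (-|z.re|)) :
    ‖KQ b z t‖ ≤ Real.exp (-(u * t)) := by
  have hz' : |z.im| ≤ 1 / 2 := le_of_lt hz.1
  have h2 := lam_im_neg_lower hz' hz.2.le
  have h3 := lam_re_pos hz'
  rw [norm_KQ]
  apply Real.exp_le_exp.2
  simp only [ofReal_re, ofReal_im, neg_zero, zero_mul, add_zero]
  have h4 : 0 < 1 / 4 * |z.im| * Real.exp (-|z.re|) := by
    have : 0 < |z.im| := abs_pos.2 hz.2.ne
    positivity
  have h5 : b * (lam z).im ≤ 0 := mul_nonpos_of_nonneg_of_nonpos hb (by linarith)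
  have h6 : t * u ≤ t * (-(lam z).im) := by
    gcongr
    linarith
  linarith

lemma continuous_KQ (b : ℝ) (z : ℂ) : Continuous fun t : ℝ => KQ b z t := by
  unfold KQ; fun_prop

lemma integrableOn_poly_exp {q u : ℝ} (hu : 0 < u) :
    IntegrableOn (fun t : ℝ => (1 + t) ^ q * Real.exp (-(u * t))) (Ioi 0) := by
  have h := (integrable_poly_exp q hu).integrableOn (s := Ioi 0)
  refine h.congr_fun (fun t ht => ?_) measurableSet_Ioi
  have ht' : (0:ℝ) < t := ht
  simp only [abs_of_pos ht']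

lemma integrableOn_mul_KQ {b : ℝ} (hb : 0 ≤ b) {F : ℝ → ℂ}
    (hF : AEStronglyMeasurable F (volume.restrict (Ioi 0))) {M q : ℝ}
    (hM : ∀ t : ℝ, 0 < t → ‖F t‖ ≤ M * (1 + t) ^ q) {z : ℂ} (hz : z ∈ Stm) :
    IntegrableOn (fun t : ℝ => F t * KQ b z t) (Ioi 0) := by
  have hu : 0 < 1 / 4 * |z.im| * Real.exp (-|z.re|) := by
    have : 0 < |z.im| := abs_pos.2 hz.2.ne
    positivity
  refine Integrable.mono' ((integrableOn_poly_exp (q := q) hu).const_mul M)
    (hF.mul (continuous_KQ b z).aestronglyMeasurable) ?_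
  filter_upwards [ae_restrict_mem measurableSet_Ioi] with t ht
  have ht' : (0:ℝ) < t := ht
  rw [norm_mul, ← mul_assoc]
  exact mul_le_mul (hM t ht') (norm_KQ_real_le hb hz ht'.le le_rfl) (norm_nonneg _)
    ((norm_nonneg _).trans (hM t ht'))

lemma exists_norm_integral_mul_KQ_le {q : ℝ} (hq : 0 ≤ q) : ∃ C : ℝ, 0 < C ∧ ∀ {b : ℝ}, 0 ≤ b →
    ∀ {F : ℝ → ℂ} {M : ℝ}, 0 ≤ M → (∀ t : ℝ, 0 < t → ‖F t‖ ≤ M * (1 + t) ^ q) → ∀ {z : ℂ},
    z ∈ Stm → ∀ u : ℝ, 0 < u → u ≤ 1 / 4 * |z.im| * Real.exp (-|z.re|) →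
    ‖∫ t in Ioi (0:ℝ), F t * KQ b z t‖ ≤ C * M * u ^ (-(q + 1)) := by
  obtain ⟨C, hC0, hC⟩ := integral_poly_exp_le hq
  refine ⟨C * (2:ℝ) ^ (q + 1), by positivity, ?_⟩
  intro b hb F M hM0 hM z hz u hu0 hu
  have hz' : |z.im| ≤ 1 / 2 := le_of_lt hz.1
  have hu1 : u ≤ 1 := by
    have h1 : Real.exp (-|z.re|) ≤ 1 := by
      rw [Real.exp_le_one_iff]
      linarith [abs_nonneg z.re]
    have h2 : 1 / 4 * |z.im| * Real.exp (-|z.re|) ≤ 1 / 4 * (1 / 2) * 1 := by gcongr
    linarith
  have h1 : ∀ t ∈ Ioi (0:ℝ), ‖F t * KQ b z t‖ ≤ M * ((1 + t) ^ q * Real.exp (-(u * t))) := by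
    intro t ht
    have ht' : (0:ℝ) < t := ht
    rw [norm_mul, ← mul_assoc]
    exact mul_le_mul (hM t ht') (norm_KQ_real_le hb hz ht'.le hu) (norm_nonneg _)
      ((norm_nonneg _).trans (hM t ht'))
  have hi := integrableOn_poly_exp (q := q) hu0
  calc ‖∫ t in Ioi (0:ℝ), F t * KQ b z t‖ ≤
      ∫ t in Ioi (0:ℝ), M * ((1 + t) ^ q * Real.exp (-(u * t))) := by
        refine norm_integral_le_of_norm_le (hi.const_mul M) ?_
        filter_upwards [ae_restrict_mem measurableSet_Ioi] with t ht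
        exact h1 t ht
    _ = M * ∫ t in Ioi (0:ℝ), (1 + t) ^ q * Real.exp (-(u * t)) := integral_const_mul _ _
    _ ≤ M * ∫ t : ℝ, (1 + |t|) ^ q * Real.exp (-(2 * (u / 2) * |t|)) := by
        gcongr
        have e : ∫ t in Ioi (0:ℝ), (1 + t) ^ q * Real.exp (-(u * t)) =
            ∫ t in Ioi (0:ℝ), (1 + |t|) ^ q * Real.exp (-(2 * (u / 2) * |t|)) := by
          refine setIntegral_congr_fun measurableSet_Ioi fun t ht => ?_
          have ht' : (0:ℝ) < t := ht
          simp only [abs_of_pos ht']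
          ring_nf
        rw [e]
        refine setIntegral_le_integral (integrable_poly_exp q (by linarith))
          (Eventually.of_forall fun t => by positivity)
    _ ≤ M * (C * (u / 2) ^ (-(q + 1))) := by
        gcongr
        exact hC (u / 2) (by linarith) (by linarith)
    _ = _ := by
        have e : (u / 2) ^ (-(q + 1)) = (2:ℝ) ^ (q + 1) * u ^ (-(q + 1)) := by
          rw [Real.div_rpow hu0.le (by norm_num), Real.rpow_neg (by norm_num : (0:ℝ) ≤ 2),
            div_inv_eq_mul, mul_comm]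
        rw [e]
        ring

lemma differentiableOn_hE {b : ℝ} (hb : 0 ≤ b) {f : ℝ → ℂ} (hf : Continuous f) {M a : ℝ}
    (hM : ∀ t : ℝ, 0 ≤ t → ‖f t‖ ≤ M * (1 + t) ^ a) : DifferentiableOn ℂ (hE b f) Stm := by
  have h1 : DifferentiableOn ℂ (fun z => ∫ t in Ioi (0:ℝ), f t * KQ b z t) Stm := by
    refine differentiableOn_integral_of_locally_majorant
      (Φ := fun z (t : ℝ) => f t * KQ b z t) isOpen_Stm (fun z hz => ?_)
      (Eventually.of_forall fun t => ?_) (fun z₀ hz₀ => ?_)
    · exact (hf.mul (continuous_KQ b z)).aestronglyMeasurable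
    · intro z hz
      have h1 : DifferentiableWithinAt ℂ lam Stm z :=
        (differentiableOn_lam z hz.1).mono fun w hw => hw.1
      unfold KQ
      exact (DifferentiableWithinAt.cexp ((h1.const_mul _).neg)).const_mul _
    · have him0 : 0 < |z₀.im| := abs_pos.2 hz₀.2.ne
      have hc : 0 < 1 / 8 * |z₀.im| * Real.exp (-(|z₀.re| + 1)) := by positivity
      refine ⟨Stm ∩ ({z | |z.re| < |z₀.re| + 1} ∩ {z | |z₀.im| / 2 < |z.im|}), ?_,
        fun t => M * ((1 + t) ^ a *
        Real.exp (-((1 / 8 * |z₀.im| * Real.exp (-(|z₀.re| + 1))) * t))),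
        (integrableOn_poly_exp (q := a) hc).const_mul M, ?_⟩
      · refine inter_mem (isOpen_Stm.mem_nhds hz₀) (inter_mem ?_ ?_)
        · exact (isOpen_lt (by fun_prop) continuous_const).mem_nhds (by simp)
        · refine (isOpen_lt continuous_const (by fun_prop)).mem_nhds ?_
          show |z₀.im| / 2 < |z₀.im|
          linarith
      · filter_upwards [ae_restrict_mem measurableSet_Ioi] with t ht z hz
        have ht' : (0:ℝ) < t := ht
        rw [norm_mul, ← mul_assoc]
        refine mul_le_mul (hM t ht'.le) (norm_KQ_real_le hb hz.1 ht'.le ?_) (norm_nonneg _)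
          ((norm_nonneg _).trans (hM t ht'.le))
        have h3 : |z.re| < |z₀.re| + 1 := hz.2.1
        have h4 : |z₀.im| / 2 < |z.im| := hz.2.2
        calc 1 / 8 * |z₀.im| * Real.exp (-(|z₀.re| + 1)) =
            1 / 4 * (|z₀.im| / 2) * Real.exp (-(|z₀.re| + 1)) := by ring
          _ ≤ _ := by gcongr
  have h2 : DifferentiableOn ℂ (fun z => I * lam z) Stm := fun z hz =>
    ((differentiableOn_lam z hz.1).mono fun w hw => hw.1).const_mul I
  exact h2.mul h1

/-- mean square of iterated differences -/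
lemma integral_dd_sq_le {η y : ℝ} (hη : 0 ≤ η) (m : ℕ) : ∀ {F : ℂ → ℂ},
    (Continuous fun x : ℝ => F (x + y * I)) → ∀ {u v : ℝ}, u ≤ v →
    ∫ x in u..v, ‖(dd η)^[m] F (x + y * I)‖ ^ 2 ≤
      4 ^ m * ∫ x in u..(v + m * η), ‖F (x + y * I)‖ ^ 2 := by
  induction m with
  | zero => intro F hF u v huv; simp
  | succ m ih =>
    intro F hF u v huv
    have e0 : ∀ x : ℝ, (x : ℂ) + y * I + η = ((x + η : ℝ) : ℂ) + y * I := by
      intro x
      push_cast
      ring
    have hF' : Continuous fun x : ℝ => F ((x + η : ℝ) + y * I) :=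
      hF.comp (continuous_id.add continuous_const)
    have hdd : Continuous fun x : ℝ => dd η F (x + y * I) := by
      unfold dd
      simp only [e0]
      exact hF'.sub hF
    rw [Function.iterate_succ_apply]
    refine (ih hdd huv).trans ?_
    have hv : u ≤ v + m * η := by
      have : 0 ≤ (m : ℝ) * η := by positivity
      linarith
    have hv' : v + m * η ≤ v + (m + 1 : ℕ) * η := by
      push_cast
      linarith
    have h1 : ∫ x in u..(v + m * η), ‖dd η F (x + y * I)‖ ^ 2 ≤
        2 * (∫ x in u..(v + m * η), ‖F ((x + η : ℝ) + y * I)‖ ^ 2) +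
        2 * ∫ x in u..(v + m * η), ‖F (x + y * I)‖ ^ 2 := by
      rw [← intervalIntegral.integral_const_mul, ← intervalIntegral.integral_const_mul,
        ← intervalIntegral.integral_add]
      · refine intervalIntegral.integral_mono_on hv ?_ ?_ fun x _ => ?_
        · exact (hdd.norm.pow 2).intervalIntegrable _ _
        · exact ((continuous_const.mul (hF'.norm.pow 2)).add
            (continuous_const.mul (hF.norm.pow 2))).intervalIntegrable _ _
        · unfold dd
          rw [e0]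
          have h2 := norm_sub_le (F ((x + η : ℝ) + y * I)) (F (x + y * I))
          have h3 := norm_nonneg (F ((x + η : ℝ) + y * I) - F (x + y * I))
          have h4 := norm_nonneg (F ((x + η : ℝ) + y * I))
          have h5 := norm_nonneg (F (x + y * I))
          nlinarith [sq_nonneg (‖F ((x + η : ℝ) + y * I)‖ - ‖F (x + y * I)‖)]
      · exact (continuous_const.mul (hF'.norm.pow 2)).intervalIntegrable _ _
      · exact (continuous_const.mul (hF.norm.pow 2)).intervalIntegrable _ _
    have h2 : ∫ x in u..(v + m * η), ‖F ((x + η : ℝ) + y * I)‖ ^ 2 =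
        ∫ x in (u + η)..(v + m * η + η), ‖F (x + y * I)‖ ^ 2 :=
      intervalIntegral.integral_comp_add_right (fun x : ℝ => ‖F (x + y * I)‖ ^ 2) η
    have h3 : ∫ x in (u + η)..(v + m * η + η), ‖F (x + y * I)‖ ^ 2 ≤
        ∫ x in u..(v + (m + 1 : ℕ) * η), ‖F (x + y * I)‖ ^ 2 := by
      have e : v + m * η + η = v + (m + 1 : ℕ) * η := by push_cast; ring
      rw [e]
      refine intervalIntegral.integral_mono_interval (by linarith) ?_ le_rfl
        (Eventually.of_forall fun x => by positivity) ((hF.norm.pow 2).intervalIntegrable _ _)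
      push_cast
      linarith
    have h4 : ∫ x in u..(v + m * η), ‖F (x + y * I)‖ ^ 2 ≤
        ∫ x in u..(v + (m + 1 : ℕ) * η), ‖F (x + y * I)‖ ^ 2 :=
      intervalIntegral.integral_mono_interval le_rfl hv hv'
        (Eventually.of_forall fun x => by positivity) ((hF.norm.pow 2).intervalIntegrable _ _)
    rw [h2] at h1
    calc 4 ^ m * ∫ x in u..(v + m * η), ‖dd η F (x + y * I)‖ ^ 2 ≤
        4 ^ m * (4 * ∫ x in u..(v + (m + 1 : ℕ) * η), ‖F (x + y * I)‖ ^ 2) := by
          gcongr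
          linarith
      _ = _ := by ring

end Pool.Agent.H26
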