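import Pool.Agent.H26.DSer

/-!
The Euler product of `ζ_(a,b)` and Dirichlet series.
-/

set_option autoImplicit false

namespace Pool.Agent.H26

open Complex Finset Filter Topology ArithmeticFunction

variable {ι : Type*} [Fintype ι] [DecidableEq ι]

/-- The coefficients of the diagonal Dirichlet series. -/
noncomputable def dcoef (S : Finset ι) (c : ι → ℝ) (n : ℕ) : ℂ :=
  AF S (fun j => (c j : ℂ)) n * AF Sᶜ (fun j => ((-c j : ℝ) : ℂ)) n

lemma norm_dcoef_le (S : Finset ι) (c : ι → ℝ) (n : ℕ) :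
    ‖dcoef S c n‖ ≤ (n.divisors.card : ℝ) ^ (Fintype.card ι) := by
  unfold dcoef
  rw [norm_mul, ← Finset.card_add_card_compl S, pow_add]
  exact mul_le_mul (norm_AF_le _ _ _) (norm_AF_le _ _ _) (norm_nonneg _) (by positivity)

lemma exists_norm_dcoef_le (K : ℕ) {ε : ℝ} (hε : 0 < ε) : ∃ C : ℝ, 1 ≤ C ∧
    ∀ (ι : Type) [Fintype ι] [DecidableEq ι], Fintype.card ι = K → ∀ (S : Finset ι) (c : ι → ℝ)
      (n : ℕ), n ≠ 0 → ‖dcoef S c n‖ ≤ C * (n : ℝ) ^ ε := by
  obtain ⟨C, hC1, hC⟩ := card_divisors_pow_le K hε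
  refine ⟨C, hC1, fun ι _ _ hι S c n hn => ?_⟩
  have h := norm_dcoef_le S c n
  rw [hι] at h
  exact h.trans (hC n hn)

lemma LSeriesSummable_of_norm_le_divisors {f : ℕ → ℂ} {K : ℕ}
    (hf : ∀ n, ‖f n‖ ≤ (n.divisors.card : ℝ) ^ K) {s : ℂ} (hs : 1 < s.re) :
    LSeriesSummable f s := by
  obtain ⟨C, _, hC⟩ := card_divisors_pow_le K (ε := (s.re - 1) / 2) (by linarith)
  refine LSeriesSummable_of_le_const_mul_rpow (x := (s.re - 1) / 2 + 1) (by linarith)
    ⟨C, fun n hn => ?_⟩
  refine ((hf n).trans (hC n hn)).trans (le_of_eq ?_)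
  ring_nf

lemma LSeriesSummable_dcoef (S : Finset ι) (c : ι → ℝ) {s : ℂ} (hs : 1 < s.re) :
    LSeriesSummable (dcoef S c) s :=
  LSeriesSummable_of_norm_le_divisors (norm_dcoef_le S c) hs

omit [Fintype ι] in
lemma LSeriesSummable_AF (S : Finset ι) (c : ι → ℝ) {s : ℂ} (hs : 1 < s.re) :
    LSeriesSummable (fun n => AF S (fun j => (c j : ℂ)) n) s :=
  LSeriesSummable_of_norm_le_divisors (norm_AF_le S c) hs

lemma LSeries_pw (x : ℝ) {s : ℂ} (hs : 1 < s.re) :
    LSeries (fun n => pw (x : ℂ) n) s = riemannZeta (s + I * x) := by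
  have hre : (s + I * x).re = s.re := by simp
  rw [← LSeries_one_eq_riemannZeta (s := s + I * x) (by rw [hre]; exact hs)]
  unfold LSeries
  refine tsum_congr fun n => ?_
  by_cases hn : n = 0
  · subst hn; simp
  · have hn' : (n : ℂ) ≠ 0 := by exact_mod_cast hn
    rw [LSeries.term_of_ne_zero hn, LSeries.term_of_ne_zero hn, pw_apply _ hn, Pi.one_apply,
      Complex.cpow_add _ _ hn', Complex.cpow_neg]
    field_simp

omit [Fintype ι] in
lemma LSeries_AF (S : Finset ι) (c : ι → ℝ) {s : ℂ} (hs : 1 < s.re) :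
    LSeries (fun n => AF S (fun j => (c j : ℂ)) n) s = ∏ j ∈ S, riemannZeta (s + I * c j) := by
  induction S using Finset.induction_on with
  | empty =>
    rw [Finset.prod_empty, AF_empty]
    have h1 : (fun n => (1 : ArithmeticFunction ℂ) n) = LSeries.delta := by
      funext n
      rw [ArithmeticFunction.one_apply]
      rfl
    rw [h1, LSeries_delta]
    rfl
  | insert i S hi ih =>
    rw [Finset.prod_insert hi, AF_insert hi, ← ih, ← LSeries_pw _ hs]
    refine ArithmeticFunction.LSeries_mul' ?_ (LSeriesSummable_AF S c hs)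
    refine LSeriesSummable_of_bounded_of_one_lt_re (m := 1) (fun n _ => norm_pw_le _ _) hs

omit [Fintype ι] in
lemma hsum_congr (S : Finset ι) {x y : ι → ℂ} (h : ∀ j ∈ S, x j = y j) (m : ℕ) :
    hsum S x m = hsum S y m := by
  unfold hsum
  exact Finset.sum_congr rfl fun e _ => Finset.prod_congr rfl fun j hj => by rw [h j hj]

lemma isMultiplicative_term (S : Finset ι) (c : ι → ℝ) (s : ℂ) {m n : ℕ} (h : m.Coprime n) :
    LSeries.term (dcoef S c) s (m * n) =
      LSeries.term (dcoef S c) s m * LSeries.term (dcoef S c) s n := by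
  by_cases hm : m = 0
  · subst hm; simp
  by_cases hn : n = 0
  · subst hn; simp
  rw [LSeries.term_of_ne_zero hm, LSeries.term_of_ne_zero hn,
    LSeries.term_of_ne_zero (mul_ne_zero hm hn), Nat.cast_mul, natCast_mul_natCast_cpow]
  unfold dcoef
  rw [(isMultiplicative_AF S _).map_mul_of_coprime h,
    (isMultiplicative_AF Sᶜ _).map_mul_of_coprime h]
  field_simp

lemma norm_prime_cpow_lt_one {p : ℕ} (hp : p.Prime) {s : ℂ} (hs : 0 < s.re) :
    ‖(p : ℂ) ^ (-s)‖ < 1 := by
  rw [Complex.norm_natCast_cpow_of_pos hp.pos]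
  exact Real.rpow_lt_one_of_one_lt_of_neg (by exact_mod_cast hp.one_lt) (by simpa using hs)

/-- In the region of absolute convergence `ζ_(a,b)` is its defining Dirichlet series. -/
theorem zetaAB_eq_LSeries (S : Finset ι) (c : ι → ℝ) {γ : ι → ℂ} {z : ℂ} (hγ : γ ∈ tube ι)
    (hS : ∀ i ∈ S, γ i = c i + z) (hSc : ∀ i ∈ Sᶜ, γ i = c i - z) (hz : z.im < 0) :
    zetaAB S γ = LSeries (dcoef S c) (1 + 2 * I * z) := by
  set s : ℂ := 1 + 2 * I * z with hs
  have hsre : s.re = 1 - 2 * z.im := by simp [hs]; ring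
  have hs1 : 1 < s.re := by rw [hsre]; linarith
  -- the Euler factors
  have hloc : HasProd (fun p : Nat.Primes => localF S γ p) (eulerF S γ) := by
    have hsum : Summable fun p : Nat.Primes => ‖localF S γ p - 1‖ :=
      (summable_uF _).of_nonneg_of_le (fun _ => norm_nonneg _)
        fun p => norm_localF_sub_one_le_uF hγ p
    have hm := multipliable_one_add_of_summable hsum
    have e : (fun p : Nat.Primes => 1 + (localF S γ p - 1)) =
        fun p : Nat.Primes => localF S γ p := by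
      funext p; ring
    rw [e] at hm
    exact hm.hasProd
  have hre : ∀ i ∈ S, ∀ l ∈ Sᶜ, 1 < (1 + I * (γ i - γ l)).re := by
    intro i hi l hl
    rw [hS i hi, hSc l hl]
    simp
    linarith
  have hz1 : HasProd (fun p : Nat.Primes => ∏ i ∈ S, ∏ l ∈ Sᶜ,
      (1 - (p : ℂ) ^ (-(1 + I * (γ i - γ l))))⁻¹)
      (∏ i ∈ S, ∏ l ∈ Sᶜ, riemannZeta (1 + I * (γ i - γ l))) := by
    refine hasProd_prod fun i hi => hasProd_prod fun l hl => ?_
    exact riemannZeta_eulerProduct_hasProd (hre i hi l hl)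
  have h1 := hloc.mul hz1
  -- the other side
  have h2 := EulerProduct.eulerProduct_hasProd (f := LSeries.term (dcoef S c) s) ?_ ?_
    (LSeriesSummable_dcoef S c hs1).norm (LSeries.term_zero _ _)
  · have hfun : (fun p : Nat.Primes => localF S γ p * ∏ i ∈ S, ∏ l ∈ Sᶜ,
        (1 - (p : ℂ) ^ (-(1 + I * (γ i - γ l))))⁻¹) =
        fun p : Nat.Primes => ∑' e, LSeries.term (dcoef S c) s ((p : ℕ) ^ e) := by
      funext p
      have hp := p.2
      have hp0 : ((p : ℕ) : ℂ) ≠ 0 := by exact_mod_cast hp.ne_zero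
      have hne : ∏ i ∈ S, ∏ l ∈ Sᶜ, (1 - ((p : ℕ) : ℂ) ^ (-(1 + I * (γ i - γ l)))) ≠ 0 := by
        refine Finset.prod_ne_zero_iff.2 fun i hi => Finset.prod_ne_zero_iff.2 fun l hl h => ?_
        have h3 := norm_prime_cpow_lt_one hp (s := 1 + I * (γ i - γ l))
          (by linarith [hre i hi l hl])
        rw [← sub_eq_zero.1 h, norm_one] at h3
        exact lt_irrefl _ h3
      unfold localF
      simp only [Finset.prod_inv_distrib]
      rw [mul_assoc, mul_inv_cancel₀ hne, mul_one]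
      refine tsum_congr fun e => ?_
      rw [LSeries.term_of_ne_zero (pow_ne_zero _ hp.ne_zero)]
      unfold dcoef
      rw [AF_prime_pow _ _ hp, AF_prime_pow _ _ hp]
      have e1 : hsum S (fun j => ((p : ℕ) : ℂ) ^ (-(I * γ j))) e =
          (((p : ℕ) : ℂ) ^ (-(I * z))) ^ e * hsum S (fun j => ((p : ℕ) : ℂ) ^ (-(I * c j))) e := by
        rw [← hsum_const_mul]
        refine hsum_congr S (fun j hj => ?_) e
        rw [hS j hj, ← Complex.cpow_add _ _ hp0]
        congr 1
        ring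
      have e2 : hsum Sᶜ (fun j => ((p : ℕ) : ℂ) ^ (I * γ j)) e =
          (((p : ℕ) : ℂ) ^ (-(I * z))) ^ e *
            hsum Sᶜ (fun j => ((p : ℕ) : ℂ) ^ (-(I * ((-c j : ℝ) : ℂ)))) e := by
        rw [← hsum_const_mul]
        refine hsum_congr Sᶜ (fun j hj => ?_) e
        rw [hSc j hj, ← Complex.cpow_add _ _ hp0]
        congr 1
        push_cast
        ring
      rw [e1, e2, Nat.cast_pow, div_eq_mul_inv]
      have e3 : ((((p : ℕ) : ℂ) ^ e) ^ s)⁻¹ = (((p : ℕ) : ℂ) ^ (-(I * z))) ^ e *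
          (((p : ℕ) : ℂ) ^ (-(I * z))) ^ e * (((p : ℕ) : ℂ)⁻¹) ^ e := by
        have hinv : (((p : ℕ) : ℂ))⁻¹ = ((p : ℕ) : ℂ) ^ (-1 : ℂ) :=
          (Complex.cpow_neg_one _).symm
        rw [hinv, ← Complex.cpow_neg, ← mul_pow, ← mul_pow, ← Complex.cpow_add _ _ hp0,
          ← Complex.cpow_add _ _ hp0, ← Complex.cpow_nat_mul,
          ← Complex.natCast_cpow_natCast_mul]
        congr 1
        rw [hs]
        ring
      rw [e3]
      ring
    rw [hfun] at h1
    have h3 := h1.unique h2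
    unfold zetaAB
    rw [h3]
    rfl
  · rw [LSeries.term_of_ne_zero one_ne_zero]
    unfold dcoef
    rw [(isMultiplicative_AF S _).map_one, (isMultiplicative_AF Sᶜ _).map_one]
    simp
  · intro m n h
    exact isMultiplicative_term S c s h

end Pool.Agent.H26
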