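import Pool.Agent.H26.Shifts
import Pool.Agent.H26.Eval

/-!
The averaged product as a product of two zeta products and a Dirichlet series.
-/

namespace Pool.Agent.H26

open Complex MeasureTheory Set Filter Topology Pool.Agent.H95fa

variable {n : ℕ}

/-- the shifts of the first product, relative to `b` -/
noncomputable def las (p : Ix (n + 1) → ℝ) : List ℝ :=
  List.ofFn fun j : Fin (n + 1) => p (Sum.inl j) - p (Sum.inr 0)

/-- the shifts over which we average -/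
noncomputable def csl (p : Ix (n + 1) → ℝ) : List ℝ :=
  List.ofFn fun l : Fin n => p (Sum.inr l.succ)

lemma length_las (p : Ix (n + 1) → ℝ) : (las p).length = n + 1 := by simp [las]

lemma length_csl (p : Ix (n + 1) → ℝ) : (csl p).length = n := by simp [csl]

lemma zprod_ofFn {m : ℕ} (f : Fin m → ℝ) (w : ℂ) :
    zprod (List.ofFn f) w = ∏ j, riemannZeta (w + I * f j) := by
  unfold zprod
  rw [List.map_ofFn, List.prod_ofFn]
  rfl

lemma Zc_gamc (p : Ix (n + 1) → ℝ) (R x t : ℝ) : Zc (gamc p R x) t =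
    riemannZeta (1 / 2 - I * (t + p (Sum.inr 0))) * zprod (las p) (1 / 2 + I * (t + p (Sum.inr 0))) *
      zprod ((csl p).map Neg.neg) (1 / 2 - I * (t + clp R x)) := by
  unfold Zc las csl
  rw [Finset.prod_mul_distrib, List.map_ofFn, zprod_ofFn, zprod_ofFn, Fin.prod_univ_succ
    (f := fun j : Fin (n + 1) => riemannZeta (1 / 2 - I * (t + gamc p R x (Sum.inr j))))]
  have e0 : gamc p R x (Sum.inr 0) = p (Sum.inr 0) := rfl
  have e1 : ∀ j, gamc p R x (Sum.inl j) = p (Sum.inl j) := fun j => rfl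
  have e2 : ∀ l : Fin n, gamc p R x (Sum.inr l.succ) = p (Sum.inr l.succ) + clp R x := by
    intro l
    show ((p (Sum.inr l.succ) + clp R x : ℝ) : ℂ) = _
    push_cast
    rfl
  simp only [e0, e1, e2]
  have h1 : ∏ j, riemannZeta (1 / 2 + I * ((t : ℂ) + p (Sum.inl j))) =
      ∏ j, riemannZeta (1 / 2 + I * (t + p (Sum.inr 0)) +
        I * ((p (Sum.inl j) - p (Sum.inr 0) : ℝ) : ℂ)) := by
    refine Finset.prod_congr rfl fun j _ => ?_
    congr 1
    push_cast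
    ring
  have h2 : ∏ l : Fin n, riemannZeta (1 / 2 - I * ((t : ℂ) + (p (Sum.inr l.succ) + clp R x))) =
      ∏ l : Fin n, riemannZeta (1 / 2 - I * (t + clp R x) +
        I * (((Neg.neg ∘ fun l : Fin n => p (Sum.inr l.succ)) l : ℝ) : ℂ)) := by
    refine Finset.prod_congr rfl fun j _ => ?_
    congr 1
    simp only [Function.comp_apply]
    push_cast
    ring
  rw [h1, h2]
  ring

/-- the coefficients of the averaged product -/
noncomputable def cc (p : Ix (n + 1) → ℝ) (R Y L : ℝ) (m : ℕ) : ℂ := cmu (csl p) R Y L (m + 1)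

/-- the error in the averaged product -/
noncomputable def errA (p : Ix (n + 1) → ℝ) (R Y L t : ℝ) : ℂ :=
  (∫ x in (-R)..R, gau L (x - Y * I) * zprod ((csl p).map Neg.neg) (1 / 2 - I * (t + x))) -
      ∫ x in (-R)..R, gau L x * zprod ((csl p).map Neg.neg) (1 / 2 + Y - I * (t + x))

lemma tsum_cmu (l : List ℝ) (R Y L : ℝ) (w : ℂ) :
    ∑' m : ℕ, cmu l R Y L m * (m : ℂ) ^ w = Hs (fun m => cmu l R Y L (m + 1)) w := by
  unfold Hs
  have h := Function.Injective.tsum_eq (g := Nat.succ) Nat.succ_injective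
    (f := fun m : ℕ => cmu l R Y L m * (m : ℂ) ^ w) ?_
  · exact h.symm
  · intro m hm
    rcases Nat.eq_zero_or_pos m with h | h
    · subst h
      exfalso
      apply hm
      simp [cmu, aco_zero]
    · exact ⟨m - 1, by simp; omega⟩

lemma Zav_eq {R Y L : ℝ} (hY : 1 ≤ Y) (hR : 0 ≤ R) (hL : 0 < L) (p : Ix (n + 1) → ℝ) (t : ℝ) :
    Zav p R Y L t = (riemannZeta (1 / 2 - I * (t + p (Sum.inr 0))) *
      zprod (las p) (1 / 2 + I * (t + p (Sum.inr 0))) * Hs (cc p R Y L) (I * t)) +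
      riemannZeta (1 / 2 - I * (t + p (Sum.inr 0))) *
      zprod (las p) (1 / 2 + I * (t + p (Sum.inr 0))) * errA p R Y L t := by
  have h1 := average_series (csl p) hY hR hL t
  rw [tsum_cmu] at h1
  have h2 : errA p R Y L t = (∫ x in (-R)..R, gau L (x - Y * I) *
      zprod ((csl p).map Neg.neg) (1 / 2 - I * (t + x))) - Hs (cc p R Y L) (I * t) := by
    unfold errA
    rw [h1]
    rfl
  have h3 : Zav p R Y L t = riemannZeta (1 / 2 - I * (t + p (Sum.inr 0))) *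
      zprod (las p) (1 / 2 + I * (t + p (Sum.inr 0))) * ∫ x in (-R)..R, gau L (x - Y * I) *
      zprod ((csl p).map Neg.neg) (1 / 2 - I * (t + x)) := by
    unfold Zav
    rw [← intervalIntegral.integral_const_mul]
    refine intervalIntegral.integral_congr fun x hx => ?_
    rw [Zc_gamc, clp_eq hx hR, wt]
    ring
  rw [h3, h2]
  ring

/-- properties of the coefficients -/
theorem exists_cc_props (n B : ℕ) {ε : ℝ} (hε : 0 < ε) : ∃ Y₀ : ℝ, 1 ≤ Y₀ ∧ ∀ Y : ℝ, Y₀ ≤ Y →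
    ∀ (p : Ix (n + 1) → ℝ) (R L : ℝ), 0 ≤ R → 0 < L → 4 ≤ L * R ^ 2 →
    (Summable fun m => ‖cc p R Y L m‖ * ((m + 1 : ℕ) : ℝ) ^ (B : ℝ)) ∧
    ∑' m, ‖cc p R Y L m‖ * ((m + 1 : ℕ) : ℝ) ^ (B : ℝ) ≤ 1 + ε ∧
    1 / 2 ≤ ‖cc p R Y L 0‖ ∧
    ∑' m, ‖cc p R Y L (m + 1)‖ * ((m + 2 : ℕ) : ℝ) ^ (B : ℝ) ≤ ε := by
  obtain ⟨Y₀, hY₀, h⟩ := exists_tail_small n (B : ℝ) hε
  refine ⟨Y₀, hY₀, fun Y hY p R L hR hL hLR => ?_⟩
  obtain ⟨hs, ht⟩ := h Y hY (csl p) (length_csl p)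
  set a : ℕ → ℂ := aco ((csl p).map Neg.neg) with ha
  have hle : ∀ m : ℕ, ‖cc p R Y L m‖ * ((m + 1 : ℕ) : ℝ) ^ (B : ℝ) ≤
      ‖a (m + 1)‖ * ((m + 1 : ℕ) : ℝ) ^ ((B : ℝ) - Y) := by
    intro m
    have hm1 : (1:ℝ) ≤ ((m + 1 : ℕ) : ℝ) := by
      push_cast
      linarith [Nat.cast_nonneg (α := ℝ) m]
    have h1 := norm_cmu_le (csl p) (Y := Y) hR hL (m + 1)
    calc ‖cc p R Y L m‖ * ((m + 1 : ℕ) : ℝ) ^ (B : ℝ) ≤
        (‖a (m + 1)‖ * ((m + 1 : ℕ) : ℝ) ^ (-(1 / 2 + Y))) * ((m + 1 : ℕ) : ℝ) ^ (B : ℝ) := by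
          gcongr
          exact h1
      _ = ‖a (m + 1)‖ * ((m + 1 : ℕ) : ℝ) ^ (-(1 / 2 + Y) + B) := by
          rw [mul_assoc, ← Real.rpow_add (by linarith)]
      _ ≤ _ := by
          gcongr
          linarith
  have hs1 : Summable fun m : ℕ => ‖a (m + 1)‖ * ((m + 1 : ℕ) : ℝ) ^ ((B : ℝ) - Y) :=
    (summable_nat_add_iff 1).2 hs
  have hsc : Summable fun m => ‖cc p R Y L m‖ * ((m + 1 : ℕ) : ℝ) ^ (B : ℝ) :=
    Summable.of_nonneg_of_le (fun m => by positivity) hle hs1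
  have hs2 : Summable fun m : ℕ => ‖a (m + 2)‖ * ((m + 2 : ℕ) : ℝ) ^ ((B : ℝ) - Y) :=
    (summable_nat_add_iff 2).2 hs
  have hsc2 : Summable fun m => ‖cc p R Y L (m + 1)‖ * ((m + 2 : ℕ) : ℝ) ^ (B : ℝ) :=
    (summable_nat_add_iff 1).2 hsc
  have htail : ∑' m, ‖cc p R Y L (m + 1)‖ * ((m + 2 : ℕ) : ℝ) ^ (B : ℝ) ≤ ε := by
    refine le_trans ?_ ht
    have e : ∑' m : ℕ, (if 2 ≤ m then ‖a m‖ * (m : ℝ) ^ ((B : ℝ) - Y) else 0) =
        ∑' m : ℕ, ‖a (m + 2)‖ * ((m + 2 : ℕ) : ℝ) ^ ((B : ℝ) - Y) := by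
      have h := Function.Injective.tsum_eq (g := fun m : ℕ => m + 2) (add_left_injective 2)
        (f := fun m : ℕ => (if 2 ≤ m then ‖a m‖ * (m : ℝ) ^ ((B : ℝ) - Y) else 0)) ?_
      · rw [← h]
        refine tsum_congr fun m => ?_
        rw [if_pos (by omega)]
      · intro m hm
        by_cases h2 : 2 ≤ m
        · exact ⟨m - 2, by simp; omega⟩
        · exfalso
          apply hm
          simp [h2]
    rw [e]
    exact hsc2.tsum_le_tsum (fun m => hle (m + 1)) hs2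
  have h0 : ‖cc p R Y L 0‖ ≤ 1 := by
    have h1 := norm_cmu_le (csl p) (Y := Y) hR hL 1
    rw [aco_one, norm_one, Nat.cast_one, Real.one_rpow, one_mul] at h1
    exact h1
  refine ⟨hsc, ?_, ?_, htail⟩
  · rw [hsc.tsum_eq_zero_add]
    have e : ‖cc p R Y L 0‖ * ((0 + 1 : ℕ) : ℝ) ^ (B : ℝ) = ‖cc p R Y L 0‖ := by
      simp
    rw [e]
    exact add_le_add h0 htail
  · exact cmu_one (csl p) hL hR hLR

end Pool.Agent.H26
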