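import Pool.Agent.H26.Parts
import Pool.Agent.H26.Series
import Pool.Agent.H26.Block

/-!
The main identity: the Mellin–Barnes integral equals the transform of the error term, up to
harmless functions.
-/

namespace Pool.Agent.H26

open Complex MeasureTheory Set Filter Topology Pool.Agent.H95fa

variable {n : ℕ}

lemma half_sub_ne_one (t : ℝ) : (1 / 2 : ℂ) - I * t ≠ 1 := by
  intro h
  have h2 := congrArg Complex.re h
  simp at h2

/-- the two factors which are not averaged -/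
noncomputable def ZF (p : Ix (n + 1) → ℝ) (t : ℝ) : ℂ :=
  riemannZeta (1 / 2 - I * (t + p (Sum.inr 0))) * zprod (las p) (1 / 2 + I * (t + p (Sum.inr 0)))

lemma continuous_ZF (p : Ix (n + 1) → ℝ) : Continuous (ZF p) := by
  rw [continuous_iff_continuousAt]
  intro t
  have h1 : DifferentiableAt ℂ riemannZeta (1 / 2 - I * (t + p (Sum.inr 0))) := by
    refine differentiableAt_riemannZeta ?_
    have := half_sub_ne_one (t + p (Sum.inr 0))
    push_cast at this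
    exact this
  have h2 : DifferentiableAt ℂ (zprod (las p)) (1 / 2 + I * (t + p (Sum.inr 0))) := by
    refine differentiableAt_zprod fun a _ h => ?_
    have h2 := congrArg Complex.re h
    simp at h2
  have h3 : ContinuousAt (fun t : ℝ => riemannZeta (1 / 2 - I * (t + p (Sum.inr 0)))) t :=
    ContinuousAt.comp (f := fun t : ℝ => (1 / 2 - I * (t + p (Sum.inr 0)) : ℂ)) h1.continuousAt
      (by fun_prop)
  have h4 : ContinuousAt (fun t : ℝ => zprod (las p) (1 / 2 + I * (t + p (Sum.inr 0)))) t :=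
    ContinuousAt.comp (f := fun t : ℝ => (1 / 2 + I * (t + p (Sum.inr 0)) : ℂ)) h2.continuousAt
      (by fun_prop)
  exact h3.mul h4

lemma las_ge {R : ℝ} (hR : 0 ≤ R) {p : Ix (n + 1) → ℝ} (hp : Sepd R p) :
    ∀ a ∈ las p, 1 ≤ p (Sum.inr 0) + a := by
  intro a ha
  unfold las at ha
  rw [List.mem_ofFn] at ha
  obtain ⟨j, rfl⟩ := ha
  have := hp.1 (Sum.inl j)
  linarith

lemma exists_norm_ZF_le {R : ℝ} (hR : 0 ≤ R) {p : Ix (n + 1) → ℝ} (hp : Sepd R p) :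
    ∃ C : ℝ, 0 < C ∧ ∀ t : ℝ, 0 ≤ t → ‖ZF p t‖ ≤ C * (1 + t) ^ (n + 2) := by
  set b : ℝ := p (Sum.inr 0) with hb
  have hb1 : 1 ≤ b := by
    have := hp.1 (Sum.inr 0)
    linarith
  obtain ⟨C, hC0, hC⟩ := exists_norm_zprod_le (las p)
  refine ⟨6 * (1 + b) * (C * (1 + b) ^ (n + 1)), by positivity, fun t ht => ?_⟩
  have h1 : ‖riemannZeta (1 / 2 - I * (t + b))‖ ≤ 6 * (1 + b) * (1 + t) := by
    have hre : (1 / 2 - I * ((t : ℂ) + b)).re = 1 / 2 := by simp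
    have him : (1 / 2 - I * ((t : ℂ) + b)).im = -(t + b) := by simp
    have h := norm_zeta_shift_le (s := 1 / 2 - I * (t + b)) (a := 0) (by rw [hre])
      (by rw [hre]; norm_num) ?_
    · rw [ofReal_zero, mul_zero, add_zero, him, abs_neg, abs_zero,
        abs_of_nonneg (by linarith : 0 ≤ t + b)] at h
      nlinarith
    · calc (1:ℝ) ≤ |(1 / 2 - I * ((t : ℂ) + b) + I * ((0:ℝ) : ℂ) - 1).im| := by
            have : (1 / 2 - I * ((t : ℂ) + b) + I * ((0:ℝ) : ℂ) - 1).im = -(t + b) := by simp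
            rw [this, abs_neg]
            exact le_trans (by linarith) (le_abs_self _)
        _ ≤ _ := abs_im_le_norm _
  have h2 : ‖zprod (las p) (1 / 2 + I * (t + b))‖ ≤ C * (1 + b) ^ (n + 1) * (1 + t) ^ (n + 1) := by
    have hre : (1 / 2 + I * ((t : ℂ) + b)).re = 1 / 2 := by simp
    have him : (1 / 2 + I * ((t : ℂ) + b)).im = t + b := by simp
    have h := hC (1 / 2 + I * (t + b)) (by rw [hre]) (by rw [hre]; norm_num) ?_
    · rw [length_las, him, abs_of_nonneg (by linarith : 0 ≤ t + b)] at h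
      refine h.trans ?_
      rw [mul_assoc, ← mul_pow]
      have : 1 + (t + b) ≤ (1 + b) * (1 + t) := by nlinarith
      gcongr
    · intro a ha
      have h3 := las_ge hR hp a ha
      calc (1:ℝ) ≤ |(1 / 2 + I * ((t : ℂ) + b) + I * a - 1).im| := by
            have : (1 / 2 + I * ((t : ℂ) + b) + I * a - 1).im = t + b + a := by simp
            rw [this]
            exact le_trans (by linarith) (le_abs_self _)
        _ ≤ _ := abs_im_le_norm _
  unfold ZF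
  rw [norm_mul]
  calc _ ≤ (6 * (1 + b) * (1 + t)) * (C * (1 + b) ^ (n + 1) * (1 + t) ^ (n + 1)) := by gcongr
    _ = _ := by ring

lemma continuous_Hs_I {c : ℕ → ℂ} {B : ℝ} (hB : 0 < B)
    (hc : Summable fun m => ‖c m‖ * ((m + 1 : ℕ) : ℝ) ^ B) :
    Continuous fun t : ℝ => Hs c (I * t) := by
  rw [continuous_iff_continuousAt]
  intro t
  have h := (differentiableAt_Hs hc (w := I * t) (by simpa using hB)).continuousAt
  exact ContinuousAt.comp (f := fun t : ℝ => (I * t : ℂ)) h (by fun_prop)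

theorem exists_main_identity (n : ℕ) : ∃ B : ℕ, ∀ {R Y : ℝ}, 1 ≤ Y → Y ≤ R →
    ∀ {p : Ix (n + 1) → ℝ}, Sepd R p → ∀ S : ℝ, 0 ≤ S → ∃ D CW : ℝ, 0 < D ∧ 0 < CW ∧
    ∀ L : ℝ, 1 ≤ L →
    (Summable fun m => ‖cc p R Y L m‖ * ((m + 1 : ℕ) : ℝ) ^ (B : ℝ)) →
    ∑' m, ‖cc p R Y L m‖ * ((m + 1 : ℕ) : ℝ) ^ (B : ℝ) ≤ S →
    ∃ P W : ℂ → ℂ, PT (D * Real.exp (L * Y ^ 2 / 2)) 2 P ∧
    (∀ z ∈ Stm, ∀ u : ℝ, 0 < u → u ≤ 1 / 4 * |z.im| * Real.exp (-|z.re|) →
      ‖W z‖ ≤ CW * (L * Real.exp (-(L * (R ^ 2 - Y ^ 2) / 2))) *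
        u ^ (-(((2 * n + 2 : ℕ) : ℝ) + 1))) ∧
    ∀ z ∈ Stm, VM (cc p R Y L) (0 :: las p) (p (Sum.inr 0)) (-(1 / 2)) z =
      hE (p (Sum.inr 0)) (fun t => ∫ u in (0:ℝ)..t, Dav p R Y L u) z + (P z + W z) := by
  obtain ⟨B, hB⟩ := exists_MB (n + 2)
  refine ⟨B + 2, ?_⟩
  intro R Y hY hYR p hp S hS0
  have hR : 0 ≤ R := by linarith
  set b : ℝ := p (Sum.inr 0) with hb
  have hb1 : 1 ≤ b := by
    have := hp.1 (Sum.inr 0)
    linarith
  have hb0 : 0 ≤ b := by linarith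
  obtain ⟨C₁, hC₁0, hC₁⟩ := hB (0 :: las p) (by simp [length_las]) b
  obtain ⟨C₂, hC₂0, hC₂⟩ := exists_eval (las p) hb1 (las_ge hR hp)
  obtain ⟨C₃, hC₃0, hC₃⟩ := exists_sector_transform hb0
  obtain ⟨C₄, hC₄0, hC₄⟩ := exists_norm_Qav_le hR hp
  obtain ⟨C₅, hC₅0, hC₅⟩ := exists_norm_ZF_le hR hp
  obtain ⟨C₆, hC₆0, hC₆⟩ := exists_average_shift (csl p) R Y hY hYR (by
    intro c hc
    unfold csl at hc
    rw [List.mem_ofFn] at hc
    obtain ⟨j, rfl⟩ := hc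
    exact hp.1 _)
  obtain ⟨C₇, hC₇0, hC₇⟩ := exists_norm_integral_mul_KQ_le (q := ((2 * n + 2 : ℕ) : ℝ))
    (Nat.cast_nonneg _)
  refine ⟨C₁ * S + C₂ * S + C₃ * C₄ + 1, C₇ * (C₅ * C₆), by positivity, by positivity, ?_⟩
  intro L hL hs hS
  have hL0 : 0 < L := by linarith
  set c : ℕ → ℂ := cc p R Y L with hc
  have hs2 := summable_mono_exp (B' := 2) (by omega) hs
  have e2 : ((2 : ℕ) : ℝ) = 2 := by norm_num
  rw [e2] at hs2
  obtain ⟨⟨P₁, hP₁, hP₁'⟩, -⟩ := hC₁ c hs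
  obtain ⟨P₂, hP₂, hP₂'⟩ := hC₂ c hs2.1
  have hexp1 : 1 ≤ Real.exp (L * Y ^ 2 / 2) := Real.one_le_exp (by positivity)
  obtain ⟨P₃, hP₃, hP₃'⟩ := hC₃ (Qav p R Y L) (Real.exp (L * Y ^ 2 / 2) * C₄)
    (differentiableOn_Qav hR hp Y L) (hC₄ Y L hL0)
  set ZA : ℝ → ℂ := fun t => ZF p t * Hs c (I * t) with hZA
  set ZW : ℝ → ℂ := fun t => ZF p t * errA p R Y L t with hZW
  have hZ : ∀ t, Zav p R Y L t = ZA t + ZW t := by
    intro t
    rw [Zav_eq hY hR hL0 p t]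
    simp only [hZA, hZW, ZF, hc]
  have hZAc : Continuous ZA := (continuous_ZF p).mul (continuous_Hs_I (by norm_num) hs2.1)
  have hZWc : Continuous ZW := by
    have : ZW = fun t => Zav p R Y L t - ZA t := by
      funext t
      rw [hZ t]
      ring
    rw [this]
    exact (continuous_Zav Y L).sub hZAc
  have hpow : ∀ (m : ℕ) (t : ℝ), (1 + t) ^ m = (1 + t) ^ ((m : ℕ) : ℝ) := fun m t =>
    (Real.rpow_natCast _ _).symm
  have hSc0 : 0 ≤ ∑' m, ‖c m‖ * ((m + 1 : ℕ) : ℝ) ^ (2 : ℝ) := tsum_nonneg fun m => by positivity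
  have hZAb : ∀ t : ℝ, 0 ≤ t → ‖ZA t‖ ≤ (C₅ * S) * (1 + t) ^ ((2 * n + 2 : ℕ) : ℝ) := by
    intro t ht
    simp only [hZA]
    rw [norm_mul, ← hpow]
    have h1 : ‖Hs c (I * t)‖ ≤ S := (norm_Hs_le hs2.1 (by simp)).trans (hs2.2.trans hS)
    have h2 : (1 + t) ^ (n + 2) ≤ (1 + t) ^ (2 * n + 2) :=
      pow_le_pow_right₀ (by linarith) (by omega)
    calc _ ≤ (C₅ * (1 + t) ^ (n + 2)) * S := by
          gcongr
          exact hC₅ t ht
      _ ≤ (C₅ * (1 + t) ^ (2 * n + 2)) * S := by gcongr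
      _ = _ := by ring
  set ε : ℝ := L * Real.exp (-(L * (R ^ 2 - Y ^ 2) / 2)) with hε
  have hε0 : 0 ≤ ε := by positivity
  have hZWb : ∀ t : ℝ, 0 ≤ t → ‖ZW t‖ ≤ (C₅ * C₆ * ε) * (1 + t) ^ ((2 * n + 2 : ℕ) : ℝ) := by
    intro t ht
    simp only [hZW]
    rw [norm_mul, ← hpow]
    have h1 : ‖errA p R Y L t‖ ≤ C₆ * ε * (1 + t) ^ n := by
      have := hC₆ L t hL ht
      rw [length_csl] at this
      unfold errA
      calc _ ≤ _ := this
        _ = _ := by rw [hε]; ring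
    calc _ ≤ (C₅ * (1 + t) ^ (n + 2)) * (C₆ * ε * (1 + t) ^ n) := by
          have := hC₅ t ht
          gcongr
      _ = _ := by ring
  have hQb : ∀ t : ℝ, 0 ≤ t → ‖Qav p R Y L t‖ ≤ (Real.exp (L * Y ^ 2 / 2) * C₄) *
      (1 + t) ^ ((2 * n + 2 : ℕ) : ℝ) := by
    intro t ht
    refine (hC₄ Y L hL0 t ⟨by simpa using ht, by simpa using ht, by simp⟩).trans ?_
    have : 1 ≤ (1 + t) ^ ((2 * n + 2 : ℕ) : ℝ) :=
      Real.one_le_rpow (by linarith) (Nat.cast_nonneg _)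
    have h0 : 0 ≤ Real.exp (L * Y ^ 2 / 2) * C₄ := by positivity
    nlinarith
  refine ⟨fun z => P₃ z - (P₁ z + P₂ z), fun z => -∫ t in Ioi (0:ℝ), ZW t * KQ b z t, ?_, ?_, ?_⟩
  · have h1 : PT (C₁ * S + C₂ * S) 2 (fun z => P₁ z + P₂ z) := by
      refine (hP₁.mono ?_ le_rfl).add (hP₂.mono ?_ (by norm_num))
      · gcongr
      · have := hs2.2.trans hS
        gcongr
    refine ((hP₃.mono le_rfl (by norm_num)).sub h1).mono ?_ le_rfl
    have : (C₁ * S + C₂ * S) * 1 ≤ (C₁ * S + C₂ * S) * Real.exp (L * Y ^ 2 / 2) := by gcongr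
    nlinarith
  · intro z hz u hu0 hu
    rw [norm_neg]
    refine (hC₇ hb0 (by positivity) (fun t ht => hZWb t ht.le) hz u hu0 hu).trans (le_of_eq ?_)
    ring
  · intro z hz
    have hDb : ∀ t : ℝ, 0 ≤ t → ‖Dav p R Y L t‖ ≤ (C₅ * S + C₅ * C₆ * ε +
        Real.exp (L * Y ^ 2 / 2) * C₄) * (1 + t) ^ ((2 * n + 2 : ℕ) : ℝ) := by
      intro t ht
      unfold Dav
      rw [hZ t]
      refine (norm_sub_le _ _).trans ?_
      have h1 := norm_add_le (ZA t) (ZW t)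
      have h2 := hZAb t ht
      have h3 := hZWb t ht
      have h4 := hQb t ht
      linarith
    have key := integral_by_parts hb0 (continuous_Dav hR hp Y L) (Nat.cast_nonneg _)
      (by positivity) hDb hz
    have i1 := integrableOn_mul_KQ hb0 hZAc.aestronglyMeasurable (fun t ht => hZAb t ht.le) hz
    have i2 := integrableOn_mul_KQ hb0 hZWc.aestronglyMeasurable (fun t ht => hZWb t ht.le) hz
    have i3 := integrableOn_mul_KQ hb0 (continuous_Qav hR hp Y L).aestronglyMeasurable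
      (fun t ht => hQb t ht.le) hz
    have e1 : ∫ t in Ioi (0:ℝ), Dav p R Y L t * KQ b z t =
        (∫ t in Ioi (0:ℝ), ZA t * KQ b z t) + (∫ t in Ioi (0:ℝ), ZW t * KQ b z t) -
          ∫ t in Ioi (0:ℝ), Qav p R Y L t * KQ b z t := by
      have h12 : IntegrableOn (fun t : ℝ => ZA t * KQ b z t + ZW t * KQ b z t) (Ioi 0) := i1.add i2
      rw [← integral_add i1 i2, ← integral_sub h12 i3]
      refine integral_congr_ae (Eventually.of_forall fun t => ?_)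
      simp only [Dav, hZ]
      ring
    have e3 : ∫ t in Ioi (0:ℝ), Qav p R Y L t * KQ b z t = P₃ z := hP₃' z hz.1 hz.2
    have e4 : ∫ t in Ioi (0:ℝ), ZA t * KQ b z t =
        (∫ v : ℝ, Gp (2 + v * I) * Fint c (0 :: las p) b z (2 + v * I)) + P₂ z :=
      hP₂' z hz.1 hz.2
    have e5 : ∫ v : ℝ, Gp (2 + v * I) * Fint c (0 :: las p) b z (2 + v * I) =
        ∫ v : ℝ, fM c (0 :: las p) b z (2 + v * I) :=
      integral_Fint_eq (0 :: las p) b hs2.1 hz.1 hz.2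
    have e6 := hP₁' z hz.1 hz.2
    rw [e1, e3, e4, e5, e6] at key
    rw [← key]
    ring

end Pool.Agent.H26
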