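import Mathlib

/-!
Interpolation of analytic functions from large closed sets of real nodes.
-/

namespace Pool.Agent.H26

open MeasureTheory Set Finset Polynomial

/-- The measure of the part of `A` in `(0, x]`. -/
noncomputable def phiA (A : Set ℝ) (x : ℝ) : ℝ := (volume (A ∩ Set.Ioc 0 x)).toReal

lemma volume_inter_Ioc_ne_top (A : Set ℝ) (x y : ℝ) : volume (A ∩ Set.Ioc x y) ≠ ⊤ :=
  ((measure_mono inter_subset_right).trans_lt measure_Ioc_lt_top).ne

lemma phiA_add {A : Set ℝ} (hA : IsClosed A) {x y : ℝ} (hx : 0 ≤ x) (hxy : x ≤ y) :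
    phiA A y = phiA A x + (volume (A ∩ Set.Ioc x y)).toReal := by
  unfold phiA
  rw [← ENNReal.toReal_add (volume_inter_Ioc_ne_top A 0 x) (volume_inter_Ioc_ne_top A x y),
    ← measure_union, ← Set.inter_union_distrib_left, Set.Ioc_union_Ioc_eq_Ioc hx hxy]
  · rw [Set.disjoint_left]
    rintro z ⟨_, hz⟩ ⟨_, hz'⟩
    exact absurd hz.2 (not_le.2 hz'.1)
  · exact hA.measurableSet.inter measurableSet_Ioc

lemma phiA_mono {A : Set ℝ} (hA : IsClosed A) {x y : ℝ} (hx : 0 ≤ x) (hxy : x ≤ y) :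
    phiA A x ≤ phiA A y := by
  rw [phiA_add hA hx hxy]
  exact le_add_of_nonneg_right ENNReal.toReal_nonneg

lemma volume_inter_Ioc_le (A : Set ℝ) {x y : ℝ} (hxy : x ≤ y) :
    (volume (A ∩ Set.Ioc x y)).toReal ≤ y - x := by
  calc (volume (A ∩ Set.Ioc x y)).toReal ≤ (volume (Set.Ioc x y)).toReal :=
        ENNReal.toReal_mono measure_Ioc_lt_top.ne (measure_mono inter_subset_right)
    _ = y - x := by rw [Real.volume_Ioc, ENNReal.toReal_ofReal (by linarith)]

lemma phiA_sub_le {A : Set ℝ} (hA : IsClosed A) {x y : ℝ} (hx : 0 ≤ x) (hxy : x ≤ y) :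
    phiA A y - phiA A x ≤ y - x := by
  rw [phiA_add hA hx hxy]
  have := volume_inter_Ioc_le A hxy
  linarith

lemma continuousOn_phiA {A : Set ℝ} (hA : IsClosed A) (ρ : ℝ) :
    ContinuousOn (phiA A) (Set.Icc 0 ρ) := by
  have : LipschitzOnWith 1 (phiA A) (Set.Icc 0 ρ) := by
    apply LipschitzOnWith.of_dist_le_mul
    intro x hx y hy
    rw [Real.dist_eq, Real.dist_eq, NNReal.coe_one, one_mul]
    rcases le_total x y with h | h
    · rw [abs_sub_comm, abs_of_nonneg (sub_nonneg.2 (phiA_mono hA hx.1 h)), abs_sub_comm,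
        abs_of_nonneg (sub_nonneg.2 h)]
      exact phiA_sub_le hA hx.1 h
    · rw [abs_of_nonneg (sub_nonneg.2 (phiA_mono hA hy.1 h)), abs_of_nonneg (sub_nonneg.2 h)]
      exact phiA_sub_le hA hy.1 h
  exact this.continuousOn

/-- selection of nodes -/
lemma exists_node {A : Set ℝ} (hA : IsClosed A) {ρ v : ℝ} (hv : 0 < v)
    (hρ : 0 ≤ ρ) (h : v ≤ phiA A ρ) :
    ∃ x ∈ A, 0 < x ∧ x ≤ ρ ∧ phiA A x = v := by
  have h0 : phiA A 0 = 0 := by simp [phiA]
  have hc := continuousOn_phiA hA ρ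
  obtain ⟨x1, hx1, hx1v⟩ : v ∈ phiA A '' Set.Icc 0 ρ :=
    intermediate_value_Icc hρ hc ⟨by rw [h0]; exact hv.le, h⟩
  have hK : IsCompact {x ∈ Set.Icc (0:ℝ) ρ | phiA A x = v} := by
    have : {x ∈ Set.Icc (0:ℝ) ρ | phiA A x = v} = Set.Icc 0 ρ ∩ phiA A ⁻¹' {v} := rfl
    rw [this]
    exact isCompact_Icc.of_isClosed_subset (hc.preimage_isClosed_of_isClosed isClosed_Icc
      isClosed_singleton) inter_subset_left
  obtain ⟨x, ⟨hxm, hxv⟩, hxl⟩ := hK.exists_isLeast ⟨x1, hx1, hx1v⟩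
  have hx0 : 0 < x := by
    rcases eq_or_lt_of_le hxm.1 with h' | h'
    · rw [← h', h0] at hxv; exact absurd hxv hv.ne
    · exact h'
  refine ⟨x, ?_, hx0, hxm.2, hxv⟩
  by_contra hxA
  obtain ⟨δ, hδ, hδA⟩ := Metric.isOpen_iff.1 hA.isOpen_compl x hxA
  set e := min (δ / 2) (x / 2) with he
  have he0 : 0 < e := by positivity
  have he1 : e ≤ x / 2 := min_le_right _ _
  have he2 : e ≤ δ / 2 := min_le_left _ _
  have hemp : A ∩ Set.Ioc (x - e) x = ∅ := by
    rw [Set.eq_empty_iff_forall_notMem]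
    rintro z ⟨hzA, hz⟩
    refine hδA ?_ hzA
    rw [Metric.mem_ball, Real.dist_eq, abs_lt]
    constructor <;> linarith [hz.1, hz.2]
  have h1 := phiA_add hA (show 0 ≤ x - e by linarith) (show x - e ≤ x by linarith)
  rw [hemp] at h1
  simp only [measure_empty, ENNReal.toReal_zero, add_zero] at h1
  have h2 : x ≤ x - e := hxl ⟨⟨by linarith, by linarith [hxm.2]⟩, by rw [← h1, hxv]⟩
  linarith

lemma le_of_phiA {A : Set ℝ} {ρ s x : ℝ} (hA : IsClosed A) (hx : 0 ≤ x) (hxρ : x ≤ ρ)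
    (hs : ρ - s ≤ phiA A ρ) : x ≤ phiA A x + s := by
  have := phiA_sub_le hA hx hxρ
  linarith

lemma one_add_le_exp_sqrt {x : ℝ} (hx : 0 ≤ x) : 1 + x ≤ Real.exp (2 * √x) := by
  have h := Real.quadratic_le_exp_of_nonneg (x := 2 * √x) (by positivity)
  have h2 : √x ^ 2 = x := Real.sq_sqrt hx
  nlinarith [Real.sqrt_nonneg x]

lemma sum_inv_sqrt_le (n : ℕ) : ∑ j ∈ Finset.range n, 1 / √((j:ℝ) + 1) ≤ 2 * √(n:ℝ) := by
  induction n with
  | zero => simp
  | succ n ih =>
    rw [Finset.sum_range_succ]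
    push_cast
    have h1 : 0 < √((n:ℝ) + 1) := Real.sqrt_pos.2 (by positivity)
    have h2 : √((n:ℝ) + 1) ^ 2 = n + 1 := Real.sq_sqrt (by positivity)
    have h3 : √(n:ℝ) ^ 2 = n := Real.sq_sqrt (by positivity)
    have h4 : 0 ≤ √(n:ℝ) := Real.sqrt_nonneg _
    have : 1 / √((n:ℝ) + 1) ≤ 2 * √((n:ℝ) + 1) - 2 * √(n:ℝ) := by
      rw [div_le_iff₀ h1]
      nlinarith [sq_nonneg (√((n:ℝ) + 1) - √(n:ℝ))]
    linarith

lemma prod_one_add_le (n : ℕ) {q : ℝ} (hq : 0 ≤ q) :
    ∏ j ∈ Finset.range n, (1 + q / ((j:ℝ) + 1)) ≤ Real.exp (4 * √(q * n)) := by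
  calc ∏ j ∈ Finset.range n, (1 + q / ((j:ℝ) + 1))
      ≤ ∏ j ∈ Finset.range n, Real.exp (2 * (√q * (1 / √((j:ℝ) + 1)))) := by
        refine Finset.prod_le_prod (fun j _ => by positivity) (fun j _ => ?_)
        have := one_add_le_exp_sqrt (x := q / ((j:ℝ) + 1)) (by positivity)
        rwa [Real.sqrt_div' _ (by positivity : (0:ℝ) ≤ (j:ℝ) + 1),
          div_eq_mul_one_div (√q)] at this
    _ = Real.exp (2 * √q * ∑ j ∈ Finset.range n, (1 / √((j:ℝ) + 1))) := by
        rw [← Real.exp_sum, Finset.mul_sum]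
        congr 1
        refine Finset.sum_congr rfl fun j _ => by ring
    _ ≤ Real.exp (4 * √(q * n)) := by
        rw [Real.exp_le_exp, Real.sqrt_mul hq]
        have := sum_inv_sqrt_le n
        nlinarith [Real.sqrt_nonneg q]

lemma prod_lower (i : ℕ) : ∏ j ∈ Finset.range i, (((j:ℝ) + 1) / |(i:ℝ) - j|) = 1 := by
  rw [Finset.prod_div_distrib, div_eq_one_iff_eq]
  · rw [← Finset.prod_range_reflect (fun j => |(i:ℝ) - j|)]
    refine Finset.prod_congr rfl fun j hj => ?_
    have hj' : j < i := Finset.mem_range.1 hj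
    have : ((i - 1 - j : ℕ) : ℝ) = (i:ℝ) - 1 - j := by
      rw [Nat.cast_sub (by omega), Nat.cast_sub (by omega)]; simp
    rw [this]
    rw [show (i:ℝ) - (i - 1 - j) = j + 1 by ring, abs_of_nonneg (by positivity)]
  · refine Finset.prod_ne_zero_iff.2 fun j hj => ?_
    have hj' : (j:ℝ) < i := by exact_mod_cast Finset.mem_range.1 hj
    exact (abs_pos.2 (by linarith)).ne'

lemma prod_upper {i n : ℕ} (h : i < n) :
    ∏ j ∈ Finset.Ico (i + 1) n, (((j:ℝ) + 1) / |(i:ℝ) - j|) = (n.choose (i + 1) : ℝ) := by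
  induction n, h using Nat.le_induction with
  | base => simp
  | succ n hn ih =>
    rw [Finset.prod_Ico_succ_top hn, ih]
    have hn' : i < n := hn
    have h1 : (0:ℝ) < (n:ℝ) - i := by
      have : (i:ℝ) < n := by exact_mod_cast hn'
      linarith
    rw [abs_sub_comm, abs_of_pos h1, mul_div_assoc', div_eq_iff h1.ne']
    have h2 := Nat.choose_mul_succ_eq n (i + 1)
    have h3 : ((n + 1 - (i + 1) : ℕ) : ℝ) = (n:ℝ) - i := by
      rw [Nat.cast_sub (by omega)]; push_cast; ring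
    rw [← h3]
    exact_mod_cast h2

lemma prod_erase_eq {i n : ℕ} (h : i < n) :
    ∏ j ∈ (Finset.range n).erase i, (((j:ℝ) + 1) / |(i:ℝ) - j|) = (n.choose (i + 1) : ℝ) := by
  have : (Finset.range n).erase i = Finset.range i ∪ Finset.Ico (i + 1) n := by
    ext j
    simp only [Finset.mem_erase, Finset.mem_range, Finset.mem_union, Finset.mem_Ico]
    omega
  rw [this, Finset.prod_union, prod_lower, prod_upper h, one_mul]
  rw [Finset.disjoint_left]
  intro j hj hj'
  simp only [Finset.mem_range, Finset.mem_Ico] at hj hj'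
  omega

/-- Size at `0` of a polynomial which is small at well-spaced nodes in `(0, ∞)`. -/
lemma norm_eval_zero_le {n : ℕ} (p : ℂ[X]) (hp : p.degree < n) {x : ℕ → ℝ} {h s m : ℝ}
    (hh : 0 < h) (hs : 0 ≤ s) (hm : 0 ≤ m) (hx0 : ∀ i < n, 0 < x i)
    (hx1 : ∀ i < n, x i ≤ (i + 1) * h + s)
    (hx2 : ∀ i < n, ∀ j < n, i < j → ((j:ℝ) - i) * h ≤ x j - x i)
    (hpm : ∀ i < n, ‖p.eval (x i : ℂ)‖ ≤ m) :
    ‖p.eval 0‖ ≤ 2 ^ n * Real.exp (4 * √(s / h * n)) * m := by
  have hx2' : ∀ i < n, ∀ j < n, |(i:ℝ) - j| * h ≤ |x i - x j| := by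
    intro i hi j hj
    rcases lt_trichotomy i j with hij | hij | hij
    · have h1 : (i:ℝ) < j := by exact_mod_cast hij
      have h2 := hx2 i hi j hj hij
      rw [abs_sub_comm, abs_of_pos (by linarith : (0:ℝ) < (j:ℝ) - i), abs_sub_comm (x i)]
      exact h2.trans (le_abs_self _)
    · subst hij; simp
    · have h1 : (j:ℝ) < i := by exact_mod_cast hij
      have h2 := hx2 j hj i hi hij
      rw [abs_of_pos (by linarith : (0:ℝ) < (i:ℝ) - j)]
      exact h2.trans (le_abs_self _)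
  have hinj : Set.InjOn (fun i : ℕ => (x i : ℂ)) (Finset.range n : Finset ℕ) := by
    intro i hi j hj hij
    have hi' : i < n := by simpa using hi
    have hj' : j < n := by simpa using hj
    have hij' : x i = x j := by simpa using hij
    have := hx2' i hi' j hj'
    rw [hij', sub_self, abs_zero] at this
    have h0 : |(i:ℝ) - j| ≤ 0 := by
      by_contra hc
      push Not at hc
      have := mul_pos hc hh
      linarith
    have : (i:ℝ) - j = 0 := abs_nonpos_iff.1 h0
    exact_mod_cast (sub_eq_zero.1 this)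
  have hI := Lagrange.eq_interpolate (f := p) hinj (by simpa using hp)
  have hev : p.eval 0 = ∑ i ∈ Finset.range n, p.eval (x i : ℂ) *
      (Lagrange.basis (Finset.range n) (fun i : ℕ => (x i : ℂ)) i).eval 0 := by
    conv_lhs => rw [hI]
    rw [Lagrange.interpolate_apply, Polynomial.eval_finsetSum]
    refine Finset.sum_congr rfl fun i _ => by simp
  have hb : ∀ i ∈ Finset.range n,
      ‖(Lagrange.basis (Finset.range n) (fun i : ℕ => (x i : ℂ)) i).eval 0‖ ≤
        (n.choose (i + 1) : ℝ) * Real.exp (4 * √(s / h * n)) := by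
    intro i hi
    have hi' : i < n := Finset.mem_range.1 hi
    rw [Lagrange.basis, Polynomial.eval_prod, norm_prod]
    calc ∏ j ∈ (Finset.range n).erase i,
          ‖(Lagrange.basisDivisor (x i : ℂ) (x j : ℂ)).eval 0‖
        ≤ ∏ j ∈ (Finset.range n).erase i,
          ((((j:ℝ) + 1) / |(i:ℝ) - j|) * (1 + (s / h) / ((j:ℝ) + 1))) := by
          refine Finset.prod_le_prod (fun _ _ => norm_nonneg _) (fun j hj => ?_)
          have hj1 : j ≠ i := (Finset.mem_erase.1 hj).1
          have hj' : j < n := Finset.mem_range.1 (Finset.mem_erase.1 hj).2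
          have hne : (0:ℝ) < |(i:ℝ) - j| := by
            rw [abs_pos, sub_ne_zero]
            exact_mod_cast hj1.symm
          rw [Lagrange.basisDivisor]
          simp only [Polynomial.eval_mul, Polynomial.eval_C, Polynomial.eval_sub,
            Polynomial.eval_X, zero_sub, norm_mul, norm_inv, norm_neg, Complex.norm_real,
            ← Complex.ofReal_sub, Real.norm_eq_abs]
          rw [abs_of_pos (hx0 j hj'), inv_mul_eq_div]
          have e1 : (((j:ℝ) + 1) / |(i:ℝ) - j|) * (1 + (s / h) / ((j:ℝ) + 1)) =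
              (((j:ℝ) + 1) * h + s) / (|(i:ℝ) - j| * h) := by
            field_simp
          rw [e1]
          gcongr
          · exact hx1 j hj'
          · exact hx2' i hi' j hj'
      _ = (n.choose (i + 1) : ℝ) *
            ∏ j ∈ (Finset.range n).erase i, (1 + (s / h) / ((j:ℝ) + 1)) := by
          rw [Finset.prod_mul_distrib, prod_erase_eq hi']
      _ ≤ (n.choose (i + 1) : ℝ) * ∏ j ∈ Finset.range n, (1 + (s / h) / ((j:ℝ) + 1)) := by
          refine mul_le_mul_of_nonneg_left ?_ (by positivity)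
          rw [← Finset.mul_prod_erase _ _ hi]
          refine le_mul_of_one_le_left (Finset.prod_nonneg fun j _ => by positivity) ?_
          have : 0 ≤ (s / h) / ((i:ℝ) + 1) := by positivity
          linarith
      _ ≤ _ := by
          gcongr
          exact prod_one_add_le n (by positivity)
  have hch : ∑ i ∈ Finset.range n, (n.choose (i + 1) : ℝ) ≤ 2 ^ n := by
    have h1 := Nat.sum_range_choose n
    rw [Finset.sum_range_succ'] at h1
    have h2 : ∑ i ∈ Finset.range n, n.choose (i + 1) ≤ 2 ^ n := by omega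
    exact_mod_cast h2
  rw [hev]
  calc _ ≤ ∑ i ∈ Finset.range n, ‖p.eval (x i : ℂ) *
      (Lagrange.basis (Finset.range n) (fun i : ℕ => (x i : ℂ)) i).eval 0‖ := norm_sum_le _ _
    _ ≤ ∑ i ∈ Finset.range n, m * ((n.choose (i + 1) : ℝ) * Real.exp (4 * √(s / h * n))) := by
        refine Finset.sum_le_sum fun i hi => ?_
        rw [norm_mul]
        exact mul_le_mul (hpm i (Finset.mem_range.1 hi)) (hb i hi) (norm_nonneg _) hm
    _ = (∑ i ∈ Finset.range n, (n.choose (i + 1) : ℝ)) * Real.exp (4 * √(s / h * n)) * m := by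
        rw [Finset.sum_mul, Finset.sum_mul]
        refine Finset.sum_congr rfl fun i _ => by ring
    _ ≤ _ := by gcongr

/-- Size at `0` of an analytic function which is bounded by `m` on a closed set of real points
filling most of `(0, ρ]`. -/
lemma norm_zero_le_of_large_set {f : ℂ → ℂ} {R M m ρ : ℝ} {A : Set ℝ} (hA : IsClosed A)
    (hR : 0 < R) (hρ : 0 < ρ) (hρR : ρ ≤ R / 4) (hf : DifferentiableOn ℂ f (Metric.ball 0 R))
    (hM : ∀ z ∈ Metric.ball (0:ℂ) R, ‖f z‖ ≤ M) (hm : 0 ≤ m)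
    (hfA : ∀ x ∈ A, 0 < x → x ≤ ρ → ‖f x‖ ≤ m) (hAρ : ρ - ρ / 1000 ≤ phiA A ρ) {n : ℕ}
    (hn : 0 < n) : ‖f 0‖ ≤ 3 ^ n * (m + 2 * M * (2 * ρ / R) ^ n) := by
  have hM0 : 0 ≤ M := (norm_nonneg _).trans (hM 0 (by simpa using hR))
  have hn0 : (0:ℝ) < n := by exact_mod_cast hn
  -- Taylor polynomial
  obtain ⟨r, hr⟩ : ∃ r : ℝ, r = R / 2 := ⟨_, rfl⟩
  have hr0 : 0 < r := by rw [hr]; positivity
  have hcoef : ∀ l : ℕ, ‖((l.factorial : ℂ)⁻¹ * iteratedDeriv l f 0)‖ ≤ M / r ^ l := by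
    intro l
    have hd : DiffContOnCl ℂ f (Metric.ball 0 r) := by
      refine (hf.mono ?_).diffContOnCl_ball (c := 0) (R := r) subset_rfl
      exact Metric.closedBall_subset_ball (by linarith)
    have h1 := Complex.norm_iteratedDeriv_le_of_forall_mem_sphere_norm_le (n := l) hr0 hd
      (C := M) (fun z hz => hM z (Metric.closedBall_subset_ball (by linarith)
        (Metric.sphere_subset_closedBall hz)))
    rw [norm_mul, norm_inv, Complex.norm_natCast, inv_mul_le_iff₀ (by positivity)]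
    calc _ ≤ _ := h1
      _ = _ := by ring
  have hsum : ∀ z ∈ Metric.ball (0:ℂ) R, HasSum (fun l : ℕ => ((l.factorial : ℂ)⁻¹ *
      iteratedDeriv l f 0) * z ^ l) (f z) := by
    intro z hz
    have := Complex.hasSum_taylorSeries_on_ball hf hz
    simp only [sub_zero, smul_eq_mul] at this
    have e : (fun l : ℕ => ((l.factorial : ℂ)⁻¹ * iteratedDeriv l f 0) * z ^ l) =
        fun l : ℕ => ((l.factorial : ℂ)⁻¹ * (z ^ l * iteratedDeriv l f 0)) := by
      funext l
      ring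
    rw [e]
    exact this
  set c : ℕ → ℂ := fun l => ((l.factorial : ℂ)⁻¹ * iteratedDeriv l f 0) with hc
  set p : ℂ[X] := ∑ l ∈ Finset.range n, Polynomial.monomial l (c l) with hp
  have hpe : ∀ z, p.eval z = ∑ l ∈ Finset.range n, c l * z ^ l := by
    intro z
    rw [hp, Polynomial.eval_finsetSum]
    simp
  have hpdeg : p.degree < n := by
    rw [hp]
    refine (Polynomial.degree_sum_le _ _).trans_lt ?_
    rw [Finset.sup_lt_iff (by exact WithBot.bot_lt_coe n)]
    intro l hl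
    refine (Polynomial.degree_monomial_le _ _).trans_lt ?_
    exact_mod_cast Finset.mem_range.1 hl
  have hp0 : p.eval 0 = f 0 := by
    rw [hpe, Finset.sum_eq_single 0]
    · simp [hc]
    · intro b _ hb; simp [hb]
    · intro h; simp at h; omega
  have hq : ρ / r ≤ 1 / 2 := by
    rw [div_le_iff₀ hr0, hr]; linarith
  have htail : ∀ x : ℝ, 0 < x → x ≤ ρ → ‖f x - p.eval (x:ℂ)‖ ≤ 2 * M * (2 * ρ / R) ^ n := by
    intro x hx0 hxρ
    have hxb : (x:ℂ) ∈ Metric.ball (0:ℂ) R := by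
      rw [mem_ball_zero_iff, Complex.norm_real, Real.norm_eq_abs, abs_of_pos hx0]
      linarith
    have hs := hsum x hxb
    have hs2 := (hasSum_nat_add_iff' n).2 hs
    rw [hpe]
    have hb : ∀ l : ℕ, ‖c (l + n) * (x:ℂ) ^ (l + n)‖ ≤ (M * (ρ / r) ^ n) * (1 / 2) ^ l := by
      intro l
      rw [norm_mul, norm_pow, Complex.norm_real, Real.norm_eq_abs, abs_of_pos hx0]
      calc _ ≤ M / r ^ (l + n) * ρ ^ (l + n) := by
            gcongr
            exact hcoef _
        _ = M * (ρ / r) ^ n * (ρ / r) ^ l := by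
            rw [mul_assoc, ← pow_add, div_pow, add_comm n l]; ring
        _ ≤ _ := by gcongr
    have hg : HasSum (fun l : ℕ => (M * (ρ / r) ^ n) * (1 / 2 : ℝ) ^ l)
        ((M * (ρ / r) ^ n) * 2) := hasSum_geometric_two.mul_left _
    have := hs2.norm_le_of_bounded hg hb
    calc _ ≤ _ := this
      _ = _ := by rw [hr]; rw [show ρ / (R / 2) = 2 * ρ / R by field_simp]; ring
  -- nodes
  set h : ℝ := (ρ - ρ / 1000) / n with hh
  have hh0 : 0 < h := by
    have : 0 < ρ - ρ / 1000 := by linarith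
    positivity
  have hex : ∀ i : ℕ, i < n → ∃ x ∈ A, 0 < x ∧ x ≤ ρ ∧ phiA A x = (i + 1) * h := by
    intro i hi
    refine exists_node hA (by positivity) hρ.le (le_trans ?_ hAρ)
    rw [hh, mul_div_assoc', div_le_iff₀ hn0, mul_comm]
    have : (i:ℝ) + 1 ≤ n := by exact_mod_cast hi
    have h' : 0 ≤ ρ - ρ / 1000 := by linarith
    exact mul_le_mul_of_nonneg_left this h'
  choose! x hxA hx0 hxρ hxφ using hex
  have hfin := norm_eval_zero_le p hpdeg (x := x) (h := h) (s := ρ / 1000)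
    (m := m + 2 * M * (2 * ρ / R) ^ n) hh0 (by positivity) (by positivity)
    (fun i hi => hx0 i hi)
    (fun i hi => by
      have := le_of_phiA (s := ρ / 1000) hA (hx0 i hi).le (hxρ i hi) hAρ
      rwa [hxφ i hi] at this)
    (fun i hi j hj hij => by
      have hlt : x i ≤ x j := by
        by_contra hc
        push Not at hc
        have h1 := phiA_mono hA (hx0 j hj).le hc.le
        rw [hxφ i hi, hxφ j hj] at h1
        have h2 : (i:ℝ) < j := by exact_mod_cast hij
        nlinarith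
      have h1 := phiA_sub_le hA (hx0 i hi).le hlt
      rw [hxφ i hi, hxφ j hj] at h1
      calc _ = ((j:ℝ) + 1) * h - ((i:ℝ) + 1) * h := by ring
        _ ≤ _ := h1)
    (fun i hi => by
      calc ‖p.eval (x i : ℂ)‖ = ‖f (x i) - (f (x i) - p.eval (x i : ℂ))‖ := by ring_nf
        _ ≤ ‖f (x i)‖ + ‖f (x i) - p.eval (x i : ℂ)‖ := norm_sub_le _ _
        _ ≤ _ := add_le_add (hfA _ (hxA i hi) (hx0 i hi) (hxρ i hi))
            (htail _ (hx0 i hi) (hxρ i hi)))
  rw [hp0] at hfin
  refine hfin.trans ?_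
  have hpos : 0 ≤ m + 2 * M * (2 * ρ / R) ^ n := by positivity
  refine mul_le_mul_of_nonneg_right ?_ hpos
  have e1 : ρ / 1000 / h * n = (n:ℝ) ^ 2 * (1 / 999) := by
    rw [hh]
    have : (ρ - ρ / 1000) ≠ 0 := by
      have : 0 < ρ - ρ / 1000 := by linarith
      exact this.ne'
    field_simp
    ring
  have e2 : √(ρ / 1000 / h * n) ≤ n * (1 / 31) := by
    rw [e1]
    apply Real.sqrt_le_iff.2
    constructor
    · positivity
    · nlinarith [sq_nonneg (n:ℝ)]
  have e3 : Real.exp (4 * √(ρ / 1000 / h * n)) ≤ (3 / 2) ^ n := by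
    calc _ ≤ Real.exp (n * (4 / 31)) := by
          rw [Real.exp_le_exp]; linarith
      _ = (Real.exp (4 / 31)) ^ n := by rw [← Real.exp_nat_mul]
      _ ≤ _ := by
          gcongr
          have := Real.abs_exp_sub_one_le (x := 4 / 31) (by norm_num [abs_of_pos])
          rw [abs_of_pos (by norm_num : (0:ℝ) < 4 / 31)] at this
          have := (abs_le.1 this).2
          linarith
  calc _ ≤ (2:ℝ) ^ n * (3 / 2) ^ n := by gcongr
    _ = 3 ^ n := by rw [← mul_pow]; norm_num

end Pool.Agent.H26
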