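import Pool.Agent.H26.MV

/-!
The antidiagonal line: definitions, and the shift of the contour for the product of zeta values.
-/

set_option autoImplicit false

namespace Pool.Agent.H26

open Complex Finset Filter Topology MeasureTheory

variable {k : ℕ}

/-- The shifts `(a + z, b - z)`. -/
noncomputable def ga (a b : Fin k → ℝ) (z : ℂ) : Ix k → ℂ :=
  Sum.elim (fun j => (a j : ℂ) + z) (fun j => (b j : ℂ) - z)

/-- The real shifts `(a + x, b - x)`. -/
noncomputable def gr (a b : Fin k → ℝ) (x : ℝ) : Ix k → ℝ :=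
  Sum.elim (fun j => a j + x) (fun j => b j - x)

@[simp] lemma ga_inl (a b : Fin k → ℝ) (z : ℂ) (j : Fin k) : ga a b z (Sum.inl j) = a j + z := rfl
@[simp] lemma ga_inr (a b : Fin k → ℝ) (z : ℂ) (j : Fin k) : ga a b z (Sum.inr j) = b j - z := rfl

lemma ga_ofReal (a b : Fin k → ℝ) (x : ℝ) : ga a b (x : ℂ) = fun i => ((gr a b x i : ℝ) : ℂ) := by
  funext i
  rcases i with i | i <;> simp [gr]

lemma abs_ga_im (a b : Fin k → ℝ) (z : ℂ) (i : Ix k) : |(ga a b z i).im| = |z.im| := by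
  rcases i with i | i <;> simp

lemma abs_ga_re_le {a b : Fin k → ℝ} {B : ℝ} (ha : ∀ j, |a j| ≤ B) (hb : ∀ j, |b j| ≤ B) (z : ℂ)
    (i : Ix k) : |(ga a b z i).re| ≤ B + |z.re| := by
  rcases i with i | i
  · simp only [ga_inl, add_re, ofReal_re]
    exact (abs_add_le _ _).trans (by linarith [ha i])
  · simp only [ga_inr, sub_re, ofReal_re]
    exact (abs_sub _ _).trans (by linarith [hb i])

/-- Admissible weights, with a bound on a strip of width `Y`. -/
structure Wt (n : ℕ) (M Y : ℝ) (w : ℂ → ℂ) : Prop where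
  diff : DifferentiableOn ℂ w {z : ℂ | -1 < z.im ∧ z.im < 1 / 8}
  bound : ∀ z : ℂ, -Y ≤ z.im → z.im ≤ 0 → (1 + |z.re|) ^ n * ‖w z‖ ≤ M

lemma isOpen_strip (c : ℝ) : IsOpen {z : ℂ | |z.im| < c} :=
  isOpen_lt (by fun_prop) continuous_const

section weight

variable {n : ℕ} {M Y : ℝ} {w : ℂ → ℂ}

lemma Wt.nonneg (h : Wt n M Y w) (hY : 0 ≤ Y) : 0 ≤ M := by
  have := h.bound 0 (by simpa using hY) (by simp)
  refine le_trans ?_ this
  positivity

lemma Wt.differentiableAt (h : Wt n M Y w) {z : ℂ} (hz : -1 < z.im) (hz' : z.im < 1 / 8) :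
    DifferentiableAt ℂ w z :=
  (h.diff z ⟨hz, hz'⟩).differentiableAt (((isOpen_lt continuous_const Complex.continuous_im).inter
    (isOpen_lt Complex.continuous_im continuous_const)).mem_nhds ⟨hz, hz'⟩)

lemma Wt.continuous_line (h : Wt n M Y w) {y : ℝ} (hy : -1 < y) (hy' : y < 1 / 8) :
    Continuous fun x : ℝ => w (x + y * I) := by
  rw [continuous_iff_continuousAt]
  intro x
  have h1 : ContinuousAt w (x + y * I) :=
    (h.differentiableAt (by simpa using hy) (by simpa using hy')).continuousAt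
  have h2 : ContinuousAt (fun x : ℝ => (x + y * I : ℂ)) x := by fun_prop
  exact ContinuousAt.comp (f := fun x : ℝ => (x + y * I : ℂ)) h1 h2

lemma Wt.norm_le (h : Wt n M Y w) {z : ℂ} (hz : -Y ≤ z.im) (hz0 : z.im ≤ 0) :
    ‖w z‖ ≤ M / (1 + |z.re|) ^ n := by
  rw [le_div_iff₀ (by positivity), mul_comm]
  exact h.bound z hz hz0

end weight

/-! ### Integrals over the line -/

lemma inv_sq_le (x : ℝ) : ((1 + |x|) ^ 2)⁻¹ ≤ (1 + x ^ 2)⁻¹ := by
  apply inv_anti₀ (by positivity)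
  have h1 := abs_nonneg x
  have h2 : x ^ 2 = |x| ^ 2 := (sq_abs x).symm
  nlinarith

lemma tail_facts {f : ℝ → ℂ} {K X : ℝ} {n : ℕ} (hX : 0 ≤ X) (hf : Continuous f)
    (hb : ∀ x, ‖f x‖ ≤ K / (1 + |x|) ^ (n + 2)) :
    Integrable f ∧ ‖∫ x, f x‖ ≤ K * Real.pi ∧
      ‖(∫ x, f x) - ∫ x in (-X)..X, f x‖ ≤ K / (1 + X) ^ n * Real.pi := by
  have hK : 0 ≤ K := by
    have := (norm_nonneg _).trans (hb 0)
    simpa using this
  have hb1 : ∀ x, ‖f x‖ ≤ K * (1 + x ^ 2)⁻¹ := by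
    intro x
    refine (hb x).trans ?_
    rw [div_eq_mul_inv]
    refine mul_le_mul_of_nonneg_left (le_trans ?_ (inv_sq_le x)) hK
    apply inv_anti₀ (by positivity)
    exact pow_le_pow_right₀ (by linarith [abs_nonneg x]) (by omega)
  have hi : Integrable f := Integrable.mono' (integrable_inv_one_add_sq.const_mul K)
    hf.aestronglyMeasurable (Filter.Eventually.of_forall hb1)
  refine ⟨hi, ?_, ?_⟩
  · calc ‖∫ x, f x‖ ≤ ∫ x, K * (1 + x ^ 2)⁻¹ :=
          norm_integral_le_of_norm_le (integrable_inv_one_add_sq.const_mul K)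
            (Filter.Eventually.of_forall hb1)
      _ = K * Real.pi := by rw [integral_const_mul, integral_univ_inv_one_add_sq]
  · have hms : MeasurableSet (Set.Ioc (-X) X) := measurableSet_Ioc
    have e1 : (∫ x, f x) - ∫ x in (-X)..X, f x = ∫ x in (Set.Ioc (-X) X)ᶜ, f x := by
      rw [intervalIntegral.integral_of_le (by linarith), ← integral_add_compl hms hi]
      ring
    rw [e1]
    have hb2 : ∀ x ∈ (Set.Ioc (-X) X)ᶜ, ‖f x‖ ≤ K / (1 + X) ^ n * (1 + x ^ 2)⁻¹ := by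
      intro x hx
      have hxX : X ≤ |x| := by
        by_contra hc
        push Not at hc
        have := abs_lt.1 hc
        exact hx ⟨this.1, this.2.le⟩
      refine (hb x).trans ?_
      rw [pow_add, ← div_div, div_eq_mul_inv (K / (1 + |x|) ^ n)]
      refine mul_le_mul ?_ (inv_sq_le x) (by positivity) (by positivity)
      gcongr
    calc ‖∫ x in (Set.Ioc (-X) X)ᶜ, f x‖
        ≤ ∫ x in (Set.Ioc (-X) X)ᶜ, K / (1 + X) ^ n * (1 + x ^ 2)⁻¹ := by
          refine norm_integral_le_of_norm_le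
            (integrable_inv_one_add_sq.const_mul _).integrableOn ?_
          exact (ae_restrict_iff' hms.compl).2 (Filter.Eventually.of_forall hb2)
      _ ≤ ∫ x, K / (1 + X) ^ n * (1 + x ^ 2)⁻¹ := by
          refine setIntegral_le_integral (integrable_inv_one_add_sq.const_mul _) ?_
          exact Filter.Eventually.of_forall fun x => by positivity
      _ = _ := by rw [integral_const_mul, integral_univ_inv_one_add_sq]

/-! ### Bounds for the product of zeta values on the line -/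

lemma norm_zeta_strip_le {s : ℂ} (h0 : 1 / 2 ≤ s.re) (h1 : s.re ≤ 7 / 5) {c : ℝ} (hc : 0 < c)
    (h2 : c ≤ ‖s - 1‖) {x : ℝ} (hx : |s.im| ≤ x) : ‖riemannZeta s‖ ≤ (c⁻¹ + 4) + 2 * x := by
  have hs1 : s ≠ 1 := by
    rintro rfl
    rw [sub_self, norm_zero] at h2
    linarith
  have h := norm_riemannZeta_le (s := s) (by linarith) hs1
  have h3 : ‖s - 1‖⁻¹ ≤ c⁻¹ := inv_anti₀ hc h2
  have h4 : ‖s‖ ≤ 7 / 5 + x := by
    have := Complex.norm_le_abs_re_add_abs_im s
    rw [abs_of_nonneg (by linarith)] at this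
    linarith
  have hx0 : 0 ≤ x := (abs_nonneg _).trans hx
  have h5 : ‖s‖ / s.re ≤ (7 / 5 + x) / (1 / 2) := by
    gcongr
  have h6 : (7 / 5 + x) / (1 / 2) = 14 / 5 + 2 * x := by ring
  rw [h6] at h5
  linarith

lemma norm_Zc_ga_le {a b : Fin k → ℝ} {B : ℝ} (hB : 0 ≤ B) (ha : ∀ j, |a j| ≤ B)
    (hb : ∀ j, |b j| ≤ B) {z : ℂ} (hz0 : z.im ≤ 0) (hz1 : -(9 / 10) ≤ z.im) {t : ℝ}
    {c : ℝ} (hc : 0 < c)
    (h1 : ∀ j, c ≤ ‖1 / 2 + I * (t + ga a b z (Sum.inl j)) - 1‖)
    (h2 : ∀ j, c ≤ ‖1 / 2 - I * (t + ga a b z (Sum.inr j)) - 1‖) :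
    ‖Zc (ga a b z) t‖ ≤ ((c⁻¹ + 4) * (1 + B) * (1 + |z.re|) * (1 + |t|)) ^ (2 * k) := by
  have ht0 : 0 ≤ |t| := abs_nonneg _
  have hz : 0 ≤ |z.re| := abs_nonneg _
  have hc' : 0 < c⁻¹ := inv_pos.2 hc
  have hfac : ∀ x : ℝ, x = |t| + (B + |z.re|) →
      (c⁻¹ + 4) + 2 * x ≤ (c⁻¹ + 4) * (1 + B) * (1 + |z.re|) * (1 + |t|) := by
    rintro x rfl
    have e : (1 + B) * (1 + |z.re|) * (1 + |t|) = 1 + (|t| + (B + |z.re|)) +
        (B * |z.re| + B * |t| + |z.re| * |t| + B * |z.re| * |t|) := by ring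
    have h5 : 0 ≤ B * |z.re| + B * |t| + |z.re| * |t| + B * |z.re| * |t| := by positivity
    have h6 : 0 ≤ |t| + (B + |z.re|) := by positivity
    calc (c⁻¹ + 4) + 2 * (|t| + (B + |z.re|))
        ≤ (c⁻¹ + 4) + (c⁻¹ + 4) * (|t| + (B + |z.re|)) := by
          have := mul_le_mul_of_nonneg_right (show (2:ℝ) ≤ c⁻¹ + 4 by linarith) h6
          linarith
      _ = (c⁻¹ + 4) * (1 + (|t| + (B + |z.re|))) := by ring
      _ ≤ (c⁻¹ + 4) * ((1 + B) * (1 + |z.re|) * (1 + |t|)) := by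
          rw [e]
          exact mul_le_mul_of_nonneg_left (by linarith) (by linarith)
      _ = _ := by ring
  have h3 : ∀ j, ‖riemannZeta (1 / 2 + I * (t + ga a b z (Sum.inl j)))‖ ≤
      (c⁻¹ + 4) * (1 + B) * (1 + |z.re|) * (1 + |t|) := by
    intro j
    refine (norm_zeta_strip_le (x := |t| + (B + |z.re|)) ?_ ?_ hc (h1 j) ?_).trans (hfac _ rfl)
    · simp
      linarith
    · simp
      linarith
    · have : (1 / 2 + I * (t + ga a b z (Sum.inl j))).im = t + (ga a b z (Sum.inl j)).re := by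
        simp
      rw [this]
      exact (abs_add_le _ _).trans (by linarith [abs_ga_re_le ha hb z (Sum.inl j)])
  have h4 : ∀ j, ‖riemannZeta (1 / 2 - I * (t + ga a b z (Sum.inr j)))‖ ≤
      (c⁻¹ + 4) * (1 + B) * (1 + |z.re|) * (1 + |t|) := by
    intro j
    refine (norm_zeta_strip_le (x := |t| + (B + |z.re|)) ?_ ?_ hc (h2 j) ?_).trans (hfac _ rfl)
    · simp
      linarith
    · simp
      linarith
    · have : (1 / 2 - I * (t + ga a b z (Sum.inr j))).im = -(t + (ga a b z (Sum.inr j)).re) := by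
        simp
      rw [this, abs_neg]
      exact (abs_add_le _ _).trans (by linarith [abs_ga_re_le ha hb z (Sum.inr j)])
  unfold Zc
  rw [norm_prod]
  calc _ ≤ ∏ _j : Fin k, (((c⁻¹ + 4) * (1 + B) * (1 + |z.re|) * (1 + |t|)) *
        ((c⁻¹ + 4) * (1 + B) * (1 + |z.re|) * (1 + |t|))) := by
        refine Finset.prod_le_prod (fun _ _ => norm_nonneg _) fun j _ => ?_
        rw [norm_mul]
        exact mul_le_mul (h3 _) (h4 _) (norm_nonneg _) (by positivity)
    _ = _ := by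
        rw [Finset.prod_const, Finset.card_univ, Fintype.card_fin, ← sq, ← pow_mul]

lemma norm_sub_one_of_re {s : ℂ} {c : ℝ} (h : c ≤ |s.re - 1|) : c ≤ ‖s - 1‖ := by
  have h1 := Complex.abs_re_le_norm (s - 1)
  rw [sub_re, one_re] at h1
  linarith

lemma norm_sub_one_of_im {s : ℂ} {c : ℝ} (hc : c ≤ 1) (h : 1 ≤ |s.im|) : c ≤ ‖s - 1‖ := by
  have h1 := Complex.abs_im_le_norm (s - 1)
  rw [sub_im, one_im, sub_zero] at h1
  linarith

lemma norm_Zc_line_le {a b : Fin k → ℝ} {B : ℝ} (hB : 0 ≤ B) (ha : ∀ j, |a j| ≤ B)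
    (hb : ∀ j, |b j| ≤ B) {η : ℝ} (hη : 0 < η) (hη1 : η ≤ 2 / 5) {z : ℂ}
    (hz : z.im = 0 ∨ z.im = -(1 / 2 + η)) (t : ℝ) :
    ‖Zc (ga a b z) t‖ ≤ ((η⁻¹ + 4) * (1 + B) * (1 + |z.re|) * (1 + |t|)) ^ (2 * k) := by
  refine norm_Zc_ga_le hB ha hb ?_ ?_ hη ?_ ?_
  · rcases hz with h | h <;> rw [h] <;> linarith
  · rcases hz with h | h <;> rw [h] <;> linarith
  · intro j
    refine norm_sub_one_of_re ?_
    have : (1 / 2 + I * (t + ga a b z (Sum.inl j))).re - 1 = - (1 / 2) - z.im := by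
      simp
      ring
    rw [this]
    rcases hz with h | h <;> rw [h]
    · rw [abs_of_neg (by norm_num)]; linarith
    · rw [abs_of_pos (by linarith)]; linarith
  · intro j
    refine norm_sub_one_of_re ?_
    have : (1 / 2 - I * (t + ga a b z (Sum.inr j))).re - 1 = - (1 / 2) - z.im := by
      simp
      ring
    rw [this]
    rcases hz with h | h <;> rw [h]
    · rw [abs_of_neg (by norm_num)]; linarith
    · rw [abs_of_pos (by linarith)]; linarith

lemma continuous_Zc_line (a b : Fin k → ℝ) {y : ℝ} (hy : y ≠ -(1 / 2)) :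
    Continuous fun p : ℝ × ℝ => Zc (ga a b ((p.1 : ℂ) + y * I)) p.2 := by
  unfold Zc
  refine continuous_finsetProd _ fun j _ => Continuous.mul ?_ ?_
  · rw [continuous_iff_continuousAt]
    intro p
    have hne : (1 / 2 + I * ((p.2 : ℂ) + ga a b ((p.1 : ℂ) + y * I) (Sum.inl j)) : ℂ) ≠ 1 := by
      intro h
      have h2 := congrArg Complex.re h
      simp at h2
      apply hy
      linarith
    have h1 := (differentiableAt_riemannZeta hne).continuousAt
    have h2 : ContinuousAt (fun p : ℝ × ℝ =>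
        (1 / 2 + I * ((p.2 : ℂ) + ga a b ((p.1 : ℂ) + y * I) (Sum.inl j)) : ℂ)) p := by
      simp only [ga_inl]
      fun_prop
    exact ContinuousAt.comp (f := fun p : ℝ × ℝ =>
        (1 / 2 + I * ((p.2 : ℂ) + ga a b ((p.1 : ℂ) + y * I) (Sum.inl j)) : ℂ)) h1 h2
  · rw [continuous_iff_continuousAt]
    intro p
    have hne : (1 / 2 - I * ((p.2 : ℂ) + ga a b ((p.1 : ℂ) + y * I) (Sum.inr j)) : ℂ) ≠ 1 := by
      intro h
      have h2 := congrArg Complex.re h
      simp at h2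
      apply hy
      linarith
    have h1 := (differentiableAt_riemannZeta hne).continuousAt
    have h2 : ContinuousAt (fun p : ℝ × ℝ =>
        (1 / 2 - I * ((p.2 : ℂ) + ga a b ((p.1 : ℂ) + y * I) (Sum.inr j)) : ℂ)) p := by
      simp only [ga_inr]
      fun_prop
    exact ContinuousAt.comp (f := fun p : ℝ × ℝ =>
        (1 / 2 - I * ((p.2 : ℂ) + ga a b ((p.1 : ℂ) + y * I) (Sum.inr j)) : ℂ)) h1 h2

end Pool.Agent.H26
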