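import Pool.Agent.H26.LA1

/-!
The shift of the contour for the product of zeta values.
-/

set_option autoImplicit false

namespace Pool.Agent.H26

open Complex Finset Filter Topology MeasureTheory

variable {k : ℕ}

lemma differentiableAt_Zc_ga {a b : Fin k → ℝ} {z : ℂ} {t : ℝ}
    (h1 : ∀ j, 1 / 2 + I * (t + ga a b z (Sum.inl j)) ≠ 1)
    (h2 : ∀ j, 1 / 2 - I * (t + ga a b z (Sum.inr j)) ≠ 1) :
    DifferentiableAt ℂ (fun z => Zc (ga a b z) t) z := by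
  unfold Zc
  refine DifferentiableAt.fun_finsetProd fun j _ => DifferentiableAt.mul ?_ ?_
  · have h := differentiableAt_riemannZeta (h1 j)
    have h3 : DifferentiableAt ℂ (fun z => (1 / 2 + I * (t + ga a b z (Sum.inl j)) : ℂ)) z := by
      simp only [ga_inl]
      fun_prop
    exact DifferentiableAt.comp (f := fun z => (1 / 2 + I * (t + ga a b z (Sum.inl j)) : ℂ)) z h h3
  · have h := differentiableAt_riemannZeta (h2 j)
    have h3 : DifferentiableAt ℂ (fun z => (1 / 2 - I * (t + ga a b z (Sum.inr j)) : ℂ)) z := by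
      simp only [ga_inr]
      fun_prop
    exact DifferentiableAt.comp (f := fun z => (1 / 2 - I * (t + ga a b z (Sum.inr j)) : ℂ)) z h h3

section

variable {a b : Fin k → ℝ} {B : ℝ}

lemma im_far (ha : ∀ j, |a j| ≤ B) (hb : ∀ j, |b j| ≤ B) {z : ℂ} {X t : ℝ}
    (hz : |z.re| ≤ X) (ht : X + B + 1 ≤ t) (j : Fin k) :
    1 ≤ |(1 / 2 + I * (t + ga a b z (Sum.inl j)) : ℂ).im| ∧
      1 ≤ |(1 / 2 - I * (t + ga a b z (Sum.inr j)) : ℂ).im| := by
  have h1 := abs_le.1 (ha j)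
  have h2 := abs_le.1 (hb j)
  have h3 := abs_le.1 hz
  constructor
  · have : (1 / 2 + I * (t + ga a b z (Sum.inl j)) : ℂ).im = t + a j + z.re := by
      simp; ring
    rw [this]
    exact le_trans (by linarith) (le_abs_self _)
  · have : (1 / 2 - I * (t + ga a b z (Sum.inr j)) : ℂ).im = -(t + b j - z.re) := by
      simp; ring
    rw [this, abs_neg]
    exact le_trans (by linarith) (le_abs_self _)

lemma rect_shift {n : ℕ} {M η : ℝ} (hη : 0 < η) (hη1 : η ≤ 2 / 5) {w : ℂ → ℂ}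
    (hw : Wt n M (1 / 2 + η) w) (hB : 0 ≤ B)
    (ha : ∀ j, |a j| ≤ B) (hb : ∀ j, |b j| ≤ B) {X t : ℝ} (hX : 0 ≤ X) (ht : X + B + 1 ≤ t) :
    ‖(∫ x in (-X)..X, w ((x:ℂ) + ((0:ℝ):ℂ) * I) * Zc (ga a b ((x:ℂ) + ((0:ℝ):ℂ) * I)) t) -
      ∫ x in (-X)..X, w ((x:ℂ) + ((-(1/2+η):ℝ):ℂ) * I) *
        Zc (ga a b ((x:ℂ) + ((-(1/2+η):ℝ):ℂ) * I)) t‖ ≤
      2 * (M / (1 + X) ^ n * ((η⁻¹ + 4) * (1 + B) * (1 + X) * (1 + t)) ^ (2 * k)) := by
  have hM := hw.nonneg (by linarith)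
  have hη' : 0 < η⁻¹ := inv_pos.2 hη
  have ht0 : 0 ≤ t := by linarith
  set F : ℂ → ℂ := fun z => w z * Zc (ga a b z) t with hF
  have hfar : ∀ z : ℂ, |z.re| ≤ X → (∀ j, (1 / 2 + I * (t + ga a b z (Sum.inl j)) : ℂ) ≠ 1) ∧
      ∀ j, (1 / 2 - I * (t + ga a b z (Sum.inr j)) : ℂ) ≠ 1 := by
    intro z hz
    constructor
    · intro j h
      have := (im_far ha hb hz ht j).1
      rw [h] at this
      simp at this
      linarith
    · intro j h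
      have := (im_far ha hb hz ht j).2
      rw [h] at this
      simp at this
      linarith
  have hH : DifferentiableOn ℂ F (Set.uIcc (-X) X ×ℂ Set.uIcc (-(1/2+η) : ℝ) 0) := by
    intro z hz
    rw [Complex.mem_reProdIm] at hz
    obtain ⟨hz1, hz2⟩ := hz
    rw [Set.uIcc_of_le (by linarith)] at hz1
    rw [Set.uIcc_of_le (by linarith)] at hz2
    have hre : |z.re| ≤ X := abs_le.2 hz1
    have him1 : -1 < z.im := by linarith [hz2.1]
    have him2 : z.im < 1 / 8 := by linarith [hz2.2]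
    have h1 := hfar z hre
    exact ((hw.differentiableAt him1 him2).mul (differentiableAt_Zc_ga h1.1 h1.2)).differentiableWithinAt
  have hrect := Complex.integral_boundary_rect_eq_zero_of_differentiableOn F
    (⟨-X, -(1/2+η)⟩ : ℂ) (⟨X, 0⟩ : ℂ) hH
  simp only at hrect
  -- the vertical sides
  have hside : ∀ u : ℝ, |u| = X →
      ‖∫ y in (-(1/2+η) : ℝ)..0, F ((u : ℂ) + y * I)‖ ≤
        M / (1 + X) ^ n * ((η⁻¹ + 4) * (1 + B) * (1 + X) * (1 + t)) ^ (2 * k) := by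
    intro u hu
    have h := intervalIntegral.norm_integral_le_of_norm_le_const (a := (-(1/2+η) : ℝ)) (b := 0)
      (C := M / (1 + X) ^ n * ((η⁻¹ + 4) * (1 + B) * (1 + X) * (1 + t)) ^ (2 * k))
      (f := fun y : ℝ => F ((u : ℂ) + y * I)) ?_
    · refine h.trans ?_
      have h1 : |(0:ℝ) - -(1/2+η)| ≤ 1 := by rw [abs_of_pos (by linarith)]; linarith
      have h2 : 0 ≤ M / (1 + X) ^ n * ((η⁻¹ + 4) * (1 + B) * (1 + X) * (1 + t)) ^ (2 * k) := by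
        positivity
      nlinarith
    · intro y hy
      rw [Set.uIoc_of_le (by linarith)] at hy
      have hre : ((u : ℂ) + y * I).re = u := by simp
      have him : ((u : ℂ) + y * I).im = y := by simp
      simp only [hF]
      rw [norm_mul]
      have h1 : ‖w ((u : ℂ) + y * I)‖ ≤ M / (1 + X) ^ n := by
        have := hw.norm_le (z := (u : ℂ) + y * I) (by rw [him]; exact hy.1.le)
          (by rw [him]; exact hy.2)
        rw [hre, hu] at this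
        exact this
      have h2 : ‖Zc (ga a b ((u : ℂ) + y * I)) t‖ ≤
          ((η⁻¹ + 4) * (1 + B) * (1 + X) * (1 + t)) ^ (2 * k) := by
        have := norm_Zc_ga_le hB ha hb (z := (u : ℂ) + y * I) (t := t) (by rw [him]; exact hy.2)
          (by rw [him]; linarith [hy.1]) hη
          (fun j => norm_sub_one_of_im (by linarith) (im_far ha hb (by rw [hre, hu]) ht j).1)
          (fun j => norm_sub_one_of_im (by linarith) (im_far ha hb (by rw [hre, hu]) ht j).2)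
        rw [hre, hu, abs_of_nonneg ht0] at this
        exact this
      exact mul_le_mul h1 h2 (norm_nonneg _) (by positivity)
  have h1 := hside X (abs_of_nonneg hX)
  have h2 := hside (-X) (by rw [abs_neg, abs_of_nonneg hX])
  have e : (∫ x in (-X)..X, F ((x:ℂ) + ((0:ℝ):ℂ) * I)) -
      (∫ x in (-X)..X, F ((x:ℂ) + ((-(1/2+η):ℝ):ℂ) * I)) =
      I • (∫ y in (-(1/2+η) : ℝ)..0, F ((X : ℂ) + y * I)) -
        I • ∫ y in (-(1/2+η) : ℝ)..0, F (((-X : ℝ) : ℂ) + y * I) := by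
    linear_combination -hrect
  rw [e]
  refine (norm_sub_le _ _).trans ?_
  rw [norm_smul, norm_smul, norm_I, one_mul, one_mul]
  linarith

end

/-- The exponent of the decay required from the weights. -/
def AK (k : ℕ) : ℕ := 4 * k ^ 2 + 4 * k + 4

lemma AK_eq (k : ℕ) : AK k = (4 * k ^ 2 + 2) + (2 * k + 2) + 2 * k := by unfold AK; ring

/-- The shift of the contour for the product of zeta values, explicit form. -/
theorem Zshift_le (k : ℕ) {B : ℝ} (hB : 0 ≤ B) {η : ℝ} (hη : 0 < η) (hη1 : η ≤ 2 / 5)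
    {L : ℝ} (hL : L = ((η⁻¹ + 4) * (1 + B)) ^ (2 * k)) (a b : Fin k → ℝ)
    (ha : ∀ j, |a j| ≤ B) (hb : ∀ j, |b j| ≤ B) (w : ℂ → ℂ) (M : ℝ) (hw : Wt (AK k) M (1 / 2 + η) w)
    (t : ℝ) (ht : 0 ≤ t) :
    ‖(∫ x : ℝ, w ((x:ℂ) + ((0:ℝ):ℂ) * I) * Zc (ga a b ((x:ℂ) + ((0:ℝ):ℂ) * I)) t) -
      ∫ x : ℝ, w ((x:ℂ) + ((-(1/2+η):ℝ):ℂ) * I) * Zc (ga a b ((x:ℂ) + ((-(1/2+η):ℝ):ℂ) * I)) t‖ ≤
      (2 * (L * 2 ^ (AK k) * 4) + 2 * (L * 2 ^ (AK k) * 4) +
        2 * (L * (2 * B + 3) ^ (2 * k) * 4) * (2 * B + 3) ^ 2) * M * ((1 + t) ^ 2)⁻¹ := by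
  have hη' : 0 < η⁻¹ := inv_pos.2 hη
  have hL0 : 0 ≤ L := by rw [hL]; positivity
  have hM := hw.nonneg (by linarith)
  have hπ : Real.pi ≤ 4 := Real.pi_le_four
  have hπ0 : 0 < Real.pi := Real.pi_pos
  -- the integrands
  have hfb : ∀ y : ℝ, (y = 0 ∨ y = -(1/2+η)) → ∀ x : ℝ,
      ‖w ((x:ℂ) + (y:ℂ) * I) * Zc (ga a b ((x:ℂ) + (y:ℂ) * I)) t‖ ≤
        (M * (L * (1 + t) ^ (2 * k))) / (1 + |x|) ^ ((4 * k ^ 2 + 2 + 2 * k) + 2) := by
    intro y hy x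
    have hre : ((x : ℂ) + y * I).re = x := by simp
    have him : ((x : ℂ) + y * I).im = y := by simp
    have h1 := hw.norm_le (z := (x : ℂ) + y * I) (by
      rw [him]; rcases hy with h | h <;> rw [h] <;> linarith) (by
      rw [him]; rcases hy with h | h <;> rw [h] <;> linarith)
    have h2 := norm_Zc_line_le hB ha hb hη hη1 (z := (x : ℂ) + y * I) (by rw [him]; exact hy) t
    rw [hre] at h1 h2
    rw [abs_of_nonneg ht] at h2
    rw [norm_mul]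
    have h3 : 0 < 1 + |x| := by positivity
    calc _ ≤ (M / (1 + |x|) ^ (AK k)) * ((η⁻¹ + 4) * (1 + B) * (1 + |x|) * (1 + t)) ^ (2 * k) :=
          mul_le_mul h1 h2 (norm_nonneg _) (by positivity)
      _ = _ := by
          rw [AK_eq, show 4 * k ^ 2 + 2 + (2 * k + 2) + 2 * k = (4 * k ^ 2 + 2 + 2 * k + 2) + 2 * k
            by ring, pow_add _ _ (2 * k), mul_pow, mul_pow, hL]
          field_simp
  have hcont : ∀ y : ℝ, (y = 0 ∨ y = -(1/2+η)) → Continuous fun x : ℝ =>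
      w ((x:ℂ) + (y:ℂ) * I) * Zc (ga a b ((x:ℂ) + (y:ℂ) * I)) t := by
    intro y hy
    have h1 := hw.continuous_line (y := y) (by rcases hy with h | h <;> rw [h] <;> linarith)
      (by rcases hy with h | h <;> rw [h] <;> linarith)
    have h2 := (continuous_Zc_line a b (y := y) (by
      rcases hy with h | h <;> rw [h]
      · norm_num
      · intro h'; linarith)).comp (Continuous.prodMk_left t)
    exact h1.mul h2
  rcases le_total (2 * (B + 1)) t with hbig | hsmall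
  · -- large `t`
    set X : ℝ := t / 2 with hX
    have hX0 : 0 ≤ X := by positivity
    have hXt : 1 + t ≤ 2 * (1 + X) := by rw [hX]; linarith
    have hX1 : 1 + X ≤ 1 + t := by rw [hX]; linarith
    have hr := rect_shift hη hη1 hw hB ha hb hX0 (t := t) (by rw [hX]; linarith)
    have t0 := (tail_facts (n := 4 * k ^ 2 + 2 + 2 * k) hX0 (hcont 0 (Or.inl rfl))
      (hfb 0 (Or.inl rfl))).2.2
    have t1 := (tail_facts (n := 4 * k ^ 2 + 2 + 2 * k) hX0 (hcont (-(1/2+η)) (Or.inr rfl))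
      (hfb (-(1/2+η)) (Or.inr rfl))).2.2
    have key1 : (M * (L * (1 + t) ^ (2 * k))) / (1 + X) ^ (4 * k ^ 2 + 2 + 2 * k) * Real.pi ≤
        L * 2 ^ (AK k) * 4 * M * ((1 + t) ^ 2)⁻¹ := by
      have h1 : (1 + t) ^ (4 * k ^ 2 + 2 + 2 * k) ≤ 2 ^ (AK k) *
          (1 + X) ^ (4 * k ^ 2 + 2 + 2 * k) := by
        calc (1 + t) ^ (4 * k ^ 2 + 2 + 2 * k) ≤ (2 * (1 + X)) ^ (4 * k ^ 2 + 2 + 2 * k) := by
              gcongr
          _ = 2 ^ (4 * k ^ 2 + 2 + 2 * k) * (1 + X) ^ (4 * k ^ 2 + 2 + 2 * k) := mul_pow _ _ _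
          _ ≤ _ := by
              gcongr
              · norm_num
              · unfold AK; omega
      have h2 : (1 + t) ^ (2 * k) * (1 + t) ^ 2 ≤ (1 + t) ^ (4 * k ^ 2 + 2 + 2 * k) := by
        rw [← pow_add]
        apply pow_le_pow_right₀ (by linarith)
        omega
      rw [← div_eq_mul_inv, div_mul_eq_mul_div, div_le_div_iff₀ (by positivity) (by positivity)]
      calc M * (L * (1 + t) ^ (2 * k)) * Real.pi * (1 + t) ^ 2
          = M * L * Real.pi * ((1 + t) ^ (2 * k) * (1 + t) ^ 2) := by ring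
        _ ≤ M * L * 4 * (2 ^ (AK k) * (1 + X) ^ (4 * k ^ 2 + 2 + 2 * k)) :=
            mul_le_mul (mul_le_mul_of_nonneg_left hπ (by positivity)) (h2.trans h1)
              (by positivity) (by positivity)
        _ = _ := by ring
    have key2 : M / (1 + X) ^ (AK k) * ((η⁻¹ + 4) * (1 + B) * (1 + X) * (1 + t)) ^ (2 * k) ≤
        L * 2 ^ (AK k) * 4 * M * ((1 + t) ^ 2)⁻¹ := by
      have h1 : M / (1 + X) ^ (AK k) * ((η⁻¹ + 4) * (1 + B) * (1 + X) * (1 + t)) ^ (2 * k) =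
          (M * (L * (1 + t) ^ (2 * k))) / (1 + X) ^ ((4 * k ^ 2 + 2 + 2 * k) + 2) := by
        rw [AK_eq, show 4 * k ^ 2 + 2 + (2 * k + 2) + 2 * k = (4 * k ^ 2 + 2 + 2 * k + 2) + 2 * k
            by ring, pow_add _ _ (2 * k), mul_pow, mul_pow, hL]
        field_simp
      rw [h1]
      refine le_trans ?_ key1
      have h2 : (1 + X) ^ (4 * k ^ 2 + 2 + 2 * k) ≤ (1 + X) ^ ((4 * k ^ 2 + 2 + 2 * k) + 2) :=
        pow_le_pow_right₀ (by linarith) (by omega)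
      have h3 : (M * (L * (1 + t) ^ (2 * k))) / (1 + X) ^ ((4 * k ^ 2 + 2 + 2 * k) + 2) ≤
          (M * (L * (1 + t) ^ (2 * k))) / (1 + X) ^ (4 * k ^ 2 + 2 + 2 * k) := by
        gcongr
      refine h3.trans ?_
      have h4 : 0 ≤ (M * (L * (1 + t) ^ (2 * k))) / (1 + X) ^ (4 * k ^ 2 + 2 + 2 * k) := by
        positivity
      have h5 : (1:ℝ) ≤ Real.pi := by linarith [Real.pi_gt_three]
      nlinarith
    have hsplit : ∀ p q p' q' : ℂ, ‖p - q‖ ≤ ‖p - p'‖ + ‖p' - q'‖ + ‖q - q'‖ := by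
      intro p q p' q'
      calc ‖p - q‖ = ‖(p - p') + (p' - q') - (q - q')‖ := by ring_nf
        _ ≤ ‖(p - p') + (p' - q')‖ + ‖q - q'‖ := norm_sub_le _ _
        _ ≤ _ := by gcongr; exact norm_add_le _ _
    refine (hsplit _ _ _ _).trans ((add_le_add (add_le_add t0 hr) t1).trans ?_)
    have hpos : 0 ≤ 2 * (L * (2 * B + 3) ^ (2 * k) * 4) * (2 * B + 3) ^ 2 * M *
        ((1 + t) ^ 2)⁻¹ := by positivity
    have e : (2 * (L * 2 ^ (AK k) * 4) + 2 * (L * 2 ^ (AK k) * 4) +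
        2 * (L * (2 * B + 3) ^ (2 * k) * 4) * (2 * B + 3) ^ 2) * M * ((1 + t) ^ 2)⁻¹ =
        2 * (L * 2 ^ (AK k) * 4 * M * ((1 + t) ^ 2)⁻¹) +
        2 * (L * 2 ^ (AK k) * 4 * M * ((1 + t) ^ 2)⁻¹) +
        2 * (L * (2 * B + 3) ^ (2 * k) * 4) * (2 * B + 3) ^ 2 * M * ((1 + t) ^ 2)⁻¹ := by ring
    rw [e]
    linarith
  · -- small `t`
    have t0 := (tail_facts (X := 0) (n := 4 * k ^ 2 + 2 + 2 * k) le_rfl (hcont 0 (Or.inl rfl))
      (hfb 0 (Or.inl rfl))).2.1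
    have t1 := (tail_facts (X := 0) (n := 4 * k ^ 2 + 2 + 2 * k) le_rfl
      (hcont (-(1/2+η)) (Or.inr rfl)) (hfb (-(1/2+η)) (Or.inr rfl))).2.1
    refine (norm_sub_le _ _).trans ((add_le_add t0 t1).trans ?_)
    have h1 : (1 + t) ^ (2 * k) ≤ (2 * B + 3) ^ (2 * k) :=
      pow_le_pow_left₀ (by linarith) (by linarith) _
    have h2 : 1 ≤ (2 * B + 3) ^ 2 * ((1 + t) ^ 2)⁻¹ := by
      rw [← div_eq_mul_inv, one_le_div (by positivity)]
      exact pow_le_pow_left₀ (by linarith) (by linarith) _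
    have hpos : 0 ≤ (2 * (L * 2 ^ (AK k) * 4) + 2 * (L * 2 ^ (AK k) * 4)) * M *
        ((1 + t) ^ 2)⁻¹ := by positivity
    have hy : 0 ≤ 2 * (L * (2 * B + 3) ^ (2 * k) * 4) * M := by positivity
    calc _ = 2 * (L * (1 + t) ^ (2 * k) * Real.pi) * M := by ring
      _ ≤ 2 * (L * (2 * B + 3) ^ (2 * k) * 4) * M := by gcongr
      _ ≤ 2 * (L * (2 * B + 3) ^ (2 * k) * 4) * M * ((2 * B + 3) ^ 2 * ((1 + t) ^ 2)⁻¹) :=
          le_mul_of_one_le_right hy h2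
      _ ≤ _ := by
          have e : (2 * (L * 2 ^ (AK k) * 4) + 2 * (L * 2 ^ (AK k) * 4) +
            2 * (L * (2 * B + 3) ^ (2 * k) * 4) * (2 * B + 3) ^ 2) * M * ((1 + t) ^ 2)⁻¹ =
            (2 * (L * 2 ^ (AK k) * 4) + 2 * (L * 2 ^ (AK k) * 4)) * M * ((1 + t) ^ 2)⁻¹ +
            2 * (L * (2 * B + 3) ^ (2 * k) * 4) * M *
              ((2 * B + 3) ^ 2 * ((1 + t) ^ 2)⁻¹) := by ring
          rw [e]
          linarith

/-- The exponent of the dependence on the size of the shifts. -/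
def NB (k : ℕ) : ℕ := NK k + (4 * k + 2)

/-- The shift of the contour for the product of zeta values. -/
theorem exists_Zshift (k : ℕ) {η : ℝ} (hη : 0 < η) (hη1 : η ≤ 2 / 5) :
    ∃ C : ℝ, 0 ≤ C ∧ ∀ B : ℝ, 0 ≤ B → ∀ a b : Fin k → ℝ,
    (∀ j, |a j| ≤ B) → (∀ j, |b j| ≤ B) → ∀ (w : ℂ → ℂ) (M : ℝ), Wt (AK k) M (1 / 2 + η) w →
    ∀ t : ℝ, 0 ≤ t →
    ‖(∫ x : ℝ, w ((x:ℂ) + ((0:ℝ):ℂ) * I) * Zc (ga a b ((x:ℂ) + ((0:ℝ):ℂ) * I)) t) -
      ∫ x : ℝ, w ((x:ℂ) + ((-(1/2+η):ℝ):ℂ) * I) * Zc (ga a b ((x:ℂ) + ((-(1/2+η):ℝ):ℂ) * I)) t‖ ≤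
      C * (1 + B) ^ NB k * M * ((1 + t) ^ 2)⁻¹ := by
  have hη' : 0 < η⁻¹ := inv_pos.2 hη
  set L₀ : ℝ := (η⁻¹ + 4) ^ (2 * k) with hL₀
  have hL₀0 : 0 ≤ L₀ := by positivity
  refine ⟨4 * (L₀ * 2 ^ (AK k) * 4) + 2 * (L₀ * 3 ^ (2 * k) * 4) * 3 ^ 2, by positivity, ?_⟩
  intro B hB a b ha hb w M hw t ht
  have hM := hw.nonneg (by linarith)
  refine (Zshift_le k hB hη hη1 rfl a b ha hb w M hw t ht).trans ?_
  have h1 : ((η⁻¹ + 4) * (1 + B)) ^ (2 * k) = L₀ * (1 + B) ^ (2 * k) := mul_pow _ _ _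
  rw [h1]
  have hB1 : 1 ≤ 1 + B := by linarith
  have h3 : (2 * B + 3) ≤ 3 * (1 + B) := by linarith
  have h4 : (2 * B + 3) ^ (2 * k) ≤ 3 ^ (2 * k) * (1 + B) ^ (2 * k) := by
    rw [← mul_pow]
    exact pow_le_pow_left₀ (by linarith) h3 _
  have h5 : (2 * B + 3) ^ 2 ≤ 3 ^ 2 * (1 + B) ^ 2 := by
    rw [← mul_pow]
    exact pow_le_pow_left₀ (by linarith) h3 _
  have h6 : (1 + B) ^ (2 * k) ≤ (1 + B) ^ NB k :=
    pow_le_pow_right₀ hB1 (by unfold NB NK; omega)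
  have h7 : (1 + B) ^ (2 * k) * (1 + B) ^ (2 * k) * (1 + B) ^ 2 ≤ (1 + B) ^ NB k := by
    rw [← pow_add, ← pow_add]
    exact pow_le_pow_right₀ hB1 (by unfold NB; omega)
  have h8 : (2 * (L₀ * (1 + B) ^ (2 * k) * 2 ^ (AK k) * 4) +
        2 * (L₀ * (1 + B) ^ (2 * k) * 2 ^ (AK k) * 4) +
        2 * (L₀ * (1 + B) ^ (2 * k) * (2 * B + 3) ^ (2 * k) * 4) * (2 * B + 3) ^ 2) ≤
      (4 * (L₀ * 2 ^ (AK k) * 4) + 2 * (L₀ * 3 ^ (2 * k) * 4) * 3 ^ 2) * (1 + B) ^ NB k := by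
    calc _ ≤ (2 * (L₀ * (1 + B) ^ NB k * 2 ^ (AK k) * 4) +
          2 * (L₀ * (1 + B) ^ NB k * 2 ^ (AK k) * 4) +
          2 * (L₀ * (1 + B) ^ (2 * k) * (3 ^ (2 * k) * (1 + B) ^ (2 * k)) * 4) *
            (3 ^ 2 * (1 + B) ^ 2)) := by gcongr
      _ = 4 * (L₀ * 2 ^ (AK k) * 4) * (1 + B) ^ NB k + 2 * (L₀ * 3 ^ (2 * k) * 4) * 3 ^ 2 *
          ((1 + B) ^ (2 * k) * (1 + B) ^ (2 * k) * (1 + B) ^ 2) := by ring
      _ ≤ 4 * (L₀ * 2 ^ (AK k) * 4) * (1 + B) ^ NB k + 2 * (L₀ * 3 ^ (2 * k) * 4) * 3 ^ 2 *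
          (1 + B) ^ NB k := by gcongr
      _ = _ := by ring
  gcongr

end Pool.Agent.H26
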