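import Pool.Agent.H26.LA4

/-!
Averages over the antidiagonal line: the case of distinct shifts.
-/

set_option autoImplicit false

namespace Pool.Agent.H26

open Complex Finset Filter Topology MeasureTheory

variable {k : ℕ}

lemma ae_prod_good {N : Set ℝ} (hN : N.Finite) (T : ℝ) :
    ∀ᵐ p : ℝ × ℝ ∂((volume : Measure ℝ).prod (volume.restrict (Set.Ioc 0 T))),
      p.1 ∉ N ∧ p.2 ∈ Set.Ioc 0 T := by
  have h1 : ∀ᵐ x : ℝ, x ∉ N :=
    measure_mono_null (fun x hx => not_not.1 hx) (hN.measure_zero _)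
  have h2 : ∀ᵐ t : ℝ ∂(volume.restrict (Set.Ioc 0 T)), t ∈ Set.Ioc 0 T :=
    ae_restrict_mem measurableSet_Ioc
  have h3 := (Measure.quasiMeasurePreserving_fst (μ := (volume : Measure ℝ))
    (ν := volume.restrict (Set.Ioc 0 T))).ae h1
  have h4 := (Measure.quasiMeasurePreserving_snd (μ := (volume : Measure ℝ))
    (ν := volume.restrict (Set.Ioc 0 T))).ae h2
  filter_upwards [h3, h4] with p hp1 hp2
  exact ⟨hp1, hp2⟩

lemma integrable_prod_of_bound {f : ℝ → ℝ → ℂ} {K T : ℝ} {N : Set ℝ} (hN : N.Finite)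
    (hf : ∀ x ∉ N, ∀ t, ContinuousAt (Function.uncurry f) (x, t))
    (hb : ∀ x ∉ N, ∀ t, 0 ≤ t → t ≤ T → ‖f x t‖ ≤ K * (1 + x ^ 2)⁻¹) :
    Integrable (Function.uncurry f)
      ((volume : Measure ℝ).prod (volume.restrict (Set.Ioc 0 T))) := by
  have hae := ae_prod_good hN T
  have hg : Integrable (fun p : ℝ × ℝ => (K * (1 + p.1 ^ 2)⁻¹) * 1)
      ((volume : Measure ℝ).prod (volume.restrict (Set.Ioc 0 T))) := by
    have h1 : Integrable (fun _ : ℝ => (1:ℝ)) (volume.restrict (Set.Ioc 0 T)) := by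
      exact integrable_const _
    exact (integrable_inv_one_add_sq.const_mul K).mul_prod h1
  refine Integrable.mono' hg ?_ ?_
  · have hae' : ∀ᵐ p : ℝ × ℝ ∂((volume : Measure ℝ).prod (volume.restrict (Set.Ioc 0 T))),
        p ∈ Nᶜ ×ˢ (Set.univ : Set ℝ) := by
      filter_upwards [hae] with p hp
      exact ⟨hp.1, Set.mem_univ _⟩
    rw [← Measure.restrict_eq_self_of_ae_mem hae']
    refine ContinuousOn.aestronglyMeasurable ?_
      (hN.isClosed.isOpen_compl.prod isOpen_univ).measurableSet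
    rintro ⟨x, t⟩ ⟨hx, _⟩
    exact (hf x hx t).continuousWithinAt
  · filter_upwards [hae] with p hp
    rw [mul_one]
    exact hb p.1 hp.1 p.2 hp.2.1.le hp.2.2

lemma integral_swap_of_bound {f : ℝ → ℝ → ℂ} {K T : ℝ} (hT : 0 ≤ T) {N : Set ℝ} (hN : N.Finite)
    (hf : ∀ x ∉ N, ∀ t, ContinuousAt (Function.uncurry f) (x, t))
    (hb : ∀ x ∉ N, ∀ t, 0 ≤ t → t ≤ T → ‖f x t‖ ≤ K * (1 + x ^ 2)⁻¹) :
    (∫ x : ℝ, ∫ t in (0:ℝ)..T, f x t) = (∫ t in (0:ℝ)..T, ∫ x : ℝ, f x t) ∧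
      IntervalIntegrable (fun t => ∫ x : ℝ, f x t) volume 0 T := by
  have hi := integrable_prod_of_bound hN hf hb
  constructor
  · have h := integral_integral_swap hi
    simp only [intervalIntegral.integral_of_le hT]
    exact h
  · rw [intervalIntegrable_iff_integrableOn_Ioc_of_le hT]
    exact hi.integral_prod_right

lemma injective_gr {a b : Fin k → ℝ} (ha : Function.Injective a) (hb : Function.Injective b)
    {x : ℝ} (hx : x ∉ collX a b) : Function.Injective (gr a b x) := by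
  have h := injective_ga_of_notMem ha hb hx
  rw [ga_ofReal] at h
  intro i j hij
  exact h (by simp only [hij])

/-- Bound for the error at distinct shifts. -/
lemma exists_Er_gr_le (k : ℕ) {B : ℝ} (hB : 0 ≤ B) (T : ℝ) : ∃ C : ℝ, 0 ≤ C ∧
    ∀ a b : Fin k → ℝ, (∀ j, |a j| ≤ B) → (∀ j, |b j| ≤ B) → Function.Injective a →
    Function.Injective b → ∀ x ∉ collX a b, ‖Er (gr a b x) T‖ ≤ C * (1 + |x|) ^ NK k := by
  obtain ⟨CQ₁, hCQ₁0, hCQ₁⟩ := exists_Q_ga_le k (ρ := 1 / 8) (by norm_num)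
  have hCQ := hCQ₁ B hB
  obtain ⟨CQ, hCQe⟩ : ∃ CQ : ℝ, CQ = CQ₁ * (1 + B) ^ NK k := ⟨_, rfl⟩
  have hCQ0 : 0 ≤ CQ := by rw [hCQe]; positivity
  rw [← hCQe] at hCQ
  refine ⟨((((2 / 5 : ℝ)⁻¹ + 4) * (1 + B) * (1 + |T|)) ^ (2 * k) +
    CQ * (1 + |T|) ^ (2 * k)) * |T|, by positivity, fun a b ha hb hai hbi x hx => ?_⟩
  have hinj := injective_gr hai hbi hx
  rw [Er_eq_integral hinj, ← ga_ofReal]
  have h := intervalIntegral.norm_integral_le_of_norm_le_const (a := (0:ℝ)) (b := T)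
    (C := ((((2 / 5 : ℝ)⁻¹ + 4) * (1 + B) * (1 + |T|)) ^ (2 * k) +
      CQ * (1 + |T|) ^ (2 * k)) * (1 + |x|) ^ NK k)
    (f := fun t : ℝ => Zc (ga a b (x : ℂ)) t - Qsum (ga a b (x : ℂ)) t) ?_
  · refine h.trans (le_of_eq ?_)
    rw [sub_zero]
    ring
  · intro t ht
    have htT : |t| ≤ |T| := by
      rcases le_total 0 T with h0 | h0
      · rw [Set.uIoc_of_le h0] at ht
        rw [abs_of_pos ht.1, abs_of_nonneg h0]
        exact ht.2
      · rw [Set.uIoc_of_ge h0] at ht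
        rw [abs_of_nonpos ht.2, abs_of_nonpos h0]
        linarith [ht.1]
    have h1 := norm_Zc_line_le hB ha hb (η := 2 / 5) (by norm_num) le_rfl (z := (x : ℂ))
      (by left; simp) t
    have h2 := hCQ a b ha hb (x : ℂ) (by simp) (injective_ga_of_notMem hai hbi hx) t
    rw [Complex.ofReal_re] at h1 h2
    refine (norm_sub_le _ _).trans ((add_le_add h1 h2).trans ?_)
    have hx0 := abs_nonneg x
    have h3 : (((2 / 5 : ℝ)⁻¹ + 4) * (1 + B) * (1 + |x|) * (1 + |t|)) ^ (2 * k) ≤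
        (((2 / 5 : ℝ)⁻¹ + 4) * (1 + B) * (1 + |T|)) ^ (2 * k) * (1 + |x|) ^ NK k := by
      calc (((2 / 5 : ℝ)⁻¹ + 4) * (1 + B) * (1 + |x|) * (1 + |t|)) ^ (2 * k)
          = (((2 / 5 : ℝ)⁻¹ + 4) * (1 + B) * (1 + |t|)) ^ (2 * k) * (1 + |x|) ^ (2 * k) := by
            rw [← mul_pow]; ring
        _ ≤ (((2 / 5 : ℝ)⁻¹ + 4) * (1 + B) * (1 + |T|)) ^ (2 * k) * (1 + |x|) ^ NK k := by
            have h4 : (1 + |x|) ^ (2 * k) ≤ (1 + |x|) ^ NK k :=
              pow_le_pow_right₀ (by linarith) (by unfold NK; omega)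
            gcongr
    have h4 : CQ * (1 + |x|) ^ NK k * (1 + |t|) ^ (2 * k) ≤
        CQ * (1 + |T|) ^ (2 * k) * (1 + |x|) ^ NK k := by
      calc CQ * (1 + |x|) ^ NK k * (1 + |t|) ^ (2 * k)
          ≤ CQ * (1 + |x|) ^ NK k * (1 + |T|) ^ (2 * k) := by gcongr
        _ = _ := by ring
    calc _ ≤ _ := add_le_add h3 h4
      _ = _ := by ring

/-- The average over the antidiagonal line for distinct shifts. -/
theorem exists_avg_generic (k : ℕ) {ρ : ℝ} (hρ : 0 < ρ)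
    (hρ1 : ρ ≤ 1 / 64) {η : ℝ} (hη : 0 < η) (hη1 : η ≤ 2 / 5) :
    ∃ C : ℝ, 0 ≤ C ∧ ∀ B : ℝ, 0 ≤ B → ∀ a b : Fin k → ℝ, (∀ j, |a j| ≤ B) →
    (∀ j, |b j| ≤ B) → Function.Injective a → Function.Injective b →
    ∀ (w : ℂ → ℂ) (M M₁ : ℝ), Wt (AK k) M (1 / 8) w → Wt (AK k) M₁ (1 / 2 + η) w →
    ∀ T : ℝ, 1 ≤ T →
    ‖∫ x : ℝ, w x * Er (gr a b x) T‖ ≤
      C * (1 + B) ^ NB k * (M₁ + M * T ^ (3 / 4 + 4 * ρ)) := by
  obtain ⟨CJ₁, hCJ₁0, hCJ₁⟩ := exists_J_le k hρ hρ1 hη hη1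
  obtain ⟨CF, hCF0, hCF⟩ := exists_far_mean k hη
  obtain ⟨CQ₁, hCQ₁0, hCQ₁⟩ := exists_Q_ga_le k (ρ := 1 / 8) (by norm_num)
  refine ⟨4 * CF + 2 * CJ₁, by positivity, ?_⟩
  intro B hB a b ha hb hai hbi w M M₁ hw hw1 T hT
  have hM := hw.nonneg (by norm_num)
  have hM1 := hw1.nonneg (by linarith)
  have hη' : 0 < η⁻¹ := inv_pos.2 hη
  have hT0 : 0 ≤ T := by linarith
  have hB1 : 1 ≤ 1 + B := by linarith
  obtain ⟨CJ, hCJe⟩ : ∃ CJ : ℝ, CJ = CJ₁ * (1 + B) ^ NB k := ⟨_, rfl⟩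
  obtain ⟨CQ, hCQe⟩ : ∃ CQ : ℝ, CQ = CQ₁ * (1 + B) ^ NK k := ⟨_, rfl⟩
  have hCJ0 : 0 ≤ CJ := by rw [hCJe]; positivity
  have hCQ0 : 0 ≤ CQ := by rw [hCQe]; positivity
  have hCJ := hCJ₁ B hB
  have hCQ := hCQ₁ B hB
  rw [← hCJe] at hCJ
  rw [← hCQe] at hCQ
  have hCle : 4 * CF + 2 * CJ ≤ (4 * CF + 2 * CJ₁) * (1 + B) ^ NB k := by
    have h1 : 1 ≤ (1 + B) ^ NB k := one_le_pow₀ hB1
    have h2 := mul_le_mul_of_nonneg_left h1 hCF0
    rw [hCJe]
    linarith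
  refine le_trans ?_ (mul_le_mul_of_nonneg_right (b := 4 * CF + 2 * CJ) hCle
    (a := M₁ + M * T ^ (3 / 4 + 4 * ρ)) (by positivity))
  -- the two integrands
  set f : ℝ → ℝ → ℂ := fun x t => w ((x:ℂ) + ((0:ℝ):ℂ) * I) *
    (Zc (ga a b ((x:ℂ) + ((0:ℝ):ℂ) * I)) t - Qsum (ga a b ((x:ℂ) + ((0:ℝ):ℂ) * I)) t) with hf
  set g : ℝ → ℝ → ℂ := fun x t => w ((x:ℂ) + ((-(1/2+η):ℝ):ℂ) * I) *
    (Zc (ga a b ((x:ℂ) + ((-(1/2+η):ℝ):ℂ) * I)) t - Dz a b ((x:ℂ) + ((-(1/2+η):ℝ):ℂ) * I)) with hg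
  have h00 : ∀ x : ℝ, (x : ℂ) + ((0 : ℝ) : ℂ) * I = x := fun x => by simp
  -- continuity and bounds of `f`
  have hfc : ∀ x ∉ collX a b, ∀ t, ContinuousAt (Function.uncurry f) (x, t) := by
    intro x hx t
    have h1 : ContinuousAt (fun p : ℝ × ℝ => w ((p.1:ℂ) + ((0:ℝ):ℂ) * I)) (x, t) :=
      ((hw.continuous_line (y := 0) (by norm_num) (by norm_num)).comp
        continuous_fst).continuousAt
    have h2 : ContinuousAt (fun p : ℝ × ℝ => Zc (ga a b ((p.1:ℂ) + ((0:ℝ):ℂ) * I)) p.2) (x, t) :=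
      (continuous_Zc_line a b (y := 0) (by norm_num)).continuousAt
    have h3 := continuousAt_Qsum_ga (a := a) (b := b) (t := t)
      (z := (x : ℂ) + ((0 : ℝ) : ℂ) * I) (by rw [im_line]; norm_num)
      (by rw [h00]; exact injective_ga_of_notMem hai hbi hx)
    have h4 : ContinuousAt (fun p : ℝ × ℝ => Qsum (ga a b ((p.1:ℂ) + ((0:ℝ):ℂ) * I)) p.2)
        (x, t) :=
      ContinuousAt.comp (f := fun p : ℝ × ℝ => (((p.1:ℂ) + ((0:ℝ):ℂ) * I, p.2) : ℂ × ℝ))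
        (x := (x, t)) h3 (by fun_prop)
    exact h1.mul (h2.sub h4)
  have hfb : ∀ x ∉ collX a b, ∀ t, 0 ≤ t → t ≤ T → ‖f x t‖ ≤
      M * (((η⁻¹ + 4) * (1 + B) * (1 + T)) ^ (2 * k) + CQ * (1 + T) ^ (2 * k)) * (1 + x ^ 2)⁻¹ := by
    intro x hx t ht0 htT
    have h1 := norm_Zc_line_le hB ha hb hη hη1 (z := (x : ℂ) + ((0 : ℝ) : ℂ) * I)
      (by left; exact im_line x 0) t
    have h2 := hCQ a b ha hb ((x : ℂ) + ((0 : ℝ) : ℂ) * I) (by rw [im_line]; simp)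
      (by rw [h00]; exact injective_ga_of_notMem hai hbi hx) t
    rw [re_line, abs_of_nonneg ht0] at h1 h2
    have hx0 := abs_nonneg x
    have h3 : ((η⁻¹ + 4) * (1 + B) * (1 + |x|) * (1 + t)) ^ (2 * k) ≤
        ((η⁻¹ + 4) * (1 + B) * (1 + T)) ^ (2 * k) * (1 + |x|) ^ NK k := by
      calc ((η⁻¹ + 4) * (1 + B) * (1 + |x|) * (1 + t)) ^ (2 * k)
          = ((η⁻¹ + 4) * (1 + B) * (1 + t)) ^ (2 * k) * (1 + |x|) ^ (2 * k) := by
            rw [← mul_pow]; ring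
        _ ≤ ((η⁻¹ + 4) * (1 + B) * (1 + T)) ^ (2 * k) * (1 + |x|) ^ NK k := by
            have h4 : (1 + |x|) ^ (2 * k) ≤ (1 + |x|) ^ NK k :=
              pow_le_pow_right₀ (by linarith) (by unfold NK; omega)
            gcongr
    have h4 : CQ * (1 + |x|) ^ NK k * (1 + t) ^ (2 * k) ≤
        CQ * (1 + T) ^ (2 * k) * (1 + |x|) ^ NK k := by
      calc CQ * (1 + |x|) ^ NK k * (1 + t) ^ (2 * k)
          ≤ CQ * (1 + |x|) ^ NK k * (1 + T) ^ (2 * k) := by gcongr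
        _ = _ := by ring
    have h5 := weight_mul_le hw (m := NK k)
      (K := ((η⁻¹ + 4) * (1 + B) * (1 + T)) ^ (2 * k) + CQ * (1 + T) ^ (2 * k)) (NK_le_AK k)
      (z := (x : ℂ) + ((0 : ℝ) : ℂ) * I) (by rw [im_line]; norm_num) (by rw [im_line])
      (u := Zc (ga a b ((x:ℂ) + ((0:ℝ):ℂ) * I)) t - Qsum (ga a b ((x:ℂ) + ((0:ℝ):ℂ) * I)) t) (by
        rw [re_line]
        refine (norm_sub_le _ _).trans ((add_le_add h1 h2).trans ((add_le_add h3 h4).trans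
          (le_of_eq (by ring)))))
    rw [re_line] at h5
    exact h5
  have hswapf := integral_swap_of_bound hT0 (finite_collX a b) hfc hfb
  -- the same for `g`
  have hgc : Continuous (Function.uncurry g) := by
    have h1 : Continuous (fun p : ℝ × ℝ => w ((p.1:ℂ) + ((-(1/2+η):ℝ):ℂ) * I)) :=
      (hw.continuous_line (y := -(1/2+η)) (by linarith) (by linarith)).comp continuous_fst
    have h2 := continuous_Zc_line a b (y := -(1/2+η)) (by intro h'; linarith)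
    have h3 : Continuous fun x : ℝ => Dz a b ((x:ℂ) + ((-(1/2+η):ℝ):ℂ) * I) := by
      rw [continuous_iff_continuousAt]
      intro x
      have h1 := (differentiableAt_Dz a b (z := (x:ℂ) + ((-(1/2+η):ℝ):ℂ) * I) (by
        rw [im_line]; linarith)).continuousAt
      exact ContinuousAt.comp (f := fun x : ℝ => (x:ℂ) + ((-(1/2+η):ℝ):ℂ) * I) h1 (by fun_prop)
    exact h1.mul (h2.sub (h3.comp continuous_fst))
  have hw9 : ∀ x : ℝ, ‖w ((x:ℂ) + ((-(1/2+η):ℝ):ℂ) * I)‖ ≤ M₁ * (1 + x ^ 2)⁻¹ := by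
    intro x
    have h := weight_mul_le hw1 (m := 0) (K := 1) (by unfold AK; nlinarith)
      (z := (x : ℂ) + ((-(1/2+η):ℝ):ℂ) * I) (by rw [im_line]) (by rw [im_line]; linarith)
      (u := 1) (by simp)
    rw [re_line, mul_one, mul_one] at h
    exact h
  have hgb : ∀ x ∉ (∅ : Set ℝ), ∀ t, 0 ≤ t → t ≤ T → ‖g x t‖ ≤
      M₁ * (CF + CF) * (1 + x ^ 2)⁻¹ := by
    intro x _ t _ _
    have h := hCF a b ((x:ℂ) + ((-(1/2+η):ℝ):ℂ) * I) (im_line _ _)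
    have h1 : ‖Zc (ga a b ((x:ℂ) + ((-(1/2+η):ℝ):ℂ) * I)) t -
        Dz a b ((x:ℂ) + ((-(1/2+η):ℝ):ℂ) * I)‖ ≤ CF + CF :=
      (norm_sub_le _ _).trans (add_le_add (h.1 t) h.2.1)
    simp only [hg]
    rw [norm_mul]
    calc _ ≤ (M₁ * (1 + x ^ 2)⁻¹) * (CF + CF) :=
          mul_le_mul (hw9 x) h1 (norm_nonneg _) (by positivity)
      _ = _ := by ring
  have hswapg := integral_swap_of_bound hT0 Set.finite_empty (fun x _ t => hgc.continuousAt) hgb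
  -- the average is the integral of `f`
  have e1 : ∫ x : ℝ, w x * Er (gr a b x) T = ∫ x : ℝ, ∫ t in (0:ℝ)..T, f x t := by
    refine integral_congr_ae ?_
    have hae : ∀ᵐ x : ℝ, x ∉ collX a b :=
      measure_mono_null (fun x hx => not_not.1 hx) ((finite_collX a b).measure_zero _)
    filter_upwards [hae] with x hx
    rw [Er_eq_integral (injective_gr hai hbi hx), ← ga_ofReal]
    simp only [hf, h00]
    rw [intervalIntegral.integral_const_mul]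
  rw [e1, hswapf.1]
  -- the integral of `g`
  have hgint : ‖∫ t in (0:ℝ)..T, ∫ x : ℝ, g x t‖ ≤ 4 * CF * M₁ := by
    rw [← hswapg.1]
    have hb : ∀ x : ℝ, ‖∫ t in (0:ℝ)..T, g x t‖ ≤ (M₁ * CF) * (1 + x ^ 2)⁻¹ := by
      intro x
      simp only [hg]
      rw [intervalIntegral.integral_const_mul, norm_mul]
      have h := (hCF a b ((x:ℂ) + ((-(1/2+η):ℝ):ℂ) * I) (im_line _ _)).2.2 T
      calc _ ≤ (M₁ * (1 + x ^ 2)⁻¹) * CF :=
            mul_le_mul (hw9 x) h (norm_nonneg _) (by positivity)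
        _ = _ := by ring
    have h1 := norm_integral_le_of_norm_le (integrable_inv_one_add_sq.const_mul
      (M₁ * CF)) (Filter.Eventually.of_forall hb)
    rw [integral_const_mul, integral_univ_inv_one_add_sq] at h1
    refine h1.trans ?_
    have hp : 0 ≤ M₁ * CF := by positivity
    have := mul_le_mul_of_nonneg_left Real.pi_le_four hp
    linarith
  -- the difference
  have hθ : 0 < 1 / 4 - 4 * ρ := by linarith
  have hdiff : ‖∫ t in (0:ℝ)..T, ((∫ x : ℝ, f x t) - ∫ x : ℝ, g x t)‖ ≤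
      2 * CJ * (M₁ + M * T ^ (3 / 4 + 4 * ρ)) := by
    have h1 : ∀ t ∈ Set.Ioc 0 T, ‖(∫ x : ℝ, f x t) - ∫ x : ℝ, g x t‖ ≤
        CJ * M₁ * (1 + t ^ 2)⁻¹ + CJ * M * t ^ (-(1 / 4 - 4 * ρ)) := by
      intro t ht
      have ht0 : 0 < t := ht.1
      refine (hCJ a b ha hb hai hbi w M M₁ hw hw1 t ht0.le).trans ?_
      have h2 : ((1 + t) ^ 2)⁻¹ ≤ (1 + t ^ 2)⁻¹ := by
        have := inv_sq_le t
        rw [abs_of_pos ht0] at this
        exact this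
      have h3 : (1 + t) ^ (-(1 / 4 - 4 * ρ)) ≤ t ^ (-(1 / 4 - 4 * ρ)) :=
        Real.rpow_le_rpow_of_nonpos ht0 (by linarith) (by linarith)
      calc CJ * (M₁ * ((1 + t) ^ 2)⁻¹ + M * (1 + t) ^ (-(1 / 4 - 4 * ρ)))
          ≤ CJ * (M₁ * (1 + t ^ 2)⁻¹ + M * t ^ (-(1 / 4 - 4 * ρ))) := by gcongr
        _ = _ := by ring
    have hint1 : IntervalIntegrable (fun t : ℝ => CJ * M₁ * (1 + t ^ 2)⁻¹) volume 0 T :=
      (integrable_inv_one_add_sq.const_mul _).intervalIntegrable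
    have hint2 : IntervalIntegrable (fun t : ℝ => CJ * M * t ^ (-(1 / 4 - 4 * ρ))) volume 0 T :=
      (intervalIntegral.intervalIntegrable_rpow' (by linarith)).const_mul _
    have h2 := intervalIntegral.norm_integral_le_of_norm_le hT0
      (Filter.Eventually.of_forall h1) (hint1.add hint2)
    refine h2.trans ?_
    rw [intervalIntegral.integral_add hint1 hint2, intervalIntegral.integral_const_mul,
      intervalIntegral.integral_const_mul, integral_rpow (Or.inl (by linarith)),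
      Real.zero_rpow (by linarith), sub_zero, integral_inv_one_add_sq, Real.arctan_zero, sub_zero]
    have e : -(1 / 4 - 4 * ρ) + 1 = 3 / 4 + 4 * ρ := by ring
    rw [e]
    have h3 : T ^ (3 / 4 + 4 * ρ) / (3 / 4 + 4 * ρ) ≤ 2 * T ^ (3 / 4 + 4 * ρ) := by
      rw [div_le_iff₀ (by linarith)]
      have : 0 ≤ T ^ (3 / 4 + 4 * ρ) := by positivity
      nlinarith
    have h4 : Real.arctan T ≤ 2 := by
      have := Real.arctan_lt_pi_div_two T
      have := Real.pi_le_four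
      linarith
    calc CJ * M₁ * Real.arctan T + CJ * M * (T ^ (3 / 4 + 4 * ρ) / (3 / 4 + 4 * ρ))
        ≤ CJ * M₁ * 2 + CJ * M * (2 * T ^ (3 / 4 + 4 * ρ)) := by gcongr
      _ = _ := by ring
  have e2 : (∫ t in (0:ℝ)..T, ∫ x : ℝ, f x t) = (∫ t in (0:ℝ)..T, ∫ x : ℝ, g x t) +
      ∫ t in (0:ℝ)..T, ((∫ x : ℝ, f x t) - ∫ x : ℝ, g x t) := by
    rw [intervalIntegral.integral_sub hswapf.2 hswapg.2]
    ring
  rw [e2]
  refine (norm_add_le _ _).trans ((add_le_add hgint hdiff).trans ?_)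
  have h5 : 0 ≤ 4 * CF * (M * T ^ (3 / 4 + 4 * ρ)) := by positivity
  have e3 : (4 * CF + 2 * CJ) * (M₁ + M * T ^ (3 / 4 + 4 * ρ)) =
      4 * CF * M₁ + 2 * CJ * (M₁ + M * T ^ (3 / 4 + 4 * ρ)) +
      4 * CF * (M * T ^ (3 / 4 + 4 * ρ)) := by ring
  rw [e3]
  linarith

end Pool.Agent.H26
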