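import Pool.Agent.H26.OmDefs

/-!
Elementary facts on `lam z = log (1 + e^z)` in the strip `|Im z| < 1/2`.
-/

namespace Pool.Agent.H26

open Complex Set

/-- the basic strip -/
def St : Set ℂ := {z | |z.im| < 1 / 2}

lemma isOpen_St : IsOpen St := isOpen_lt (by fun_prop) continuous_const

lemma cos_half_ge : (7 / 8 : ℝ) ≤ Real.cos (1 / 2) := by
  have := Real.one_sub_sq_div_two_le_cos (x := 1 / 2)
  norm_num at this ⊢
  linarith

lemma cos_ge_of_abs_le {x : ℝ} (hx : |x| ≤ 1 / 2) : (7 / 8 : ℝ) ≤ Real.cos x := by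
  have := Real.one_sub_sq_div_two_le_cos (x := x)
  have h2 : x ^ 2 ≤ (1 / 2) ^ 2 := sq_le_sq' (by linarith [(abs_le.1 hx).1]) (abs_le.1 hx).2
  linarith

lemma re_one_add_exp (z : ℂ) : (1 + cexp z).re = 1 + Real.exp z.re * Real.cos z.im := by
  simp [Complex.exp_re]

lemma im_one_add_exp (z : ℂ) : (1 + cexp z).im = Real.exp z.re * Real.sin z.im := by
  simp [Complex.exp_im]

lemma one_lt_re_one_add_exp {z : ℂ} (hz : |z.im| ≤ 1 / 2) : 1 < (1 + cexp z).re := by
  rw [re_one_add_exp]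
  have := cos_ge_of_abs_le hz
  have := Real.exp_pos z.re
  nlinarith

lemma one_add_exp_slit {z : ℂ} (hz : |z.im| ≤ 1 / 2) : 1 + cexp z ∈ slitPlane :=
  Or.inl (by linarith [one_lt_re_one_add_exp hz])

lemma one_add_exp_ne {z : ℂ} (hz : |z.im| ≤ 1 / 2) : 1 + cexp z ≠ 0 :=
  slitPlane_ne_zero (one_add_exp_slit hz)

lemma exp_lam {z : ℂ} (hz : |z.im| ≤ 1 / 2) : cexp (lam z) = 1 + cexp z :=
  Complex.exp_log (one_add_exp_ne hz)

lemma differentiableAt_lam {z : ℂ} (hz : |z.im| ≤ 1 / 2) : DifferentiableAt ℂ lam z := by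
  unfold lam
  exact DifferentiableAt.clog (by fun_prop) (one_add_exp_slit hz)

lemma differentiableOn_lam : DifferentiableOn ℂ lam St := fun _ hz =>
  (differentiableAt_lam (le_of_lt hz)).differentiableWithinAt

lemma lam_re (z : ℂ) : (lam z).re = Real.log ‖1 + cexp z‖ := Complex.log_re _

lemma lam_im (z : ℂ) : (lam z).im = (1 + cexp z).arg := Complex.log_im _

lemma lam_re_ge {z : ℂ} (hz : |z.im| ≤ 1 / 2) :
    Real.exp z.re * Real.cos z.im / (1 + Real.exp z.re * Real.cos z.im) ≤ (lam z).re := by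
  have h1 := one_lt_re_one_add_exp hz
  have h2 : (1 + cexp z).re ≤ ‖1 + cexp z‖ := Complex.re_le_norm _
  rw [lam_re]
  have h3 : Real.log (1 + cexp z).re ≤ Real.log ‖1 + cexp z‖ :=
    Real.log_le_log (by linarith) h2
  refine le_trans ?_ h3
  rw [re_one_add_exp] at *
  set x := Real.exp z.re * Real.cos z.im
  have hx : 0 < 1 + x := by linarith
  have := Real.one_sub_inv_le_log_of_pos hx
  refine le_trans (le_of_eq ?_) this
  field_simp
  ring

lemma lam_re_pos {z : ℂ} (hz : |z.im| ≤ 1 / 2) : 0 < (lam z).re := by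
  refine lt_of_lt_of_le ?_ (lam_re_ge hz)
  have := cos_ge_of_abs_le hz
  have := Real.exp_pos z.re
  have h : 0 < Real.exp z.re * Real.cos z.im := by positivity
  positivity

lemma lam_re_lower {z : ℂ} (hz : |z.im| ≤ 1 / 2) :
    1 / 3 * Real.exp (-|z.re|) ≤ (lam z).re := by
  refine le_trans ?_ (lam_re_ge hz)
  have hc := cos_ge_of_abs_le hz
  have hc1 := Real.cos_le_one z.im
  have he := Real.exp_pos z.re
  have h1 : Real.exp (-|z.re|) ≤ 1 := Real.exp_le_one_iff.2 (by simp)
  have h2 : Real.exp (-|z.re|) ≤ Real.exp z.re := Real.exp_le_exp.2 (neg_abs_le _)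
  have h0 := Real.exp_pos (-|z.re|)
  rw [le_div_iff₀ (by positivity)]
  set x := Real.exp z.re * Real.cos z.im with hx
  have hx1 : 7 / 8 * Real.exp z.re ≤ x := by rw [hx]; nlinarith
  nlinarith

lemma abs_lam_im_le {z : ℂ} (hz : |z.im| ≤ 1 / 2) :
    |(lam z).im| ≤ |Real.exp z.re * Real.sin z.im| / (1 + Real.exp z.re * Real.cos z.im) := by
  have h1 := one_lt_re_one_add_exp hz
  have harg : |(1 + cexp z).arg| < Real.pi / 2 :=
    Complex.abs_arg_lt_pi_div_two_iff.2 (Or.inl (by linarith))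
  rw [lam_im]
  have h2 : |(1 + cexp z).arg| ≤ |Real.tan (1 + cexp z).arg| := by
    rcases le_total 0 (1 + cexp z).arg with h | h
    · rw [abs_of_nonneg h] at harg ⊢
      exact (Real.le_tan h harg).trans (le_abs_self _)
    · rw [abs_of_nonpos h] at harg ⊢
      have := Real.le_tan (x := -(1 + cexp z).arg) (by linarith) harg
      rw [Real.tan_neg] at this
      exact this.trans (neg_le_abs _)
  refine h2.trans (le_of_eq ?_)
  rw [Complex.tan_arg, im_one_add_exp, re_one_add_exp, abs_div]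
  congr 1
  rw [abs_of_pos]
  rw [re_one_add_exp] at h1
  linarith

lemma abs_lam_im_le_re {z : ℂ} (hz : |z.im| ≤ 1 / 2) : |(lam z).im| ≤ 3 / 5 * (lam z).re := by
  refine (abs_lam_im_le hz).trans (le_trans ?_ (mul_le_mul_of_nonneg_left (lam_re_ge hz)
    (by norm_num : (0:ℝ) ≤ 3 / 5)))
  have hc := cos_ge_of_abs_le hz
  have he := Real.exp_pos z.re
  rw [abs_mul, abs_of_pos he, ← mul_div_assoc]
  gcongr ?_ / _
  have hs : |Real.sin z.im| ≤ 1 / 2 := Real.abs_sin_le_abs.trans hz
  nlinarith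

lemma abs_lam_im_le_abs {z : ℂ} (hz : |z.im| ≤ 1 / 2) : |(lam z).im| ≤ |z.im| := by
  -- compare arguments via tangents
  have hc := cos_ge_of_abs_le hz
  have he := Real.exp_pos z.re
  have h1 := abs_lam_im_le hz
  have h1' := one_lt_re_one_add_exp hz
  have harg : |(1 + cexp z).arg| < Real.pi / 2 :=
    Complex.abs_arg_lt_pi_div_two_iff.2 (Or.inl (by linarith))
  have hpi := Real.pi_gt_three
  by_contra hcon
  push Not at hcon
  rw [lam_im] at hcon
  have htan : Real.tan |z.im| < Real.tan |(1 + cexp z).arg| :=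
    Real.tan_lt_tan_of_nonneg_of_lt_pi_div_two (abs_nonneg _) harg hcon
  have e1 : Real.tan |(1 + cexp z).arg| = |Real.exp z.re * Real.sin z.im| /
      (1 + Real.exp z.re * Real.cos z.im) := by
    have h3 : |Real.tan (1 + cexp z).arg| = Real.tan |(1 + cexp z).arg| := by
      rcases le_total 0 (1 + cexp z).arg with h | h
      · rw [abs_of_nonneg h]
        rw [abs_of_nonneg h] at harg
        exact abs_of_nonneg (Real.tan_nonneg_of_nonneg_of_le_pi_div_two h harg.le)
      · rw [abs_of_nonpos h]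
        rw [abs_of_nonpos h] at harg
        have h4 := Real.tan_nonneg_of_nonneg_of_le_pi_div_two
          (x := -(1 + cexp z).arg) (by linarith) harg.le
        rw [Real.tan_neg] at h4 ⊢
        rw [abs_of_nonpos (by linarith)]
    rw [← h3, Complex.tan_arg, im_one_add_exp, re_one_add_exp, abs_div]
    congr 1
    rw [abs_of_pos]
    rw [re_one_add_exp] at h1'
    linarith
  have e2 : Real.tan |z.im| = |Real.sin z.im| / Real.cos z.im := by
    rw [Real.tan_eq_sin_div_cos, Real.cos_abs]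
    congr 1
    rcases le_total 0 z.im with h | h
    · rw [abs_of_nonneg h, abs_of_nonneg (Real.sin_nonneg_of_nonneg_of_le_pi h (by
        rw [abs_of_nonneg h] at hz; linarith))]
    · rw [abs_of_nonpos h, Real.sin_neg]
      rw [abs_of_nonpos h] at hz
      have := Real.sin_nonneg_of_nonneg_of_le_pi (x := -z.im) (by linarith) (by linarith)
      rw [Real.sin_neg] at this
      rw [abs_of_nonpos (by linarith)]
  rw [e1, e2, abs_mul, abs_of_pos he, div_lt_div_iff₀ (by linarith) (by positivity)] at htan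
  have hs := abs_nonneg (Real.sin z.im)
  nlinarith

lemma norm_lam_le_exp {z : ℂ} (hz : |z.im| ≤ 1 / 2) : ‖lam z‖ ≤ 2 * Real.exp z.re := by
  have h1 := abs_lam_im_le_re hz
  have h2 := lam_re_pos hz
  have h3 : (lam z).re ≤ Real.exp z.re := by
    rw [lam_re]
    have h4 : ‖1 + cexp z‖ ≤ 1 + Real.exp z.re := by
      refine (norm_add_le _ _).trans ?_
      rw [norm_one, Complex.norm_exp]
    have h5 : 0 < ‖1 + cexp z‖ := norm_pos_iff.2 (one_add_exp_ne hz)
    calc Real.log ‖1 + cexp z‖ ≤ Real.log (1 + Real.exp z.re) := Real.log_le_log h5 h4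
      _ ≤ (1 + Real.exp z.re) - 1 := Real.log_le_sub_one_of_pos (by positivity)
      _ = _ := by ring
  have h4 := Complex.norm_le_abs_re_add_abs_im (lam z)
  rw [abs_of_pos h2] at h4
  linarith

lemma norm_lam_lower {z : ℂ} (hz : |z.im| ≤ 1 / 2) : 1 / 3 * Real.exp (-|z.re|) ≤ ‖lam z‖ :=
  (lam_re_lower hz).trans (Complex.re_le_norm _)

/-- negativity of the imaginary part in the lower half strip -/
lemma lam_im_neg_lower {z : ℂ} (hz : |z.im| ≤ 1 / 2) (h0 : z.im ≤ 0) :
    1 / 4 * |z.im| * Real.exp (-|z.re|) ≤ -(lam z).im := by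
  have hc := cos_ge_of_abs_le hz
  have hc1 := Real.cos_le_one z.im
  have he := Real.exp_pos z.re
  have h1 := one_lt_re_one_add_exp hz
  have hn : 0 < ‖1 + cexp z‖ := norm_pos_iff.2 (one_add_exp_ne hz)
  have hs1 : Real.sin z.im ≤ 0 := Real.sin_nonpos_of_nonpos_of_neg_pi_le h0 (by
    have := (abs_le.1 hz).1; linarith [Real.pi_gt_three])
  have hs2 : 3 / 4 * |z.im| ≤ -Real.sin z.im := by
    have hx := abs_of_nonpos h0
    rw [hx] at hz ⊢
    rw [← Real.sin_neg]
    rcases eq_or_lt_of_le (show (0:ℝ) ≤ -z.im by linarith) with h | h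
    · rw [← h]; simp
    have := Real.sin_gt_sub_cube h
    have h3 : (-z.im) ^ 3 ≤ (-z.im) * (1 / 4) := by
      have : (-z.im) ^ 2 ≤ 1 / 4 := by nlinarith
      calc (-z.im) ^ 3 = (-z.im) * (-z.im) ^ 2 := by ring
        _ ≤ _ := by gcongr
    linarith
  have h2 : Real.sin (lam z).im = Real.exp z.re * Real.sin z.im / ‖1 + cexp z‖ := by
    rw [lam_im, Complex.sin_arg, im_one_add_exp]
  have h3 : ‖1 + cexp z‖ ≤ 1 + Real.exp z.re := by
    refine (norm_add_le _ _).trans ?_
    rw [norm_one, Complex.norm_exp]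
  have h4 : (lam z).im ≤ 0 := by
    by_contra hcon
    push Not at hcon
    have h5 : 0 < Real.sin (lam z).im := by
      refine Real.sin_pos_of_pos_of_lt_pi hcon ?_
      have := (abs_le.1 (abs_lam_im_le_abs hz)).2
      linarith [Real.pi_gt_three]
    rw [h2] at h5
    have h6 : Real.exp z.re * Real.sin z.im / ‖1 + cexp z‖ ≤ 0 :=
      div_nonpos_of_nonpos_of_nonneg (mul_nonpos_of_nonneg_of_nonpos he.le hs1) hn.le
    linarith
  have h5 : -Real.sin (lam z).im ≤ -(lam z).im := by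
    rw [← Real.sin_neg]
    exact Real.sin_le (by linarith)
  refine le_trans ?_ h5
  rw [h2, ← neg_div, ← mul_neg, le_div_iff₀ hn]
  have h6 : Real.exp (-|z.re|) ≤ 1 := Real.exp_le_one_iff.2 (by simp)
  have h7 : Real.exp (-|z.re|) ≤ Real.exp z.re := Real.exp_le_exp.2 (neg_abs_le _)
  have h0' := Real.exp_pos (-|z.re|)
  have ha := abs_nonneg z.im
  calc 1 / 4 * |z.im| * Real.exp (-|z.re|) * ‖1 + cexp z‖
      ≤ 1 / 4 * |z.im| * Real.exp (-|z.re|) * (1 + Real.exp z.re) := by gcongr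
    _ = 1 / 4 * |z.im| * (Real.exp (-|z.re|) + Real.exp (-|z.re|) * Real.exp z.re) := by ring
    _ ≤ 1 / 4 * |z.im| * (Real.exp z.re + 1 * Real.exp z.re) := by gcongr
    _ ≤ Real.exp z.re * (3 / 4 * |z.im|) := by nlinarith [mul_nonneg ha he.le]
    _ ≤ _ := by gcongr

end Pool.Agent.H26
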