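import Pool.Agent.H26.MBDefs

/-!
The Mellin–Barnes representation.
-/

namespace Pool.Agent.H26

open Complex MeasureTheory Set Filter Topology Pool.Agent.H95fa

/-- the coefficients of the double series -/
noncomputable def kap (c : ℕ → ℂ) (l : List ℝ) (b : ℝ) (p : ℕ × ℕ) : ℂ :=
  c p.1 * ((p.1 + 1 : ℕ) : ℂ) ^ (-(1 / 2) - I * b) * aco l (p.2 + 1)

/-- the frequencies of the double series -/
noncomputable def xp (p : ℕ × ℕ) : ℝ := ((p.2 + 1 : ℕ) : ℝ) / ((p.1 + 1 : ℕ) : ℝ)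

lemma xp_pos (p : ℕ × ℕ) : 0 < xp p := by unfold xp; positivity

lemma xp_cpow (p : ℕ × ℕ) (s : ℂ) :
    (xp p : ℂ) ^ (-s) = ((p.1 + 1 : ℕ) : ℂ) ^ s * ((p.2 + 1 : ℕ) : ℂ) ^ (-s) := by
  have h1 : (0:ℝ) < ((p.2 + 1 : ℕ) : ℝ) := by positivity
  have h2 : (0:ℝ) < ((p.1 + 1 : ℕ) : ℝ) := by positivity
  unfold xp
  rw [Complex.ofReal_div, Complex.div_cpow_ofReal_nonneg h1.le h2.le, div_eq_mul_inv,
    ← Complex.cpow_neg, neg_neg, Complex.ofReal_natCast, Complex.ofReal_natCast]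
  ring

lemma summable_kap {c : ℕ → ℂ} (l : List ℝ) (b : ℝ)
    (hc : Summable fun m => ‖c m‖ * ((m + 1 : ℕ) : ℝ) ^ (2:ℝ)) :
    Summable fun p : ℕ × ℕ => ‖kap c l b p‖ * (xp p) ^ (-2 : ℝ) := by
  have h1 : Summable fun m : ℕ => ‖c m‖ * ((m + 1 : ℕ) : ℝ) ^ (3 / 2 : ℝ) := by
    refine Summable.of_nonneg_of_le (fun m => by positivity) (fun m => ?_) hc
    have hm1 : (1:ℝ) ≤ ((m + 1 : ℕ) : ℝ) := by
      push_cast
      linarith [Nat.cast_nonneg (α := ℝ) m]
    gcongr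
    norm_num
  have h2 : Summable fun n : ℕ => ‖aco l (n + 1)‖ * ((n + 1 : ℕ) : ℝ) ^ (-2 : ℝ) :=
    (summable_nat_add_iff 1).2 (summable_aco l (c := 2) (by norm_num))
  have h3 := h1.mul_of_nonneg h2 (fun m => by positivity) (fun n => by positivity)
  refine h3.congr fun p => ?_
  have hp1 : (0:ℝ) < ((p.1 + 1 : ℕ) : ℝ) := by positivity
  have hp2 : (0:ℝ) < ((p.2 + 1 : ℕ) : ℝ) := by positivity
  unfold kap xp
  have e1 : (-(1 / 2) - I * (b:ℂ)).re = -(1 / 2) := by simp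
  have e3 : (((p.1 + 1 : ℕ) : ℝ) ^ (-2 : ℝ))⁻¹ = ((p.1 + 1 : ℕ) : ℝ) ^ (- -2 : ℝ) :=
    (Real.rpow_neg hp1.le _).symm
  rw [norm_mul, norm_mul, Complex.norm_natCast_cpow_of_pos (Nat.succ_pos _),
    Real.div_rpow hp2.le hp1.le, div_eq_mul_inv (((p.2 + 1 : ℕ) : ℝ) ^ (-2 : ℝ)), e3, e1]
  have e2 : ((p.1 + 1 : ℕ) : ℝ) ^ (3 / 2 : ℝ) =
      ((p.1 + 1 : ℕ) : ℝ) ^ (-(1 / 2) : ℝ) * ((p.1 + 1 : ℕ) : ℝ) ^ (- -2 : ℝ) := by
    rw [← Real.rpow_add hp1]
    congr 1
    norm_num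
  rw [e2]
  ring

lemma summable_term_aco (l : List ℝ) {s : ℂ} (hs : s.re = 2) :
    Summable fun n : ℕ => LSeries.term (aco l) s n := by
  refine Summable.of_norm_bounded (summable_aco l (c := 2) (by norm_num)) fun n => ?_
  rcases Nat.eq_zero_or_pos n with h | h
  · subst h
    rw [LSeries.term_zero, norm_zero]
    positivity
  · rw [LSeries.term_of_ne_zero h.ne', norm_div, Complex.norm_natCast_cpow_of_pos h,
      div_eq_mul_inv, ← Real.rpow_neg (Nat.cast_nonneg n), hs]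

lemma summable_norm_aco (l : List ℝ) {s : ℂ} (hs : s.re = 2) :
    Summable fun n : ℕ => ‖aco l (n + 1) * ((n + 1 : ℕ) : ℂ) ^ (-s)‖ := by
  have := ((summable_nat_add_iff 1).2 (summable_term_aco l hs)).norm
  refine this.congr fun n => ?_
  rw [LSeries.term_of_ne_zero (Nat.succ_ne_zero n), div_eq_mul_inv, ← Complex.cpow_neg]

/-- the untwisted double series -/
lemma double_series {c : ℕ → ℂ} (l : List ℝ) (b : ℝ)
    (hc : Summable fun m => ‖c m‖ * ((m + 1 : ℕ) : ℝ) ^ (2:ℝ)) {s : ℂ} (hs : s.re = 2) :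
    Hs c (s - 1 / 2 - I * b) * zprod l s = ∑' p, kap c l b p * (xp p : ℂ) ^ (-s) := by
  have hz : zprod l s = ∑' n : ℕ, aco l (n + 1) * ((n + 1 : ℕ) : ℂ) ^ (-s) := by
    rw [← LSeries_aco l (by rw [hs]; norm_num), LSeries,
      (summable_term_aco l hs).tsum_eq_zero_add, LSeries.term_zero, zero_add]
    refine tsum_congr fun n => ?_
    rw [LSeries.term_of_ne_zero (Nat.succ_ne_zero n), div_eq_mul_inv, ← Complex.cpow_neg]
  have h1 : Summable fun m : ℕ => ‖c m * ((m + 1 : ℕ) : ℂ) ^ (s - 1 / 2 - I * b)‖ :=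
    Summable.of_nonneg_of_le (fun m => norm_nonneg _)
      (fun m => norm_Hs_term_le c m (by simp [hs])) hc
  have h2 := summable_norm_aco l hs
  rw [Hs, hz, tsum_mul_tsum_of_summable_norm h1 h2]
  refine tsum_congr fun p => ?_
  rw [xp_cpow, kap]
  have e : ((p.1 + 1 : ℕ) : ℂ) ^ (s - 1 / 2 - I * b) =
      ((p.1 + 1 : ℕ) : ℂ) ^ (-(1 / 2) - I * b) * ((p.1 + 1 : ℕ) : ℂ) ^ s := by
    rw [← Complex.cpow_add _ _ (by exact_mod_cast Nat.succ_ne_zero p.1)]
    congr 1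
    ring
  rw [e]
  ring

/-- the twisted double series -/
lemma double_series_twist {c : ℕ → ℂ} (l : List ℝ) (b : ℝ)
    (hc : Summable fun m => ‖c m‖ * ((m + 1 : ℕ) : ℝ) ^ (2:ℝ)) {s : ℂ} (hs : s.re = 2) :
    Aser c l b s = ∑' p, (kap c l b p * cexp (-(2 * Real.pi * I * xp p))) * (xp p : ℂ) ^ (-s) := by
  have hsum : Summable fun p : ℕ × ℕ =>
      (kap c l b p * cexp (-(2 * Real.pi * I * xp p))) * (xp p : ℂ) ^ (-s) := by
    refine Summable.of_norm_bounded (summable_kap l b hc) fun p => le_of_eq ?_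
    have : ‖cexp (-(2 * Real.pi * I * xp p))‖ = 1 := by
      rw [Complex.norm_exp]
      simp
    rw [norm_mul, norm_mul, this, mul_one, Complex.norm_cpow_eq_rpow_re_of_pos (xp_pos p)]
    simp [hs]
  rw [hsum.tsum_prod, Aser]
  refine tsum_congr fun m => ?_
  rw [Aterm, ← LSeries_aco_twist l (Phi (m + 1)) (by rw [hs]; norm_num), LSeries]
  have hsm : Summable fun n : ℕ => LSeries.term (fun n => aco l n * Phi (m + 1) (n : ZMod (m + 1)))
      s n := by
    refine Summable.of_norm_bounded (summable_term_aco l hs).norm fun n => le_of_eq ?_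
    rcases Nat.eq_zero_or_pos n with h | h
    · subst h; rw [LSeries.term_zero, LSeries.term_zero]
    · rw [LSeries.term_of_ne_zero h.ne', LSeries.term_of_ne_zero h.ne', norm_div, norm_div,
        norm_mul, norm_Phi, mul_one]
  rw [hsm.tsum_eq_zero_add, LSeries.term_zero, zero_add, ← tsum_mul_left]
  refine tsum_congr fun n => ?_
  have e0 : ∀ x : ℂ, x / ((n + 1 : ℕ) : ℂ) ^ s = x * ((n + 1 : ℕ) : ℂ) ^ (-s) := fun x => by
    rw [Complex.cpow_neg, div_eq_mul_inv]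
  rw [LSeries.term_of_ne_zero (Nat.succ_ne_zero n), e0, Phi_natCast, xp_cpow, kap]
  have e : ((m + 1 : ℕ) : ℂ) ^ (s - 1 / 2 - I * b) =
      ((m + 1 : ℕ) : ℂ) ^ (-(1 / 2) - I * b) * ((m + 1 : ℕ) : ℂ) ^ s := by
    rw [← Complex.cpow_add _ _ (by exact_mod_cast Nat.succ_ne_zero m)]
    congr 1
    ring
  rw [e]
  unfold xp
  ring

theorem integral_Fint_eq {c : ℕ → ℂ} (l : List ℝ) (b : ℝ)
    (hc : Summable fun m => ‖c m‖ * ((m + 1 : ℕ) : ℝ) ^ (2:ℝ)) {z : ℂ} (hz : z ∈ St)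
    (hz0 : z.im < 0) :
    ∫ v : ℝ, Gp (2 + v * I) * Fint c l b z (2 + v * I) =
      ∫ v : ℝ, Gp (2 + v * I) * cexp (-((2 + v * I) * z)) * Aser c l b (2 + v * I) := by
  have hpi := Real.pi_gt_three
  have hz' : |z.im| ≤ 1 / 2 := le_of_lt hz
  have hzim : -Real.pi < z.im := by
    have := (abs_le.1 hz').1
    linarith
  have hlam0 : (lam z).im < 0 := by
    have h := lam_im_neg_lower hz' hz0.le
    have : 0 < |z.im| := abs_pos.2 hz0.ne
    have : 0 < 1 / 4 * |z.im| * Real.exp (-|z.re|) := by positivity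
    linarith
  have hlam1 : -Real.pi < (lam z).im := by
    have := (abs_le.1 ((abs_lam_im_le_abs hz').trans hz')).1
    linarith
  have h1 := cahen_mellin_sum xp_pos (summable_kap l b hc) hlam0 hlam1
  have hs2 : Summable fun p : ℕ × ℕ => ‖kap c l b p * cexp (-(2 * Real.pi * I * xp p))‖ *
      (xp p) ^ (-2 : ℝ) := by
    refine (summable_kap l b hc).congr fun p => ?_
    have : ‖cexp (-(2 * Real.pi * I * xp p))‖ = 1 := by
      rw [Complex.norm_exp]
      simp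
    rw [norm_mul, this, mul_one]
  have h2 := cahen_mellin_sum xp_pos hs2 hz0 hzim
  have e1 : ∫ v : ℝ, Gp (2 + v * I) * Fint c l b z (2 + v * I) =
      ∫ v : ℝ, Gp (2 + v * I) * cexp (-((2 + v * I) * lam z)) *
        ∑' p, kap c l b p * (xp p : ℂ) ^ (-(2 + v * I)) := by
    refine integral_congr_ae (Eventually.of_forall fun v => ?_)
    simp only
    rw [Fint, double_series l b hc (s := 2 + v * I) (by simp)]
    ring
  have e2 : ∫ v : ℝ, Gp (2 + v * I) * cexp (-((2 + v * I) * z)) * Aser c l b (2 + v * I) =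
      ∫ v : ℝ, Gp (2 + v * I) * cexp (-((2 + v * I) * z)) *
        ∑' p, (kap c l b p * cexp (-(2 * Real.pi * I * xp p))) * (xp p : ℂ) ^ (-(2 + v * I)) := by
    refine integral_congr_ae (Eventually.of_forall fun v => ?_)
    simp only
    rw [double_series_twist l b hc (s := 2 + v * I) (by simp)]
  rw [e1, e2, h1, h2]
  refine tsum_congr fun p => ?_
  rw [exp_lam hz']
  have : cexp (-(2 * Real.pi * I * xp p * (1 + cexp z))) =
      cexp (-(2 * Real.pi * I * xp p)) * cexp (-(2 * Real.pi * I * xp p * cexp z)) := by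
    rw [← Complex.exp_add]
    congr 1
    ring
  rw [this]
  ring

end Pool.Agent.H26
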