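import Pool.Agent.H26.Eval
import Pool.Agent.H95fa.Twist

/-!
The twisted Dirichlet series attached to the averaged product: convergence and bounds.
-/

namespace Pool.Agent.H26

open Complex MeasureTheory Set Filter Topology Pool.Agent.H95fa

/-- the additive character `n ↦ e(-n/N)` -/
noncomputable def Phi (N : ℕ) [NeZero N] (x : ZMod N) : ℂ := ZMod.stdAddChar (-x)

lemma norm_Phi (N : ℕ) [NeZero N] (x : ZMod N) : ‖Phi N x‖ = 1 := by
  unfold Phi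
  exact AddChar.norm_apply _ _

lemma Phi_natCast (N : ℕ) [NeZero N] (n : ℕ) :
    Phi N (n : ZMod N) = cexp (-(2 * Real.pi * I * ((n : ℝ) / (N : ℝ) : ℝ))) := by
  unfold Phi
  have h := ZMod.stdAddChar_coe (N := N) (-(n:ℤ))
  push_cast at h
  rw [h]
  congr 1
  push_cast
  ring

/-- the terms of the twisted series -/
noncomputable def Aterm (c : ℕ → ℂ) (l : List ℝ) (b : ℝ) (m : ℕ) (w : ℂ) : ℂ :=
  c m * ((m + 1 : ℕ) : ℂ) ^ (w - 1 / 2 - I * b) * AA l (Phi (m + 1)) w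

/-- the twisted series -/
noncomputable def Aser (c : ℕ → ℂ) (l : List ℝ) (b : ℝ) (w : ℂ) : ℂ :=
  ∑' m : ℕ, Aterm c l b m w

/-- the height above which there are no poles -/
noncomputable def Hl (l : List ℝ) : ℝ := 3 + (l.map fun a : ℝ => |a|).sum

lemma abs_le_sum_of_mem {l : List ℝ} {a : ℝ} (h : a ∈ l) : |a| ≤ (l.map fun a : ℝ => |a|).sum := by
  refine List.single_le_sum ?_ _ (List.mem_map_of_mem h)
  intro x hx
  obtain ⟨y, _, rfl⟩ := List.mem_map.1 hx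
  exact abs_nonneg y

lemma Hl_ge (l : List ℝ) : 3 ≤ Hl l := by
  have : 0 ≤ (l.map fun a : ℝ => |a|).sum := by
    refine List.sum_nonneg fun x hx => ?_
    obtain ⟨y, _, rfl⟩ := List.mem_map.1 hx
    exact abs_nonneg y
  unfold Hl
  linarith

/-- the three regions where the series converges -/
def Om (l : List ℝ) : Set ℂ :=
  {w | (-(3 / 4) < w.re ∧ w.re < 2 ∧ Hl l - 1 < |w.im|) ∨ (3 / 2 < w.re ∧ w.re < 9 / 4) ∨
    (-(3 / 4) < w.re ∧ w.re < -(1 / 4))}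

lemma isOpen_Om (l : List ℝ) : IsOpen (Om l) := by
  have h1 : IsOpen {w : ℂ | -(3 / 4) < w.re ∧ w.re < 2 ∧ Hl l - 1 < |w.im|} :=
    (isOpen_lt (by fun_prop) (by fun_prop)).and
      ((isOpen_lt (by fun_prop) (by fun_prop)).and (isOpen_lt (by fun_prop) (by fun_prop)))
  have h2 : IsOpen {w : ℂ | 3 / 2 < w.re ∧ w.re < 9 / 4} :=
    (isOpen_lt (by fun_prop) (by fun_prop)).and (isOpen_lt (by fun_prop) (by fun_prop))
  have h3 : IsOpen {w : ℂ | -(3 / 4) < w.re ∧ w.re < -(1 / 4)} :=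
    (isOpen_lt (by fun_prop) (by fun_prop)).and (isOpen_lt (by fun_prop) (by fun_prop))
  exact h1.union (h2.union h3)

lemma ne_one_of_mem_Om {l : List ℝ} {w : ℂ} (hw : w ∈ Om l) {a : ℝ} (ha : a ∈ l) :
    w + I * a ≠ 1 := by
  intro h
  have hre := congrArg Complex.re h
  have him := congrArg Complex.im h
  simp at hre him
  rcases hw with h1 | h1 | h1
  · have h2 := abs_le_sum_of_mem ha
    have h3 := h1.2.2
    have h4 : |w.im| = |a| := by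
      have : w.im = -a := by linarith
      rw [this, abs_neg]
    unfold Hl at h3
    linarith
  · linarith [h1.1]
  · linarith [h1.2]

lemma LSeries_norm_le {f : ℕ → ℂ} {s : ℂ} {x : ℝ} (hx : x ≤ s.re)
    (hf : Summable fun n : ℕ => ‖f n‖ * (n : ℝ) ^ (-x)) :
    ‖LSeries f s‖ ≤ ∑' n : ℕ, ‖f n‖ * (n : ℝ) ^ (-x) := by
  unfold LSeries
  refine tsum_of_norm_bounded hf.hasSum fun n => ?_
  rcases Nat.eq_zero_or_pos n with h | h
  · subst h
    rw [LSeries.term_zero, norm_zero]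
    positivity
  · rw [LSeries.term_of_ne_zero h.ne', norm_div, Complex.norm_natCast_cpow_of_pos h,
      div_eq_mul_inv, ← Real.rpow_neg (Nat.cast_nonneg n)]
    gcongr
    exact_mod_cast h

/-- bound for the terms on the three regions -/
theorem exists_norm_AA_Om (n : ℕ) : ∃ B : ℕ, ∀ l : List ℝ, l.length = n → ∃ C : ℝ, 0 < C ∧
    ∀ m : ℕ, ∀ w ∈ Om l, ‖AA l (Phi (m + 1)) w‖ ≤ C * ((m + 1 : ℕ) : ℝ) ^ B * (1 + |w.im|) ^ B := by
  obtain ⟨B₁, h₁⟩ := exists_norm_AA_strip n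
  obtain ⟨B₂, h₂⟩ := exists_norm_AA_left n
  refine ⟨max B₁ B₂, fun l hl => ?_⟩
  obtain ⟨C₁, hC₁0, hC₁⟩ := h₁ l hl
  obtain ⟨C₂, hC₂0, hC₂⟩ := h₂ l hl
  have hs := summable_aco l (c := 3 / 2) (by norm_num)
  set C₃ : ℝ := ∑' n : ℕ, ‖aco l n‖ * (n : ℝ) ^ (-(3 / 2) : ℝ) with hC₃
  have hC₃0 : 0 ≤ C₃ := tsum_nonneg fun n => by positivity
  refine ⟨C₁ + C₂ + C₃, by positivity, fun m w hw => ?_⟩
  have hPhi : ∀ j, ‖Phi (m + 1) j‖ ≤ 1 := fun j => (norm_Phi _ j).le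
  have hm1 : (1:ℝ) ≤ ((m + 1 : ℕ) : ℝ) := by
    push_cast
    linarith [Nat.cast_nonneg (α := ℝ) m]
  have hw1 : (1:ℝ) ≤ 1 + |w.im| := by linarith [abs_nonneg w.im]
  have hfin : ∀ C : ℝ, 0 ≤ C → C ≤ C₁ + C₂ + C₃ → ∀ B : ℕ, B ≤ max B₁ B₂ →
      C * ((m + 1 : ℕ) : ℝ) ^ B * (1 + |w.im|) ^ B ≤
      (C₁ + C₂ + C₃) * ((m + 1 : ℕ) : ℝ) ^ (max B₁ B₂) * (1 + |w.im|) ^ (max B₁ B₂) := by
    intro C hC0 hC B hB
    gcongr
  rcases hw with h | h | h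
  · refine (hC₁ (m + 1) (Phi (m + 1)) hPhi w h.1.le h.2.1.le ?_).trans
      (hfin C₁ hC₁0.le (by linarith) B₁ (le_max_left _ _))
    intro a ha
    have h2 := abs_le_sum_of_mem ha
    have h3 := h.2.2
    unfold Hl at h3
    linarith
  · rw [← LSeries_aco_twist l (Phi (m + 1)) (by linarith [h.1])]
    have e : ∀ n : ℕ, ‖aco l n * Phi (m + 1) (n : ZMod (m + 1))‖ = ‖aco l n‖ := by
      intro n
      rw [norm_mul, norm_Phi, mul_one]
    have h1 := LSeries_norm_le (f := fun n => aco l n * Phi (m + 1) (n : ZMod (m + 1)))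
      (s := w) (x := 3 / 2) h.1.le (by simpa only [e] using hs)
    simp only [e] at h1
    refine h1.trans ?_
    have := hfin C₃ hC₃0 (by linarith) 0 (Nat.zero_le _)
    simpa using this
  · exact (hC₂ (m + 1) (Phi (m + 1)) hPhi w h.1.le h.2.le).trans
      (hfin C₂ hC₂0.le (by linarith) B₂ (le_max_right _ _))

section

variable {l : List ℝ} {b C : ℝ} {B : ℕ}

lemma re_le_of_mem_Om {w : ℂ} (hw : w ∈ Om l) : w.re ≤ 9 / 4 := by
  rcases hw with h | h | h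
  · linarith [h.2.1]
  · exact h.2.le
  · linarith [h.2]

lemma norm_Aterm_le (hC : ∀ m : ℕ, ∀ w ∈ Om l,
      ‖AA l (Phi (m + 1)) w‖ ≤ C * ((m + 1 : ℕ) : ℝ) ^ B * (1 + |w.im|) ^ B)
    (c : ℕ → ℂ) (m : ℕ) {w : ℂ} (hw : w ∈ Om l) :
    ‖Aterm c l b m w‖ ≤ (‖c m‖ * ((m + 1 : ℕ) : ℝ) ^ ((B + 2 : ℕ) : ℝ)) *
      (C * (1 + |w.im|) ^ B) := by
  have hm1 : (1:ℝ) ≤ ((m + 1 : ℕ) : ℝ) := by
    push_cast
    linarith [Nat.cast_nonneg (α := ℝ) m]
  unfold Aterm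
  rw [norm_mul, norm_mul, Complex.norm_natCast_cpow_of_pos (Nat.succ_pos m)]
  have h1 : ((m + 1 : ℕ) : ℝ) ^ (w - 1 / 2 - I * b).re ≤ ((m + 1 : ℕ) : ℝ) ^ 2 := by
    rw [← Real.rpow_natCast _ 2]
    refine Real.rpow_le_rpow_of_exponent_le hm1 ?_
    have := re_le_of_mem_Om hw
    simp
    linarith
  have h2 := hC m w hw
  rw [Real.rpow_natCast, pow_add]
  calc _ ≤ ‖c m‖ * ((m + 1 : ℕ) : ℝ) ^ 2 *
        (C * ((m + 1 : ℕ) : ℝ) ^ B * (1 + |w.im|) ^ B) := by gcongr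
    _ = _ := by ring

lemma summable_Aterm (hC : ∀ m : ℕ, ∀ w ∈ Om l,
      ‖AA l (Phi (m + 1)) w‖ ≤ C * ((m + 1 : ℕ) : ℝ) ^ B * (1 + |w.im|) ^ B)
    {c : ℕ → ℂ} (hc : Summable fun m => ‖c m‖ * ((m + 1 : ℕ) : ℝ) ^ ((B + 2 : ℕ) : ℝ))
    {w : ℂ} (hw : w ∈ Om l) : Summable fun m => Aterm c l b m w :=
  Summable.of_norm_bounded (hc.mul_right _) fun m => norm_Aterm_le hC c m hw

lemma norm_Aser_le (hC : ∀ m : ℕ, ∀ w ∈ Om l,
      ‖AA l (Phi (m + 1)) w‖ ≤ C * ((m + 1 : ℕ) : ℝ) ^ B * (1 + |w.im|) ^ B)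
    {c : ℕ → ℂ} (hc : Summable fun m => ‖c m‖ * ((m + 1 : ℕ) : ℝ) ^ ((B + 2 : ℕ) : ℝ))
    {w : ℂ} (hw : w ∈ Om l) :
    ‖Aser c l b w‖ ≤ (∑' m, ‖c m‖ * ((m + 1 : ℕ) : ℝ) ^ ((B + 2 : ℕ) : ℝ)) *
      (C * (1 + |w.im|) ^ B) := by
  unfold Aser
  rw [← tsum_mul_right]
  exact tsum_of_norm_bounded (hc.mul_right _).hasSum fun m => norm_Aterm_le hC c m hw

lemma differentiableAt_Aser (hC0 : 0 < C) (hC : ∀ m : ℕ, ∀ w ∈ Om l,
      ‖AA l (Phi (m + 1)) w‖ ≤ C * ((m + 1 : ℕ) : ℝ) ^ B * (1 + |w.im|) ^ B)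
    {c : ℕ → ℂ} (hc : Summable fun m => ‖c m‖ * ((m + 1 : ℕ) : ℝ) ^ ((B + 2 : ℕ) : ℝ))
    {w : ℂ} (hw : w ∈ Om l) : DifferentiableAt ℂ (Aser c l b) w := by
  set U : Set ℂ := Om l ∩ {z | |z.im| < |w.im| + 1} with hU
  have hUo : IsOpen U := (isOpen_Om l).inter (isOpen_lt (by fun_prop) continuous_const)
  have hwU : w ∈ U := ⟨hw, by simp⟩
  have h : DifferentiableOn ℂ (Aser c l b) U := by
    unfold Aser
    refine differentiableOn_tsum_of_summable_norm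
      (hc.mul_right (C * (1 + (|w.im| + 1)) ^ B)) (fun m => ?_) hUo fun m z hz => ?_
    · intro z hz
      refine DifferentiableAt.differentiableWithinAt ?_
      unfold Aterm
      refine DifferentiableAt.mul (DifferentiableAt.const_mul ?_ _)
        (differentiableAt_AA l (Phi (m + 1)) fun a ha => ne_one_of_mem_Om hz.1 ha)
      refine DifferentiableAt.const_cpow (by fun_prop) (Or.inl ?_)
      exact_mod_cast Nat.succ_ne_zero m
    · refine (norm_Aterm_le hC c m hz.1).trans ?_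
      have h1 : |z.im| ≤ |w.im| + 1 := le_of_lt hz.2
      gcongr
  exact h.differentiableAt (hUo.mem_nhds hwU)

end

end Pool.Agent.H26
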