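import Pool.Agent.H26.MB

/-!
Shifting the Mellin–Barnes integral to the left.
-/

namespace Pool.Agent.H26

open Complex MeasureTheory Set Filter Topology Pool.Agent.H95fa

lemma exists_norm_Gp_left : ∃ C : ℝ, 0 < C ∧ ∀ s : ℂ, -(2 / 3) ≤ s.re → s.re ≤ -(1 / 3) →
    ‖Gp s‖ ≤ C * (1 + |s.im|) ^ 2 * Real.exp (-(Real.pi / 2 * |s.im|) + Real.pi / 2 * s.im) := by
  set K : Set ℂ := Set.Icc (-(2 / 3) : ℝ) (-(1 / 3)) ×ℂ Set.Icc (-2 : ℝ) 2 with hK
  have hKc : IsCompact K := isCompact_Icc.reProdIm isCompact_Icc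
  have hcont : ContinuousOn Gp K := by
    intro s hs
    have h1 := (Complex.mem_reProdIm.1 hs).1
    exact (differentiableAt_Gp (ne_neg_nat_of_re_mem (by linarith [h1.1])
      (by linarith [h1.2]))).continuousAt.continuousWithinAt
  obtain ⟨C, hC⟩ := hKc.exists_bound_of_continuousOn hcont
  refine ⟨max (C * Real.exp (2 * Real.pi)) 448, lt_of_lt_of_le (by norm_num) (le_max_right _ _),
    fun s h0 h1 => ?_⟩
  have hA : 0 ≤ |s.im| := abs_nonneg _
  rcases le_total |s.im| 2 with h | h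
  · have hs : s ∈ K := Complex.mem_reProdIm.2 ⟨⟨h0, h1⟩, abs_le.1 h⟩
    have hC0 : 0 ≤ C := (norm_nonneg _).trans (hC s hs)
    have h2 : Real.exp (-(2 * Real.pi)) ≤
        Real.exp (-(Real.pi / 2 * |s.im|) + Real.pi / 2 * s.im) := by
      apply Real.exp_le_exp.2
      have := (abs_le.1 h).1
      nlinarith [Real.pi_pos]
    calc _ ≤ C := hC s hs
      _ = (C * Real.exp (2 * Real.pi)) * 1 * Real.exp (-(2 * Real.pi)) := by
          rw [Real.exp_neg]
          field_simp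
      _ ≤ _ := by
          gcongr
          · exact le_max_left _ _
          · exact one_le_pow₀ (by linarith)
  · refine (norm_Gp_strip (by linarith) (by linarith) h).trans ?_
    gcongr
    exact le_max_right _ _

/-- the integrand of the Mellin–Barnes integral -/
noncomputable def fM (c : ℕ → ℂ) (l : List ℝ) (b : ℝ) (z w : ℂ) : ℂ :=
  Gp w * cexp (-(w * z)) * Aser c l b w

/-- the Mellin–Barnes integral on the line `Re w = σ` -/
noncomputable def VM (c : ℕ → ℂ) (l : List ℝ) (b : ℝ) (σ : ℝ) (z : ℂ) : ℂ :=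
  ∫ v : ℝ, fM c l b z (σ + v * I)

lemma PT_contour {p g : ℝ → ℂ} {x₀ x₁ G H : ℝ} (h01 : x₀ ≤ x₁) (hp : Continuous p)
    (hg : ContinuousOn g (Icc x₀ x₁)) (hG : ∀ x ∈ Icc x₀ x₁, ‖g x‖ ≤ G)
    (hre : ∀ x ∈ Icc x₀ x₁, |(p x).re| ≤ 2) (him : ∀ x ∈ Icc x₀ x₁, |(p x).im| ≤ H) :
    PT ((x₁ - x₀) * (G * Real.exp (H / 2))) 2
      (fun z => ∫ x in Ioc x₀ x₁, g x * cexp (-(p x * z))) := by
  have hb : ∀ z ∈ St, ∀ x ∈ Icc x₀ x₁, ‖g x * cexp (-(p x * z))‖ ≤
      G * Real.exp (H / 2) * Real.exp (2 * |z.re|) := by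
    intro z hz x hx
    rw [norm_mul, norm_exp_neg_mul, mul_assoc, ← Real.exp_add]
    have hG0 : 0 ≤ G := (norm_nonneg _).trans (hG x hx)
    have h1 : -((p x).re * z.re) + (p x).im * z.im ≤ H / 2 + 2 * |z.re| := by
      have hz' : |z.im| ≤ 1 / 2 := le_of_lt hz
      have h2 : -((p x).re * z.re) ≤ |(p x).re| * |z.re| := by
        rw [← abs_mul]
        exact neg_le_abs _
      have h3 : (p x).im * z.im ≤ |(p x).im| * |z.im| := by
        rw [← abs_mul]
        exact le_abs_self _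
      have h4 : |(p x).re| * |z.re| ≤ 2 * |z.re| := by
        gcongr
        exact hre x hx
      have h5 : |(p x).im| * |z.im| ≤ H * (1 / 2) := by
        have := him x hx
        gcongr
        exact (abs_nonneg _).trans this
      linarith
    gcongr
    exact hG x hx
  refine ⟨?_, ?_⟩
  · refine differentiableOn_integral_of_locally_majorant isOpen_St ?_ ?_ ?_
    · intro z hz
      refine ContinuousOn.aestronglyMeasurable ?_ measurableSet_Ioc
      exact (hg.mono Ioc_subset_Icc_self).mul (by fun_prop)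
    · filter_upwards with x
      fun_prop
    · intro z₀ hz₀
      refine ⟨St ∩ {z | |z.re| < |z₀.re| + 1}, ?_, fun _ => G * Real.exp (H / 2) *
        Real.exp (2 * (|z₀.re| + 1)), integrableOn_const (by simp), ?_⟩
      · exact inter_mem (isOpen_St.mem_nhds hz₀)
          ((isOpen_lt (by fun_prop) continuous_const).mem_nhds (by simp))
      · filter_upwards [ae_restrict_mem measurableSet_Ioc] with x hx z hz
        have hx' : x ∈ Icc x₀ x₁ := ⟨hx.1.le, hx.2⟩
        refine (hb z hz.1 x hx').trans ?_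
        have h1 : |z.re| ≤ |z₀.re| + 1 := le_of_lt hz.2
        have hG0 : 0 ≤ G := (norm_nonneg _).trans (hG x hx')
        gcongr
  · intro z hz
    refine (norm_setIntegral_le_of_norm_le_const (C := G * Real.exp (H / 2) *
      Real.exp (2 * |z.re|)) (by simp) fun x hx => hb z hz x ⟨hx.1.le, hx.2⟩).trans ?_
    rw [Real.volume_real_Ioc_of_le h01]
    apply le_of_eq
    ring

section

variable {l : List ℝ} {b C : ℝ} {B : ℕ} {c : ℕ → ℂ}

lemma norm_fM_le (hC : ∀ m : ℕ, ∀ w ∈ Om l,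
      ‖AA l (Phi (m + 1)) w‖ ≤ C * ((m + 1 : ℕ) : ℝ) ^ B * (1 + |w.im|) ^ B)
    (hc : Summable fun m => ‖c m‖ * ((m + 1 : ℕ) : ℝ) ^ ((B + 2 : ℕ) : ℝ))
    {w z : ℂ} (hw : w ∈ Om l) (hwre : |w.re| ≤ 2) {G : ℝ}
    (hG : ‖Gp w‖ ≤ G * (1 + |w.im|) ^ 2 * Real.exp (-(Real.pi / 2 * |w.im|) + Real.pi / 2 * w.im)) :
    ‖fM c l b z w‖ ≤ (G * C * ∑' m, ‖c m‖ * ((m + 1 : ℕ) : ℝ) ^ ((B + 2 : ℕ) : ℝ)) *
      Real.exp (2 * |z.re|) * (1 + |w.im|) ^ (B + 2) *
      Real.exp (-(Real.pi / 2 * |w.im|) + Real.pi / 2 * w.im + w.im * z.im) := by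
  have h1 := norm_Aser_le (b := b) hC hc hw
  have h2 : ‖cexp (-(w * z))‖ ≤ Real.exp (2 * |z.re|) * Real.exp (w.im * z.im) := by
    rw [norm_exp_neg_mul, ← Real.exp_add]
    apply Real.exp_le_exp.2
    have h2 : -(w.re * z.re) ≤ |w.re| * |z.re| := by
      rw [← abs_mul]
      exact neg_le_abs _
    have h4 : |w.re| * |z.re| ≤ 2 * |z.re| := by gcongr
    linarith
  have hG0 : 0 ≤ G * (1 + |w.im|) ^ 2 *
      Real.exp (-(Real.pi / 2 * |w.im|) + Real.pi / 2 * w.im) := (norm_nonneg _).trans hG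
  unfold fM
  rw [norm_mul, norm_mul, Real.exp_add _ (w.im * z.im), pow_add]
  calc _ ≤ (G * (1 + |w.im|) ^ 2 * Real.exp (-(Real.pi / 2 * |w.im|) + Real.pi / 2 * w.im)) *
        (Real.exp (2 * |z.re|) * Real.exp (w.im * z.im)) *
        ((∑' m, ‖c m‖ * ((m + 1 : ℕ) : ℝ) ^ ((B + 2 : ℕ) : ℝ)) * (C * (1 + |w.im|) ^ B)) := by
        gcongr
    _ = _ := by ring

lemma differentiableAt_fM (hC0 : 0 < C) (hC : ∀ m : ℕ, ∀ w ∈ Om l,
      ‖AA l (Phi (m + 1)) w‖ ≤ C * ((m + 1 : ℕ) : ℝ) ^ B * (1 + |w.im|) ^ B)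
    (hc : Summable fun m => ‖c m‖ * ((m + 1 : ℕ) : ℝ) ^ ((B + 2 : ℕ) : ℝ))
    {w z : ℂ} (hw : w ∈ Om l) (hG : ∀ m : ℕ, w ≠ -m) :
    DifferentiableAt ℂ (fM c l b z) w := by
  unfold fM
  exact DifferentiableAt.mul (DifferentiableAt.mul (differentiableAt_Gp hG) (by fun_prop))
    (differentiableAt_Aser hC0 hC hc hw)

end

lemma mem_Om_left {l : List ℝ} {w : ℂ} (h0 : -(2 / 3) ≤ w.re) (h1 : w.re ≤ -(1 / 3)) :
    w ∈ Om l := Or.inr (Or.inr ⟨by linarith, by linarith⟩)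

lemma mem_Om_two {l : List ℝ} {w : ℂ} (h0 : w.re = 2) : w ∈ Om l :=
  Or.inr (Or.inl ⟨by linarith, by linarith⟩)

lemma mem_Om_high {l : List ℝ} {w : ℂ} (h0 : -(2 / 3) ≤ w.re) (h1 : w.re ≤ 2)
    (h : Hl l ≤ |w.im|) : w ∈ Om l := by
  rcases eq_or_lt_of_le h1 with h2 | h2
  · exact mem_Om_two h2
  · exact Or.inl ⟨by linarith, h2, by linarith⟩

/-- decay of the exponential factors -/
lemma exp_decay {z : ℂ} (hz : |z.im| ≤ 1 / 2) (hz0 : z.im < 0) (v : ℝ) :
    Real.exp (-(Real.pi / 2 * |v|) + Real.pi / 2 * v + v * z.im) ≤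
      Real.exp (-(-z.im * |v|)) := by
  apply Real.exp_le_exp.2
  have := (abs_le.1 hz).1
  rcases le_total 0 v with h | h
  · rw [abs_of_nonneg h]; nlinarith
  · rw [abs_of_nonpos h]; nlinarith [Real.pi_gt_three]

lemma integral_split {f : ℝ → ℂ} (hf : Integrable f) {H : ℝ} (hH : 0 ≤ H) :
    ∫ v, f v = (∫ v in Iio (-H), f v) + (∫ v in Ioc (-H) H, f v) + ∫ v in Ioi H, f v := by
  have h1 := intervalIntegral.integral_Iic_add_Ioi (b := -H) hf.integrableOn hf.integrableOn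
  have h2 : ∫ v in Ioi (-H), f v = (∫ v in Ioc (-H) H, f v) + ∫ v in Ioi H, f v := by
    rw [← Ioc_union_Ioi_eq_Ioi (show -H ≤ H by linarith)]
    exact setIntegral_union (Ioc_disjoint_Ioi_same) measurableSet_Ioi hf.integrableOn
      hf.integrableOn
  rw [← h1, h2, integral_Iic_eq_integral_Iio]
  ring

theorem exists_MB (n : ℕ) : ∃ B : ℕ, ∀ l : List ℝ, l.length = n → ∀ b : ℝ, ∃ C : ℝ, 0 < C ∧
    ∀ c : ℕ → ℂ, (Summable fun m => ‖c m‖ * ((m + 1 : ℕ) : ℝ) ^ ((B + 2 : ℕ) : ℝ)) →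
    (∃ P : ℂ → ℂ, PT (C * ∑' m, ‖c m‖ * ((m + 1 : ℕ) : ℝ) ^ ((B + 2 : ℕ) : ℝ)) 2 P ∧
      ∀ z ∈ St, z.im < 0 → ∫ v : ℝ, fM c l b z (2 + v * I) =
        VM c l b (-(1 / 2)) z + P z) ∧
    (∀ z ∈ St, z.im < 0 → ∀ σ : ℝ, -(2 / 3) ≤ σ → σ ≤ -(1 / 3) →
      VM c l b σ z = VM c l b (-(1 / 2)) z) ∧
    (∀ z ∈ St, z.im < 0 → ∀ σ : ℝ, -(2 / 3) ≤ σ → σ ≤ -(1 / 3) →
      Integrable fun v : ℝ => fM c l b z (σ + v * I)) ∧
    (∀ w ∈ Om l, DifferentiableAt ℂ (Aser c l b) w) ∧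
    (∀ w ∈ Om l, Summable fun m => Aterm c l b m w) := by
  obtain ⟨B, hB⟩ := exists_norm_AA_Om n
  refine ⟨B, fun l hl b => ?_⟩
  obtain ⟨C₁, hC₁0, hC₁⟩ := hB l hl
  obtain ⟨G₂, hG₂0, hG₂⟩ := exists_norm_Gp_right
  obtain ⟨G₁, hG₁0, hG₁⟩ := exists_norm_Gp_left
  set G : ℝ := G₁ + G₂ + 448 with hG
  have hG0 : 0 < G := by positivity
  set H : ℝ := Hl l with hH
  have hH3 : 3 ≤ H := Hl_ge l
  have hlen0 : (0:ℝ) ≤ 2 * H + 2 * H + 3 + 3 := by linarith
  refine ⟨(2 * H + 2 * H + 3 + 3) * (G * C₁ * (1 + H) ^ (B + 2) * Real.exp (H / 2)),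
    by positivity, fun c hc => ?_⟩
  set Sc : ℝ := ∑' m, ‖c m‖ * ((m + 1 : ℕ) : ℝ) ^ ((B + 2 : ℕ) : ℝ) with hSc
  have hSc0 : 0 ≤ Sc := tsum_nonneg fun m => by positivity
  -- bound for Gp in the relevant regions
  have hGp : ∀ w : ℂ, (w.re = 2 ∨ (-(2 / 3) ≤ w.re ∧ w.re ≤ -(1 / 3)) ∨
      (-(2 / 3) ≤ w.re ∧ w.re ≤ 2 ∧ H ≤ |w.im|)) →
      ‖Gp w‖ ≤ G * (1 + |w.im|) ^ 2 *
        Real.exp (-(Real.pi / 2 * |w.im|) + Real.pi / 2 * w.im) ∧ w ∈ Om l ∧ |w.re| ≤ 2 ∧
        (∀ m : ℕ, w ≠ -m) := by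
    intro w hw
    rcases hw with h | h | h
    · refine ⟨((hG₂ w (by linarith) (by linarith)).1).trans ?_, mem_Om_two h, ?_,
        ne_neg_nat_of_re_pos (by linarith)⟩
      · gcongr
        linarith
      · rw [h]; norm_num
    · refine ⟨(hG₁ w h.1 h.2).trans ?_, mem_Om_left h.1 h.2, ?_,
        ne_neg_nat_of_re_mem (by linarith) (by linarith)⟩
      · gcongr
        linarith
      · rw [abs_le]; constructor <;> linarith
    · refine ⟨(norm_Gp_strip (by linarith) h.2.1 (by linarith)).trans ?_,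
        mem_Om_high h.1 h.2.1 h.2.2, ?_, ne_neg_nat_of_im fun h0 => ?_⟩
      · gcongr
        linarith
      · rw [abs_le]; constructor <;> linarith
      · rw [h0, abs_zero] at h
        linarith
  -- majorant
  have hmaj : ∀ z ∈ St, z.im < 0 → ∀ w : ℂ, (w.re = 2 ∨ (-(2 / 3) ≤ w.re ∧ w.re ≤ -(1 / 3)) ∨
      (-(2 / 3) ≤ w.re ∧ w.re ≤ 2 ∧ H ≤ |w.im|)) →
      ‖fM c l b z w‖ ≤ (G * C₁ * Sc) * Real.exp (2 * |z.re|) *
        ((1 + |w.im|) ^ ((B + 2 : ℕ) : ℝ) * Real.exp (-(-z.im * |w.im|))) := by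
    intro z hz hz0 w hw
    obtain ⟨h1, h2, h3, _⟩ := hGp w hw
    refine (norm_fM_le hC₁ hc h2 h3 h1).trans ?_
    rw [Real.rpow_natCast]
    have := exp_decay (le_of_lt hz) hz0 w.im
    calc _ ≤ (G * C₁ * Sc) * Real.exp (2 * |z.re|) * (1 + |w.im|) ^ (B + 2) *
          Real.exp (-(-z.im * |w.im|)) := by gcongr
      _ = _ := by ring
  have hdiff : ∀ z w : ℂ, (w.re = 2 ∨ (-(2 / 3) ≤ w.re ∧ w.re ≤ -(1 / 3)) ∨
      (-(2 / 3) ≤ w.re ∧ w.re ≤ 2 ∧ H ≤ |w.im|)) → DifferentiableAt ℂ (fM c l b z) w := by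
    intro z w hw
    obtain ⟨_, h2, _, h4⟩ := hGp w hw
    exact differentiableAt_fM hC₁0 hC₁ hc h2 h4
  have hcontline : ∀ (z : ℂ) (σ : ℝ), (σ = 2 ∨ (-(2 / 3) ≤ σ ∧ σ ≤ -(1 / 3))) →
      Continuous fun v : ℝ => fM c l b z (σ + v * I) := by
    intro z σ hσ
    rw [continuous_iff_continuousAt]
    intro v
    have h1 : ContinuousAt (fM c l b z) (σ + v * I) := by
      refine (hdiff z _ ?_).continuousAt
      rcases hσ with h | h
      · exact Or.inl (by simp [h])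
      · exact Or.inr (Or.inl (by simpa using h))
    exact ContinuousAt.comp (f := fun v : ℝ => (σ + v * I : ℂ)) h1 (by fun_prop)
  have hmi : ∀ z : ℂ, z.im < 0 → Integrable fun v : ℝ => (G * C₁ * Sc) *
      Real.exp (2 * |z.re|) * ((1 + |v|) ^ ((B + 2 : ℕ) : ℝ) * Real.exp (-(-z.im * |v|))) :=
    fun z hz => (integrable_poly_exp _ (by linarith)).const_mul _
  have hmt : ∀ z : ℂ, z.im < 0 → ∀ L : Filter ℝ, Tendsto (fun v : ℝ => |v|) L atTop →
      Tendsto (fun v : ℝ => (G * C₁ * Sc) * Real.exp (2 * |z.re|) *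
        ((1 + |v|) ^ ((B + 2 : ℕ) : ℝ) * Real.exp (-(-z.im * |v|)))) L (𝓝 0) := by
    intro z hz L hL
    simpa using (tendsto_poly_exp ((B + 2 : ℕ) : ℝ) (c := -z.im) (by linarith) hL).const_mul
      ((G * C₁ * Sc) * Real.exp (2 * |z.re|))
  have hintline : ∀ z ∈ St, z.im < 0 → ∀ σ : ℝ, (σ = 2 ∨ (-(2 / 3) ≤ σ ∧ σ ≤ -(1 / 3))) →
      Integrable fun v : ℝ => fM c l b z (σ + v * I) := by
    intro z hz hz0 σ hσ
    refine Integrable.mono' (hmi z hz0) (hcontline z σ hσ).aestronglyMeasurable ?_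
    filter_upwards with v
    have h := hmaj z hz hz0 (σ + v * I) (by
      rcases hσ with h | h
      · exact Or.inl (by simp [h])
      · exact Or.inr (Or.inl (by simpa using h)))
    have e : ((σ : ℂ) + v * I).im = v := by simp
    rw [e] at h
    exact h
  refine ⟨?_, ?_, ?_, ?_, ?_⟩
  · -- the contour pieces
    set gg : ℂ → ℂ := fun w => Gp w * Aser c l b w with hgg
    have hggb : ∀ w : ℂ, (w.re = 2 ∨ (-(2 / 3) ≤ w.re ∧ w.re ≤ -(1 / 3)) ∨
        (-(2 / 3) ≤ w.re ∧ w.re ≤ 2 ∧ H ≤ |w.im|)) → |w.im| ≤ H →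
        ‖gg w‖ ≤ G * C₁ * Sc * (1 + H) ^ (B + 2) := by
      intro w hw hwH
      obtain ⟨h1, h2, _, _⟩ := hGp w hw
      have h3 := norm_Aser_le (b := b) hC₁ hc h2
      have h4 : Real.exp (-(Real.pi / 2 * |w.im|) + Real.pi / 2 * w.im) ≤ 1 := by
        apply Real.exp_le_one_iff.2
        have := le_abs_self w.im
        nlinarith [Real.pi_pos]
      simp only [hgg]
      rw [norm_mul]
      calc _ ≤ (G * (1 + |w.im|) ^ 2 * 1) * (Sc * (C₁ * (1 + |w.im|) ^ B)) := by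
            gcongr
            exact h1.trans (by gcongr)
        _ ≤ (G * (1 + H) ^ 2 * 1) * (Sc * (C₁ * (1 + H) ^ B)) := by gcongr
        _ = _ := by rw [pow_add]; ring
    have hggc : ∀ w : ℂ, (w.re = 2 ∨ (-(2 / 3) ≤ w.re ∧ w.re ≤ -(1 / 3)) ∨
        (-(2 / 3) ≤ w.re ∧ w.re ≤ 2 ∧ H ≤ |w.im|)) → ContinuousAt gg w := by
      intro w hw
      obtain ⟨_, h2, _, h4⟩ := hGp w hw
      exact (DifferentiableAt.mul (differentiableAt_Gp h4)
        (differentiableAt_Aser hC₁0 hC₁ hc h2)).continuousAt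
    have hfg : ∀ z w : ℂ, fM c l b z w = gg w * cexp (-(w * z)) := by
      intro z w
      simp only [hgg, fM]
      ring
    have hp1 := PT_contour (p := fun v : ℝ => (2:ℂ) + v * I) (g := fun v : ℝ => gg (2 + v * I))
      (x₀ := -H) (x₁ := H) (G := G * C₁ * Sc * (1 + H) ^ (B + 2)) (H := H) (by linarith)
      (by fun_prop) (fun v hv => (ContinuousAt.comp (f := fun v : ℝ => ((2:ℂ) + v * I))
        (hggc _ (Or.inl (by simp))) (by fun_prop)).continuousWithinAt)
      (fun v hv => hggb _ (Or.inl (by simp)) (by simpa using abs_le.2 hv))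
      (fun v hv => by simp) (fun v hv => by simpa using abs_le.2 hv)
    have hp2 := PT_contour (p := fun v : ℝ => ((-(1 / 2) : ℝ) : ℂ) + v * I)
      (g := fun v : ℝ => gg (((-(1 / 2) : ℝ) : ℂ) + v * I))
      (x₀ := -H) (x₁ := H) (G := G * C₁ * Sc * (1 + H) ^ (B + 2)) (H := H) (by linarith)
      (by fun_prop) (fun v hv => (ContinuousAt.comp
        (f := fun v : ℝ => (((-(1 / 2) : ℝ) : ℂ) + v * I))
        (hggc _ (Or.inr (Or.inl (by simp; norm_num)))) (by fun_prop)).continuousWithinAt)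
      (fun v hv => hggb _ (Or.inr (Or.inl (by simp; norm_num))) (by simpa using abs_le.2 hv))
      (fun v hv => by
        simp only [add_re, ofReal_re, mul_re, I_re, mul_zero, ofReal_im, I_im, mul_one, sub_self,
          add_zero]
        rw [abs_neg, abs_of_pos (by norm_num)]
        norm_num) (fun v hv => by simpa using abs_le.2 hv)
    have hp3 := PT_contour (p := fun x : ℝ => (x:ℂ) + H * I) (g := fun x : ℝ => gg (x + H * I))
      (x₀ := -(1 / 2)) (x₁ := 2) (G := G * C₁ * Sc * (1 + H) ^ (B + 2)) (H := H) (by norm_num)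
      (by fun_prop) (fun x hx => (ContinuousAt.comp (f := fun x : ℝ => ((x:ℂ) + H * I))
        (hggc _ (Or.inr (Or.inr ⟨by simpa using (by linarith [hx.1] : -(2 / 3) ≤ x),
          by simpa using hx.2, by simpa using le_abs_self H⟩)))
        (by fun_prop)).continuousWithinAt)
      (fun x hx => hggb _ (Or.inr (Or.inr ⟨by simpa using (by linarith [hx.1] : -(2 / 3) ≤ x),
          by simpa using hx.2, by simpa using le_abs_self H⟩))
          (by simp [abs_of_nonneg (by linarith : (0:ℝ) ≤ H)]))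
      (fun x hx => by
        simp only [add_re, ofReal_re, mul_re, I_re, mul_zero, ofReal_im, I_im, mul_one, sub_self,
          add_zero]
        rw [abs_le]; constructor <;> linarith [hx.1, hx.2])
      (fun x hx => by simp [abs_of_nonneg (by linarith : (0:ℝ) ≤ H)])
    have hp4 := PT_contour (p := fun x : ℝ => (x:ℂ) + ((-H : ℝ) : ℂ) * I)
      (g := fun x : ℝ => gg (x + ((-H : ℝ) : ℂ) * I))
      (x₀ := -(1 / 2)) (x₁ := 2) (G := G * C₁ * Sc * (1 + H) ^ (B + 2)) (H := H) (by norm_num)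
      (by fun_prop) (fun x hx => (ContinuousAt.comp
        (f := fun x : ℝ => ((x:ℂ) + ((-H : ℝ) : ℂ) * I))
        (hggc _ (Or.inr (Or.inr ⟨by simpa using (by linarith [hx.1] : -(2 / 3) ≤ x),
          by simpa using hx.2, by simpa using le_abs_self H⟩)))
        (by fun_prop)).continuousWithinAt)
      (fun x hx => hggb _ (Or.inr (Or.inr ⟨by simpa using (by linarith [hx.1] : -(2 / 3) ≤ x),
          by simpa using hx.2, by simpa using le_abs_self H⟩))
          (by simp [abs_of_nonneg (by linarith : (0:ℝ) ≤ H)]))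
      (fun x hx => by
        simp only [add_re, ofReal_re, mul_re, I_re, mul_zero, ofReal_im, I_im, mul_one, sub_self,
          add_zero]
        rw [abs_le]; constructor <;> linarith [hx.1, hx.2])
      (fun x hx => by simp [abs_of_nonneg (by linarith : (0:ℝ) ≤ H)])
    refine ⟨_, ((((hp1.sub hp2).add (hp3.const_mul I)).sub (hp4.const_mul I)).mono ?_ le_rfl), ?_⟩
    · rw [norm_I, one_mul]
      have : 0 ≤ G * C₁ * Sc * (1 + H) ^ (B + 2) * Real.exp (H / 2) := by positivity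
      have e : (2 * H + 2 * H + 3 + 3) * (G * C₁ * (1 + H) ^ (B + 2) * Real.exp (H / 2)) * Sc =
        (2 * H + 2 * H + 3 + 3) * (G * C₁ * Sc * (1 + H) ^ (B + 2) * Real.exp (H / 2)) := by ring
      rw [e]
      nlinarith
    · intro z hz hz0
      have hs2 := integral_split (hintline z hz hz0 2 (Or.inl rfl)) (H := H) (by linarith)
      have hsσ := integral_split (hintline z hz hz0 (-(1 / 2)) (Or.inr (by norm_num)))
        (H := H) (by linarith)
      have hup := integral_Ioi_shift (f := fM c l b z) (a := -(1 / 2)) (b := 2) (H := H)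
        (by norm_num) (fun w h1 h2 h3 => hdiff z w (Or.inr (Or.inr ⟨by linarith, h2,
          h3.trans (le_abs_self _)⟩)))
        (m := fun v => (G * C₁ * Sc) * Real.exp (2 * |z.re|) *
          ((1 + |v|) ^ ((B + 2 : ℕ) : ℝ) * Real.exp (-(-z.im * |v|))))
        (fun x y h1 h2 h3 => by
          have := hmaj z hz hz0 (x + y * I) (Or.inr (Or.inr ⟨by simp; linarith,
            by simpa using h2, by simpa using h3.trans (le_abs_self _)⟩))
          have e : ((x : ℂ) + y * I).im = y := by simp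
          rw [e] at this
          exact this) (hmi z hz0).integrableOn (hmt z hz0 atTop tendsto_abs_atTop_atTop)
      have hlo := integral_Iio_shift (f := fM c l b z) (a := -(1 / 2)) (b := 2) (H := -H)
        (by norm_num) (fun w h1 h2 h3 => hdiff z w (Or.inr (Or.inr ⟨by linarith, h2,
          by rw [abs_of_nonpos (by linarith)]; linarith⟩)))
        (m := fun v => (G * C₁ * Sc) * Real.exp (2 * |z.re|) *
          ((1 + |v|) ^ ((B + 2 : ℕ) : ℝ) * Real.exp (-(-z.im * |v|))))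
        (fun x y h1 h2 h3 => by
          have := hmaj z hz hz0 (x + y * I) (Or.inr (Or.inr ⟨by simp; linarith,
            by simpa using h2, by
              simp only [add_im, ofReal_im, mul_im, ofReal_re, I_im, mul_one, I_re, mul_zero,
                add_zero, zero_add]
              rw [abs_of_nonpos (by linarith)]; linarith⟩))
          have e : ((x : ℂ) + y * I).im = y := by simp
          rw [e] at this
          exact this) (hmi z hz0).integrableOn (hmt z hz0 atBot tendsto_abs_atBot_atTop)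
      rw [VM, hsσ]
      have e2 : ((2:ℝ) : ℂ) = 2 := by norm_num
      rw [e2] at hs2 hup hlo
      rw [hs2, hup, hlo, intervalIntegral.integral_of_le (by norm_num),
        intervalIntegral.integral_of_le (by norm_num)]
      simp only [hfg]
      ring
  · intro z hz hz0 σ h0 h1
    unfold VM
    have key : ∀ σ₁ σ₂ : ℝ, -(2 / 3) ≤ σ₁ → σ₁ ≤ σ₂ → σ₂ ≤ -(1 / 3) →
        ∫ v : ℝ, fM c l b z (σ₂ + v * I) = ∫ v : ℝ, fM c l b z (σ₁ + v * I) := by
      intro σ₁ σ₂ h0 h1 h2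
      refine integral_vertical_shift h1 (fun w h3 h4 => hdiff z w (Or.inr (Or.inl
        ⟨by linarith, by linarith⟩))) (m := fun v => (G * C₁ * Sc) * Real.exp (2 * |z.re|) *
          ((1 + |v|) ^ ((B + 2 : ℕ) : ℝ) * Real.exp (-(-z.im * |v|)))) (fun x y h3 h4 => ?_)
          (hmi z hz0) (hmt z hz0 atTop tendsto_abs_atTop_atTop)
          (hmt z hz0 atBot tendsto_abs_atBot_atTop)
      have := hmaj z hz hz0 (x + y * I) (Or.inr (Or.inl ⟨by simp; linarith, by simp; linarith⟩))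
      have e : ((x : ℂ) + y * I).im = y := by simp
      rw [e] at this
      exact this
    rcases le_total σ (-(1 / 2)) with h | h
    · exact (key σ (-(1 / 2)) h0 h (by norm_num)).symm
    · exact key (-(1 / 2)) σ (by norm_num) h h1
  · intro z hz hz0 σ h0 h1
    exact hintline z hz hz0 σ (Or.inr ⟨h0, h1⟩)
  · intro w hw
    exact differentiableAt_Aser hC₁0 hC₁ hc hw
  · intro w hw
    exact summable_Aterm hC₁ hc hw

end Pool.Agent.H26
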