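import Pool.Agent.H26.ZetaLower
import Pool.Agent.H26.MBShift

/-!
Upper and lower bounds for the Mellin–Barnes integrand on vertical lines.
-/

namespace Pool.Agent.H26

open Complex MeasureTheory Set Filter Topology Pool.Agent.H95fa

/-- `∏ (1 + |v + a|)^p` -/
noncomputable def pr (l : List ℝ) (p v : ℝ) : ℝ := (l.map fun a : ℝ => (1 + |v + a|) ^ p).prod

lemma pr_nonneg (l : List ℝ) (p v : ℝ) : 0 ≤ pr l p v := by
  unfold pr
  refine List.prod_nonneg fun x hx => ?_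
  obtain ⟨y, _, rfl⟩ := List.mem_map.1 hx
  positivity

lemma pr_cons (a : ℝ) (l : List ℝ) (p v : ℝ) : pr (a :: l) p v = (1 + |v + a|) ^ p * pr l p v := by
  simp [pr]

lemma pr_pos (l : List ℝ) (p v : ℝ) : 0 < pr l p v := by
  induction l with
  | nil => simp [pr]
  | cons a l ih => rw [pr_cons]; positivity

lemma pr_le (l : List ℝ) {p : ℝ} (hp : 0 ≤ p) (v : ℝ) :
    pr l p v ≤ pr l p 0 * (1 + |v|) ^ (l.length * p) := by
  induction l with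
  | nil => simp [pr]
  | cons a l ih =>
    rw [pr_cons, pr_cons, List.length_cons]
    push_cast
    have h1 : (1 + |v + a|) ≤ (1 + |0 + a|) * (1 + |v|) := by
      rw [zero_add]
      have := abs_add_le v a
      nlinarith [abs_nonneg v, abs_nonneg a, mul_nonneg (abs_nonneg v) (abs_nonneg a)]
    have h2 : (1 + |v + a|) ^ p ≤ (1 + |0 + a|) ^ p * (1 + |v|) ^ p := by
      rw [← Real.mul_rpow (by positivity) (by positivity)]
      exact Real.rpow_le_rpow (by positivity) h1 hp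
    have h3 : (1 + |v|) ^ ((l.length + 1 : ℝ) * p) = (1 + |v|) ^ p * (1 + |v|) ^ (l.length * p) := by
      rw [← Real.rpow_add (by positivity)]
      congr 1
      ring
    rw [h3]
    have := pr_nonneg l p v
    calc _ ≤ ((1 + |0 + a|) ^ p * (1 + |v|) ^ p) * (pr l p 0 * (1 + |v|) ^ (l.length * p)) := by
          gcongr
      _ = _ := by ring

lemma pr_ge (l : List ℝ) {p : ℝ} (hp : 0 ≤ p) (v : ℝ) :
    (1 + |v|) ^ (l.length * p) ≤ pr l p 0 * pr l p v := by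
  induction l with
  | nil => simp [pr]
  | cons a l ih =>
    rw [pr_cons, pr_cons, List.length_cons]
    push_cast
    have h1 : (1 + |v|) ≤ (1 + |0 + a|) * (1 + |v + a|) := by
      rw [zero_add]
      have h : |v| ≤ |v + a| + |a| := by
        calc |v| = |(v + a) - a| := by ring_nf
          _ ≤ _ := abs_sub _ _
      nlinarith [abs_nonneg (v + a), abs_nonneg a, mul_nonneg (abs_nonneg (v + a)) (abs_nonneg a)]
    have h2 : (1 + |v|) ^ p ≤ (1 + |0 + a|) ^ p * (1 + |v + a|) ^ p := by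
      rw [← Real.mul_rpow (by positivity) (by positivity)]
      exact Real.rpow_le_rpow (by positivity) h1 hp
    have h3 : (1 + |v|) ^ ((l.length + 1 : ℝ) * p) = (1 + |v|) ^ p * (1 + |v|) ^ (l.length * p) := by
      rw [← Real.rpow_add (by positivity)]
      congr 1
      ring
    rw [h3]
    calc _ ≤ ((1 + |0 + a|) ^ p * (1 + |v + a|) ^ p) * (pr l p 0 * pr l p v) := by gcongr
      _ = _ := by ring

lemma exists_norm_zprod_neg_half_ge : ∃ c₀ : ℝ, 0 < c₀ ∧ ∀ (l : List ℝ) (v : ℝ),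
    c₀ ^ l.length * pr l 1 v ≤ ‖zprod l (((-(1 / 2) : ℝ) : ℂ) + v * I)‖ := by
  obtain ⟨c₀, hc0, hc⟩ := exists_norm_zeta_neg_half_ge
  refine ⟨c₀, hc0, fun l v => ?_⟩
  induction l with
  | nil => simp [pr, zprod_nil]
  | cons a l ih =>
    rw [zprod_cons, norm_mul, pr_cons, List.length_cons, pow_succ]
    have e : ((-(1 / 2) : ℝ) : ℂ) + v * I + I * a = ((-(1 / 2) : ℝ) : ℂ) + ((v + a : ℝ) : ℂ) * I := by
      push_cast
      ring
    have h := hc (v + a)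
    rw [← e] at h
    have := pr_nonneg l 1 v
    calc _ = (c₀ * (1 + |v + a|)) * (c₀ ^ l.length * pr l 1 v) := by rw [Real.rpow_one]; ring
      _ ≤ _ := by gcongr

/-- lower bound for the twisted series -/
theorem exists_norm_Aser_ge (n : ℕ) : ∃ (δ κ : ℝ) (B : ℕ), 0 < δ ∧ 0 < κ ∧
    ∀ l : List ℝ, l.length = n → ∀ (b : ℝ) (c : ℕ → ℂ),
    (Summable fun m => ‖c m‖ * ((m + 1 : ℕ) : ℝ) ^ (B : ℝ)) →
    1 / 2 ≤ ‖c 0‖ → ∑' m, ‖c (m + 1)‖ * ((m + 2 : ℕ) : ℝ) ^ (B : ℝ) ≤ δ →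
    ∀ v : ℝ, κ * pr l 1 v ≤ ‖Aser c l b (((-(1 / 2) : ℝ) : ℂ) + v * I)‖ := by
  obtain ⟨c₀, hc0, hc₀⟩ := exists_norm_zprod_neg_half_ge
  obtain ⟨C, B, hC0, hC⟩ := exists_norm_AA_line n (σ := -(1 / 2)) (by norm_num) (by norm_num)
  refine ⟨c₀ ^ n / 4 / C, c₀ ^ n / 4, B, by positivity, by positivity, ?_⟩
  intro l hl b c hc h0 ht v
  set w : ℂ := ((-(1 / 2) : ℝ) : ℂ) + v * I with hw
  have hwre : w.re = -(1 / 2) := by simp [hw]
  have hPhi : ∀ m : ℕ, ∀ j, ‖Phi (m + 1) j‖ ≤ 1 := fun m j => (norm_Phi _ j).le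
  have hAA : ∀ m : ℕ, ‖AA l (Phi (m + 1)) w‖ ≤ C * ((m + 1 : ℕ) : ℝ) ^ B * pr l 1 v := by
    intro m
    have h := hC l hl (m + 1) (Phi (m + 1)) (hPhi m) v
    have e : (1 / 2 - -(1 / 2) : ℝ) = 1 := by norm_num
    rw [e] at h
    exact h
  have hpr := pr_nonneg l 1 v
  have hterm : ∀ m : ℕ, ‖Aterm c l b m w‖ ≤ (‖c m‖ * ((m + 1 : ℕ) : ℝ) ^ (B : ℝ)) *
      (C * pr l 1 v) := by
    intro m
    have hm1 : (1:ℝ) ≤ ((m + 1 : ℕ) : ℝ) := by
      push_cast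
      linarith [Nat.cast_nonneg (α := ℝ) m]
    unfold Aterm
    rw [norm_mul, norm_mul, Complex.norm_natCast_cpow_of_pos (Nat.succ_pos m), Real.rpow_natCast]
    have h1 : ((m + 1 : ℕ) : ℝ) ^ (w - 1 / 2 - I * b).re ≤ 1 := by
      refine Real.rpow_le_one_of_one_le_of_nonpos hm1 ?_
      simp [hwre]
    calc _ ≤ ‖c m‖ * 1 * (C * ((m + 1 : ℕ) : ℝ) ^ B * pr l 1 v) := by
          gcongr
          exact hAA m
      _ = _ := by ring
  have hsum : Summable fun m => Aterm c l b m w :=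
    Summable.of_norm_bounded (hc.mul_right _) hterm
  have h00 : Aterm c l b 0 w = c 0 * (Phi (0 + 1) 1 * zprod l w) := by
    unfold Aterm
    have h1 : AA l (Phi (0 + 1)) w = Phi (0 + 1) 1 * zprod l w := AA_modOne l (Phi (0 + 1)) w
    rw [h1]
    simp
  have hA : Aser c l b w = Aterm c l b 0 w + ∑' m, Aterm c l b (m + 1) w := by
    unfold Aser
    exact hsum.tsum_eq_zero_add
  have htail : ‖∑' m, Aterm c l b (m + 1) w‖ ≤ c₀ ^ n / 4 * pr l 1 v := by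
    have hs1 : Summable fun m : ℕ => ‖c (m + 1)‖ * ((m + 2 : ℕ) : ℝ) ^ (B : ℝ) :=
      (summable_nat_add_iff 1).2 hc
    have h1 : ‖∑' m, Aterm c l b (m + 1) w‖ ≤
        ∑' m, (‖c (m + 1)‖ * ((m + 2 : ℕ) : ℝ) ^ (B : ℝ)) * (C * pr l 1 v) :=
      tsum_of_norm_bounded (hs1.mul_right _).hasSum fun m => hterm (m + 1)
    rw [tsum_mul_right] at h1
    refine h1.trans ?_
    calc _ ≤ (c₀ ^ n / 4 / C) * (C * pr l 1 v) := by gcongr
      _ = _ := by field_simp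
  have hhead : c₀ ^ n / 2 * pr l 1 v ≤ ‖Aterm c l b 0 w‖ := by
    rw [h00, norm_mul, norm_mul, norm_Phi, one_mul]
    have h1 := hc₀ l v
    rw [hl] at h1
    calc _ = 1 / 2 * (c₀ ^ n * pr l 1 v) := by ring
      _ ≤ _ := by gcongr
  rw [hA]
  have h2 := norm_sub_norm_le (Aterm c l b 0 w) (-∑' m, Aterm c l b (m + 1) w)
  rw [norm_neg, sub_neg_eq_add] at h2
  have : c₀ ^ n / 4 * pr l 1 v = c₀ ^ n / 2 * pr l 1 v - c₀ ^ n / 4 * pr l 1 v := by ring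
  linarith

lemma fM_exp (c : ℕ → ℂ) (l : List ℝ) (b : ℝ) (z h w : ℂ) :
    fM c l b (z + h) w = fM c l b z w * cexp (-(w * h)) := by
  unfold fM
  have : cexp (-(w * (z + h))) = cexp (-(w * z)) * cexp (-(w * h)) := by
    rw [← Complex.exp_add]
    congr 1
    ring
  rw [this]
  ring

/-- lower bound for the integrand on `Re w = -1/2` -/
theorem exists_norm_fM_ge (k : ℕ) : ∃ (δ : ℝ) (B : ℕ), 0 < δ ∧ ∀ l : List ℝ, l.length = k + 1 →
    ∃ κ : ℝ, 0 < κ ∧ ∀ (b : ℝ) (c : ℕ → ℂ),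
    (Summable fun m => ‖c m‖ * ((m + 1 : ℕ) : ℝ) ^ (B : ℝ)) →
    1 / 2 ≤ ‖c 0‖ → ∑' m, ‖c (m + 1)‖ * ((m + 2 : ℕ) : ℝ) ^ (B : ℝ) ≤ δ →
    ∀ η v : ℝ, 0 ≤ v → κ * (1 + v) ^ k * Real.exp (-(η * v)) ≤
      ‖fM c l b (-(η * I)) (((-(1 / 2) : ℝ) : ℂ) + v * I)‖ := by
  obtain ⟨δ, κ, B, hδ, hκ, h⟩ := exists_norm_Aser_ge (k + 1)
  refine ⟨δ, B, hδ, fun l hl => ⟨κ / pr l 1 0, div_pos hκ (pr_pos _ _ _), ?_⟩⟩
  intro b c hc h0 ht η v hv
  have h1 := h l hl b c hc h0 ht v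
  have h2 := pr_ge l (p := 1) (by norm_num) v
  have h3 := norm_Gp_neg_half_ge hv
  have hp0 := pr_pos l 1 0
  rw [abs_of_nonneg hv, hl, mul_one, Real.rpow_natCast] at h2
  have e1 : ((-1 / 2 : ℝ) : ℂ) = ((-(1 / 2) : ℝ) : ℂ) := by push_cast; ring
  rw [e1] at h3
  have hv1 : 0 < 1 + v := by linarith
  unfold fM
  rw [norm_mul, norm_mul, norm_exp_neg_mul]
  have e2 : Real.exp (-((((-(1 / 2) : ℝ) : ℂ) + v * I).re * (-((η:ℂ) * I)).re) +
      (((-(1 / 2) : ℝ) : ℂ) + v * I).im * (-((η:ℂ) * I)).im) = Real.exp (-(η * v)) := by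
    congr 1
    simp
    ring
  rw [e2]
  have h4 : κ / pr l 1 0 * (1 + v) ^ (k + 1) ≤
      ‖Aser c l b (((-(1 / 2) : ℝ) : ℂ) + v * I)‖ := by
    refine le_trans ?_ h1
    rw [div_mul_eq_mul_div, div_le_iff₀ hp0]
    calc κ * (1 + v) ^ (k + 1) ≤ κ * (pr l 1 0 * pr l 1 v) := by gcongr
      _ = _ := by ring
  calc κ / pr l 1 0 * (1 + v) ^ k * Real.exp (-(η * v)) =
      (1 + v)⁻¹ * Real.exp (-(η * v)) * (κ / pr l 1 0 * (1 + v) ^ (k + 1)) := by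
        rw [pow_succ]
        field_simp
    _ ≤ _ := by gcongr

/-- upper bound for the integrand on vertical lines -/
theorem exists_norm_fM_le (k : ℕ) {σ : ℝ} (hσ : -1 < σ) (hσ0 : σ < 0) : ∃ B : ℕ,
    ∀ l : List ℝ, l.length = k + 1 → ∃ C : ℝ, 0 < C ∧ ∀ (b : ℝ) (c : ℕ → ℂ),
    (Summable fun m => ‖c m‖ * ((m + 1 : ℕ) : ℝ) ^ (B : ℝ)) →
    ∀ η v : ℝ, 0 < η → η ≤ 1 → ‖fM c l b (-(η * I)) (σ + v * I)‖ ≤
      (C * ∑' m, ‖c m‖ * ((m + 1 : ℕ) : ℝ) ^ (B : ℝ)) * (1 + |v|) ^ (k * (1 / 2 - σ)) *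
        Real.exp (-(η * |v|)) := by
  obtain ⟨C, B, hC0, hC⟩ := exists_norm_AA_line (k + 1) (σ := σ) hσ hσ0
  obtain ⟨G, hG0, hG⟩ := exists_norm_Gp_line hσ hσ0
  refine ⟨B, fun l hl => ⟨G * C * pr l (1 / 2 - σ) 0, mul_pos (mul_pos hG0 hC0) (pr_pos _ _ _), ?_⟩⟩
  intro b c hc η v hη0 hη1
  set w : ℂ := (σ : ℂ) + v * I with hw
  have hwre : w.re = σ := by simp [hw]
  have hwim : w.im = v := by simp [hw]
  have hPhi : ∀ m : ℕ, ∀ j, ‖Phi (m + 1) j‖ ≤ 1 := fun m j => (norm_Phi _ j).le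
  set p : ℝ := 1 / 2 - σ with hp
  have hp0 : 0 ≤ p := by rw [hp]; linarith
  have hAA : ∀ m : ℕ, ‖AA l (Phi (m + 1)) w‖ ≤ C * ((m + 1 : ℕ) : ℝ) ^ B * pr l p v :=
    fun m => hC l hl (m + 1) (Phi (m + 1)) (hPhi m) v
  have hpr := pr_nonneg l p v
  have hterm : ∀ m : ℕ, ‖Aterm c l b m w‖ ≤ (‖c m‖ * ((m + 1 : ℕ) : ℝ) ^ (B : ℝ)) *
      (C * pr l p v) := by
    intro m
    have hm1 : (1:ℝ) ≤ ((m + 1 : ℕ) : ℝ) := by
      push_cast
      linarith [Nat.cast_nonneg (α := ℝ) m]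
    unfold Aterm
    rw [norm_mul, norm_mul, Complex.norm_natCast_cpow_of_pos (Nat.succ_pos m), Real.rpow_natCast]
    have h1 : ((m + 1 : ℕ) : ℝ) ^ (w - 1 / 2 - I * b).re ≤ 1 := by
      refine Real.rpow_le_one_of_one_le_of_nonpos hm1 ?_
      simp [hwre]
      linarith
    calc _ ≤ ‖c m‖ * 1 * (C * ((m + 1 : ℕ) : ℝ) ^ B * pr l p v) := by
          gcongr
          exact hAA m
      _ = _ := by ring
  have hA : ‖Aser c l b w‖ ≤ (∑' m, ‖c m‖ * ((m + 1 : ℕ) : ℝ) ^ (B : ℝ)) * (C * pr l p v) := by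
    unfold Aser
    rw [← tsum_mul_right]
    exact tsum_of_norm_bounded (hc.mul_right _).hasSum hterm
  have hS0 : 0 ≤ ∑' m, ‖c m‖ * ((m + 1 : ℕ) : ℝ) ^ (B : ℝ) := tsum_nonneg fun m => by positivity
  have h2 := pr_le l hp0 v
  rw [hl] at h2
  have hGv := hG v
  have h3 : Real.exp (-(Real.pi / 2 * |v|) + Real.pi / 2 * v) *
      Real.exp (-(w.re * (-((η:ℂ) * I)).re) + w.im * (-((η:ℂ) * I)).im) ≤
      Real.exp (-(η * |v|)) := by
    rw [← Real.exp_add]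
    apply Real.exp_le_exp.2
    have e1 : (-((η:ℂ) * I)).re = 0 := by simp
    have e2 : (-((η:ℂ) * I)).im = -η := by simp
    rw [e1, e2, hwim]
    rcases le_total 0 v with h | h
    · rw [abs_of_nonneg h]; nlinarith
    · rw [abs_of_nonpos h]; nlinarith [Real.pi_gt_three]
  have h4 : (1 + |v|) ^ (σ - 1 / 2) * (1 + |v|) ^ (((k + 1 : ℕ) : ℝ) * p) =
      (1 + |v|) ^ (k * p) := by
    rw [← Real.rpow_add (by positivity)]
    congr 1
    push_cast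
    rw [hp]
    ring
  unfold fM
  rw [norm_mul, norm_mul, norm_exp_neg_mul]
  calc _ ≤ (G * (1 + |v|) ^ (σ - 1 / 2) * Real.exp (-(Real.pi / 2 * |v|) + Real.pi / 2 * v)) *
        Real.exp (-(w.re * (-((η:ℂ) * I)).re) + w.im * (-((η:ℂ) * I)).im) *
        ((∑' m, ‖c m‖ * ((m + 1 : ℕ) : ℝ) ^ (B : ℝ)) *
          (C * (pr l p 0 * (1 + |v|) ^ (((k + 1 : ℕ) : ℝ) * p)))) := by
        gcongr
        exact hA.trans (by gcongr)
    _ = (G * C * pr l p 0 * ∑' m, ‖c m‖ * ((m + 1 : ℕ) : ℝ) ^ (B : ℝ)) *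
        ((1 + |v|) ^ (σ - 1 / 2) * (1 + |v|) ^ (((k + 1 : ℕ) : ℝ) * p)) *
        (Real.exp (-(Real.pi / 2 * |v|) + Real.pi / 2 * v) *
          Real.exp (-(w.re * (-((η:ℂ) * I)).re) + w.im * (-((η:ℂ) * I)).im)) := by ring
    _ ≤ _ := by
        rw [h4]
        have := pr_nonneg l p 0
        gcongr

end Pool.Agent.H26
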