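import Pool.Agent.H26.Ident

/-!
A mean value theorem for products of two absolutely convergent Dirichlet series.
-/

set_option autoImplicit false

namespace Pool.Agent.H26

open Complex Finset Filter Topology MeasureTheory

lemma norm_exp_I_mul (θ t : ℝ) : ‖cexp (I * θ * t)‖ = 1 := by
  rw [show I * (θ : ℂ) * t = ((θ * t : ℝ) : ℂ) * I by push_cast; ring, norm_exp_ofReal_mul_I]

lemma norm_integral_exp_le {θ : ℝ} (hθ : θ ≠ 0) (T : ℝ) :
    ‖∫ t in (0:ℝ)..T, cexp (I * θ * t)‖ ≤ 2 / |θ| := by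
  have hc : I * (θ : ℂ) ≠ 0 := mul_ne_zero I_ne_zero (by exact_mod_cast hθ)
  rw [integral_exp_mul_complex hc, norm_div, norm_mul, norm_I, one_mul, Complex.norm_real,
    Real.norm_eq_abs]
  gcongr
  refine (norm_sub_le _ _).trans ?_
  rw [norm_exp_I_mul, norm_exp_I_mul]
  norm_num

lemma div_le_log_sub {m n : ℕ} (hn : n ≠ 0) (h : n < m) :
    ((m:ℝ) - n) / m ≤ Real.log m - Real.log n := by
  have hn0 : (0:ℝ) < n := by exact_mod_cast Nat.pos_of_ne_zero hn
  have hm0 : (0:ℝ) < m := by exact_mod_cast (by omega : 0 < m)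
  have h1 := Real.one_sub_inv_le_log_of_pos (x := (m:ℝ) / n) (by positivity)
  rw [Real.log_div hm0.ne' hn0.ne', inv_div] at h1
  rw [sub_div, div_self hm0.ne']
  exact h1

/-- The summable majorant. -/
noncomputable def maj (η : ℝ) (n : ℕ) : ℝ := (n : ℝ) ^ (-(1 + η / 2) : ℝ)

lemma summable_maj {η : ℝ} (hη : 0 < η) : Summable (maj η) :=
  Real.summable_nat_rpow.2 (by linarith)

lemma maj_nonneg (η : ℝ) (n : ℕ) : 0 ≤ maj η n := by unfold maj; positivity

lemma maj_zero {η : ℝ} (hη : 0 < η) : maj η 0 = 0 := by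
  unfold maj
  rw [Nat.cast_zero, Real.zero_rpow]
  linarith

/-- The sum of the majorant. -/
noncomputable def majS (η : ℝ) : ℝ := ∑' n, maj η n

lemma majS_nonneg (η : ℝ) : 0 ≤ majS η := tsum_nonneg (maj_nonneg η)

/-- The majorant of the terms off the diagonal. -/
noncomputable def offd (η : ℝ) (p : ℕ × ℕ) : ℝ := if p.1 < p.2 then maj η p.1 * maj η (p.2 - p.1) else 0

lemma offd_nonneg (η : ℝ) (p : ℕ × ℕ) : 0 ≤ offd η p := by
  unfold offd
  split_ifs
  · exact mul_nonneg (maj_nonneg _ _) (maj_nonneg _ _)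
  · exact le_rfl

lemma hasSum_maj_mul {η : ℝ} (hη : 0 < η) :
    HasSum (fun p : ℕ × ℕ => maj η p.1 * maj η p.2) (majS η * majS η) := by
  have h := Summable.mul_of_nonneg (summable_maj hη) (summable_maj hη) (maj_nonneg η)
    (maj_nonneg η)
  exact (summable_maj hη).hasSum.mul (summable_maj hη).hasSum h

lemma hasSum_offd {η : ℝ} (hη : 0 < η) : HasSum (offd η) (majS η * majS η) := by
  have hinj : Function.Injective fun p : ℕ × ℕ => (p.1, p.1 + p.2) := by
    rintro ⟨a, b⟩ ⟨c, d⟩ h
    simp only [Prod.mk.injEq] at h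
    obtain ⟨h1, h2⟩ := h
    subst h1
    have : b = d := by omega
    rw [this]
  rw [← hinj.hasSum_iff]
  · have e : (offd η ∘ fun p : ℕ × ℕ => (p.1, p.1 + p.2)) =
        fun p : ℕ × ℕ => maj η p.1 * maj η p.2 := by
      funext p
      simp only [Function.comp, offd]
      by_cases h : p.2 = 0
      · rw [if_neg (by omega), h, maj_zero hη, mul_zero]
      · rw [if_pos (by omega)]
        congr 2
        omega
    rw [e]
    exact hasSum_maj_mul hη
  · rintro ⟨a, b⟩ hab
    unfold offd
    rw [if_neg]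
    intro h
    exact hab ⟨(a, b - a), by simp only [Prod.mk.injEq, true_and]; omega⟩

lemma hasSum_offd_swap {η : ℝ} (hη : 0 < η) :
    HasSum (fun p : ℕ × ℕ => offd η p.swap) (majS η * majS η) :=
  (Equiv.prodComm ℕ ℕ).hasSum_iff.2 (hasSum_offd hη)

lemma maj_mul_le_offd {η : ℝ} (hη : 0 < η) {n m : ℕ} (hn : n ≠ 0) (h : n < m) :
    maj η n * maj η m * (2 / |Real.log m - Real.log n|) ≤ 2 * offd η (n, m) := by
  have hn0 : (0:ℝ) < n := by exact_mod_cast Nat.pos_of_ne_zero hn
  have hm0 : (0:ℝ) < m := by exact_mod_cast (by omega : 0 < m)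
  have hnm : (0:ℝ) < (m:ℝ) - n := by
    have : (n:ℝ) < m := by exact_mod_cast h
    linarith
  have h1 := div_le_log_sub hn h
  have h2 : 0 < ((m:ℝ) - n) / m := by positivity
  have h3 : (2:ℝ) / |Real.log m - Real.log n| ≤ 2 * (m / ((m:ℝ) - n)) := by
    rw [abs_of_pos (by linarith)]
    calc (2:ℝ) / (Real.log m - Real.log n) ≤ 2 / (((m:ℝ) - n) / m) := by gcongr
      _ = _ := by field_simp
  unfold offd
  rw [if_pos h]
  simp only
  have hcast : ((m - n : ℕ) : ℝ) = (m:ℝ) - n := by
    rw [Nat.cast_sub h.le]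
  calc maj η n * maj η m * (2 / |Real.log m - Real.log n|)
      ≤ maj η n * maj η m * (2 * (m / ((m:ℝ) - n))) := by
        have := maj_nonneg η n
        have := maj_nonneg η m
        gcongr
    _ = 2 * (maj η n * (maj η m * m * ((m:ℝ) - n)⁻¹)) := by
        rw [div_eq_mul_inv]; ring
    _ ≤ 2 * (maj η n * maj η (m - n)) := by
        have h5 := maj_nonneg η n
        refine mul_le_mul_of_nonneg_left (mul_le_mul_of_nonneg_left ?_ h5) (by norm_num)
        have e1 : maj η m * m = (m:ℝ) ^ (-(η / 2)) := by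
          unfold maj
          nth_rw 2 [← Real.rpow_one (m:ℝ)]
          rw [← Real.rpow_add hm0]
          congr 1
          ring
        have e2 : maj η (m - n) = ((m:ℝ) - n) ^ (-(η / 2)) * ((m:ℝ) - n)⁻¹ := by
          unfold maj
          rw [hcast, ← Real.rpow_neg_one, ← Real.rpow_add hnm]
          congr 1
          ring
        rw [e1, e2]
        refine mul_le_mul_of_nonneg_right ?_ (by positivity)
        exact Real.rpow_le_rpow_of_nonpos hnm (by linarith) (by linarith)

/-- The general term of the product of the two series. -/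
lemma term_mul_term (A B : ℕ → ℂ) (σ : ℂ) (t : ℝ) {n m : ℕ} (hn : n ≠ 0) (hm : m ≠ 0) :
    LSeries.term A (σ + I * t) n * LSeries.term B (σ - I * t) m =
      (LSeries.term A σ n * LSeries.term B σ m) *
        cexp (I * ((Real.log m - Real.log n : ℝ) : ℂ) * t) := by
  have hn' : (n : ℂ) ≠ 0 := by exact_mod_cast hn
  have hm' : (m : ℂ) ≠ 0 := by exact_mod_cast hm
  rw [LSeries.term_of_ne_zero hn, LSeries.term_of_ne_zero hm, LSeries.term_of_ne_zero hn,
    LSeries.term_of_ne_zero hm, Complex.cpow_add _ _ hn', Complex.cpow_sub _ _ hm']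
  have e1 : cexp (I * ((Real.log m - Real.log n : ℝ) : ℂ) * t) =
      (m : ℂ) ^ (I * (t : ℂ)) / (n : ℂ) ^ (I * (t : ℂ)) := by
    rw [Complex.cpow_def_of_ne_zero hn', Complex.cpow_def_of_ne_zero hm', ← Complex.exp_sub,
      Complex.ofReal_sub, Complex.natCast_log, Complex.natCast_log]
    congr 1
    ring
  rw [e1]
  have h1 : (n : ℂ) ^ (I * (t : ℂ)) ≠ 0 := by
    rw [Ne, Complex.cpow_eq_zero_iff]
    exact fun h => hn' h.1
  have h2 : (m : ℂ) ^ (I * (t : ℂ)) ≠ 0 := by
    rw [Ne, Complex.cpow_eq_zero_iff]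
    exact fun h => hm' h.1
  have h3 : (n : ℂ) ^ σ ≠ 0 := by
    rw [Ne, Complex.cpow_eq_zero_iff]
    exact fun h => hn' h.1
  have h4 : (m : ℂ) ^ σ ≠ 0 := by
    rw [Ne, Complex.cpow_eq_zero_iff]
    exact fun h => hm' h.1
  field_simp

lemma norm_term_le_maj {A : ℕ → ℂ} {K η : ℝ} (hK : 0 ≤ K)
    (hA : ∀ n : ℕ, n ≠ 0 → ‖A n‖ ≤ K * (n : ℝ) ^ (η / 2))
    {s : ℂ} (hs : s.re = 1 + η) (n : ℕ) :
    ‖LSeries.term A s n‖ ≤ K * maj η n := by
  by_cases hn : n = 0
  · subst hn
    rw [LSeries.term_zero, norm_zero]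
    exact mul_nonneg hK (maj_nonneg η 0)
  · have hn0 : (0:ℝ) < n := by exact_mod_cast Nat.pos_of_ne_zero hn
    rw [LSeries.norm_term_eq, if_neg hn, hs]
    calc ‖A n‖ / (n:ℝ) ^ (1 + η)
        ≤ (K * (n : ℝ) ^ (η / 2)) / (n:ℝ) ^ (1 + η) := by
          gcongr
          exact hA n hn
      _ = K * ((n : ℝ) ^ (η / 2) * (n:ℝ) ^ (-(1 + η))) := by
          rw [Real.rpow_neg hn0.le]
          ring
      _ = K * maj η n := by
          rw [← Real.rpow_add hn0]
          unfold maj
          congr 2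
          ring

lemma norm_LSeries_le_majS {A : ℕ → ℂ} {K η : ℝ} (hη : 0 < η) (hK : 0 ≤ K)
    (hA : ∀ n : ℕ, n ≠ 0 → ‖A n‖ ≤ K * (n : ℝ) ^ (η / 2))
    {s : ℂ} (hs : s.re = 1 + η) : ‖LSeries A s‖ ≤ K * majS η :=
  tsum_of_norm_bounded ((summable_maj hη).hasSum.mul_left K) (norm_term_le_maj hK hA hs)

theorem mean_value {A B : ℕ → ℂ} {K η : ℝ} (hη : 0 < η) (hK : 0 ≤ K)
    (hA : ∀ n : ℕ, n ≠ 0 → ‖A n‖ ≤ K * (n : ℝ) ^ (η / 2))
    (hB : ∀ n : ℕ, n ≠ 0 → ‖B n‖ ≤ K * (n : ℝ) ^ (η / 2))
    {σ : ℂ} (hσ : σ.re = 1 + η) (T : ℝ) :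
    ‖(∫ t in (0:ℝ)..T, LSeries A (σ + I * t) * LSeries B (σ - I * t)) -
      T * LSeries (fun n => A n * B n) (2 * σ)‖ ≤ 4 * (K * majS η) ^ 2 := by
  have hre1 : ∀ t : ℝ, (σ + I * t).re = 1 + η := by intro t; simp [hσ]
  have hre2 : ∀ t : ℝ, (σ - I * t).re = 1 + η := by intro t; simp [hσ]
  have hsm := summable_maj hη
  have hsA : ∀ s : ℂ, s.re = 1 + η → Summable fun n => ‖LSeries.term A s n‖ := fun s hs =>
    (hsm.mul_left K).of_nonneg_of_le (fun _ => norm_nonneg _) (norm_term_le_maj hK hA hs)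
  have hsB : ∀ s : ℂ, s.re = 1 + η → Summable fun n => ‖LSeries.term B s n‖ := fun s hs =>
    (hsm.mul_left K).of_nonneg_of_le (fun _ => norm_nonneg _) (norm_term_le_maj hK hB hs)
  set F : ℕ × ℕ → ℝ → ℂ := fun p t =>
    LSeries.term A (σ + I * t) p.1 * LSeries.term B (σ - I * t) p.2 with hF
  have hFeq : ∀ p : ℕ × ℕ, F p = fun t : ℝ => (LSeries.term A σ p.1 * LSeries.term B σ p.2) *
      cexp (I * ((Real.log p.2 - Real.log p.1 : ℝ) : ℂ) * t) := by
    intro p
    funext t
    by_cases h1 : p.1 = 0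
    · simp [hF, h1]
    by_cases h2 : p.2 = 0
    · simp [hF, h2]
    exact term_mul_term A B σ t h1 h2
  -- the integral of the product
  have hS1 : HasSum (fun p : ℕ × ℕ => ∫ t in (0:ℝ)..T, F p t)
      (∫ t in (0:ℝ)..T, LSeries A (σ + I * t) * LSeries B (σ - I * t)) := by
    refine intervalIntegral.hasSum_integral_of_dominated_convergence
      (fun p _ => K * maj η p.1 * (K * maj η p.2)) ?_ ?_ ?_ ?_ ?_
    · intro p
      rw [hFeq p]
      have : Continuous fun t : ℝ => (LSeries.term A σ p.1 * LSeries.term B σ p.2) *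
          cexp (I * ((Real.log p.2 - Real.log p.1 : ℝ) : ℂ) * t) := by fun_prop
      exact this.aestronglyMeasurable
    · intro p
      refine Filter.Eventually.of_forall fun t _ => ?_
      simp only [hF]
      rw [norm_mul]
      exact mul_le_mul (norm_term_le_maj hK hA (hre1 t) _) (norm_term_le_maj hK hB (hre2 t) _)
        (norm_nonneg _) (mul_nonneg hK (maj_nonneg _ _))
    · refine Filter.Eventually.of_forall fun t _ => ?_
      exact Summable.mul_of_nonneg (hsm.mul_left K) (hsm.mul_left K)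
        (fun n => mul_nonneg hK (maj_nonneg η n)) (fun n => mul_nonneg hK (maj_nonneg η n))
    · exact intervalIntegrable_const
    · refine Filter.Eventually.of_forall fun t _ => ?_
      have h1 := hsA _ (hre1 t)
      have h2 := hsB _ (hre2 t)
      exact h1.of_norm.hasSum.mul h2.of_norm.hasSum (summable_mul_of_summable_norm h1 h2)
  -- the diagonal
  have hdiag : ∀ n : ℕ, LSeries.term (fun n => A n * B n) (2 * σ) n =
      LSeries.term A σ n * LSeries.term B σ n := by
    intro n
    by_cases hn : n = 0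
    · simp [hn]
    · have hn' : (n : ℂ) ≠ 0 := by exact_mod_cast hn
      rw [LSeries.term_of_ne_zero hn, LSeries.term_of_ne_zero hn,
        LSeries.term_of_ne_zero hn, two_mul, Complex.cpow_add _ _ hn']
      exact (div_mul_div_comm _ _ _ _).symm
  have hS2 : HasSum (fun p : ℕ × ℕ => if p.1 = p.2 then
      (T : ℂ) * LSeries.term (fun n => A n * B n) (2 * σ) p.1 else 0)
      (T * LSeries (fun n => A n * B n) (2 * σ)) := by
    have hinj : Function.Injective fun n : ℕ => (n, n) := fun a b h => (Prod.ext_iff.1 h).1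
    rw [← hinj.hasSum_iff]
    · have hs : Summable (LSeries.term (fun n => A n * B n) (2 * σ)) := by
        refine Summable.of_norm_bounded (g := fun n => (K * maj η n) * (K * majS η)) ?_ ?_
        · exact (hsm.mul_left K).mul_right _
        · intro n
          rw [hdiag, norm_mul]
          refine mul_le_mul (norm_term_le_maj hK hA hσ _)
            ((norm_term_le_maj hK hB hσ _).trans ?_) (norm_nonneg _)
            (mul_nonneg hK (maj_nonneg _ _))
          gcongr
          exact hsm.le_tsum n fun i _ => maj_nonneg η i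
      have h0 := hs.hasSum.mul_left (T : ℂ)
      have e : ((fun p : ℕ × ℕ => if p.1 = p.2 then
          (T : ℂ) * LSeries.term (fun n => A n * B n) (2 * σ) p.1 else 0) ∘ fun n : ℕ => (n, n)) =
          fun n => (T : ℂ) * LSeries.term (fun n => A n * B n) (2 * σ) n := by
        funext n
        simp
      rw [e]
      exact h0
    · rintro ⟨a, b⟩ hab
      rw [if_neg]
      rintro h
      simp only at h
      subst h
      exact hab ⟨a, rfl⟩
  have hS := hS1.sub hS2
  rw [← hS.tsum_eq]
  have hmaj : HasSum (fun p : ℕ × ℕ => K ^ 2 * (2 * offd η p + 2 * offd η p.swap))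
      (K ^ 2 * (2 * (majS η * majS η) + 2 * (majS η * majS η))) :=
    (((hasSum_offd hη).mul_left 2).add ((hasSum_offd_swap hη).mul_left 2)).mul_left _
  refine (tsum_of_norm_bounded hmaj fun p => ?_).trans (le_of_eq (by ring))
  have ho1 := offd_nonneg η p
  have ho2 := offd_nonneg η p.swap
  by_cases h1 : p.1 = 0
  · have hz : ∀ t, F p t = 0 := by intro t; simp [hF, h1]
    simp only [hz, intervalIntegral.integral_zero, h1, LSeries.term_zero, mul_zero, ite_self,
      sub_zero, norm_zero]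
    positivity
  by_cases h2 : p.2 = 0
  · have hz : ∀ t, F p t = 0 := by intro t; simp [hF, h2]
    have hne : ¬ p.1 = p.2 := by rw [h2]; exact h1
    rw [if_neg hne]
    simp only [hz, intervalIntegral.integral_zero, sub_zero, norm_zero]
    positivity
  by_cases h3 : p.1 = p.2
  · rw [if_pos h3, hFeq p, hdiag]
    have hpos : 0 ≤ K ^ 2 * (2 * offd η p + 2 * offd η p.swap) := by positivity
    refine le_trans (le_of_eq ?_) hpos
    simp only [← h3, sub_self, Complex.ofReal_zero, mul_zero, zero_mul, Complex.exp_zero, mul_one,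
      intervalIntegral.integral_const, sub_zero, Complex.real_smul, norm_zero]
  · rw [if_neg h3, sub_zero, hFeq p, intervalIntegral.integral_const_mul, norm_mul, norm_mul]
    have hn1 := norm_term_le_maj hK hA hσ p.1
    have hn2 := norm_term_le_maj hK hB hσ p.2
    have hmm : ‖LSeries.term A σ p.1‖ * ‖LSeries.term B σ p.2‖ ≤
        K ^ 2 * (maj η p.1 * maj η p.2) := by
      refine (mul_le_mul hn1 hn2 (norm_nonneg _) (mul_nonneg hK (maj_nonneg _ _))).trans
        (le_of_eq (by ring))
    have hlog : Real.log p.2 - Real.log p.1 ≠ 0 := by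
      intro h
      have h0 : (0:ℝ) < p.1 := by exact_mod_cast Nat.pos_of_ne_zero h1
      have h0' : (0:ℝ) < p.2 := by exact_mod_cast Nat.pos_of_ne_zero h2
      have := Real.log_injOn_pos h0' h0 (sub_eq_zero.1 h)
      exact h3 (by exact_mod_cast this.symm)
    have hJ := norm_integral_exp_le hlog T
    have hm1 := maj_nonneg η p.1
    have hm2 := maj_nonneg η p.2
    calc _ ≤ K ^ 2 * (maj η p.1 * maj η p.2) * (2 / |Real.log p.2 - Real.log p.1|) :=
          mul_le_mul hmm hJ (norm_nonneg _) (by positivity)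
      _ = K ^ 2 * (maj η p.1 * maj η p.2 * (2 / |Real.log p.2 - Real.log p.1|)) := by ring
      _ ≤ _ := by
          refine mul_le_mul_of_nonneg_left ?_ (by positivity)
          rcases lt_or_gt_of_ne h3 with h | h
          · have := maj_mul_le_offd hη h1 h
            have e : (p.1, p.2) = p := rfl
            rw [e] at this
            linarith
          · have := maj_mul_le_offd hη h2 h
            rw [abs_sub_comm, mul_comm (maj η p.2)] at this
            have e : (p.2, p.1) = p.swap := rfl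
            rw [e] at this
            linarith

end Pool.Agent.H26
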