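import Pool.Agent.H26.Core
import Pool.Agent.H26.Transl

/-!
The omega theorem on balls.
-/

namespace Pool.Agent.H26

open Complex MeasureTheory Set Filter Topology Asymptotics Pool.Agent.H95fa

variable {n : ℕ}

lemma exists_Er_bound_unit {R : ℝ} (hR : 0 ≤ R) {p : Ix (n + 1) → ℝ} (hp : Sepd R p) :
    ∃ C : ℝ, 0 ≤ C ∧ ∀ x : ℝ, |x| ≤ R → ∀ T : ℝ, 0 ≤ T → T ≤ 1 → ‖Er (gam p x) T‖ ≤ C := by
  have hZ := continuous_Zc_gamc R p
  have hQ := continuous_Qsum_gamc hR hp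
  have hcomp : IsCompact (Icc (-R) R ×ˢ Icc (0:ℝ) 1) := isCompact_Icc.prod isCompact_Icc
  obtain ⟨C, hC⟩ := hcomp.exists_bound_of_continuousOn (hZ.sub hQ).continuousOn
  have hC0 : 0 ≤ C := (norm_nonneg _).trans (hC (0, 0) ⟨⟨by simpa using hR, by simpa using hR⟩,
    ⟨le_rfl, zero_le_one⟩⟩)
  refine ⟨C, hC0, fun x hx T hT0 hT1 => ?_⟩
  have hx' : clp R x = x := by
    refine clp_eq ?_ hR
    rw [uIcc_of_le (by linarith)]
    exact abs_le.1 hx
  have h1 := Er_gam hR hp (x := x) T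
  rw [hx'] at h1
  rw [h1]
  have h2 : ‖∫ t in (0:ℝ)..T, (Zc (gamc p R x) t - Qsum (gamc p R x) t)‖ ≤ C * |T - 0| := by
    refine intervalIntegral.norm_integral_le_of_norm_le_const fun t ht => ?_
    rw [uIoc_of_le hT0] at ht
    exact hC (x, t) ⟨abs_le.1 hx, ⟨ht.1.le, ht.2.trans hT1⟩⟩
  rw [sub_zero, abs_of_nonneg hT0] at h2
  calc _ ≤ C * T := h2
    _ ≤ C * 1 := by gcongr
    _ = C := mul_one _

/-- well separated shifts near any given shifts with large coordinates -/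
lemma exists_Sepd {R : ℝ} (hR : 0 ≤ R) (γ₁ : Ix (n + 1) → ℝ)
    (h : ∀ i, (R + 1) + (R + 1) * (2 * (n + 1)) ≤ γ₁ i) :
    ∃ p : Ix (n + 1) → ℝ, Sepd R p ∧ ∀ i, |p i - γ₁ i| ≤ (R + 1) * (2 * (n + 1)) := by
  set D : ℝ := R + 1 with hD
  have hD0 : 0 < D := by linarith
  set N : ℕ := 2 * (n + 1) with hN
  have hcard : Fintype.card (Ix (n + 1)) = N := by
    simp [N]
    ring
  have hN0 : (0:ℝ) < N := by rw [hN]; push_cast; positivity
  have hNr : (N : ℝ) = 2 * (n + 1) := by rw [hN]; push_cast; ring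
  set e : Ix (n + 1) ≃ Fin N := Fintype.equivFinOfCardEq hcard with he
  set m : Ix (n + 1) → ℤ := fun i => ⌊γ₁ i / (D * N)⌋ with hm
  refine ⟨fun i => D * (N * m i + (e i : ℕ)), ⟨fun i => ?_, fun i j hij => ?_⟩, fun i => ?_⟩
  · have h1 : γ₁ i / (D * N) < m i + 1 := Int.lt_floor_add_one _
    rw [div_lt_iff₀ (by positivity)] at h1
    have h2 := h i
    have h3 : (0:ℝ) ≤ D * (e i : ℕ) := by positivity
    rw [← hNr] at h2
    nlinarith
  · have h1 : (D * (N * (m i : ℝ) + (e i : ℕ)) - D * (N * (m j : ℝ) + (e j : ℕ))) =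
        D * (((N : ℤ) * (m i - m j) + ((e i : ℕ) - (e j : ℕ) : ℤ) : ℤ) : ℝ) := by
      push_cast
      ring
    simp only
    rw [h1, abs_mul, abs_of_pos hD0]
    have h2 : ((N : ℤ) * (m i - m j) + ((e i : ℕ) - (e j : ℕ) : ℤ)) ≠ 0 := by
      intro h3
      have h4 : ((e i : ℕ) : ℤ) ≡ ((e j : ℕ) : ℤ) [ZMOD N] := by
        refine (Int.modEq_iff_dvd).2 ⟨m i - m j, ?_⟩
        linarith
      have h5 : (e i : ℕ) ≡ (e j : ℕ) [MOD N] := (Int.natCast_modEq_iff).1 h4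
      have h6 : (e i : ℕ) = (e j : ℕ) := by
        have := h5
        unfold Nat.ModEq at this
        rwa [Nat.mod_eq_of_lt (e i).2, Nat.mod_eq_of_lt (e j).2] at this
      exact hij (e.injective (Fin.ext h6))
    have h3 : (1:ℝ) ≤ |(((N : ℤ) * (m i - m j) + ((e i : ℕ) - (e j : ℕ) : ℤ) : ℤ) : ℝ)| := by
      rw [← Int.cast_abs]
      exact_mod_cast Int.one_le_abs h2
    nlinarith
  · have h1 : γ₁ i / (D * N) < m i + 1 := Int.lt_floor_add_one _
    have h1' : (m i : ℝ) ≤ γ₁ i / (D * N) := Int.floor_le _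
    rw [div_lt_iff₀ (by positivity)] at h1
    rw [le_div_iff₀ (by positivity)] at h1'
    have h3 : (0:ℝ) ≤ D * (e i : ℕ) := by positivity
    have h4 : D * ((e i : ℕ) : ℝ) ≤ D * N := by
      gcongr
      exact (e i).2.le
    simp only
    rw [← hNr, abs_le]
    constructor <;> nlinarith

theorem omega_ball (n : ℕ) {a : ℝ} (ha0 : 0 ≤ a) (ha : 2 * (n + 2) * a < n + 1) :
    ∃ ρ : ℝ, 0 < ρ ∧ ∀ γ₀ : Ix (n + 1) → ℝ,
      ¬ ∀ᵐ γ : Ix (n + 1) → ℝ, γ ∈ Metric.ball γ₀ ρ →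
        (fun T => Er γ T) =O[atTop] (fun T : ℝ => T ^ a) := by
  set ε : ℝ := ((n + 1) - 2 * (n + 2) * a) / (4 * (n + 2)) with hε
  have hε0 : 0 < ε := by
    have : 0 < (n + 1 : ℝ) - 2 * (n + 2) * a := by linarith
    positivity
  have ha' : 2 * ((n : ℝ) + 2) * (a + ε) < n + 1 := by
    have h1 : 2 * ((n : ℝ) + 2) * ε = ((n + 1) - 2 * (n + 2) * a) / 2 := by
      rw [hε]
      field_simp
      ring
    rw [mul_add, h1]
    linarith
  obtain ⟨R, hR0, hR⟩ := omega_core n (a := a + ε) (by positivity) ha'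
  set W : ℝ := (R + 1) * (2 * (n + 1)) with hW
  have hW0 : 0 < W := by positivity
  refine ⟨W + R + 1, by positivity, fun γ₀ hae => ?_⟩
  set h : ℝ := (R + 1) + W + ∑ i, |γ₀ i| with hh
  have hae' := ae_ball_add ha0 h hae
  set γ₁ : Ix (n + 1) → ℝ := fun i => γ₀ i + h with hγ₁
  have hγ₁' : ∀ i, (R + 1) + (R + 1) * (2 * (n + 1)) ≤ γ₁ i := by
    intro i
    have h1 : |γ₀ i| ≤ ∑ i, |γ₀ i| :=
      Finset.single_le_sum (f := fun i => |γ₀ i|) (fun i _ => abs_nonneg _) (Finset.mem_univ i)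
    have h2 := neg_abs_le (γ₀ i)
    simp only [hγ₁, hh, hW]
    linarith
  obtain ⟨p, hp, hpγ⟩ := exists_Sepd hR0 γ₁ hγ₁'
  refine hR p hp ?_
  set K : Set (Ix (n + 1) → ℝ) := (fun x => gam p x) '' Icc (-R) R with hK
  have hKc : IsCompact K := isCompact_Icc.image (continuous_gam p)
  have hKU : K ⊆ Metric.ball γ₁ (W + R + 1) := by
    rintro _ ⟨x, hx, rfl⟩
    rw [Metric.mem_ball, dist_pi_lt_iff (by positivity)]
    intro i
    rw [Real.dist_eq]
    have h1 := hpγ i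
    have hx' : |x| ≤ R := abs_le.2 hx
    rcases gam_eq p x i with h2 | h2 <;> simp only [h2]
    · linarith
    · calc |p i + x - γ₁ i| = |(p i - γ₁ i) + x| := by ring_nf
        _ ≤ |p i - γ₁ i| + |x| := abs_add_le _ _
        _ < _ := by linarith
  obtain ⟨C₁, hC₁⟩ := Er_uniform_of_ae Metric.isOpen_ball hε0 hae' hKc hKU
  obtain ⟨C₂, hC₂0, hC₂⟩ := exists_Er_bound_unit hR0 hp
  refine ⟨|C₁| + C₂, fun x hx T hT => ?_⟩
  have h1T : 1 ≤ (1 + T) ^ (a + ε) := Real.one_le_rpow (by linarith) (by positivity)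
  rcases le_total T 1 with hT1 | hT1
  · have := hC₂ x hx T hT hT1
    have h3 : 0 ≤ |C₁| := abs_nonneg _
    nlinarith
  · have h2 := hC₁ (gam p x) ⟨x, abs_le.1 hx, rfl⟩ T hT1
    have h3 : T ^ (a + ε) ≤ (1 + T) ^ (a + ε) :=
      Real.rpow_le_rpow hT (by linarith) (by positivity)
    have h4 : 0 ≤ T ^ (a + ε) := by positivity
    calc ‖Er (gam p x) T‖ ≤ C₁ * T ^ (a + ε) := h2
      _ ≤ |C₁| * T ^ (a + ε) := by
          gcongr
          exact le_abs_self _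
      _ ≤ |C₁| * (1 + T) ^ (a + ε) := by gcongr
      _ ≤ _ := by
          rw [add_mul]
          have : 0 ≤ C₂ * (1 + T) ^ (a + ε) := by positivity
          linarith

end Pool.Agent.H26
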