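import Pool.Agent.H26.HEreg

/-!
Integration by parts for the transform of the error term.
-/

namespace Pool.Agent.H26

open Complex MeasureTheory Set Filter Topology Pool.Agent.H95fa

lemma tendsto_poly_exp_atTop {q u : ℝ} (hu : 0 < u) :
    Tendsto (fun t : ℝ => (1 + t) ^ q * Real.exp (-(u * t))) atTop (𝓝 0) := by
  have h := tendsto_poly_exp q hu tendsto_abs_atTop_atTop
  refine h.congr' ?_
  filter_upwards [eventually_gt_atTop 0] with t ht
  rw [abs_of_pos ht]

theorem integral_by_parts {b : ℝ} (hb : 0 ≤ b) {F : ℝ → ℂ} (hF : Continuous F) {C : ℝ} {q : ℝ}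
    (hq : 0 ≤ q) (hC : 0 ≤ C)
    (hFb : ∀ t : ℝ, 0 ≤ t → ‖F t‖ ≤ C * (1 + t) ^ q) {z : ℂ} (hz : z ∈ Stm) :
    ∫ t in Ioi (0:ℝ), F t * KQ b z t = hE b (fun t => ∫ u in (0:ℝ)..t, F u) z := by
  set f : ℝ → ℂ := fun t => ∫ u in (0:ℝ)..t, F u with hf
  have hfd : ∀ t : ℝ, HasDerivAt f (F t) t := fun t =>
    intervalIntegral.integral_hasDerivAt_right (hF.intervalIntegrable _ _)
      (hF.stronglyMeasurableAtFilter _ _) hF.continuousAt
  have hfc : Continuous f := continuous_iff_continuousAt.2 fun t => (hfd t).continuousAt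
  have hfb : ∀ t : ℝ, 0 < t → ‖f t‖ ≤ C * (1 + t) ^ (q + 1) := by
    intro t ht
    have h1 : ‖∫ u in (0:ℝ)..t, F u‖ ≤ C * (1 + t) ^ q * |t - 0| := by
      refine intervalIntegral.norm_integral_le_of_norm_le_const fun u hu => ?_
      rw [uIoc_of_le ht.le] at hu
      refine (hFb u hu.1.le).trans ?_
      gcongr
      · linarith [hu.1]
      · exact hu.2
    rw [sub_zero, abs_of_pos ht] at h1
    refine h1.trans ?_
    rw [Real.rpow_add (by linarith), Real.rpow_one, ← mul_assoc]
    have : 0 ≤ C * (1 + t) ^ q := by positivity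
    gcongr
    linarith
  have hKd : ∀ t : ℝ, HasDerivAt (fun t : ℝ => KQ b z t) (-(I * lam z) * KQ b z t) t := by
    intro t
    unfold KQ
    have h1 : HasDerivAt (fun t : ℝ => (t : ℂ)) 1 t := Complex.ofRealCLM.hasDerivAt
    have h2 : HasDerivAt (fun t : ℝ => -((1 / 2 + I * ((t : ℂ) + b)) * lam z)) (-(I * lam z)) t := by
      have h3 := ((((h1.add_const (b : ℂ)).const_mul I).const_add (1 / 2)).mul_const (lam z)).neg
      rw [mul_one] at h3
      exact h3
    have h4 := h2.cexp
    rwa [mul_comm] at h4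
  have hu : 0 < 1 / 4 * |z.im| * Real.exp (-|z.re|) := by
    have : 0 < |z.im| := abs_pos.2 hz.2.ne
    positivity
  have hi1 : IntegrableOn (fun t : ℝ => F t * KQ b z t) (Ioi 0) :=
    integrableOn_mul_KQ hb hF.aestronglyMeasurable (fun t ht => hFb t ht.le) hz
  have hi2 : IntegrableOn (fun t : ℝ => f t * KQ b z t) (Ioi 0) :=
    integrableOn_mul_KQ hb hfc.aestronglyMeasurable hfb hz
  have hz0 : Tendsto (fun t : ℝ => KQ b z t * f t) (𝓝[>] 0) (𝓝 0) := by
    have h1 : Continuous fun t : ℝ => KQ b z t * f t := (continuous_KQ b z).mul hfc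
    have h2 := (h1.tendsto 0).mono_left (nhdsWithin_le_nhds (s := Ioi 0))
    have h3 : f 0 = 0 := by simp [hf]
    rw [h3, mul_zero] at h2
    exact h2
  have hinf : Tendsto (fun t : ℝ => KQ b z t * f t) atTop (𝓝 0) := by
    have h1 := (tendsto_poly_exp_atTop (q := q + 1) hu).const_mul C
    rw [mul_zero] at h1
    refine squeeze_zero_norm' ?_ h1
    filter_upwards [eventually_gt_atTop 0] with t ht
    rw [norm_mul, mul_comm, ← mul_assoc]
    exact mul_le_mul (hfb t ht) (norm_KQ_real_le hb hz ht.le le_rfl) (norm_nonneg _)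
      ((norm_nonneg _).trans (hfb t ht))
  have key := integral_Ioi_mul_deriv_eq_deriv_mul (a := 0) (u := fun t : ℝ => KQ b z t)
    (u' := fun t : ℝ => -(I * lam z) * KQ b z t) (v := f) (v' := F) (a' := 0) (b' := 0)
    (fun t _ => hKd t) (fun t _ => hfd t) ?_ ?_ hz0 hinf
  · have e1 : ∫ t in Ioi (0:ℝ), F t * KQ b z t = ∫ t in Ioi (0:ℝ), KQ b z t * F t := by
      refine integral_congr_ae (Eventually.of_forall fun t => ?_)
      simp only
      ring
    rw [e1, key, sub_zero, zero_sub]
    have e2 : ∫ t in Ioi (0:ℝ), -(I * lam z) * KQ b z t * f t =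
        -(I * lam z) * ∫ t in Ioi (0:ℝ), f t * KQ b z t := by
      rw [← integral_const_mul]
      refine integral_congr_ae (Eventually.of_forall fun t => ?_)
      simp only
      ring
    rw [e2]
    unfold hE KQ
    ring
  · refine hi1.congr_fun (fun t _ => ?_) measurableSet_Ioi
    simp only [Pi.mul_apply]
    ring
  · refine IntegrableOn.congr_fun (Integrable.const_mul hi2 (-(I * lam z))) (fun t _ => ?_)
      measurableSet_Ioi
    simp only [Pi.mul_apply]
    ring

end Pool.Agent.H26
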