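import Pool.Agent.H26.QBound

/-!
The swapped terms of the main term decay when the coordinates of `α` are moved downwards and
those of `β` upwards.
-/

set_option autoImplicit false

namespace Pool.Agent.H26

open Complex Finset Filter Topology MeasureTheory

variable {k : ℕ}

lemma prod_le_of_one {n : ℕ} {f : Fin n → ℝ} (h0 : ∀ j, 0 ≤ f j) {D τ : ℝ} (hD : 1 ≤ D)
    (h : ∀ j, f j ≤ D) {j₀ : Fin n} (hj₀ : f j₀ ≤ D * τ) (hτ : 0 ≤ τ) :
    ∏ j, f j ≤ D ^ n * τ := by
  rw [← Finset.mul_prod_erase univ f (Finset.mem_univ j₀)]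
  have h1 : ∏ j ∈ univ.erase j₀, f j ≤ D ^ (n - 1) := by
    calc ∏ j ∈ univ.erase j₀, f j ≤ ∏ _j ∈ univ.erase j₀, D :=
          Finset.prod_le_prod (fun j _ => h0 j) fun j _ => h j
      _ = D ^ (n - 1) := by
          rw [Finset.prod_const, Finset.card_erase_of_mem (Finset.mem_univ _), Finset.card_univ,
            Fintype.card_fin]
  have hn : n ≠ 0 := by
    rintro rfl
    exact j₀.elim0
  have h2 : D ^ n = D * D ^ (n - 1) := by
    rw [← pow_succ']
    congr 1
    omega
  have h3 : 0 ≤ D ^ (n - 1) := by positivity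
  calc f j₀ * ∏ j ∈ univ.erase j₀, f j ≤ (D * τ) * D ^ (n - 1) := by
        apply mul_le_mul hj₀ h1 (Finset.prod_nonneg fun j _ => h0 j)
        positivity
    _ = _ := by rw [h2]; ring

lemma one_add_abs_le {t b B : ℝ} (hb : |b| ≤ B) : 1 + |t| ≤ (1 + B) * (1 + |t + b|) := by
  have h1 : |t| ≤ |t + b| + |b| := by
    have : t = (t + b) + (-b) := by ring
    calc |t| = |(t + b) + (-b)| := by rw [← this]
      _ ≤ |t + b| + |(-b)| := abs_add_le _ _
      _ = _ := by rw [abs_neg]
  have h2 : 0 ≤ |t + b| := abs_nonneg _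
  have h3 : 0 ≤ |b| := abs_nonneg _
  nlinarith

/-- Decay of the factors of the swapped terms. -/
lemma exists_norm_G_decay (k : ℕ) : ∃ C : ℝ, 1 ≤ C ∧ ∀ (S : Finset (Ix k)), S.card = k →
    S ≠ S0 k → ∀ γ ∈ tube (Ix k), ∀ u : ℝ, 0 ≤ u → (∀ j, (γ (Sum.inl j)).im ≤ -u) →
    (∀ j, u ≤ (γ (Sum.inr j)).im) → ∀ B : ℝ, 0 ≤ B → (∀ i, |(γ i).re| ≤ B) → ∀ t : ℝ,
    ‖G S γ t‖ ≤ (C * (1 + B)) ^ (2 * k) * (1 + |t|) ^ (-(2 * u)) := by
  obtain ⟨C, hC1, hC⟩ := exists_norm_chi_decay
  refine ⟨C, hC1, fun S hSc hS γ hγ u hu hl hr B hB hγB t => ?_⟩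
  obtain ⟨⟨j₀, hj₀⟩, l₀, hl₀⟩ := exists_swap hSc hS
  set D : ℝ := C * (1 + B) with hD
  set τ : ℝ := (1 + |t|) ^ (-u) with hτ
  have ht0 : 0 ≤ |t| := abs_nonneg _
  have hτ0 : 0 ≤ τ := by positivity
  have hτ1 : τ ≤ 1 := Real.rpow_le_one_of_one_le_of_nonpos (by linarith) (by linarith)
  have hD1 : 1 ≤ D := by rw [hD]; nlinarith
  have hA : ∀ j : Fin k, ‖chi (1 / 2 - I * (t + γ (Sum.inr j)))‖ ≤ D * τ := by
    intro j
    have h1 := abs_lt.1 (hγ (Sum.inr j))
    have hre : (1 / 2 - I * (t + γ (Sum.inr j))).re = 1 / 2 + (γ (Sum.inr j)).im := by simp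
    have him : (1 / 2 - I * (t + γ (Sum.inr j))).im = -(t + (γ (Sum.inr j)).re) := by simp
    have h2 := hr j
    refine hC _ (by rw [hre]; linarith) (by rw [hre]; linarith) B t u hB hu
      (by rw [hre]; linarith) ?_
    rw [him, abs_neg]
    exact one_add_abs_le (hγB _)
  have hB' : ∀ j : Fin k, ‖chi (1 / 2 + I * (t + γ (Sum.inl j)))‖ ≤ D * τ := by
    intro j
    have h1 := abs_lt.1 (hγ (Sum.inl j))
    have hre : (1 / 2 + I * (t + γ (Sum.inl j))).re = 1 / 2 - (γ (Sum.inl j)).im := by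
      simp; ring
    have him : (1 / 2 + I * (t + γ (Sum.inl j))).im = t + (γ (Sum.inl j)).re := by simp
    have h2 := hl j
    refine hC _ (by rw [hre]; linarith) (by rw [hre]; linarith) B t u hB hu
      (by rw [hre]; linarith) ?_
    rw [him]
    exact one_add_abs_le (hγB _)
  have hDτ : D * τ ≤ D := by nlinarith
  unfold G
  rw [norm_mul, norm_prod, norm_prod]
  have e1 : (1 + |t|) ^ (-(2 * u)) = τ * τ := by
    rw [hτ, ← Real.rpow_add (by positivity)]
    ring_nf
  rw [e1, two_mul, pow_add, show D ^ k * D ^ k * (τ * τ) = (D ^ k * τ) * (D ^ k * τ) by ring]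
  refine mul_le_mul ?_ ?_ (Finset.prod_nonneg fun _ _ => norm_nonneg _) (by positivity)
  · refine prod_le_of_one (fun _ => norm_nonneg _) hD1 (fun j => ?_) (j₀ := j₀) ?_ hτ0
    · split_ifs
      · exact (hA j).trans hDτ
      · rw [norm_one]; exact hD1
    · rw [if_pos hj₀]
      exact hA j₀
  · refine prod_le_of_one (fun _ => norm_nonneg _) hD1 (fun j => ?_) (j₀ := l₀) ?_ hτ0
    · split_ifs
      · rw [norm_one]; exact hD1
      · exact (hB' j).trans hDτ
    · rw [if_neg hl₀]
      exact hB' l₀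

lemma differentiableOn_zetaAB_S0 {U : Set ℂ} (hU : IsOpen U) {g : ℂ → Ix k → ℂ}
    (hg : ∀ i, DifferentiableOn ℂ (fun z => g z i) U) (hgU : ∀ z ∈ U, g z ∈ tube (Ix k))
    (hne : ∀ z ∈ U, ∀ j l, g z (Sum.inl j) ≠ g z (Sum.inr l)) :
    DifferentiableOn ℂ (fun z => zetaAB (S0 k) (g z)) U := by
  unfold zetaAB
  refine DifferentiableOn.mul (differentiableOn_eulerF_comp _ hU hg hgU) ?_
  refine DifferentiableOn.fun_finsetProd fun i hi => DifferentiableOn.fun_finsetProd
    fun l hl => ?_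
  intro z hz
  have hne' : g z i ≠ g z l := by
    rcases i with i | i
    · rcases l with l | l
      · exact absurd (inl_mem_S0 l) (Finset.mem_compl.1 hl)
      · exact hne z hz i l
    · exact absurd hi (inr_notMem_S0 i)
  have h := differentiableAt_riemannZeta (one_add_ne_one hne')
  exact h.comp_differentiableWithinAt (f := fun z => (1 + I * (g z i - g z l) : ℂ))
    z (((hg _ z hz).sub (hg _ z hz)).const_mul _ |>.const_add _)

/-- Bound for the sum of the swapped terms. -/
theorem exists_norm_R_le (k : ℕ) {ρ : ℝ} (hρ : 0 < ρ) : ∃ C : ℝ, 0 ≤ C ∧ ∀ v : ℝ, ρ < v →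
    v + ρ ≤ 1 / 8 → ∀ γ : Ix k → ℂ, Function.Injective γ → (∀ j, (γ (Sum.inl j)).im = -v) →
    (∀ j, (γ (Sum.inr j)).im = v) → ∀ B : ℝ, 0 ≤ B → (∀ i, |(γ i).re| ≤ B) → ∀ t : ℝ,
    ‖Qsum γ t - zetaAB (S0 k) γ‖ ≤ C * (1 + B) ^ NK k * (1 + |t|) ^ (-(2 * (v - ρ))) := by
  obtain ⟨η, hη, hadm⟩ := exists_uniform_adm k hρ
  obtain ⟨CG, hCG1, hCG⟩ := exists_norm_G_decay k
  have hη' : 0 < η⁻¹ := inv_pos.2 hη
  have hBF : 0 ≤ BF (2 * k) := (Real.exp_pos _).le
  refine ⟨∑ S ∈ ((univ : Finset (Ix k)).powersetCard k).erase (S0 k), (CG * 2) ^ (2 * k) *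
    ((BF (2 * k) + 1) * ((η⁻¹ + 3) * 2) ^ ((2 * k) * (2 * k))), ?_, ?_⟩
  · refine Finset.sum_nonneg fun S _ => ?_
    positivity
  intro v hv hv8 γ hinj hl hr B hB hγB t
  have him : ∀ i, |(γ i).im| + ρ ≤ 1 / 8 := by
    intro i
    rcases i with i | i
    · rw [hl i, abs_neg, abs_of_pos (by linarith)]
      exact hv8
    · rw [hr i, abs_of_pos (by linarith)]
      exact hv8
  obtain ⟨r, hadm', hr1, hsep⟩ := hadm γ him
  have hr1' : ∀ i, r i ≤ 1 := fun i => by linarith [hr1 i]
  have hcl : ∀ γ' : Ix k → ℂ, (∀ j, dist (γ' j) (γ j) ≤ r j) →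
      (∀ j, (γ' (Sum.inl j)).im ≤ -(v - ρ)) ∧ ∀ j, v - ρ ≤ (γ' (Sum.inr j)).im := by
    intro γ' hγ'
    constructor
    · intro j
      have h1 := Complex.abs_im_le_norm (γ' (Sum.inl j) - γ (Sum.inl j))
      rw [← dist_eq_norm] at h1
      have h2 := abs_le.1 (h1.trans ((hγ' (Sum.inl j)).trans (hr1 _)))
      rw [Complex.sub_im, hl j] at h2
      linarith [h2.2]
    · intro j
      have h1 := Complex.abs_im_le_norm (γ' (Sum.inr j) - γ (Sum.inr j))
      rw [← dist_eq_norm] at h1
      have h2 := abs_le.1 (h1.trans ((hγ' (Sum.inr j)).trans (hr1 _)))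
      rw [Complex.sub_im, hr j] at h2
      linarith [h2.1]
  have key := norm_le_of_torus hadm' (f := fun γ => Qsum γ t - zetaAB (S0 k) γ)
    (M := (∑ S ∈ ((univ : Finset (Ix k)).powersetCard k).erase (S0 k), (CG * 2) ^ (2 * k) *
      ((BF (2 * k) + 1) * ((η⁻¹ + 3) * 2) ^ ((2 * k) * (2 * k)))) * (1 + B) ^ NK k *
      (1 + |t|) ^ (-(2 * (v - ρ)))) ?_ ?_ (univ : Finset (Ix k)).toList (Finset.nodup_toList _) γ
      ?_ hinj
  · exact key
  · intro i γ' hγ' hdist
    have hq : ((t : ℂ), γ') ∈ good k := ⟨im_ofReal_lt t, fun j => hadm'.strip j _ (hγ' j)⟩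
    obtain ⟨g, hg, hgeq⟩ := exists_Qsum_extension i hq hdist
    set U : Set ℂ := {z : ℂ | |z.im| < 1 / 8 ∧ (i.isLeft → z.im < 0) ∧ (i.isRight → 0 < z.im)}
      with hU
    have hUo : IsOpen U := by
      have e : U = {z : ℂ | |z.im| < 1 / 8} ∩ ({z : ℂ | i.isLeft → z.im < 0} ∩
          {z : ℂ | i.isRight → 0 < z.im}) := by
        ext z; simp [hU]
      rw [e]
      refine (isOpen_lt (by fun_prop) continuous_const).inter (IsOpen.inter ?_ ?_)
      · by_cases h : i.isLeft
        · simp only [h, forall_const]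
          exact isOpen_lt (by fun_prop) continuous_const
        · simp [h]
      · by_cases h : i.isRight
        · simp only [h, forall_const]
          exact isOpen_lt continuous_const (by fun_prop)
        · simp [h]
    have hup : ∀ z ∈ U, Function.update γ' i z ∈ tube (Ix k) := by
      intro z hz l
      by_cases h : l = i
      · subst h; rw [Function.update_self]; exact hz.1
      · rw [Function.update_of_ne h]; exact hq.2 l
    have hdz : DifferentiableOn ℂ (fun z => zetaAB (S0 k) (Function.update γ' i z)) U := by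
      refine differentiableOn_zetaAB_S0 hUo (fun l => ?_) hup ?_
      · by_cases h : l = i
        · subst h
          simp only [Function.update_self]
          exact differentiableOn_id
        · simp only [Function.update_of_ne h]
          exact differentiableOn_const _
      · intro z hz j l heq
        have h1 : (Function.update γ' i z (Sum.inl j)).im < 0 := by
          by_cases h : (Sum.inl j : Ix k) = i
          · rw [← h, Function.update_self]
            exact hz.2.1 (by rw [← h]; rfl)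
          · rw [Function.update_of_ne h]
            linarith [(hcl γ' hγ').1 j]
        have h2 : 0 < (Function.update γ' i z (Sum.inr l)).im := by
          by_cases h : (Sum.inr l : Ix k) = i
          · rw [← h, Function.update_self]
            exact hz.2.2 (by rw [← h]; rfl)
          · rw [Function.update_of_ne h]
            linarith [(hcl γ' hγ').2 l]
        rw [heq] at h1
        linarith
    refine ⟨fun z => g z - zetaAB (S0 k) (Function.update γ' i z), U, hUo, ?_, ?_, ?_⟩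
    · intro z hz
      have hz' : dist z (γ i) ≤ r i := hz
      refine ⟨hadm'.strip i z hz', fun h => ?_, fun h => ?_⟩
      · rcases i with i | i
        · have h1 := Complex.abs_im_le_norm (z - γ (Sum.inl i))
          rw [← dist_eq_norm] at h1
          have h2 := abs_le.1 (h1.trans (hz'.trans (hr1 _)))
          rw [Complex.sub_im, hl i] at h2
          linarith [h2.2]
        · simp at h
      · rcases i with i | i
        · simp at h
        · have h1 := Complex.abs_im_le_norm (z - γ (Sum.inr i))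
          rw [← dist_eq_norm] at h1
          have h2 := abs_le.1 (h1.trans (hz'.trans (hr1 _)))
          rw [Complex.sub_im, hr i] at h2
          linarith [h2.1]
    · exact (hg.mono fun z hz => hz.1).sub hdz
    · intro z hz hzj
      simp only
      rw [hgeq z hz.1 hzj]
  · intro γ' hγ'
    have hB' : 0 ≤ 1 + B := by linarith
    have hre := torus_re hr1' hγB hγ'
    have hcl' := hcl γ' fun j => le_of_eq ((hγ' j).2 (by simp))
    rw [Qsum_sub_S0, Finset.sum_mul, Finset.sum_mul]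
    refine norm_sum_le_of_le _ fun S hS => ?_
    rw [norm_mul]
    have hS1 := Finset.mem_erase.1 hS
    have h1 := hCG S (Finset.mem_powersetCard.1 hS1.2).2 hS1.1 γ' (VL_tube hadm' hγ') (v - ρ)
      (by linarith) hcl'.1 hcl'.2 (1 + B) hB' hre t
    have h2 := norm_zetaAB_le S hη hB' (VL_tube hadm' hγ') (torus_sep hsep hγ') hre
    have ht : 0 ≤ |t| := abs_nonneg _
    calc _ ≤ ((CG * (1 + (1 + B))) ^ (2 * k) * (1 + |t|) ^ (-(2 * (v - ρ)))) *
          ((BF (2 * k) + 1) * ((η⁻¹ + 3) * (1 + (1 + B))) ^ ((2 * k) * (2 * k))) := by gcongr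
      _ ≤ ((CG * (2 * (1 + B))) ^ (2 * k) * (1 + |t|) ^ (-(2 * (v - ρ)))) *
          ((BF (2 * k) + 1) * ((η⁻¹ + 3) * (2 * (1 + B))) ^ ((2 * k) * (2 * k))) := by
          gcongr <;> linarith
      _ = _ := by
          rw [NK, pow_add, show CG * (2 * (1 + B)) = (CG * 2) * (1 + B) by ring,
            mul_pow (CG * 2) (1 + B),
            show (η⁻¹ + 3) * (2 * (1 + B)) = ((η⁻¹ + 3) * 2) * (1 + B) by ring,
            mul_pow _ (1 + B) ((2 * k) * (2 * k))]
          ring
  · rw [VL_univ]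
    intro i
    exact Metric.mem_ball_self (hadm'.pos i)

end Pool.Agent.H26
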