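import Pool.Agent.H26.Sym

/-!
Regularity of the main term away from coincidences, and cancellation of the poles at simple
coincidences.
-/

set_option linter.unusedSectionVars false

namespace Pool.Agent.H26

open Complex Finset Filter Topology

variable {k : ℕ}

/-- The part of the strip where everything is defined. -/
def good (k : ℕ) : Set (ℂ × (Fin k ⊕ Fin k → ℂ)) :=
  {q | |q.1.im| < 1 / 4 ∧ q.2 ∈ tube (Fin k ⊕ Fin k)}

lemma good_im {q : ℂ × (Fin k ⊕ Fin k → ℂ)} (hq : q ∈ good k) (i : Fin k ⊕ Fin k) :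
    |(q.1 + q.2 i).im| < 1 / 2 := by
  have h1 := hq.1
  have h2 := hq.2 i
  rw [Complex.add_im]
  calc _ ≤ |q.1.im| + |(q.2 i).im| := abs_add_le _ _
    _ < 1 / 2 := by linarith

lemma re_minus {t g : ℂ} (h : |(t + g).im| < 1 / 2) : (1 / 2 - I * (t + g)).re < 1 := by
  have := abs_lt.1 h
  simp at this ⊢
  linarith [this.2]

lemma continuousAt_G (S : Finset (Fin k ⊕ Fin k)) {q : ℂ × (Fin k ⊕ Fin k → ℂ)}
    (hq : q ∈ good k) :
    ContinuousAt (fun q : ℂ × (Fin k ⊕ Fin k → ℂ) => G S q.2 q.1) q := by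
  unfold G
  refine ContinuousAt.mul ?_ ?_
  · refine tendsto_finsetProd _ fun j _ => ?_
    by_cases hj : Sum.inr j ∈ S
    · simp only [hj, if_true]
      have h := (differentiableAt_chi (re_minus (good_im hq (Sum.inr j)))).continuousAt
      exact ContinuousAt.comp (f := fun q : ℂ × (Fin k ⊕ Fin k → ℂ) =>
        (1 / 2 - I * (q.1 + q.2 (Sum.inr j)) : ℂ)) h (by fun_prop)
    · simp only [hj, if_false]
      exact continuousAt_const
  · refine tendsto_finsetProd _ fun j _ => ?_
    by_cases hj : Sum.inl j ∈ S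
    · simp only [hj, if_true]
      exact continuousAt_const
    · simp only [hj, if_false]
      have h := (differentiableAt_chi (X_re (good_im hq (Sum.inl j))).2).continuousAt
      exact ContinuousAt.comp (f := fun q : ℂ × (Fin k ⊕ Fin k → ℂ) =>
        (1 / 2 + I * (q.1 + q.2 (Sum.inl j)) : ℂ)) h (by fun_prop)

section general
variable {ι : Type*} [Fintype ι] [DecidableEq ι]

lemma one_add_ne_one {a b : ℂ} (h : a ≠ b) : 1 + I * (a - b) ≠ 1 := by
  intro h1
  have : I * (a - b) = 0 := by linear_combination h1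
  rcases mul_eq_zero.1 this with h2 | h2
  · exact I_ne_zero h2
  · exact h (sub_eq_zero.1 h2)

lemma continuousAt_zeta_pair {γ : ι → ℂ} {a b : ι} (h : γ a ≠ γ b) :
    ContinuousAt (fun γ : ι → ℂ => riemannZeta (1 + I * (γ a - γ b))) γ := by
  have h1 := (differentiableAt_riemannZeta (one_add_ne_one h)).continuousAt
  exact ContinuousAt.comp (f := fun γ : ι → ℂ => 1 + I * (γ a - γ b)) h1 (by fun_prop)

lemma continuousAt_eulerF (S : Finset ι) {γ : ι → ℂ} (hγ : γ ∈ tube ι) :
    ContinuousAt (eulerF S) γ :=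
  (continuousOn_eulerF S).continuousAt (isOpen_tube.mem_nhds hγ)

lemma continuousAt_zetaAB (S : Finset ι) {γ : ι → ℂ} (hγ : γ ∈ tube ι)
    (hinj : Function.Injective γ) : ContinuousAt (zetaAB S) γ := by
  unfold zetaAB
  refine (continuousAt_eulerF S hγ).mul ?_
  refine tendsto_finsetProd _ fun j hj => tendsto_finsetProd _ fun l hl => ?_
  refine continuousAt_zeta_pair fun h => ?_
  have := hinj h
  subst this
  exact (Finset.mem_compl.1 hl) hj

end general

lemma continuousAt_Qsum {q : ℂ × (Fin k ⊕ Fin k → ℂ)} (hq : q ∈ good k)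
    (hinj : Function.Injective q.2) :
    ContinuousAt (fun q : ℂ × (Fin k ⊕ Fin k → ℂ) => Qsum q.2 q.1) q := by
  unfold Qsum
  refine tendsto_finsetSum _ fun S _ => ?_
  refine (continuousAt_G S hq).mul ?_
  exact ContinuousAt.comp (f := fun q : ℂ × (Fin k ⊕ Fin k → ℂ) => q.2)
    (continuousAt_zetaAB S hq.2 hinj) continuousAt_snd

lemma differentiableOn_Qsum_comp {U : Set ℂ} (hU : IsOpen U) {t : ℂ} (ht : |t.im| < 1 / 4)
    {g : ℂ → Fin k ⊕ Fin k → ℂ} (hg : ∀ i, DifferentiableOn ℂ (fun z => g z i) U)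
    (hgU : ∀ z ∈ U, g z ∈ tube (Fin k ⊕ Fin k)) (hinj : ∀ z ∈ U, Function.Injective (g z)) :
    DifferentiableOn ℂ (fun z => Qsum (g z) t) U := by
  have hgood : ∀ z ∈ U, (t, g z) ∈ good k := fun z hz => ⟨ht, hgU z hz⟩
  unfold Qsum
  refine DifferentiableOn.fun_sum fun S _ => ?_
  refine DifferentiableOn.mul ?_ ?_
  · unfold G
    refine DifferentiableOn.mul ?_ ?_
    · refine DifferentiableOn.fun_finsetProd fun j _ => ?_
      by_cases hj : Sum.inr j ∈ S
      · simp only [hj, if_true]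
        intro z hz
        have h := differentiableAt_chi (re_minus (good_im (hgood z hz) (Sum.inr j)))
        exact h.comp_differentiableWithinAt (f := fun z => (1 / 2 - I * (t + g z (Sum.inr j)) : ℂ))
          z (((differentiableWithinAt_const _).add (hg _ z hz)).const_mul _ |>.const_sub _)
      · simp only [hj, if_false]
        exact differentiableOn_const _
    · refine DifferentiableOn.fun_finsetProd fun j _ => ?_
      by_cases hj : Sum.inl j ∈ S
      · simp only [hj, if_true]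
        exact differentiableOn_const _
      · simp only [hj, if_false]
        intro z hz
        have h := differentiableAt_chi (X_re (good_im (hgood z hz) (Sum.inl j))).2
        exact h.comp_differentiableWithinAt (f := fun z => (1 / 2 + I * (t + g z (Sum.inl j)) : ℂ))
          z (((differentiableWithinAt_const _).add (hg _ z hz)).const_mul _ |>.const_add _)
  · unfold zetaAB
    refine DifferentiableOn.mul (differentiableOn_eulerF_comp S hU hg hgU) ?_
    refine DifferentiableOn.fun_finsetProd fun j hj => DifferentiableOn.fun_finsetProd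
      fun l hl => ?_
    intro z hz
    have hne : g z j ≠ g z l := fun h => by
      have := hinj z hz h
      subst this
      exact (Finset.mem_compl.1 hl) hj
    have h := differentiableAt_riemannZeta (one_add_ne_one hne)
    exact h.comp_differentiableWithinAt (f := fun z => (1 + I * (g z j - g z l) : ℂ))
      z (((hg _ z hz).sub (hg _ z hz)).const_mul _ |>.const_add _)

section residue

variable {i j : Fin k ⊕ Fin k}

/-- The pairs `(a, b)`, `a ∈ S`, `b ∉ S`, other than `(i, j)` and `(j, i)`. -/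
def otherPairs (i j : Fin k ⊕ Fin k) (S : Finset (Fin k ⊕ Fin k)) :
    Finset ((Fin k ⊕ Fin k) × (Fin k ⊕ Fin k)) :=
  (S ×ˢ Sᶜ).filter fun q => q ≠ (i, j) ∧ q ≠ (j, i)

/-- The product of zeta values over the other pairs. -/
noncomputable def Rz (i j : Fin k ⊕ Fin k) (S : Finset (Fin k ⊕ Fin k))
    (γ : Fin k ⊕ Fin k → ℂ) : ℂ :=
  ∏ q ∈ otherPairs i j S, riemannZeta (1 + I * (γ q.1 - γ q.2))

/-- The regular part of the term of `S`. -/
noncomputable def Hreg (i j : Fin k ⊕ Fin k) (S : Finset (Fin k ⊕ Fin k))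
    (γ : Fin k ⊕ Fin k → ℂ) (t : ℂ) : ℂ :=
  G S γ t * (eulerF S γ * Rz i j S γ)

lemma prod_pairs (S : Finset (Fin k ⊕ Fin k)) (f : Fin k ⊕ Fin k → Fin k ⊕ Fin k → ℂ) :
    ∏ a ∈ S, ∏ b ∈ Sᶜ, f a b = ∏ q ∈ S ×ˢ Sᶜ, f q.1 q.2 := by
  rw [Finset.prod_product]

lemma prod_split {S : Finset (Fin k ⊕ Fin k)} (hi : i ∈ S) (hj : j ∉ S)
    (f : Fin k ⊕ Fin k → Fin k ⊕ Fin k → ℂ) :
    ∏ a ∈ S, ∏ b ∈ Sᶜ, f a b = f i j * ∏ q ∈ otherPairs i j S, f q.1 q.2 := by
  rw [prod_pairs, ← Finset.mul_prod_erase _ _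
    (show (i, j) ∈ S ×ˢ Sᶜ from Finset.mem_product.2 ⟨hi, Finset.mem_compl.2 hj⟩)]
  congr 1
  refine Finset.prod_congr ?_ fun _ _ => rfl
  ext q
  simp only [otherPairs, mem_erase, mem_filter]
  constructor
  · rintro ⟨h1, h2⟩
    refine ⟨h2, h1, ?_⟩
    rintro rfl
    exact hj (Finset.mem_product.1 h2).1
  · rintro ⟨h1, h2, _⟩
    exact ⟨h2, h1⟩

lemma prod_split' {S : Finset (Fin k ⊕ Fin k)} (hj : j ∈ S) (hi : i ∉ S)
    (f : Fin k ⊕ Fin k → Fin k ⊕ Fin k → ℂ) :
    ∏ a ∈ S, ∏ b ∈ Sᶜ, f a b = f j i * ∏ q ∈ otherPairs i j S, f q.1 q.2 := by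
  rw [prod_split hj hi]
  congr 1
  refine Finset.prod_congr ?_ fun _ _ => rfl
  ext q
  simp only [otherPairs, mem_filter]
  tauto

lemma prod_split_none {S : Finset (Fin k ⊕ Fin k)} (h : ¬ (i ∈ S ∧ j ∉ S))
    (h' : ¬ (j ∈ S ∧ i ∉ S)) (f : Fin k ⊕ Fin k → Fin k ⊕ Fin k → ℂ) :
    ∏ a ∈ S, ∏ b ∈ Sᶜ, f a b = ∏ q ∈ otherPairs i j S, f q.1 q.2 := by
  rw [prod_pairs]
  refine Finset.prod_congr ?_ fun _ _ => rfl
  ext q
  simp only [otherPairs, mem_filter]
  constructor
  · intro hq
    refine ⟨hq, ?_, ?_⟩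
    · rintro rfl
      have := Finset.mem_product.1 hq
      exact h ⟨this.1, Finset.mem_compl.1 this.2⟩
    · rintro rfl
      have := Finset.mem_product.1 hq
      exact h' ⟨this.1, Finset.mem_compl.1 this.2⟩
  · exact fun hq => hq.1

/-- The configuration obtained by moving `γ i` to `γ j`. -/
def coll (i j : Fin k ⊕ Fin k) (γ : Fin k ⊕ Fin k → ℂ) : Fin k ⊕ Fin k → ℂ :=
  Function.update γ i (γ j)

lemma coll_swap (hij : i ≠ j) (γ : Fin k ⊕ Fin k → ℂ) (l : Fin k ⊕ Fin k) :
    coll i j γ (Equiv.swap i j l) = coll i j γ l := by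
  unfold coll
  by_cases h1 : l = i
  · subst h1
    rw [Equiv.swap_apply_left, Function.update_self, Function.update_of_ne hij.symm]
  · by_cases h2 : l = j
    · subst h2
      rw [Equiv.swap_apply_right, Function.update_self, Function.update_of_ne hij.symm]
    · rw [Equiv.swap_apply_of_ne_of_ne h1 h2]

lemma coll_mem_tube {γ : Fin k ⊕ Fin k → ℂ} (hγ : γ ∈ tube (Fin k ⊕ Fin k)) :
    coll i j γ ∈ tube (Fin k ⊕ Fin k) := by
  intro l
  unfold coll
  by_cases h : l = i
  · subst h
    rw [Function.update_self]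
    exact hγ j
  · rw [Function.update_of_ne h]
    exact hγ l

lemma Rz_map (hij : i ≠ j) (S : Finset (Fin k ⊕ Fin k)) (γ : Fin k ⊕ Fin k → ℂ) :
    Rz i j (S.map (Equiv.swap i j).toEmbedding) (coll i j γ) = Rz i j S (coll i j γ) := by
  unfold Rz
  have hsw : ∀ l, Equiv.swap i j (Equiv.swap i j l) = l := fun l => Equiv.swap_apply_self i j l
  have hmem : ∀ (S : Finset (Fin k ⊕ Fin k)) l,
      Equiv.swap i j l ∈ S.map (Equiv.swap i j).toEmbedding ↔ l ∈ S := by
    intro S l
    rw [mem_map_equiv, Equiv.symm_apply_apply]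
  refine Finset.prod_bij' (fun q _ => (Equiv.swap i j q.1, Equiv.swap i j q.2))
    (fun q _ => (Equiv.swap i j q.1, Equiv.swap i j q.2)) ?_ ?_ ?_ ?_ ?_
  · intro q hq
    simp only [otherPairs, mem_filter, mem_product, mem_compl] at hq ⊢
    obtain ⟨⟨h1, h2⟩, h3, h4⟩ := hq
    rw [mem_map_equiv, Equiv.symm_swap] at h1 h2
    refine ⟨⟨h1, h2⟩, ?_, ?_⟩
    · intro h
      apply h4
      rw [Prod.mk.injEq] at h
      have a1 : q.1 = j := by rw [← hsw q.1, h.1, Equiv.swap_apply_left]
      have a2 : q.2 = i := by rw [← hsw q.2, h.2, Equiv.swap_apply_right]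
      rw [← a1, ← a2]
    · intro h
      apply h3
      rw [Prod.mk.injEq] at h
      have a1 : q.1 = i := by rw [← hsw q.1, h.1, Equiv.swap_apply_right]
      have a2 : q.2 = j := by rw [← hsw q.2, h.2, Equiv.swap_apply_left]
      rw [← a1, ← a2]
  · intro q hq
    simp only [otherPairs, mem_filter, mem_product, mem_compl] at hq ⊢
    obtain ⟨⟨h1, h2⟩, h3, h4⟩ := hq
    rw [hmem, hmem]
    refine ⟨⟨h1, h2⟩, ?_, ?_⟩
    · intro h
      apply h4
      rw [Prod.mk.injEq] at h
      have a1 : q.1 = j := by rw [← hsw q.1, h.1, Equiv.swap_apply_left]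
      have a2 : q.2 = i := by rw [← hsw q.2, h.2, Equiv.swap_apply_right]
      rw [← a1, ← a2]
    · intro h
      apply h3
      rw [Prod.mk.injEq] at h
      have a1 : q.1 = i := by rw [← hsw q.1, h.1, Equiv.swap_apply_right]
      have a2 : q.2 = j := by rw [← hsw q.2, h.2, Equiv.swap_apply_left]
      rw [← a1, ← a2]
  · intro q _
    simp only [hsw]
  · intro q _
    simp only [hsw]
  · intro q _
    simp only
    rw [coll_swap hij, coll_swap hij]

lemma Hreg_map (hij : i ≠ j) (S : Finset (Fin k ⊕ Fin k)) {γ : Fin k ⊕ Fin k → ℂ} {t : ℂ}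
    (hq : (t, γ) ∈ good k) :
    Hreg i j (S.map (Equiv.swap i j).toEmbedding) (coll i j γ) t =
      Hreg i j S (coll i j γ) t := by
  unfold Hreg
  have hq' : (t, coll i j γ) ∈ good k := ⟨hq.1, coll_mem_tube hq.2⟩
  rw [G_map_of_eq _ _ (good_im hq') (coll_swap hij γ), Rz_map hij, eulerF_map]
  congr 2
  congr 1
  funext l
  exact coll_swap hij γ l

/-- The residue of the term of `S`. -/
noncomputable def Lres (i j : Fin k ⊕ Fin k) (S : Finset (Fin k ⊕ Fin k))
    (γ : Fin k ⊕ Fin k → ℂ) (t : ℂ) : ℂ :=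
  if i ∈ S ∧ j ∉ S then -I * Hreg i j S (coll i j γ) t
  else if j ∈ S ∧ i ∉ S then I * Hreg i j S (coll i j γ) t else 0

lemma sum_Lres (hij : i ≠ j) {γ : Fin k ⊕ Fin k → ℂ} {t : ℂ} (hq : (t, γ) ∈ good k) :
    ∑ S ∈ (univ : Finset (Fin k ⊕ Fin k)).powersetCard k, Lres i j S γ t = 0 := by
  have hi : ∀ S : Finset (Fin k ⊕ Fin k),
      i ∈ S.map (Equiv.swap i j).toEmbedding ↔ j ∈ S := by
    intro S
    rw [mem_map_equiv, Equiv.symm_swap, Equiv.swap_apply_left]
  have hj : ∀ S : Finset (Fin k ⊕ Fin k),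
      j ∈ S.map (Equiv.swap i j).toEmbedding ↔ i ∈ S := by
    intro S
    rw [mem_map_equiv, Equiv.symm_swap, Equiv.swap_apply_right]
  refine Finset.sum_involution (fun S _ => S.map (Equiv.swap i j).toEmbedding) ?_ ?_ ?_ ?_
  · intro S _
    unfold Lres
    simp only [hi, hj]
    rw [Hreg_map hij S hq]
    by_cases h1 : i ∈ S <;> by_cases h2 : j ∈ S <;> simp [h1, h2]
  · intro S _ hne heq
    apply hne
    unfold Lres
    have h1 : i ∈ S ↔ j ∈ S := by
      have := hi S
      rw [heq] at this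
      exact this
    by_cases h2 : j ∈ S
    · simp [h2, h1.2 h2]
    · have h3 : i ∉ S := fun h => h2 (h1.1 h)
      simp [h2, h3]
  · intro S hS
    rw [Finset.mem_powersetCard] at hS ⊢
    exact ⟨Finset.subset_univ _, by rw [Finset.card_map]; exact hS.2⟩
  · intro S _
    ext l
    rw [mem_map_equiv, mem_map_equiv, Equiv.symm_swap, Equiv.swap_apply_self]

lemma tendsto_update_coll (γ : Fin k ⊕ Fin k → ℂ) :
    Tendsto (fun z => Function.update γ i z) (𝓝[≠] (γ j)) (𝓝 (coll i j γ)) := by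
  have h : Continuous fun z : ℂ => Function.update γ i z :=
    continuous_const.update i continuous_id
  exact (h.tendsto (γ j)).mono_left nhdsWithin_le_nhds

lemma continuousAt_Rz (hij : i ≠ j) {S : Finset (Fin k ⊕ Fin k)} {γ : Fin k ⊕ Fin k → ℂ}
    (hdist : ∀ a b, a ≠ i → b ≠ i → a ≠ b → γ a ≠ γ b) :
    ContinuousAt (Rz i j S) (coll i j γ) := by
  unfold Rz
  refine tendsto_finsetProd _ fun q hq => ?_
  refine continuousAt_zeta_pair ?_
  simp only [otherPairs, mem_filter, mem_product, mem_compl] at hq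
  obtain ⟨⟨h1, h2⟩, h3, h4⟩ := hq
  have hne : q.1 ≠ q.2 := fun h => h2 (h ▸ h1)
  unfold coll
  by_cases ha : q.1 = i
  · have hb : q.2 ≠ i := fun h => hne (ha.trans h.symm)
    have hbj : q.2 ≠ j := fun h => h3 (Prod.ext ha h)
    rw [ha, Function.update_self, Function.update_of_ne hb]
    exact hdist j q.2 hij.symm hb (fun h => hbj h.symm)
  · by_cases hb : q.2 = i
    · have haj : q.1 ≠ j := fun h => h4 (Prod.ext h hb)
      rw [hb, Function.update_self, Function.update_of_ne ha]
      exact hdist q.1 j ha hij.symm haj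
    · rw [Function.update_of_ne ha, Function.update_of_ne hb]
      exact hdist _ _ ha hb hne

lemma tendsto_Hreg (hij : i ≠ j) {S : Finset (Fin k ⊕ Fin k)} {γ : Fin k ⊕ Fin k → ℂ} {t : ℂ}
    (hq : (t, γ) ∈ good k) (hdist : ∀ a b, a ≠ i → b ≠ i → a ≠ b → γ a ≠ γ b) :
    Tendsto (fun z => Hreg i j S (Function.update γ i z) t) (𝓝[≠] (γ j))
      (𝓝 (Hreg i j S (coll i j γ) t)) := by
  have hq' : (t, coll i j γ) ∈ good k := ⟨hq.1, coll_mem_tube hq.2⟩
  have h1 : ContinuousAt (fun γ : Fin k ⊕ Fin k → ℂ => G S γ t) (coll i j γ) :=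
    ContinuousAt.comp (f := fun γ : Fin k ⊕ Fin k → ℂ => (t, γ)) (continuousAt_G S hq')
      (by fun_prop)
  have h2 : ContinuousAt (fun γ => Hreg i j S γ t) (coll i j γ) :=
    h1.mul ((continuousAt_eulerF S hq'.2).mul (continuousAt_Rz hij hdist))
  exact h2.tendsto.comp (tendsto_update_coll γ)

lemma tendsto_pole (a : ℂ) :
    Tendsto (fun z => (z - a) * riemannZeta (1 + I * (z - a))) (𝓝[≠] a) (𝓝 (-I)) := by
  have h := riemannZeta_residue_one
  have h1 : Tendsto (fun z : ℂ => 1 + I * (z - a)) (𝓝[≠] a) (𝓝[≠] 1) := by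
    refine tendsto_nhdsWithin_of_tendsto_nhds_of_eventually_within _ ?_ ?_
    · have : Continuous fun z : ℂ => 1 + I * (z - a) := by fun_prop
      have h2 := this.tendsto a
      simp only [sub_self, mul_zero, add_zero] at h2
      exact h2.mono_left nhdsWithin_le_nhds
    · filter_upwards [self_mem_nhdsWithin] with z hz
      exact one_add_ne_one hz
  have h2 := (h.comp h1).const_mul (-I)
  rw [mul_one] at h2
  refine h2.congr fun z => ?_
  simp only [Function.comp]
  have : I * I = -1 := I_mul_I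
  linear_combination (-(z - a) * riemannZeta (1 + I * (z - a))) * this

lemma tendsto_pole' (a : ℂ) :
    Tendsto (fun z => (z - a) * riemannZeta (1 + I * (a - z))) (𝓝[≠] a) (𝓝 I) := by
  have h := riemannZeta_residue_one
  have h1 : Tendsto (fun z : ℂ => 1 + I * (a - z)) (𝓝[≠] a) (𝓝[≠] 1) := by
    refine tendsto_nhdsWithin_of_tendsto_nhds_of_eventually_within _ ?_ ?_
    · have : Continuous fun z : ℂ => 1 + I * (a - z) := by fun_prop
      have h2 := this.tendsto a
      simp only [sub_self, mul_zero, add_zero] at h2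
      exact h2.mono_left nhdsWithin_le_nhds
    · filter_upwards [self_mem_nhdsWithin] with z hz
      exact one_add_ne_one (Ne.symm hz)
  have h2 := (h.comp h1).const_mul I
  rw [mul_one] at h2
  refine h2.congr fun z => ?_
  simp only [Function.comp]
  have : I * I = -1 := I_mul_I
  linear_combination ((a - z) * riemannZeta (1 + I * (a - z))) * this

lemma tendsto_term (hij : i ≠ j) {S : Finset (Fin k ⊕ Fin k)} {γ : Fin k ⊕ Fin k → ℂ} {t : ℂ}
    (hq : (t, γ) ∈ good k) (hdist : ∀ a b, a ≠ i → b ≠ i → a ≠ b → γ a ≠ γ b) :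
    Tendsto (fun z => (z - γ j) * (G S (Function.update γ i z) t *
      zetaAB S (Function.update γ i z))) (𝓝[≠] (γ j)) (𝓝 (Lres i j S γ t)) := by
  have hH := tendsto_Hreg hij (S := S) hq hdist
  have hu : ∀ z, Function.update γ i z i = z := fun z => Function.update_self _ _ _
  have hu' : ∀ z, Function.update γ i z j = γ j := fun z => Function.update_of_ne hij.symm _ _
  unfold Lres
  split_ifs with h1 h2
  · refine ((tendsto_pole (γ j)).mul hH).congr fun z => ?_
    unfold Hreg zetaAB Rz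
    rw [prod_split h1.1 h1.2 (fun a b => riemannZeta (1 + I * (Function.update γ i z a -
      Function.update γ i z b))), hu, hu']
    ring
  · refine ((tendsto_pole' (γ j)).mul hH).congr fun z => ?_
    unfold Hreg zetaAB Rz
    rw [prod_split' h2.1 h2.2 (fun a b => riemannZeta (1 + I * (Function.update γ i z a -
      Function.update γ i z b))), hu, hu']
    ring
  · have h3 : Tendsto (fun z : ℂ => z - γ j) (𝓝[≠] (γ j)) (𝓝 0) := by
      have : Continuous fun z : ℂ => z - γ j := by fun_prop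
      have h4 := this.tendsto (γ j)
      rw [sub_self] at h4
      exact h4.mono_left nhdsWithin_le_nhds
    have h4 := h3.mul hH
    rw [zero_mul] at h4
    refine h4.congr fun z => ?_
    unfold Hreg zetaAB Rz
    rw [prod_split_none h1 h2 (fun a b => riemannZeta (1 + I * (Function.update γ i z a -
      Function.update γ i z b)))]

/-- At a simple coincidence the poles of the main term cancel. -/
lemma tendsto_Qsum_zero (hij : i ≠ j) {γ : Fin k ⊕ Fin k → ℂ} {t : ℂ}
    (hq : (t, γ) ∈ good k) (hdist : ∀ a b, a ≠ i → b ≠ i → a ≠ b → γ a ≠ γ b) :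
    Tendsto (fun z => (z - γ j) * Qsum (Function.update γ i z) t) (𝓝[≠] (γ j)) (𝓝 0) := by
  rw [← sum_Lres hij hq]
  have h := tendsto_finsetSum ((univ : Finset (Fin k ⊕ Fin k)).powersetCard k)
    (fun S _ => tendsto_term (S := S) (γ := γ) (t := t) hij hq hdist)
  refine h.congr fun z => ?_
  rw [Qsum, Finset.mul_sum]

end residue

end Pool.Agent.H26
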