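import Pool.Agent.H26.Err

/-!
Admissible polydiscs with a uniform separation of the boundary circles.
-/

set_option autoImplicit false

namespace Pool.Agent.H26

open Filter Topology MeasureTheory

lemma exists_scale {κ : Type*} [Fintype κ] {N : ℕ} (hN : 0 < N) (hκ : Fintype.card κ < N ^ 2 + 1)
    {ρ : ℝ} (hρ : 0 < ρ) (D : κ → ℝ) :
    ∃ s : ℝ, ρ * (1 / (16 * N)) ^ (N ^ 2) ≤ s ∧ s ≤ ρ ∧ ∀ p, D p < s / (4 * N) ∨ 3 * s ≤ D p := by
  have hN0 : (0:ℝ) < N := by exact_mod_cast hN
  have hN1 : (1:ℝ) ≤ N := by exact_mod_cast hN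
  set q : ℝ := 1 / (16 * N) with hq
  have hq0 : 0 < q := by positivity
  have hq1 : q ≤ 1 := by
    rw [hq, div_le_one (by positivity)]
    linarith
  by_contra hc
  push Not at hc
  have hs : ∀ m : Fin (N ^ 2 + 1), ∃ p, ρ * q ^ (m : ℕ) / (4 * N) ≤ D p ∧
      D p < 3 * (ρ * q ^ (m : ℕ)) := by
    intro m
    refine hc (ρ * q ^ (m : ℕ)) ?_ ?_
    · have : q ^ (N ^ 2) ≤ q ^ (m : ℕ) := pow_le_pow_of_le_one hq0.le hq1 (by omega)
      gcongr
    · have : q ^ (m : ℕ) ≤ 1 := pow_le_one₀ hq0.le hq1
      nlinarith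
  choose p hp1 hp2 using hs
  have key : ∀ m m' : Fin (N ^ 2 + 1), (m : ℕ) < m' → p m ≠ p m' := by
    intro m m' hmm h
    have h1 := hp1 m
    have h2 := hp2 m'
    rw [← h] at h2
    have h3 : q ^ (m' : ℕ) ≤ q ^ ((m : ℕ) + 1) := pow_le_pow_of_le_one hq0.le hq1 hmm
    have h4 : 3 * (ρ * q ^ (m' : ℕ)) ≤ ρ * q ^ (m : ℕ) / (4 * N) := by
      calc 3 * (ρ * q ^ (m' : ℕ)) ≤ 3 * (ρ * q ^ ((m : ℕ) + 1)) := by gcongr
        _ = 3 * (ρ * q ^ (m : ℕ)) * (1 / (16 * N)) := by rw [pow_succ, hq]; ring
        _ ≤ 4 * (ρ * q ^ (m : ℕ)) * (1 / (16 * N)) := by gcongr; norm_num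
        _ = _ := by field_simp; norm_num
    linarith
  have hinj : Function.Injective p := by
    intro m m' h
    rcases lt_trichotomy (m : ℕ) m' with h1 | h1 | h1
    · exact absurd h (key m m' h1)
    · exact Fin.ext h1
    · exact absurd h.symm (key m' m h1)
  have hcard := Fintype.card_le_of_injective p hinj
  rw [Fintype.card_fin] at hcard
  omega

variable {k : ℕ}

/-- Admissible radii with a uniform separation. -/
theorem exists_uniform_adm (k : ℕ) {ρ : ℝ} (hρ : 0 < ρ) : ∃ η : ℝ, 0 < η ∧ ∀ c : Ix k → ℂ,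
    (∀ i, |(c i).im| + ρ ≤ 1 / 8) → ∃ r : Ix k → ℝ, Adm c r ∧ (∀ i, r i ≤ ρ) ∧
      ∀ i j, i ≠ j → ∀ z w, dist z (c i) = r i → dist w (c j) = r j → η ≤ dist z w := by
  classical
  set N : ℕ := Fintype.card (Ix k) + 1 with hN
  have hN0 : 0 < N := Nat.succ_pos _
  have hNr : (0:ℝ) < N := by exact_mod_cast hN0
  set s₀ : ℝ := ρ * (1 / (16 * N)) ^ (N ^ 2) with hs₀
  have hs₀0 : 0 < s₀ := by positivity
  refine ⟨s₀ / (4 * N), by positivity, fun c hc => ?_⟩
  obtain ⟨s, hs1, hs2, hs3⟩ := exists_scale (κ := Ix k × Ix k) hN0 (by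
    rw [Fintype.card_prod]
    have : Fintype.card (Ix k) < N := by omega
    nlinarith) hρ (fun p => dist (c p.1) (c p.2))
  have hs0 : 0 < s := lt_of_lt_of_le hs₀0 hs1
  obtain ⟨e⟩ : Nonempty (Ix k ≃ Fin (Fintype.card (Ix k))) := ⟨Fintype.equivFin _⟩
  have he : ∀ i, ((e i : ℕ) : ℝ) + 1 ≤ N := by
    intro i
    have := (e i).2
    have h2 : (e i : ℕ) + 1 ≤ N := by omega
    exact_mod_cast h2
  set r : Ix k → ℝ := fun i => s * (N + (e i : ℕ)) / (2 * N) with hr
  have hr0 : ∀ i, 0 < r i := fun i => by simp only [hr]; positivity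
  have hr1 : ∀ i, r i < s := by
    intro i
    simp only [hr]
    rw [div_lt_iff₀ (by positivity)]
    have := he i
    nlinarith
  have hdiff : ∀ i j, i ≠ j → s / (2 * N) ≤ |r i - r j| := by
    intro i j hij
    have h1 : (e i : ℕ) ≠ (e j : ℕ) := fun h => hij (e.injective (Fin.ext h))
    have h2 : (1:ℝ) ≤ |((e i : ℕ) : ℝ) - ((e j : ℕ) : ℝ)| := by
      have h3 : (1:ℤ) ≤ |((e i : ℕ) : ℤ) - ((e j : ℕ) : ℤ)| := by
        apply Int.one_le_abs
        omega
      exact_mod_cast h3
    have h4 : r i - r j = s / (2 * N) * (((e i : ℕ) : ℝ) - ((e j : ℕ) : ℝ)) := by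
      simp only [hr]
      ring
    rw [h4, abs_mul, abs_of_pos (by positivity)]
    nlinarith [show (0:ℝ) < s / (2 * N) by positivity]
  have hsep : ∀ i j, i ≠ j → ∀ z w, dist z (c i) = r i → dist w (c j) = r j →
      s₀ / (4 * N) ≤ dist z w := by
    intro i j hij z w hz hw
    have hle : s₀ / (4 * N) ≤ s / (4 * N) := by gcongr
    refine hle.trans ?_
    have t1 : dist z (c i) ≤ dist z w + dist w (c j) + dist (c j) (c i) := by
      have := dist_triangle4 z w (c j) (c i)
      exact this
    have t2 : dist w (c j) ≤ dist z w + dist z (c i) + dist (c i) (c j) := by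
      have := dist_triangle4 w z (c i) (c j)
      rwa [dist_comm w z] at this
    have t3 : dist (c i) (c j) ≤ dist z (c i) + dist z w + dist w (c j) := by
      have := dist_triangle4 (c i) z w (c j)
      rwa [dist_comm (c i) z] at this
    have t4 : dist (c j) (c i) = dist (c i) (c j) := dist_comm _ _
    rcases hs3 (i, j) with h | h
    · simp only at h
      have h1 := hdiff i j hij
      have h2 : |r i - r j| ≤ dist z w + dist (c i) (c j) := by
        rw [abs_le]
        constructor <;> linarith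
      have h3 : s / (2 * N) = s / (4 * N) + s / (4 * N) := by ring
      linarith
    · simp only at h
      have h1 : s / (4 * N) ≤ s := by
        rw [div_le_iff₀ (by positivity)]
        have : (1:ℝ) ≤ N := by exact_mod_cast hN0
        nlinarith
      linarith [hr1 i, hr1 j]
  refine ⟨r, ⟨hr0, ?_, ?_⟩, fun i => (hr1 i).le.trans hs2, hsep⟩
  · intro i z hz
    have h1 := Complex.abs_im_le_norm (z - c i)
    rw [← dist_eq_norm] at h1
    have h2 : |z.im| ≤ |(z - c i).im| + |(c i).im| := by
      have : z.im = (z - c i).im + (c i).im := by simp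
      rw [this]
      exact abs_add_le _ _
    linarith [hr1 i, hc i]
  · intro i j hij z w hz hw hzw
    have h1 := hsep i j hij z w hz hw
    rw [hzw, dist_self] at h1
    have : 0 < s₀ / (4 * N) := by positivity
    linarith

/-- Maximum principle on an admissible polydisc, for functions which extend holomorphically in
each variable across the coincidences. -/
theorem norm_le_of_torus {c : Ix k → ℂ} {r : Ix k → ℝ} (h : Adm c r) {f : (Ix k → ℂ) → ℂ}
    (hf : ∀ (i : Ix k) (γ : Ix k → ℂ), (∀ j, dist (γ j) (c j) ≤ r j) →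
      (∀ a b, a ≠ i → b ≠ i → a ≠ b → γ a ≠ γ b) →
      ∃ (g : ℂ → ℂ) (U : Set ℂ), IsOpen U ∧ Metric.closedBall (c i) (r i) ⊆ U ∧
        DifferentiableOn ℂ g U ∧
        ∀ z ∈ U, (∀ j ≠ i, z ≠ γ j) → g z = f (Function.update γ i z))
    {M : ℝ} (hM : ∀ γ ∈ VL c r [], ‖f γ‖ ≤ M) :
    ∀ (L : List (Ix k)), L.Nodup → ∀ γ ∈ VL c r L, Function.Injective γ → ‖f γ‖ ≤ M := by
  intro L
  induction L with
  | nil => intro _ γ hγ _; exact hM γ hγ
  | cons i L ih =>
    intro hL γ hγ hinj
    have hiL : i ∉ L := (List.nodup_cons.1 hL).1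
    have hLn : L.Nodup := (List.nodup_cons.1 hL).2
    have hcl : ∀ j, dist (γ j) (c j) ≤ r j := by
      intro j
      by_cases hj : j ∈ i :: L
      · exact le_of_lt ((hγ j).1 hj)
      · exact le_of_eq ((hγ j).2 hj)
    obtain ⟨g, U, hU, hsub, hg, hgeq⟩ := hf i γ hcl fun a b _ _ hab h' => hab (hinj h')
    have hball : γ i ∈ Metric.ball (c i) (r i) := (hγ i).1 List.mem_cons_self
    have hgi : g (γ i) = f γ := by
      rw [hgeq (γ i) (hsub (Metric.ball_subset_closedBall hball))
        (fun j hj hij => hj (hinj hij).symm), Function.update_eq_self]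
    have hri := h.pos i
    have hbd : ∀ z ∈ Metric.sphere (c i) (r i), ‖g z‖ ≤ M := by
      have hgood : ∀ z ∈ Metric.sphere (c i) (r i), (∀ j ≠ i, z ≠ γ j) → ‖g z‖ ≤ M := by
        intro z hz hzj
        rw [hgeq z (hsub (Metric.sphere_subset_closedBall hz)) hzj]
        refine ih hLn _ (VL_update hiL hγ hz) ?_
        intro a b hab
        by_contra hab'
        by_cases ha : a = i
        · subst ha
          rw [Function.update_self, Function.update_of_ne (Ne.symm hab')] at hab
          exact hzj b (Ne.symm hab') hab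
        · by_cases hb : b = i
          · subst hb
            rw [Function.update_self, Function.update_of_ne ha] at hab
            exact hzj a ha hab.symm
          · rw [Function.update_of_ne ha, Function.update_of_ne hb] at hab
            exact hab' (hinj hab)
      intro z hz
      -- approximate by points of the sphere off the coordinates
      obtain ⟨θ, hθ⟩ : ∃ θ : ℝ, circleMap (c i) (r i) θ = z := by
        have : z ∈ Set.range (circleMap (c i) (r i)) := by
          rw [range_circleMap, abs_of_pos hri]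
          exact hz
        exact this
      have hcount : {θ : ℝ | circleMap (c i) (r i) θ ∈ Set.range γ}.Countable :=
        (Set.countable_range γ).preimage_circleMap (c i) hri.ne'
      have hdense : Dense {θ : ℝ | circleMap (c i) (r i) θ ∈ Set.range γ}ᶜ :=
        hcount.dense_compl ℝ
      have hcont : ContinuousAt (fun θ : ℝ => ‖g (circleMap (c i) (r i) θ)‖) θ := by
        have h1 : ContinuousAt g (circleMap (c i) (r i) θ) :=
          (hg.differentiableAt (hU.mem_nhds (hsub (Metric.sphere_subset_closedBall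
            (circleMap_mem_sphere _ hri.le _))))).continuousAt
        exact (ContinuousAt.comp (f := circleMap (c i) (r i)) h1
          (continuous_circleMap _ _).continuousAt).norm
      rw [← hθ]
      have hcl : θ ∈ closure {θ : ℝ | circleMap (c i) (r i) θ ∈ Set.range γ}ᶜ := hdense θ
      by_contra hlt
      push Not at hlt
      have hev := hcont.eventually (lt_mem_nhds hlt)
      obtain ⟨θ', h1, h2⟩ := (mem_closure_iff_nhds.1 hcl) _ hev
      have h3 := hgood (circleMap (c i) (r i) θ') (circleMap_mem_sphere _ hri.le _)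
        (fun j _ hj => h2 ⟨j, hj.symm⟩)
      exact absurd h3 (not_le.2 h1)
    rw [← hgi]
    have hdc : DiffContOnCl ℂ g (Metric.ball (c i) (r i)) :=
      DifferentiableOn.diffContOnCl_ball hg hsub
    refine Complex.norm_le_of_forall_mem_frontier_norm_le Metric.isBounded_ball hdc ?_
      (subset_closure hball)
    intro z hz
    rw [frontier_ball _ hri.ne'] at hz
    exact hbd z hz

end Pool.Agent.H26
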