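import Pool.Agent.H26.OmDefs
import Pool.Agent.H26.ZetaGrowth

/-!
Products of zeta values and generalised Dirichlet series.
-/

namespace Pool.Agent.H26

open Complex MeasureTheory Set Filter Topology

lemma zprod_cons (a : ℝ) (l : List ℝ) (s : ℂ) :
    zprod (a :: l) s = riemannZeta (s + I * a) * zprod l s := by
  simp [zprod]

lemma zprod_nil (s : ℂ) : zprod [] s = 1 := by simp [zprod]

lemma differentiableAt_zprod {l : List ℝ} {s : ℂ} (h : ∀ a ∈ l, s + I * a ≠ 1) :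
    DifferentiableAt ℂ (zprod l) s := by
  induction l with
  | nil =>
    have : zprod [] = fun _ => (1:ℂ) := by funext s; exact zprod_nil s
    rw [this]
    exact differentiableAt_const _
  | cons a l ih =>
    have : zprod (a :: l) = fun s => riemannZeta (s + I * a) * zprod l s := by
      funext s; exact zprod_cons a l s
    rw [this]
    have h1 := differentiableAt_riemannZeta (h a (by simp))
    refine DifferentiableAt.mul ?_ (ih fun b hb => h b (by simp [hb]))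
    exact DifferentiableAt.comp (f := fun s : ℂ => s + I * a) s h1 (by fun_prop)

lemma norm_zeta_shift_le {s : ℂ} {a : ℝ} (h0 : 1 / 2 ≤ s.re) (h2 : s.re ≤ 2)
    (h : 1 ≤ ‖s + I * a - 1‖) : ‖riemannZeta (s + I * a)‖ ≤ 6 * (1 + |a|) * (1 + |s.im|) := by
  have hne : s + I * a ≠ 1 := by
    intro h1
    rw [h1, sub_self, norm_zero] at h
    norm_num at h
  have hre : (s + I * a).re = s.re := by simp
  have h3 := norm_riemannZeta_le (s := s + I * a) (by rw [hre]; linarith) hne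
  have h4 : ‖s + I * a - 1‖⁻¹ ≤ 1 := inv_le_one_of_one_le₀ h
  have h5 : ‖s + I * a‖ ≤ 2 + |s.im| + |a| := by
    refine (norm_add_le _ _).trans ?_
    rw [norm_mul, norm_I, one_mul, Complex.norm_real, Real.norm_eq_abs]
    have := Complex.norm_le_abs_re_add_abs_im s
    rw [abs_of_nonneg (by linarith : 0 ≤ s.re)] at this
    linarith
  rw [hre] at h3
  have h6 : ‖s + I * a‖ / s.re ≤ 2 * (2 + |s.im| + |a|) := by
    rw [div_le_iff₀ (by linarith)]
    have : 0 ≤ 2 + |s.im| + |a| := by positivity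
    nlinarith
  have ha := abs_nonneg a
  have hi := abs_nonneg s.im
  nlinarith [mul_nonneg ha hi]

lemma exists_norm_zprod_le (l : List ℝ) : ∃ C : ℝ, 0 < C ∧ ∀ s : ℂ, 1 / 2 ≤ s.re → s.re ≤ 2 →
    (∀ a ∈ l, 1 ≤ ‖s + I * a - 1‖) → ‖zprod l s‖ ≤ C * (1 + |s.im|) ^ l.length := by
  induction l with
  | nil => exact ⟨1, one_pos, fun s _ _ _ => by simp [zprod_nil]⟩
  | cons a l ih =>
    obtain ⟨C, hC0, hC⟩ := ih
    refine ⟨6 * (1 + |a|) * C, by positivity, fun s h0 h2 h => ?_⟩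
    rw [zprod_cons, norm_mul, List.length_cons, pow_succ]
    have h1 := norm_zeta_shift_le h0 h2 (h a (by simp))
    have h3 := hC s h0 h2 fun b hb => h b (by simp [hb])
    calc _ ≤ (6 * (1 + |a|) * (1 + |s.im|)) * (C * (1 + |s.im|) ^ l.length) := by gcongr
      _ = _ := by ring

/-- the generalised Dirichlet polynomial `∑ c_m (m+1)^w` -/
noncomputable def Hs (c : ℕ → ℂ) (w : ℂ) : ℂ := ∑' m : ℕ, c m * ((m + 1 : ℕ) : ℂ) ^ w

lemma norm_Hs_term_le (c : ℕ → ℂ) (m : ℕ) {w : ℂ} {B : ℝ} (h : w.re ≤ B) :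
    ‖c m * ((m + 1 : ℕ) : ℂ) ^ w‖ ≤ ‖c m‖ * ((m + 1 : ℕ) : ℝ) ^ B := by
  rw [norm_mul, Complex.norm_natCast_cpow_of_pos (Nat.succ_pos m)]
  have : (1:ℝ) ≤ ((m + 1 : ℕ) : ℝ) := by
    push_cast
    linarith [Nat.cast_nonneg (α := ℝ) m]
  gcongr

lemma norm_Hs_le {c : ℕ → ℂ} {B : ℝ} (hc : Summable fun m => ‖c m‖ * ((m + 1 : ℕ) : ℝ) ^ B)
    {w : ℂ} (h : w.re ≤ B) : ‖Hs c w‖ ≤ ∑' m, ‖c m‖ * ((m + 1 : ℕ) : ℝ) ^ B :=
  tsum_of_norm_bounded hc.hasSum fun m => norm_Hs_term_le c m h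

lemma differentiableOn_Hs {c : ℕ → ℂ} {B : ℝ}
    (hc : Summable fun m => ‖c m‖ * ((m + 1 : ℕ) : ℝ) ^ B) :
    DifferentiableOn ℂ (Hs c) {w | w.re < B} := by
  refine differentiableOn_tsum_of_summable_norm hc (fun m => ?_)
    (isOpen_lt continuous_re continuous_const) fun m w hw => norm_Hs_term_le c m (le_of_lt hw)
  intro w _
  refine DifferentiableAt.differentiableWithinAt ?_
  refine DifferentiableAt.const_mul ?_ _
  refine DifferentiableAt.const_cpow differentiableAt_id (Or.inl ?_)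
  exact_mod_cast Nat.succ_ne_zero m

lemma differentiableAt_Hs {c : ℕ → ℂ} {B : ℝ}
    (hc : Summable fun m => ‖c m‖ * ((m + 1 : ℕ) : ℝ) ^ B) {w : ℂ} (h : w.re < B) :
    DifferentiableAt ℂ (Hs c) w :=
  (differentiableOn_Hs hc).differentiableAt ((isOpen_lt continuous_re continuous_const).mem_nhds h)

end Pool.Agent.H26
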