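import Pool.Agent.H26.Gp
import Pool.Agent.H26.MBDefs

/-!
Lower bounds for zeta on the line `Re s = -1/2`.
-/

namespace Pool.Agent.H26

open Complex MeasureTheory Set Filter Topology

lemma exists_norm_zeta_right_ge : ∃ c : ℝ, 0 < c ∧ ∀ s : ℂ, s.re = 3 / 2 →
    c ≤ ‖riemannZeta s‖ := by
  have hsum : Summable fun n : ℕ => (n : ℝ) ^ (-(3 / 2) : ℝ) :=
    Real.summable_nat_rpow.2 (by norm_num)
  set Z : ℝ := ∑' n : ℕ, (n : ℝ) ^ (-(3 / 2) : ℝ) with hZ
  have hZ0 : 0 ≤ Z := tsum_nonneg fun n => by positivity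
  refine ⟨(Z + 1)⁻¹, by positivity, fun s hs => ?_⟩
  have h1 : (1:ℝ) < s.re := by rw [hs]; norm_num
  have h := ArithmeticFunction.LSeries_zeta_mul_Lseries_moebius h1
  rw [ArithmeticFunction.LSeries_zeta_eq_riemannZeta h1] at h
  have hmu : ‖LSeries (fun n => ((ArithmeticFunction.moebius n : ℤ) : ℂ)) s‖ ≤ Z := by
    unfold LSeries
    refine tsum_of_norm_bounded hsum.hasSum fun n => ?_
    rcases Nat.eq_zero_or_pos n with h0 | h0
    · subst h0
      rw [LSeries.term_zero, norm_zero]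
      positivity
    · rw [LSeries.term_of_ne_zero h0.ne', norm_div, Complex.norm_natCast_cpow_of_pos h0,
        div_eq_mul_inv, ← Real.rpow_neg (Nat.cast_nonneg n), hs]
      have h3 : ‖((ArithmeticFunction.moebius n : ℤ) : ℂ)‖ ≤ 1 := by
        rw [Complex.norm_intCast]
        have := ArithmeticFunction.abs_moebius_le_one (n := n)
        exact_mod_cast this
      calc _ ≤ 1 * (n:ℝ) ^ (-(3 / 2) : ℝ) := by gcongr
        _ = _ := one_mul _
  have h2 := congrArg norm h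
  rw [norm_mul, norm_one] at h2
  rw [inv_le_iff_one_le_mul₀ (by positivity)]
  calc (1:ℝ) = ‖riemannZeta s‖ * ‖LSeries (fun n => ((ArithmeticFunction.moebius n : ℤ) : ℂ)) s‖ :=
        h2.symm
    _ ≤ ‖riemannZeta s‖ * (Z + 1) := by
        gcongr
        linarith

lemma norm_cos_three_quarter_sq (y : ℝ) :
    ‖Complex.cos (Real.pi * (((3 / 2 : ℝ) : ℂ) - y * I) / 2)‖ ^ 2 = Real.cosh (Real.pi * y) / 2 := by
  have e1 : (Real.pi : ℂ) * (((3 / 2 : ℝ) : ℂ) - y * I) / 2 =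
      ((3 * Real.pi / 4 : ℝ) : ℂ) + ((-(Real.pi * y / 2) : ℝ) : ℂ) * I := by
    push_cast
    ring
  have hc : Real.cos (3 * Real.pi / 4) = -(Real.sqrt 2 / 2) := by
    rw [show 3 * Real.pi / 4 = Real.pi - Real.pi / 4 by ring, Real.cos_pi_sub,
      Real.cos_pi_div_four]
  have hs : Real.sin (3 * Real.pi / 4) = Real.sqrt 2 / 2 := by
    rw [show 3 * Real.pi / 4 = Real.pi - Real.pi / 4 by ring, Real.sin_pi_sub,
      Real.sin_pi_div_four]
  rw [e1, Complex.cos_add_mul_I, ← Complex.ofReal_cos, ← Complex.ofReal_sin,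
    ← Complex.ofReal_cosh, ← Complex.ofReal_sinh, hc, hs]
  have h2 : Real.sqrt 2 ^ 2 = 2 := Real.sq_sqrt (by norm_num)
  have e2 : ((-(Real.sqrt 2 / 2) : ℝ) : ℂ) * (Real.cosh (-(Real.pi * y / 2)) : ℂ) -
      ((Real.sqrt 2 / 2 : ℝ) : ℂ) * (Real.sinh (-(Real.pi * y / 2)) : ℂ) * I =
      ((-(Real.sqrt 2 / 2) * Real.cosh (-(Real.pi * y / 2)) : ℝ) : ℂ) +
      ((-(Real.sqrt 2 / 2 * Real.sinh (-(Real.pi * y / 2))) : ℝ) : ℂ) * I := by
    push_cast
    ring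
  rw [e2, Complex.sq_norm, Complex.normSq_add_mul_I, Real.cosh_neg, Real.sinh_neg]
  have h3 : Real.cosh (Real.pi * y) = Real.cosh (Real.pi * y / 2) ^ 2 +
      Real.sinh (Real.pi * y / 2) ^ 2 := by
    rw [← Real.cosh_two_mul]
    congr 1
    ring
  rw [h3]
  have h4 : (-(Real.sqrt 2 / 2) * Real.cosh (Real.pi * y / 2)) ^ 2 =
      Real.sqrt 2 ^ 2 / 4 * Real.cosh (Real.pi * y / 2) ^ 2 := by ring
  have h5 : (-(Real.sqrt 2 / 2 * -Real.sinh (Real.pi * y / 2))) ^ 2 =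
      Real.sqrt 2 ^ 2 / 4 * Real.sinh (Real.pi * y / 2) ^ 2 := by ring
  rw [h4, h5, h2]
  ring

/-- lower bound for zeta on `Re s = -1/2` -/
theorem exists_norm_zeta_neg_half_ge : ∃ c : ℝ, 0 < c ∧ ∀ y : ℝ,
    c * (1 + |y|) ≤ ‖riemannZeta (((-(1 / 2) : ℝ) : ℂ) + y * I)‖ := by
  obtain ⟨c, hc0, hc⟩ := exists_norm_zeta_right_ge
  refine ⟨c / 24, by positivity, fun y => ?_⟩
  set s : ℂ := ((3 / 2 : ℝ) : ℂ) - y * I with hs
  have hsre : s.re = 3 / 2 := by simp [hs]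
  have e1 : ((-(1 / 2) : ℝ) : ℂ) + y * I = 1 - s := by rw [hs]; push_cast; ring
  have hs1 : s ≠ 1 := by
    intro h
    rw [h] at hsre
    norm_num at hsre
  rw [e1, riemannZeta_one_sub (fun n => ne_neg_nat_of_re_pos (by rw [hsre]; norm_num) n) hs1,
    norm_mul, norm_mul, norm_mul, norm_mul]
  have hz := hc s hsre
  have h2pi : ‖(2 * (Real.pi : ℂ)) ^ (-s)‖ = (2 * Real.pi) ^ (-(3 / 2) : ℝ) := by
    have : (2 * (Real.pi : ℂ)) = ((2 * Real.pi : ℝ) : ℂ) := by push_cast; ring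
    rw [this, Complex.norm_cpow_eq_rpow_re_of_pos (by positivity)]
    simp [hsre]
  have hG : ‖Gamma s‖ = ‖((1 / 2 : ℝ) : ℂ) - y * I‖ * ‖Gamma (((1 / 2 : ℝ) : ℂ) + y * I)‖ := by
    have hne : ((1 / 2 : ℝ) : ℂ) - y * I ≠ 0 := by
      intro h
      have := congrArg Complex.re h
      simp at this
    have e2 : s = (((1 / 2 : ℝ) : ℂ) - y * I) + 1 := by rw [hs]; push_cast; ring
    rw [e2, Gamma_add_one _ hne, norm_mul, norm_Gamma_symm]
  have hprod : ‖Gamma (((1 / 2 : ℝ) : ℂ) + y * I)‖ * ‖Complex.cos (Real.pi * s / 2)‖ =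
      Real.sqrt (Real.pi / 2) := by
    rw [← Real.sqrt_sq (mul_nonneg (norm_nonneg _) (norm_nonneg _)), mul_pow,
      norm_Gamma_half_sq, hs, norm_cos_three_quarter_sq]
    congr 1
    have := (Real.cosh_pos (Real.pi * y)).ne'
    field_simp
  have hden : (1 + |y|) / 3 ≤ ‖((1 / 2 : ℝ) : ℂ) - y * I‖ := by
    have h1 := Complex.abs_re_le_norm (((1 / 2 : ℝ) : ℂ) - y * I)
    have h2 := Complex.abs_im_le_norm (((1 / 2 : ℝ) : ℂ) - y * I)
    simp only [sub_re, ofReal_re, mul_re, I_re, mul_zero, ofReal_im, I_im, mul_one, sub_self,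
      sub_zero, sub_im, mul_im, add_zero, zero_sub, abs_neg] at h1 h2
    rw [abs_of_pos (by norm_num)] at h1
    linarith
  have hpi : 1 / 8 ≤ 2 * (2 * Real.pi) ^ (-(3 / 2) : ℝ) * Real.sqrt (Real.pi / 2) := by
    have hp := Real.pi_pos
    have e : (2 * Real.pi) ^ (-(3 / 2) : ℝ) = (2 * Real.pi)⁻¹ * (Real.sqrt (2 * Real.pi))⁻¹ := by
      rw [Real.sqrt_eq_rpow, ← Real.rpow_neg_one, ← Real.rpow_neg (by positivity),
        ← Real.rpow_add (by positivity)]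
      norm_num
    have e2 : Real.sqrt (2 * Real.pi) = 2 * Real.sqrt (Real.pi / 2) := by
      rw [show 2 * Real.pi = 2 ^ 2 * (Real.pi / 2) by ring, Real.sqrt_mul (by norm_num),
        Real.sqrt_sq (by norm_num)]
    have hs0 : 0 < Real.sqrt (Real.pi / 2) := Real.sqrt_pos.2 (by positivity)
    rw [e, e2]
    have : 2 * ((2 * Real.pi)⁻¹ * (2 * Real.sqrt (Real.pi / 2))⁻¹) * Real.sqrt (Real.pi / 2) =
        1 / (2 * Real.pi) := by
      field_simp
    rw [this]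
    rw [div_le_div_iff₀ (by norm_num) (by positivity)]
    linarith [Real.pi_lt_four]
  rw [hG, h2pi, Complex.norm_ofNat]
  calc c / 24 * (1 + |y|) = (1 / 8) * ((1 + |y|) / 3) * c := by ring
    _ ≤ (2 * (2 * Real.pi) ^ (-(3 / 2) : ℝ) * Real.sqrt (Real.pi / 2)) *
        ‖((1 / 2 : ℝ) : ℂ) - y * I‖ * ‖riemannZeta s‖ := by gcongr
    _ = _ := by
        rw [← hprod]
        ring

end Pool.Agent.H26
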